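import Pool.Agent.Lib.P07318o.FrIndep

/-!
# Module AbsF: the form with absolute values

PROOF.  Cauchy-Schwarz in `t` (`ENNReal.lintegral_mul_le_Lp_mul_Lq` with exponents `2, 2`), slot `0` (`xs_zero`: its point is `t + α`) against
the product over `univ.erase 0`:
`LA ν κ α Z h ^ 2 ≤ (∫⁻ t, ‖Z 0 (t + α)‖ₑ ^ 2) * ∫⁻ t, ∏ j ∈ univ.erase 0, ‖Z j (t + xs ν κ α h j)‖ₑ ^ 2`,
the first factor is `nm (Z 0)` (`lintegral_add_right_eq_self`).  Integrate over `h` and use `indep` with `i = 0`, `g j = ‖Z j ·‖ₑ ^ 2`, finally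
`Finset.mul_prod_erase`.
-/

set_option autoImplicit false

namespace Pool.Agent.P07318o

open MeasureTheory Complex Pool.Agent.P07318s Pool.Agent.P07318f Pool.Agent.P07318h

namespace AbsFAux

/-- Cauchy-Schwarz -/
lemma cs (f g : ℝ → ENNReal) (hf : Measurable f) (hg : Measurable g) :
    (∫⁻ t, f t * g t) ^ 2 ≤ (∫⁻ t, f t ^ 2) * ∫⁻ t, g t ^ 2 := by
  have hpq : (2 : ℝ).HolderConjugate 2 := Real.HolderConjugate.two_two
  have h1 := ENNReal.lintegral_mul_le_Lp_mul_Lq volume hpq hf.aemeasurable hg.aemeasurable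
  simp only [Pi.mul_apply, ENNReal.rpow_two] at h1
  calc (∫⁻ t, f t * g t) ^ 2
      ≤ ((∫⁻ t, f t ^ 2) ^ (1 / 2 : ℝ) * (∫⁻ t, g t ^ 2) ^ (1 / 2 : ℝ)) ^ 2 := by
        gcongr
    _ = (∫⁻ t, f t ^ 2) * ∫⁻ t, g t ^ 2 := by
        rw [mul_pow, ← ENNReal.rpow_two, ← ENNReal.rpow_two, ← ENNReal.rpow_mul, ← ENNReal.rpow_mul]
        norm_num

end AbsFAux

open AbsFAux

theorem abs_form {m : ℕ} (hm : 1 ≤ m) (ν : Fin (m + 1) → ℝ) (hν : Adm ν) : ∃ C : ℝ, 0 < C ∧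
    ∀ (κ α : ℝ) (Z : Fin (m + 2) → ℝ → ℂ), (∀ j, Measurable (Z j)) →
    ∫⁻ h, LA ν κ α Z h ^ 2 ≤ ENNReal.ofReal C * ∏ j, nm (Z j) := by
  obtain ⟨C, hC, hI⟩ := indep ν hν
  refine ⟨C, hC, fun κ α Z hZ => ?_⟩
  have hg : ∀ j, Measurable fun y => ‖Z j y‖ₑ ^ 2 := fun j => (hZ j).enorm.pow_const 2
  have h1 : ∀ h, LA ν κ α Z h ^ 2 ≤ nm (Z 0) *
      ∫⁻ t, ∏ j ∈ Finset.univ.erase (0 : Fin (m + 2)), ‖Z j (t + xs ν κ α h j)‖ₑ ^ 2 := by
    intro h
    have h2 : LA ν κ α Z h = ∫⁻ t, ‖Z 0 (t + α)‖ₑ *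
        ∏ j ∈ Finset.univ.erase (0 : Fin (m + 2)), ‖Z j (t + xs ν κ α h j)‖ₑ := by
      unfold LA
      refine lintegral_congr fun t => ?_
      rw [← Finset.mul_prod_erase Finset.univ _ (Finset.mem_univ (0 : Fin (m + 2))), xs_zero]
    rw [h2]
    refine (cs _ _ ?_ ?_).trans ?_
    · exact (hZ 0).enorm.comp (measurable_id.add_const α)
    · refine Finset.measurable_fun_prod _ fun j _ => ?_
      exact (hZ j).enorm.comp (measurable_id.add_const _)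
    · refine mul_le_mul (le_of_eq ?_) (le_of_eq ?_) zero_le zero_le
      · unfold nm
        exact lintegral_add_right_eq_self (fun y => ‖Z 0 y‖ₑ ^ 2) α
      · refine lintegral_congr fun t => ?_
        rw [Finset.prod_pow]
  refine (lintegral_mono h1).trans ?_
  have hmeas : Measurable fun h : Fin m → ℝ => ∫⁻ t, ∏ j ∈ Finset.univ.erase (0 : Fin (m + 2)), ‖Z j (t + xs ν κ α h j)‖ₑ ^ 2 := by
    refine Measurable.lintegral_prod_right' (f := fun p : (Fin m → ℝ) × ℝ => ∏ j ∈ Finset.univ.erase (0 : Fin (m + 2)), ‖Z j (p.2 + xs ν κ α p.1 j)‖ₑ ^ 2) ?_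
    refine Finset.measurable_fun_prod _ fun j _ => ?_
    refine (hg j).comp ?_
    exact measurable_snd.add ((measurable_pi_apply j).comp ((xs_cont ν κ α).measurable.comp measurable_fst))
  rw [lintegral_const_mul _ hmeas]
  refine (mul_le_mul_right (hI κ α 0 (fun j y => ‖Z j y‖ₑ ^ 2) hg) _).trans (le_of_eq ?_)
  rw [← Finset.mul_prod_erase Finset.univ (fun j => nm (Z j)) (Finset.mem_univ (0 : Fin (m + 2)))]
  unfold nm
  ring

end Pool.Agent.P07318o
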