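import Pool.Agent.Lib.P07318o.GsDefs

/-!
# Module GsQ: mean squares of trigonometric polynomials with a Gaussian weight (one and two variables)

PROOFS.  One variable: `‖e^{-(τ/D)²} ∑ w_i e^{iτ a_i}‖² = ∑_i ∑_j w_i conj(w_j) e^{-2 τ²/D²} e^{iτ (a_i - a_j)}` (as complex numbers), and by `gi`
with `b = 2 / D ^ 2` `∫ e^{-2τ²/D²} e^{iτθ} dτ = √(π D²/2) e^{-D² θ²/8}`, `√(π D²/2) = D √(π/2) ≤ 2 D`.  The function of `τ` is integrable
(`gi_able`), so `∫⁻ ‖..‖ₑ ^ 2 = ofReal (∫ ‖..‖ ^ 2)`, and the real number `∫ ‖..‖ ^ 2 = ∑ ∑ .. ≤ 2 D ∑ ∑ ‖w_i‖ ‖w_j‖ e^{-D² (a_i - a_j)²/8}` by the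
triangle inequality.
Two variables: the same: `‖..‖² = ∑ ∑ w_i conj(w_j) (e^{-2τ²/D²} e^{iτ(a_i - a_j)}) (e^{-2z²/D²} e^{iz(b_i - b_j)})`, the double integral of a
product is the product of the integrals (`integral_prod_mul` on `ℝ × ℝ`, `lintegral_prod`), `(√(π D²/2))² = π D²/2 ≤ 2 D²`.
-/

set_option autoImplicit false

namespace Pool.Agent.P07318o

open MeasureTheory Complex Pool.Agent.P07318s Pool.Agent.P07318f Pool.Agent.P07318h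

namespace GsQAux

theorem quadG {X ι : Type*} [MeasurableSpace X] (μ : Measure X) (F : Finset ι) (f : X → ℂ)
    (c : ι → ι → ℂ) (h : ι → ι → X → ℂ) (k : ι → ι → ℝ) (hint : ∀ i j, Integrable (h i j) μ)
    (hf : ∀ x, ((‖f x‖ ^ 2 : ℝ) : ℂ) = ∑ i ∈ F, ∑ j ∈ F, c i j * h i j x)
    (hk : ∀ i j, ‖c i j‖ * ‖∫ x, h i j x ∂μ‖ ≤ k i j) :
    ∫⁻ x, ‖f x‖ₑ ^ 2 ∂μ ≤ ENNReal.ofReal (∑ i ∈ F, ∑ j ∈ F, k i j) := by
  have hI : Integrable (fun x => ∑ i ∈ F, ∑ j ∈ F, c i j * h i j x) μ :=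
    integrable_finset_sum _ fun i _ => integrable_finset_sum _ fun j _ => (hint i j).const_mul _
  have hI2 : Integrable (fun x => ((‖f x‖ ^ 2 : ℝ) : ℂ)) μ :=
    hI.congr (Filter.Eventually.of_forall fun x => (hf x).symm)
  have hR : Integrable (fun x => ‖f x‖ ^ 2) μ := by
    have h1 := hI2.re
    refine h1.congr (Filter.Eventually.of_forall fun x => ?_)
    exact Complex.ofReal_re _
  have h1 : ∫⁻ x, ‖f x‖ₑ ^ 2 ∂μ = ENNReal.ofReal (∫ x, ‖f x‖ ^ 2 ∂μ) := by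
    rw [ofReal_integral_eq_lintegral_ofReal hR (Filter.Eventually.of_forall fun x => sq_nonneg _)]
    refine lintegral_congr fun x => ?_
    rw [← ofReal_norm_eq_enorm, ENNReal.ofReal_pow (norm_nonneg _)]
  rw [h1]
  refine ENNReal.ofReal_le_ofReal ?_
  have h2 : ((∫ x, ‖f x‖ ^ 2 ∂μ : ℝ) : ℂ) = ∑ i ∈ F, ∑ j ∈ F, c i j * ∫ x, h i j x ∂μ := by
    rw [← integral_complex_ofReal, integral_congr_ae (Filter.Eventually.of_forall hf),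
      integral_finset_sum _ fun i _ => integrable_finset_sum _ fun j _ => (hint i j).const_mul _]
    refine Finset.sum_congr rfl fun i _ => ?_
    rw [integral_finset_sum _ fun j _ => (hint i j).const_mul _]
    refine Finset.sum_congr rfl fun j _ => ?_
    rw [integral_const_mul]
  calc ∫ x, ‖f x‖ ^ 2 ∂μ ≤ |∫ x, ‖f x‖ ^ 2 ∂μ| := le_abs_self _
    _ = ‖((∫ x, ‖f x‖ ^ 2 ∂μ : ℝ) : ℂ)‖ := by rw [Complex.norm_real, Real.norm_eq_abs]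
    _ = ‖∑ i ∈ F, ∑ j ∈ F, c i j * ∫ x, h i j x ∂μ‖ := by rw [h2]
    _ ≤ ∑ i ∈ F, ∑ j ∈ F, k i j := by
      refine (norm_sum_le _ _).trans (Finset.sum_le_sum fun i _ => ?_)
      refine (norm_sum_le _ _).trans (Finset.sum_le_sum fun j _ => ?_)
      rw [norm_mul]
      exact hk i j

theorem sqrt_le {D : ℝ} (hD : 0 < D) : Real.sqrt (Real.pi / (2 / D ^ 2)) ≤ 2 * D := by
  rw [show (2 : ℝ) * D = Real.sqrt ((2 * D) ^ 2) from (Real.sqrt_sq (by positivity)).symm]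
  refine Real.sqrt_le_sqrt ?_
  rw [div_div_eq_mul_div, div_le_iff₀ two_pos]
  have := Real.pi_le_four
  nlinarith [sq_nonneg D]

theorem sqrt_sq_le {D : ℝ} (hD : 0 < D) :
    Real.sqrt (Real.pi / (2 / D ^ 2)) * Real.sqrt (Real.pi / (2 / D ^ 2)) ≤ 2 * D ^ 2 := by
  rw [Real.mul_self_sqrt (by positivity), div_div_eq_mul_div, div_le_iff₀ two_pos]
  have := Real.pi_le_four
  nlinarith [sq_nonneg D]

theorem exp_eq {D θ : ℝ} (hD : 0 < D) :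
    Real.exp (-(θ ^ 2 / (4 * (2 / D ^ 2)))) = Real.exp (-(D * θ) ^ 2 / 8) := by
  congr 1
  field_simp
  ring

/-- the basic function -/
noncomputable def e1 (D θ v : ℝ) : ℂ :=
  ((Real.exp (-(2 / D ^ 2 * v ^ 2)) : ℝ) : ℂ) * cexp (((v * θ : ℝ) : ℂ) * I)

theorem prod_eq {D : ℝ} (τ a a' : ℝ) :
    (((Real.exp (-(τ / D) ^ 2) : ℝ) : ℂ) * cexp (((τ * a : ℝ) : ℂ) * I)) *
      (starRingEnd ℂ) (((Real.exp (-(τ / D) ^ 2) : ℝ) : ℂ) * cexp (((τ * a' : ℝ) : ℂ) * I)) =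
      e1 D (a - a') τ := by
  unfold e1
  rw [map_mul, Complex.conj_ofReal, ← Complex.exp_conj, map_mul, Complex.conj_ofReal,
    Complex.conj_I, Complex.ofReal_exp, Complex.ofReal_exp, ← Complex.exp_add, ← Complex.exp_add,
    ← Complex.exp_add, ← Complex.exp_add]
  congr 1
  push_cast
  ring

end GsQAux

open GsQAux

theorem quad1 {ι : Type*} (F : Finset ι) (w : ι → ℂ) (a : ι → ℝ) {D : ℝ} (hD : 0 < D) :
    ∫⁻ τ : ℝ, ‖((Real.exp (-(τ / D) ^ 2) : ℝ) : ℂ) * ∑ i ∈ F, w i * cexp (((τ * a i : ℝ) : ℂ) * I)‖ₑ ^ 2 ≤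
      ENNReal.ofReal (2 * D * ∑ i ∈ F, ∑ j ∈ F, ‖w i‖ * ‖w j‖ * Real.exp (-(D * (a i - a j)) ^ 2 / 8)) := by
  have hb : (0 : ℝ) < 2 / D ^ 2 := by positivity
  have key := quadG (volume : Measure ℝ) F
    (fun τ : ℝ => ((Real.exp (-(τ / D) ^ 2) : ℝ) : ℂ) * ∑ i ∈ F, w i * cexp (((τ * a i : ℝ) : ℂ) * I))
    (fun i j => w i * (starRingEnd ℂ) (w j)) (fun i j τ => e1 D (a i - a j) τ)
    (fun i j => 2 * D * (‖w i‖ * ‖w j‖ * Real.exp (-(D * (a i - a j)) ^ 2 / 8)))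
    (fun i j => gi_able hb _) ?_ ?_
  · refine key.trans (le_of_eq ?_)
    congr 1
    rw [Finset.mul_sum]
    refine Finset.sum_congr rfl fun i _ => ?_
    rw [Finset.mul_sum]
  · intro τ
    have h1 : ∀ z : ℂ, ((‖z‖ ^ 2 : ℝ) : ℂ) = z * (starRingEnd ℂ) z := by
      intro z
      rw [Complex.mul_conj, Complex.normSq_eq_norm_sq]
    have h2 : ((Real.exp (-(τ / D) ^ 2) : ℝ) : ℂ) * ∑ i ∈ F, w i * cexp (((τ * a i : ℝ) : ℂ) * I) =
        ∑ i ∈ F, w i * (((Real.exp (-(τ / D) ^ 2) : ℝ) : ℂ) * cexp (((τ * a i : ℝ) : ℂ) * I)) := by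
      rw [Finset.mul_sum]
      exact Finset.sum_congr rfl fun i _ => by ring
    rw [h1, h2, map_sum, Finset.sum_mul]
    refine Finset.sum_congr rfl fun i _ => ?_
    rw [Finset.mul_sum]
    refine Finset.sum_congr rfl fun j _ => ?_
    rw [map_mul, ← prod_eq]
    ring
  · intro i j
    have h1 : ∫ τ, e1 D (a i - a j) τ =
        ((Real.sqrt (Real.pi / (2 / D ^ 2)) * Real.exp (-((a i - a j) ^ 2 / (4 * (2 / D ^ 2)))) : ℝ) : ℂ) :=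
      gi hb _
    rw [h1, Complex.norm_real, norm_mul, RCLike.norm_conj, exp_eq hD, Real.norm_of_nonneg (by positivity)]
    have h2 := sqrt_le hD
    have h3 : 0 ≤ ‖w i‖ * ‖w j‖ * Real.exp (-(D * (a i - a j)) ^ 2 / 8) := by positivity
    calc ‖w i‖ * ‖w j‖ * (Real.sqrt (Real.pi / (2 / D ^ 2)) * Real.exp (-(D * (a i - a j)) ^ 2 / 8))
        = Real.sqrt (Real.pi / (2 / D ^ 2)) *
          (‖w i‖ * ‖w j‖ * Real.exp (-(D * (a i - a j)) ^ 2 / 8)) := by ring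
      _ ≤ 2 * D * (‖w i‖ * ‖w j‖ * Real.exp (-(D * (a i - a j)) ^ 2 / 8)) :=
        mul_le_mul_of_nonneg_right h2 h3

theorem quad2 {ι : Type*} (F : Finset ι) (w : ι → ℂ) (a b : ι → ℝ) {D : ℝ} (hD : 0 < D) :
    ∫⁻ τ : ℝ, ∫⁻ z : ℝ, ‖((Real.exp (-(τ / D) ^ 2) * Real.exp (-(z / D) ^ 2) : ℝ) : ℂ) *
        ∑ i ∈ F, w i * cexp (((τ * a i + z * b i : ℝ) : ℂ) * I)‖ₑ ^ 2 ≤
      ENNReal.ofReal (2 * D ^ 2 * ∑ i ∈ F, ∑ j ∈ F, ‖w i‖ * ‖w j‖ *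
        Real.exp (-(D ^ 2 * ((a i - a j) ^ 2 + (b i - b j) ^ 2)) / 8)) := by
  have hb : (0 : ℝ) < 2 / D ^ 2 := by positivity
  have hmeas : Measurable fun p : ℝ × ℝ => ‖((Real.exp (-(p.1 / D) ^ 2) * Real.exp (-(p.2 / D) ^ 2) : ℝ) : ℂ) *
        ∑ i ∈ F, w i * cexp (((p.1 * a i + p.2 * b i : ℝ) : ℂ) * I)‖ₑ ^ 2 := by
    have : Continuous fun p : ℝ × ℝ => ((Real.exp (-(p.1 / D) ^ 2) * Real.exp (-(p.2 / D) ^ 2) : ℝ) : ℂ) *
        ∑ i ∈ F, w i * cexp (((p.1 * a i + p.2 * b i : ℝ) : ℂ) * I) := by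
      fun_prop
    exact (this.measurable.enorm).pow_const 2
  have hprod : ∫⁻ τ : ℝ, ∫⁻ z : ℝ, ‖((Real.exp (-(τ / D) ^ 2) * Real.exp (-(z / D) ^ 2) : ℝ) : ℂ) *
        ∑ i ∈ F, w i * cexp (((τ * a i + z * b i : ℝ) : ℂ) * I)‖ₑ ^ 2 =
      ∫⁻ p : ℝ × ℝ, ‖((Real.exp (-(p.1 / D) ^ 2) * Real.exp (-(p.2 / D) ^ 2) : ℝ) : ℂ) *
        ∑ i ∈ F, w i * cexp (((p.1 * a i + p.2 * b i : ℝ) : ℂ) * I)‖ₑ ^ 2
        ∂((volume : Measure ℝ).prod (volume : Measure ℝ)) := by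
    rw [lintegral_prod _ hmeas.aemeasurable]
  rw [hprod]
  have key := quadG ((volume : Measure ℝ).prod (volume : Measure ℝ)) F
    (fun p : ℝ × ℝ => ((Real.exp (-(p.1 / D) ^ 2) * Real.exp (-(p.2 / D) ^ 2) : ℝ) : ℂ) *
        ∑ i ∈ F, w i * cexp (((p.1 * a i + p.2 * b i : ℝ) : ℂ) * I))
    (fun i j => w i * (starRingEnd ℂ) (w j))
    (fun i j p => e1 D (a i - a j) p.1 * e1 D (b i - b j) p.2)
    (fun i j => 2 * D ^ 2 * (‖w i‖ * ‖w j‖ *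
      Real.exp (-(D ^ 2 * ((a i - a j) ^ 2 + (b i - b j) ^ 2)) / 8)))
    (fun i j => (gi_able hb _).mul_prod (gi_able hb _)) ?_ ?_
  · refine key.trans (le_of_eq ?_)
    congr 1
    rw [Finset.mul_sum]
    refine Finset.sum_congr rfl fun i _ => ?_
    rw [Finset.mul_sum]
  · rintro ⟨τ, z⟩
    have h1 : ∀ z : ℂ, ((‖z‖ ^ 2 : ℝ) : ℂ) = z * (starRingEnd ℂ) z := by
      intro z
      rw [Complex.mul_conj, Complex.normSq_eq_norm_sq]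
    have h2 : ((Real.exp (-(τ / D) ^ 2) * Real.exp (-(z / D) ^ 2) : ℝ) : ℂ) *
        ∑ i ∈ F, w i * cexp (((τ * a i + z * b i : ℝ) : ℂ) * I) =
        ∑ i ∈ F, w i * ((((Real.exp (-(τ / D) ^ 2) : ℝ) : ℂ) * cexp (((τ * a i : ℝ) : ℂ) * I)) *
          (((Real.exp (-(z / D) ^ 2) : ℝ) : ℂ) * cexp (((z * b i : ℝ) : ℂ) * I))) := by
      rw [Finset.mul_sum]
      refine Finset.sum_congr rfl fun i _ => ?_
      rw [Complex.ofReal_add (τ * a i), add_mul, Complex.exp_add, Complex.ofReal_mul]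
      ring
    show ((‖((Real.exp (-(τ / D) ^ 2) * Real.exp (-(z / D) ^ 2) : ℝ) : ℂ) *
        ∑ i ∈ F, w i * cexp (((τ * a i + z * b i : ℝ) : ℂ) * I)‖ ^ 2 : ℝ) : ℂ) = _
    rw [h1, h2, map_sum, Finset.sum_mul]
    refine Finset.sum_congr rfl fun i _ => ?_
    rw [Finset.mul_sum]
    refine Finset.sum_congr rfl fun j _ => ?_
    rw [map_mul, map_mul, ← prod_eq, ← prod_eq]
    ring
  · intro i j
    have h1 : ∫ τ, e1 D (a i - a j) τ =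
        ((Real.sqrt (Real.pi / (2 / D ^ 2)) * Real.exp (-((a i - a j) ^ 2 / (4 * (2 / D ^ 2)))) : ℝ) : ℂ) :=
      gi hb _
    have h1' : ∫ τ, e1 D (b i - b j) τ =
        ((Real.sqrt (Real.pi / (2 / D ^ 2)) * Real.exp (-((b i - b j) ^ 2 / (4 * (2 / D ^ 2)))) : ℝ) : ℂ) :=
      gi hb _
    rw [integral_prod_mul (fun τ => e1 D (a i - a j) τ) (fun τ => e1 D (b i - b j) τ), h1, h1',
      norm_mul, norm_mul, RCLike.norm_conj, Complex.norm_real, Complex.norm_real, exp_eq hD,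
      exp_eq hD, Real.norm_of_nonneg (by positivity), Real.norm_of_nonneg (by positivity)]
    have h2 := sqrt_sq_le hD
    have h4 : Real.exp (-(D ^ 2 * ((a i - a j) ^ 2 + (b i - b j) ^ 2)) / 8) =
        Real.exp (-(D * (a i - a j)) ^ 2 / 8) * Real.exp (-(D * (b i - b j)) ^ 2 / 8) := by
      rw [← Real.exp_add]
      congr 1
      ring
    have h3 : 0 ≤ ‖w i‖ * ‖w j‖ * (Real.exp (-(D * (a i - a j)) ^ 2 / 8) *
        Real.exp (-(D * (b i - b j)) ^ 2 / 8)) := by positivity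
    rw [h4]
    calc ‖w i‖ * ‖w j‖ * (Real.sqrt (Real.pi / (2 / D ^ 2)) * Real.exp (-(D * (a i - a j)) ^ 2 / 8) *
          (Real.sqrt (Real.pi / (2 / D ^ 2)) * Real.exp (-(D * (b i - b j)) ^ 2 / 8)))
        = (Real.sqrt (Real.pi / (2 / D ^ 2)) * Real.sqrt (Real.pi / (2 / D ^ 2))) *
          (‖w i‖ * ‖w j‖ * (Real.exp (-(D * (a i - a j)) ^ 2 / 8) *
            Real.exp (-(D * (b i - b j)) ^ 2 / 8))) := by ring
      _ ≤ 2 * D ^ 2 * (‖w i‖ * ‖w j‖ * (Real.exp (-(D * (a i - a j)) ^ 2 / 8) *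
            Real.exp (-(D * (b i - b j)) ^ 2 / 8))) := mul_le_mul_of_nonneg_right h2 h3

end Pool.Agent.P07318o
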