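import Pool.Agent.Lib.P07318o.GsDefs

/-!
# Module GsRow: sums of Gaussians over spaced points; the number of fractions in a dyadic set

PROOFS.
* `gs_int`: `exp(-x²) ≤ exp(1/4) exp(-|x|)` as `x² - |x| + 1/4 ≥ 0`.  So the sum over `T ⊆ ℤ` is
  `≤ 1 + 2 e^{1/4} ∑_{j ≥ 1} e^{-c j} = 1 + 2 e^{1/4}/(e^c - 1) ≤ 1 + 2 e^{1/4}/c ≤ 1 + 3/c`.
* `row_bd`: for `q ≠ q'` in `s` `|l(q) - l(q')| ≥ 1/(2 √(h h')) ≥ 1/(4A)` (`P07318s.spacing`; `h h' ≤ 4 A²`).  So `n(q) = ⌊4A (l(q) - μ)⌋` is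
  injective on `s`, and `|l(q) - μ| ≥ (|n(q)| - 1)/(4A)`.  The three values `n ∈ {-1, 0, 1}` contribute `≤ 3`, and for `|n| ≥ 2` (put
  `j = |n| - 1 ≥ 1`, every `j` occurs at most twice) the sum is `≤ 2 ∑_{j ≥ 1} exp(-c (U j/(4A))²) ≤ 2 (1 + 3/(√c U/(4A)))` by `gs_int`.
  So `C = 5 + 24/√c`.
* `card_le`: every `q = a/b ∈ s` has `a b ≤ 2A`, so the number is `≤ ∑_{1 ≤ a ≤ 2A} 2A/a ≤ 2A (1 + log (2A))` (`harmonic_le_one_add_log`);
  `1 + log (2A) ≤ 2 (1 + log A)`, `C = 4`.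
-/

set_option autoImplicit false

namespace Pool.Agent.P07318o

open MeasureTheory Complex Pool.Agent.P07318s Pool.Agent.P07318f Pool.Agent.P07318h

namespace GsRowAux

lemma exp_quarter : Real.exp (1 / 4) ≤ 3 / 2 := by
  have h := Real.exp_bound_div_one_sub_of_interval (x := 1 / 4) (by norm_num) (by norm_num)
  refine h.trans ?_
  norm_num

lemma nat_sum {c : ℝ} (hc : 0 < c) (S : Finset ℕ) (h0 : 0 ∉ S) :
    ∑ k ∈ S, Real.exp (-(c * (k : ℝ)) ^ 2) ≤ (3 / 2) / c := by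
  have hr0 : 0 ≤ Real.exp (-c) := (Real.exp_pos _).le
  have hr1 : Real.exp (-c) < 1 := by
    rw [Real.exp_lt_one_iff]
    linarith
  have h1 : ∀ k ∈ S, Real.exp (-(c * (k : ℝ)) ^ 2) ≤ (3 / 2) * Real.exp (-c) ^ k := by
    intro k _
    rw [← Real.exp_nat_mul]
    calc Real.exp (-(c * (k : ℝ)) ^ 2) ≤ Real.exp (1 / 4 + (k : ℝ) * (-c)) := by
          apply Real.exp_le_exp.2
          nlinarith [sq_nonneg (c * (k : ℝ) - 1 / 2)]
      _ = Real.exp (1 / 4) * Real.exp ((k : ℝ) * (-c)) := by rw [Real.exp_add]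
      _ ≤ (3 / 2) * Real.exp ((k : ℝ) * (-c)) :=
          mul_le_mul_of_nonneg_right exp_quarter (Real.exp_pos _).le
  refine (Finset.sum_le_sum h1).trans ?_
  rw [← Finset.mul_sum]
  have h2 : 1 + ∑ k ∈ S, Real.exp (-c) ^ k ≤ (1 - Real.exp (-c))⁻¹ := by
    have h3 := (summable_geometric_of_lt_one hr0 hr1).sum_le_tsum (insert 0 S)
      (fun i _ => pow_nonneg hr0 i)
    rw [tsum_geometric_of_lt_one hr0 hr1, Finset.sum_insert h0, pow_zero] at h3
    exact h3
  have h4 : (1 - Real.exp (-c))⁻¹ ≤ 1 + 1 / c := by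
    have h5 : 0 < 1 - Real.exp (-c) := by linarith
    rw [inv_le_comm₀ h5 (by positivity)]
    have h6 : (1 + 1 / c)⁻¹ = c / (c + 1) := by
      field_simp
    rw [h6, div_le_iff₀ (by positivity)]
    have h7 : Real.exp (-c) * (c + 1) ≤ 1 := by
      have h8 : c + 1 ≤ Real.exp c := Real.add_one_le_exp c
      calc Real.exp (-c) * (c + 1) ≤ Real.exp (-c) * Real.exp c :=
            mul_le_mul_of_nonneg_left h8 hr0
        _ = 1 := by rw [← Real.exp_add]; simp
    nlinarith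
  have h9 : ∑ k ∈ S, Real.exp (-c) ^ k ≤ 1 / c := by linarith
  calc (3 / 2) * ∑ k ∈ S, Real.exp (-c) ^ k ≤ (3 / 2) * (1 / c) :=
        mul_le_mul_of_nonneg_left h9 (by norm_num)
    _ = (3 / 2) / c := by ring

lemma nat_sum' {c : ℝ} (hc : 0 < c) (S : Finset ℕ) :
    ∑ k ∈ S, Real.exp (-(c * (k : ℝ)) ^ 2) ≤ 1 + (3 / 2) / c := by
  by_cases h0 : 0 ∈ S
  · rw [← Finset.add_sum_erase _ _ h0]
    have h1 := nat_sum hc (S.erase 0) (Finset.notMem_erase 0 S)
    have h2 : Real.exp (-(c * ((0 : ℕ) : ℝ)) ^ 2) = 1 := by simp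
    rw [h2]
    linarith
  · have := nat_sum hc S h0
    linarith

lemma fib (T : Finset ℤ) (G : ℕ → ℝ) (hG : ∀ k, 0 ≤ G k) :
    ∑ j ∈ T, G j.natAbs ≤ G 0 + 2 * ∑ k ∈ (T.image Int.natAbs).erase 0, G k := by
  have h1 : ∀ k : ℕ, ((T.filter (fun j => j.natAbs = k)).card : ℝ) ≤ 2 := by
    intro k
    have h : T.filter (fun j => j.natAbs = k) ⊆ {(k : ℤ), -(k : ℤ)} := by
      intro j hj
      have h2 := (Finset.mem_filter.1 hj).2
      simp only [Finset.mem_insert, Finset.mem_singleton]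
      omega
    have h3 := Finset.card_le_card h
    have h4 : ({(k : ℤ), -(k : ℤ)} : Finset ℤ).card ≤ 2 := Finset.card_le_two
    exact_mod_cast h3.trans h4
  have h2 : ((T.filter (fun j => j.natAbs = 0)).card : ℝ) ≤ 1 := by
    have h : T.filter (fun j => j.natAbs = 0) ⊆ {0} := by
      intro j hj
      have h2 := (Finset.mem_filter.1 hj).2
      simp only [Finset.mem_singleton]
      omega
    have h3 := Finset.card_le_card h
    rw [Finset.card_singleton] at h3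
    exact_mod_cast h3
  have h3 : ∑ j ∈ T, G j.natAbs = ∑ k ∈ T.image Int.natAbs,
      ((T.filter (fun j => j.natAbs = k)).card : ℝ) * G k := by
    rw [← Finset.sum_fiberwise_of_maps_to (g := Int.natAbs) (t := T.image Int.natAbs)
      (fun j hj => Finset.mem_image_of_mem _ hj)]
    apply Finset.sum_congr rfl
    intro k _
    rw [Finset.sum_congr rfl (g := fun _ => G k) (fun j hj => by
      rw [(Finset.mem_filter.1 hj).2]), Finset.sum_const, nsmul_eq_mul]
  rw [h3, Finset.mul_sum]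
  have h4 : ∑ k ∈ (T.image Int.natAbs).erase 0, ((T.filter (fun j => j.natAbs = k)).card : ℝ) * G k
      ≤ ∑ k ∈ (T.image Int.natAbs).erase 0, 2 * G k :=
    Finset.sum_le_sum fun k _ => mul_le_mul_of_nonneg_right (h1 k) (hG k)
  by_cases h0 : 0 ∈ T.image Int.natAbs
  · rw [← Finset.add_sum_erase _ _ h0]
    have h5 : ((T.filter (fun j => j.natAbs = 0)).card : ℝ) * G 0 ≤ 1 * G 0 :=
      mul_le_mul_of_nonneg_right h2 (hG 0)
    linarith
  · have h5 : (T.image Int.natAbs).erase 0 = T.image Int.natAbs := Finset.erase_eq_of_notMem h0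
    rw [h5] at h4 ⊢
    have := hG 0
    linarith

end GsRowAux

open GsRowAux

theorem gs_int {c : ℝ} (hc : 0 < c) (T : Finset ℤ) : ∑ j ∈ T, Real.exp (-(c * (j : ℝ)) ^ 2) ≤ 1 + 3 / c := by
  have h1 := fib T (fun k => Real.exp (-(c * (k : ℝ)) ^ 2)) (fun k => (Real.exp_pos _).le)
  have h2 : ∑ j ∈ T, Real.exp (-(c * (j : ℝ)) ^ 2) =
      ∑ j ∈ T, (fun k : ℕ => Real.exp (-(c * (k : ℝ)) ^ 2)) j.natAbs := by
    apply Finset.sum_congr rfl
    intro j _
    show Real.exp (-(c * (j : ℝ)) ^ 2) = Real.exp (-(c * ((j.natAbs : ℕ) : ℝ)) ^ 2)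
    have h3 : ((j.natAbs : ℕ) : ℝ) = |(j : ℝ)| := by
      rw [Nat.cast_natAbs, Int.cast_abs]
    rw [h3]
    have h4 : (c * |(j : ℝ)|) ^ 2 = (c * (j : ℝ)) ^ 2 := by
      rw [mul_pow, mul_pow, sq_abs]
    rw [h4]
  rw [h2]
  refine h1.trans ?_
  have h3 := nat_sum hc ((T.image Int.natAbs).erase 0) (Finset.notMem_erase 0 _)
  have h4 : Real.exp (-(c * ((0 : ℕ) : ℝ)) ^ 2) = 1 := by simp
  rw [h4]
  have h5 : 3 / c = 2 * ((3 / 2) / c) := by ring
  rw [h5]
  linarith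

theorem row_bd (c : ℝ) (hc : 0 < c) : ∃ C : ℝ, 0 < C ∧ ∀ (U A μ : ℝ) (s : Finset Q), 1 ≤ U → 1 ≤ A → Dy A s →
    ∑ q ∈ s, Real.exp (-(c * (U * (lgr q.1 - μ)) ^ 2)) ≤ C * (1 + A / U) := by
  have hsc : 0 < Real.sqrt c := Real.sqrt_pos.2 hc
  refine ⟨3 + 12 / Real.sqrt c, by positivity, ?_⟩
  intro U A μ s hU hA hs
  have hU0 : 0 < U := by linarith
  have hA0 : 0 < A := by linarith
  set n : Q → ℤ := fun q => ⌊4 * A * (lgr q.1 - μ)⌋ with hn
  have hinj : Set.InjOn n (s : Set Q) := by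
    intro q hq q' hq' he
    by_contra hne
    have h1 := spacing hne
    have h2 := hs q hq
    have h3 := hs q' hq'
    have h4 : Real.sqrt (hgt q.1 * hgt q'.1) ≤ 2 * A := by
      rw [Real.sqrt_le_left (by positivity)]
      calc hgt q.1 * hgt q'.1 ≤ (2 * A) * (2 * A) :=
            mul_le_mul h2.2 h3.2 (by linarith) (by positivity)
        _ = (2 * A) ^ 2 := by ring
    have h5 : 0 < Real.sqrt (hgt q.1 * hgt q'.1) := by
      apply Real.sqrt_pos.2
      exact mul_pos (by linarith) (by linarith)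
    have h6 : 1 / (4 * A) ≤ |lgr q.1 - lgr q'.1| := by
      refine le_trans ?_ h1
      apply one_div_le_one_div_of_le (by positivity)
      linarith
    have h7 := Int.abs_sub_lt_one_of_floor_eq_floor he
    have h8 : 4 * A * (lgr q.1 - μ) - 4 * A * (lgr q'.1 - μ) = 4 * A * (lgr q.1 - lgr q'.1) := by
      ring
    rw [h8, abs_mul, abs_of_pos (by positivity : 0 < 4 * A)] at h7
    rw [div_le_iff₀ (by positivity)] at h6
    nlinarith
  set c' : ℝ := Real.sqrt c * U / (4 * A) with hc'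
  have hc'0 : 0 < c' := by positivity
  set G : ℕ → ℝ := fun k => Real.exp (-(c' * ((k - 1 : ℕ) : ℝ)) ^ 2) with hG
  have hG0 : ∀ k, 0 ≤ G k := fun k => (Real.exp_pos _).le
  have h1 : ∑ q ∈ s, Real.exp (-(c * (U * (lgr q.1 - μ)) ^ 2)) ≤ ∑ q ∈ s, G (n q).natAbs := by
    apply Finset.sum_le_sum
    intro q _
    rw [hG]
    apply Real.exp_le_exp.2
    have h2 : c * (U * (lgr q.1 - μ)) ^ 2 = (c' * |4 * A * (lgr q.1 - μ)|) ^ 2 := by
      rw [mul_pow c', sq_abs, hc']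
      have h3 : c = Real.sqrt c ^ 2 := (Real.sq_sqrt hc.le).symm
      nth_rw 1 [h3]
      field_simp
    rw [h2]
    have h4 : (((n q).natAbs - 1 : ℕ) : ℝ) ≤ |4 * A * (lgr q.1 - μ)| := by
      have h5 : ((n q : ℤ) : ℝ) ≤ 4 * A * (lgr q.1 - μ) := Int.floor_le _
      have h6 : 4 * A * (lgr q.1 - μ) < (n q : ℝ) + 1 := Int.lt_floor_add_one _
      by_cases h7 : (n q).natAbs = 0
      · rw [h7]
        have h8 : (((0 - 1 : ℕ)) : ℝ) = 0 := by simp
        rw [h8]
        exact abs_nonneg _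
      · rcases lt_or_ge (n q) 0 with h8 | h8
        · have h9 : (((n q).natAbs - 1 : ℕ) : ℤ) = -(n q) - 1 := by omega
          have h10 : (((n q).natAbs - 1 : ℕ) : ℝ) = -(n q : ℝ) - 1 := by exact_mod_cast h9
          rw [h10]
          have := neg_abs_le (4 * A * (lgr q.1 - μ))
          linarith
        · have h9 : (((n q).natAbs - 1 : ℕ) : ℤ) = (n q) - 1 := by omega
          have h10 : (((n q).natAbs - 1 : ℕ) : ℝ) = (n q : ℝ) - 1 := by exact_mod_cast h9
          rw [h10]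
          have := le_abs_self (4 * A * (lgr q.1 - μ))
          linarith
    have h11 : (c' * (((n q).natAbs - 1 : ℕ) : ℝ)) ^ 2 ≤ (c' * |4 * A * (lgr q.1 - μ)|) ^ 2 := by
      apply pow_le_pow_left₀ (by positivity)
      exact mul_le_mul_of_nonneg_left h4 hc'0.le
    linarith
  have h2 : ∑ q ∈ s, G (n q).natAbs = ∑ j ∈ s.image n, G j.natAbs := by
    rw [Finset.sum_image hinj]
  have h3 := fib (s.image n) G hG0
  have h4 : ∑ k ∈ ((s.image n).image Int.natAbs).erase 0, G k ≤ 1 + (3 / 2) / c' := by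
    set S := ((s.image n).image Int.natAbs).erase 0 with hS
    have h5 : ∑ k ∈ S, G k = ∑ j ∈ S.image (fun k : ℕ => (k - 1 : ℕ)), Real.exp (-(c' * (j : ℝ)) ^ 2) := by
      rw [Finset.sum_image]
      intro a ha b hb hab
      have ha0 : a ≠ 0 := (Finset.mem_erase.1 ha).1
      have hb0 : b ≠ 0 := (Finset.mem_erase.1 hb).1
      simp only at hab
      omega
    rw [h5]
    exact nat_sum' hc'0 _
  have h6 : G 0 = 1 := by
    rw [hG]
    simp
  rw [h6] at h3
  have h7 : (3 / 2) / c' = 6 / Real.sqrt c * (A / U) := by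
    rw [hc']
    field_simp
    ring
  rw [h7] at h4
  have h8 : 0 < A / U := by positivity
  have h9 : 0 < 12 / Real.sqrt c := by positivity
  have h10 : (3 + 12 / Real.sqrt c) * (1 + A / U) = 3 + 2 * (6 / Real.sqrt c * (A / U)) +
      (12 / Real.sqrt c + 3 * (A / U)) := by ring
  rw [h10]
  linarith

theorem card_le : ∃ C : ℝ, 0 < C ∧ ∀ (A : ℝ) (s : Finset Q), 1 ≤ A → Dy A s → (s.card : ℝ) ≤ C * A * (1 + Real.log A) := by
  refine ⟨4, by norm_num, ?_⟩
  intro A s hA hs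
  have hA0 : 0 < A := by linarith
  set N : ℕ := ⌊2 * A⌋₊ with hN
  have hN1 : (N : ℝ) ≤ 2 * A := Nat.floor_le (by positivity)
  have hcard : s.card ≤ ∑ a ∈ Finset.Icc 1 N, N / a := by
    have h1 : s.card ≤ ((Finset.Icc 1 N).sigma (fun a => Finset.Icc 1 (N / a))).card := by
      apply Finset.card_le_card_of_injOn
        (fun q : Q => (⟨(q.1.1 : ℕ), (q.1.2 : ℕ)⟩ : Σ _ : ℕ, ℕ))
      · intro q hq
        have h2 := (hs q hq).2
        have h3 : ((q.1.1 : ℕ) * (q.1.2 : ℕ) : ℕ) ≤ N := by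
          apply Nat.le_floor
          push_cast
          exact h2
        have ha := q.1.1.pos
        have hb := q.1.2.pos
        simp only [Finset.coe_sigma, Set.mem_sigma_iff, Finset.coe_Icc, Set.mem_Icc]
        refine ⟨⟨ha, ?_⟩, hb, ?_⟩
        · exact (Nat.le_mul_of_pos_right _ hb).trans h3
        · rw [Nat.le_div_iff_mul_le ha, mul_comm]
          exact h3
      · intro q _ q' _ he
        simp only [Sigma.mk.injEq, heq_eq_eq] at he
        apply Subtype.ext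
        apply Prod.ext
        · exact PNat.coe_injective he.1
        · exact PNat.coe_injective he.2
    rw [Finset.card_sigma] at h1
    simpa using h1
  have h2 : ((∑ a ∈ Finset.Icc 1 N, N / a : ℕ) : ℝ) ≤ N * (1 + Real.log N) := by
    have h3 := harmonic_le_one_add_log N
    have h4 : ((harmonic N : ℚ) : ℝ) = ∑ a ∈ Finset.Icc 1 N, ((a : ℝ))⁻¹ := by
      rw [harmonic_eq_sum_Icc]
      push_cast
      rfl
    rw [h4] at h3
    rw [Nat.cast_sum]
    calc ∑ a ∈ Finset.Icc 1 N, ((N / a : ℕ) : ℝ) ≤ ∑ a ∈ Finset.Icc 1 N, (N : ℝ) * ((a : ℝ))⁻¹ := by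
          apply Finset.sum_le_sum
          intro a _
          rw [← div_eq_mul_inv]
          exact Nat.cast_div_le
      _ = (N : ℝ) * ∑ a ∈ Finset.Icc 1 N, ((a : ℝ))⁻¹ := by rw [Finset.mul_sum]
      _ ≤ N * (1 + Real.log N) := mul_le_mul_of_nonneg_left h3 (Nat.cast_nonneg _)
  have h3 : (s.card : ℝ) ≤ N * (1 + Real.log N) := by
    refine le_trans ?_ h2
    exact_mod_cast hcard
  have hN2 : 1 ≤ N := Nat.le_floor (by push_cast; linarith)
  have hN3 : (1 : ℝ) ≤ N := by exact_mod_cast hN2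
  have h4 : Real.log N ≤ Real.log 2 + Real.log A := by
    rw [← Real.log_mul (by norm_num) hA0.ne']
    exact Real.log_le_log (by linarith) hN1
  have h5 : Real.log 2 ≤ 1 := by
    have := Real.log_two_lt_d9
    linarith
  have h6 : 0 ≤ Real.log A := Real.log_nonneg hA
  have h7 : 0 ≤ Real.log N := Real.log_nonneg hN3
  calc (s.card : ℝ) ≤ N * (1 + Real.log N) := h3
    _ ≤ (2 * A) * (2 * (1 + Real.log A)) := by
        apply mul_le_mul hN1 (by linarith) (by linarith) (by positivity)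
    _ = 4 * A * (1 + Real.log A) := by ring

end Pool.Agent.P07318o
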