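import Pool.Agent.Lib.P07318o.GsAc
import Pool.Agent.Lib.P07318o.GsQ
import Pool.Agent.Lib.P07318o.GsRow

/-!
# Module AcBk: the `L¹` norm of the autocorrelation of a Gaussian block

PROOF.  By Cauchy-Schwarz `∫⁻_{[-15U,15U]} ‖ac‖ ≤ (30 U)^{1/2} (∫⁻ ‖ac‖²)^{1/2}`.  By `ac_bk_eq` and `quad1` with `D = √2 U`
(`exp(-(τ/U)²/2) = exp(-(τ/D)²)`), index set `s ×ˢ s`, `w_p = U √(π/2) e^{-U²(l₁-l₂)²/8} c_{p.1} conj(c_{p.2})` (`‖w_p‖ ≤ 2 U K² A^{-1} e^{-..}`),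
`a_p = (l₁ + l₂)/2`:
`∫⁻ ‖ac‖² ≤ 2 √2 U (2 U K² A⁻¹)² N4`, `N4 = ∑_{q1,q2,q3,q4 ∈ s} exp(-U² [(l1-l2)²/8 + (l3-l4)²/8 + (l1+l2-l3-l4)²/16])`
(`D² (a - a')²/8 = U² (l1+l2-l3-l4)²/16`).  For fixed `q1, q2` put `S = (l1+l2)/2`, `x = l3 - S`, `y = l4 - S`:
`(l3-l4)²/8 + (l1+l2-l3-l4)²/16 ≥ ((x-y)² + (x+y)²)/16 = (x² + y²)/8`, so the sum over `q3, q4` is `≤ (row)²`, and the sum over `q2` of
`exp(-U²(l1-l2)²/8)` is `≤ row`, `row = C (1 + A/U)` (`row_bd` with `c = 1/8`).  So `N4 ≤ |s| (C (1 + A/U))³ ≤ C' A (1 + log A) (1 + A/U)³`.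
Together `∫⁻_{[-15U,15U]} ‖ac‖ ≤ C (U · U³ K⁴ A⁻² · A (1 + log A) (1 + A/U)³)^{1/2} ≤ C K² U² A^{-1/2} (1 + log A) (1 + A/U)²`.
-/

set_option autoImplicit false

namespace Pool.Agent.P07318o

open MeasureTheory Complex Pool.Agent.P07318s Pool.Agent.P07318f Pool.Agent.P07318h

namespace AcBkAux

/-- Cauchy-Schwarz -/
lemma cs {α : Type*} [MeasurableSpace α] (μ : Measure α) {f g : α → ENNReal} (hf : AEMeasurable f μ) (hg : AEMeasurable g μ) :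
    ∫⁻ x, f x * g x ∂μ ≤ (∫⁻ x, f x ^ 2 ∂μ) ^ (1 / 2 : ℝ) * (∫⁻ x, g x ^ 2 ∂μ) ^ (1 / 2 : ℝ) := by
  have h := ENNReal.lintegral_mul_le_Lp_mul_Lq μ Real.HolderConjugate.two_two hf hg
  simpa [ENNReal.rpow_two] using h

lemma cs_set {L : ℝ} (hL : 0 ≤ L) {f : ℝ → ENNReal} (hf : Measurable f) :
    ∫⁻ x in Set.Icc (-L) L, f x ≤ (ENNReal.ofReal (2 * L)) ^ (1 / 2 : ℝ) * (∫⁻ x, f x ^ 2) ^ (1 / 2 : ℝ) := by
  have h := cs (volume.restrict (Set.Icc (-L) L)) (f := fun _ => 1) (g := f) aemeasurable_const hf.aemeasurable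
  simp only [one_mul, one_pow, lintegral_const, Measure.restrict_apply, MeasurableSet.univ, Set.univ_inter,
    Real.volume_Icc] at h
  refine h.trans ?_
  have h2 : L - -L = 2 * L := by ring
  rw [h2]
  gcongr
  exact Measure.restrict_le_self

lemma sqrt_mul_le {X Y Z : ℝ} (hX : 0 ≤ X) (hY : 0 ≤ Y) (hZ : 0 ≤ Z) (h : X * Y ≤ Z ^ 2) :
    (ENNReal.ofReal X) ^ (1 / 2 : ℝ) * (ENNReal.ofReal Y) ^ (1 / 2 : ℝ) ≤ ENNReal.ofReal Z := by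
  rw [← ENNReal.mul_rpow_of_nonneg _ _ (by norm_num : (0 : ℝ) ≤ 1 / 2), ← ENNReal.ofReal_mul hX]
  have h1 : ENNReal.ofReal (X * Y) ^ (1 / 2 : ℝ) ≤ ENNReal.ofReal (Z ^ 2) ^ (1 / 2 : ℝ) :=
    ENNReal.rpow_le_rpow (ENNReal.ofReal_le_ofReal h) (by norm_num)
  refine h1.trans (le_of_eq ?_)
  rw [ENNReal.ofReal_rpow_of_nonneg (by positivity) (by norm_num), ← Real.sqrt_eq_rpow, Real.sqrt_sq hZ]

/-- the Gaussian weight of a pair -/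
noncomputable def ee (U : ℝ) (p : Q × Q) : ℝ := Real.exp (-(U * (lgr p.1.1 - lgr p.2.1)) ^ 2 / 8)

noncomputable def aa (p : Q × Q) : ℝ := (lgr p.1.1 + lgr p.2.1) / 2

noncomputable def gg (U μ : ℝ) (q : Q) : ℝ := Real.exp (-((1 / 8) * (U * (lgr q.1 - μ)) ^ 2))

lemma key {U D : ℝ} (hD : D ^ 2 = 2 * U ^ 2) (p p' : Q × Q) :
    ee U p' * Real.exp (-(D * (aa p - aa p')) ^ 2 / 8) ≤ gg U (aa p) p'.1 * gg U (aa p) p'.2 := by
  unfold ee gg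
  rw [← Real.exp_add, ← Real.exp_add]
  apply Real.exp_le_exp.2
  rw [mul_pow D, hD]
  unfold aa
  nlinarith [sq_nonneg (U * (lgr p'.1.1 - lgr p'.2.1))]

lemma sum_pair (s : Finset Q) (f g : Q → ℝ) : ∑ p ∈ s ×ˢ s, f p.1 * g p.2 = (∑ q ∈ s, f q) * ∑ q ∈ s, g q := by
  rw [Finset.sum_product, Finset.sum_mul_sum]

lemma N4_le {U R : ℝ} {s : Finset Q} {D : ℝ} (hD : D ^ 2 = 2 * U ^ 2)
    (hrow : ∀ μ, ∑ q ∈ s, gg U μ q ≤ R) :
    ∑ p ∈ s ×ˢ s, ∑ p' ∈ s ×ˢ s, ee U p * (ee U p' * Real.exp (-(D * (aa p - aa p')) ^ 2 / 8)) ≤ s.card * R ^ 3 := by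
  have hR : 0 ≤ R := (Finset.sum_nonneg fun q _ => (Real.exp_pos _).le).trans (hrow 0)
  have h1 : ∀ p ∈ s ×ˢ s, ∑ p' ∈ s ×ˢ s, ee U p * (ee U p' * Real.exp (-(D * (aa p - aa p')) ^ 2 / 8)) ≤
      ee U p * R ^ 2 := by
    intro p _
    rw [← Finset.mul_sum]
    have he : 0 ≤ ee U p := (Real.exp_pos _).le
    refine mul_le_mul_of_nonneg_left ?_ he
    calc ∑ p' ∈ s ×ˢ s, ee U p' * Real.exp (-(D * (aa p - aa p')) ^ 2 / 8)
        ≤ ∑ p' ∈ s ×ˢ s, gg U (aa p) p'.1 * gg U (aa p) p'.2 := Finset.sum_le_sum fun p' _ => key hD p p'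
      _ = (∑ q ∈ s, gg U (aa p) q) * ∑ q ∈ s, gg U (aa p) q := sum_pair s _ _
      _ ≤ R * R := by
          have h0 : 0 ≤ ∑ q ∈ s, gg U (aa p) q := Finset.sum_nonneg fun q _ => (Real.exp_pos _).le
          exact mul_le_mul (hrow _) (hrow _) h0 hR
      _ = R ^ 2 := by ring
  refine (Finset.sum_le_sum h1).trans ?_
  rw [← Finset.sum_mul, Finset.sum_product]
  have h2 : ∑ q ∈ s, ∑ q' ∈ s, ee U (q, q') ≤ s.card * R := by
    have h3 : ∀ q ∈ s, ∑ q' ∈ s, ee U (q, q') ≤ R := by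
      intro q _
      refine le_trans (le_of_eq ?_) (hrow (lgr q.1))
      refine Finset.sum_congr rfl fun q' _ => ?_
      unfold ee gg
      congr 1
      ring
    calc ∑ q ∈ s, ∑ q' ∈ s, ee U (q, q') ≤ ∑ q ∈ s, R := Finset.sum_le_sum h3
      _ = s.card * R := by rw [Finset.sum_const, nsmul_eq_mul]
  calc (∑ q ∈ s, ∑ q' ∈ s, ee U (q, q')) * R ^ 2 ≤ (s.card * R) * R ^ 2 := by gcongr
    _ = _ := by ring

end AcBkAux

open AcBkAux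

theorem ac_bk : ∃ C : ℝ, 0 < C ∧ ∀ (U A K η : ℝ) (s : Finset Q) (c : Q → ℂ), 1 ≤ U → 1 ≤ A → 0 ≤ K →
    (∀ q ∈ s, A ≤ hgt q.1 ∧ hgt q.1 ≤ 2 * A) → (∀ q ∈ s, ‖c q‖ ≤ K * A ^ (-(1 / 2) : ℝ)) →
    ∫⁻ τ in Set.Icc (-(15 * U)) (15 * U), ‖ac (bk U η s c) τ‖ₑ ≤
      ENNReal.ofReal (C * K ^ 2 * U ^ 2 * A ^ (-(1 / 2) : ℝ) * (1 + Real.log A) * (1 + A / U) ^ 2) := by
  obtain ⟨C1, hC1, hrow⟩ := row_bd (1 / 8) (by norm_num)
  obtain ⟨C2, hC2, hcard⟩ := card_le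
  refine ⟨1 + 480 * C2 * C1 ^ 3, by positivity, ?_⟩
  intro U A K η s c hU hA hK hs hc
  have hU0 : 0 < U := lt_of_lt_of_le one_pos hU
  have hA0 : 0 < A := lt_of_lt_of_le one_pos hA
  set D : ℝ := Real.sqrt 2 * U with hDdef
  have hD0 : 0 < D := by positivity
  have hD2 : D ^ 2 = 2 * U ^ 2 := by
    rw [hDdef, mul_pow, Real.sq_sqrt (by norm_num)]
  have hDU : D ≤ 2 * U := by
    have h : Real.sqrt 2 ≤ 2 := by
      rw [Real.sqrt_le_left (by norm_num)]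
      norm_num
    rw [hDdef]
    gcongr
  set w : Q × Q → ℂ := fun p => ((U * Real.sqrt (Real.pi / 2) * Real.exp (-(U * (lgr p.1.1 - lgr p.2.1)) ^ 2 / 8) : ℝ) : ℂ) *
        (c p.1 * (starRingEnd ℂ) (c p.2)) with hw
  -- the autocorrelation
  have hac : ∀ τ, ‖ac (bk U η s c) τ‖ₑ = ‖((Real.exp (-(τ / D) ^ 2) : ℝ) : ℂ) *
      ∑ p ∈ s ×ˢ s, w p * cexp (((τ * aa p : ℝ) : ℂ) * I)‖ₑ := by
    intro τ
    rw [ac_bk_eq hU0, mul_assoc, enorm_mul]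
    have h1 : ‖cexp (((-(η * τ) : ℝ) : ℂ) * I)‖ₑ = 1 := by
      rw [← ofReal_norm, Complex.norm_exp_ofReal_mul_I, ENNReal.ofReal_one]
    have h2 : -((τ / U) ^ 2 / 2) = -(τ / D) ^ 2 := by
      rw [div_pow τ D, hD2, div_pow]
      field_simp
    rw [h1, one_mul, h2]
    rfl
  have hmeas : Measurable fun τ : ℝ => ‖((Real.exp (-(τ / D) ^ 2) : ℝ) : ℂ) *
      ∑ p ∈ s ×ˢ s, w p * cexp (((τ * aa p : ℝ) : ℂ) * I)‖ₑ := by
    have h1 : Continuous fun τ : ℝ => ((Real.exp (-(τ / D) ^ 2) : ℝ) : ℂ) *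
      ∑ p ∈ s ×ˢ s, w p * cexp (((τ * aa p : ℝ) : ℂ) * I) := by
      refine Continuous.mul (by fun_prop) (continuous_finsetSum _ fun p _ => ?_)
      fun_prop
    exact h1.measurable.enorm
  simp only [hac]
  refine (cs_set (by positivity) hmeas).trans ?_
  have hq := quad1 (s ×ˢ s) w aa hD0
  -- bound of the coefficients
  set W : ℝ := 2 * U * K ^ 2 / A with hWdef
  have hW0 : 0 ≤ W := by positivity
  have hwle : ∀ p ∈ s ×ˢ s, ‖w p‖ ≤ W * ee U p := by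
    intro p hp
    rw [Finset.mem_product] at hp
    have h1 : ‖c p.1‖ * ‖c p.2‖ ≤ K ^ 2 / A := by
      calc ‖c p.1‖ * ‖c p.2‖ ≤ (K * A ^ (-(1 / 2) : ℝ)) * (K * A ^ (-(1 / 2) : ℝ)) :=
            mul_le_mul (hc _ hp.1) (hc _ hp.2) (norm_nonneg _) (by positivity)
        _ = K ^ 2 * (A ^ (-(1 / 2) : ℝ) * A ^ (-(1 / 2) : ℝ)) := by ring
        _ = K ^ 2 / A := by
            rw [← Real.rpow_add hA0]
            norm_num
            rw [Real.rpow_neg_one]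
            ring
    have h2 : Real.sqrt (Real.pi / 2) ≤ 2 := by
      rw [Real.sqrt_le_left (by norm_num)]
      nlinarith [Real.pi_le_four]
    have h3 : ‖w p‖ = (U * Real.sqrt (Real.pi / 2) * ee U p) * (‖c p.1‖ * ‖c p.2‖) := by
      simp only [hw]
      rw [norm_mul, norm_mul, RCLike.norm_conj, Complex.norm_real, Real.norm_of_nonneg (by positivity)]
      rfl
    rw [h3]
    have he : 0 ≤ ee U p := (Real.exp_pos _).le
    calc (U * Real.sqrt (Real.pi / 2) * ee U p) * (‖c p.1‖ * ‖c p.2‖) ≤ (U * 2 * ee U p) * (K ^ 2 / A) := by gcongr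
      _ = W * ee U p := by rw [hWdef]; ring
  have hsum : ∑ p ∈ s ×ˢ s, ∑ p' ∈ s ×ˢ s, ‖w p‖ * ‖w p'‖ * Real.exp (-(D * (aa p - aa p')) ^ 2 / 8) ≤
      W ^ 2 * (s.card * (C1 * (1 + A / U)) ^ 3) := by
    have h1 : ∑ p ∈ s ×ˢ s, ∑ p' ∈ s ×ˢ s, ‖w p‖ * ‖w p'‖ * Real.exp (-(D * (aa p - aa p')) ^ 2 / 8) ≤
        ∑ p ∈ s ×ˢ s, ∑ p' ∈ s ×ˢ s, W ^ 2 * (ee U p * (ee U p' * Real.exp (-(D * (aa p - aa p')) ^ 2 / 8))) := by
      refine Finset.sum_le_sum fun p hp => Finset.sum_le_sum fun p' hp' => ?_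
      have he : 0 ≤ ee U p := (Real.exp_pos _).le
      calc ‖w p‖ * ‖w p'‖ * Real.exp (-(D * (aa p - aa p')) ^ 2 / 8)
          ≤ (W * ee U p) * (W * ee U p') * Real.exp (-(D * (aa p - aa p')) ^ 2 / 8) := by
            refine mul_le_mul_of_nonneg_right ?_ (Real.exp_pos _).le
            exact mul_le_mul (hwle p hp) (hwle p' hp') (norm_nonneg _) (by positivity)
        _ = _ := by ring
    refine h1.trans ?_
    simp only [← Finset.mul_sum]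
    refine mul_le_mul_of_nonneg_left ?_ (by positivity)
    have h2 := N4_le (s := s) (R := C1 * (1 + A / U)) hD2 (fun μ => hrow U A μ s hU hA hs)
    simpa only [← Finset.mul_sum] using h2
  have hn : (s.card : ℝ) ≤ C2 * A * (1 + Real.log A) := hcard A s hA hs
  have hlog : 0 ≤ Real.log A := Real.log_nonneg hA
  have hsum2 : 2 * D * ∑ p ∈ s ×ˢ s, ∑ p' ∈ s ×ˢ s, ‖w p‖ * ‖w p'‖ * Real.exp (-(D * (aa p - aa p')) ^ 2 / 8) ≤
      2 * (2 * U) * (W ^ 2 * ((C2 * A * (1 + Real.log A)) * (C1 * (1 + A / U)) ^ 3)) := by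
    have h0 : 0 ≤ ∑ p ∈ s ×ˢ s, ∑ p' ∈ s ×ˢ s, ‖w p‖ * ‖w p'‖ * Real.exp (-(D * (aa p - aa p')) ^ 2 / 8) :=
      Finset.sum_nonneg fun p _ => Finset.sum_nonneg fun p' _ => by positivity
    refine mul_le_mul (by linarith) (hsum.trans ?_) h0 (by positivity)
    gcongr
  have hq2 := (ENNReal.rpow_le_rpow (hq.trans (ENNReal.ofReal_le_ofReal hsum2)) (by norm_num : (0 : ℝ) ≤ 1 / 2))
  refine (mul_le_mul_right hq2 _).trans ?_
  refine sqrt_mul_le (by positivity) (by positivity) (by positivity) ?_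
  have hAA : (A ^ (-(1 / 2) : ℝ)) ^ 2 = 1 / A := by
    rw [← Real.rpow_natCast, ← Real.rpow_mul hA0.le]
    norm_num
    rw [Real.rpow_neg_one]
  have e1 : 2 * (15 * U) * (2 * (2 * U) * (W ^ 2 * ((C2 * A * (1 + Real.log A)) * (C1 * (1 + A / U)) ^ 3))) =
      (480 * C2 * C1 ^ 3) * (K ^ 4 * U ^ 4 * (1 / A)) * ((1 + Real.log A) * (1 + A / U) ^ 3) := by
    rw [hWdef]
    field_simp
    ring
  have e2 : ((1 + 480 * C2 * C1 ^ 3) * K ^ 2 * U ^ 2 * A ^ (-(1 / 2) : ℝ) * (1 + Real.log A) * (1 + A / U) ^ 2) ^ 2 =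
      (1 + 480 * C2 * C1 ^ 3) ^ 2 * (K ^ 4 * U ^ 4 * (1 / A)) * ((1 + Real.log A) ^ 2 * (1 + A / U) ^ 4) := by
    rw [← hAA]
    ring
  rw [e1, e2]
  have f1 : 480 * C2 * C1 ^ 3 ≤ (1 + 480 * C2 * C1 ^ 3) ^ 2 := by
    have : 0 ≤ 480 * C2 * C1 ^ 3 := by positivity
    nlinarith
  have f2 : 1 + Real.log A ≤ (1 + Real.log A) ^ 2 := by nlinarith
  have f3 : (1 + A / U) ^ 3 ≤ (1 + A / U) ^ 4 := by
    have : 1 ≤ 1 + A / U := by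
      have : 0 ≤ A / U := by positivity
      linarith
    exact pow_le_pow_right₀ this (by norm_num)
  gcongr

end Pool.Agent.P07318o
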