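import Pool.Agent.Lib.P07318o.Defs
import Pool.Agent.Lib.P07318s.Spaced
import Pool.Agent.Lib.P07318s.Regroup

/-!
# Sums over reduced fractions with a Gaussian kernel  (1 h)

PROOF of `gsum`. `spaced_sum` (P07318s/Spaced.lean) with `V = U`: `∑' q, ofReal (kap δ U h · bb U (lgr q + μ)) ≤ ofReal (C₀ U^(1+2δ))`. For real `x`: `exp(-c x²) (1 + |x|) ≤ K` with a constant `K = K(c) > 0`
(e.g. `1 + |x| ≤ 2 + x²` and `x² exp(-c x²) ≤ 1/c`, so `K = 2 + 1/c`). With `x = U (lgr q + μ)`, `|x| = U |lgr q + μ|`: `exp(-c x²) ≤ K/(1 + |x|) = K/(4U) · bb U (lgr q + μ)`. So the sum is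
`≤ (K/(4U)) C₀ U^(1+2δ) = (K C₀/4) U^(2δ)`.
PROOF of `gsum_scaled`: `r lgr q + μ = r (lgr q + μ/r)`, `gsum` with `c r²` instead of `c`.
PROOF of `hsum`. `kap δ U h ≤ (U/h)^δ` (`kap_le`), so the term is `≤ U^δ h^(-1-δ)`, `h = a b`, and `∑_{(a,b)} (a b)^(-1-δ) = (∑_a a^(-1-δ))² < ∞` (`ENNReal.tsum_prod`-type or `Summable.mul_of_nonneg`, and
`Q → ℕ+ × ℕ+` is injective: `ENNReal.tsum_comp_le_tsum_of_injective` or `Summable.comp_injective`); `U^δ ≤ U^(2δ)`.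
PROOF of `kap_one`: `kap δ U h ≤ (U/h)^δ ≤ U^δ` (`h ≥ 1`).
-/

set_option autoImplicit false

namespace Pool.Agent.P07318o

open MeasureTheory Complex Pool.Agent.P07318s Pool.Agent.P07318f Pool.Agent.P07318h

namespace GSumAux

lemma expb {c : ℝ} (hc : 0 < c) (x : ℝ) : Real.exp (-c * x ^ 2) ≤ (2 + 1 / c) / (1 + |x|) := by
  have hx : 0 ≤ |x| := abs_nonneg x
  rw [le_div_iff₀ (by linarith)]
  have h1 : 1 + |x| ≤ 2 + x ^ 2 := by nlinarith [sq_abs x, sq_nonneg (|x| - 1 / 2)]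
  have h2 : Real.exp (-c * x ^ 2) * x ^ 2 ≤ 1 / c := by
    rw [le_div_iff₀ hc]
    have h3 : c * x ^ 2 + 1 ≤ Real.exp (c * x ^ 2) := Real.add_one_le_exp _
    have h4 : Real.exp (-c * x ^ 2) * Real.exp (c * x ^ 2) = 1 := by
      rw [← Real.exp_add]
      have : -c * x ^ 2 + c * x ^ 2 = 0 := by ring
      rw [this, Real.exp_zero]
    have h5 : 0 < Real.exp (-c * x ^ 2) := Real.exp_pos _
    nlinarith
  have h3 : Real.exp (-c * x ^ 2) ≤ 1 := by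
    rw [Real.exp_le_one_iff]
    nlinarith [mul_nonneg hc.le (sq_nonneg x)]
  have h5 : 0 < Real.exp (-c * x ^ 2) := Real.exp_pos _
  calc Real.exp (-c * x ^ 2) * (1 + |x|) ≤ Real.exp (-c * x ^ 2) * (2 + x ^ 2) := mul_le_mul_of_nonneg_left h1 h5.le
    _ = 2 * Real.exp (-c * x ^ 2) + Real.exp (-c * x ^ 2) * x ^ 2 := by ring
    _ ≤ 2 + 1 / c := by linarith

lemma summ1 {δ : ℝ} (hδ : 0 < δ) : Summable fun p : ℕ+ × ℕ+ => (hgt p) ^ (-(1 + δ) : ℝ) := by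
  have h1 : Summable fun n : ℕ+ => (((n : ℕ) : ℝ)) ^ (-(1 + δ) : ℝ) := by
    have h4 : Summable fun n : ℕ => ((n : ℝ)) ^ (-(1 + δ) : ℝ) :=
      Real.summable_nat_rpow.2 (by linarith)
    exact h4.comp_injective PNat.coe_injective
  have h2 := h1.mul_of_nonneg h1 (fun i => by positivity) (fun i => by positivity)
  refine h2.congr ?_
  intro p
  unfold hgt
  rw [Real.mul_rpow (by positivity) (by positivity)]

end GSumAux

open GSumAux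

theorem gsum (δ c : ℝ) (hδ : 0 < δ) (hδ2 : δ ≤ 1 / 2) (hc : 0 < c) : ∃ C : ℝ, 1 ≤ C ∧ ∀ U μ : ℝ, 1 ≤ U →
    ∑' q : Q, ENNReal.ofReal (kap δ U (hgt q.1) * Real.exp (-c * (U * (lgr q.1 + μ)) ^ 2)) ≤
      ENNReal.ofReal (C * U ^ (2 * δ)) := by
  obtain ⟨C₀, hC₀, hS⟩ := spaced_sum δ hδ hδ2
  have hK : 0 < 2 + 1 / c := by positivity
  refine ⟨(2 + 1 / c) * C₀ / 4 + 1, by linarith [show 0 < (2 + 1 / c) * C₀ / 4 by positivity], fun U μ hU => ?_⟩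
  have hU0 : 0 < U := by linarith
  have h1 : ∀ q : Q, ENNReal.ofReal (kap δ U (hgt q.1) * Real.exp (-c * (U * (lgr q.1 + μ)) ^ 2)) ≤
      ENNReal.ofReal ((2 + 1 / c) / (4 * U)) * ENNReal.ofReal (kap δ U (hgt q.1) * bb U (lgr q.1 + μ)) := by
    intro q
    rw [← ENNReal.ofReal_mul (by positivity)]
    refine ENNReal.ofReal_le_ofReal ?_
    have h2 := expb hc (U * (lgr q.1 + μ))
    have h3 : (2 + 1 / c) / (1 + |U * (lgr q.1 + μ)|) = (2 + 1 / c) / (4 * U) * bb U (lgr q.1 + μ) := by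
      unfold bb
      rw [abs_mul, abs_of_pos hU0]
      have : 0 ≤ U * |lgr q.1 + μ| := by positivity
      have h4 : 1 + U * |lgr q.1 + μ| ≠ 0 := by linarith
      field_simp
    rw [h3] at h2
    have h4 : 0 ≤ kap δ U (hgt q.1) := kap_nonneg hU0.le (hgt_pos q.1).le
    calc _ ≤ kap δ U (hgt q.1) * ((2 + 1 / c) / (4 * U) * bb U (lgr q.1 + μ)) := mul_le_mul_of_nonneg_left h2 h4
      _ = _ := by ring
  refine (ENNReal.tsum_le_tsum h1).trans ?_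
  rw [ENNReal.tsum_mul_left]
  refine (mul_le_mul_right (hS U U μ hU hU0.le le_rfl) _).trans ?_
  rw [← ENNReal.ofReal_mul (by positivity)]
  refine ENNReal.ofReal_le_ofReal ?_
  rw [Real.rpow_add hU0, Real.rpow_one]
  have h5 : (2 + 1 / c) / (4 * U) * (C₀ * (U * U ^ (2 * δ))) = (2 + 1 / c) * C₀ / 4 * U ^ (2 * δ) := by
    field_simp
  rw [h5]
  have h6 : 0 ≤ U ^ (2 * δ) := by positivity
  nlinarith

theorem gsum_scaled (δ c r : ℝ) (hδ : 0 < δ) (hδ2 : δ ≤ 1 / 2) (hc : 0 < c) (hr : r ≠ 0) : ∃ C : ℝ, 1 ≤ C ∧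
    ∀ U μ : ℝ, 1 ≤ U →
    ∑' q : Q, ENNReal.ofReal (kap δ U (hgt q.1) * Real.exp (-c * (U * (r * lgr q.1 + μ)) ^ 2)) ≤
      ENNReal.ofReal (C * U ^ (2 * δ)) := by
  obtain ⟨C, hC, h⟩ := gsum δ (c * r ^ 2) hδ hδ2 (by positivity)
  refine ⟨C, hC, fun U μ hU => ?_⟩
  refine le_trans (le_of_eq ?_) (h U (μ / r) hU)
  refine tsum_congr fun q => ?_
  congr 3
  field_simp

theorem hsum (δ : ℝ) (hδ : 0 < δ) (hδ2 : δ ≤ 1 / 2) : ∃ C : ℝ, 1 ≤ C ∧ ∀ U : ℝ, 1 ≤ U →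
    ∑' q : Q, ENNReal.ofReal (kap δ U (hgt q.1) * (hgt q.1)⁻¹) ≤ ENNReal.ofReal (C * U ^ (2 * δ)) := by
  have hs := summ1 hδ
  have hn : ∀ p : ℕ+ × ℕ+, 0 ≤ (hgt p) ^ (-(1 + δ) : ℝ) := fun p => Real.rpow_nonneg (hgt_pos p).le _
  have hS0 : 0 ≤ ∑' p : ℕ+ × ℕ+, (hgt p) ^ (-(1 + δ) : ℝ) := tsum_nonneg hn
  refine ⟨(∑' p : ℕ+ × ℕ+, (hgt p) ^ (-(1 + δ) : ℝ)) + 1, by linarith, fun U hU => ?_⟩
  have hU0 : 0 < U := by linarith
  have h1 : ∀ q : Q, ENNReal.ofReal (kap δ U (hgt q.1) * (hgt q.1)⁻¹) ≤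
      ENNReal.ofReal (U ^ δ) * ENNReal.ofReal ((hgt q.1) ^ (-(1 + δ) : ℝ)) := by
    intro q
    rw [← ENNReal.ofReal_mul (by positivity)]
    refine ENNReal.ofReal_le_ofReal ?_
    have h2 := kap_le (δ := δ) (by linarith) hU0 (hgt_pos q.1)
    have h3 : (0 : ℝ) < hgt q.1 := hgt_pos q.1
    refine (mul_le_mul_of_nonneg_right h2 (by positivity)).trans (le_of_eq ?_)
    rw [Real.div_rpow hU0.le h3.le, neg_add, Real.rpow_add h3, Real.rpow_neg h3.le δ, Real.rpow_neg h3.le 1, Real.rpow_one]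
    ring
  refine (ENNReal.tsum_le_tsum h1).trans ?_
  rw [ENNReal.tsum_mul_left]
  have h4 : ∑' q : Q, ENNReal.ofReal ((hgt q.1) ^ (-(1 + δ) : ℝ)) ≤ ENNReal.ofReal (∑' p : ℕ+ × ℕ+, (hgt p) ^ (-(1 + δ) : ℝ)) := by
    rw [ENNReal.ofReal_tsum_of_nonneg hn hs]
    exact ENNReal.tsum_comp_le_tsum_of_injective (f := fun q : Q => q.1) Subtype.val_injective
      fun p : ℕ+ × ℕ+ => ENNReal.ofReal ((hgt p) ^ (-(1 + δ) : ℝ))
  refine (mul_le_mul_right h4 _).trans ?_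
  rw [← ENNReal.ofReal_mul (by positivity)]
  refine ENNReal.ofReal_le_ofReal ?_
  have h5 : U ^ δ ≤ U ^ (2 * δ) := Real.rpow_le_rpow_of_exponent_le hU (by linarith)
  have h6 : 0 ≤ U ^ (2 * δ) := by positivity
  have h7 : 0 ≤ U ^ δ := by positivity
  nlinarith

theorem kap_one {δ U h : ℝ} (hδ : 0 < δ) (hδ2 : δ ≤ 2) (hU : 1 ≤ U) (hh : 1 ≤ h) : kap δ U h ≤ U ^ δ := by
  refine (kap_le hδ2 (by linarith) (by linarith)).trans ?_
  refine Real.rpow_le_rpow (by positivity) ?_ hδ.le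
  exact div_le_self (by linarith) hh

end Pool.Agent.P07318o
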