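import Pool.Agent.Lib.P07318o.DefsM
import Pool.Agent.Lib.P07318o.GSum
import Pool.Agent.Lib.P07318s.PiSum

/-!
# The sum over the tuples near a given one  (1.5 h)

PROOF. Write `q = Fin.snoc u v` (`u : Fin (m+1) → Q`, `v : Q` the last slot; `Fin.snocEquiv` or `Fin.snocCases`; `ENNReal.tsum_prod'`, `Equiv.tsum_eq`), `λ = lgr v - lq p (last)`, `μ_j = - lq p j.castSucc + ν j λ`. The term is
`ofReal` of a product of nonnegative factors `= ofReal (kap v) · [v-factor] · ∏_{j : Fin (m+1)} ofReal (kap (u j) · exp(-c (U (lgr (u j) + μ_j))²)) · [u-factor]`, where the factor `h⁻¹` belongs to the slot `i₀`.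
`C₁` the maximum of the constants of `gsum δ c` and of `gsum_scaled δ c (ν j)` (all `j`; `ν j ≠ 0`) and of `hsum δ`.
(1) `i₀ = last`: for fixed `v` the sum over `u` is `∏_j ∑_{u_j} ofReal (kap exp(..)) ≤ ofReal (C₁ U^(2δ))^(m+1)` (`tsum_pi_prod_ennreal`, `gsum`), then `∑_v ofReal (kap v · h(v)⁻¹) ≤ ofReal (C₁ U^(2δ))` (`hsum`).
(2) `i₀ = castSucc r`: for fixed `v` the sum over `u` is `≤ (C₁ U^(2δ))^m ∑_{u_r} ofReal (kap(u_r) h(u_r)⁻¹ exp(-c (U (lgr (u_r) - lq p r.castSucc + ν_r λ))²))` (the other `m` factors by `gsum`; `Finset.mul_prod_erase`).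
Sum over `v` with the weight `ofReal (kap v)`, interchange (`ENNReal.tsum_comm`): for fixed `u_r` the sum over `v` of `ofReal (kap v · exp(-c (U (ν_r lgr v + μ'))²))` is `≤ ofReal (C₁ U^(2δ))` (`gsum_scaled` with `r = ν_r`,
`μ' = lgr(u_r) - lq p r.castSucc - ν_r lq p last`), then `∑_{u_r} ofReal (kap h⁻¹) ≤ ofReal (C₁ U^(2δ))` (`hsum`).
In both cases the result is `≤ ofReal ((C₁ U^(2δ))^(m+2)) = ofReal (C₁^(m+2) U^(2(m+2)δ))`.
-/

set_option autoImplicit false

namespace Pool.Agent.P07318o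

open MeasureTheory Complex Pool.Agent.P07318s Pool.Agent.P07318f Pool.Agent.P07318h

namespace CaseSAux

/-- `kap` as a function of the fraction -/
noncomputable def kq (δ U : ℝ) (q : Q) : ℝ := kap δ U (hgt q.1)

lemma kq_nonneg {δ U : ℝ} (hU : 1 ≤ U) (q : Q) : 0 ≤ kq δ U q :=
  kap_nonneg (by linarith) (hgt_pos q.1).le

lemma hi_nonneg (q : Q) : 0 ≤ (hgt q.1)⁻¹ := inv_nonneg.2 (hgt_pos q.1).le

/-- the shift of the slot `j` -/
noncomputable def mu {m : ℕ} (ν : Fin (m + 1) → ℝ) (p : Fin (m + 2) → Q) (v : Q) (j : Fin (m + 1)) : ℝ :=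
  -lq p j.castSucc + ν j * (lgr v.1 - lq p (Fin.last (m + 1)))

/-- the factor of the slot `j` -/
noncomputable def G {m : ℕ} (ν : Fin (m + 1) → ℝ) (δ c U : ℝ) (p : Fin (m + 2) → Q) (v : Q) (j : Fin (m + 1))
    (u : Q) : ENNReal :=
  ENNReal.ofReal (kq δ U u * Real.exp (-c * (U * (lgr u.1 + mu ν p v j)) ^ 2))

/-- the part of the inverse height -/
noncomputable def ih (k : Prop) [Decidable k] (u : Q) : ENNReal := if k then ENNReal.ofReal (hgt u.1)⁻¹ else 1

lemma term_eq {m : ℕ} (ν : Fin (m + 1) → ℝ) {δ c U : ℝ} (hU : 1 ≤ U) (p : Fin (m + 2) → Q) (i₀ : Fin (m + 2))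
    (v : Q) (u : Fin (m + 1) → Q) :
    ENNReal.ofReal ((∏ j, kap δ U (hgt ((Fin.snoc (α := fun _ => Q) u v : Fin (m + 2) → Q) j).1)) *
      (hgt ((Fin.snoc (α := fun _ => Q) u v : Fin (m + 2) → Q) i₀).1)⁻¹ *
      ∏ j, Real.exp (-c * (U * frq ν (Fin.snoc (α := fun _ => Q) u v : Fin (m + 2) → Q) p j) ^ 2)) =
    (ENNReal.ofReal (kq δ U v) * ENNReal.ofReal (hgt ((Fin.snoc (α := fun _ => Q) u v : Fin (m + 2) → Q) i₀).1)⁻¹) *
      ∏ j, G ν δ c U p v j (u j) := by
  set q : Fin (m + 2) → Q := Fin.snoc (α := fun _ => Q) u v with hq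
  have e1 : ∀ j : Fin (m + 1), frq ν q p j = lgr (u j).1 + mu ν p v j := by
    intro j
    unfold frq mu lq
    rw [hq, Fin.snoc_castSucc, Fin.snoc_last]
    ring
  have e2 : ∏ j, kap δ U (hgt (q j).1) = (∏ j, kq δ U (u j)) * kq δ U v := by
    rw [Fin.prod_univ_castSucc]
    unfold kq
    rw [hq]
    simp only [Fin.snoc_castSucc, Fin.snoc_last]
  have e3 : ∏ j, G ν δ c U p v j (u j) = ENNReal.ofReal ((∏ j, kq δ U (u j)) *
      ∏ j, Real.exp (-c * (U * (lgr (u j).1 + mu ν p v j)) ^ 2)) := by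
    unfold G
    rw [← Finset.prod_mul_distrib]
    exact (ENNReal.ofReal_prod_of_nonneg fun j _ => mul_nonneg (kq_nonneg hU _) (Real.exp_pos _).le).symm
  rw [e3, ← ENNReal.ofReal_mul (kq_nonneg hU v),
    ← ENNReal.ofReal_mul (mul_nonneg (kq_nonneg hU v) (hi_nonneg _)), e2]
  simp only [e1]
  congr 1
  ring

end CaseSAux

open CaseSAux

theorem case_s {m : ℕ} (ν : Fin (m + 1) → ℝ) (hν : ∀ j, ν j ≠ 0) (δ c : ℝ) (hδ : 0 < δ) (hδ2 : δ ≤ 1 / 2) (hc : 0 < c) :
    ∃ C : ℝ, 0 < C ∧ ∀ (U : ℝ) (p : Fin (m + 2) → Q) (i₀ : Fin (m + 2)), 1 ≤ U →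
    ∑' q : Fin (m + 2) → Q, ENNReal.ofReal ((∏ j, kap δ U (hgt (q j).1)) * (hgt (q i₀).1)⁻¹ *
      ∏ j, Real.exp (-c * (U * frq ν q p j) ^ 2)) ≤ ENNReal.ofReal (C * U ^ (2 * (m + 2) * δ)) := by
  classical
  obtain ⟨Cg, hCg, hg⟩ := gsum δ c hδ hδ2 hc
  obtain ⟨Ch, hCh, hh⟩ := hsum δ hδ hδ2
  choose Cs hCs hs using fun j => gsum_scaled δ c (ν j) hδ hδ2 hc (hν j)
  obtain ⟨C₁, hC₁⟩ : ∃ C₁, C₁ = Cg + Ch + ∑ j, Cs j := ⟨_, rfl⟩
  have hsum0 : 0 ≤ ∑ j, Cs j := Finset.sum_nonneg fun j _ => by linarith [hCs j]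
  have hgC : Cg ≤ C₁ := by linarith
  have hhC : Ch ≤ C₁ := by linarith
  have hsC : ∀ j, Cs j ≤ C₁ := by
    intro j
    have := Finset.single_le_sum (f := Cs) (fun i _ => by linarith [hCs i]) (Finset.mem_univ j)
    linarith
  have hC0 : 0 < C₁ := by linarith
  refine ⟨C₁ ^ (m + 2), by positivity, fun U p i₀ hU => ?_⟩
  have hU0 : 0 < U := by linarith
  obtain ⟨B, hB⟩ : ∃ B, B = ENNReal.ofReal (C₁ * U ^ (2 * δ)) := ⟨_, rfl⟩
  have hUp : 0 ≤ U ^ (2 * δ) := Real.rpow_nonneg hU0.le _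
  have hBg : ∀ C, C ≤ C₁ → ENNReal.ofReal (C * U ^ (2 * δ)) ≤ B := by
    intro C hC
    rw [hB]
    exact ENNReal.ofReal_le_ofReal (mul_le_mul_of_nonneg_right hC hUp)
  have hBpow : B ^ (m + 2) = ENNReal.ofReal (C₁ ^ (m + 2) * U ^ (2 * (m + 2) * δ)) := by
    rw [hB, ← ENNReal.ofReal_pow (by positivity), mul_pow, ← Real.rpow_natCast (U ^ (2 * δ)), ← Real.rpow_mul hU0.le]
    congr 3
    push_cast
    ring
  have hG : ∀ v j, ∑' u, G ν δ c U p v j u ≤ B := by
    intro v j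
    exact (hg U (mu ν p v j) hU).trans (hBg _ hgC)
  have hH : ∑' u : Q, ENNReal.ofReal (kq δ U u) * ENNReal.ofReal (hgt u.1)⁻¹ ≤ B := by
    refine le_trans (le_of_eq (tsum_congr fun u => ?_)) ((hh U hU).trans (hBg _ hhC))
    rw [← ENNReal.ofReal_mul (kq_nonneg hU u)]
    rfl
  rw [← hBpow, ← (Fin.snocEquiv (fun _ : Fin (m + 2) => Q)).tsum_eq, ENNReal.tsum_prod']
  have hterm : ∀ (v : Q) (u : Fin (m + 1) → Q),
      ENNReal.ofReal ((∏ j, kap δ U (hgt ((Fin.snocEquiv (fun _ : Fin (m + 2) => Q)) (v, u) j).1)) *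
      (hgt ((Fin.snocEquiv (fun _ : Fin (m + 2) => Q)) (v, u) i₀).1)⁻¹ *
      ∏ j, Real.exp (-c * (U * frq ν ((Fin.snocEquiv (fun _ : Fin (m + 2) => Q)) (v, u)) p j) ^ 2)) =
      (ENNReal.ofReal (kq δ U v) *
        ENNReal.ofReal (hgt ((Fin.snoc (α := fun _ => Q) u v : Fin (m + 2) → Q) i₀).1)⁻¹) *
      ∏ j, G ν δ c U p v j (u j) := fun v u => term_eq ν hU p i₀ v u
  simp_rw [hterm]
  refine Fin.lastCases ?_ (fun r => ?_) i₀
  · simp only [Fin.snoc_last]
    calc ∑' v : Q, ∑' u : Fin (m + 1) → Q, (ENNReal.ofReal (kq δ U v) * ENNReal.ofReal (hgt v.1)⁻¹) *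
          ∏ j, G ν δ c U p v j (u j)
        = ∑' v : Q, (ENNReal.ofReal (kq δ U v) * ENNReal.ofReal (hgt v.1)⁻¹) * ∏ j, ∑' u, G ν δ c U p v j u := by
          refine tsum_congr fun v => ?_
          rw [ENNReal.tsum_mul_left, tsum_pi_prod_ennreal (fun j u => G ν δ c U p v j u)]
      _ ≤ ∑' v : Q, (ENNReal.ofReal (kq δ U v) * ENNReal.ofReal (hgt v.1)⁻¹) * B ^ (m + 1) := by
          refine ENNReal.tsum_le_tsum fun v => ?_
          gcongr
          calc ∏ j, ∑' u, G ν δ c U p v j u ≤ ∏ _j : Fin (m + 1), B :=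
                Finset.prod_le_prod' fun j _ => hG v j
            _ = B ^ (m + 1) := by rw [Finset.prod_const, Finset.card_univ, Fintype.card_fin]
      _ ≤ B * B ^ (m + 1) := by
          rw [ENNReal.tsum_mul_right]
          gcongr
      _ = B ^ (m + 2) := by ring
  · simp only [Fin.snoc_castSucc]
    have hterm2 : ∀ (v : Q) (u : Fin (m + 1) → Q),
        (ENNReal.ofReal (kq δ U v) * ENNReal.ofReal (hgt (u r).1)⁻¹) * ∏ j, G ν δ c U p v j (u j) =
        ENNReal.ofReal (kq δ U v) * ∏ j, (ih (j = r) (u j) * G ν δ c U p v j (u j)) := by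
      intro v u
      rw [Finset.prod_mul_distrib, mul_assoc]
      congr 2
      unfold ih
      rw [Finset.prod_ite_eq' Finset.univ r (fun j => ENNReal.ofReal (hgt (u j).1)⁻¹), if_pos (Finset.mem_univ r)]
    have hr : ∀ v : Q, ∑' u : Q, ih (r = r) u * G ν δ c U p v r u =
        ∑' u : Q, ENNReal.ofReal (hgt u.1)⁻¹ * G ν δ c U p v r u := by
      intro v
      refine tsum_congr fun u => ?_
      unfold ih
      rw [if_pos rfl]
    calc ∑' v : Q, ∑' u : Fin (m + 1) → Q, (ENNReal.ofReal (kq δ U v) * ENNReal.ofReal (hgt (u r).1)⁻¹) *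
          ∏ j, G ν δ c U p v j (u j)
        = ∑' v : Q, ENNReal.ofReal (kq δ U v) * ∏ j, ∑' u, (ih (j = r) u * G ν δ c U p v j u) := by
          refine tsum_congr fun v => ?_
          simp_rw [hterm2]
          rw [ENNReal.tsum_mul_left, tsum_pi_prod_ennreal (fun j u => ih (j = r) u * G ν δ c U p v j u)]
      _ ≤ ∑' v : Q, ENNReal.ofReal (kq δ U v) * ((∑' u : Q, ENNReal.ofReal (hgt u.1)⁻¹ * G ν δ c U p v r u) *
            B ^ m) := by
          refine ENNReal.tsum_le_tsum fun v => ?_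
          gcongr
          rw [← Finset.mul_prod_erase _ _ (Finset.mem_univ r), hr]
          gcongr
          calc ∏ j ∈ Finset.univ.erase r, ∑' u, (ih (j = r) u * G ν δ c U p v j u) ≤
                ∏ _j ∈ Finset.univ.erase r, B := by
                refine Finset.prod_le_prod' fun j hj => ?_
                refine le_trans (le_of_eq (tsum_congr fun u => ?_)) (hG v j)
                unfold ih
                rw [if_neg (Finset.ne_of_mem_erase hj), one_mul]
            _ = B ^ m := by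
                rw [Finset.prod_const, Finset.card_erase_of_mem (Finset.mem_univ r), Finset.card_univ,
                  Fintype.card_fin, Nat.add_sub_cancel]
      _ = (∑' v : Q, ∑' u : Q, ENNReal.ofReal (kq δ U v) * (ENNReal.ofReal (hgt u.1)⁻¹ * G ν δ c U p v r u)) *
            B ^ m := by
          rw [← ENNReal.tsum_mul_right]
          refine tsum_congr fun v => ?_
          rw [ENNReal.tsum_mul_left]
          ring
      _ = (∑' u : Q, (ENNReal.ofReal (kq δ U u) * ENNReal.ofReal (hgt u.1)⁻¹) *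
            ∑' v : Q, ENNReal.ofReal (kq δ U v * Real.exp (-c * (U * (ν r * lgr v.1 +
              (lgr u.1 - lq p r.castSucc - ν r * lq p (Fin.last (m + 1))))) ^ 2))) * B ^ m := by
          rw [ENNReal.tsum_comm]
          congr 1
          refine tsum_congr fun u => ?_
          rw [← ENNReal.tsum_mul_left]
          refine tsum_congr fun v => ?_
          have e : lgr u.1 + mu ν p v r = ν r * lgr v.1 +
              (lgr u.1 - lq p r.castSucc - ν r * lq p (Fin.last (m + 1))) := by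
            unfold mu
            ring
          unfold G
          rw [e, ENNReal.ofReal_mul (kq_nonneg hU u), ENNReal.ofReal_mul (kq_nonneg hU v)]
          ring
      _ ≤ (∑' u : Q, (ENNReal.ofReal (kq δ U u) * ENNReal.ofReal (hgt u.1)⁻¹) * B) * B ^ m := by
          gcongr with u
          exact (hs r U _ hU).trans (hBg _ (hsC r))
      _ ≤ (B * B) * B ^ m := by
          rw [ENNReal.tsum_mul_right]
          gcongr
      _ = B ^ (m + 2) := by ring

end Pool.Agent.P07318o
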