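import Pool.Agent.Lib.P07318o.Defs

/-!
# The smallest height  (0.7 h)

PROOF. Let `i₀` be an index with `h i₀` minimal (`Finite.exists_min`). There is `i₁ ≠ i₀` with `Y < h i₁`: if the `j` with `Y < h j` is `i₀` itself then every `h i ≥ h i₀ > Y` and any `i₁ ≠ i₀` will do (`k ≥ 2`).
As `k ≥ 3` there is `i₂ ∉ {i₀, i₁}`, and `h i₂ ≥ h i₀`. All factors `(h j)^(-1/2)` are in `(0, 1]`, so
`∏_j (h j)^(-1/2) ≤ (h i₀)^(-1/2) (h i₁)^(-1/2) (h i₂)^(-1/2) ≤ (h i₀)^(-1/2) Y^(-1/2) (h i₀)^(-1/2) = Y^(-1/2) (h i₀)⁻¹ ≤ Y^(-1/2) ∑_i (h i)⁻¹`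
(the product over `univ` is at most the product over `{i₀, i₁, i₂}`: `Finset.prod_le_prod_of_subset_of_le_one'`-type lemma, or `Finset.mul_prod_erase` three times and `Finset.prod_le_one`).
-/

set_option autoImplicit false

namespace Pool.Agent.P07318o

open MeasureTheory Complex Pool.Agent.P07318s Pool.Agent.P07318f Pool.Agent.P07318h

theorem min_h {k : ℕ} (hk : 3 ≤ k) (h : Fin k → ℝ) (h1 : ∀ j, 1 ≤ h j) {Y : ℝ} (hY : 1 ≤ Y) (hex : ∃ j, Y < h j) :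
    ∏ j, (h j) ^ (-(1 / 2) : ℝ) ≤ Y ^ (-(1 / 2) : ℝ) * ∑ i, (h i)⁻¹ := by
  classical
  have : Nonempty (Fin k) := ⟨⟨0, by omega⟩⟩
  have hpos : ∀ j, 0 < h j := fun j => lt_of_lt_of_le one_pos (h1 j)
  obtain ⟨i₀, hi₀⟩ := Finite.exists_min h
  have hex1 : ∃ i₁, i₁ ≠ i₀ ∧ Y < h i₁ := by
    obtain ⟨j, hj⟩ := hex
    by_cases hji : j = i₀
    · subst hji
      obtain ⟨i₁, hi₁⟩ : ∃ i₁ : Fin k, i₁ ≠ j := by
        have : Nontrivial (Fin k) := Fin.nontrivial_iff_two_le.2 (by omega)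
        exact exists_ne j
      exact ⟨i₁, hi₁, lt_of_lt_of_le hj (hi₀ i₁)⟩
    · exact ⟨j, hji, hj⟩
  obtain ⟨i₁, hi₁, hY1⟩ := hex1
  obtain ⟨i₂, hi₂⟩ : ∃ i₂ : Fin k, i₂ ∉ ({i₀, i₁} : Finset (Fin k)) := by
    by_contra hno
    push Not at hno
    have h2 : (Finset.univ : Finset (Fin k)) ⊆ {i₀, i₁} := fun x _ => hno x
    have h3 := Finset.card_le_card h2
    rw [Finset.card_univ, Fintype.card_fin] at h3
    have h4 : ({i₀, i₁} : Finset (Fin k)).card ≤ 2 := Finset.card_le_two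
    omega
  rw [Finset.mem_insert, Finset.mem_singleton, not_or] at hi₂
  have hf0 : ∀ j, 0 ≤ (h j) ^ (-(1 / 2) : ℝ) := fun j => Real.rpow_nonneg (hpos j).le _
  have hf1 : ∀ j, (h j) ^ (-(1 / 2) : ℝ) ≤ 1 := fun j =>
    Real.rpow_le_one_of_one_le_of_nonpos (h1 j) (by norm_num)
  set S : Finset (Fin k) := {i₀, i₁, i₂} with hS
  have h5 : ∏ j, (h j) ^ (-(1 / 2) : ℝ) ≤ ∏ j ∈ S, (h j) ^ (-(1 / 2) : ℝ) := by
    rw [← Finset.prod_sdiff (Finset.subset_univ S)]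
    have h6 : ∏ j ∈ Finset.univ \ S, (h j) ^ (-(1 / 2) : ℝ) ≤ 1 :=
      Finset.prod_le_one (fun j _ => hf0 j) (fun j _ => hf1 j)
    have h7 : 0 ≤ ∏ j ∈ S, (h j) ^ (-(1 / 2) : ℝ) := Finset.prod_nonneg fun j _ => hf0 j
    calc _ ≤ 1 * ∏ j ∈ S, (h j) ^ (-(1 / 2) : ℝ) := mul_le_mul_of_nonneg_right h6 h7
      _ = _ := one_mul _
  have h8 : ∏ j ∈ S, (h j) ^ (-(1 / 2) : ℝ) =
      (h i₀) ^ (-(1 / 2) : ℝ) * ((h i₁) ^ (-(1 / 2) : ℝ) * (h i₂) ^ (-(1 / 2) : ℝ)) := by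
    rw [hS, Finset.prod_insert, Finset.prod_insert, Finset.prod_singleton]
    · rw [Finset.mem_singleton]
      exact fun h => hi₂.2 h.symm
    · rw [Finset.mem_insert, Finset.mem_singleton, not_or]
      exact ⟨fun h => hi₁ h.symm, fun h => hi₂.1 h.symm⟩
  have h9 : (h i₁) ^ (-(1 / 2) : ℝ) ≤ Y ^ (-(1 / 2) : ℝ) :=
    Real.rpow_le_rpow_of_nonpos (by linarith) hY1.le (by norm_num)
  have h10 : (h i₂) ^ (-(1 / 2) : ℝ) ≤ (h i₀) ^ (-(1 / 2) : ℝ) :=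
    Real.rpow_le_rpow_of_nonpos (hpos i₀) (hi₀ i₂) (by norm_num)
  have h11 : (h i₀) ^ (-(1 / 2) : ℝ) * (h i₀) ^ (-(1 / 2) : ℝ) = (h i₀)⁻¹ := by
    rw [← Real.rpow_add (hpos i₀), ← Real.rpow_neg_one]
    norm_num
  have h12 : (h i₀)⁻¹ ≤ ∑ i, (h i)⁻¹ :=
    Finset.single_le_sum (f := fun i => (h i)⁻¹) (fun i _ => (inv_pos.2 (hpos i)).le)
      (Finset.mem_univ i₀)
  have hY0 : 0 ≤ Y ^ (-(1 / 2) : ℝ) := Real.rpow_nonneg (by linarith) _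
  calc ∏ j, (h j) ^ (-(1 / 2) : ℝ)
      ≤ (h i₀) ^ (-(1 / 2) : ℝ) * ((h i₁) ^ (-(1 / 2) : ℝ) * (h i₂) ^ (-(1 / 2) : ℝ)) :=
        h5.trans h8.le
    _ ≤ (h i₀) ^ (-(1 / 2) : ℝ) * (Y ^ (-(1 / 2) : ℝ) * (h i₀) ^ (-(1 / 2) : ℝ)) :=
        mul_le_mul_of_nonneg_left (mul_le_mul h9 h10 (hf0 i₂) hY0) (hf0 i₀)
    _ = Y ^ (-(1 / 2) : ℝ) * (h i₀)⁻¹ := by
        rw [← h11]
        ring
    _ ≤ Y ^ (-(1 / 2) : ℝ) * ∑ i, (h i)⁻¹ := mul_le_mul_of_nonneg_left h12 hY0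

end Pool.Agent.P07318o
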