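import Pool.Agent.Lib.P07318o.DefsM
import Pool.Agent.Lib.P07318o.MinH
import Pool.Agent.Lib.P07318o.CaseS
import Pool.Agent.Lib.P07318s.DgTrunc

/-!
# The sum over the pairs of tuples  (1.5 h)

`ww δ U q = kap δ U (hgt q) hgt^(-1/2)`.
PROOF. (1) KERNEL: for `One q`, `One p`, `x_j = U frq ν q p j` (`j : Fin (m+1)`): `∑_j x_j = 0` (`sum_frq`), so `x_0 = -∑_{j : Fin m} x_{j.succ}`, `x_0² ≤ m ∑ x_{j.succ}²` (`inner_mul_le_norm_mul_norm` / `sq_sum_le_card_mul_sum_sq`), hence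
`∑_{j : Fin (m+1)} x_j² ≤ (m+1) ∑_{j : Fin m} x_{j.succ}²` and `∏_{j : Fin m} exp(-x_{j.succ}²/16) ≤ ∏_{j : Fin (m+1)} exp(-c x_j²)`, `c = 1/(16(m+1))`.
(2) For fixed `p` with `One p` the inner sum over `q` with `Bgy Y q`: `∏ ww(q_j) = (∏ kap) (∏ hgt^(-1/2)) ≤ (∏ kap) Y^(-1/2) ∑_{i₀} (hgt (q i₀))⁻¹` (`min_h` with `k = m + 2 ≥ 3`: this uses `m ≥ 1`; `kap_nonneg`), so with (1) and `case_s`
(dropping the conditions on `q`; `ENNReal.ofReal_sum_of_nonneg`, `ENNReal.tsum` of a finite sum) it is `≤ ofReal (Y^(-1/2) (m+2) C₁ U^(2(m+2)δ))`.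
(3) `∑_{p : One p} ∏ ww(p_j)`: `kap ≤ (U/h)^δ` (`kap_le`), so `∏ ww(p_j) ≤ U^((m+2)δ) ∏ hgt^(-(1/2+δ)) = U^((m+2)δ) aa δ (fun j => (p j).1)`, and `∑_p aa δ < ∞` (`DgTruncAux.aa_summable`; the map `(Fin (m+2) → Q) → (Fin (m+2) → ℕ+ × ℕ+)` is injective).
Together: `≤ C U^(3(m+2)δ) Y^(-1/2)`.
-/

set_option autoImplicit false

namespace Pool.Agent.P07318o

open MeasureTheory Complex Pool.Agent.P07318s Pool.Agent.P07318f Pool.Agent.P07318h

namespace BSumAux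

theorem kern {m : ℕ} (x : Fin (m + 1) → ℝ) (hx : ∑ j, x j = 0) :
    ∏ j : Fin m, Real.exp (-(x j.succ) ^ 2 / 16) ≤
      ∏ j, Real.exp (-(1 / (16 * ((m : ℝ) + 1))) * (x j) ^ 2) := by
  rw [← Real.exp_sum, ← Real.exp_sum]
  apply Real.exp_le_exp.2
  rw [Fin.sum_univ_succ] at hx
  have h0 : x 0 = -∑ j : Fin m, x j.succ := by linarith
  have h1 : (∑ j : Fin m, x j.succ) ^ 2 ≤ (m : ℝ) * ∑ j : Fin m, (x j.succ) ^ 2 := by
    have := sq_sum_le_card_mul_sum_sq (s := (Finset.univ : Finset (Fin m)))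
      (f := fun j => x j.succ)
    simpa using this
  have h2 : (x 0) ^ 2 ≤ (m : ℝ) * ∑ j : Fin m, (x j.succ) ^ 2 := by
    rw [h0, neg_sq]
    exact h1
  have h3 : ∑ j, (x j) ^ 2 ≤ ((m : ℝ) + 1) * ∑ j : Fin m, (x j.succ) ^ 2 := by
    rw [Fin.sum_univ_succ]
    linarith
  have hm : (0 : ℝ) < (m : ℝ) + 1 := by positivity
  have h4 : ∑ j : Fin m, -(x j.succ) ^ 2 / 16 = -(1 / 16) * ∑ j : Fin m, (x j.succ) ^ 2 := by
    rw [Finset.mul_sum]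
    exact Finset.sum_congr rfl fun j _ => by ring
  have h5 : ∑ j, -(1 / (16 * ((m : ℝ) + 1))) * (x j) ^ 2 =
      -(1 / (16 * ((m : ℝ) + 1))) * ∑ j, (x j) ^ 2 := by
    rw [Finset.mul_sum]
  rw [h4, h5]
  have h6 : 1 / (16 * ((m : ℝ) + 1)) * ∑ j, (x j) ^ 2 ≤
      1 / 16 * ∑ j : Fin m, (x j.succ) ^ 2 := by
    calc 1 / (16 * ((m : ℝ) + 1)) * ∑ j, (x j) ^ 2
        ≤ 1 / (16 * ((m : ℝ) + 1)) * (((m : ℝ) + 1) * ∑ j : Fin m, (x j.succ) ^ 2) :=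
          mul_le_mul_of_nonneg_left h3 (by positivity)
      _ = 1 / 16 * ∑ j : Fin m, (x j.succ) ^ 2 := by
          field_simp
  linarith

open Classical in
theorem term_le {m : ℕ} (hm : 1 ≤ m) (ν : Fin (m + 1) → ℝ) (hν : Adm ν) {δ : ℝ}
    {U Y : ℝ} (hU : 1 ≤ U) (hY : 1 ≤ Y) (p q : Fin (m + 2) → Q) :
    (if Bgy Y p ∧ Bgy Y q then ENNReal.ofReal ((∏ j, ww δ U (p j)) * (∏ j, ww δ U (q j)) *
        ∏ j : Fin m, Real.exp (-(U * frq ν q p j.succ) ^ 2 / 16)) else 0) ≤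
      ENNReal.ofReal ((if One p then ∏ j, ww δ U (p j) else 0) * Y ^ (-(1 / 2) : ℝ)) *
        ∑ i₀, ENNReal.ofReal ((∏ j, kap δ U (hgt (q j).1)) * (hgt (q i₀).1)⁻¹ *
          ∏ j, Real.exp (-(1 / (16 * ((m : ℝ) + 1))) * (U * frq ν q p j) ^ 2)) := by
  split_ifs with h h1 h1
  · obtain ⟨hp, hq⟩ := h
    have hU0 : (0 : ℝ) ≤ U := by linarith
    have hA : 0 ≤ ∏ j, ww δ U (p j) := Finset.prod_nonneg fun j _ => ww_nonneg hU0 _
    have hK : 0 ≤ ∏ j, kap δ U (hgt (q j).1) :=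
      Finset.prod_nonneg fun j _ => kap_nonneg hU0 (hgt_pos _).le
    have hE : 0 ≤ ∏ j, Real.exp (-(1 / (16 * ((m : ℝ) + 1))) * (U * frq ν q p j) ^ 2) :=
      Finset.prod_nonneg fun j _ => (Real.exp_pos _).le
    have hY0 : (0 : ℝ) ≤ Y ^ (-(1 / 2) : ℝ) := Real.rpow_nonneg (by linarith) _
    rw [← ENNReal.ofReal_sum_of_nonneg (fun i _ => mul_nonneg (mul_nonneg hK
      (inv_nonneg.2 (hgt_pos _).le)) hE), ← ENNReal.ofReal_mul (mul_nonneg hA hY0)]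
    apply ENNReal.ofReal_le_ofReal
    have hker : ∏ j : Fin m, Real.exp (-(U * frq ν q p j.succ) ^ 2 / 16) ≤
        ∏ j, Real.exp (-(1 / (16 * ((m : ℝ) + 1))) * (U * frq ν q p j) ^ 2) := by
      apply kern (fun j => U * frq ν q p j)
      rw [← Finset.mul_sum, sum_frq hν hq.1 hp.1, mul_zero]
    have hww : ∏ j, ww δ U (q j) ≤ (∏ j, kap δ U (hgt (q j).1)) *
        (Y ^ (-(1 / 2) : ℝ) * ∑ i, (hgt (q i).1)⁻¹) := by
      unfold ww
      rw [Finset.prod_mul_distrib]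
      refine mul_le_mul_of_nonneg_left ?_ hK
      obtain ⟨-, j, hj⟩ := hq
      exact min_h (by omega) (fun j => hgt (q j).1) (fun j => one_le_hgt _) hY ⟨_, hj⟩
    calc (∏ j, ww δ U (p j)) * (∏ j, ww δ U (q j)) *
          ∏ j : Fin m, Real.exp (-(U * frq ν q p j.succ) ^ 2 / 16)
        ≤ (∏ j, ww δ U (p j)) * ((∏ j, kap δ U (hgt (q j).1)) *
          (Y ^ (-(1 / 2) : ℝ) * ∑ i, (hgt (q i).1)⁻¹)) *
          ∏ j, Real.exp (-(1 / (16 * ((m : ℝ) + 1))) * (U * frq ν q p j) ^ 2) := by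
          refine mul_le_mul (mul_le_mul_of_nonneg_left hww hA) hker
            (Finset.prod_nonneg fun j _ => (Real.exp_pos _).le) ?_
          refine mul_nonneg hA (mul_nonneg hK (mul_nonneg hY0 ?_))
          exact Finset.sum_nonneg fun i _ => inv_nonneg.2 (hgt_pos _).le
      _ = (∏ j, ww δ U (p j)) * Y ^ (-(1 / 2) : ℝ) *
          ∑ i, (∏ j, kap δ U (hgt (q j).1)) * (hgt (q i).1)⁻¹ *
          ∏ j, Real.exp (-(1 / (16 * ((m : ℝ) + 1))) * (U * frq ν q p j) ^ 2) := by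
          rw [← Finset.sum_mul, ← Finset.mul_sum]
          ring
  · exact absurd h.1.1 h1
  · exact zero_le
  · exact zero_le

open Classical in
theorem sum_A {m : ℕ} {δ : ℝ} (hδ : 0 < δ) (hδ2 : δ ≤ 1 / 2) {U : ℝ} (hU : 1 ≤ U) :
    ∑' p : Fin (m + 2) → Q, ENNReal.ofReal (if One p then ∏ j, ww δ U (p j) else 0) ≤
      ENNReal.ofReal (U ^ (((m : ℝ) + 2) * δ) *
        ∑' p : Fin (m + 2) → ℕ+ × ℕ+, DgTruncAux.aa δ p) := by
  have hU0 : (0 : ℝ) < U := by linarith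
  have hP : (0 : ℝ) ≤ U ^ (((m : ℝ) + 2) * δ) := Real.rpow_nonneg hU0.le _
  have h1 : ∀ p : Fin (m + 2) → Q,
      ENNReal.ofReal (if One p then ∏ j, ww δ U (p j) else 0) ≤
      ENNReal.ofReal (U ^ (((m : ℝ) + 2) * δ)) *
        ENNReal.ofReal (DgTruncAux.aa δ (fun j => (p j).1)) := by
    intro p
    rw [← ENNReal.ofReal_mul hP]
    apply ENNReal.ofReal_le_ofReal
    split_ifs with h
    · have h2 : DgTruncAux.aa δ (fun j => (p j).1) = ∏ j, (hgt (p j).1) ^ (-(1 / 2 + δ)) := by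
        exact if_pos h
      rw [h2]
      have h3 : U ^ (((m : ℝ) + 2) * δ) = ∏ _j : Fin (m + 2), U ^ δ := by
        rw [Finset.prod_const, Finset.card_univ, Fintype.card_fin, mul_comm,
          Real.rpow_mul hU0.le, ← Real.rpow_natCast]
        push_cast
        rfl
      rw [h3, ← Finset.prod_mul_distrib]
      refine Finset.prod_le_prod (fun j _ => ww_nonneg hU0.le _) fun j _ => ?_
      have hh := hgt_pos (p j).1
      unfold ww
      have h4 := kap_le (δ := δ) (by linarith) hU0 hh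
      rw [Real.div_rpow hU0.le hh.le] at h4
      calc kap δ U (hgt (p j).1) * (hgt (p j).1) ^ (-(1 / 2) : ℝ)
          ≤ U ^ δ / (hgt (p j).1) ^ δ * (hgt (p j).1) ^ (-(1 / 2) : ℝ) :=
            mul_le_mul_of_nonneg_right h4 (Real.rpow_nonneg hh.le _)
        _ = U ^ δ * (hgt (p j).1) ^ (-(1 / 2 + δ)) := by
            rw [neg_add, Real.rpow_add hh, Real.rpow_neg hh.le δ]
            ring
    · exact mul_nonneg hP (DgTruncAux.aa_nonneg _ _)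
  refine (ENNReal.tsum_le_tsum h1).trans ?_
  rw [ENNReal.tsum_mul_left, ENNReal.ofReal_mul hP,
    ENNReal.ofReal_tsum_of_nonneg (fun p => DgTruncAux.aa_nonneg _ _) (DgTruncAux.aa_summable hδ)]
  refine mul_le_mul_right ?_ _
  refine ENNReal.tsum_comp_le_tsum_of_injective
    (f := fun (p : Fin (m + 2) → Q) (j : Fin (m + 2)) => (p j).1) ?_
    (fun p' => ENNReal.ofReal (DgTruncAux.aa δ p'))
  intro p p' h
  funext j
  exact Subtype.ext (congrFun h j)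

end BSumAux

open Classical in
open BSumAux in
theorem b_sum {m : ℕ} (hm : 1 ≤ m) (ν : Fin (m + 1) → ℝ) (hν : Adm ν) (δ : ℝ) (hδ : 0 < δ) (hδ2 : δ ≤ 1 / 2) :
    ∃ C : ℝ, 0 < C ∧ ∀ U Y : ℝ, 1 ≤ U → 1 ≤ Y →
    ∑' p : Fin (m + 2) → Q, ∑' q : Fin (m + 2) → Q,
      (if Bgy Y p ∧ Bgy Y q then ENNReal.ofReal ((∏ j, ww δ U (p j)) * (∏ j, ww δ U (q j)) *
        ∏ j : Fin m, Real.exp (-(U * frq ν q p j.succ) ^ 2 / 16)) else 0) ≤
      ENNReal.ofReal (C * U ^ (3 * (m + 2) * δ) * Y ^ (-(1 / 2) : ℝ)) := by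
  obtain ⟨C₁, hC₁, hcase⟩ := case_s ν hν.1 δ (1 / (16 * ((m : ℝ) + 1))) hδ hδ2 (by positivity)
  set Z : ℝ := ∑' p : Fin (m + 2) → ℕ+ × ℕ+, DgTruncAux.aa δ p with hZ
  have hZ0 : 0 ≤ Z := tsum_nonneg fun p => DgTruncAux.aa_nonneg _ _
  refine ⟨(Z + 1) * (((m : ℝ) + 2) * C₁), by positivity, ?_⟩
  intro U Y hU hY
  have hU0 : (0 : ℝ) < U := by linarith
  have hY0 : (0 : ℝ) ≤ Y ^ (-(1 / 2) : ℝ) := Real.rpow_nonneg (by linarith) _
  have hP : (0 : ℝ) ≤ U ^ (2 * ((m : ℝ) + 2) * δ) := Real.rpow_nonneg hU0.le _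
  have hP1 : (0 : ℝ) ≤ U ^ (((m : ℝ) + 2) * δ) := Real.rpow_nonneg hU0.le _
  set D : ENNReal := ((m + 2 : ℕ) : ENNReal) * ENNReal.ofReal (C₁ * U ^ (2 * ((m : ℝ) + 2) * δ))
    with hD
  have hinner : ∀ p : Fin (m + 2) → Q, ∑' q : Fin (m + 2) → Q,
      (if Bgy Y p ∧ Bgy Y q then ENNReal.ofReal ((∏ j, ww δ U (p j)) * (∏ j, ww δ U (q j)) *
        ∏ j : Fin m, Real.exp (-(U * frq ν q p j.succ) ^ 2 / 16)) else 0) ≤
      ENNReal.ofReal (if One p then ∏ j, ww δ U (p j) else 0) *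
        (ENNReal.ofReal (Y ^ (-(1 / 2) : ℝ)) * D) := by
    intro p
    refine (ENNReal.tsum_le_tsum fun q => term_le hm ν hν hU hY p q).trans ?_
    have hA : 0 ≤ (if One p then ∏ j, ww δ U (p j) else 0) := by
      split_ifs
      · exact Finset.prod_nonneg fun j _ => ww_nonneg hU0.le _
      · exact le_rfl
    rw [ENNReal.tsum_mul_left, ENNReal.ofReal_mul hA, mul_assoc]
    refine mul_le_mul_right (mul_le_mul_right ?_ _) _
    rw [Summable.tsum_finsetSum (fun i _ => ENNReal.summable)]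
    refine (Finset.sum_le_sum fun i _ => hcase U p i hU).trans ?_
    rw [Finset.sum_const, Finset.card_univ, Fintype.card_fin, nsmul_eq_mul, hD]
  refine (ENNReal.tsum_le_tsum hinner).trans ?_
  rw [ENNReal.tsum_mul_right]
  refine (mul_le_mul_left (sum_A hδ hδ2 hU) _).trans ?_
  rw [← hZ, hD, ← ENNReal.ofReal_natCast, ← ENNReal.ofReal_mul (Nat.cast_nonneg _),
    ← ENNReal.ofReal_mul hY0, ← ENNReal.ofReal_mul (mul_nonneg hP1 hZ0)]
  apply ENNReal.ofReal_le_ofReal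
  have h3 : U ^ (3 * ((m : ℝ) + 2) * δ) = U ^ (((m : ℝ) + 2) * δ) * U ^ (2 * ((m : ℝ) + 2) * δ) := by
    rw [← Real.rpow_add hU0]
    congr 1
    ring
  rw [h3]
  push_cast
  have h4 : 0 ≤ U ^ (((m : ℝ) + 2) * δ) * U ^ (2 * ((m : ℝ) + 2) * δ) *
      (Y ^ (-(1 / 2) : ℝ) * (((m : ℝ) + 2) * C₁)) := by positivity
  nlinarith

end Pool.Agent.P07318o
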