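import Pool.Agent.Lib.P07318o.FourG

/-!
# Module FourW: the Fourier series of the coefficients (form used by the other modules)
-/

set_option autoImplicit false

namespace Pool.Agent.P07318o

open MeasureTheory Complex Pool.Agent.P07318s Pool.Agent.P07318f Pool.Agent.P07318h

theorem four_w : ∃ C : ℝ, 0 < C ∧ ∀ (U Λ s : ℝ) (c : ℝ → ℝ), 1 ≤ U → 1 ≤ Λ → 0 ≤ s → s ≤ 1 → Cut U Λ c →
    ∃ ω : ℤ → ℝ → ℂ, (∀ (k : ℤ) (h : ℝ), 1 ≤ h → ‖ω k h‖ ≤ C * Λ * pk k * kl U h) ∧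
      ∀ h : ℝ, 1 ≤ h → ∀ y : ℝ, -(4 * U) ≤ y → y ≤ 28 * U →
        HasSum (fun k : ℤ => ω k h * ek U k y) ((c y * Om h y * Real.exp (s * (y / U) ^ 2) : ℝ) : ℂ) := by
  obtain ⟨C, hC, h⟩ := four_g
  refine ⟨C, hC, fun U Λ s c hU hΛ h0 h1 hc => ?_⟩
  exact h U Λ s c hU hΛ h0 h1 (hc.toW (by linarith))

end Pool.Agent.P07318o
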