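import Pool.Agent.Lib.P07318o.Wdefs
import Pool.Agent.Lib.P07318o.FourW

/-!
# Expansion of a band into Gaussian blocks and into characters

PROOFS. Let `C` be the constant of `four_w`.
`kl_anti`: for `0 < h ≤ h'`: if `h' ≤ U`: `log (U/h') ≤ log (U/h)`; if `h ≤ U < h'`: `(U/h')² ≤ 1 ≤ 1 + log (U/h)`; if `U < h`: `(U/h')² ≤ (U/h)²`. `kl_le`: `h ≥ 1`, `kl U h ≤ 1 + log U`.
`band_exp` (`s = 1` in `four_w`): `cf k q = hgt^(-1/2) * ω k (hgt q)`. For `y ∈ [-4U, 28U]`: `ct c (bd A B) y = ∑_{q ∈ qs A B} hgt^(-1/2) (c y * Om (hgt q) y) ex y q = ∑_q hgt^(-1/2) exp(-(y/U)²) ex y q ∑_k ω k (hgt q) ek U k y`. The band is the disjoint union of the blocks `blk A B a`, `a < J`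
(`A < hgt q ≤ B ≤ 2^J A`: take the least `a` with `hgt q ≤ 2^(a+1) A`), so for fixed `k` the sum over `q` is `∑_{a : Fin J} bk U (2πk/(32U)) (blk A B a) (cf k) y` (`ek U k y = exp(i (2πk/(32U)) y)`). The family over `(k, a) ∈ ℤ × Fin J` is summable (finite sum over `a` of summable families in `k`:
`HasSum` over `ℤ × Fin J` from `HasSum` in `k` for each `a`: use `(Equiv.prodComm _ _).hasSum_iff` and `hasSum_sum`/`HasSum.prod_fiberwise`-converse via absolute summability `|..| ≤ C Λ pk k * const`, `summable_prod_of_nonneg`, or `HasSum.sigma`..).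
`char_exp` (`s = 0`): `cf k q = hgt^(-1/2) * ω k (hgt q)`, `|cf| ≤ C Λ pk k kl U (hgt q) ≤ C Λ pk k (1 + log U)`; `ex y q = exp(-i y lgr q)`; sum over the finite type `{q // q ∈ qs 0 Y}`.
`card_qs`: `q ↦ (a, b)` is injective into `[1, ⌊Y⌋]²`. `pk_sum`: `∑ pk k ≤ 4`-type bound: `summable`, take `C = ∑' k, pk k` (`FourSepAux.summable_inv_sq` of P07318f/FourSep.lean; `Finset.sum_le_tsum`).
-/

set_option autoImplicit false

namespace Pool.Agent.P07318o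

open MeasureTheory Complex Pool.Agent.P07318s Pool.Agent.P07318f Pool.Agent.P07318h

theorem kl_anti {U h h' : ℝ} (hU : 1 ≤ U) (h0 : 0 < h) (h1 : h ≤ h') : kl U h' ≤ kl U h := by
  have h0' : 0 < h' := lt_of_lt_of_le h0 h1
  have hU0 : 0 < U := by linarith
  unfold kl
  by_cases a : h' ≤ U
  · rw [if_pos a, if_pos (h1.trans a)]
    have : Real.log (U / h') ≤ Real.log (U / h) :=
      Real.log_le_log (div_pos hU0 h0') (div_le_div_of_nonneg_left hU0.le h0 h1)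
    linarith
  · rw [if_neg a]
    push Not at a
    by_cases b : h ≤ U
    · rw [if_pos b]
      have h2 : 0 ≤ Real.log (U / h) := Real.log_nonneg ((one_le_div h0).2 b)
      have h3 : U / h' ≤ 1 := (div_le_one h0').2 a.le
      have h4 : 0 ≤ U / h' := (div_pos hU0 h0').le
      nlinarith
    · rw [if_neg b]
      have h3 : U / h' ≤ U / h := div_le_div_of_nonneg_left hU0.le h0 h1
      have h4 : 0 ≤ U / h' := (div_pos hU0 h0').le
      exact pow_le_pow_left₀ h4 h3 2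

theorem kl_le {U h : ℝ} (hU : 1 ≤ U) (h0 : 1 ≤ h) : kl U h ≤ 1 + Real.log U := by
  have h1 := kl_anti hU one_pos h0
  refine h1.trans ?_
  unfold kl
  rw [if_pos hU, div_one]

theorem kl_nonneg {U h : ℝ} (hU : 1 ≤ U) (h0 : 0 < h) : 0 ≤ kl U h := by
  unfold kl
  split_ifs with a
  · have h2 : 0 ≤ Real.log (U / h) := Real.log_nonneg ((one_le_div h0).2 a)
    linarith
  · positivity

namespace BandExpAux

lemma pk_nonneg' (k : ℤ) : 0 ≤ pk k := by unfold pk; positivity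

lemma pk_summable' : Summable pk := by
  have h : pk = LongPartAux.pk := rfl
  rw [h]
  exact LongPartAux.pk_summable

end BandExpAux

open BandExpAux

theorem pk_sum : ∃ C : ℝ, 0 < C ∧ ∀ s : Finset ℤ, ∑ k ∈ s, pk k ≤ C := by
  refine ⟨(∑' k, pk k) + 1, ?_, fun s => ?_⟩
  · have : 0 ≤ ∑' k, pk k := tsum_nonneg pk_nonneg'
    linarith
  · have := pk_summable'.sum_le_tsum s (fun k _ => pk_nonneg' k)
    linarith

theorem card_qs {Y : ℝ} (hY : 1 ≤ Y) : ((qs 0 Y).card : ℝ) ≤ Y ^ 2 := by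
  classical
  have h1 : (qs 0 Y).card ≤ (Finset.Icc 1 ⌊Y⌋₊ ×ˢ Finset.Icc 1 ⌊Y⌋₊).card := by
    refine Finset.card_le_card_of_injOn (fun q : Q => ((q.1.1 : ℕ), (q.1.2 : ℕ))) ?_ ?_
    · intro q hq
      rw [Finset.mem_coe, mem_qs] at hq
      have hq := hq.2
      unfold hgt at hq
      have ha : (1 : ℝ) ≤ ((q.1.1 : ℕ) : ℝ) := by exact_mod_cast q.1.1.2
      have hb : (1 : ℝ) ≤ ((q.1.2 : ℕ) : ℝ) := by exact_mod_cast q.1.2.2
      rw [Finset.coe_product, Set.mem_prod]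
      simp only [Finset.coe_Icc, Set.mem_Icc]
      refine ⟨⟨q.1.1.2, Nat.le_floor ?_⟩, q.1.2.2, Nat.le_floor ?_⟩
      · nlinarith
      · nlinarith
    · intro q _ q' _ h
      simp only [Prod.mk.injEq] at h
      apply Subtype.ext
      apply Prod.ext
      · exact PNat.eq h.1
      · exact PNat.eq h.2
  rw [Finset.card_product, Nat.card_Icc, Nat.add_sub_cancel] at h1
  have h2 : ((⌊Y⌋₊ : ℕ) : ℝ) ≤ Y := Nat.floor_le (by linarith)
  have h3 : (0 : ℝ) ≤ ((⌊Y⌋₊ : ℕ) : ℝ) := Nat.cast_nonneg _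
  calc ((qs 0 Y).card : ℝ) ≤ ((⌊Y⌋₊ * ⌊Y⌋₊ : ℕ) : ℝ) := by exact_mod_cast h1
    _ = ((⌊Y⌋₊ : ℕ) : ℝ) * ((⌊Y⌋₊ : ℕ) : ℝ) := by push_cast; ring
    _ ≤ Y ^ 2 := by nlinarith

namespace BandExpAux

/-- a family over a product with a finite type -/
lemma hasSum_prod_fin {ι : Type*} [Fintype ι] {f : ℤ × ι → ℂ} {g : ι → ℂ}
    (h : ∀ a, HasSum (fun k => f (k, a)) (g a)) : HasSum f (∑ a, g a) := by
  classical
  have h1 : ∀ a : ι, HasSum (fun p : ℤ × ι => if p.2 = a then f p else 0) (g a) := by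
    intro a
    have hi : Function.Injective (fun k : ℤ => ((k, a) : ℤ × ι)) := fun k k' hk => by simpa using hk
    rw [← hi.hasSum_iff]
    · have : ((fun p : ℤ × ι => if p.2 = a then f p else 0) ∘ fun k : ℤ => (k, a)) = fun k => f (k, a) := by
        funext k; simp
      rw [this]
      exact h a
    · rintro ⟨k, b⟩ hb
      have : b ≠ a := by
        rintro rfl
        exact hb ⟨k, rfl⟩
      simp [this]
  have h2 := hasSum_sum (s := Finset.univ) (fun a _ => h1 a)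
  have h3 : (fun p : ℤ × ι => ∑ a, if p.2 = a then f p else 0) = f := by
    funext p
    simp
  rwa [h3] at h2

lemma cexp_ek (U : ℝ) (k : ℤ) (y : ℝ) : cexp (((2 * Real.pi * k / (32 * U) * y : ℝ) : ℂ) * I) = ek U k y := by
  unfold ek
  congr 2
  push_cast
  ring

lemma mem_blk {A B : ℝ} {a : ℕ} {q : Q} : q ∈ blk A B a ↔ q ∈ qs A B ∧ 2 ^ a * A < hgt q.1 ∧ hgt q.1 ≤ 2 ^ (a + 1) * A := by
  classical
  unfold blk
  rw [Finset.mem_filter]

/-- a band is the disjoint union of its blocks -/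
lemma sum_blk {A B : ℝ} {J : ℕ} (hA : 1 ≤ A) (hB : B ≤ 2 ^ J * A) (F : Q → ℂ) :
    ∑ a : Fin J, ∑ q ∈ blk A B a, F q = ∑ q ∈ qs A B, F q := by
  classical
  have h1 : ∀ a : Fin J, ∑ q ∈ blk A B a, F q =
      ∑ q ∈ qs A B, if (2 : ℝ) ^ (a : ℕ) * A < hgt q.1 ∧ hgt q.1 ≤ 2 ^ ((a : ℕ) + 1) * A then F q else 0 := by
    intro a
    unfold blk
    rw [Finset.sum_filter]
  rw [Finset.sum_congr rfl fun a _ => h1 a, Finset.sum_comm]
  refine Finset.sum_congr rfl fun q hq => ?_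
  rw [mem_qs] at hq
  have hA0 : 0 < A := by linarith
  have hex : ∃ a : ℕ, hgt q.1 ≤ 2 ^ (a + 1) * A := by
    refine ⟨J, hq.2.trans (hB.trans ?_)⟩
    have : (2 : ℝ) ^ J ≤ 2 ^ (J + 1) := pow_le_pow_right₀ (by norm_num) (Nat.le_succ _)
    nlinarith
  set a₀ := Nat.find hex with ha₀
  have h2 := Nat.find_spec hex
  have h3 : (2 : ℝ) ^ a₀ * A < hgt q.1 := by
    by_cases h0 : a₀ = 0
    · rw [h0, pow_zero, one_mul]; exact hq.1
    · by_contra h4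
      push Not at h4
      obtain ⟨b, hb⟩ := Nat.exists_eq_succ_of_ne_zero h0
      rw [hb] at h4
      exact Nat.find_min hex (m := b) (by omega) h4
  have h4 : a₀ < J := by
    by_contra h5
    push Not at h5
    have : (2 : ℝ) ^ J ≤ 2 ^ a₀ := pow_le_pow_right₀ (by norm_num) h5
    have h6 : hgt q.1 ≤ 2 ^ a₀ * A := hq.2.trans (hB.trans (by nlinarith))
    linarith
  rw [Finset.sum_eq_single (⟨a₀, h4⟩ : Fin J)]
  · rw [if_pos ⟨h3, h2⟩]
  · intro a _ ha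
    rw [if_neg]
    rintro ⟨h5, h6⟩
    apply ha
    apply Fin.ext
    simp only
    rcases lt_trichotomy (a : ℕ) a₀ with h7 | h7 | h7
    · exact absurd h6 (Nat.find_min hex h7)
    · exact h7
    · have : (2 : ℝ) ^ (a₀ + 1) ≤ 2 ^ (a : ℕ) := pow_le_pow_right₀ (by norm_num) h7
      nlinarith
  · intro h5
    exact absurd (Finset.mem_univ _) h5

end BandExpAux

theorem band_exp : ∃ C : ℝ, 0 < C ∧ ∀ (U Λ A B : ℝ) (J : ℕ) (c : ℝ → ℝ), 1 ≤ U → 1 ≤ Λ → Cut U Λ c → 1 ≤ A → B ≤ 2 ^ J * A →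
    ∃ cf : ℤ → Q → ℂ, (∀ k q, ‖cf k q‖ ≤ C * Λ * pk k * kl U (hgt q.1) * (hgt q.1) ^ (-(1 / 2) : ℝ)) ∧
      ∀ y : ℝ, -(4 * U) ≤ y → y ≤ 28 * U →
        HasSum (fun p : ℤ × Fin J => bk U (2 * Real.pi * p.1 / (32 * U)) (blk A B p.2) (cf p.1) y) (ct c (bd A B) y) := by
  obtain ⟨C, hC, h⟩ := four_w
  refine ⟨C, hC, fun U Λ A B J c hU hΛ hc hA hB => ?_⟩
  obtain ⟨ω, hω, hs⟩ := h U Λ 1 c hU hΛ zero_le_one le_rfl hc
  refine ⟨fun k q => (((hgt q.1) ^ (-(1 / 2) : ℝ) : ℝ) : ℂ) * ω k (hgt q.1), fun k q => ?_, fun y hy1 hy2 => ?_⟩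
  · have h1 := hω k (hgt q.1) (one_le_hgt q.1)
    have h2 : 0 ≤ (hgt q.1) ^ (-(1 / 2) : ℝ) := Real.rpow_nonneg (hgt_pos q.1).le _
    rw [norm_mul, Complex.norm_real, Real.norm_of_nonneg h2, mul_comm]
    exact mul_le_mul_of_nonneg_right h1 h2
  · set G : Q → ℂ := fun q => (Real.exp (-(y / U) ^ 2) : ℂ) * ((((hgt q.1) ^ (-(1 / 2) : ℝ) : ℝ) : ℂ) * ex y q.1) *
      ((c y * Om (hgt q.1) y * Real.exp (1 * (y / U) ^ 2) : ℝ) : ℂ) with hG
    have h1 : ∀ a : Fin J, HasSum (fun k : ℤ => bk U (2 * Real.pi * k / (32 * U)) (blk A B a)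
        (fun q => (((hgt q.1) ^ (-(1 / 2) : ℝ) : ℝ) : ℂ) * ω k (hgt q.1)) y) (∑ q ∈ blk A B a, G q) := by
      intro a
      have h2 : ∀ q ∈ blk A B a, HasSum (fun k : ℤ => (Real.exp (-(y / U) ^ 2) : ℂ) *
          ((((hgt q.1) ^ (-(1 / 2) : ℝ) : ℝ) : ℂ) * ex y q.1) * (ω k (hgt q.1) * ek U k y)) (G q) :=
        fun q _ => (hs (hgt q.1) (one_le_hgt q.1) y hy1 hy2).mul_left _
      have h3 := hasSum_sum h2
      convert h3 using 2 with k
      unfold bk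
      rw [cexp_ek, Finset.mul_sum]
      refine Finset.sum_congr rfl fun q _ => ?_
      ring
    have h4 := hasSum_prod_fin (f := fun p : ℤ × Fin J => bk U (2 * Real.pi * p.1 / (32 * U)) (blk A B p.2)
        (fun q => (((hgt q.1) ^ (-(1 / 2) : ℝ) : ℝ) : ℂ) * ω p.1 (hgt q.1)) y) h1
    rw [sum_blk hA hB] at h4
    convert h4 using 1
    unfold ct bd
    rw [Finset.mul_sum]
    refine Finset.sum_congr rfl fun q _ => ?_
    rw [hG]
    unfold tq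
    simp only
    have h5 : Real.exp (-(y / U) ^ 2) * Real.exp (1 * (y / U) ^ 2) = 1 := by
      rw [← Real.exp_add]
      have : -(y / U) ^ 2 + 1 * (y / U) ^ 2 = 0 := by ring
      rw [this, Real.exp_zero]
    have h6 : (Real.exp (-(y / U) ^ 2) : ℂ) * (Real.exp (1 * (y / U) ^ 2) : ℂ) = 1 := by
      rw [← Complex.ofReal_mul, h5, Complex.ofReal_one]
    push_cast at h6 ⊢
    linear_combination (-((c y : ℂ) * ((hgt q.1) ^ (-(1 / 2) : ℝ) : ℝ) * (Om (hgt q.1) y : ℂ) * ex y q.1)) * h6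

theorem char_exp : ∃ C : ℝ, 0 < C ∧ ∀ (U Λ Y : ℝ) (c : ℝ → ℝ), 1 ≤ U → 1 ≤ Λ → Cut U Λ c → 1 ≤ Y →
    ∃ cf : ℤ → Q → ℂ, (∀ k q, ‖cf k q‖ ≤ C * Λ * pk k * (1 + Real.log U)) ∧
      ∀ y : ℝ, -(4 * U) ≤ y → y ≤ 28 * U →
        HasSum (fun p : ℤ × {q : Q // q ∈ qs 0 Y} => cf p.1 p.2.1 *
          cexp ((((2 * Real.pi * p.1 / (32 * U) - lgr p.2.1.1) * y : ℝ) : ℂ) * I)) (ct c (bd 0 Y) y) := by
  classical
  obtain ⟨C, hC, h⟩ := four_w
  refine ⟨C, hC, fun U Λ Y c hU hΛ hc hY => ?_⟩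
  obtain ⟨ω, hω, hs⟩ := h U Λ 0 c hU hΛ le_rfl zero_le_one hc
  refine ⟨fun k q => (((hgt q.1) ^ (-(1 / 2) : ℝ) : ℝ) : ℂ) * ω k (hgt q.1), fun k q => ?_, fun y hy1 hy2 => ?_⟩
  · have h1 := hω k (hgt q.1) (one_le_hgt q.1)
    have h2 : 0 ≤ (hgt q.1) ^ (-(1 / 2) : ℝ) := Real.rpow_nonneg (hgt_pos q.1).le _
    have h3 : (hgt q.1) ^ (-(1 / 2) : ℝ) ≤ 1 := Real.rpow_le_one_of_one_le_of_nonpos (one_le_hgt q.1) (by norm_num)
    rw [norm_mul, Complex.norm_real, Real.norm_of_nonneg h2]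
    have h4 : (hgt q.1) ^ (-(1 / 2) : ℝ) * ‖ω k (hgt q.1)‖ ≤ 1 * ‖ω k (hgt q.1)‖ :=
      mul_le_mul_of_nonneg_right h3 (norm_nonneg _)
    have h5 : C * Λ * pk k * kl U (hgt q.1) ≤ C * Λ * pk k * (1 + Real.log U) :=
      mul_le_mul_of_nonneg_left (kl_le hU (one_le_hgt q.1)) (mul_nonneg (by positivity) (pk_nonneg' k))
    linarith
  · set G : Q → ℂ := fun q => ((((hgt q.1) ^ (-(1 / 2) : ℝ) : ℝ) : ℂ) * ex y q.1) *
      ((c y * Om (hgt q.1) y * Real.exp (0 * (y / U) ^ 2) : ℝ) : ℂ) with hG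
    have h1 : ∀ a : {q : Q // q ∈ qs 0 Y}, HasSum (fun k : ℤ => (((hgt a.1.1) ^ (-(1 / 2) : ℝ) : ℝ) : ℂ) * ω k (hgt a.1.1) *
        cexp ((((2 * Real.pi * k / (32 * U) - lgr a.1.1) * y : ℝ) : ℂ) * I)) (G a.1) := by
      intro a
      have h2 := (hs (hgt a.1.1) (one_le_hgt a.1.1) y hy1 hy2).mul_left
        ((((hgt a.1.1) ^ (-(1 / 2) : ℝ) : ℝ) : ℂ) * ex y a.1.1)
      have h5 : (fun k : ℤ => (((hgt a.1.1) ^ (-(1 / 2) : ℝ) : ℝ) : ℂ) * ω k (hgt a.1.1) *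
          cexp ((((2 * Real.pi * k / (32 * U) - lgr a.1.1) * y : ℝ) : ℂ) * I)) =
          fun k : ℤ => ((((hgt a.1.1) ^ (-(1 / 2) : ℝ) : ℝ) : ℂ) * ex y a.1.1) * (ω k (hgt a.1.1) * ek U k y) := by
        funext k
        have h3 : cexp ((((2 * Real.pi * k / (32 * U) - lgr a.1.1) * y : ℝ) : ℂ) * I) = ek U k y * ex y a.1.1 := by
          rw [← cexp_ek]
          unfold ex
          rw [← Complex.exp_add]
          congr 1
          push_cast
          ring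
        rw [h3]
        ring
      rw [h5]
      exact h2
    have h4 := hasSum_prod_fin (f := fun p : ℤ × {q : Q // q ∈ qs 0 Y} =>
        (((hgt p.2.1.1) ^ (-(1 / 2) : ℝ) : ℝ) : ℂ) * ω p.1 (hgt p.2.1.1) *
        cexp ((((2 * Real.pi * p.1 / (32 * U) - lgr p.2.1.1) * y : ℝ) : ℂ) * I)) h1
    convert h4 using 1
    unfold ct bd
    rw [Finset.mul_sum, ← Finset.sum_coe_sort (qs 0 Y)]
    refine Finset.sum_congr rfl fun q _ => ?_
    rw [hG]
    unfold tq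
    simp only [zero_mul, Real.exp_zero, mul_one]
    push_cast
    ring

end Pool.Agent.P07318o
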