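import Pool.Agent.Lib.P07318o.Wdefs
import Pool.Agent.Lib.P07318f.LongPart

/-!
# Continuity of the slot functions; the multilinear form with cut-offs

PROOFS.
`gz_cont` (P07318h/Defs). `bd A B` is a finite sum of `tq q`, continuous on `(0, ∞)` (`LongPartAux.Om_cont` of P07318f/LongPart.lean for `Om h` with `1 ≤ h`, `one_le_hgt`; `ex` is continuous), so `er U` is continuous on `(0, ∞)`.
`ct c f` with `c` continuous and `c = 0` outside `[U, 16U]`, `f` continuous on `(0, ∞)`: continuous at every `y > 0` as a product, and near `y ≤ 0` (indeed for `y < U`) it is `0`. `ct_supp`: clear.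
`cc_cont`, `cc_supp`: slot `0` is `w (y - α)`, the support of `w` gives `y ∈ [α - T/8, α + 9T/8] ⊆ [T/4, 4T]`; the others are `rho (T/4)` (`rho_zero`, continuity of `Real.smoothTransition`).
`ll_cut`: `h ∈ Dm ν κ α T`, so all `x_j = xs ν κ α h j ∈ [T, 2T]`, `x_0 = α` (`xs_zero`). `LL = ∫ t, ∏_j cc_j(t + x_j) f_j(t + x_j)`, `cc_0 (t + α) = w t`. If `w t ≠ 0`, then `t ∈ [-T/8, 9T/8]` and `t + x_j ∈ [7T/8, 25T/8] ⊆ [2U, 15U]`, `U = T/4`,
so `cc_j (t + x_j) = 1` for `j ≠ 0` (`rho_one`; split the product with `Fin.prod_univ_succ`). If `w t = 0` both integrands are `0`.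
`bounded_of`: a continuous function vanishing outside a compact interval is bounded.
-/

set_option autoImplicit false

namespace Pool.Agent.P07318o

open MeasureTheory Complex Pool.Agent.P07318s Pool.Agent.P07318f Pool.Agent.P07318h

theorem bd_contOn (A B : ℝ) : ContinuousOn (bd A B) (Set.Ioi 0) := by
  unfold bd
  refine continuousOn_finset_sum _ fun q _ => ?_
  unfold tq
  refine ContinuousOn.mul ?_ ?_
  · refine Complex.continuous_ofReal.comp_continuousOn ?_
    exact continuousOn_const.mul (LongPartAux.Om_cont (one_le_hgt q.1))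
  · unfold ex
    fun_prop

theorem er_contOn (U : ℝ) : ContinuousOn (er U) (Set.Ioi 0) := by
  unfold er
  exact (Complex.continuous_ofReal.comp gz_cont).continuousOn.sub (bd_contOn _ _)

theorem bf_contOn (U A B : ℝ) (i : Fin 4) : ContinuousOn (bf U A B i) (Set.Ioi 0) := by
  fin_cases i
  · exact bd_contOn _ _
  · exact bd_contOn _ _
  · exact bd_contOn _ _
  · exact er_contOn _

theorem ct_cont {U : ℝ} (hU : 0 < U) {c : ℝ → ℝ} (hc : Continuous c) (hs : ∀ y, y ∉ Set.Icc U (16 * U) → c y = 0)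
    {f : ℝ → ℂ} (hf : ContinuousOn f (Set.Ioi 0)) : Continuous (ct c f) := by
  rw [continuous_iff_continuousAt]
  intro y
  by_cases hy : 0 < y
  · have h1 : ContinuousAt f y := hf.continuousAt (Ioi_mem_nhds hy)
    exact ((Complex.continuous_ofReal.comp hc).continuousAt).mul h1
  · push Not at hy
    have h1 : ct c f =ᶠ[nhds y] fun _ => 0 := by
      filter_upwards [Iio_mem_nhds (show y < U by linarith)] with z hz
      unfold ct
      rw [hs z (fun h => absurd h.1 (not_le.2 hz))]
      simp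
    exact (continuousAt_const.congr h1.symm)

theorem ct_supp {U : ℝ} {c : ℝ → ℝ} (hs : ∀ y, y ∉ Set.Icc U (16 * U) → c y = 0) (f : ℝ → ℂ) (y : ℝ)
    (hy : y ∉ Set.Icc U (16 * U)) : ct c f y = 0 := by
  unfold ct
  rw [hs y hy]
  simp

theorem cc_cont {m : ℕ} {T Λ α : ℝ} {w : ℝ → ℝ} (hT : 1 ≤ T) (hw : Wn T Λ w) (j : Fin (m + 2)) :
    Continuous (cc (m := m) (T / 4) α w j) := by
  refine Fin.cases ?_ (fun i => ?_) j
  · rw [cc_zero]
    exact hw.smooth.continuous.comp (continuous_id.sub continuous_const)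
  · rw [cc_succ]
    unfold rho
    exact (Real.smoothTransition.continuous.comp ((continuous_id.div_const _).sub continuous_const)).mul
      (Real.smoothTransition.continuous.comp (continuous_const.sub (continuous_id.div_const _)))

theorem cc_supp {m : ℕ} {T Λ α : ℝ} {w : ℝ → ℝ} (hT : 1 ≤ T) (hw : Wn T Λ w) (h1 : T ≤ α) (h2 : α ≤ 2 * T) (j : Fin (m + 2))
    (y : ℝ) (hy : y ∉ Set.Icc (T / 4) (16 * (T / 4))) : cc (m := m) (T / 4) α w j y = 0 := by
  revert hy
  refine Fin.cases ?_ (fun i => ?_) j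
  · intro hy
    rw [cc_zero]
    refine hw.supp _ fun h => hy ⟨?_, ?_⟩
    · have := h.1
      linarith
    · have := h.2
      linarith
  · intro hy
    rw [cc_succ]
    exact rho_zero (by linarith) hy

theorem ll_cut {m : ℕ} (ν : Fin (m + 1) → ℝ) (κ α T Λ : ℝ) (w : ℝ → ℝ) (hT : 1 ≤ T) (hw : Wn T Λ w)
    (h : Fin m → ℝ) (hh : h ∈ Dm ν κ α T) (f : Fin (m + 2) → ℝ → ℂ) :
    LL ν κ α (fun j => ct (cc (T / 4) α w j) (f j)) h = ∫ t, (w t : ℂ) * ∏ j, f j (t + xs ν κ α h j) := by
  unfold LL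
  congr 1
  ext t
  simp only [ct]
  rw [Finset.prod_mul_distrib]
  by_cases hw0 : w t = 0
  · rw [hw0, Fin.prod_univ_succ, cc_zero]
    simp [xs_zero, hw0]
  · have hts : t ∈ Set.Icc (-(T / 8)) (9 * T / 8) := by
      by_contra hc
      exact hw0 (hw.supp t hc)
    congr 1
    rw [Fin.prod_univ_succ, cc_zero, xs_zero]
    have h2 : ∀ i : Fin (m + 1), ((cc (m := m) (T / 4) α w i.succ (t + xs ν κ α h i.succ) : ℝ) : ℂ) = 1 := by
      intro i
      rw [cc_succ]
      have h3 := hh i.succ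
      have h4 := h3.1
      have h5 := h3.2
      have h6 := hts.1
      have h7 := hts.2
      rw [rho_one (by linarith) (by linarith) (by linarith)]
      simp
    rw [Finset.prod_eq_one fun i _ => h2 i]
    simp

theorem bounded_of {a b : ℝ} {f : ℝ → ℂ} (hf : Continuous f) (hs : ∀ y, y ∉ Set.Icc a b → f y = 0) :
    ∃ B : ℝ, ∀ y, ‖f y‖ ≤ B := by
  obtain ⟨B, hB⟩ := (isCompact_Icc (a := a) (b := b)).exists_bound_of_continuousOn hf.continuousOn
  refine ⟨max B 0, fun y => ?_⟩
  by_cases hy : y ∈ Set.Icc a b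
  · exact (hB y hy).trans (le_max_left _ _)
  · rw [hs y hy, norm_zero]
    exact le_max_right _ _

end Pool.Agent.P07318o
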