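import Pool.Agent.Lib.P07318o.FrDefs

/-!
# Module FrAc: the functions `Y(y) conj Y(y + τ)` and autocorrelations

PROOFS (all in `ENNReal`, Cauchy-Schwarz is `ENNReal.lintegral_mul_le_Lp_mul_Lq` with exponents `2, 2`, `‖conj z‖ₑ = ‖z‖ₑ`).
* `l1_shp`: `∫⁻ ‖Y y‖ ‖Y (y + τ)‖ ≤ (∫⁻ ‖Y y‖²)^(1/2) (∫⁻ ‖Y (y + τ)‖²)^(1/2) = nm Y`.
* `ac_le`: `‖ac Y τ‖ₑ ≤ ∫⁻ ‖shp Y τ‖ₑ ≤ nm Y` (`ac Y τ = ∫ y, shp Y τ y` by definition).
* `nm_shp`: Tonelli: `∫⁻ τ, ∫⁻ y, ‖Y y‖² ‖Y (y + τ)‖² = ∫⁻ y, ‖Y y‖² (∫⁻ τ, ‖Y (y + τ)‖²) = (nm Y)²`.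
* `nm_ac_le`: with `a z = ∫⁻ y, ‖H y‖ ‖H (y + z)‖ ≥ ‖ac H z‖ₑ`: by Cauchy-Schwarz for the functions `‖H y‖^(1/2)` and
  `‖H y‖^(1/2) ‖H (y + z)‖`: `a z ^ 2 ≤ (∫⁻ ‖H‖) * ∫⁻ y, ‖H y‖ ‖H (y + z)‖²`, integrate over `z` (Tonelli).
* `U3_eq`: unfold; `conj (shp Y τ (y + z)) = conj (Y (y + z)) * Y (y + z + τ)`, `y + τ + z = y + z + τ`.
* `U3_le`: `U3 Y = ∫⁻ τ, nm (ac (shp Y τ)) ≤ ∫⁻ τ, (∫⁻ ‖shp Y τ‖ₑ) ^ 2 * nm (shp Y τ) ≤ nm Y ^ 2 * ∫⁻ τ, nm (shp Y τ) = nm Y ^ 4`.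
* `meas_nm_shp`, `meas_nm_ac`: measurability in `τ` (`Measurable.lintegral_prod_right'`; for `nm_ac`: `(τ, z) ↦ ∫ y, ..` is strongly
  measurable by `StronglyMeasurable.integral_prod_right'`, then `Measurable.lintegral_prod_right'`).
-/

set_option autoImplicit false

namespace Pool.Agent.P07318o

open MeasureTheory Complex Pool.Agent.P07318s Pool.Agent.P07318f Pool.Agent.P07318h

namespace FrAcAux

/-- Cauchy-Schwarz -/
theorem cs {f g : ℝ → ENNReal} (hf : Measurable f) (hg : Measurable g) :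
    (∫⁻ y, f y * g y) ^ 2 ≤ (∫⁻ y, f y ^ 2) * ∫⁻ y, g y ^ 2 := by
  have h2 : (2 : ℝ).HolderConjugate 2 := by
    rw [Real.holderConjugate_iff]; norm_num
  have h := ENNReal.lintegral_mul_le_Lp_mul_Lq (volume : Measure ℝ) h2 hf.aemeasurable
    hg.aemeasurable
  have e1 : ∀ k : ℝ → ENNReal, ∫⁻ y, k y ^ (2 : ℝ) = ∫⁻ y, k y ^ 2 := fun k => by
    simp only [ENNReal.rpow_two]
  rw [e1, e1] at h
  have h3 : (∫⁻ y, f y * g y) ≤ (∫⁻ y, f y ^ 2) ^ (1 / (2 : ℝ)) * (∫⁻ y, g y ^ 2) ^ (1 / (2 : ℝ)) := h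
  have h4 := pow_le_pow_left' h3 2
  refine h4.trans (le_of_eq ?_)
  rw [mul_pow]
  have e2 : ∀ x : ENNReal, (x ^ (1 / (2 : ℝ))) ^ 2 = x := fun x => by
    rw [← ENNReal.rpow_natCast, ← ENNReal.rpow_mul]; norm_num
  rw [e2, e2]

theorem nm_shift (Y : ℝ → ℂ) (τ : ℝ) : ∫⁻ y, ‖Y (y + τ)‖ₑ ^ 2 = nm Y := by
  unfold nm
  have h := lintegral_add_right_eq_self (μ := (volume : Measure ℝ)) (fun y => ‖Y y‖ₑ ^ 2) τ
  exact h

theorem nm_shift' (Y : ℝ → ℂ) (y : ℝ) : ∫⁻ τ, ‖Y (y + τ)‖ₑ ^ 2 = nm Y := by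
  unfold nm
  have h := lintegral_add_left_eq_self (μ := (volume : Measure ℝ)) (fun y => ‖Y y‖ₑ ^ 2) y
  exact h

theorem enorm_shp (Y : ℝ → ℂ) (τ y : ℝ) : ‖shp Y τ y‖ₑ = ‖Y y‖ₑ * ‖Y (y + τ)‖ₑ := by
  unfold shp
  rw [enorm_mul, RCLike.enorm_conj]

theorem meas_shp2 {Y : ℝ → ℂ} (hY : Measurable Y) :
    Measurable fun p : ℝ × ℝ => shp Y p.1 p.2 := by
  unfold shp
  exact (hY.comp measurable_snd).mul
    ((Complex.continuous_conj.measurable).comp (hY.comp (measurable_snd.add measurable_fst)))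

theorem meas_shp {Y : ℝ → ℂ} (hY : Measurable Y) (τ : ℝ) : Measurable (shp Y τ) :=
  (meas_shp2 hY).comp (measurable_const.prodMk measurable_id)

end FrAcAux

open FrAcAux

theorem l1_shp {Y : ℝ → ℂ} (hY : Measurable Y) (τ : ℝ) : ∫⁻ y, ‖shp Y τ y‖ₑ ≤ nm Y := by
  have h1 : ∫⁻ y, ‖shp Y τ y‖ₑ = ∫⁻ y, ‖Y y‖ₑ * ‖Y (y + τ)‖ₑ :=
    lintegral_congr fun y => enorm_shp Y τ y
  rw [h1]
  have h2 := cs (f := fun y => ‖Y y‖ₑ) (g := fun y => ‖Y (y + τ)‖ₑ) hY.enorm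
    (hY.comp (measurable_id.add_const τ)).enorm
  rw [nm_shift] at h2
  have h3 : (∫⁻ y, ‖Y y‖ₑ * ‖Y (y + τ)‖ₑ) ^ 2 ≤ nm Y ^ 2 := by
    rw [sq (nm Y)]; exact h2
  exact (ENNReal.pow_le_pow_left_iff two_ne_zero).1 h3

theorem ac_le {Y : ℝ → ℂ} (hY : Measurable Y) (τ : ℝ) : ‖ac Y τ‖ₑ ≤ nm Y :=
  (enorm_integral_le_lintegral_enorm _).trans (l1_shp hY τ)

theorem nm_shp {Y : ℝ → ℂ} (hY : Measurable Y) : ∫⁻ τ, nm (shp Y τ) = nm Y ^ 2 := by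
  have h1 : ∫⁻ τ, nm (shp Y τ) = ∫⁻ τ, ∫⁻ y, ‖Y y‖ₑ ^ 2 * ‖Y (y + τ)‖ₑ ^ 2 := by
    refine lintegral_congr fun τ => ?_
    unfold nm
    refine lintegral_congr fun y => ?_
    rw [enorm_shp, mul_pow]
  rw [h1, lintegral_lintegral_swap]
  · have h2 : ∀ y : ℝ, ∫⁻ τ, ‖Y y‖ₑ ^ 2 * ‖Y (y + τ)‖ₑ ^ 2 = ‖Y y‖ₑ ^ 2 * nm Y := by
      intro y
      have hm : Measurable fun τ : ℝ => ‖Y (y + τ)‖ₑ ^ 2 :=
        (hY.comp (measurable_const.add measurable_id)).enorm.pow_const 2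
      rw [lintegral_const_mul _ hm, nm_shift']
    rw [lintegral_congr h2, lintegral_mul_const _ (hY.enorm.pow_const 2), sq]
    rfl
  · refine Measurable.aemeasurable ?_
    exact ((hY.comp measurable_snd).enorm.pow_const 2).mul
      ((hY.comp (measurable_snd.add measurable_fst)).enorm.pow_const 2)

theorem nm_ac_le {H : ℝ → ℂ} (hH : Measurable H) : nm (ac H) ≤ (∫⁻ y, ‖H y‖ₑ) ^ 2 * nm H := by
  set L : ENNReal := ∫⁻ y, ‖H y‖ₑ with hL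
  have h1 : ∀ z, ‖ac H z‖ₑ ^ 2 ≤ L * ∫⁻ y, ‖H y‖ₑ * ‖H (y + z)‖ₑ ^ 2 := by
    intro z
    have h2 : ‖ac H z‖ₑ ≤ ∫⁻ y, ‖H y‖ₑ * ‖H (y + z)‖ₑ := by
      refine (enorm_integral_le_lintegral_enorm _).trans (le_of_eq ?_)
      exact lintegral_congr fun y => enorm_shp H z y
    refine (pow_le_pow_left' h2 2).trans ?_
    have hHz : Measurable fun y => ‖H (y + z)‖ₑ := (hH.comp (measurable_id.add_const z)).enorm
    have h3 := cs (f := fun y => ‖H y‖ₑ ^ (1 / (2 : ℝ)))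
      (g := fun y => ‖H y‖ₑ ^ (1 / (2 : ℝ)) * ‖H (y + z)‖ₑ) (hH.enorm.pow_const _)
      ((hH.enorm.pow_const _).mul hHz)
    have e2 : ∀ x : ENNReal, (x ^ (1 / (2 : ℝ))) ^ 2 = x := fun x => by
      rw [← ENNReal.rpow_natCast, ← ENNReal.rpow_mul]; norm_num
    have e3 : ∀ x : ENNReal, x ^ (1 / (2 : ℝ)) * x ^ (1 / (2 : ℝ)) = x := fun x => by
      rw [← sq, e2]
    simp only [mul_pow, e2, ← mul_assoc, e3] at h3
    exact h3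
  have h4 : nm (ac H) ≤ ∫⁻ z, L * ∫⁻ y, ‖H y‖ₑ * ‖H (y + z)‖ₑ ^ 2 := by
    unfold nm
    exact lintegral_mono h1
  refine h4.trans (le_of_eq ?_)
  have hm2 : Measurable fun p : ℝ × ℝ => ‖H p.2‖ₑ * ‖H (p.2 + p.1)‖ₑ ^ 2 :=
    (hH.comp measurable_snd).enorm.mul
      ((hH.comp (measurable_snd.add measurable_fst)).enorm.pow_const 2)
  rw [lintegral_const_mul _ hm2.lintegral_prod_right', lintegral_lintegral_swap hm2.aemeasurable]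
  have h5 : ∀ y : ℝ, ∫⁻ z, ‖H y‖ₑ * ‖H (y + z)‖ₑ ^ 2 = ‖H y‖ₑ * nm H := by
    intro y
    have hm : Measurable fun z : ℝ => ‖H (y + z)‖ₑ ^ 2 :=
      (hH.comp (measurable_const.add measurable_id)).enorm.pow_const 2
    rw [lintegral_const_mul _ hm, nm_shift']
  rw [lintegral_congr h5, lintegral_mul_const _ hH.enorm, ← hL, ← mul_assoc, sq]

theorem U3_eq (Y : ℝ → ℂ) : U3 Y = ∫⁻ τ, nm (ac (shp Y τ)) := by
  unfold U3 nm ac shp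
  refine lintegral_congr fun τ => lintegral_congr fun z => ?_
  congr 3
  funext y
  rw [map_mul, Complex.conj_conj, add_right_comm y z τ]
  ring

theorem meas_nm_shp {Y : ℝ → ℂ} (hY : Measurable Y) : Measurable fun τ => nm (shp Y τ) := by
  unfold nm
  exact ((meas_shp2 hY).enorm.pow_const 2).lintegral_prod_right'

theorem U3_le {Y : ℝ → ℂ} (hY : Measurable Y) : U3 Y ≤ nm Y ^ 4 := by
  rw [U3_eq]
  have h1 : ∀ τ, nm (ac (shp Y τ)) ≤ nm Y ^ 2 * nm (shp Y τ) := by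
    intro τ
    refine (nm_ac_le (meas_shp hY τ)).trans ?_
    exact mul_le_mul' (pow_le_pow_left' (l1_shp hY τ) 2) le_rfl
  refine (lintegral_mono h1).trans (le_of_eq ?_)
  rw [lintegral_const_mul _ (meas_nm_shp hY), nm_shp hY, ← pow_add]

theorem meas_nm_ac {Y : ℝ → ℂ} (hY : Measurable Y) : Measurable fun τ => nm (ac (shp Y τ)) := by
  have h1 : Measurable fun p : (ℝ × ℝ) × ℝ =>
      shp Y p.1.1 p.2 * (starRingEnd ℂ) (shp Y p.1.1 (p.2 + p.1.2)) := by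
    have ha : Measurable fun p : (ℝ × ℝ) × ℝ => shp Y p.1.1 p.2 :=
      (meas_shp2 hY).comp ((measurable_fst.comp measurable_fst).prodMk measurable_snd)
    have hb : Measurable fun p : (ℝ × ℝ) × ℝ => shp Y p.1.1 (p.2 + p.1.2) :=
      (meas_shp2 hY).comp ((measurable_fst.comp measurable_fst).prodMk
        (measurable_snd.add (measurable_snd.comp measurable_fst)))
    exact ha.mul (Complex.continuous_conj.measurable.comp hb)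
  have h2 : StronglyMeasurable fun p : ℝ × ℝ =>
      ∫ y, shp Y p.1 y * (starRingEnd ℂ) (shp Y p.1 (y + p.2)) :=
    h1.stronglyMeasurable.integral_prod_right'
  unfold nm
  exact (h2.measurable.enorm.pow_const 2).lintegral_prod_right'

theorem meas_ac {Y : ℝ → ℂ} (hY : Measurable Y) : Measurable (ac Y) := by
  have h2 : StronglyMeasurable fun τ : ℝ => ∫ y, shp Y τ y :=
    (meas_shp2 hY).stronglyMeasurable.integral_prod_right'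
  exact h2.measurable

end Pool.Agent.P07318o
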