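import Pool.Agent.Lib.P07318o.FrIndep

/-!
# Module FrCh: the form `Fm` when one slot is constant

PROOFS.  If the integrand of `Fm` is not integrable then `Fm = 0`.
* `form_ch_last`: `P` is a constant `w`: `Fm β k G P = (∏ j, ∫ G j) * w` (`integral_mul_const`,
  `integral_fintype_prod_volume_eq_prod`), so `‖Fm‖ₑ ≤ ∏ j, ‖∫ G j‖ₑ` for `‖w‖ ≤ 1`.
* `form_ch`: `G i` is a constant `w`, `‖w‖ ≤ 1`.  Separate the coordinate `i`: `iso_int i`, `prod_insertNth`, `sum_insertNth`, and (the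
  integrand is integrable, `iso_able`) integrate over the separated variable `x` first (`integral_prod_symm`):
  `Fm = ∫ w' : Fin m → ℝ, (∏ j, G (i.succAbove j) (w' j)) * w * ∫ x, P (k + (β i * x + s w'))`, and
  `∫ x, P (k + (β i * x + s)) = |β i|⁻¹ • ∫ P` (`integral_comp_mul_left`, translation invariance; true without integrability), a constant.  So
  `‖Fm‖ₑ ≤ ofReal |β i|⁻¹ * (∏ j : Fin m, ‖∫ G (i.succAbove j)‖ₑ) * ‖∫ P‖ₑ`, and the product over `j : Fin m` is the product over `univ.erase i`.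
-/

set_option autoImplicit false

namespace Pool.Agent.P07318o

open MeasureTheory Complex Pool.Agent.P07318s Pool.Agent.P07318f Pool.Agent.P07318h

namespace FrChAux

lemma prod_erase {M : Type*} [CommMonoid M] {m : ℕ} (i : Fin (m + 1)) (f : Fin (m + 1) → M) :
    ∏ j ∈ Finset.univ.erase i, f j = ∏ j, f (i.succAbove j) := by
  classical
  have h : (Finset.univ.erase i : Finset (Fin (m + 1))) = Finset.univ.image i.succAbove := by
    ext j
    simp
  rw [h, Finset.prod_image (fun a _ b _ hab => Fin.succAbove_right_injective hab)]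

lemma enorm_le_one {w : ℂ} (hw : ‖w‖ ≤ 1) : ‖w‖ₑ ≤ 1 := by
  rw [← ofReal_norm]
  exact ENNReal.ofReal_le_one.2 hw

lemma int_affine (P : ℝ → ℂ) {b : ℝ} (k s : ℝ) :
    ∫ x, P (k + (b * x + s)) = |b|⁻¹ • ∫ x, P x := by
  have h1 : ∫ x, P (k + (b * x + s)) = ∫ x, (fun z => P (z + (k + s))) (b * x) := by
    refine integral_congr_ae (Filter.Eventually.of_forall fun x => ?_)
    simp only
    congr 1
    ring
  rw [h1, Measure.integral_comp_mul_left (fun z => P (z + (k + s))) b, integral_add_right_eq_self P, abs_inv]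

lemma enorm_prod' {ι : Type*} (s : Finset ι) (f : ι → ℂ) : ‖∏ j ∈ s, f j‖ₑ = ∏ j ∈ s, ‖f j‖ₑ := by
  classical
  induction s using Finset.induction_on with
  | empty => simp
  | insert a s ha ih => rw [Finset.prod_insert ha, Finset.prod_insert ha, enorm_mul, ih]

end FrChAux

open FrChAux

theorem form_ch_last {m : ℕ} (β : Fin (m + 1) → ℝ) (k : ℝ) (G : Fin (m + 1) → ℝ → ℂ) (w : ℂ) (hw : ‖w‖ ≤ 1) :
    ‖Fm β k G (fun _ => w)‖ₑ ≤ ∏ j, ‖∫ y, G j y‖ₑ := by
  unfold Fm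
  rw [integral_mul_const, integral_fintype_prod_volume_eq_prod, enorm_mul, enorm_prod']
  calc (∏ j, ‖∫ y, G j y‖ₑ) * ‖w‖ₑ ≤ (∏ j, ‖∫ y, G j y‖ₑ) * 1 := by
        gcongr
        exact enorm_le_one hw
    _ = _ := mul_one _

theorem form_ch {m : ℕ} (β : Fin (m + 1) → ℝ) (hβ : ∀ j, β j ≠ 0) (k : ℝ) (G : Fin (m + 1) → ℝ → ℂ) (P : ℝ → ℂ)
    (i : Fin (m + 1)) (w : ℂ) (hw : ‖w‖ ≤ 1) (hG : G i = fun _ => w) :
    ‖Fm β k G P‖ₑ ≤ ENNReal.ofReal |β i|⁻¹ * (∏ j ∈ Finset.univ.erase i, ‖∫ y, G j y‖ₑ) * ‖∫ y, P y‖ₑ := by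
  by_cases hI : Integrable (fun y : Fin (m + 1) → ℝ => (∏ j, G j (y j)) * P (k + ∑ j, β j * y j))
  · have h1 := (iso_able i _).2 hI
    have h2 : Fm β k G P = (∫ w' : Fin m → ℝ, ∏ j, G (i.succAbove j) (w' j)) * (w * (|β i|⁻¹ • ∫ x, P x)) := by
      unfold Fm
      rw [iso_int i, Measure.volume_eq_prod, integral_prod_symm _ h1, ← integral_mul_const]
      refine integral_congr_ae (Filter.Eventually.of_forall fun w' => ?_)
      simp only
      rw [← int_affine P k (∑ j, β (i.succAbove j) * w' j)]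
      have h3 : ∀ x : ℝ, (∏ j, G j ((i.insertNth x w' : Fin (m + 1) → ℝ) j)) *
          P (k + ∑ j, β j * (i.insertNth x w' : Fin (m + 1) → ℝ) j) =
          ((∏ j, G (i.succAbove j) (w' j)) * w) * P (k + (β i * x + ∑ j, β (i.succAbove j) * w' j)) := by
        intro x
        rw [prod_insertNth i G x w', sum_insertNth, hG]
        ring
      simp only [h3]
      rw [integral_const_mul, mul_assoc]
    rw [h2, prod_erase i (fun j => ‖∫ y, G j y‖ₑ), integral_fintype_prod_volume_eq_prod, enorm_mul, enorm_mul, enorm_smul,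
      enorm_prod']
    have h4 : ‖|β i|⁻¹‖ₑ = ENNReal.ofReal |β i|⁻¹ := by
      rw [Real.enorm_eq_ofReal (inv_nonneg.2 (abs_nonneg _))]
    rw [h4]
    calc (∏ j, ‖∫ x, G (i.succAbove j) x‖ₑ) * (‖w‖ₑ * (ENNReal.ofReal |β i|⁻¹ * ‖∫ x, P x‖ₑ)) ≤
        (∏ j, ‖∫ x, G (i.succAbove j) x‖ₑ) * (1 * (ENNReal.ofReal |β i|⁻¹ * ‖∫ x, P x‖ₑ)) := by
          gcongr
          exact enorm_le_one hw
      _ = _ := by ring
  · have h0 : Fm β k G P = 0 := by
      unfold Fm
      exact integral_undef hI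
    rw [h0]
    simp

end Pool.Agent.P07318o
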