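import Pool.Agent.Lib.P07318o.FrExp
import Pool.Agent.Lib.P07318o.FrCh
import Pool.Agent.Lib.P07318o.FrAc

/-!
# Module MixF: one slot is a character

PROOF.  The support of `Z p` is in `I = [a, a + W]`.
(1) `∫⁻ h, LA ^ 2 ≠ ⊤`: `‖Z i‖ = 1`, so `LA h = ∫⁻ t, ∏ j ∈ univ.erase i, ‖Z j (t + x_j)‖`, and the integrand vanishes unless
`t + x_p ∈ I`, a set of `t` of measure `W`; Cauchy-Schwarz: `LA h ^ 2 ≤ ofReal W * ∫⁻ t, ∏ j ∈ univ.erase i, ‖Z j (t + x_j)‖ ^ 2`, and
`indep` (slot `i`) gives `∫⁻ h, LA ^ 2 ≤ ofReal W * C * ∏ j ∈ univ.erase i, nm (Z j) < ⊤`.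
(2) `expand_form`.  `shp (Z i) τ y = exp(i ξ y) * conj (exp(i ξ (y + τ))) = exp(-i ξ τ)`, a constant of modulus `1`, and
`∫ y, shp (Z j) τ y = ac (Z j) τ`.  By `form_ch_last` (if `i = Fin.last`) or `form_ch` (if `i = i'.castSucc`):
`‖Fm ..‖ₑ ≤ ofReal C' * ∏ j ∈ univ.erase i, ‖ac (Z j) τ‖ₑ`, `C' = 1 + ∑ j, |ν j|⁻¹` (`Fin.prod_univ_castSucc` to collect the product).
(3) for `τ ∉ [-W, W]` `ac (Z p) τ = 0`: `Z p y * conj (Z p (y + τ)) ≠ 0` needs `y, y + τ ∈ I`, so `|τ| ≤ W`.  So the integral over `τ` is over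
`Set.Icc (-W) W`.  For `j ≠ i, r` `‖ac (Z j) τ‖ₑ ≤ nm (Z j)` (`ac_le`), the remaining factor is `‖ac (Z r) τ‖ₑ`.
-/

set_option autoImplicit false

namespace Pool.Agent.P07318o

open MeasureTheory Complex Pool.Agent.P07318s Pool.Agent.P07318f Pool.Agent.P07318h

namespace MixFAux

lemma prod_erase_last {M : Type*} [CommMonoid M] {n : ℕ} (F : Fin (n + 1) → M) :
    ∏ j ∈ Finset.univ.erase (Fin.last n), F j = ∏ j : Fin n, F j.castSucc := by
  classical
  set F' : Fin (n + 1) → M := fun j => if j = Fin.last n then 1 else F j with hF'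
  have h1 : ∏ j ∈ Finset.univ.erase (Fin.last n), F j = ∏ j ∈ Finset.univ.erase (Fin.last n), F' j := by
    refine Finset.prod_congr rfl fun j hj => ?_
    rw [hF']
    exact (if_neg (Finset.ne_of_mem_erase hj)).symm
  rw [h1, Finset.prod_erase Finset.univ (show F' (Fin.last n) = 1 from if_pos rfl),
    Fin.prod_univ_castSucc, show F' (Fin.last n) = 1 from if_pos rfl, mul_one]
  refine Finset.prod_congr rfl fun j _ => ?_
  exact if_neg (Fin.castSucc_lt_last j).ne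

lemma prod_erase_castSucc {M : Type*} [CommMonoid M] {n : ℕ} (F : Fin (n + 1) → M) (i : Fin n) :
    ∏ j ∈ Finset.univ.erase i.castSucc, F j =
      (∏ j ∈ Finset.univ.erase i, F j.castSucc) * F (Fin.last n) := by
  classical
  set F' : Fin (n + 1) → M := fun j => if j = i.castSucc then 1 else F j with hF'
  have h1 : ∏ j ∈ Finset.univ.erase i.castSucc, F j = ∏ j ∈ Finset.univ.erase i.castSucc, F' j := by
    refine Finset.prod_congr rfl fun j hj => ?_
    rw [hF']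
    exact (if_neg (Finset.ne_of_mem_erase hj)).symm
  rw [h1, Finset.prod_erase Finset.univ (show F' i.castSucc = 1 from if_pos rfl),
    Fin.prod_univ_castSucc, show F' (Fin.last n) = F (Fin.last n) from
      if_neg (Fin.castSucc_lt_last i).ne']
  congr 1
  refine (Finset.prod_erase Finset.univ (f := fun j : Fin n => F' j.castSucc) (a := i)
    (if_pos rfl)).symm.trans ?_
  refine Finset.prod_congr rfl fun j hj => ?_
  refine if_neg ?_
  intro h
  exact Finset.ne_of_mem_erase hj (Fin.castSucc_injective _ h)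

lemma sq_lint_le {f g : ℝ → ENNReal} (hf : Measurable f) (hg : Measurable g)
    (h : ∀ t, f t = g t * f t) : (∫⁻ t, f t) ^ 2 ≤ (∫⁻ t, g t ^ 2) * ∫⁻ t, f t ^ 2 := by
  have hpq : Real.HolderConjugate 2 2 := Real.HolderConjugate.two_two
  have h1 := ENNReal.lintegral_mul_le_Lp_mul_Lq volume hpq hg.aemeasurable hf.aemeasurable
  have h2 : ∫⁻ t, (g * f) t = ∫⁻ t, f t := by
    refine lintegral_congr fun t => ?_
    exact (h t).symm
  rw [h2] at h1
  have h3 : ∀ u : ℝ → ENNReal, (∫⁻ t, u t ^ (2 : ℝ)) = ∫⁻ t, u t ^ 2 := by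
    intro u
    refine lintegral_congr fun t => ?_
    exact ENNReal.rpow_two _
  rw [h3, h3] at h1
  have h4 : ∀ x : ENNReal, (x ^ (1 / 2 : ℝ)) ^ 2 = x := by
    intro x
    rw [← ENNReal.rpow_two, ← ENNReal.rpow_mul]
    norm_num
  calc (∫⁻ t, f t) ^ 2 ≤ ((∫⁻ t, g t ^ 2) ^ (1 / 2 : ℝ) * (∫⁻ t, f t ^ 2) ^ (1 / 2 : ℝ)) ^ 2 :=
        pow_le_pow_left' h1 2
    _ = (∫⁻ t, g t ^ 2) * ∫⁻ t, f t ^ 2 := by rw [mul_pow, h4, h4]

end MixFAux

open MixFAux in
theorem mix_form {m : ℕ} (hm : 1 ≤ m) (ν : Fin (m + 1) → ℝ) (hν : Adm ν) : ∃ C : ℝ, 0 < C ∧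
    ∀ (κ α : ℝ) (Z : Fin (m + 2) → ℝ → ℂ) (i r p : Fin (m + 2)) (ξ a W : ℝ), i ≠ r → p ≠ i → p ≠ r → 0 ≤ W →
    (∀ j, Measurable (Z j)) → (∀ j, j ≠ i → nm (Z j) ≠ ⊤) → (Z i = fun y : ℝ => cexp (((ξ * y : ℝ) : ℂ) * I)) →
    (∀ y, y ∉ Set.Icc a (a + W) → Z p y = 0) →
    ∫⁻ h, ‖LL ν κ α Z h‖ₑ ^ 2 ≤ ENNReal.ofReal C * (∏ j ∈ (Finset.univ.erase i).erase r, nm (Z j)) *
      ∫⁻ τ in Set.Icc (-W) W, ‖ac (Z r) τ‖ₑ := by
  classical
  obtain ⟨C1, hC1, hind⟩ := indep ν hν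
  have hC0 : 0 ≤ ∑ j, |ν j|⁻¹ := Finset.sum_nonneg fun j _ => by positivity
  refine ⟨1 + ∑ j, |ν j|⁻¹, by linarith, ?_⟩
  intro κ α Z i r p ξ a W hir hpi hpr hW hZ hn hZi hZp
  set C : ℝ := 1 + ∑ j, |ν j|⁻¹ with hC
  -- finiteness
  have hgi : ∀ y, ‖Z i y‖ₑ = 1 := by
    intro y
    rw [hZi]
    show ‖cexp (((ξ * y : ℝ) : ℂ) * I)‖ₑ = 1
    rw [← ofReal_norm, Complex.norm_exp_ofReal_mul_I, ENNReal.ofReal_one]
  have hgm : ∀ j, Measurable (fun y => ‖Z j y‖ₑ) := fun j => (hZ j).enorm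
  have hLA : ∀ h, LA ν κ α Z h ^ 2 ≤
      ENNReal.ofReal W * ∫⁻ t, ∏ j ∈ Finset.univ.erase i, (fun y => ‖Z j y‖ₑ ^ 2) (t + xs ν κ α h j) := by
    intro h
    have e1 : LA ν κ α Z h = ∫⁻ t, ∏ j ∈ Finset.univ.erase i, ‖Z j (t + xs ν κ α h j)‖ₑ := by
      unfold LA
      refine lintegral_congr fun t => ?_
      rw [← Finset.mul_prod_erase Finset.univ _ (Finset.mem_univ i), hgi, one_mul]
    rw [e1]
    set g : ℝ → ENNReal := fun t => (Set.Icc a (a + W)).indicator (fun _ => (1 : ENNReal)) (t + xs ν κ α h p) with hg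
    have hmeas : Measurable fun t => ∏ j ∈ Finset.univ.erase i, ‖Z j (t + xs ν κ α h j)‖ₑ := by
      refine Finset.measurable_prod _ fun j _ => ?_
      exact (hgm j).comp (measurable_id.add_const _)
    have hgmeas : Measurable g :=
      (measurable_const.indicator measurableSet_Icc).comp (measurable_id.add_const _)
    have e2 := sq_lint_le hmeas hgmeas (fun t => by
      by_cases ht : t + xs ν κ α h p ∈ Set.Icc a (a + W)
      · have : g t = 1 := by rw [hg]; exact Set.indicator_of_mem ht _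
        rw [this, one_mul]
      · have : ∏ j ∈ Finset.univ.erase i, ‖Z j (t + xs ν κ α h j)‖ₑ = 0 := by
          refine Finset.prod_eq_zero (Finset.mem_erase.2 ⟨hpi, Finset.mem_univ p⟩) ?_
          rw [hZp _ ht, enorm_zero]
        rw [this, mul_zero])
    have e3 : ∫⁻ t, g t ^ 2 = ENNReal.ofReal W := by
      have e4 : ∀ t, g t ^ 2 = (fun y => (Set.Icc a (a + W)).indicator (fun _ => (1 : ENNReal)) y)
          (t + xs ν κ α h p) := by
        intro t
        show ((Set.Icc a (a + W)).indicator (fun _ => (1 : ENNReal)) (t + xs ν κ α h p)) ^ 2 = _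
        by_cases ht : t + xs ν κ α h p ∈ Set.Icc a (a + W)
        · simp only [Set.indicator_of_mem ht]
          exact one_pow 2
        · simp only [Set.indicator_of_notMem ht]
          exact zero_pow two_ne_zero
      rw [lintegral_congr e4, lintegral_add_right_eq_self
        (fun y => (Set.Icc a (a + W)).indicator (fun _ => (1 : ENNReal)) y) (xs ν κ α h p),
        lintegral_indicator measurableSet_Icc, setLIntegral_const, one_mul, Real.volume_Icc]
      congr 1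
      ring
    rw [e3] at e2
    refine e2.trans (le_of_eq ?_)
    congr 1
    refine lintegral_congr fun t => ?_
    rw [← Finset.prod_pow]
  have hPi : ∏ j ∈ Finset.univ.erase i, nm (Z j) ≠ ⊤ := by
    refine (ENNReal.prod_lt_top fun j hj => ?_).ne
    exact (hn j (Finset.ne_of_mem_erase hj)).lt_top
  have hfin : ∫⁻ h, LA ν κ α Z h ^ 2 ≠ ⊤ := by
    have h1 : ∫⁻ h, LA ν κ α Z h ^ 2 ≤ ENNReal.ofReal W *
        (ENNReal.ofReal C1 * ∏ j ∈ Finset.univ.erase i, nm (Z j)) := by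
      refine (lintegral_mono hLA).trans ?_
      rw [lintegral_const_mul' _ _ ENNReal.ofReal_ne_top]
      have h2 := hind κ α i (fun j y => ‖Z j y‖ₑ ^ 2) (fun j => (hgm j).pow_const 2)
      exact mul_le_mul_right h2 _
    refine ne_top_of_le_ne_top ?_ h1
    exact ENNReal.mul_ne_top ENNReal.ofReal_ne_top (ENNReal.mul_ne_top ENNReal.ofReal_ne_top hPi)
  refine (expand_form hν κ α Z hZ hfin).trans ?_
  -- the constant slot
  have hw : ∀ τ : ℝ, shp (Z i) τ = fun _ => cexp (((-(ξ * τ) : ℝ) : ℂ) * I) := by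
    intro τ
    funext y
    unfold shp
    rw [hZi]
    show cexp (((ξ * y : ℝ) : ℂ) * I) * (starRingEnd ℂ) (cexp (((ξ * (y + τ) : ℝ) : ℂ) * I)) = _
    rw [← Complex.exp_conj, ← Complex.exp_add]
    congr 1
    rw [map_mul, Complex.conj_I, Complex.conj_ofReal]
    push_cast
    ring
  have hw1 : ∀ τ : ℝ, ‖cexp (((-(ξ * τ) : ℝ) : ℂ) * I)‖ ≤ 1 := fun τ => by
    rw [Complex.norm_exp_ofReal_mul_I]
  -- pointwise bound of the form
  have hF : ∀ τ, ‖Fm ν κ (fun j => shp (Z j.castSucc) τ) (shp (Z (Fin.last (m + 1))) τ)‖ₑ ≤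
      ENNReal.ofReal C * ∏ j ∈ Finset.univ.erase i, ‖ac (Z j) τ‖ₑ := by
    intro τ
    rcases Fin.eq_castSucc_or_eq_last i with ⟨i', hi'⟩ | hi'
    · have h0 : (fun j : Fin (m + 1) => shp (Z j.castSucc) τ) i' = fun _ => cexp (((-(ξ * τ) : ℝ) : ℂ) * I) := by
        show shp (Z i'.castSucc) τ = _
        rw [← hi']
        exact hw τ
      have h1 := form_ch ν hν.1 κ (fun j => shp (Z j.castSucc) τ) (shp (Z (Fin.last (m + 1))) τ) i' _ (hw1 τ) h0
      refine h1.trans ?_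
      rw [hi', prod_erase_castSucc, mul_assoc]
      have h2 : ENNReal.ofReal |ν i'|⁻¹ ≤ ENNReal.ofReal C := by
        apply ENNReal.ofReal_le_ofReal
        have h3 : |ν i'|⁻¹ ≤ ∑ j, |ν j|⁻¹ :=
          Finset.single_le_sum (f := fun j => |ν j|⁻¹) (fun j _ => by positivity) (Finset.mem_univ i')
        rw [hC]
        linarith
      exact mul_le_mul_left h2 _
    · have h0 : shp (Z (Fin.last (m + 1))) τ = fun _ => cexp (((-(ξ * τ) : ℝ) : ℂ) * I) := by
        rw [← hi']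
        exact hw τ
      rw [h0]
      refine (form_ch_last ν κ (fun j => shp (Z j.castSucc) τ) _ (hw1 τ)).trans ?_
      rw [hi', prod_erase_last]
      have h2 : (1 : ENNReal) ≤ ENNReal.ofReal C := by
        rw [← ENNReal.ofReal_one]
        apply ENNReal.ofReal_le_ofReal
        rw [hC]
        linarith
      calc ∏ j : Fin (m + 1), ‖∫ y, shp (Z j.castSucc) τ y‖ₑ
          = 1 * ∏ j : Fin (m + 1), ‖ac (Z j.castSucc) τ‖ₑ := by rw [one_mul]; rfl
        _ ≤ _ := mul_le_mul_left h2 _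
  -- the autocorrelation of `Z p` vanishes for large `τ`
  have hac : ∀ τ, τ ∉ Set.Icc (-W) W → ac (Z p) τ = 0 := by
    intro τ hτ
    unfold ac
    have h1 : (fun y => Z p y * (starRingEnd ℂ) (Z p (y + τ))) = fun _ => 0 := by
      funext y
      by_cases hy : y ∈ Set.Icc a (a + W)
      · by_cases hy' : y + τ ∈ Set.Icc a (a + W)
        · exfalso
          apply hτ
          rw [Set.mem_Icc] at hy hy' ⊢
          constructor <;> linarith
        · rw [hZp _ hy', map_zero, mul_zero]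
      · rw [hZp _ hy, zero_mul]
    rw [h1, integral_zero]
  have hr : r ∈ Finset.univ.erase i := Finset.mem_erase.2 ⟨hir.symm, Finset.mem_univ r⟩
  have hp : p ∈ (Finset.univ.erase i).erase r :=
    Finset.mem_erase.2 ⟨hpr, Finset.mem_erase.2 ⟨hpi, Finset.mem_univ p⟩⟩
  set P : ENNReal := ∏ j ∈ (Finset.univ.erase i).erase r, nm (Z j) with hP
  have hPt : P ≠ ⊤ := by
    refine (ENNReal.prod_lt_top fun j hj => ?_).ne
    exact (hn j (Finset.ne_of_mem_erase (Finset.mem_of_mem_erase hj))).lt_top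
  have hpt : ∀ τ, ‖Fm ν κ (fun j => shp (Z j.castSucc) τ) (shp (Z (Fin.last (m + 1))) τ)‖ₑ ≤
      (Set.Icc (-W) W).indicator (fun τ => ENNReal.ofReal C * P * ‖ac (Z r) τ‖ₑ) τ := by
    intro τ
    refine (hF τ).trans ?_
    rw [← Finset.prod_erase_mul _ _ hr]
    by_cases hτ : τ ∈ Set.Icc (-W) W
    · rw [Set.indicator_of_mem hτ, ← mul_assoc]
      have h1 : ∏ j ∈ (Finset.univ.erase i).erase r, ‖ac (Z j) τ‖ₑ ≤ P :=
        Finset.prod_le_prod' fun j _ => ac_le (hZ j) τ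
      exact mul_le_mul_left (mul_le_mul_right h1 _) _
    · rw [Set.indicator_of_notMem hτ]
      have h1 : ∏ j ∈ (Finset.univ.erase i).erase r, ‖ac (Z j) τ‖ₑ = 0 := by
        refine Finset.prod_eq_zero hp ?_
        rw [hac τ hτ, enorm_zero]
      rw [h1, zero_mul, mul_zero]
  refine (lintegral_mono hpt).trans (le_of_eq ?_)
  rw [lintegral_indicator measurableSet_Icc, lintegral_const_mul' _ _ (ENNReal.mul_ne_top ENNReal.ofReal_ne_top hPt)]

end Pool.Agent.P07318o
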