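import Pool.Agent.Lib.P07318o.GsQ
import Pool.Agent.Lib.P07318o.GsRow

/-!
# Module NmBk: the `L²` norm of a Gaussian block

PROOF.  `‖bk U η s c y‖ = ‖e^{-(y/U)²} ∑_{q ∈ s} c q e^{iy (-l(q))}‖` (the factor `e^{iηy}` has modulus `1`; `ex y p = exp(-i y lgr p)`), so by
`quad1` (`D = U`, `a q = -lgr q.1`) `nm ≤ 2U ∑_q ∑_{q'} (K A^{-1/2})² exp(-(U (l(q) - l(q')))²/8)`, for every `q` the sum over `q'` is
`≤ C (1 + A/U)` (`row_bd` with `c = 1/8`, `μ = l(q)`), and `|s| ≤ C A (1 + log A)` (`card_le`).  Here `Dy A s` is the hypothesis on `s`.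
-/

set_option autoImplicit false

namespace Pool.Agent.P07318o

open MeasureTheory Complex Pool.Agent.P07318s Pool.Agent.P07318f Pool.Agent.P07318h

theorem nm_bk : ∃ C : ℝ, 0 < C ∧ ∀ (U A K η : ℝ) (s : Finset Q) (c : Q → ℂ), 1 ≤ U → 1 ≤ A → 0 ≤ K →
    (∀ q ∈ s, A ≤ hgt q.1 ∧ hgt q.1 ≤ 2 * A) → (∀ q ∈ s, ‖c q‖ ≤ K * A ^ (-(1 / 2) : ℝ)) →
    nm (bk U η s c) ≤ ENNReal.ofReal (C * K ^ 2 * (U + A) * (1 + Real.log A)) := by
  obtain ⟨C1, hC1, h1⟩ := row_bd (1 / 8) (by norm_num)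
  obtain ⟨C2, hC2, h2⟩ := card_le
  refine ⟨2 * C1 * C2, by positivity, ?_⟩
  intro U A K η s c hU hA hK hs hc
  have hU0 : 0 < U := by linarith
  have hA0 : 0 < A := by linarith
  have hlog : 0 ≤ Real.log A := Real.log_nonneg hA
  have e1 : ∀ y : ℝ, ‖bk U η s c y‖ₑ = ‖((Real.exp (-(y / U) ^ 2) : ℝ) : ℂ) *
      ∑ q ∈ s, c q * cexp (((y * (-lgr q.1) : ℝ) : ℂ) * I)‖ₑ := by
    intro y
    have h3 : ‖cexp (((η * y : ℝ) : ℂ) * I)‖ₑ = 1 := by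
      rw [← ofReal_norm, Complex.norm_exp_ofReal_mul_I, ENNReal.ofReal_one]
    unfold bk ex
    rw [mul_assoc, mul_left_comm, enorm_mul, h3, one_mul]
    simp only [mul_neg]
  unfold nm
  simp_rw [e1]
  refine (quad1 s c (fun q => -lgr q.1) hU0).trans (ENNReal.ofReal_le_ofReal ?_)
  set E : ℝ := K * A ^ (-(1 / 2) : ℝ) with hE
  have hE0 : 0 ≤ E := by positivity
  have hE2 : E * E = K ^ 2 * A⁻¹ := by
    rw [hE, mul_mul_mul_comm, ← Real.rpow_add hA0, ← sq,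
      show (-(1 / 2) + -(1 / 2) : ℝ) = -1 by norm_num, Real.rpow_neg_one]
  have h4 : ∀ i ∈ s, ∑ j ∈ s, ‖c i‖ * ‖c j‖ * Real.exp (-(U * (-lgr i.1 - -lgr j.1)) ^ 2 / 8) ≤
      E * E * (C1 * (1 + A / U)) := by
    intro i hi
    have h5 : ∀ j ∈ s, ‖c i‖ * ‖c j‖ * Real.exp (-(U * (-lgr i.1 - -lgr j.1)) ^ 2 / 8) ≤
        E * E * Real.exp (-(1 / 8 * (U * (lgr j.1 - lgr i.1)) ^ 2)) := by
      intro j hj
      have h6 : -(U * (-lgr i.1 - -lgr j.1)) ^ 2 / 8 = -(1 / 8 * (U * (lgr j.1 - lgr i.1)) ^ 2) := by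
        ring
      rw [h6]
      refine mul_le_mul_of_nonneg_right ?_ (Real.exp_nonneg _)
      exact mul_le_mul (hc i hi) (hc j hj) (norm_nonneg _) hE0
    refine (Finset.sum_le_sum h5).trans ?_
    rw [← Finset.mul_sum]
    exact mul_le_mul_of_nonneg_left (h1 U A (lgr i.1) s hU hA hs) (mul_nonneg hE0 hE0)
  have h7 : ∑ i ∈ s, ∑ j ∈ s, ‖c i‖ * ‖c j‖ * Real.exp (-(U * (-lgr i.1 - -lgr j.1)) ^ 2 / 8) ≤
      (C2 * A * (1 + Real.log A)) * (E * E * (C1 * (1 + A / U))) := by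
    refine (Finset.sum_le_sum h4).trans ?_
    rw [Finset.sum_const, nsmul_eq_mul]
    refine mul_le_mul_of_nonneg_right (h2 A s hA hs) ?_
    positivity
  calc 2 * U * ∑ i ∈ s, ∑ j ∈ s, ‖c i‖ * ‖c j‖ *
        Real.exp (-(U * (-lgr i.1 - -lgr j.1)) ^ 2 / 8)
      ≤ 2 * U * ((C2 * A * (1 + Real.log A)) * (E * E * (C1 * (1 + A / U)))) :=
        mul_le_mul_of_nonneg_left h7 (by positivity)
    _ = 2 * C1 * C2 * K ^ 2 * (U + A) * (1 + Real.log A) := by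
        rw [hE2]
        field_simp

end Pool.Agent.P07318o
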