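import Pool.Agent.Lib.P07318o.Expand
import Pool.Agent.Lib.P07318o.BandExp
import Pool.Agent.Lib.P07318o.MixF
import Pool.Agent.Lib.P07318o.AcBk
import Pool.Agent.Lib.P07318o.NmBk
import Pool.Agent.Lib.P07318o.LLcut

/-!
# A slot with small heights together with a slot with top heights

PROOF. `U = T/4`, `L = lg T`. (1) `expand` for the slot `i` with `ι = ℤ × {q // q ∈ qs 0 Y}` and `char_exp` (`b p = cf p.1 p.2 * character`), `w p = pk p.1`, `P = C #(qs 0 Y) ≤ C Y²`, `p` = a third slot `p ≠ i, r` (exists, `m + 2 ≥ 3`). Hypotheses of `expand`: the slots `j ≠ i` are continuous with support in `[U, 16U]`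
(slot `r`: `ct_cont`, `ct_supp`, `bd_contOn`), hence bounded. `LL (update Z i (cf • χ)) = cf * LL (update Z i χ)` (pull the constant out of the product and the integral). So
`∫⁻_{Dm} ‖LL Z‖² ≤ C Y² ∑' p, (pk)⁻¹ ‖cf‖² ∫⁻_{Dm} ‖LL (update Z i χ_p)‖² ≤ C Y² ∑' p, C² Λ² L² pk p.1 ∫⁻_{Dm} ..≤ C Y⁴ Λ² L² sup_χ ∫⁻_{Dm} ‖LL (update Z i χ)‖²`.
(2) For fixed `χ`: `expand` for the slot `r` with `band_exp` as in `Mid` (`J ≤ 1 + log(B/A)/log 2 ≤ 3L`, `B ≤ T²`), slot `i` is the character (continuous, bounded by `1`), `p` as before: `≤ C J ∑' (k, a), (pk k)⁻¹ ∫⁻_h ‖LL (update (update Z i χ) r bk)‖²`.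
(3) `mix_form` with `p`, `a = T/4`, `W = 15 T/4 = 15 U`: `≤ C ∏_{j ≠ i, r} nm (Z j) * ∫⁻_{|τ| ≤ 15U} ‖ac bk‖ ≤ C G^m * C K² U² A_a^(-1/2) (1 + log A_a)(1 + A_a/U)²` (`ac_bk`, `K = C Λ pk k kl U (A_a)`), and `kl U (A_a)² (1 + A_a/U)² ≤ 4 L²` (for `A_a ≤ U`: `kl ≤ L`, `1 + A_a/U ≤ 2`;
for `A_a > U`: `kl = (U/A_a)²`, `(U/A_a)⁴ (2 A_a/U)² ≤ 4`), `A_a^(-1/2) ≤ A^(-1/2)`, `1 + log A_a ≤ 3 L`. Sum over `(k, a)`: `C Λ² L² U² A^(-1/2) L J G^m`, times `C J`: `C Λ² L^5 U² A^(-1/2) G^m`. Total with (1): `C Λ⁴ L^7 Y⁴ T² A^(-1/2) G^m`.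
If the band `(A, B]` is empty everything is `0`.
-/

set_option autoImplicit false

namespace Pool.Agent.P07318o

open MeasureTheory Complex Pool.Agent.P07318s Pool.Agent.P07318f Pool.Agent.P07318h

namespace MixedAux

theorem lg_ge_one {T : ℝ} (hT : 4 ≤ T) : 1 ≤ lg T := by
  unfold lg
  have : 0 ≤ Real.log T := Real.log_nonneg (by linarith)
  linarith

theorem exists_third {m : ℕ} (hm : 1 ≤ m) (i r : Fin (m + 2)) : ∃ p : Fin (m + 2), p ≠ i ∧ p ≠ r := by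
  classical
  by_contra hcon
  push Not at hcon
  have h1 : (Finset.univ : Finset (Fin (m + 2))) ⊆ {i, r} := by
    intro p _
    by_cases h : p = i
    · simp [h]
    · simp [hcon p h]
  have h2 := Finset.card_le_card h1
  have h3 : ({i, r} : Finset (Fin (m + 2))).card ≤ 2 := Finset.card_le_two
  rw [Finset.card_univ, Fintype.card_fin] at h2
  omega

theorem ex_cont (q : ℕ+ × ℕ+) : Continuous fun y : ℝ => ex y q := by
  unfold ex
  exact (Complex.continuous_exp).comp (((Complex.continuous_ofReal.comp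
    ((continuous_id.mul continuous_const).neg)).mul continuous_const))

theorem norm_ex (y : ℝ) (q : ℕ+ × ℕ+) : ‖ex y q‖ = 1 := norm_exp_ofReal_mul_I _

theorem bk_cont (U η : ℝ) (s : Finset Q) (c : Q → ℂ) : Continuous (bk U η s c) := by
  unfold bk
  refine Continuous.mul (Continuous.mul ?_ ?_) ?_
  · exact Complex.continuous_ofReal.comp (Real.continuous_exp.comp
      ((continuous_id.div_const U).pow 2).neg)
  · exact Complex.continuous_exp.comp ((Complex.continuous_ofReal.comp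
      (continuous_const.mul continuous_id)).mul continuous_const)
  · exact continuous_finset_sum _ fun q _ => continuous_const.mul (ex_cont q.1)

theorem norm_bk_le (U η : ℝ) (s : Finset Q) (c : Q → ℂ) (y : ℝ) :
    ‖bk U η s c y‖ ≤ ∑ q ∈ s, ‖c q‖ := by
  unfold bk
  rw [norm_mul, norm_mul]
  have h1 : ‖((Real.exp (-(y / U) ^ 2) : ℝ) : ℂ)‖ ≤ 1 := by
    rw [Complex.norm_real, Real.norm_eq_abs, abs_of_pos (Real.exp_pos _), Real.exp_le_one_iff]
    have : 0 ≤ (y / U) ^ 2 := sq_nonneg _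
    linarith
  have h2 : ‖cexp (((η * y : ℝ) : ℂ) * I)‖ = 1 := norm_exp_ofReal_mul_I _
  have h3 : ‖∑ q ∈ s, c q * ex y q.1‖ ≤ ∑ q ∈ s, ‖c q‖ := by
    refine (norm_sum_le _ _).trans (Finset.sum_le_sum fun q _ => ?_)
    rw [norm_mul, norm_ex, mul_one]
  rw [h2, mul_one]
  calc ‖((Real.exp (-(y / U) ^ 2) : ℝ) : ℂ)‖ * ‖∑ q ∈ s, c q * ex y q.1‖
      ≤ 1 * ∑ q ∈ s, ‖c q‖ := mul_le_mul h1 h3 (norm_nonneg _) zero_le_one
    _ = _ := one_mul _

theorem char_cont (ξ : ℝ) : Continuous fun y : ℝ => cexp (((ξ * y : ℝ) : ℂ) * I) :=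
  Complex.continuous_exp.comp ((Complex.continuous_ofReal.comp
    (continuous_const.mul continuous_id)).mul continuous_const)

theorem norm_char (ξ y : ℝ) : ‖cexp (((ξ * y : ℝ) : ℂ) * I)‖ = 1 := norm_exp_ofReal_mul_I _

theorem tsum_bound {ι : Type} {w : ι → ℝ} {P X : ℝ} (hw : ∀ i, 0 < w i)
    (hwP : ∀ s : Finset ι, ∑ i ∈ s, w i ≤ P) (hX : 0 ≤ X) (f : ι → ENNReal)
    (hf : ∀ i, f i ≤ ENNReal.ofReal (X * w i ^ 2)) :
    ∑' i, (ENNReal.ofReal (w i))⁻¹ * f i ≤ ENNReal.ofReal (X * P) := by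
  rw [ENNReal.tsum_eq_iSup_sum]
  refine iSup_le fun s => ?_
  have h1 : ∀ i ∈ s, (ENNReal.ofReal (w i))⁻¹ * f i ≤ ENNReal.ofReal (X * w i) := by
    intro i _
    refine (mul_le_mul' le_rfl (hf i)).trans (le_of_eq ?_)
    rw [← ENNReal.ofReal_inv_of_pos (hw i), ← ENNReal.ofReal_mul (inv_nonneg.2 (hw i).le)]
    congr 1
    have := (hw i).ne'
    field_simp
  refine (Finset.sum_le_sum h1).trans ?_
  rw [← ENNReal.ofReal_sum_of_nonneg fun i _ => mul_nonneg hX (hw i).le]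
  refine ENNReal.ofReal_le_ofReal ?_
  rw [← Finset.mul_sum]
  exact mul_le_mul_of_nonneg_left (hwP s) hX

theorem sum_fst_le {κ' : Type} [Fintype κ'] {w : ℤ → ℝ} {C : ℝ} (hw : ∀ k, 0 ≤ w k)
    (hC : ∀ s : Finset ℤ, ∑ k ∈ s, w k ≤ C) (s : Finset (ℤ × κ')) :
    ∑ p ∈ s, w p.1 ≤ Fintype.card κ' * C := by
  classical
  have h1 : s ⊆ (s.image Prod.fst) ×ˢ (Finset.univ : Finset κ') := by
    intro p hp
    exact Finset.mem_product.2 ⟨Finset.mem_image_of_mem _ hp, Finset.mem_univ _⟩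
  calc ∑ p ∈ s, w p.1 ≤ ∑ p ∈ (s.image Prod.fst) ×ˢ (Finset.univ : Finset κ'), w p.1 :=
        Finset.sum_le_sum_of_subset_of_nonneg h1 fun p _ _ => hw _
    _ = Fintype.card κ' * ∑ k ∈ s.image Prod.fst, w k := by
        rw [Finset.sum_product, Finset.mul_sum]
        refine Finset.sum_congr rfl fun k _ => ?_
        change ∑ _y : κ', w k = (Fintype.card κ' : ℝ) * w k
        rw [Finset.sum_const, Finset.card_univ, nsmul_eq_mul]
    _ ≤ _ := mul_le_mul_of_nonneg_left (hC _) (Nat.cast_nonneg _)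

theorem summable_pk : Summable pk := by
  obtain ⟨C, hC, h⟩ := pk_sum
  exact summable_of_sum_le (fun k => (pk_pos k).le) h

theorem exists_J {T A B : ℝ} (hT : 4 ≤ T) (hA : 1 ≤ A) (hB : B ≤ T ^ 2) :
    ∃ J : ℕ, B ≤ 2 ^ J * A ∧ (J : ℝ) ≤ 3 * lg T := by
  have hlog : 0 ≤ Real.log T := Real.log_nonneg (by linarith)
  refine ⟨Nat.clog 2 ⌈B⌉₊, ?_, ?_⟩
  · have h1 : (⌈B⌉₊ : ℝ) ≤ ((2 ^ Nat.clog 2 ⌈B⌉₊ : ℕ) : ℝ) := by
      exact_mod_cast Nat.le_pow_clog (by norm_num) _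
    have h2 : B ≤ (⌈B⌉₊ : ℝ) := Nat.le_ceil B
    push_cast at h1
    have h3 : (0 : ℝ) < 2 ^ Nat.clog 2 ⌈B⌉₊ := by positivity
    nlinarith
  · rcases Nat.eq_zero_or_pos (Nat.clog 2 ⌈B⌉₊) with h0 | h0
    · rw [h0, Nat.cast_zero]
      unfold lg
      linarith
    · have hx : 1 < ⌈B⌉₊ := by
        by_contra hcon
        rw [Nat.clog_of_right_le_one (by omega)] at h0
        omega
      have h1 : 2 ^ (Nat.clog 2 ⌈B⌉₊).pred < ⌈B⌉₊ := Nat.pow_pred_clog_lt_self (by norm_num) hx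
      have hB0 : 0 ≤ B := by
        by_contra hneg
        rw [Nat.ceil_eq_zero.2 (not_le.1 hneg).le] at hx
        omega
      have h2 : (⌈B⌉₊ : ℝ) < B + 1 := Nat.ceil_lt_add_one hB0
      have h3 : ((2 ^ (Nat.clog 2 ⌈B⌉₊).pred : ℕ) : ℝ) < ⌈B⌉₊ := by exact_mod_cast h1
      have h4 : (2 : ℝ) ^ (Nat.clog 2 ⌈B⌉₊).pred ≤ 2 * T ^ 2 := by
        push_cast at h3
        nlinarith
      have h5 := Real.log_le_log (by positivity) h4
      rw [Real.log_pow, Real.log_mul (by norm_num) (by positivity), Real.log_pow] at h5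
      have h6 : ((Nat.clog 2 ⌈B⌉₊).pred : ℝ) = (Nat.clog 2 ⌈B⌉₊ : ℝ) - 1 := by
        rw [Nat.pred_eq_sub_one, Nat.cast_sub h0, Nat.cast_one]
      rw [h6] at h5
      have h7 := Real.log_two_gt_d9
      unfold lg
      push_cast at h5
      nlinarith

end MixedAux

namespace MixedAux

theorem prod_bound {m : ℕ} (Z : Fin (m + 2) → ℝ → ℂ) (i r : Fin (m + 2)) (hir : i ≠ r) (G : ℝ)
    (h : ∀ j, j ≠ i → j ≠ r → nm (Z j) ≤ ENNReal.ofReal G) :
    ∏ j ∈ (Finset.univ.erase i).erase r, nm (Z j) ≤ ENNReal.ofReal G ^ m := by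
  have hcard : ((Finset.univ.erase i).erase r).card = m := by
    rw [Finset.card_erase_of_mem (Finset.mem_erase.2 ⟨hir.symm, Finset.mem_univ _⟩),
      Finset.card_erase_of_mem (Finset.mem_univ _), Finset.card_univ, Fintype.card_fin]
    omega
  have h1 : ∀ j ∈ (Finset.univ.erase i).erase r, nm (Z j) ≤ ENNReal.ofReal G := by
    intro j hj
    rw [Finset.mem_erase, Finset.mem_erase] at hj
    exact h j hj.2.1 hj.1
  refine (Finset.prod_le_prod' h1).trans (le_of_eq ?_)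
  rw [Finset.prod_const, hcard]

theorem kl_mul {T U Aa : ℝ} (hT : 4 ≤ T) (hU : U = T / 4) (hA : 1 ≤ Aa) :
    kl U Aa * (1 + Aa / U) ≤ 2 * lg T := by
  have hL := lg_ge_one hT
  have hU1 : 1 ≤ U := by rw [hU]; linarith
  have hU0 : 0 < U := by linarith
  have hA0 : 0 < Aa := by linarith
  by_cases h : Aa ≤ U
  · have h1 := kl_le hU1 hA
    have h2 : Real.log U ≤ Real.log T := Real.log_le_log hU0 (by rw [hU]; linarith)
    have h3 : kl U Aa ≤ lg T := by unfold lg; linarith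
    have h4 : Aa / U ≤ 1 := (div_le_one hU0).2 h
    have h5 := kl_nonneg hU1 hA0
    have h6 : 0 ≤ Aa / U := by positivity
    nlinarith
  · have h1 : kl U Aa = (U / Aa) ^ 2 := by unfold kl; rw [if_neg h]
    have h2 : (U / Aa) ^ 2 * (1 + Aa / U) = (U / Aa) ^ 2 + U / Aa := by
      field_simp
    have h3 : U / Aa ≤ 1 := (div_le_one hA0).2 (not_le.1 h).le
    have h4 : 0 ≤ U / Aa := by positivity
    rw [h1, h2]
    nlinarith

theorem mem_blk {A B : ℝ} {a : ℕ} {q : Q} (h : q ∈ blk A B a) :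
    q ∈ qs A B ∧ 2 ^ a * A < hgt q.1 ∧ hgt q.1 ≤ 2 ^ (a + 1) * A := by
  unfold blk at h
  exact Finset.mem_filter.1 h

theorem inner {m : ℕ} (hm : 1 ≤ m) (ν : Fin (m + 1) → ℝ) (hν : Adm ν) : ∃ C : ℝ, 0 < C ∧
    ∀ (κ α T Λ A B G ξ : ℝ) (c' : ℝ → ℝ) (Z : Fin (m + 2) → ℝ → ℂ) (i r : Fin (m + 2)), 4 ≤ T →
    1 ≤ Λ → Cut (T / 4) Λ c' → 1 ≤ A → B ≤ T ^ 2 → 0 ≤ G → i ≠ r →
    (∀ j, j ≠ i → j ≠ r → Continuous (Z j)) →
    (∀ j, j ≠ i → j ≠ r → ∀ y, y ∉ Set.Icc (T / 4) (16 * (T / 4)) → Z j y = 0) →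
    (∀ j, j ≠ i → j ≠ r → nm (Z j) ≤ ENNReal.ofReal G) →
    (Z i = fun y : ℝ => cexp (((ξ * y : ℝ) : ℂ) * I)) → (Z r = ct c' (bd A B)) →
    ∫⁻ h in Dm ν κ α T, ‖LL ν κ α Z h‖ₑ ^ 2 ≤
      ENNReal.ofReal (C * Λ ^ 2 * lg T ^ 5 * T ^ 2 * A ^ (-(1 / 2) : ℝ) * G ^ m) := by
  obtain ⟨C2, hC2, hband⟩ := band_exp
  obtain ⟨C3, hC3, hmix⟩ := mix_form hm ν hν
  obtain ⟨C4, hC4, hac⟩ := ac_bk
  obtain ⟨C5, hC5, hnm⟩ := nm_bk
  obtain ⟨Cp, hCp, hpk⟩ := pk_sum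
  refine ⟨9 * Cp ^ 2 * (C3 * (C4 * (C2 ^ 2 * 8))), by positivity, ?_⟩
  intro κ α T Λ A B G ξ c' Z i r hT hΛ hcut hA hB hG hir hZc hZs hZn hZi hZr
  obtain ⟨U, hUdef⟩ : ∃ U : ℝ, U = T / 4 := ⟨_, rfl⟩
  have hU : 1 ≤ U := by rw [hUdef]; linarith
  have hU0 : 0 < U := by linarith
  have hL := lg_ge_one hT
  obtain ⟨p, hpi, hpr⟩ := exists_third hm i r
  obtain ⟨J, hJ1, hJ2⟩ := exists_J hT hA hB
  rw [← hUdef] at hcut hZs
  obtain ⟨cf, hcf, hsum⟩ := hband U Λ A B J c' hU hΛ hcut hA hJ1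
  have hA12 : 0 ≤ A ^ (-(1 / 2) : ℝ) := Real.rpow_nonneg (by linarith) _
  let cst : Fin J → ℝ := fun a => ∑ q ∈ blk A B a, C2 * Λ * kl U (hgt q.1) *
    (hgt q.1) ^ (-(1 / 2) : ℝ)
  have hcst0 : ∀ a, 0 ≤ cst a := fun a => Finset.sum_nonneg fun q _ =>
    mul_nonneg (mul_nonneg (by positivity) (kl_nonneg hU (hgt_pos q.1)))
      (Real.rpow_nonneg (hgt_pos q.1).le _)
  let b : ℤ × Fin J → ℝ → ℂ := fun x =>
    bk U (2 * Real.pi * x.1 / (32 * U)) (blk A B x.2) (cf x.1)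
  have hβ : ∀ (x : ℤ × Fin J) (y : ℝ), ‖b x y‖ ≤ pk x.1 * cst x.2 := by
    intro x y
    refine (norm_bk_le _ _ _ _ _).trans ?_
    rw [Finset.mul_sum]
    refine Finset.sum_le_sum fun q _ => (hcf x.1 q).trans (le_of_eq ?_)
    ring
  have hZcr : ∀ j, j ≠ r → Continuous (Z j) := by
    intro j hj
    by_cases hji : j = i
    · rw [hji, hZi]
      exact char_cont ξ
    · exact hZc j hji hj
  have hexp := expand ν κ α T hT (ι := ℤ × Fin J) Z r p hpr hZcr (by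
      intro j hj
      by_cases hji : j = i
      · refine ⟨1, fun y => ?_⟩
        rw [hji, hZi]
        exact (norm_char ξ y).le
      · exact bounded_of (hZc j hji hj) (hZs j hji hj)) (by
      intro y hy
      refine hZs p hpi hpr y ?_
      rw [hUdef]
      intro h
      exact hy ⟨h.1, by linarith [h.2]⟩) b (fun x => pk x.1 * cst x.2) (fun x => pk x.1) (J * Cp)
    (fun x => bk_cont _ _ _ _) hβ
    (summable_pk.mul_of_nonneg (f := pk) (g := cst) (Summable.of_finite)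
      (fun k => (pk_pos k).le) hcst0) (by
      intro y hy1 hy2
      rw [hZr]
      exact hsum y (by rw [hUdef]; linarith) (by rw [hUdef]; linarith)) (fun x => pk_pos _) (by
      intro s
      have h1 := sum_fst_le (κ' := Fin J) (fun k => (pk_pos k).le) hpk s
      rw [Fintype.card_fin] at h1
      exact h1)
  obtain ⟨X, hXdef⟩ : ∃ X : ℝ, X = C3 * G ^ m *
    (C4 * (C2 ^ 2 * 8) * Λ ^ 2 * lg T ^ 3 * U ^ 2 * A ^ (-(1 / 2) : ℝ)) := ⟨_, rfl⟩
  have hX : 0 ≤ X := by rw [hXdef]; positivity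
  have hterm : ∀ x : ℤ × Fin J,
      ∫⁻ h in Dm ν κ α T, ‖LL ν κ α (Function.update Z r (b x)) h‖ₑ ^ 2 ≤
        ENNReal.ofReal (X * pk x.1 ^ 2) := by
    rintro ⟨k, a⟩
    obtain ⟨Aa, hAadef⟩ : ∃ Aa : ℝ, Aa = 2 ^ (a : ℕ) * A := ⟨_, rfl⟩
    have h2a : (1 : ℝ) ≤ 2 ^ (a : ℕ) := one_le_pow₀ (by norm_num)
    have hAA : A ≤ Aa := by rw [hAadef]; nlinarith
    have hAa1 : 1 ≤ Aa := hA.trans hAA
    have hAa0 : 0 < Aa := by linarith
    have hk0 := pk_pos k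
    have hkl0 := kl_nonneg hU hAa0
    obtain ⟨K, hKdef⟩ : ∃ K : ℝ, K = C2 * Λ * pk k * kl U Aa := ⟨_, rfl⟩
    have hK0 : 0 ≤ K := by rw [hKdef]; positivity
    have hblk : ∀ q ∈ blk A B a, Aa ≤ hgt q.1 ∧ hgt q.1 ≤ 2 * Aa := by
      intro q hq
      obtain ⟨-, h1, h2⟩ := mem_blk hq
      rw [hAadef]
      refine ⟨h1.le, h2.trans (le_of_eq ?_)⟩
      rw [pow_succ]
      ring
    have hco : ∀ q ∈ blk A B a, ‖cf k q‖ ≤ K * Aa ^ (-(1 / 2) : ℝ) := by
      intro q hq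
      refine (hcf k q).trans ?_
      rw [hKdef]
      have h1 := (hblk q hq).1
      have h2 : kl U (hgt q.1) ≤ kl U Aa := kl_anti hU hAa0 h1
      have h3 : (hgt q.1) ^ (-(1 / 2) : ℝ) ≤ Aa ^ (-(1 / 2) : ℝ) :=
        Real.rpow_le_rpow_of_nonpos hAa0 h1 (by norm_num)
      have h4 := kl_nonneg hU (hgt_pos q.1)
      exact mul_le_mul (mul_le_mul_of_nonneg_left h2 (by positivity)) h3
        (Real.rpow_nonneg (hgt_pos q.1).le _) (by positivity)
    have hnmfin : nm (b (k, a)) ≠ ⊤ :=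
      ne_top_of_le_ne_top ENNReal.ofReal_ne_top (hnm U Aa K _ _ _ hU hAa1 hK0 hblk hco)
    have hacb : ∫⁻ τ in Set.Icc (-(15 * U)) (15 * U), ‖ac (b (k, a)) τ‖ₑ ≤
        ENNReal.ofReal (C4 * (C2 ^ 2 * 8) * Λ ^ 2 * lg T ^ 3 * U ^ 2 * A ^ (-(1 / 2) : ℝ) *
          pk k ^ 2) := by
      rcases (blk A B a).eq_empty_or_nonempty with h0 | ⟨q, hq⟩
      · have h1 := hac U 1 0 (2 * Real.pi * k / (32 * U)) (blk A B a) (cf k) hU le_rfl le_rfl
          (by rw [h0]; intro q hq; exact absurd hq (Finset.notMem_empty q))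
          (by rw [h0]; intro q hq; exact absurd hq (Finset.notMem_empty q))
        refine h1.trans (ENNReal.ofReal_le_ofReal ?_)
        have h2 : 0 ≤ C4 * (C2 ^ 2 * 8) * Λ ^ 2 * lg T ^ 3 * U ^ 2 * A ^ (-(1 / 2) : ℝ) *
          pk k ^ 2 := by positivity
        refine le_trans (le_of_eq ?_) h2
        ring
      · refine (hac U Aa K _ _ _ hU hAa1 hK0 hblk hco).trans (ENNReal.ofReal_le_ofReal ?_)
        have hAT : Aa ≤ T ^ 2 := by
          obtain ⟨h1, h2, -⟩ := mem_blk hq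
          have h3 := (mem_qs.1 h1).2
          rw [hAadef]
          linarith
        have hlogA : 1 + Real.log Aa ≤ 2 * lg T := by
          have h1 := Real.log_le_log hAa0 hAT
          rw [Real.log_pow] at h1
          unfold lg
          push_cast at h1
          linarith
        have hlogA0 : 0 ≤ 1 + Real.log Aa := by
          have := Real.log_nonneg hAa1
          linarith
        have hpow : Aa ^ (-(1 / 2) : ℝ) ≤ A ^ (-(1 / 2) : ℝ) :=
          Real.rpow_le_rpow_of_nonpos (by linarith) hAA (by norm_num)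
        have hpow0 : 0 ≤ Aa ^ (-(1 / 2) : ℝ) := Real.rpow_nonneg hAa0.le _
        have hkm := kl_mul hT hUdef hAa1
        have hkm0 : 0 ≤ kl U Aa * (1 + Aa / U) := by positivity
        calc C4 * K ^ 2 * U ^ 2 * Aa ^ (-(1 / 2) : ℝ) * (1 + Real.log Aa) * (1 + Aa / U) ^ 2
            = (C4 * C2 ^ 2 * Λ ^ 2 * U ^ 2 * pk k ^ 2) * (kl U Aa * (1 + Aa / U)) ^ 2 *
                (Aa ^ (-(1 / 2) : ℝ) * (1 + Real.log Aa)) := by rw [hKdef]; ring
          _ ≤ (C4 * C2 ^ 2 * Λ ^ 2 * U ^ 2 * pk k ^ 2) * (2 * lg T) ^ 2 *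
                (A ^ (-(1 / 2) : ℝ) * (2 * lg T)) := by
              refine mul_le_mul ?_ (mul_le_mul hpow hlogA hlogA0 hA12) (by positivity)
                (by positivity)
              exact mul_le_mul_of_nonneg_left (pow_le_pow_left₀ hkm0 hkm 2) (by positivity)
          _ = _ := by ring
    have hmix' := hmix κ α (Function.update Z r (b (k, a))) i r p ξ (T / 4) (15 * U) hir hpi hpr
      (by positivity) (by
        intro j
        by_cases hj : j = r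
        · rw [hj, Function.update_self]
          exact (bk_cont _ _ _ _).measurable
        · rw [Function.update_of_ne hj]
          exact (hZcr j hj).measurable) (by
        intro j hji
        by_cases hj : j = r
        · rw [hj, Function.update_self]
          exact hnmfin
        · rw [Function.update_of_ne hj]
          exact ne_top_of_le_ne_top ENNReal.ofReal_ne_top (hZn j hji hj)) (by
        rw [Function.update_of_ne hir]
        exact hZi) (by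
        intro y hy
        rw [Function.update_of_ne hpr]
        refine hZs p hpi hpr y ?_
        rw [hUdef]
        intro h
        exact hy ⟨h.1, by rw [hUdef]; linarith [h.2]⟩)
    rw [Function.update_self] at hmix'
    have hprod := prod_bound (Function.update Z r (b (k, a))) i r hir G (by
      intro j hji hjr
      rw [Function.update_of_ne hjr]
      exact hZn j hji hjr)
    calc ∫⁻ h in Dm ν κ α T, ‖LL ν κ α (Function.update Z r (b (k, a))) h‖ₑ ^ 2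
        ≤ ∫⁻ h, ‖LL ν κ α (Function.update Z r (b (k, a))) h‖ₑ ^ 2 := setLIntegral_le_lintegral _ _
      _ ≤ _ := hmix'
      _ ≤ ENNReal.ofReal C3 * ENNReal.ofReal G ^ m * ENNReal.ofReal
          (C4 * (C2 ^ 2 * 8) * Λ ^ 2 * lg T ^ 3 * U ^ 2 * A ^ (-(1 / 2) : ℝ) * pk k ^ 2) :=
          mul_le_mul' (mul_le_mul' le_rfl hprod) hacb
      _ = ENNReal.ofReal (X * pk k ^ 2) := by
          rw [← ENNReal.ofReal_pow hG, ← ENNReal.ofReal_mul hC3.le,
            ← ENNReal.ofReal_mul (by positivity), hXdef]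
          congr 1
          ring
  have hts := tsum_bound (ι := ℤ × Fin J) (w := fun x => pk x.1) (P := J * Cp) (X := X)
    (fun x => pk_pos _) (by
      intro s
      have h1 := sum_fst_le (κ' := Fin J) (fun k => (pk_pos k).le) hpk s
      rw [Fintype.card_fin] at h1
      exact h1) hX _ hterm
  refine hexp.trans ((mul_le_mul' le_rfl hts).trans ?_)
  rw [← ENNReal.ofReal_mul (by positivity)]
  refine ENNReal.ofReal_le_ofReal ?_
  have hJ0 : (0 : ℝ) ≤ J := Nat.cast_nonneg J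
  have hUT : U ^ 2 ≤ T ^ 2 := pow_le_pow_left₀ hU0.le (by rw [hUdef]; linarith) 2
  calc (J : ℝ) * Cp * (X * (J * Cp)) = (J : ℝ) ^ 2 * (Cp ^ 2 * X) := by ring
    _ ≤ (3 * lg T) ^ 2 * (Cp ^ 2 * X) :=
        mul_le_mul_of_nonneg_right (pow_le_pow_left₀ hJ0 hJ2 2) (by positivity)
    _ = (9 * Cp ^ 2 * (C3 * (C4 * (C2 ^ 2 * 8))) * Λ ^ 2 * lg T ^ 5 * A ^ (-(1 / 2) : ℝ) *
          G ^ m) * U ^ 2 := by rw [hXdef]; ring
    _ ≤ (9 * Cp ^ 2 * (C3 * (C4 * (C2 ^ 2 * 8))) * Λ ^ 2 * lg T ^ 5 * A ^ (-(1 / 2) : ℝ) *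
          G ^ m) * T ^ 2 := mul_le_mul_of_nonneg_left hUT (by positivity)
    _ = _ := by ring

theorem LL_const {m : ℕ} (ν : Fin (m + 1) → ℝ) (κ α : ℝ) (Z : Fin (m + 2) → ℝ → ℂ)
    (i : Fin (m + 2)) (z : ℂ) (χ : ℝ → ℂ) (h : Fin m → ℝ) :
    LL ν κ α (Function.update Z i fun y => z * χ y) h =
      z * LL ν κ α (Function.update Z i χ) h := by
  unfold LL
  rw [← integral_const_mul]
  congr 1
  funext t
  rw [← Finset.mul_prod_erase Finset.univ _ (Finset.mem_univ i),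
    ← Finset.mul_prod_erase Finset.univ _ (Finset.mem_univ i), Function.update_self,
    Function.update_self, mul_assoc]
  congr 2
  refine Finset.prod_congr rfl fun j hj => ?_
  rw [Function.update_of_ne (Finset.mem_erase.1 hj).1, Function.update_of_ne
    (Finset.mem_erase.1 hj).1]

end MixedAux

theorem mixed {m : ℕ} (hm : 1 ≤ m) (ν : Fin (m + 1) → ℝ) (hν : Adm ν) : ∃ C : ℝ, 0 < C ∧
    ∀ (κ α T Λ Y A B G : ℝ) (c c' : ℝ → ℝ) (Z : Fin (m + 2) → ℝ → ℂ) (i r : Fin (m + 2)), 4 ≤ T → 1 ≤ Λ →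
    Cut (T / 4) Λ c → Cut (T / 4) Λ c' → 1 ≤ Y → 1 ≤ A → B ≤ T ^ 2 → 0 ≤ G → i ≠ r →
    (∀ j, j ≠ i → j ≠ r → Continuous (Z j)) →
    (∀ j, j ≠ i → j ≠ r → ∀ y, y ∉ Set.Icc (T / 4) (16 * (T / 4)) → Z j y = 0) →
    (∀ j, j ≠ i → j ≠ r → nm (Z j) ≤ ENNReal.ofReal G) →
    (Z i = ct c (bd 0 Y)) → (Z r = ct c' (bd A B)) →
    ∫⁻ h in Dm ν κ α T, ‖LL ν κ α Z h‖ₑ ^ 2 ≤
      ENNReal.ofReal (C * Λ ^ 4 * lg T ^ 7 * Y ^ 4 * T ^ 2 * A ^ (-(1 / 2) : ℝ) * G ^ m) := by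
  obtain ⟨C1, hC1, hchar⟩ := char_exp
  obtain ⟨Ci, hCi, hinner⟩ := MixedAux.inner hm ν hν
  obtain ⟨Cp, hCp, hpk⟩ := pk_sum
  refine ⟨Cp ^ 2 * C1 ^ 2 * Ci, by positivity, ?_⟩
  intro κ α T Λ Y A B G c c' Z i r hT hΛ hc hc' hY hA hB hG hir hZc hZs hZn hZi hZr
  obtain ⟨U, hUdef⟩ : ∃ U : ℝ, U = T / 4 := ⟨_, rfl⟩
  have hU : 1 ≤ U := by rw [hUdef]; linarith
  have hU0 : 0 < U := by linarith
  have hL := MixedAux.lg_ge_one hT
  obtain ⟨p, hpi, hpr⟩ := MixedAux.exists_third hm i r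
  have hA12 : 0 ≤ A ^ (-(1 / 2) : ℝ) := Real.rpow_nonneg (by linarith) _
  have hlogU : 0 ≤ Real.log U := Real.log_nonneg hU
  have hlogUT : 1 + Real.log U ≤ lg T := by
    unfold lg
    have := Real.log_le_log hU0 (show U ≤ T by rw [hUdef]; linarith)
    linarith
  obtain ⟨cf, hcf, hsum⟩ := hchar U Λ Y c hU hΛ (by rw [hUdef]; exact hc) hY
  have hZr_cont : Continuous (Z r) := by
    rw [hZr]
    exact ct_cont (U := T / 4) (by linarith) hc'.smooth.continuous hc'.supp (bd_contOn A B)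
  have hZr_supp : ∀ y, y ∉ Set.Icc (T / 4) (16 * (T / 4)) → Z r y = 0 := by
    intro y hy
    rw [hZr]
    exact ct_supp hc'.supp _ y hy
  have hZci : ∀ j, j ≠ i → Continuous (Z j) := by
    intro j hj
    by_cases hjr : j = r
    · rw [hjr]
      exact hZr_cont
    · exact hZc j hj hjr
  let χ : ℤ × {q : Q // q ∈ qs 0 Y} → ℝ → ℂ := fun x y =>
    cexp ((((2 * Real.pi * x.1 / (32 * U) - lgr x.2.1.1) * y : ℝ) : ℂ) * I)
  let b : ℤ × {q : Q // q ∈ qs 0 Y} → ℝ → ℂ := fun x y => cf x.1 x.2.1 * χ x y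
  have hcard : (Fintype.card {q : Q // q ∈ qs 0 Y} : ℝ) ≤ Y ^ 2 := by
    rw [Fintype.card_coe]
    exact card_qs hY
  have hβ : ∀ (x : ℤ × {q : Q // q ∈ qs 0 Y}) (y : ℝ),
      ‖b x y‖ ≤ pk x.1 * (C1 * Λ * (1 + Real.log U)) := by
    intro x y
    simp only [b, χ]
    rw [norm_mul, MixedAux.norm_char, mul_one]
    refine (hcf x.1 x.2.1).trans (le_of_eq ?_)
    ring
  have hwP : ∀ s : Finset (ℤ × {q : Q // q ∈ qs 0 Y}), ∑ x ∈ s, pk x.1 ≤ Y ^ 2 * Cp := by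
    intro s
    exact (MixedAux.sum_fst_le (κ' := {q : Q // q ∈ qs 0 Y}) (fun k => (pk_pos k).le) hpk s).trans
      (mul_le_mul_of_nonneg_right hcard hCp.le)
  have hexp := expand ν κ α T hT (ι := ℤ × {q : Q // q ∈ qs 0 Y}) Z i p hpi hZci (by
      intro j hj
      by_cases hjr : j = r
      · rw [hjr]
        exact bounded_of hZr_cont hZr_supp
      · exact bounded_of (hZc j hj hjr) (hZs j hj hjr)) (by
      intro y hy
      refine hZs p hpi hpr y ?_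
      intro h
      exact hy ⟨h.1, by linarith [h.2]⟩) b (fun x => pk x.1 * (C1 * Λ * (1 + Real.log U)))
    (fun x => pk x.1) (Y ^ 2 * Cp)
    (fun x => continuous_const.mul (MixedAux.char_cont _)) hβ
    (MixedAux.summable_pk.mul_of_nonneg (f := pk)
      (g := fun _ : {q : Q // q ∈ qs 0 Y} => C1 * Λ * (1 + Real.log U)) (Summable.of_finite)
      (fun k => (pk_pos k).le) (fun _ => by positivity)) (by
      intro y hy1 hy2
      rw [hZi]
      exact hsum y (by rw [hUdef]; linarith) (by rw [hUdef]; linarith)) (fun x => pk_pos _) hwP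
  obtain ⟨X, hXdef⟩ : ∃ X : ℝ, X = (C1 * Λ * (1 + Real.log U)) ^ 2 *
    (Ci * Λ ^ 2 * lg T ^ 5 * T ^ 2 * A ^ (-(1 / 2) : ℝ) * G ^ m) := ⟨_, rfl⟩
  have hX : 0 ≤ X := by rw [hXdef]; positivity
  have hterm : ∀ x : ℤ × {q : Q // q ∈ qs 0 Y},
      ∫⁻ h in Dm ν κ α T, ‖LL ν κ α (Function.update Z i (b x)) h‖ₑ ^ 2 ≤
        ENNReal.ofReal (X * pk x.1 ^ 2) := by
    intro x
    have h1 : ∀ h, ‖LL ν κ α (Function.update Z i (b x)) h‖ₑ ^ 2 =
        ‖cf x.1 x.2.1‖ₑ ^ 2 * ‖LL ν κ α (Function.update Z i (χ x)) h‖ₑ ^ 2 := by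
      intro h
      rw [show b x = fun y => cf x.1 x.2.1 * χ x y from rfl, MixedAux.LL_const, enorm_mul, mul_pow]
    simp only [h1]
    rw [lintegral_const_mul' _ _ (by finiteness)]
    have h2 := hinner κ α T Λ A B G (2 * Real.pi * x.1 / (32 * U) - lgr x.2.1.1) c'
      (Function.update Z i (χ x)) i r hT hΛ hc' hA hB hG hir
      (fun j hji hjr => by rw [Function.update_of_ne hji]; exact hZc j hji hjr)
      (fun j hji hjr => by rw [Function.update_of_ne hji]; exact hZs j hji hjr)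
      (fun j hji hjr => by rw [Function.update_of_ne hji]; exact hZn j hji hjr)
      (by rw [Function.update_self]) (by rw [Function.update_of_ne hir.symm]; exact hZr)
    have h3 : ‖cf x.1 x.2.1‖ₑ ^ 2 ≤ ENNReal.ofReal ((C1 * Λ * pk x.1 * (1 + Real.log U)) ^ 2) := by
      rw [ENNReal.ofReal_pow (by have := pk_pos x.1; positivity)]
      refine pow_le_pow_left' ?_ 2
      rw [← ofReal_norm]
      exact ENNReal.ofReal_le_ofReal (hcf x.1 x.2.1)
    refine (mul_le_mul' h3 h2).trans (le_of_eq ?_)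
    rw [← ENNReal.ofReal_mul (by positivity), hXdef]
    congr 1
    ring
  have hts := MixedAux.tsum_bound (ι := ℤ × {q : Q // q ∈ qs 0 Y}) (w := fun x => pk x.1)
    (P := Y ^ 2 * Cp) (X := X) (fun x => pk_pos _) hwP hX _ hterm
  refine hexp.trans ((mul_le_mul' le_rfl hts).trans ?_)
  rw [← ENNReal.ofReal_mul (by positivity)]
  refine ENNReal.ofReal_le_ofReal ?_
  have h5 : (1 + Real.log U) ^ 2 ≤ lg T ^ 2 := pow_le_pow_left₀ (by linarith) hlogUT 2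
  calc Y ^ 2 * Cp * (X * (Y ^ 2 * Cp)) = (Cp ^ 2 * C1 ^ 2 * Ci * Λ ^ 4 * lg T ^ 5 * Y ^ 4 * T ^ 2 *
        A ^ (-(1 / 2) : ℝ) * G ^ m) * (1 + Real.log U) ^ 2 := by rw [hXdef]; ring
    _ ≤ (Cp ^ 2 * C1 ^ 2 * Ci * Λ ^ 4 * lg T ^ 5 * Y ^ 4 * T ^ 2 *
        A ^ (-(1 / 2) : ℝ) * G ^ m) * lg T ^ 2 := mul_le_mul_of_nonneg_left h5 (by positivity)
    _ = _ := by ring

end Pool.Agent.P07318o
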