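import Pool.Agent.Lib.P07318o.FwWin

/-!
# Module ErLe: the remainder of the approximate functional equation

PROOF.  `P07318s.afe (1/8)`: `‖gz y - Fd y‖ ≤ C y^{-3/8} ≤ C U^{-3/8}`.  `Fd_eq`, `cfQ_summable`: `Fd y - bd 0 (U²) y = ∑'_q [hgt q > U²] hgt^(-1/2) Om(hgt, y) ex`
(`qs 0 (U²)` = all `q` with `hgt q ≤ U²`; `fdSmall_eq` and `Fd_split` of LongPart give the same with `FdBig (U²) y`), so by `om_kl` and `kl U h = (U/h)²` for
`h > U² ≥ U` the norm is `≤ C ∑_{h > U²} h^{-1/2} U² h^{-2} ≤ C U² (U²)^{-5/4} ∑_q h^{-5/4} = C' U^{-1/2}` (`h^{-5/2} ≤ (U²)^{-5/4} h^{-5/4}`;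
`∑_q hgt^{-5/4} < ∞`: `FourSepAux`-style or `summable1` of P07318s.Spaced / `hgt_summable` of P07318s.AFE composed with the injection `Q → ℕ+ × ℕ+`).
(For `U = 1` the condition is `h > 1`; fine, `kl 1 h = h^{-2}`.)
-/

set_option autoImplicit false

namespace Pool.Agent.P07318o

open MeasureTheory Complex Pool.Agent.P07318s Pool.Agent.P07318f Pool.Agent.P07318h

private theorem hq_summable : Summable (fun q : Q => (hgt q.1) ^ (-(5 / 4) : ℝ)) := by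
  have h1 := AFEX.hgt_summable (c := 3 / 4) (by norm_num)
  have h2 : Summable (fun q : Q => (hgt q.1) ^ (-(1 / 2) - 3 / 4 : ℝ)) :=
    h1.comp_injective (i := fun q : Q => q.1) (fun a b h => Subtype.ext h)
  refine h2.congr fun q => ?_
  norm_num

private theorem bt_le {C U y : ℝ} (hC : 0 < C) (hU : 1 ≤ U) (hy : U ≤ y) (hy2 : y ≤ 16 * U)
    (hom : ∀ U h y : ℝ, 1 ≤ U → 1 ≤ h → U ≤ y → y ≤ 16 * U → Om h y ≤ C * kl U h) (q : Q) :
    ‖LongPartAux.bt (U ^ 2) y q‖ ≤ C * U ^ (-(1 / 2) : ℝ) * (hgt q.1) ^ (-(5 / 4) : ℝ) := by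
  have hh1 := one_le_hgt q.1
  have hh0 := hgt_pos q.1
  have hU0 : 0 < U := by linarith
  unfold LongPartAux.bt
  split_ifs with hq
  · rw [LongPartAux.full_norm]
    set h := hgt q.1 with hh
    have h1 := hom U h y hU hh1 hy hy2
    have hUh : ¬ h ≤ U := by
      intro h2
      nlinarith
    have h3 : kl U h = (U / h) ^ 2 := by
      unfold kl
      rw [if_neg hUh]
    rw [h3] at h1
    have h4 : h ^ (-(1 / 2) : ℝ) * Om h y ≤ h ^ (-(1 / 2) : ℝ) * (C * (U / h) ^ 2) :=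
      mul_le_mul_of_nonneg_left h1 (Real.rpow_nonneg hh0.le _)
    refine h4.trans ?_
    have h5 : h ^ (-(1 / 2) : ℝ) * (C * (U / h) ^ 2)
        = C * U ^ 2 * (h ^ (-(5 / 4) : ℝ) * h ^ (-(5 / 4) : ℝ)) := by
      have e1 : (U / h) ^ 2 = U ^ 2 * h ^ (-2 : ℝ) := by
        rw [div_pow, Real.rpow_neg hh0.le, div_eq_mul_inv]
        norm_num
      have e2 : h ^ (-(5 / 4) : ℝ) * h ^ (-(5 / 4) : ℝ) = h ^ (-(1 / 2) : ℝ) * h ^ (-2 : ℝ) := by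
        rw [← Real.rpow_add hh0, ← Real.rpow_add hh0]
        norm_num
      rw [e1, e2]
      ring
    rw [h5]
    have h6 : h ^ (-(5 / 4) : ℝ) ≤ (U ^ 2) ^ (-(5 / 4) : ℝ) :=
      Real.rpow_le_rpow_of_nonpos (by positivity) hq.le (by norm_num)
    have h7 : U ^ 2 * (U ^ 2) ^ (-(5 / 4) : ℝ) = U ^ (-(1 / 2) : ℝ) := by
      have e3 : (U ^ 2) ^ (-(5 / 4) : ℝ) = U ^ (-(5 / 2) : ℝ) := by
        rw [← Real.rpow_natCast U 2, ← Real.rpow_mul hU0.le]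
        norm_num
      rw [e3, ← Real.rpow_natCast U 2, ← Real.rpow_add hU0]
      norm_num
    have h8 : 0 ≤ h ^ (-(5 / 4) : ℝ) := Real.rpow_nonneg hh0.le _
    calc C * U ^ 2 * (h ^ (-(5 / 4) : ℝ) * h ^ (-(5 / 4) : ℝ))
        ≤ C * U ^ 2 * ((U ^ 2) ^ (-(5 / 4) : ℝ) * h ^ (-(5 / 4) : ℝ)) :=
          mul_le_mul_of_nonneg_left (mul_le_mul_of_nonneg_right h6 h8) (by positivity)
      _ = C * (U ^ 2 * (U ^ 2) ^ (-(5 / 4) : ℝ)) * h ^ (-(5 / 4) : ℝ) := by ring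
      _ = C * U ^ (-(1 / 2) : ℝ) * h ^ (-(5 / 4) : ℝ) := by rw [h7]
  · rw [norm_zero]
    exact mul_nonneg (mul_nonneg hC.le (Real.rpow_nonneg hU0.le _))
      (Real.rpow_nonneg hh0.le _)

theorem er_le : ∃ C : ℝ, 0 < C ∧ ∀ U y : ℝ, 1 ≤ U → U ≤ y → y ≤ 16 * U → ‖er U y‖ ≤ C * U ^ (-(3 / 8) : ℝ) := by
  obtain ⟨C1, hC1, hafe⟩ := afe (1 / 8) (by norm_num)
  obtain ⟨C2, hC2, hom⟩ := om_kl
  set K : ℝ := ∑' q : Q, (hgt q.1) ^ (-(5 / 4) : ℝ) with hK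
  have hK0 : 0 ≤ K := tsum_nonneg fun q => Real.rpow_nonneg (hgt_pos q.1).le _
  refine ⟨C1 + C2 * K, by positivity, fun U y hU hy hy2 => ?_⟩
  have hU0 : 0 < U := by linarith
  have hy0 : 0 < y := by linarith
  have h1 : er U y = ((gz y : ℂ) - Fd y) + FdBig (U ^ 2) y := by
    unfold er
    rw [← fdSmall_eq, Fd_split (U ^ 2) y hy0]
    ring
  have h2 : ‖(gz y : ℂ) - Fd y‖ ≤ C1 * U ^ (-(3 / 8) : ℝ) := by
    have h3 := hafe y (by linarith)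
    have h4 : ‖(gz y : ℂ) - Fd y‖ ≤ C1 * y ^ (-(1 / 2) + 1 / 8 : ℝ) := by
      unfold gz
      exact h3
    have h5 : (-(1 / 2) + 1 / 8 : ℝ) = -(3 / 8) := by norm_num
    rw [h5] at h4
    refine h4.trans (mul_le_mul_of_nonneg_left ?_ hC1.le)
    exact Real.rpow_le_rpow_of_nonpos hU0 hy (by norm_num)
  have h3 : ‖FdBig (U ^ 2) y‖ ≤ C2 * K * U ^ (-(3 / 8) : ℝ) := by
    have e : FdBig (U ^ 2) y = ∑' q, LongPartAux.bt (U ^ 2) y q := rfl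
    have hs : Summable (fun q : Q => C2 * U ^ (-(1 / 2) : ℝ) * (hgt q.1) ^ (-(5 / 4) : ℝ)) :=
      hq_summable.mul_left _
    have h4 : ‖FdBig (U ^ 2) y‖ ≤ ∑' q : Q, C2 * U ^ (-(1 / 2) : ℝ) * (hgt q.1) ^ (-(5 / 4) : ℝ) := by
      rw [e]
      exact tsum_of_norm_bounded hs.hasSum (fun q => bt_le hC2 hU hy hy2 hom q)
    rw [tsum_mul_left] at h4
    refine h4.trans ?_
    have h5 : U ^ (-(1 / 2) : ℝ) ≤ U ^ (-(3 / 8) : ℝ) :=
      Real.rpow_le_rpow_of_exponent_le hU (by norm_num)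
    calc C2 * U ^ (-(1 / 2) : ℝ) * K ≤ C2 * U ^ (-(3 / 8) : ℝ) * K :=
          mul_le_mul_of_nonneg_right (mul_le_mul_of_nonneg_left h5 hC2.le) hK0
      _ = C2 * K * U ^ (-(3 / 8) : ℝ) := by ring
  rw [h1]
  refine (norm_add_le _ _).trans ?_
  rw [add_mul]
  exact add_le_add h2 h3

end Pool.Agent.P07318o
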