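import Pool.Agent.Lib.P07318o.NmBand
import Pool.Agent.Lib.P07318o.ErLe
import Pool.Agent.Lib.P07318h.DgM

/-!
# Module Norms: `L²` norms of the parts of `|ζ|²` with a cut-off (together with `nm_band`, `er_le`)

PROOFS.
* `nm_small`: `bd 0 A = bd 0 1 + bd 1 A` (`bd_add`).  `qs 0 1` consists of the fraction `1/1` (height `1`), so `‖bd 0 1 y‖ ≤ Om 1 y ≤ C (1 + log U)`
  for `y ∈ [U, 16U]` (`om_kl`; or: every element of `qs 0 1` has height `1`, and there is only one) and `nm (ct c (bd 0 1)) ≤ 15 U C² (1 + log U)²`.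
  `nm_band` with `A ← 1`, `B ← A` bounds the other part by `C U (1 + log U) (1 + log U)⁴`; `nm (f + g) ≤ 2 nm f + 2 nm g`.
* `nm_er`: `∫_{[U,16U]} C² U^{-3/4} = 15 C² U^{1/4}` (`er_le`).
* `nm_gz`: `gz = bd 0 (U²) + er U` (definition of `er`), `nm_small` with `A ← U²`, `nm_er`.
-/

set_option autoImplicit false

namespace Pool.Agent.P07318o

open MeasureTheory Complex Pool.Agent.P07318s Pool.Agent.P07318f Pool.Agent.P07318h

namespace NormsAux

lemma bd_meas (A B : ℝ) : Measurable (bd A B) := by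
  unfold bd
  refine Finset.measurable_fun_sum _ fun q _ => ?_
  unfold tq
  refine Measurable.mul ?_ (DgMAux.ex_meas _)
  refine Complex.measurable_ofReal.comp ?_
  exact (DgMAux.Om_meas _).const_mul _

lemma ct_meas {U Λ : ℝ} {c : ℝ → ℝ} (hc : Cut U Λ c) {f : ℝ → ℂ} (hf : Measurable f) : Measurable (ct c f) := by
  unfold ct
  exact (Complex.measurable_ofReal.comp hc.smooth.continuous.measurable).mul hf

lemma nm_bdd {U Λ M : ℝ} {c : ℝ → ℝ} {f : ℝ → ℂ} (hU : 1 ≤ U) (hc : Cut U Λ c) (hM : 0 ≤ M)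
    (hf : ∀ y, U ≤ y → y ≤ 16 * U → ‖f y‖ ≤ M) : nm (ct c f) ≤ ENNReal.ofReal (15 * U * M ^ 2) := by
  have h1 : ∀ y, ‖ct c f y‖ₑ ^ 2 ≤ (Set.Icc U (16 * U)).indicator (fun _ => ENNReal.ofReal (M ^ 2)) y := by
    intro y
    by_cases hy : y ∈ Set.Icc U (16 * U)
    · rw [Set.indicator_of_mem hy, ← ofReal_norm_eq_enorm, ← ENNReal.ofReal_pow (norm_nonneg _)]
      refine ENNReal.ofReal_le_ofReal (pow_le_pow_left₀ (norm_nonneg _) ?_ 2)
      unfold ct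
      rw [norm_mul, Complex.norm_real, Real.norm_of_nonneg (hc.nonneg y)]
      have h2 := hf y hy.1 hy.2
      have h3 := hc.nonneg y
      have h4 := hc.le_one y
      have h5 := norm_nonneg (f y)
      nlinarith
    · rw [Set.indicator_of_notMem hy]
      unfold ct
      rw [hc.supp y hy]
      simp
  unfold nm
  refine (lintegral_mono h1).trans ?_
  rw [lintegral_indicator measurableSet_Icc, setLIntegral_const, Real.volume_Icc, ← ENNReal.ofReal_mul (by positivity)]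
  refine ENNReal.ofReal_le_ofReal (le_of_eq ?_)
  ring

lemma nm_add {f g : ℝ → ℂ} (hf : Measurable f) : nm (fun y => f y + g y) ≤ 2 * nm f + 2 * nm g := by
  unfold nm
  rw [← lintegral_const_mul _ (hf.enorm.pow_const 2)]
  have h2 : ∀ y, ‖f y + g y‖ₑ ^ 2 ≤ 2 * ‖f y‖ₑ ^ 2 + 2 * ‖g y‖ₑ ^ 2 := by
    intro y
    rw [← ofReal_norm_eq_enorm, ← ofReal_norm_eq_enorm, ← ofReal_norm_eq_enorm, ← ENNReal.ofReal_pow (norm_nonneg _),
      ← ENNReal.ofReal_pow (norm_nonneg _), ← ENNReal.ofReal_pow (norm_nonneg _)]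
    have e : (2 : ENNReal) = ENNReal.ofReal 2 := by simp
    rw [e, ← ENNReal.ofReal_mul (by norm_num), ← ENNReal.ofReal_mul (by norm_num), ← ENNReal.ofReal_add (by positivity) (by positivity)]
    refine ENNReal.ofReal_le_ofReal ?_
    have h3 := norm_add_le (f y) (g y)
    have h4 := norm_nonneg (f y + g y)
    nlinarith [sq_nonneg (‖f y‖ - ‖g y‖), norm_nonneg (f y), norm_nonneg (g y)]
  refine (lintegral_mono h2).trans ?_
  rw [lintegral_add_left ((hf.enorm.pow_const 2).const_mul 2)]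
  refine add_le_add le_rfl (le_of_eq ?_)
  rw [lintegral_const_mul' _ _ (by simp)]

lemma qs_one : (qs 0 1).card ≤ 1 := by
  rw [Finset.card_le_one]
  have key : ∀ q ∈ qs 0 1, q.1.1 = 1 ∧ q.1.2 = 1 := by
    intro q hq
    have h1 := (mem_qs.1 hq).2
    unfold hgt at h1
    have ha : (1 : ℝ) ≤ ((q.1.1 : ℕ) : ℝ) := by exact_mod_cast q.1.1.2
    have hb : (1 : ℝ) ≤ ((q.1.2 : ℕ) : ℝ) := by exact_mod_cast q.1.2.2
    have ha' : ((q.1.1 : ℕ) : ℝ) ≤ 1 := by nlinarith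
    have hb' : ((q.1.2 : ℕ) : ℝ) ≤ 1 := by nlinarith
    have ha2 : (q.1.1 : ℕ) ≤ 1 := by exact_mod_cast ha'
    have hb2 : (q.1.2 : ℕ) ≤ 1 := by exact_mod_cast hb'
    constructor
    · exact PNat.eq (le_antisymm ha2 q.1.1.2)
    · exact PNat.eq (le_antisymm hb2 q.1.2.2)
  intro a ha b hb
  obtain ⟨h1, h2⟩ := key a ha
  obtain ⟨h3, h4⟩ := key b hb
  exact Subtype.ext (Prod.ext (h1.trans h3.symm) (h2.trans h4.symm))

lemma hgt_one {q : Q} (hq : q ∈ qs 0 1) : hgt q.1 = 1 := le_antisymm (mem_qs.1 hq).2 (one_le_hgt q.1)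

lemma bd_one : ∃ C : ℝ, 0 < C ∧ ∀ U y : ℝ, 1 ≤ U → U ≤ y → y ≤ 16 * U → ‖bd 0 1 y‖ ≤ C * (1 + Real.log U) := by
  obtain ⟨C, hC, h⟩ := om_kl
  refine ⟨C, hC, fun U y hU h1 h2 => ?_⟩
  have h0 : 0 ≤ Real.log U := Real.log_nonneg hU
  unfold bd
  refine (norm_sum_le _ _).trans ?_
  have h3 : ∀ q ∈ qs 0 1, ‖tq q y‖ ≤ C * (1 + Real.log U) := by
    intro q hq
    unfold tq
    rw [norm_mul, norm_ex, mul_one, hgt_one hq, Real.one_rpow, one_mul, Complex.norm_real, Real.norm_of_nonneg (Om_nonneg _ _)]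
    have h4 := h U 1 y hU le_rfl h1 h2
    unfold kl at h4
    rwa [if_pos hU, div_one] at h4
  refine (Finset.sum_le_card_nsmul _ _ _ h3).trans ?_
  rw [nsmul_eq_mul]
  have h5 : ((qs 0 1).card : ℝ) ≤ 1 := by exact_mod_cast qs_one
  have h6 : 0 ≤ C * (1 + Real.log U) := by positivity
  nlinarith

end NormsAux

open NormsAux

theorem nm_small : ∃ C : ℝ, 0 < C ∧ ∀ (U Λ A : ℝ) (c : ℝ → ℝ), 1 ≤ U → Cut U Λ c → 1 ≤ A →
    nm (ct c (bd 0 A)) ≤ ENNReal.ofReal (C * U * (1 + Real.log U) ^ 5) := by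
  obtain ⟨C₁, hC₁, h1⟩ := nm_band
  obtain ⟨C₂, hC₂, h2⟩ := bd_one
  refine ⟨2 * (15 * C₂ ^ 2) + 2 * C₁, by positivity, fun U Λ A c hU hc hA => ?_⟩
  have h0 : 0 ≤ Real.log U := Real.log_nonneg hU
  have e1 : ct c (bd 0 A) = fun y => ct c (bd 0 1) y + ct c (bd 1 A) y := by
    funext y
    unfold ct
    rw [bd_add zero_le_one hA]
    ring
  rw [e1]
  refine (nm_add (ct_meas hc (bd_meas _ _))).trans ?_
  have h3 := nm_bdd hU hc (by positivity) (h2 U · hU)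
  have h4 := h1 U Λ 1 A c hU hc le_rfl hU hA
  rw [div_one] at h4
  have e2 : (2 : ENNReal) = ENNReal.ofReal 2 := by simp
  refine (add_le_add (mul_le_mul_right h3 _) (mul_le_mul_right h4 _)).trans ?_
  rw [e2, ← ENNReal.ofReal_mul (by norm_num), ← ENNReal.ofReal_mul (by norm_num), ← ENNReal.ofReal_add (by positivity) (by positivity)]
  refine ENNReal.ofReal_le_ofReal ?_
  have h5 : (1 : ℝ) ≤ 1 + Real.log U := by linarith
  have h6 : (1 + Real.log U) ^ 2 ≤ (1 + Real.log U) ^ 5 := pow_le_pow_right₀ h5 (by norm_num)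
  have h7 : 2 * (15 * U * (C₂ * (1 + Real.log U)) ^ 2) ≤ 2 * (15 * C₂ ^ 2) * U * (1 + Real.log U) ^ 5 := by
    have : 2 * (15 * U * (C₂ * (1 + Real.log U)) ^ 2) = (2 * (15 * C₂ ^ 2) * U) * (1 + Real.log U) ^ 2 := by ring
    rw [this]
    exact mul_le_mul_of_nonneg_left h6 (by positivity)
  calc _ ≤ 2 * (15 * C₂ ^ 2) * U * (1 + Real.log U) ^ 5 + 2 * (C₁ * U * (1 + Real.log U) * (1 + Real.log U) ^ 4) := by linarith
    _ = _ := by ring

theorem nm_er : ∃ C : ℝ, 0 < C ∧ ∀ (U Λ : ℝ) (c : ℝ → ℝ), 1 ≤ U → Cut U Λ c →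
    nm (ct c (er U)) ≤ ENNReal.ofReal (C * U ^ (1 / 4 : ℝ)) := by
  obtain ⟨C₁, hC₁, h1⟩ := er_le
  refine ⟨15 * C₁ ^ 2, by positivity, fun U Λ c hU hc => ?_⟩
  have hU0 : 0 < U := by linarith
  refine (nm_bdd hU hc (by positivity) (h1 U · hU)).trans (ENNReal.ofReal_le_ofReal (le_of_eq ?_))
  have h2 : U * (U ^ (-(3 / 8) : ℝ)) ^ 2 = U ^ (1 / 4 : ℝ) := by
    rw [← Real.rpow_natCast, ← Real.rpow_mul hU0.le]
    nth_rewrite 1 [← Real.rpow_one U]
    rw [← Real.rpow_add hU0]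
    norm_num
  rw [mul_pow, ← h2]
  ring

theorem nm_gz : ∃ C : ℝ, 0 < C ∧ ∀ (U Λ : ℝ) (c : ℝ → ℝ), 1 ≤ U → Cut U Λ c →
    nm (ct c (fun y => (gz y : ℂ))) ≤ ENNReal.ofReal (C * U * (1 + Real.log U) ^ 5) := by
  obtain ⟨C₁, hC₁, h1⟩ := nm_small
  obtain ⟨C₂, hC₂, h2⟩ := nm_er
  refine ⟨2 * C₁ + 2 * C₂, by positivity, fun U Λ c hU hc => ?_⟩
  have h0 : 0 ≤ Real.log U := Real.log_nonneg hU
  have hU0 : 0 < U := by linarith
  have e1 : ct c (fun y => (gz y : ℂ)) = fun y => ct c (bd 0 (U ^ 2)) y + ct c (er U) y := by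
    funext y
    unfold ct er
    ring
  rw [e1]
  refine (nm_add (ct_meas hc (bd_meas _ _))).trans ?_
  have h3 := h1 U Λ (U ^ 2) c hU hc (by nlinarith)
  have h4 := h2 U Λ c hU hc
  have e2 : (2 : ENNReal) = ENNReal.ofReal 2 := by simp
  refine (add_le_add (mul_le_mul_right h3 _) (mul_le_mul_right h4 _)).trans ?_
  rw [e2, ← ENNReal.ofReal_mul (by norm_num), ← ENNReal.ofReal_mul (by norm_num), ← ENNReal.ofReal_add (by positivity) (by positivity)]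
  refine ENNReal.ofReal_le_ofReal ?_
  have h5 : (1 : ℝ) ≤ (1 + Real.log U) ^ 5 := one_le_pow₀ (by linarith)
  have h6 : U ^ (1 / 4 : ℝ) ≤ U := by
    calc U ^ (1 / 4 : ℝ) ≤ U ^ (1 : ℝ) := Real.rpow_le_rpow_of_exponent_le hU (by norm_num)
      _ = U := Real.rpow_one U
  have h7 : U ^ (1 / 4 : ℝ) ≤ U * (1 + Real.log U) ^ 5 := by nlinarith
  have h8 : C₂ * U ^ (1 / 4 : ℝ) ≤ C₂ * (U * (1 + Real.log U) ^ 5) := mul_le_mul_of_nonneg_left h7 hC₂.le
  nlinarith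

end Pool.Agent.P07318o
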