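import Pool.Agent.Lib.P07318o.LLcut

/-!
# Expansion of the product over the patterns

PROOF. `U = T/4`, `0 ≤ A ≤ B ≤ U²`. For every `y`: `ct c gz = ∑_{i : Fin 4} ct c (bf U A B i)` (`gz_split`, `Fin.sum_univ_four`). Hence `∏_j ZG_j = ∑_{P : Fin (m+2) → Fin 4} ∏_j ZP P j` (`Finset.prod_univ_sum`, `Fintype.piFinset_univ`), and
`∏_j ZS_j = ∑_{P, ∀ j, P j.succ = 0} ∏_j ZP P j` (slot `0` expanded, the others `bf 0 = bd 0 A`). All the integrands are continuous with compact support (`ct_cont`, `ct_supp`, `cc_cont`, `cc_supp`: the factor of slot `0` vanishes unless `t + α ∈ [U, 16U]`), so they are integrable and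
`LL ZG h - LL ZS h = ∑_{P, ∃ j, P j.succ ≠ 0} LL (ZP P) h`. The pattern `P = (2, …, 2)` gives `‖LL (ZP P) h‖ₑ ≤ LA (ZP P) h ≤ LA (ZT U B) h` (`enorm_integral_le_lintegral_enorm`, `enorm_prod`; in slot `0`: `w (y - α) ≤ rho U y`, since `0 ≤ w ≤ 1` and `w (y - α) ≠ 0` implies `y ∈ [7T/8, 25T/8]`, where `rho U y = 1`).
The other patterns are in `badP m`. `enorm_sum_le`, triangle inequality.
`bad_cases`: `P ∈ badP m`: if no value is `1` or `3`, all values are `0` or `2`; `P j.succ ≠ 0` gives `P j.succ = 2` for some `j`, `P i ≠ 2` gives `P i = 0`.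
-/

set_option autoImplicit false

namespace Pool.Agent.P07318o

open MeasureTheory Complex Pool.Agent.P07318s Pool.Agent.P07318f Pool.Agent.P07318h

namespace PatAux

lemma integ {m : ℕ} {Z : Fin (m + 2) → ℝ → ℂ} (hZ : ∀ j, Continuous (Z j)) {a b : ℝ} (h0 : ∀ y, y ∉ Set.Icc a b → Z 0 y = 0)
    (ν : Fin (m + 1) → ℝ) (κ α : ℝ) (h : Fin m → ℝ) : Integrable (fun t => ∏ j, Z j (t + xs ν κ α h j)) := by
  refine Continuous.integrable_of_hasCompactSupport ?_ ?_
  · exact continuous_finset_prod _ fun j _ => (hZ j).comp (continuous_id.add continuous_const)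
  · refine HasCompactSupport.intro (isCompact_Icc (a := a - α) (b := b - α)) fun t ht => ?_
    refine Finset.prod_eq_zero (Finset.mem_univ 0) ?_
    rw [xs_zero]
    refine h0 _ fun h => ht ⟨?_, ?_⟩
    · have := h.1
      linarith
    · have := h.2
      linarith

lemma enorm_finprod {ι : Type*} (s : Finset ι) (f : ι → ℂ) : ‖∏ i ∈ s, f i‖ₑ = ∏ i ∈ s, ‖f i‖ₑ := by
  classical
  induction s using Finset.induction_on with
  | empty => simp
  | insert a s ha ih => rw [Finset.prod_insert ha, Finset.prod_insert ha, enorm_mul, ih]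

end PatAux

open PatAux

theorem pat {m : ℕ} (ν : Fin (m + 1) → ℝ) (κ α T Λ A B : ℝ) (w : ℝ → ℝ) (hT : 4 ≤ T) (hw : Wn T Λ w) (h1 : T ≤ α) (h2 : α ≤ 2 * T)
    (hA : 0 ≤ A) (hAB : A ≤ B) (hB : B ≤ (T / 4) ^ 2) (h : Fin m → ℝ) :
    ‖LL ν κ α (ZG (T / 4) α w) h - LL ν κ α (ZS (T / 4) α A w) h‖ₑ ≤
      LA ν κ α (ZT (T / 4) B) h + ∑ P ∈ badP m, ‖LL ν κ α (ZP (T / 4) α A B w P) h‖ₑ := by
  classical
  have hU : 0 < T / 4 := by linarith
  have hT1 : 1 ≤ T := by linarith
  have hc : ∀ (P : Fin (m + 2) → Fin 4) j, Continuous (ZP (T / 4) α A B w P j) := fun P j =>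
    ct_cont hU (cc_cont hT1 hw j) (fun y hy => cc_supp hT1 hw h1 h2 j y hy) (bf_contOn _ _ _ _)
  have hs : ∀ (P : Fin (m + 2) → Fin 4) j y, y ∉ Set.Icc (T / 4) (16 * (T / 4)) → ZP (T / 4) α A B w P j y = 0 :=
    fun P j y hy => ct_supp (fun y hy => cc_supp hT1 hw h1 h2 j y hy) _ y hy
  have hint : ∀ P : Fin (m + 2) → Fin 4, Integrable (fun t => ∏ j, ZP (T / 4) α A B w P j (t + xs ν κ α h j)) :=
    fun P => integ (hc P) (hs P 0) ν κ α h
  -- the sets of values
  let S : Fin (m + 2) → Finset (Fin 4) := fun j => if j = 0 then Finset.univ else {0}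
  have e1 : ∀ (j : Fin (m + 2)) (y : ℝ), ZG (T / 4) α w j y = ∑ i, ct (cc (T / 4) α w j) (bf (T / 4) A B i) y := by
    intro j y
    unfold ZG ct
    rw [← Finset.mul_sum, Fin.sum_univ_four]
    show _ * (gz y : ℂ) = _
    rw [gz_split hA hAB hB y]
    rfl
  have e2 : ∀ (j : Fin (m + 2)) (y : ℝ), ZS (T / 4) α A w j y = ∑ i ∈ S j, ct (cc (T / 4) α w j) (bf (T / 4) A B i) y := by
    intro j y
    by_cases hj : j = 0
    · subst hj
      have : S 0 = Finset.univ := by simp [S]
      rw [this, ← e1]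
      unfold ZS ZG
      simp
    · have : S j = {0} := by simp [S, hj]
      rw [this, Finset.sum_singleton]
      unfold ZS
      simp only [hj, if_false]
      rfl
  have e3 : LL ν κ α (ZG (T / 4) α w) h = ∑ P : Fin (m + 2) → Fin 4, LL ν κ α (ZP (T / 4) α A B w P) h := by
    unfold LL
    rw [← integral_finset_sum _ fun P _ => hint P]
    congr 1
    ext t
    simp only [e1]
    rw [Finset.prod_univ_sum, Fintype.piFinset_univ]
    rfl
  have e4 : LL ν κ α (ZS (T / 4) α A w) h = ∑ P ∈ Fintype.piFinset S, LL ν κ α (ZP (T / 4) α A B w P) h := by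
    unfold LL
    rw [← integral_finset_sum _ fun P _ => hint P]
    congr 1
    ext t
    simp only [e2]
    rw [Finset.prod_univ_sum]
    rfl
  have e5 : LL ν κ α (ZG (T / 4) α w) h - LL ν κ α (ZS (T / 4) α A w) h =
      ∑ P ∈ Finset.univ \ Fintype.piFinset S, LL ν κ α (ZP (T / 4) α A B w P) h := by
    rw [e3, e4, ← Finset.sum_sdiff (Finset.subset_univ (Fintype.piFinset S))]
    ring
  have hcov : Finset.univ \ Fintype.piFinset S ⊆ insert (fun _ => 2) (badP m) := by
    intro P hP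
    rw [Finset.mem_sdiff, Fintype.mem_piFinset] at hP
    rw [Finset.mem_insert]
    by_cases h3 : P = fun _ => 2
    · exact Or.inl h3
    · right
      unfold badP
      rw [Finset.mem_filter]
      refine ⟨Finset.mem_univ _, ?_, ?_⟩
      · by_contra h4
        push Not at h4
        refine hP.2 fun j => ?_
        by_cases hj : j = 0
        · simp [S, hj]
        · obtain ⟨i, rfl⟩ := Fin.exists_succ_eq.2 hj
          simp [S, h4 i]
      · by_contra h4
        push Not at h4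
        exact h3 (funext h4)
  have htop : ‖LL ν κ α (ZP (T / 4) α A B w fun _ => 2) h‖ₑ ≤ LA ν κ α (ZT (T / 4) B) h := by
    unfold LL LA
    refine (enorm_integral_le_lintegral_enorm _).trans (lintegral_mono fun t => ?_)
    rw [enorm_finprod]
    refine Finset.prod_le_prod' fun j _ => ?_
    have hb : ∀ y, ZP (T / 4) α A B w (fun _ => 2) j y = (cc (m := m) (T / 4) α w j y : ℂ) * bd B ((T / 4) ^ 2) y := fun y => rfl
    have hb2 : ∀ y, ZT (m := m) (T / 4) B j y = (rho (T / 4) y : ℂ) * bd B ((T / 4) ^ 2) y := fun y => rfl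
    show ‖ZP (T / 4) α A B w (fun _ => 2) j (t + xs ν κ α h j)‖ₑ ≤ ‖ZT (m := m) (T / 4) B j (t + xs ν κ α h j)‖ₑ
    rw [hb, hb2, enorm_mul, enorm_mul]
    refine mul_le_mul_left ?_ _
    generalize t + xs ν κ α h j = y
    have h3 : |cc (m := m) (T / 4) α w j y| ≤ |rho (T / 4) y| := by
      refine Fin.cases ?_ (fun i => ?_) j
      · rw [cc_zero]
        show |w (y - α)| ≤ _
        by_cases hy : y - α ∈ Set.Icc (-(T / 8)) (9 * T / 8)
        · have h4 := hy.1
          have h5 := hy.2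
          rw [rho_one hU (by linarith) (by linarith), abs_of_nonneg (hw.nonneg _), abs_one]
          exact hw.le_one _
        · rw [hw.supp _ hy, abs_zero]
          exact abs_nonneg _
      · rw [cc_succ]
    rw [← ofReal_norm_eq_enorm, ← ofReal_norm_eq_enorm]
    refine ENNReal.ofReal_le_ofReal ?_
    rw [Complex.norm_real, Complex.norm_real]
    exact h3
  rw [e5]
  refine (enorm_sum_le _ _).trans ?_
  refine (Finset.sum_le_sum_of_subset hcov).trans ?_
  by_cases hm : (fun _ => 2 : Fin (m + 2) → Fin 4) ∈ badP m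
  · rw [Finset.insert_eq_of_mem hm]
    exact le_add_self
  · rw [Finset.sum_insert hm]
    gcongr

theorem bad_cases {m : ℕ} {P : Fin (m + 2) → Fin 4} (hP : P ∈ badP m) :
    (∃ r, P r = 1) ∨ (∃ r, P r = 3) ∨ ∃ i r, i ≠ r ∧ P i = 0 ∧ P r = 2 := by
  unfold badP at hP
  rw [Finset.mem_filter] at hP
  obtain ⟨-, ⟨j, hj⟩, i, hi⟩ := hP
  by_cases h1 : ∃ r, P r = 1
  · exact Or.inl h1
  by_cases h3 : ∃ r, P r = 3
  · exact Or.inr (Or.inl h3)
  right; right
  push Not at h1 h3
  have key : ∀ r, P r = 0 ∨ P r = 2 := by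
    intro r
    have a1 := h1 r
    have a3 := h3 r
    generalize P r = v at a1 a3
    fin_cases v <;> simp_all
  have hi0 : P i = 0 := (key i).resolve_right hi
  have hj2 : P j.succ = 2 := (key j.succ).resolve_left hj
  refine ⟨i, j.succ, ?_, hi0, hj2⟩
  rintro rfl
  rw [hi0] at hj2
  exact absurd hj2 (by decide)

end Pool.Agent.P07318o
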