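import Pool.Agent.Lib.P07318o.Wdefs

/-!
# Windows and cut-offs are smooth

PROOF. `st = Real.smoothTransition` is smooth (`Real.smoothTransition.contDiff`), `= 0` for `x ≤ 0` and `= 1` for `1 ≤ x`; hence `deriv st` and `deriv (deriv st)` are continuous and vanish
outside `[0, 1]` (locally constant function), so they are bounded: `|deriv st| ≤ M`, `|deriv (deriv st)| ≤ M`. (`IsCompact.exists_bound_of_continuousOn` on `[0, 1]`.)
`win Δ a b t = st ((t-a)/Δ + 1) * st ((b-t)/Δ + 1)`: chain and product rule, `|deriv| ≤ 2M/Δ`, `|deriv (deriv)| ≤ (2M + 2M²)/Δ²`. With `y ↦ win Δ a b (y - α)` and `U = T/4`, `Λ = C (T/Δ)²`, `T/Δ ≥ 1`: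
`2M/Δ ≤ Λ/U`, `(2M+2M²)/Δ² ≤ Λ/U²`. The support: `y - α ∈ [a-Δ, b+Δ] ⊆ [-T/8, 9T/8]`, so `y ∈ [7T/8, 25T/8] ⊆ [T/4, 4T]` (`win_zero`). `rho`: the same with `y/U - 1`, `16 - y/U`.
`win_wn` is the same statement without the shift, with the bounds `Λ/T`, `Λ/T²`.
-/

set_option autoImplicit false

namespace Pool.Agent.P07318o

open MeasureTheory Complex Pool.Agent.P07318s Pool.Agent.P07318f Pool.Agent.P07318h

private theorem st_out {x : ℝ} (hx : x < 0 ∨ 1 < x) : deriv Real.smoothTransition x = 0 := by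
  rcases hx with h | h
  · have h1 : Real.smoothTransition =ᶠ[nhds x] fun _ => (0 : ℝ) := by
      filter_upwards [Iio_mem_nhds h] with y hy
      exact Real.smoothTransition.zero_of_nonpos (le_of_lt hy)
    rw [h1.deriv_eq, deriv_const]
  · have h1 : Real.smoothTransition =ᶠ[nhds x] fun _ => (1 : ℝ) := by
      filter_upwards [Ioi_mem_nhds h] with y hy
      exact Real.smoothTransition.one_of_one_le (le_of_lt hy)
    rw [h1.deriv_eq, deriv_const]

private theorem st_out2 {x : ℝ} (hx : x < 0 ∨ 1 < x) :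
    deriv (deriv Real.smoothTransition) x = 0 := by
  have h1 : deriv Real.smoothTransition =ᶠ[nhds x] fun _ => (0 : ℝ) := by
    rcases hx with h | h
    · filter_upwards [Iio_mem_nhds h] with y hy
      exact st_out (Or.inl hy)
    · filter_upwards [Ioi_mem_nhds h] with y hy
      exact st_out (Or.inr hy)
  rw [h1.deriv_eq, deriv_const]

private theorem st_cd : ContDiff ℝ 1 (deriv Real.smoothTransition) := by
  have h : ContDiff ℝ (1 + 1) Real.smoothTransition := Real.smoothTransition.contDiff
  exact (contDiff_succ_iff_deriv.1 h).2.2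

private theorem st_bd {g : ℝ → ℝ} (hg : Continuous g) (h0 : ∀ x, x < 0 ∨ 1 < x → g x = 0) :
    ∃ M : ℝ, ∀ x, |g x| ≤ M := by
  obtain ⟨C, hC⟩ := (isCompact_Icc (a := (0 : ℝ)) (b := 1)).exists_bound_of_continuousOn
    hg.continuousOn
  refine ⟨max C 0, fun x => ?_⟩
  by_cases hx : x ∈ Set.Icc (0 : ℝ) 1
  · exact (hC x hx).trans (le_max_left _ _)
  · have h1 : x < 0 ∨ 1 < x := by
      by_contra h2
      push Not at h2
      exact hx ⟨h2.1, h2.2⟩
    rw [h0 x h1, abs_zero]
    exact le_max_right _ _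

private theorem st_M : ∃ M : ℝ, 1 ≤ M ∧ (∀ x, |deriv Real.smoothTransition x| ≤ M) ∧
    ∀ x, |deriv (deriv Real.smoothTransition) x| ≤ M := by
  obtain ⟨M1, h1⟩ := st_bd st_cd.continuous (fun x hx => st_out hx)
  obtain ⟨M2, h2⟩ := st_bd (st_cd.continuous_deriv le_rfl) (fun x hx => st_out2 hx)
  refine ⟨max 1 (max M1 M2), le_max_left _ _, fun x => ?_, fun x => ?_⟩
  · exact (h1 x).trans ((le_max_left _ _).trans (le_max_right _ _))
  · exact (h2 x).trans ((le_max_right _ _).trans (le_max_right _ _))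

private theorem hd_aff {f f' : ℝ → ℝ} (hf : ∀ x, HasDerivAt f (f' x) x) (a b t : ℝ) :
    HasDerivAt (fun t => f (a * t + b)) (a * f' (a * t + b)) t := by
  have h1 : HasDerivAt (fun t : ℝ => a * t + b) a t := by
    simpa using ((hasDerivAt_id t).const_mul a).add_const b
  have h2 := (hf (a * t + b)).comp t h1
  rw [mul_comm]
  exact h2

private theorem st_prod {M : ℝ} (hM : 1 ≤ M) (h1 : ∀ x, |deriv Real.smoothTransition x| ≤ M)
    (h2 : ∀ x, |deriv (deriv Real.smoothTransition) x| ≤ M) {a b a' b' A : ℝ} (hA : |a| ≤ A)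
    (hA' : |a'| ≤ A) {f : ℝ → ℝ} (hf : f = fun t => Real.smoothTransition (a * t + b) *
      Real.smoothTransition (a' * t + b')) :
    ContDiff ℝ 2 f ∧ (∀ t, |deriv f t| ≤ 2 * M * A) ∧
      ∀ t, |deriv (deriv f) t| ≤ 4 * M ^ 2 * A ^ 2 := by
  have hA0 : 0 ≤ A := (abs_nonneg a).trans hA
  have hs : ∀ x, HasDerivAt Real.smoothTransition (deriv Real.smoothTransition x) x := by
    intro x
    have h : ContDiff ℝ 1 Real.smoothTransition := Real.smoothTransition.contDiff
    exact (h.differentiable (by norm_num)).differentiableAt.hasDerivAt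
  have hs' : ∀ x, HasDerivAt (deriv Real.smoothTransition)
      (deriv (deriv Real.smoothTransition) x) x := by
    intro x
    exact (st_cd.differentiable (by norm_num)).differentiableAt.hasDerivAt
  have hd1 : ∀ t, HasDerivAt f (a * deriv Real.smoothTransition (a * t + b) *
      Real.smoothTransition (a' * t + b') + Real.smoothTransition (a * t + b) *
      (a' * deriv Real.smoothTransition (a' * t + b'))) t := by
    intro t
    rw [hf]
    exact (hd_aff hs a b t).mul (hd_aff hs a' b' t)
  have hd1' : deriv f = fun t => a * deriv Real.smoothTransition (a * t + b) *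
      Real.smoothTransition (a' * t + b') + Real.smoothTransition (a * t + b) *
      (a' * deriv Real.smoothTransition (a' * t + b')) := funext fun t => (hd1 t).deriv
  have hd2 : ∀ t, HasDerivAt (deriv f) ((a * (a * deriv (deriv Real.smoothTransition) (a * t + b))) *
      Real.smoothTransition (a' * t + b') + a * deriv Real.smoothTransition (a * t + b) *
      (a' * deriv Real.smoothTransition (a' * t + b')) +
      (a * deriv Real.smoothTransition (a * t + b) *
      (a' * deriv Real.smoothTransition (a' * t + b')) + Real.smoothTransition (a * t + b) *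
      (a' * (a' * deriv (deriv Real.smoothTransition) (a' * t + b'))))) t := by
    intro t
    rw [hd1']
    exact (((hd_aff hs' a b t).const_mul a).mul (hd_aff hs a' b' t)).add
      ((hd_aff hs a b t).mul ((hd_aff hs' a' b' t).const_mul a'))
  have hst : ∀ x, |Real.smoothTransition x| ≤ 1 := fun x => by
    rw [abs_of_nonneg (Real.smoothTransition.nonneg x)]
    exact Real.smoothTransition.le_one x
  have hm : ∀ {x y X Y : ℝ}, |x| ≤ X → |y| ≤ Y → |x * y| ≤ X * Y := by
    intro x y X Y hx hy
    rw [abs_mul]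
    exact mul_le_mul hx hy (abs_nonneg _) ((abs_nonneg _).trans hx)
  refine ⟨?_, fun t => ?_, fun t => ?_⟩
  · rw [hf]
    have h3 : ContDiff ℝ 2 Real.smoothTransition := Real.smoothTransition.contDiff
    have h4 : ∀ a b : ℝ, ContDiff ℝ 2 fun t : ℝ => Real.smoothTransition (a * t + b) := by
      intro a b
      exact h3.comp ((contDiff_const.mul contDiff_id).add contDiff_const)
    exact (h4 a b).mul (h4 a' b')
  · rw [(hd1 t).deriv]
    have e1 := hm (hm hA (h1 (a * t + b))) (hst (a' * t + b'))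
    have e2 := hm (hst (a * t + b)) (hm hA' (h1 (a' * t + b')))
    have e3 := abs_add_le (a * deriv Real.smoothTransition (a * t + b) *
      Real.smoothTransition (a' * t + b')) (Real.smoothTransition (a * t + b) *
      (a' * deriv Real.smoothTransition (a' * t + b')))
    linarith
  · rw [(hd2 t).deriv]
    have e1 := hm (hm hA (hm hA (h2 (a * t + b)))) (hst (a' * t + b'))
    have e2 := hm (hm hA (h1 (a * t + b))) (hm hA' (h1 (a' * t + b')))
    have e3 := hm (hst (a * t + b)) (hm hA' (hm hA' (h2 (a' * t + b'))))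
    have e4 := abs_add_le (a * (a * deriv (deriv Real.smoothTransition) (a * t + b)) *
      Real.smoothTransition (a' * t + b')) (a * deriv Real.smoothTransition (a * t + b) *
      (a' * deriv Real.smoothTransition (a' * t + b')))
    have e5 := abs_add_le (a * deriv Real.smoothTransition (a * t + b) *
      (a' * deriv Real.smoothTransition (a' * t + b'))) (Real.smoothTransition (a * t + b) *
      (a' * (a' * deriv (deriv Real.smoothTransition) (a' * t + b'))))
    have e6 := abs_add_le (a * (a * deriv (deriv Real.smoothTransition) (a * t + b)) *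
      Real.smoothTransition (a' * t + b') + a * deriv Real.smoothTransition (a * t + b) *
      (a' * deriv Real.smoothTransition (a' * t + b'))) (a * deriv Real.smoothTransition (a * t + b) *
      (a' * deriv Real.smoothTransition (a' * t + b')) + Real.smoothTransition (a * t + b) *
      (a' * (a' * deriv (deriv Real.smoothTransition) (a' * t + b'))))
    have e7 : A ^ 2 * M ≤ A ^ 2 * M ^ 2 := by
      apply mul_le_mul_of_nonneg_left _ (sq_nonneg A)
      nlinarith
    nlinarith

theorem win_wn : ∃ C : ℝ, 1 ≤ C ∧ ∀ T Δ a b : ℝ, 1 ≤ T → 0 < Δ → Δ ≤ T → -(T / 8) ≤ a - Δ → b + Δ ≤ 9 * T / 8 →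
    Wn T (C * (T / Δ) ^ 2) (win Δ a b) := by
  obtain ⟨M, hM, h1, h2⟩ := st_M
  refine ⟨4 * M ^ 2, by nlinarith, ?_⟩
  intro T Δ a b hT hΔ hΔT ha hb
  have hT0 : 0 < T := by linarith
  have hf : win Δ a b = fun t => Real.smoothTransition (1 / Δ * t + (1 - a / Δ)) *
      Real.smoothTransition (-(1 / Δ) * t + (b / Δ + 1)) := by
    funext t
    unfold win
    congr 2
    · ring
    · ring
  have hA : |1 / Δ| ≤ 1 / Δ := le_of_eq (abs_of_pos (by positivity))
  have hA' : |-(1 / Δ)| ≤ 1 / Δ := by rw [abs_neg]; exact hA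
  obtain ⟨h3, h4, h5⟩ := st_prod hM h1 h2 hA hA' hf
  refine ⟨h3, win_nonneg Δ a b, win_le_one Δ a b, ?_, ?_, ?_⟩
  · intro t ht
    apply win_zero hΔ
    intro h6
    exact ht ⟨ha.trans h6.1, h6.2.trans hb⟩
  · intro t
    refine (h4 t).trans ?_
    have e1 : 4 * M ^ 2 * (T / Δ) ^ 2 / T = 4 * M ^ 2 * (T / Δ) * (1 / Δ) := by
      field_simp
    rw [e1]
    apply mul_le_mul_of_nonneg_right _ (by positivity)
    have e2 : 1 ≤ T / Δ := by rw [le_div_iff₀ hΔ]; linarith
    nlinarith [mul_le_mul_of_nonneg_left e2 (by positivity : 0 ≤ 4 * M ^ 2)]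
  · intro t
    refine (h5 t).trans (le_of_eq ?_)
    field_simp

theorem rho_cut : ∃ C : ℝ, 1 ≤ C ∧ ∀ U : ℝ, 1 ≤ U → Cut U C (rho U) := by
  obtain ⟨M, hM, h1, h2⟩ := st_M
  refine ⟨4 * M ^ 2, by nlinarith, ?_⟩
  intro U hU
  have hU0 : 0 < U := by linarith
  have hf : rho U = fun t => Real.smoothTransition (1 / U * t + (-1)) *
      Real.smoothTransition (-(1 / U) * t + 16) := by
    funext t
    unfold rho
    congr 2
    · ring
    · ring
  have hA : |1 / U| ≤ 1 / U := le_of_eq (abs_of_pos (by positivity))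
  have hA' : |-(1 / U)| ≤ 1 / U := by rw [abs_neg]; exact hA
  obtain ⟨h3, h4, h5⟩ := st_prod hM h1 h2 hA hA' hf
  refine ⟨h3, rho_nonneg U, rho_le_one U, ?_, ?_, ?_⟩
  · intro y hy
    exact rho_zero hU0 hy
  · intro t
    refine (h4 t).trans ?_
    rw [mul_one_div]
    apply div_le_div_of_nonneg_right _ hU0.le
    nlinarith
  · intro t
    refine (h5 t).trans (le_of_eq ?_)
    field_simp

theorem wn_cut {T Λ α : ℝ} {w : ℝ → ℝ} (hT : 1 ≤ T) (hΛ : 0 ≤ Λ) (hw : Wn T Λ w) (h1 : T ≤ α) (h2 : α ≤ 2 * T) :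
    Cut (T / 4) Λ (fun y => w (y - α)) := by
  have hT0 : 0 < T := by linarith
  refine ⟨?_, fun y => hw.nonneg _, fun y => hw.le_one _, ?_, ?_, ?_⟩
  · exact hw.smooth.comp (contDiff_id.sub contDiff_const)
  · intro y hy
    apply hw.supp
    intro h3
    apply hy
    exact ⟨by linarith [h3.1], by linarith [h3.2]⟩
  · intro y
    have e1 : deriv (fun y => w (y - α)) y = deriv w (y - α) := deriv_comp_sub_const w α y
    rw [e1]
    refine (hw.d1 _).trans ?_
    apply div_le_div_of_nonneg_left hΛ (by positivity)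
    linarith
  · intro y
    have e1 : deriv (fun y => w (y - α)) = fun y => deriv w (y - α) :=
      funext fun y => deriv_comp_sub_const w α y
    have e2 : deriv (fun y => deriv w (y - α)) y = deriv (deriv w) (y - α) :=
      deriv_comp_sub_const (deriv w) α y
    rw [e1, e2]
    refine (hw.d2 _).trans ?_
    apply div_le_div_of_nonneg_left hΛ (by positivity)
    nlinarith

end Pool.Agent.P07318o
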