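import Pool.Agent.Lib.P07318o.Mid
import Pool.Agent.Lib.P07318o.Mixed
import Pool.Agent.Lib.P07318o.Pat
import Pool.Agent.Lib.P07318o.Norms
import Pool.Agent.Lib.P07318o.AbsF
import Pool.Agent.Lib.P07318o.Win

/-!
# Bad patterns in mean square

PROOF. `U = T/4`, `L = lg T`, `N₁ = n1 m T = T^dd`, `dd = 1/(100(m+2))`, `N₂ = n2 C₀ T = T/(4 L^C₀)`. Given `C₁, B`, choose `C₀ = 4 (4 C₁ + 8 + 5(m+1) + B)` (`Λ ≤ L^(2 C₁ + 1)`-type bounds; here `Λ = L^C₁`, so `C₀ = 4(2C₁ + 8 + 5(m+1) + B)` is enough). `T ≥ T₀` such that `1 ≤ N₁ ≤ N₂`, `N₂ ≤ U`, `T ≥ 64` and the constants of `rho_cut` are `≤ L^C₁`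
(if `C₁ > 0`; otherwise enlarge `Λ` to `max`: all slots have `Cut U Λ' c_j` with `Λ' = C_ρ + L^C₁ ≤ C L^C₁`, `L ≥ 1`; `Cut` is monotone in `Λ`). Norms of the slots (`C` large, `G = C T L^5`): `nm (ct c (bf i)) ≤ ofReal G` for all `i : Fin 4` (`nm_small` for `i = 0`, `nm_band` for `i = 1, 2`, using
`1 + log (U/N₂) ≤ 1 + C₀ log L ≤ ..L`: simply `1 + log (U/A) ≤ L` for `A ≥ 1`, `nm_er` for `i = 3`; for `i = 2`: `A = N₂ ≥ 1`). `bad_cases`: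
(1) `P r = 1`: `mid` with `A = N₁`, `B = N₂`: `≤ C Λ'² L^8 T (C T L^5)^(m+1) (T^(-dd) + L^(-C₀)/4)^(1/4) ≤ C T^(m+2) L^(2C₁ + 8 + 5(m+1)) · 2 L^(-C₀/4)` for `T ≥ T₀` (`T^(-dd) ≤ L^(-C₀)` for large `T`) `≤ C T^(m+2) L^(-B)`.
(2) `P r = 3`: `‖LL‖ₑ ≤ LA` and `abs_form`: `≤ C U^(1/4) (C T L^5)^(m+1) ≤ C T^(m+2) L^(-B)` for `T ≥ T₀`.
(3) `P i = 0`, `P r = 2`, `i ≠ r`: `mixed` with `Y = N₁`, `A = N₂`, `B = U² ≤ T²`: `≤ C Λ'^4 L^7 T^(4 dd) T² (4 L^C₀/T)^(1/2) (C T L^5)^m ≤ C T^(m + 3/2 + 4dd) L^(..) ≤ C T^(m+2) L^(-B)` for `T ≥ T₀` (`4 dd ≤ 1/25`).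
Continuity and supports: `LLcut`. Cut-offs: slot `0` `wn_cut`, the others `rho_cut` (with `U = T/4 ≥ 1`).
-/

set_option autoImplicit false

namespace Pool.Agent.P07318o

open MeasureTheory Complex Pool.Agent.P07318s Pool.Agent.P07318f Pool.Agent.P07318h

namespace BadBAux

lemma lg_growth (E ε : ℝ) (hE : 0 ≤ E) (hε : 0 < ε) :
    ∃ T₀ : ℝ, ∀ T, T₀ ≤ T → lg T ^ E ≤ T ^ ε := by
  have h1 := (isLittleO_log_rpow_rpow_atTop E hε).bound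
    (c := ((2 : ℝ) ^ E)⁻¹) (by positivity)
  have h2 := h1.and (Filter.eventually_ge_atTop (Real.exp 1))
  obtain ⟨T₀, hT₀⟩ := Filter.eventually_atTop.1 h2
  refine ⟨T₀, fun T hT => ?_⟩
  obtain ⟨h3, h4⟩ := hT₀ T hT
  have hT0 : 0 < T := (Real.exp_pos 1).trans_le h4
  have h5 : 1 ≤ Real.log T := by
    rw [Real.le_log_iff_exp_le hT0]
    exact h4
  have h6 : 0 ≤ Real.log T := zero_le_one.trans h5
  have h7 : lg T ≤ 2 * Real.log T := by unfold lg; linarith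
  have h8 : 0 ≤ lg T := by unfold lg; linarith
  rw [Real.norm_of_nonneg (Real.rpow_nonneg h6 E), Real.norm_of_nonneg (Real.rpow_nonneg hT0.le ε)] at h3
  calc lg T ^ E ≤ (2 * Real.log T) ^ E := Real.rpow_le_rpow h8 h7 hE
    _ = 2 ^ E * Real.log T ^ E := Real.mul_rpow (by norm_num) h6
    _ ≤ 2 ^ E * (((2 : ℝ) ^ E)⁻¹ * T ^ ε) := mul_le_mul_of_nonneg_left h3 (by positivity)
    _ = T ^ ε := by
        rw [← mul_assoc, mul_inv_cancel₀ (by positivity), one_mul]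

lemma one_le_lg {T : ℝ} (hT : 1 ≤ T) : 1 ≤ lg T := by
  unfold lg
  linarith [Real.log_nonneg hT]

lemma cut_mono {U Λ Λ' : ℝ} {c : ℝ → ℝ} (hU : 0 < U) (h : Cut U Λ c) (hl : Λ ≤ Λ') :
    Cut U Λ' c where
  smooth := h.smooth
  nonneg := h.nonneg
  le_one := h.le_one
  supp := h.supp
  d1 := fun y => (h.d1 y).trans (div_le_div_of_nonneg_right hl hU.le)
  d2 := fun y => (h.d2 y).trans (div_le_div_of_nonneg_right hl (by positivity))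

/-- all slots have small norms -/
lemma slot_norm : ∃ K : ℝ, 0 < K ∧ ∀ (T Λ A B : ℝ) (c : ℝ → ℝ) (i : Fin 4), 4 ≤ T → Cut (T / 4) Λ c →
    1 ≤ A → A ≤ B → B ≤ T / 4 →
    nm (ct c (bf (T / 4) A B i)) ≤ ENNReal.ofReal (K * T * lg T ^ 5) := by
  obtain ⟨Cb, hCb, hb⟩ := nm_band
  obtain ⟨Cs, hCs, hs⟩ := nm_small
  obtain ⟨Ce, hCe, he⟩ := nm_er
  refine ⟨Cb + Cs + Ce, by positivity, fun T Λ A B c i hT hc hA hAB hB => ?_⟩
  have hT0 : 0 < T := by linarith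
  have hU : 1 ≤ T / 4 := by linarith
  have hlogU : 0 ≤ Real.log (T / 4) := Real.log_nonneg hU
  have hL : 1 + Real.log (T / 4) ≤ lg T := by
    unfold lg
    have := Real.log_le_log (by linarith : 0 < T / 4) (by linarith : T / 4 ≤ T)
    linarith
  have hL1 : 1 ≤ lg T := one_le_lg (by linarith)
  have hband : ∀ X Y : ℝ, 1 ≤ X → X ≤ T / 4 → X ≤ Y →
      nm (ct c (bd X Y)) ≤ ENNReal.ofReal ((Cb + Cs + Ce) * T * lg T ^ 5) := by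
    intro X Y hX1 hX2 hXY
    refine (hb _ _ _ _ _ hU hc hX1 hX2 hXY).trans (ENNReal.ofReal_le_ofReal ?_)
    have h1 : 1 ≤ T / 4 / X := by
      rw [le_div_iff₀ (by linarith)]
      linarith
    have h2 : 0 ≤ Real.log (T / 4 / X) := Real.log_nonneg h1
    have h3 : 1 + Real.log (T / 4 / X) ≤ lg T := by
      refine le_trans ?_ hL
      have h4 : T / 4 / X ≤ T / 4 := div_le_self (by linarith) hX1
      have := Real.log_le_log (by positivity) h4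
      linarith
    calc Cb * (T / 4) * (1 + Real.log (T / 4)) * (1 + Real.log (T / 4 / X)) ^ 4
        ≤ (Cb + Cs + Ce) * T * lg T * lg T ^ 4 := by
          gcongr
          · linarith
          · linarith
      _ = (Cb + Cs + Ce) * T * lg T ^ 5 := by ring
  fin_cases i
  · refine (hs _ _ _ _ hU hc hA).trans (ENNReal.ofReal_le_ofReal ?_)
    gcongr
    · linarith
    · linarith
  · exact hband A B hA (hAB.trans hB) hAB
  · refine hband B ((T / 4) ^ 2) (hA.trans hAB) hB (hB.trans ?_)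
    nlinarith
  · refine (he _ _ _ hU hc).trans (ENNReal.ofReal_le_ofReal ?_)
    have h1 : (T / 4) ^ (1 / 4 : ℝ) ≤ T := by
      calc (T / 4) ^ (1 / 4 : ℝ) ≤ (T / 4) ^ (1 : ℝ) :=
            Real.rpow_le_rpow_of_exponent_le hU (by norm_num)
        _ = T / 4 := Real.rpow_one _
        _ ≤ T := by linarith
    calc Ce * (T / 4) ^ (1 / 4 : ℝ) ≤ (Cb + Cs + Ce) * T := by
          gcongr
          linarith
      _ = (Cb + Cs + Ce) * T * 1 ^ 5 := by ring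
      _ ≤ (Cb + Cs + Ce) * T * lg T ^ 5 := by gcongr

lemma dd_pos (m : ℕ) : 0 < dd m := by
  unfold dd
  positivity

lemma dd_le (m : ℕ) : dd m ≤ 1 / 200 := by
  unfold dd
  apply one_div_le_one_div_of_le (by norm_num)
  have : (0 : ℝ) ≤ m := Nat.cast_nonneg m
  linarith

/-- arithmetic of the middle heights -/
lemma num_mid {m : ℕ} {T L Cm Cr K C₁ C₀ B N₁ N₂ : ℝ} (hT : 1 ≤ T) (hL : 1 ≤ L) (hCm : 0 < Cm)
    (hCr : 0 < Cr) (hK : 0 < K) (h0 : C₀ / 4 = 2 * C₁ + 8 + 5 * ((m : ℝ) + 1) + B)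
    (hN₁ : 0 ≤ 1 / N₁) (hN₂ : 0 ≤ N₂ / T)
    (h1 : 1 / N₁ ≤ L ^ (-C₀)) (h2 : N₂ / T ≤ L ^ (-C₀)) :
    Cm * (Cr * L ^ C₁) ^ 2 * L ^ 8 * T * (K * T * L ^ 5) ^ (m + 1) * (1 / N₁ + N₂ / T) ^ (1 / 4 : ℝ)
      ≤ (Cm * Cr ^ 2 * K ^ (m + 1) * 2) * T ^ (m + 2) * L ^ (-B) := by
  have hL0 : 0 < L := by linarith
  have h3 : (1 / N₁ + N₂ / T) ^ (1 / 4 : ℝ) ≤ 2 * L ^ (-(C₀ / 4)) := by
    calc (1 / N₁ + N₂ / T) ^ (1 / 4 : ℝ) ≤ (2 * L ^ (-C₀)) ^ (1 / 4 : ℝ) :=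
          Real.rpow_le_rpow (by positivity) (by linarith) (by norm_num)
      _ = 2 ^ (1 / 4 : ℝ) * L ^ (-(C₀ / 4)) := by
          rw [Real.mul_rpow (by norm_num) (by positivity), ← Real.rpow_mul hL0.le]
          congr 2
          ring
      _ ≤ 2 * L ^ (-(C₀ / 4)) := by
          have h4 : (2 : ℝ) ^ (1 / 4 : ℝ) ≤ 2 ^ (1 : ℝ) :=
            Real.rpow_le_rpow_of_exponent_le (by norm_num) (by norm_num)
          rw [Real.rpow_one] at h4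
          gcongr
  have h5 : (L ^ C₁) ^ 2 * L ^ 8 * (L ^ 5) ^ (m + 1) * L ^ (-(C₀ / 4)) = L ^ (-B) := by
    have e1 : (L ^ C₁) ^ 2 = L ^ (C₁ * 2) := by
      rw [Real.rpow_mul hL0.le]
      exact (Real.rpow_natCast _ 2).symm
    have e2 : L ^ 8 = L ^ (8 : ℝ) := by
      rw [← Real.rpow_natCast]
      norm_num
    have e3 : (L ^ 5) ^ (m + 1) = L ^ (5 * ((m : ℝ) + 1)) := by
      rw [← pow_mul, ← Real.rpow_natCast]
      congr 1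
      push_cast
      ring
    rw [e1, e2, e3, ← Real.rpow_add hL0, ← Real.rpow_add hL0, ← Real.rpow_add hL0, h0]
    congr 1
    ring
  calc Cm * (Cr * L ^ C₁) ^ 2 * L ^ 8 * T * (K * T * L ^ 5) ^ (m + 1) * (1 / N₁ + N₂ / T) ^ (1 / 4 : ℝ)
      ≤ Cm * (Cr * L ^ C₁) ^ 2 * L ^ 8 * T * (K * T * L ^ 5) ^ (m + 1) * (2 * L ^ (-(C₀ / 4))) := by
        gcongr
    _ = (Cm * Cr ^ 2 * K ^ (m + 1) * 2) * T ^ (m + 2) *
        ((L ^ C₁) ^ 2 * L ^ 8 * (L ^ 5) ^ (m + 1) * L ^ (-(C₀ / 4))) := by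
        rw [mul_pow (K * T), mul_pow K]
        ring
    _ = _ := by rw [h5]

/-- arithmetic of the error term -/
lemma num_er {m : ℕ} {T L Ca Ce K B : ℝ} (hT : 1 ≤ T) (hL : 1 ≤ L) (hCa : 0 < Ca)
    (hCe : 0 < Ce) (hK : 0 < K) (h : L ^ (5 * ((m : ℝ) + 1) + B) ≤ T ^ (3 / 4 : ℝ)) :
    Ca * (Ce * (T / 4) ^ (1 / 4 : ℝ) * (K * T * L ^ 5) ^ (m + 1)) ≤
      (Ca * Ce * K ^ (m + 1)) * T ^ (m + 2) * L ^ (-B) := by
  have hL0 : 0 < L := by linarith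
  have hT0 : 0 < T := by linarith
  have h1 : (T / 4) ^ (1 / 4 : ℝ) ≤ T ^ (1 / 4 : ℝ) :=
    Real.rpow_le_rpow (by positivity) (by linarith) (by norm_num)
  have h2 : (L ^ 5) ^ (m + 1) = L ^ (5 * ((m : ℝ) + 1) + B) * L ^ (-B) := by
    rw [← Real.rpow_add hL0, ← pow_mul, ← Real.rpow_natCast]
    congr 1
    push_cast
    ring
  have h3 : T ^ (1 / 4 : ℝ) * T ^ (3 / 4 : ℝ) = T := by
    rw [← Real.rpow_add hT0]
    norm_num
  calc Ca * (Ce * (T / 4) ^ (1 / 4 : ℝ) * (K * T * L ^ 5) ^ (m + 1))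
      ≤ Ca * (Ce * T ^ (1 / 4 : ℝ) * (K * T * L ^ 5) ^ (m + 1)) := by gcongr
    _ = (Ca * Ce * K ^ (m + 1)) * T ^ (m + 1) * (T ^ (1 / 4 : ℝ) * L ^ (5 * ((m : ℝ) + 1) + B)) *
        L ^ (-B) := by
        rw [mul_pow (K * T), mul_pow K, h2]
        ring
    _ ≤ (Ca * Ce * K ^ (m + 1)) * T ^ (m + 1) * (T ^ (1 / 4 : ℝ) * T ^ (3 / 4 : ℝ)) * L ^ (-B) := by
        gcongr
    _ = _ := by
        rw [h3]
        ring

/-- arithmetic of the mixed patterns -/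
lemma num_mix {m : ℕ} {T L Cx Cr K C₁ C₀ B d : ℝ} (hT : 1 ≤ T) (hL : 1 ≤ L) (hCx : 0 < Cx)
    (hCr : 0 < Cr) (hK : 0 < K) (hd : d ≤ 1 / 200)
    (h : L ^ (4 * C₁ + 7 + C₀ / 2 + 5 * (m : ℝ) + B) ≤ T ^ (1 / 4 : ℝ)) :
    Cx * (Cr * L ^ C₁) ^ 4 * L ^ 7 * (T ^ d) ^ 4 * T ^ 2 * (T / (4 * L ^ C₀)) ^ (-(1 / 2) : ℝ) *
      (K * T * L ^ 5) ^ m ≤ (Cx * Cr ^ 4 * K ^ m * 2) * T ^ (m + 2) * L ^ (-B) := by
  have hL0 : 0 < L := by linarith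
  have hT0 : 0 < T := by linarith
  have e0 : (T / (4 * L ^ C₀)) ^ (-(1 / 2) : ℝ) = 2 * L ^ (C₀ / 2) * T ^ (-(1 / 2) : ℝ) := by
    rw [Real.div_rpow hT0.le (by positivity), Real.mul_rpow (by norm_num) (by positivity),
      ← Real.rpow_mul hL0.le]
    have e1 : (4 : ℝ) ^ (-(1 / 2) : ℝ) = 2⁻¹ := by
      rw [show (4 : ℝ) = 2 ^ (2 : ℝ) by norm_num, ← Real.rpow_mul (by norm_num)]
      norm_num
    have e2 : L ^ (C₀ * -(1 / 2)) = (L ^ (C₀ / 2))⁻¹ := by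
      rw [← Real.rpow_neg hL0.le]
      congr 1
      ring
    rw [e1, e2]
    have h1 : L ^ (C₀ / 2) ≠ 0 := (Real.rpow_pos_of_pos hL0 _).ne'
    field_simp
  have e1 : (L ^ C₁) ^ 4 = L ^ (4 * C₁) := by
    rw [mul_comm, Real.rpow_mul hL0.le]
    exact (Real.rpow_natCast _ 4).symm
  have e2 : L ^ 7 = L ^ (7 : ℝ) := by
    rw [← Real.rpow_natCast]
    norm_num
  have e3 : (L ^ 5) ^ m = L ^ (5 * (m : ℝ)) := by
    rw [← pow_mul, ← Real.rpow_natCast]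
    congr 1
    push_cast
    ring
  have e4 : (L ^ C₁) ^ 4 * L ^ 7 * L ^ (C₀ / 2) * (L ^ 5) ^ m =
      L ^ (4 * C₁ + 7 + C₀ / 2 + 5 * (m : ℝ) + B) * L ^ (-B) := by
    rw [e1, e2, e3, ← Real.rpow_add hL0, ← Real.rpow_add hL0, ← Real.rpow_add hL0,
      ← Real.rpow_add hL0]
    congr 1
    ring
  have e5 : (T ^ d) ^ 4 ≤ T ^ (1 / 4 : ℝ) := by
    have h1 : (T ^ d) ^ 4 = T ^ (d * 4) := by
      rw [Real.rpow_mul hT0.le]
      exact (Real.rpow_natCast _ 4).symm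
    rw [h1]
    exact Real.rpow_le_rpow_of_exponent_le hT (by linarith)
  have e6 : T ^ (1 / 4 : ℝ) * T ^ (1 / 4 : ℝ) * T ^ (-(1 / 2) : ℝ) = 1 := by
    rw [← Real.rpow_add hT0, ← Real.rpow_add hT0]
    norm_num
  rw [e0]
  calc Cx * (Cr * L ^ C₁) ^ 4 * L ^ 7 * (T ^ d) ^ 4 * T ^ 2 * (2 * L ^ (C₀ / 2) * T ^ (-(1 / 2) : ℝ)) *
      (K * T * L ^ 5) ^ m
      = (Cx * Cr ^ 4 * K ^ m * 2) * T ^ (m + 2) * ((T ^ d) ^ 4 * ((L ^ C₁) ^ 4 * L ^ 7 *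
        L ^ (C₀ / 2) * (L ^ 5) ^ m) * T ^ (-(1 / 2) : ℝ)) := by
        rw [mul_pow (K * T), mul_pow K, mul_pow Cr]
        ring
    _ = (Cx * Cr ^ 4 * K ^ m * 2) * T ^ (m + 2) * ((T ^ d) ^ 4 *
        L ^ (4 * C₁ + 7 + C₀ / 2 + 5 * (m : ℝ) + B) * T ^ (-(1 / 2) : ℝ)) * L ^ (-B) := by
        rw [e4]
        ring
    _ ≤ (Cx * Cr ^ 4 * K ^ m * 2) * T ^ (m + 2) * (T ^ (1 / 4 : ℝ) *
        T ^ (1 / 4 : ℝ) * T ^ (-(1 / 2) : ℝ)) * L ^ (-B) := by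
        gcongr
    _ = _ := by
        rw [e6]
        ring

lemma enorm_LL_le {m : ℕ} (ν : Fin (m + 1) → ℝ) (κ α : ℝ) (Z : Fin (m + 2) → ℝ → ℂ) (h : Fin m → ℝ) :
    ‖LL ν κ α Z h‖ₑ ≤ LA ν κ α Z h := by
  unfold LL LA
  refine (enorm_integral_le_lintegral_enorm _).trans (le_of_eq ?_)
  refine lintegral_congr fun t => ?_
  change ((‖∏ j, Z j (t + xs ν κ α h j)‖₊ : NNReal) : ENNReal) = _
  rw [nnnorm_prod, ENNReal.ofNNReal_finsetProd]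
  rfl

end BadBAux

open BadBAux in
theorem bad_b {m : ℕ} (hm : 1 ≤ m) (ν : Fin (m + 1) → ℝ) (hν : Adm ν) (C₁ B : ℝ) (hC₁ : 0 ≤ C₁) (hB : 0 ≤ B) :
    ∃ C₀ C T₀ : ℝ, 0 < C₀ ∧ 0 < C ∧ 64 ≤ T₀ ∧ ∀ (κ α T : ℝ) (w : ℝ → ℝ) (P : Fin (m + 2) → Fin 4), T₀ ≤ T → T ≤ α → α ≤ 2 * T →
    Wn T (lg T ^ C₁) w → P ∈ badP m →
    (1 ≤ n1 m T ∧ n1 m T ≤ n2 C₀ T ∧ n2 C₀ T ≤ (T / 4) ^ 2) ∧
    ∫⁻ h in Dm ν κ α T, ‖LL ν κ α (ZP (T / 4) α (n1 m T) (n2 C₀ T) w P) h‖ₑ ^ 2 ≤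
      ENNReal.ofReal (C * T ^ (m + 2) * lg T ^ (-B)) := by
  classical
  obtain ⟨Cm, hCm, hmid⟩ := mid hm ν hν
  obtain ⟨Cx, hCx, hmix⟩ := mixed hm ν hν
  obtain ⟨Ca, hCa, habs⟩ := abs_form hm ν hν
  obtain ⟨Ce, hCe, her⟩ := nm_er
  obtain ⟨Cr, hCr1, hrho⟩ := rho_cut
  obtain ⟨K, hK, hnorm⟩ := slot_norm
  have hCr : 0 < Cr := by linarith
  obtain ⟨C₀, hC₀⟩ : ∃ C₀ : ℝ, C₀ = 4 * (2 * C₁ + 8 + 5 * ((m : ℝ) + 1) + B) := ⟨_, rfl⟩
  have hm0 : (0 : ℝ) ≤ m := Nat.cast_nonneg m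
  have hC₀pos : 0 < C₀ := by rw [hC₀]; positivity
  obtain ⟨t₁, ht₁⟩ := lg_growth C₀ (dd m) hC₀pos.le (dd_pos m)
  obtain ⟨t₂, ht₂⟩ := lg_growth (5 * ((m : ℝ) + 1) + B) (3 / 4) (by positivity) (by norm_num)
  obtain ⟨t₃, ht₃⟩ := lg_growth (4 * C₁ + 7 + C₀ / 2 + 5 * (m : ℝ) + B) (1 / 4) (by positivity)
    (by norm_num)
  refine ⟨C₀, Cm * Cr ^ 2 * K ^ (m + 1) * 2 + Ca * Ce * K ^ (m + 1) + Cx * Cr ^ 4 * K ^ m * 2,
    max 64 (max t₁ (max t₂ t₃)), hC₀pos, by positivity, le_max_left _ _, ?_⟩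
  intro κ α T w P hT₀ hα1 hα2 hw hP
  have hT64 : 64 ≤ T := (le_max_left _ _).trans hT₀
  have hTt : max t₁ (max t₂ t₃) ≤ T := (le_max_right _ _).trans hT₀
  have hT1 := ht₁ T ((le_max_left _ _).trans hTt)
  have hT2 := ht₂ T (((le_max_left _ _).trans (le_max_right _ _)).trans hTt)
  have hT3 := ht₃ T (((le_max_right _ _).trans (le_max_right _ _)).trans hTt)
  have hT0 : 0 < T := by linarith
  have hTone : 1 ≤ T := by linarith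
  have hL1 : 1 ≤ lg T := one_le_lg hTone
  have hL0 : 0 < lg T := by linarith
  have hU : 1 ≤ T / 4 := by linarith
  have hLC₀ : 1 ≤ lg T ^ C₀ := Real.one_le_rpow hL1 hC₀pos.le
  -- the heights
  have hn1 : 1 ≤ n1 m T := by
    unfold n1
    exact Real.one_le_rpow hTone (dd_pos m).le
  have hn12 : n1 m T ≤ n2 C₀ T := by
    unfold n1 n2
    rw [le_div_iff₀ (by positivity)]
    have h1 : T ^ dd m * T ^ dd m ≤ T ^ (1 / 2 : ℝ) := by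
      rw [← Real.rpow_add hT0]
      exact Real.rpow_le_rpow_of_exponent_le hTone (by linarith [dd_le m])
    have h2 : (4 : ℝ) ≤ T ^ (1 / 2 : ℝ) := by
      calc (4 : ℝ) = (16 : ℝ) ^ (1 / 2 : ℝ) := by
            rw [show (16 : ℝ) = 4 ^ (2 : ℝ) by norm_num, ← Real.rpow_mul (by norm_num)]
            norm_num
        _ ≤ T ^ (1 / 2 : ℝ) := Real.rpow_le_rpow (by norm_num) (by linarith) (by norm_num)
    have h3 : T ^ (1 / 2 : ℝ) * T ^ (1 / 2 : ℝ) = T := by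
      rw [← Real.rpow_add hT0]
      norm_num
    have h4 : 0 ≤ T ^ dd m := by positivity
    calc T ^ dd m * (4 * lg T ^ C₀) ≤ T ^ dd m * (4 * T ^ dd m) := by gcongr
      _ = 4 * (T ^ dd m * T ^ dd m) := by ring
      _ ≤ T ^ (1 / 2 : ℝ) * T ^ (1 / 2 : ℝ) := by gcongr
      _ = T := h3
  have hn2U : n2 C₀ T ≤ T / 4 := by
    unfold n2
    apply div_le_div_of_nonneg_left hT0.le (by norm_num)
    linarith
  have hn2U2 : n2 C₀ T ≤ (T / 4) ^ 2 := by nlinarith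
  have hn20 : 0 ≤ n2 C₀ T := by linarith
  refine ⟨⟨hn1, hn12, hn2U2⟩, ?_⟩
  -- the cut-offs
  have hLC₁ : 1 ≤ lg T ^ C₁ := Real.one_le_rpow hL1 hC₁
  have hΛ1 : 1 ≤ Cr * lg T ^ C₁ := by nlinarith
  have hcut : ∀ j : Fin (m + 2), Cut (T / 4) (Cr * lg T ^ C₁) (cc (T / 4) α w j) := by
    intro j
    refine Fin.cases ?_ (fun j' => ?_) j
    · rw [cc_zero]
      refine cut_mono (by linarith) (wn_cut hTone (by linarith) hw hα1 hα2) ?_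
      nlinarith
    · rw [cc_succ]
      refine cut_mono (by linarith) (hrho (T / 4) hU) ?_
      nlinarith
  have hsupp : ∀ (j : Fin (m + 2)) (y : ℝ), y ∉ Set.Icc (T / 4) (16 * (T / 4)) →
      cc (T / 4) α w j y = 0 := fun j y hy => cc_supp hTone hw hα1 hα2 j y hy
  have hZc : ∀ j, Continuous (ZP (T / 4) α (n1 m T) (n2 C₀ T) w P j) := fun j =>
    ct_cont (by linarith) (cc_cont hTone hw j) (hsupp j) (bf_contOn _ _ _ _)
  have hZs : ∀ j, ∀ y, y ∉ Set.Icc (T / 4) (16 * (T / 4)) →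
      ZP (T / 4) α (n1 m T) (n2 C₀ T) w P j y = 0 := fun j y hy => ct_supp (hsupp j) _ y hy
  have hG0 : 0 ≤ K * T * lg T ^ 5 := by positivity
  have hZn : ∀ j, nm (ZP (T / 4) α (n1 m T) (n2 C₀ T) w P j) ≤
      ENNReal.ofReal (K * T * lg T ^ 5) := fun j =>
    hnorm T _ _ _ _ _ (by linarith) (hcut j) hn1 hn12 hn2U
  have hTp : 0 ≤ T ^ (m + 2) := by positivity
  have hLp : 0 ≤ lg T ^ (-B) := by positivity
  rcases bad_cases hP with ⟨r, hr⟩ | ⟨r, hr⟩ | ⟨i, r, hir, hi, hr⟩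
  · refine (hmid κ α T (Cr * lg T ^ C₁) (n1 m T) (n2 C₀ T) (K * T * lg T ^ 5) (cc (T / 4) α w r) _ r
      (by linarith) hΛ1 (hcut r) hn1 hn2U hn20 hG0 (fun j _ => hZc j) (fun j _ => hZs j)
      (fun j _ => hZn j) (by unfold ZP; rw [hr]; rfl)).trans (ENNReal.ofReal_le_ofReal ?_)
    have h1 : 1 / n1 m T ≤ lg T ^ (-C₀) := by
      rw [Real.rpow_neg hL0.le, ← one_div]
      exact one_div_le_one_div_of_le (by positivity) hT1
    have h2 : n2 C₀ T / T ≤ lg T ^ (-C₀) := by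
      unfold n2
      rw [Real.rpow_neg hL0.le, ← one_div, div_div, div_le_div_iff₀ (by positivity) (by positivity)]
      nlinarith [mul_nonneg hT0.le (by linarith : (0 : ℝ) ≤ lg T ^ C₀)]
    refine (num_mid (B := B) hTone hL1 hCm hCr hK (by rw [hC₀]; ring) (by positivity)
      (div_nonneg hn20 hT0.le) h1 h2).trans ?_
    refine mul_le_mul_of_nonneg_right (mul_le_mul_of_nonneg_right ?_ hTp) hLp
    have g1 : 0 ≤ Ca * Ce * K ^ (m + 1) := by positivity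
    have g2 : 0 ≤ Cx * Cr ^ 4 * K ^ m * 2 := by positivity
    linarith
  · have h1 : ∫⁻ h in Dm ν κ α T, ‖LL ν κ α (ZP (T / 4) α (n1 m T) (n2 C₀ T) w P) h‖ₑ ^ 2 ≤
        ENNReal.ofReal Ca * ∏ j, nm (ZP (T / 4) α (n1 m T) (n2 C₀ T) w P j) := by
      refine le_trans ?_ (habs κ α _ fun j => (hZc j).measurable)
      refine le_trans (lintegral_mono fun h => ?_) (setLIntegral_le_lintegral _ _)
      exact pow_le_pow_left' (enorm_LL_le ν κ α _ h) 2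
    refine h1.trans ?_
    have h2 : ∏ j, nm (ZP (T / 4) α (n1 m T) (n2 C₀ T) w P j) ≤
        ENNReal.ofReal (Ce * (T / 4) ^ (1 / 4 : ℝ)) * ENNReal.ofReal (K * T * lg T ^ 5) ^ (m + 1) := by
      rw [← Finset.mul_prod_erase Finset.univ _ (Finset.mem_univ r)]
      refine mul_le_mul' ?_ ?_
      · have h3 : ZP (T / 4) α (n1 m T) (n2 C₀ T) w P r = ct (cc (T / 4) α w r) (er (T / 4)) := by
          unfold ZP
          rw [hr]
          rfl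
        rw [h3]
        exact her _ _ _ hU (hcut r)
      · have h4 : ∏ j ∈ Finset.univ.erase r, nm (ZP (T / 4) α (n1 m T) (n2 C₀ T) w P j) ≤
            ∏ j ∈ Finset.univ.erase r, ENNReal.ofReal (K * T * lg T ^ 5) :=
          Finset.prod_le_prod' fun j _ => hZn j
        rw [Finset.prod_const, Finset.card_erase_of_mem (Finset.mem_univ r), Finset.card_univ,
          Fintype.card_fin] at h4
        exact h4
    refine (mul_le_mul_right h2 _).trans ?_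
    rw [← ENNReal.ofReal_pow hG0, ← ENNReal.ofReal_mul (by positivity), ← ENNReal.ofReal_mul hCa.le]
    refine ENNReal.ofReal_le_ofReal ((num_er (B := B) hTone hL1 hCa hCe hK hT2).trans ?_)
    refine mul_le_mul_of_nonneg_right (mul_le_mul_of_nonneg_right ?_ hTp) hLp
    have g1 : 0 ≤ Cm * Cr ^ 2 * K ^ (m + 1) * 2 := by positivity
    have g2 : 0 ≤ Cx * Cr ^ 4 * K ^ m * 2 := by positivity
    linarith
  · refine (hmix κ α T (Cr * lg T ^ C₁) (n1 m T) (n2 C₀ T) ((T / 4) ^ 2) (K * T * lg T ^ 5)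
      (cc (T / 4) α w i) (cc (T / 4) α w r) _ i r (by linarith) hΛ1 (hcut i) (hcut r) hn1
      (hn1.trans hn12) (by nlinarith) hG0 hir (fun j _ _ => hZc j) (fun j _ _ => hZs j)
      (fun j _ _ => hZn j) (by unfold ZP; rw [hi]; rfl) (by unfold ZP; rw [hr]; rfl)).trans
      (ENNReal.ofReal_le_ofReal ?_)
    refine (num_mix (d := dd m) (B := B) hTone hL1 hCx hCr hK (dd_le m) hT3).trans ?_
    refine mul_le_mul_of_nonneg_right (mul_le_mul_of_nonneg_right ?_ hTp) hLp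
    have g1 : 0 ≤ Cm * Cr ^ 2 * K ^ (m + 1) * 2 := by positivity
    have g2 : 0 ≤ Ca * Ce * K ^ (m + 1) := by positivity
    linarith

end Pool.Agent.P07318o
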