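import Pool.Agent.Lib.P07318o.Wdefs

/-!
# From smooth windows to all sharp windows

PROOF. `Δ = T/n`, `n ≥ 16`. Let `V ∈ [0, T]`, `i = min(⌊V/Δ⌋, n-1)`, so `iΔ ≤ V ≤ (i+1)Δ`, `i + 1 ≤ n`. `w⁺ = win Δ 0 ((i+1)Δ)`: `1` on `[0, V]`, support in `[-Δ, (i+2)Δ] ⊆ [-T/8, 9T/8]`; `w⁻ = win Δ Δ (iΔ - Δ)`: support in `[0, iΔ] ⊆ [0, V]`, `1` on `[Δ, (i-1)Δ]`, `0 ≤ w^± ≤ 1` (`win_one`, `win_zero`).
`F ≥ 0` gives `∫ w⁻ F ≤ ∫_0^V F ≤ ∫ w⁺ F`. `|∫ w^± D - ∫_0^V D| ≤ M · (measure where w^± ≠ 1_[0,V]) ≤ 4 Δ M`. Hence with `Err`: `Re ∫_0^V D - 4ΔM - Err ≤ ∫_0^V F ≤ Re ∫_0^V D + 4ΔM + Err` and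
`|Im ∫_0^V D| ≤ |Im ∫ w⁺ D| + 4ΔM = |Im ∫ w⁺ (F - D)| + 4ΔM ≤ Err + 4ΔM`. So `‖∫_0^V (F - D)‖ ≤ |Re| + |Im| ≤ 2 Err + 8 Δ M`. `D` is continuous on `[-T/8, 9T/8]`, so everything is integrable (`w^±` vanish outside).
-/

set_option autoImplicit false

namespace Pool.Agent.P07318o

open MeasureTheory Complex Pool.Agent.P07318s Pool.Agent.P07318f Pool.Agent.P07318h

namespace BetweenAux

theorem win_cont (Δ a b : ℝ) : Continuous (win Δ a b) := by
  unfold win
  exact (Real.smoothTransition.continuous.comp (by fun_prop)).mul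
    (Real.smoothTransition.continuous.comp (by fun_prop))

theorem int_ind (a b : ℝ) (h : a ≤ b) :
    Integrable ((Set.Icc a b).indicator (fun _ : ℝ => (1 : ℝ))) ∧
      ∫ t, (Set.Icc a b).indicator (fun _ : ℝ => (1 : ℝ)) t = b - a := by
  constructor
  · rw [integrable_indicator_iff measurableSet_Icc]
    exact integrableOn_const (by simp)
  · rw [integral_indicator measurableSet_Icc, setIntegral_const, smul_eq_mul, mul_one,
      measureReal_def, Real.volume_Icc, ENNReal.toReal_ofReal (by linarith)]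

theorem est {D : ℝ → ℂ} {A B M a₁ b₁ a₂ b₂ : ℝ} {s : Set ℝ} {w : ℝ → ℝ} (hM : 0 ≤ M)
    (hD : ContinuousOn D (Set.Icc A B)) (hDM : ∀ t ∈ Set.Icc A B, ‖D t‖ ≤ M) (hw : Continuous w)
    (hs : MeasurableSet s) (hsI : s ⊆ Set.Icc A B) (h₁ : a₁ ≤ b₁) (h₂ : a₂ ≤ b₂)
    (hws : ∀ t, |w t - s.indicator (fun _ => (1 : ℝ)) t| ≤
      (Set.Icc a₁ b₁).indicator (fun _ => (1 : ℝ)) t +
        (Set.Icc a₂ b₂).indicator (fun _ => (1 : ℝ)) t) :
    ‖(∫ t in Set.Icc A B, (w t : ℂ) * D t) - ∫ t in s, D t‖ ≤ M * ((b₁ - a₁) + (b₂ - a₂)) := by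
  have hDi : IntegrableOn D (Set.Icc A B) := hD.integrableOn_compact isCompact_Icc
  have h3 : ∫ t in s, D t = ∫ t in Set.Icc A B, s.indicator D t := by
    rw [setIntegral_indicator hs, Set.inter_eq_right.2 hsI]
  have hwc : ContinuousOn (fun t => (w t : ℂ) * D t) (Set.Icc A B) :=
    (continuous_ofReal.comp hw).continuousOn.mul hD
  rw [h3, ← integral_sub (hwc.integrableOn_compact isCompact_Icc) (hDi.indicator hs)]
  obtain ⟨i1, e1⟩ := int_ind a₁ b₁ h₁
  obtain ⟨i2, e2⟩ := int_ind a₂ b₂ h₂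
  refine (norm_integral_le_integral_norm _).trans ?_
  have hg : Integrable (fun t => M * ((Set.Icc a₁ b₁).indicator (fun _ => (1 : ℝ)) t +
        (Set.Icc a₂ b₂).indicator (fun _ => (1 : ℝ)) t)) := (i1.add i2).const_mul M
  have h4 : ∫ t in Set.Icc A B, ‖(w t : ℂ) * D t - s.indicator D t‖ ≤
      ∫ t in Set.Icc A B, M * ((Set.Icc a₁ b₁).indicator (fun _ => (1 : ℝ)) t +
        (Set.Icc a₂ b₂).indicator (fun _ => (1 : ℝ)) t) := by
    refine setIntegral_mono_on
      ((hwc.integrableOn_compact isCompact_Icc).sub (hDi.indicator hs)).norm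
      hg.integrableOn measurableSet_Icc fun t ht => ?_
    have h5 : (w t : ℂ) * D t - s.indicator D t =
        ((w t - s.indicator (fun _ => (1 : ℝ)) t : ℝ) : ℂ) * D t := by
      by_cases h : t ∈ s
      · rw [Set.indicator_of_mem h, Set.indicator_of_mem h]; push_cast; ring
      · rw [Set.indicator_of_notMem h, Set.indicator_of_notMem h]; push_cast; ring
    rw [h5, norm_mul, norm_real, Real.norm_eq_abs, mul_comm]
    exact mul_le_mul (hDM t ht) (hws t) (abs_nonneg _) hM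
  refine h4.trans ((setIntegral_le_integral hg ?_).trans (le_of_eq ?_))
  · refine Filter.Eventually.of_forall fun t => ?_
    exact mul_nonneg hM (add_nonneg (Set.indicator_nonneg (fun _ _ => zero_le_one) _)
      (Set.indicator_nonneg (fun _ _ => zero_le_one) _))
  · rw [integral_const_mul, integral_add i1 i2, e1, e2]

theorem split {F : ℝ → ℝ} {D : ℝ → ℂ} {A B : ℝ} {w : ℝ → ℝ} (hF : Continuous F)
    (hD : ContinuousOn D (Set.Icc A B)) (hw : Continuous w) (hw0 : ∀ t, t ∉ Set.Icc A B → w t = 0) :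
    ∫ t, (w t : ℂ) * ((F t : ℂ) - D t) =
      ((∫ t in Set.Icc A B, w t * F t : ℝ) : ℂ) - ∫ t in Set.Icc A B, (w t : ℂ) * D t := by
  have h1 : ∫ t, (w t : ℂ) * ((F t : ℂ) - D t) =
      ∫ t in Set.Icc A B, (w t : ℂ) * ((F t : ℂ) - D t) := by
    symm
    apply setIntegral_eq_integral_of_forall_compl_eq_zero
    intro t ht
    rw [hw0 t ht]; simp
  have hwD : ContinuousOn (fun t => (w t : ℂ) * D t) (Set.Icc A B) :=
    (continuous_ofReal.comp hw).continuousOn.mul hD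
  have hwF : Continuous (fun t => ((w t * F t : ℝ) : ℂ)) :=
    continuous_ofReal.comp (hw.mul hF)
  rw [h1, ← integral_complex_ofReal, ← integral_sub
    (hwF.continuousOn.integrableOn_compact isCompact_Icc) (hwD.integrableOn_compact isCompact_Icc)]
  apply setIntegral_congr_fun measurableSet_Icc
  intro t _
  push_cast
  ring

end BetweenAux

open BetweenAux

theorem between {F : ℝ → ℝ} {D : ℝ → ℂ} {T M Err : ℝ} {n : ℕ} (hT : 1 ≤ T) (hn : 16 ≤ n) (hF : Continuous F) (hF0 : ∀ t, 0 ≤ F t)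
    (hD : ContinuousOn D (Set.Icc (-(T / 8)) (9 * T / 8))) (hDM : ∀ t ∈ Set.Icc (-(T / 8)) (9 * T / 8), ‖D t‖ ≤ M)
    (h1 : ∀ i : ℕ, i ≤ n → ‖∫ t, (win (T / n) 0 (i * (T / n)) t : ℂ) * ((F t : ℂ) - D t)‖ ≤ Err)
    (h2 : ∀ i : ℕ, i ≤ n → ‖∫ t, (win (T / n) (T / n) (i * (T / n) - T / n) t : ℂ) * ((F t : ℂ) - D t)‖ ≤ Err)
    (V : ℝ) (hV : V ∈ Set.Icc 0 T) :
    ‖∫ t in (0:ℝ)..V, ((F t : ℂ) - D t)‖ ≤ 2 * Err + 8 * (T / n) * M := by
  have hn0 : (0 : ℝ) < n := by
    have : 0 < n := by omega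
    exact_mod_cast this
  have hn16 : (16 : ℝ) ≤ n := by exact_mod_cast hn
  obtain ⟨Δ, hΔ⟩ : ∃ Δ, Δ = T / n := ⟨_, rfl⟩
  have hΔ0 : 0 < Δ := by rw [hΔ]; positivity
  have hnΔ : n * Δ = T := by rw [hΔ]; field_simp
  have hΔ16 : 16 * Δ ≤ T := by rw [← hnΔ]; exact mul_le_mul_of_nonneg_right hn16 hΔ0.le
  rw [← hΔ] at h1 h2 ⊢
  have hM : 0 ≤ M := (norm_nonneg _).trans (hDM 0 ⟨by linarith, by linarith⟩)
  obtain ⟨hV0, hVT⟩ := hV
  -- the index
  obtain ⟨i, hi1, hi2, hi3⟩ : ∃ i : ℕ, i + 1 ≤ n ∧ (i : ℝ) * Δ ≤ V ∧ V ≤ (i + 1) * Δ := by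
    by_cases h : V = T
    · refine ⟨n - 1, by omega, ?_, ?_⟩
      · rw [h, ← hnΔ]
        apply mul_le_mul_of_nonneg_right _ hΔ0.le
        exact_mod_cast Nat.sub_le n 1
      · rw [h, ← hnΔ]
        apply mul_le_mul_of_nonneg_right _ hΔ0.le
        have : n = (n - 1) + 1 := by omega
        exact_mod_cast this.le
    · have hlt : V < T := lt_of_le_of_ne hVT h
      refine ⟨⌊V / Δ⌋₊, ?_, ?_, ?_⟩
      · have h3 : V / Δ < n := by rw [div_lt_iff₀ hΔ0, hnΔ]; exact hlt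
        exact (Nat.floor_lt (by positivity)).2 h3
      · have := Nat.floor_le (a := V / Δ) (by positivity)
        rwa [le_div_iff₀ hΔ0] at this
      · have := (Nat.lt_floor_add_one (V / Δ)).le
        rwa [div_le_iff₀ hΔ0] at this
  have hi1' : ((i : ℝ) + 1) ≤ n := by exact_mod_cast hi1
  have hiΔ : ((i : ℝ) + 1) * Δ ≤ T := by
    rw [← hnΔ]; exact mul_le_mul_of_nonneg_right hi1' hΔ0.le
  have hi0 : (0 : ℝ) ≤ i := Nat.cast_nonneg i
  have hiΔ0 : 0 ≤ (i : ℝ) * Δ := by positivity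
  have hexp : ((i : ℝ) + 1) * Δ = i * Δ + Δ := by ring
  -- the two windows
  obtain ⟨wp, hwp⟩ : ∃ wp, wp = win Δ 0 (((i + 1 : ℕ) : ℝ) * Δ) := ⟨_, rfl⟩
  obtain ⟨wm, hwm⟩ : ∃ wm, wm = win Δ Δ ((i : ℝ) * Δ - Δ) := ⟨_, rfl⟩
  have hcast : ((i + 1 : ℕ) : ℝ) * Δ = i * Δ + Δ := by push_cast; ring
  have hA := h1 (i + 1) hi1
  have hB := h2 i (by omega)
  rw [← hwp] at hA
  rw [← hwm] at hB
  have cp : Continuous wp := by rw [hwp]; exact win_cont _ _ _
  have cm : Continuous wm := by rw [hwm]; exact win_cont _ _ _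
  have p0 : ∀ t, 0 ≤ wp t := fun t => by rw [hwp]; exact win_nonneg _ _ _ _
  have m0 : ∀ t, 0 ≤ wm t := fun t => by rw [hwm]; exact win_nonneg _ _ _ _
  have p1 : ∀ t, wp t ≤ 1 := fun t => by rw [hwp]; exact win_le_one _ _ _ _
  have m1 : ∀ t, wm t ≤ 1 := fun t => by rw [hwm]; exact win_le_one _ _ _ _
  have pone : ∀ t, 0 ≤ t → t ≤ i * Δ + Δ → wp t = 1 := by
    intro t h3 h4
    rw [hwp]; exact win_one hΔ0 h3 (by rw [hcast]; exact h4)
  have pzero : ∀ t, t ∉ Set.Icc (-Δ) (i * Δ + 2 * Δ) → wp t = 0 := by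
    intro t ht
    rw [hwp]
    apply win_zero hΔ0
    intro h
    apply ht
    rw [hcast] at h
    exact ⟨by linarith [h.1], by linarith [h.2]⟩
  have mone : ∀ t, Δ ≤ t → t ≤ i * Δ - Δ → wm t = 1 := by
    intro t h3 h4
    rw [hwm]; exact win_one hΔ0 h3 h4
  have mzero : ∀ t, t ∉ Set.Icc 0 (i * Δ) → wm t = 0 := by
    intro t ht
    rw [hwm]
    apply win_zero hΔ0
    intro h
    apply ht
    exact ⟨by linarith [h.1], by linarith [h.2]⟩
  have hsI : Set.Ioc 0 V ⊆ Set.Icc (-(T / 8)) (9 * T / 8) := fun t ht =>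
    ⟨by linarith [ht.1], by linarith [ht.2]⟩
  have ind01 : ∀ (a b t : ℝ), 0 ≤ (Set.Icc a b).indicator (fun _ : ℝ => (1 : ℝ)) t := fun a b t =>
    Set.indicator_nonneg (fun _ _ => zero_le_one) _
  -- comparison of the integrals of `D`
  have ep := est (w := wp) (a₁ := -Δ) (b₁ := 0) (a₂ := V) (b₂ := i * Δ + 2 * Δ) hM hD hDM cp
    measurableSet_Ioc hsI (by linarith) (by linarith) (by
      intro t
      by_cases h3 : t ∈ Set.Ioc 0 V
      · rw [Set.indicator_of_mem h3, pone t h3.1.le (by linarith [h3.2]), sub_self, abs_zero]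
        exact add_nonneg (ind01 _ _ _) (ind01 _ _ _)
      · rw [Set.indicator_of_notMem h3, sub_zero, abs_of_nonneg (p0 t)]
        by_cases h4 : t ∈ Set.Icc (-Δ) 0
        · rw [Set.indicator_of_mem h4]
          linarith [p1 t, ind01 V (i * Δ + 2 * Δ) t]
        · by_cases h5 : t ∈ Set.Icc V (i * Δ + 2 * Δ)
          · rw [Set.indicator_of_mem h5]
            linarith [p1 t, ind01 (-Δ) 0 t]
          · rw [pzero t]
            · exact add_nonneg (ind01 _ _ _) (ind01 _ _ _)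
            · intro h6
              rcases le_or_gt t 0 with h7 | h7
              · exact h4 ⟨h6.1, h7⟩
              · rcases le_or_gt t V with h8 | h8
                · exact h3 ⟨h7, h8⟩
                · exact h5 ⟨h8.le, h6.2⟩)
  have em := est (w := wm) (a₁ := 0) (b₁ := Δ) (a₂ := i * Δ - Δ) (b₂ := V) hM hD hDM cm
    measurableSet_Ioc hsI (by linarith) (by linarith) (by
      intro t
      by_cases h3 : t ∈ Set.Ioc 0 V
      · rw [Set.indicator_of_mem h3]
        by_cases h4 : t ∈ Set.Icc 0 Δ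
        · rw [Set.indicator_of_mem h4, abs_sub_comm, abs_of_nonneg (by linarith [m1 t])]
          linarith [m0 t, ind01 (i * Δ - Δ) V t]
        · by_cases h5 : t ∈ Set.Icc (i * Δ - Δ) V
          · rw [Set.indicator_of_mem h5, abs_sub_comm, abs_of_nonneg (by linarith [m1 t])]
            linarith [m0 t, ind01 0 Δ t]
          · rw [mone t, sub_self, abs_zero]
            · exact add_nonneg (ind01 _ _ _) (ind01 _ _ _)
            · by_contra h6
              exact h4 ⟨h3.1.le, (not_le.1 h6).le⟩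
            · by_contra h6
              exact h5 ⟨(not_le.1 h6).le, h3.2⟩
      · rw [Set.indicator_of_notMem h3, sub_zero, abs_of_nonneg (m0 t)]
        by_cases h4 : t ∈ Set.Icc 0 (i * Δ)
        · have h5 : t ∈ Set.Icc 0 Δ := by
            refine ⟨h4.1, ?_⟩
            by_contra h6
            exact h3 ⟨by linarith, by linarith [h4.2]⟩
          rw [Set.indicator_of_mem h5]
          linarith [m1 t, ind01 (i * Δ - Δ) V t]
        · rw [mzero t h4]
          exact add_nonneg (ind01 _ _ _) (ind01 _ _ _))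
  -- comparison of the integrals of `F`
  have hFp : ∫ t in Set.Ioc 0 V, F t ≤ ∫ t in Set.Icc (-(T / 8)) (9 * T / 8), wp t * F t := by
    have h3 : ∫ t in Set.Ioc 0 V, F t = ∫ t in Set.Ioc 0 V, wp t * F t := by
      apply setIntegral_congr_fun measurableSet_Ioc
      intro t ht
      show F t = wp t * F t
      rw [pone t ht.1.le (by linarith [ht.2]), one_mul]
    rw [h3]
    apply setIntegral_mono_set ((cp.mul hF).continuousOn.integrableOn_compact isCompact_Icc)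
    · exact Filter.Eventually.of_forall fun t => mul_nonneg (p0 t) (hF0 t)
    · exact hsI.eventuallyLE
  have hFm : ∫ t in Set.Icc (-(T / 8)) (9 * T / 8), wm t * F t ≤ ∫ t in Set.Ioc 0 V, F t := by
    have h3 : ∫ t in Set.Icc (-(T / 8)) (9 * T / 8), wm t * F t =
        ∫ t in Set.Icc 0 V, wm t * F t := by
      apply setIntegral_eq_of_subset_of_forall_diff_eq_zero measurableSet_Icc
      · exact fun t ht => ⟨by linarith [ht.1], by linarith [ht.2]⟩
      · intro t ht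
        rw [mzero t, zero_mul]
        intro h4
        exact ht.2 ⟨h4.1, by linarith [h4.2]⟩
    rw [h3, integral_Icc_eq_integral_Ioc]
    apply setIntegral_mono_on
      (((cm.mul hF).continuousOn.integrableOn_compact isCompact_Icc).mono_set Set.Ioc_subset_Icc_self)
      ((hF.continuousOn.integrableOn_compact isCompact_Icc).mono_set Set.Ioc_subset_Icc_self)
      measurableSet_Ioc
    intro t _
    exact mul_le_of_le_one_left (hF0 t) (m1 t)
  rw [split hF hD cp (fun t ht => pzero t fun h => ht ⟨by linarith [h.1], by linarith [h.2]⟩)] at hA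
  rw [split hF hD cm (fun t ht => mzero t fun h => ht ⟨by linarith [h.1], by linarith [h.2]⟩)] at hB
  -- conclusion
  have hfin : ∫ t in (0:ℝ)..V, ((F t : ℂ) - D t) =
      ((∫ t in Set.Ioc 0 V, F t : ℝ) : ℂ) - ∫ t in Set.Ioc 0 V, D t := by
    rw [intervalIntegral.integral_of_le hV0, ← integral_complex_ofReal, ← integral_sub]
    · exact ((continuous_ofReal.comp hF).continuousOn.integrableOn_compact isCompact_Icc).mono_set
        Set.Ioc_subset_Icc_self
    · exact (hD.integrableOn_compact isCompact_Icc).mono_set hsI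
  rw [hfin]
  generalize (∫ t in Set.Ioc 0 V, D t) = S at *
  generalize (∫ t in Set.Ioc 0 V, F t) = f at *
  generalize (∫ t in Set.Icc (-(T / 8)) (9 * T / 8), (wp t : ℂ) * D t) = Sp at *
  generalize (∫ t in Set.Icc (-(T / 8)) (9 * T / 8), (wm t : ℂ) * D t) = Sm at *
  generalize (∫ t in Set.Icc (-(T / 8)) (9 * T / 8), wp t * F t) = fp at *
  generalize (∫ t in Set.Icc (-(T / 8)) (9 * T / 8), wm t * F t) = fm at *
  have hb1 : M * (0 - -Δ + (i * Δ + 2 * Δ - V)) ≤ 4 * Δ * M := by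
    have : (0 - -Δ + (i * Δ + 2 * Δ - V)) ≤ 4 * Δ := by linarith
    calc M * (0 - -Δ + (i * Δ + 2 * Δ - V)) ≤ M * (4 * Δ) := mul_le_mul_of_nonneg_left this hM
      _ = 4 * Δ * M := by ring
  have hb2 : M * (Δ - 0 + (V - (i * Δ - Δ))) ≤ 4 * Δ * M := by
    have : (Δ - 0 + (V - (i * Δ - Δ))) ≤ 4 * Δ := by linarith
    calc M * (Δ - 0 + (V - (i * Δ - Δ))) ≤ M * (4 * Δ) := mul_le_mul_of_nonneg_left this hM
      _ = 4 * Δ * M := by ring
  have r1 := (abs_re_le_norm _).trans (ep.trans hb1)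
  have r2 := (abs_re_le_norm _).trans (em.trans hb2)
  have r3 := (abs_im_le_norm _).trans (ep.trans hb1)
  have r4 := (abs_re_le_norm _).trans hA
  have r5 := (abs_re_le_norm _).trans hB
  have r6 := (abs_im_le_norm _).trans hA
  rw [sub_re] at r1 r2 r4 r5
  rw [sub_im] at r3 r6
  rw [ofReal_re] at r4 r5
  rw [ofReal_im] at r6
  rw [abs_le] at r1 r2 r3 r4 r5 r6
  have hre : |((f : ℂ) - S).re| ≤ Err + 4 * Δ * M := by
    rw [sub_re, ofReal_re, abs_le]
    constructor <;> linarith [r1.1, r1.2, r2.1, r2.2, r4.1, r4.2, r5.1, r5.2]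
  have him : |((f : ℂ) - S).im| ≤ Err + 4 * Δ * M := by
    rw [sub_im, ofReal_im, abs_le]
    constructor <;> linarith [r3.1, r3.2, r6.1, r6.2]
  have := norm_le_abs_re_add_abs_im ((f : ℂ) - S)
  linarith

end Pool.Agent.P07318o
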