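import Pool.Agent.Lib.P07318o.Defs

/-!
# Mean square over a box with a Gaussian kernel  (1.5 h)

PROOF. Adapt the proof of `box_ms` (P07318s/BoxMS.lean), with the weight `w α = ∏_j e · exp(-4 ((α_j - c_j)/H)²)`, `c_j = b_j + H/2`. For `α_j ∈ [b_j, b_j + H]`: `|α_j - c_j| ≤ H/2`, so every factor is
`≥ e · exp(-1) = 1`, `1 ≤ w α` on the box, hence the left hand side is `≤ ∫⁻_{ℝⁿ} ofReal (w α) ‖f α‖ₑ²`, `f α = ∑ Z_i cexp(..)`, bounded continuous. As in `box_ms`: `‖f α‖² = ∑_{(i, i')} F (i,i') α` (absolutely convergent,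
`‖F (i,i') α‖ = ‖Z i‖ ‖Z i'‖`), `w` is integrable, so `∫ w ‖f‖² = ∑_{(i,i')} ∫ w F` (`integral_tsum` / `hasSum_integral_of_summable_integral_norm`), and
`‖∫ w(α) cexp(-i ∑ α_j d_j) dα‖ = ∏_j e ‖∫ exp(-4((x - c_j)/H)²) cexp(-i x d_j) dx‖ = ∏_j e (H/2) √π exp(-(H d_j)²/16) ≤ ∏_j 3 H exp(-(H d_j)²/16)`, `d_j = ω i j - ω i' j`
(`integral_fintype_prod_eq_prod`; `fourierIntegral_gaussian`-type lemma, e.g. `integral_cexp_quadratic` or `fourierIntegral_gaussian`; the computation is also in `GMeanAux` of P07318h/GMean.lean;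
`e √π / 2 ≤ 3`). The last step from real integrals to `∫⁻`: `∫⁻ ofReal (w ‖f‖²) = ofReal (∫ w ‖f‖²)` (integrable, nonnegative).
-/

set_option autoImplicit false

namespace Pool.Agent.P07318o

open MeasureTheory Complex Pool.Agent.P07318s Pool.Agent.P07318f Pool.Agent.P07318h

namespace GaussMSAux

/-- the weight in one variable -/
noncomputable def g1 (c H x : ℝ) : ℝ := Real.exp 1 * Real.exp (-4 * ((x - c) / H) ^ 2)

lemma g1_pos (c H x : ℝ) : 0 < g1 c H x := mul_pos (Real.exp_pos _) (Real.exp_pos _)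

lemma one_le_g1 {c H x : ℝ} (hH : 0 < H) (hx : |x - c| ≤ H / 2) : 1 ≤ g1 c H x := by
  unfold g1
  rw [← Real.exp_add]
  apply Real.one_le_exp
  have h1 : ((x - c) / H) ^ 2 ≤ (1 / 2) ^ 2 := by
    rw [sq_le_sq, abs_div, abs_of_pos hH, abs_of_pos (by norm_num : (0 : ℝ) < 1 / 2), div_le_iff₀ hH]
    linarith
  nlinarith

lemma g1_int (c : ℝ) {H : ℝ} (hH : 0 < H) : Integrable (g1 c H) := by
  have h := (integrable_exp_neg_mul_sq (b := 4 / H ^ 2) (by positivity)).comp_sub_right c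
  refine (h.const_mul (Real.exp 1)).congr (Filter.Eventually.of_forall fun x => ?_)
  unfold g1
  simp only
  congr 2
  field_simp

lemma g1_cont (c H : ℝ) : Continuous (g1 c H) := by
  unfold g1
  fun_prop

/-- the Gaussian integral -/
lemma gauss_four {L : ℝ} (hL : 0 < L) (l : ℝ) :
    ∫ u : ℝ, cexp (((-(u * l) : ℝ) : ℂ) * I) * ((Real.exp (-(u ^ 2 / (2 * L ^ 2))) : ℝ) : ℂ) =
      ((Real.sqrt (2 * Real.pi) * L * Real.exp (-(L ^ 2 * l ^ 2 / 2)) : ℝ) : ℂ) := by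
  have hb : 0 < (((1 / (2 * L ^ 2) : ℝ)) : ℂ).re := by
    rw [Complex.ofReal_re]
    positivity
  have h := fourierIntegral_gaussian hb (-(l : ℂ))
  have e1 : ∀ u : ℝ, cexp (((-(u * l) : ℝ) : ℂ) * I) *
      ((Real.exp (-(u ^ 2 / (2 * L ^ 2))) : ℝ) : ℂ) =
      cexp (I * (-(l : ℂ)) * u) * cexp (-(((1 / (2 * L ^ 2) : ℝ)) : ℂ) * (u : ℂ) ^ 2) := by
    intro u
    rw [Complex.ofReal_exp]
    congr 2
    · push_cast; ring
    · push_cast; ring
  simp_rw [e1]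
  rw [h]
  have e2 : ((Real.pi : ℂ) / (((1 / (2 * L ^ 2) : ℝ)) : ℂ)) ^ (1 / 2 : ℂ) =
      ((Real.sqrt (2 * Real.pi) * L : ℝ) : ℂ) := by
    rw [← Complex.ofReal_div]
    rw [show (1 / 2 : ℂ) = ((1 / 2 : ℝ) : ℂ) by push_cast; ring]
    rw [← Complex.ofReal_cpow (by positivity)]
    congr 1
    rw [← Real.sqrt_eq_rpow]
    have e3 : Real.pi / (1 / (2 * L ^ 2)) = (2 * Real.pi) * L ^ 2 := by
      field_simp
    rw [e3, Real.sqrt_mul (by positivity), Real.sqrt_sq hL.le]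
  rw [e2]
  push_cast
  congr 1
  congr 1
  have hL' : (L : ℂ) ≠ 0 := by exact_mod_cast hL.ne'
  field_simp
  ring

lemma g1_four (c : ℝ) {H : ℝ} (hH : 0 < H) (d : ℝ) :
    ‖∫ x, ((g1 c H x : ℝ) : ℂ) * cexp (((-(x * d) : ℝ) : ℂ) * I)‖ ≤
      3 * H * Real.exp (-(H * d) ^ 2 / 16) := by
  have hL : 0 < H / Real.sqrt 8 := by positivity
  have hL2 : (H / Real.sqrt 8) ^ 2 = H ^ 2 / 8 := by
    rw [div_pow, Real.sq_sqrt (by norm_num)]
  have h1 := integral_add_right_eq_self (μ := volume)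
    (fun x => ((g1 c H x : ℝ) : ℂ) * cexp (((-(x * d) : ℝ) : ℂ) * I)) c
  rw [← h1]
  have e1 : ∀ u : ℝ, ((g1 c H (u + c) : ℝ) : ℂ) * cexp (((-((u + c) * d) : ℝ) : ℂ) * I) =
      (((Real.exp 1 : ℝ) : ℂ) * cexp (((-(c * d) : ℝ) : ℂ) * I)) *
      (cexp (((-(u * d) : ℝ) : ℂ) * I) * ((Real.exp (-(u ^ 2 / (2 * (H / Real.sqrt 8) ^ 2))) : ℝ) : ℂ)) := by
    intro u
    unfold g1
    rw [hL2]
    have e2 : -4 * ((u + c - c) / H) ^ 2 = -(u ^ 2 / (2 * (H ^ 2 / 8))) := by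
      field_simp
      ring
    rw [e2]
    have e3 : cexp (((-((u + c) * d) : ℝ) : ℂ) * I) =
        cexp (((-(c * d) : ℝ) : ℂ) * I) * cexp (((-(u * d) : ℝ) : ℂ) * I) := by
      rw [← Complex.exp_add]
      congr 1
      push_cast
      ring
    rw [e3, Complex.ofReal_mul]
    ring
  simp_rw [e1]
  rw [integral_const_mul, gauss_four hL, norm_mul, norm_mul, Complex.norm_exp_ofReal_mul_I, Complex.norm_real,
    Complex.norm_real, Real.norm_of_nonneg (Real.exp_pos 1).le, Real.norm_of_nonneg (by positivity), hL2, mul_one]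
  have e4 : Real.exp (-(H ^ 2 / 8 * d ^ 2 / 2)) = Real.exp (-(H * d) ^ 2 / 16) := by
    congr 1
    ring
  rw [e4, ← mul_assoc, ← mul_assoc]
  refine mul_le_mul_of_nonneg_right ?_ (Real.exp_pos _).le
  have h2 : Real.sqrt (2 * Real.pi) * (H / Real.sqrt 8) = Real.sqrt Real.pi / 2 * H := by
    have h3 : Real.sqrt 8 = 2 * Real.sqrt 2 := by
      rw [show (8 : ℝ) = 2 ^ 2 * 2 by norm_num, Real.sqrt_mul (by norm_num), Real.sqrt_sq (by norm_num)]
    rw [h3, Real.sqrt_mul (by norm_num)]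
    have h4 : Real.sqrt 2 ≠ 0 := by positivity
    field_simp
  rw [mul_assoc, h2, ← mul_assoc]
  refine mul_le_mul_of_nonneg_right ?_ hH.le
  have h5 : Real.exp 1 < 2.7182818286 := Real.exp_one_lt_d9
  have h6 : Real.sqrt Real.pi ≤ 1.8 := by
    rw [Real.sqrt_le_left (by norm_num)]
    have := Real.pi_lt_d2
    norm_num at this ⊢
    linarith
  have h7 : 0 ≤ Real.sqrt Real.pi := Real.sqrt_nonneg _
  have h8 := (Real.exp_pos 1).le
  nlinarith

/-- the weight -/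
noncomputable def wt {n : ℕ} (c : Fin n → ℝ) (H : ℝ) (α : Fin n → ℝ) : ℝ := ∏ j, g1 (c j) H (α j)

lemma wt_nonneg {n : ℕ} (c : Fin n → ℝ) (H : ℝ) (α : Fin n → ℝ) : 0 ≤ wt c H α :=
  Finset.prod_nonneg fun _ _ => (g1_pos _ _ _).le

lemma wt_cont {n : ℕ} (c : Fin n → ℝ) (H : ℝ) : Continuous (wt c H) := by
  unfold wt
  exact continuous_finsetProd _ fun j _ => (g1_cont _ _).comp (continuous_apply j)

lemma wt_int {n : ℕ} (c : Fin n → ℝ) {H : ℝ} (hH : 0 < H) : Integrable (wt c H) := by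
  unfold wt
  exact Integrable.fintype_prod (f := fun (j : Fin n) (x : ℝ) => g1 (c j) H x) fun j => g1_int (c j) hH

lemma wt_four {n : ℕ} (c : Fin n → ℝ) {H : ℝ} (hH : 0 < H) (d : Fin n → ℝ) :
    ‖∫ α, ((wt c H α : ℝ) : ℂ) * cexp (((-(∑ j, α j * d j) : ℝ) : ℂ) * I)‖ ≤
      (3 * H) ^ n * ∏ j, Real.exp (-(H * d j) ^ 2 / 16) := by
  have e1 : ∀ α : Fin n → ℝ, ((wt c H α : ℝ) : ℂ) * cexp (((-(∑ j, α j * d j) : ℝ) : ℂ) * I) =
      ∏ j, (((g1 (c j) H (α j) : ℝ) : ℂ) * cexp (((-(α j * d j) : ℝ) : ℂ) * I)) := by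
    intro α
    rw [Finset.prod_mul_distrib, ← Complex.exp_sum, ← Finset.sum_mul]
    unfold wt
    rw [Complex.ofReal_prod]
    congr 3
    rw [← Finset.sum_neg_distrib]
    push_cast
    rfl
  simp_rw [e1]
  rw [volume_pi, integral_fintype_prod_eq_prod
    (fun (j : Fin n) (x : ℝ) => ((g1 (c j) H x : ℝ) : ℂ) * cexp (((-(x * d j) : ℝ) : ℂ) * I)), norm_prod]
  calc ∏ j, ‖∫ x, ((g1 (c j) H x : ℝ) : ℂ) * cexp (((-(x * d j) : ℝ) : ℂ) * I)‖
      ≤ ∏ j, (3 * H * Real.exp (-(H * d j) ^ 2 / 16)) :=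
        Finset.prod_le_prod (fun j _ => norm_nonneg _) fun j _ => g1_four (c j) hH (d j)
    _ = _ := by
        rw [Finset.prod_mul_distrib, Finset.prod_const, Finset.card_univ, Fintype.card_fin]

theorem enorm_ofReal_nonneg {r : ℝ} (hr : 0 ≤ r) : ‖(r : ℂ)‖ₑ = ENNReal.ofReal r := by
  rw [← ofReal_norm, Complex.norm_real, Real.norm_of_nonneg hr]

end GaussMSAux

open GaussMSAux

theorem gauss_ms {ι : Type*} [Countable ι] {n : ℕ} (Z : ι → ℂ) (hZ : Summable fun i => ‖Z i‖)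
    (ω : ι → Fin n → ℝ) (b : Fin n → ℝ) {H : ℝ} (hH : 0 < H) :
    ∫⁻ α in Set.Icc b (fun j => b j + H),
        ‖∑' i, Z i * cexp (((-(∑ j, α j * ω i j) : ℝ) : ℂ) * I)‖ₑ ^ 2 ≤
      ENNReal.ofReal ((3 * H) ^ n) * ∑' i, ∑' i', ‖Z i‖ₑ * ‖Z i'‖ₑ *
        ∏ j, ENNReal.ofReal (Real.exp (-(H * (ω i j - ω i' j)) ^ 2 / 16)) := by
  set K : Set (Fin n → ℝ) := Set.Icc b (fun j => b j + H) with hK
  set c : Fin n → ℝ := fun j => b j + H / 2 with hc
  set w : (Fin n → ℝ) → ℝ := wt c H with hw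
  have hw0 : ∀ α, 0 ≤ w α := wt_nonneg c H
  have hwc : Continuous w := wt_cont c H
  have hwi : Integrable w := wt_int c hH
  have hw1 : ∀ α ∈ K, 1 ≤ w α := by
    intro α hα
    rw [hw]
    unfold wt
    have h3 : ∀ j, 1 ≤ g1 (c j) H (α j) := by
      intro j
      refine one_le_g1 hH ?_
      have h1 := hα.1 j
      have h2 := hα.2 j
      simp only at h2
      rw [hc, abs_le]
      constructor <;> simp only <;> linarith
    calc (1 : ℝ) = ∏ _j : Fin n, (1 : ℝ) := by rw [Finset.prod_const_one]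
      _ ≤ ∏ j, g1 (c j) H (α j) := Finset.prod_le_prod (fun _ _ => zero_le_one) fun j _ => h3 j
  set f : (Fin n → ℝ) → ℂ := fun α => ∑' i, Z i * cexp (((-(∑ j, α j * ω i j) : ℝ) : ℂ) * I) with hf
  set F : ι × ι → (Fin n → ℝ) → ℂ := fun x α => (Z x.1 * (starRingEnd ℂ) (Z x.2)) *
    cexp (((-(∑ j, α j * (ω x.1 j - ω x.2 j)) : ℝ) : ℂ) * I) with hF
  have hnorm : ∀ (i : ι) (α : Fin n → ℝ), ‖Z i * cexp (((-(∑ j, α j * ω i j) : ℝ) : ℂ) * I)‖ = ‖Z i‖ := by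
    intro i α
    rw [norm_mul, Complex.norm_exp_ofReal_mul_I, mul_one]
  have hFnorm : ∀ (x : ι × ι) (α : Fin n → ℝ), ‖F x α‖ = ‖Z x.1‖ * ‖Z x.2‖ := by
    intro x α
    simp only [hF]
    rw [norm_mul, Complex.norm_exp_ofReal_mul_I, mul_one, norm_mul, RCLike.norm_conj]
  have hprod : Summable (fun x : ι × ι => ‖Z x.1‖ * ‖Z x.2‖) :=
    hZ.mul_of_nonneg hZ (fun _ => norm_nonneg _) (fun _ => norm_nonneg _)
  have hfcont : Continuous f := by
    refine continuous_tsum (u := fun i => ‖Z i‖) (fun i => ?_) hZ (fun i α => (hnorm i α).le)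
    fun_prop
  have hs : ∀ α, HasSum (fun i => Z i * cexp (((-(∑ j, α j * ω i j) : ℝ) : ℂ) * I)) (f α) := by
    intro α
    exact (Summable.of_norm (by simpa only [hnorm] using hZ)).hasSum
  have hpt : ∀ α, HasSum (fun x => F x α) (((‖f α‖ ^ 2 : ℝ)) : ℂ) := by
    intro α
    have h1 := hs α
    have h2 := h1.star
    have h3 : Summable (fun x : ι × ι => (Z x.1 * cexp (((-(∑ j, α j * ω x.1 j) : ℝ) : ℂ) * I)) *
        star (Z x.2 * cexp (((-(∑ j, α j * ω x.2 j) : ℝ) : ℂ) * I))) := by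
      refine Summable.of_norm_bounded hprod fun x => ?_
      rw [norm_mul, norm_star, hnorm, hnorm]
    have h4 := h1.mul h2 h3
    have e1 : f α * star (f α) = (((‖f α‖ ^ 2 : ℝ)) : ℂ) := by
      have := Complex.mul_conj (f α)
      rw [Complex.normSq_eq_norm_sq] at this
      exact this
    rw [e1] at h4
    have e2 : (fun x : ι × ι => (Z x.1 * cexp (((-(∑ j, α j * ω x.1 j) : ℝ) : ℂ) * I)) *
        star (Z x.2 * cexp (((-(∑ j, α j * ω x.2 j) : ℝ) : ℂ) * I))) = fun x => F x α := by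
      funext x
      simp only [hF]
      have e3 : star (Z x.2 * cexp (((-(∑ j, α j * ω x.2 j) : ℝ) : ℂ) * I)) =
          (starRingEnd ℂ) (Z x.2) * cexp (((∑ j, α j * ω x.2 j : ℝ) : ℂ) * I) := by
        change (starRingEnd ℂ) _ = _
        rw [map_mul, ← Complex.exp_conj, map_mul, Complex.conj_ofReal, Complex.conj_I]
        congr 2
        push_cast
        ring
      rw [e3]
      have e4 : cexp (((-(∑ j, α j * (ω x.1 j - ω x.2 j)) : ℝ) : ℂ) * I) =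
          cexp (((-(∑ j, α j * ω x.1 j) : ℝ) : ℂ) * I) * cexp (((∑ j, α j * ω x.2 j : ℝ) : ℂ) * I) := by
        rw [← Complex.exp_add, ← add_mul]
        congr 2
        have : (∑ j, α j * (ω x.1 j - ω x.2 j)) = (∑ j, α j * ω x.1 j) - ∑ j, α j * ω x.2 j := by
          rw [← Finset.sum_sub_distrib]
          exact Finset.sum_congr rfl fun j _ => by ring
        rw [this]
        push_cast
        ring
      rw [e4]
      ring
    rw [e2] at h4
    exact h4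
  have hwpt : ∀ α, HasSum (fun x => ((w α : ℝ) : ℂ) * F x α) (((w α * ‖f α‖ ^ 2 : ℝ)) : ℂ) := by
    intro α
    rw [Complex.ofReal_mul]
    exact (hpt α).mul_left _
  have hwFnorm : ∀ (x : ι × ι) (α : Fin n → ℝ), ‖((w α : ℝ) : ℂ) * F x α‖ = w α * (‖Z x.1‖ * ‖Z x.2‖) := by
    intro x α
    rw [norm_mul, hFnorm, Complex.norm_real, Real.norm_of_nonneg (hw0 α)]
  have hFint : ∀ x, Integrable (fun α => ((w α : ℝ) : ℂ) * F x α) := by
    intro x
    have hc' : Continuous (F x) := by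
      simp only [hF]
      fun_prop
    refine Integrable.mono' (hwi.mul_const (‖Z x.1‖ * ‖Z x.2‖))
      (((Complex.continuous_ofReal.comp hwc).mul hc').aestronglyMeasurable) ?_
    exact Filter.Eventually.of_forall fun α => (hwFnorm x α).le
  have hFsum : Summable (fun x => ∫ α, ‖((w α : ℝ) : ℂ) * F x α‖) := by
    simp only [hwFnorm, integral_mul_const]
    exact hprod.mul_left _
  have hint := hasSum_integral_of_summable_integral_norm hFint hFsum
  have e5 : (∫ α, (∑' x, ((w α : ℝ) : ℂ) * F x α)) = (((∫ α, w α * ‖f α‖ ^ 2) : ℝ) : ℂ) := by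
    have e8 : (∫ α, ((w α * ‖f α‖ ^ 2 : ℝ) : ℂ)) = (((∫ α, w α * ‖f α‖ ^ 2) : ℝ) : ℂ) := integral_ofReal
    rw [← e8]
    refine integral_congr_ae (Filter.Eventually.of_forall fun α => ?_)
    exact (hwpt α).tsum_eq
  rw [e5] at hint
  have hwf0 : ∀ α, 0 ≤ w α * ‖f α‖ ^ 2 := fun α => mul_nonneg (hw0 α) (by positivity)
  have hnn : 0 ≤ ∫ α, w α * ‖f α‖ ^ 2 := integral_nonneg hwf0
  have hfint : Integrable (fun α => w α * ‖f α‖ ^ 2) := by
    refine Integrable.mono' (hwi.mul_const ((∑' i, ‖Z i‖) ^ 2))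
      ((hwc.mul (hfcont.norm.pow 2)).aestronglyMeasurable) ?_
    refine Filter.Eventually.of_forall fun α => ?_
    rw [Real.norm_of_nonneg (hwf0 α)]
    refine mul_le_mul_of_nonneg_left (pow_le_pow_left₀ (norm_nonneg _) ?_ 2) (hw0 α)
    refine (norm_tsum_le_tsum_norm (by simpa only [hnorm] using hZ)).trans (le_of_eq ?_)
    exact tsum_congr fun i => hnorm i α
  calc ∫⁻ α in K, ‖f α‖ₑ ^ 2
      ≤ ∫⁻ α in K, ENNReal.ofReal (w α * ‖f α‖ ^ 2) := by
        refine setLIntegral_mono' measurableSet_Icc fun α hα => ?_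
        rw [← ofReal_norm, ← ENNReal.ofReal_pow (norm_nonneg _)]
        exact ENNReal.ofReal_le_ofReal (le_mul_of_one_le_left (by positivity) (hw1 α hα))
    _ ≤ ∫⁻ α, ENNReal.ofReal (w α * ‖f α‖ ^ 2) := setLIntegral_le_lintegral _ _
    _ = ENNReal.ofReal (∫ α, w α * ‖f α‖ ^ 2) :=
        (ofReal_integral_eq_lintegral_ofReal hfint (Filter.Eventually.of_forall hwf0)).symm
    _ = ‖∑' x, ∫ α, ((w α : ℝ) : ℂ) * F x α‖ₑ := by
        rw [hint.tsum_eq, enorm_ofReal_nonneg hnn]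
    _ ≤ ∑' x, ‖∫ α, ((w α : ℝ) : ℂ) * F x α‖ₑ := enorm_tsum_le_tsum_enorm
    _ ≤ ∑' x : ι × ι, ENNReal.ofReal ((3 * H) ^ n) * (‖Z x.1‖ₑ * ‖Z x.2‖ₑ *
          ∏ j, ENNReal.ofReal (Real.exp (-(H * (ω x.1 j - ω x.2 j)) ^ 2 / 16))) := by
        refine ENNReal.tsum_le_tsum fun x => ?_
        have e6 : ∫ α, ((w α : ℝ) : ℂ) * F x α = (Z x.1 * (starRingEnd ℂ) (Z x.2)) *
            ∫ α, ((w α : ℝ) : ℂ) * cexp (((-(∑ j, α j * (ω x.1 j - ω x.2 j)) : ℝ) : ℂ) * I) := by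
          rw [← integral_const_mul]
          refine integral_congr_ae (Filter.Eventually.of_forall fun α => ?_)
          simp only [hF]
          ring
        rw [e6, enorm_mul, enorm_mul]
        have e7 : ‖(starRingEnd ℂ) (Z x.2)‖ₑ = ‖Z x.2‖ₑ := by
          rw [← ofReal_norm, ← ofReal_norm, RCLike.norm_conj]
        rw [e7, mul_left_comm]
        gcongr
        rw [← ENNReal.ofReal_prod_of_nonneg (fun j _ => (Real.exp_pos _).le), ← ENNReal.ofReal_mul (by positivity),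
          ← ofReal_norm]
        exact ENNReal.ofReal_le_ofReal (wt_four c hH (fun j => ω x.1 j - ω x.2 j))
    _ = ENNReal.ofReal ((3 * H) ^ n) * ∑' i, ∑' i', ‖Z i‖ₑ * ‖Z i'‖ₑ *
          ∏ j, ENNReal.ofReal (Real.exp (-(H * (ω i j - ω i' j)) ^ 2 / 16)) := by
        rw [ENNReal.tsum_mul_left]
        congr 1
        exact ENNReal.tsum_prod' (f := fun x : ι × ι =>
          ‖Z x.1‖ₑ * ‖Z x.2‖ₑ * ∏ j, ENNReal.ofReal (Real.exp (-(H * (ω x.1 j - ω x.2 j)) ^ 2 / 16)))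

end Pool.Agent.P07318o
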