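import Pool.Agent.Lib.P07318o.DefsM
import Pool.Agent.Lib.P07318o.GaussMS
import Pool.Agent.Lib.P07318o.BSum
import Pool.Agent.Lib.P07318s.MeanF
import Pool.Agent.Lib.P07318s.KapSum
import Pool.Agent.Lib.P07318s.PiSum

/-!
# Mean square of a diagonal sum over the hyperplane  (1.5 h)

PROOF. `C` from `b_sum`. `Z : (Fin (m+2) → Q) → ℂ`, `Z q = if Bgy Y q then (∏_j a_j (q_j)) · cexp(-i Θ(q)) else 0`, where for `x_j = t + xs ν κ α h j` and `l_j = lq q j`: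
`∑_j x_j l_j = t ∑_j l_j + α l_0 + ∑_{j : Fin m} h_j l_{j.succ.castSucc} + (κ + ν_0 α + ∑_{j : Fin m} ν_{j.succ} h_j) l_last = Θ(q) + ∑_{j : Fin m} h_j ω_j(q)`, with
`Θ(q) = t ∑ l_j + α l_0 + (κ + ν_0 α) l_last` and `ω_j(q) = l_{j.succ.castSucc} + ν_{j.succ} l_last` (`xs_zero`, `xs_succ`, `xs_last`, `lst`, `Fin.sum_univ_castSucc`, `Fin.sum_univ_succ`; `prod_ex` of P07318s/MeanF.lean: `∏ ex (x j) (q j) = cexp(-i ∑ x_j l_j)`).
So `SY Y a (fun j => t + xs ν κ α h j) = ∑' q, Z q * cexp(-i ∑_j h_j ω_j(q))`, `‖Z q‖ ≤ ∏ A_j ww(q_j)` if `Bgy Y q`, `0` otherwise; summable: `∑_q ∏_j ww(q_j)` converges (`summable_pi_prod_real`; `∑_q ww(q) < ∞`: see `ww_summable`-type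
lemma in P07318s/KapSum.lean or P07318f/LargeS.lean, or `ww ≤ (U/h)^2 h^(-1/2)·.. `: for `h > U` `ww = U² h^(-5/2)`, and finitely many `h ≤ U`).
`Dm ν κ α T ⊆ Icc (fun _ => T) (fun _ => T + T)` (coordinates `j.succ.castSucc`), `gauss_ms` with `H = T`, `b = fun _ => T`: the integral is `≤ ofReal ((3T)^m) ∑_q ∑_p ‖Z q‖ₑ ‖Z p‖ₑ ∏_{j : Fin m} ofReal (exp(-(T (ω_j(q) - ω_j(p)))²/16))`, and
`ω_j(q) - ω_j(p) = frq ν q p j.succ`, `T ≥ U` (so `exp(-(T x)²/16) ≤ exp(-(U x)²/16)`). Hence `≤ (3T)^m (∏ A_j)² C U^(3(m+2)δ) Y^(-1/2)` (`ENNReal.tsum_comm` to match the order of `b_sum`), `U ≤ T`, `U^(..) ≤ T^(..)`.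
-/

set_option autoImplicit false

namespace Pool.Agent.P07318o

open MeasureTheory Complex Pool.Agent.P07318s Pool.Agent.P07318f Pool.Agent.P07318h

namespace CoreMSAux

/-- the constant phase of a tuple -/
noncomputable def th {m : ℕ} (ν : Fin (m + 1) → ℝ) (κ α t : ℝ) (q : Fin (m + 2) → Q) : ℝ :=
  t * (∑ j, lq q j) + α * lq q (Fin.castSucc 0) + (κ + ν 0 * α) * lq q (Fin.last (m + 1))

/-- the frequencies of a tuple -/
noncomputable def om {m : ℕ} (ν : Fin (m + 1) → ℝ) (q : Fin (m + 2) → Q) (j : Fin m) : ℝ :=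
  lq q j.succ.castSucc + ν j.succ * lq q (Fin.last (m + 1))

lemma phase {m : ℕ} (ν : Fin (m + 1) → ℝ) (κ α t : ℝ) (q : Fin (m + 2) → Q) (h : Fin m → ℝ) :
    ∑ j, (t + xs ν κ α h j) * lgr (q j).1 = th ν κ α t q + ∑ j, h j * om ν q j := by
  have h1 : ∑ j, (t + xs ν κ α h j) * lgr (q j).1 = t * (∑ j, lq q j) + ∑ j, xs ν κ α h j * lq q j := by
    rw [Finset.mul_sum, ← Finset.sum_add_distrib]
    refine Finset.sum_congr rfl fun j _ => ?_
    show (t + xs ν κ α h j) * lq q j = _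
    ring
  rw [h1, Fin.sum_univ_castSucc (f := fun j => xs ν κ α h j * lq q j), xs_last,
    Fin.sum_univ_succ (f := fun i : Fin (m + 1) => xs ν κ α h i.castSucc * lq q i.castSucc), Fin.castSucc_zero,
    xs_zero]
  have h2 : ∑ j : Fin m, xs ν κ α h j.succ.castSucc * lq q j.succ.castSucc =
      ∑ j : Fin m, h j * lq q j.succ.castSucc := by
    refine Finset.sum_congr rfl fun j _ => ?_
    rw [xs_succ]
  rw [h2]
  unfold lst th om
  rw [Fin.sum_univ_succ (f := fun j => ν j * (Fin.cons α h : Fin (m + 1) → ℝ) j)]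
  simp only [Fin.cons_zero, Fin.cons_succ, Fin.castSucc_zero, mul_add, Finset.sum_add_distrib]
  have h3 : ∑ x : Fin m, h x * (ν x.succ * lq q (Fin.last (m + 1))) =
      (∑ i : Fin m, ν i.succ * h i) * lq q (Fin.last (m + 1)) := by
    rw [Finset.sum_mul]
    refine Finset.sum_congr rfl fun j _ => ?_
    ring
  rw [h3]
  ring

open Classical in
/-- the coefficients -/
noncomputable def zc {m : ℕ} (ν : Fin (m + 1) → ℝ) (κ α t Y : ℝ) (a : Fin (m + 2) → Q → ℂ) (q : Fin (m + 2) → Q) : ℂ :=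
  if Bgy Y q then (∏ j, a j (q j)) * cexp (((-(th ν κ α t q) : ℝ) : ℂ) * I) else 0

lemma sy_eq {m : ℕ} (ν : Fin (m + 1) → ℝ) (κ α t Y : ℝ) (a : Fin (m + 2) → Q → ℂ) (h : Fin m → ℝ) :
    SY Y a (fun j => t + xs ν κ α h j) =
      ∑' q, zc ν κ α t Y a q * cexp (((-(∑ j, h j * om ν q j) : ℝ) : ℂ) * I) := by
  classical
  unfold SY zc
  refine tsum_congr fun q => ?_
  split_ifs with hb
  · rw [Finset.prod_mul_distrib, MeanFAux.prod_ex, phase, mul_assoc, ← Complex.exp_add]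
    congr 2
    push_cast
    ring
  · simp

lemma zc_norm {m : ℕ} (ν : Fin (m + 1) → ℝ) (κ α t Y : ℝ) {δ U : ℝ} (a : Fin (m + 2) → Q → ℂ) (A : Fin (m + 2) → ℝ)
    (ha : ∀ j q, ‖a j q‖ ≤ A j * ww δ U q) (q : Fin (m + 2) → Q) (hb : Bgy Y q) :
    ‖zc ν κ α t Y a q‖ ≤ (∏ j, A j) * ∏ j, ww δ U (q j) := by
  classical
  unfold zc
  rw [if_pos hb, norm_mul, Complex.norm_exp_ofReal_mul_I, mul_one, norm_prod, ← Finset.prod_mul_distrib]
  exact Finset.prod_le_prod (fun j _ => norm_nonneg _) fun j _ => ha j (q j)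

lemma zc_zero {m : ℕ} (ν : Fin (m + 1) → ℝ) (κ α t Y : ℝ) (a : Fin (m + 2) → Q → ℂ) (q : Fin (m + 2) → Q)
    (hb : ¬ Bgy Y q) : zc ν κ α t Y a q = 0 := by
  classical
  unfold zc
  rw [if_neg hb]

lemma zc_summable {m : ℕ} (ν : Fin (m + 1) → ℝ) (κ α t Y : ℝ) {δ U : ℝ} (hδ : 0 < δ) (hδ2 : δ ≤ 1 / 2) (hU : 1 ≤ U)
    (a : Fin (m + 2) → Q → ℂ) (A : Fin (m + 2) → ℝ) (hA : ∀ j, 0 ≤ A j)
    (ha : ∀ j q, ‖a j q‖ ≤ A j * ww δ U q) : Summable fun q => ‖zc ν κ α t Y a q‖ := by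
  have hw := summable_pi_prod_real (k := m + 2) (fun _ q => ww δ U q) (fun _ => ww_summable hδ hδ2 hU)
    (fun _ q => ww_nonneg (by linarith) q)
  refine Summable.of_nonneg_of_le (fun q => norm_nonneg _) (fun q => ?_) (hw.mul_left (∏ j, A j))
  by_cases hb : Bgy Y q
  · exact zc_norm ν κ α t Y a A ha q hb
  · rw [zc_zero ν κ α t Y a q hb, norm_zero]
    exact mul_nonneg (Finset.prod_nonneg fun j _ => hA j) (Finset.prod_nonneg fun j _ => ww_nonneg (by linarith) _)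

lemma om_sub {m : ℕ} (ν : Fin (m + 1) → ℝ) (q p : Fin (m + 2) → Q) (j : Fin m) :
    om ν q j - om ν p j = frq ν q p j.succ := by
  unfold om frq
  ring

lemma dm_sub {m : ℕ} (ν : Fin (m + 1) → ℝ) (κ α T : ℝ) :
    Dm ν κ α T ⊆ Set.Icc (fun _ : Fin m => T) (fun j : Fin m => (fun _ : Fin m => T) j + T) := by
  intro h hh
  refine ⟨fun j => ?_, fun j => ?_⟩
  · have := (hh j.succ.castSucc).1
    rw [xs_succ] at this
    exact this
  · have := (hh j.succ.castSucc).2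
    rw [xs_succ] at this
    show h j ≤ T + T
    linarith

end CoreMSAux

open CoreMSAux in
theorem core_ms {m : ℕ} (hm : 1 ≤ m) (ν : Fin (m + 1) → ℝ) (hν : Adm ν) (δ : ℝ) (hδ : 0 < δ) (hδ2 : δ ≤ 1 / 2) :
    ∃ C : ℝ, 0 < C ∧ ∀ (κ α T U Y t : ℝ) (a : Fin (m + 2) → Q → ℂ) (A : Fin (m + 2) → ℝ), 1 ≤ U → U ≤ T → 1 ≤ Y →
    (∀ j, 0 ≤ A j) → (∀ j q, ‖a j q‖ ≤ A j * ww δ U q) →
    ∫⁻ h in Dm ν κ α T, ‖SY Y a (fun j => t + xs ν κ α h j)‖ₑ ^ 2 ≤
      ENNReal.ofReal (C * (∏ j, A j) ^ 2 * T ^ ((m : ℝ) + 3 * (m + 2) * δ) * Y ^ (-(1 / 2) : ℝ)) := by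
  classical
  obtain ⟨C, hC, hB⟩ := b_sum hm ν hν δ hδ hδ2
  refine ⟨3 ^ m * C, by positivity, ?_⟩
  intro κ α T U Y t a A hU hUT hY hA ha
  have hT : 0 < T := by linarith
  have hU0 : 0 < U := by linarith
  simp_rw [sy_eq]
  refine (lintegral_mono_set (dm_sub ν κ α T)).trans ?_
  refine (gauss_ms (zc ν κ α t Y a) (zc_summable ν κ α t Y hδ hδ2 hU a A hA ha) (om ν) (fun _ => T) hT).trans ?_
  have hA0 : 0 ≤ ∏ j, A j := Finset.prod_nonneg fun j _ => hA j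
  have hterm : ∀ p q : Fin (m + 2) → Q, ‖zc ν κ α t Y a p‖ₑ * ‖zc ν κ α t Y a q‖ₑ *
      ∏ j, ENNReal.ofReal (Real.exp (-(T * (om ν p j - om ν q j)) ^ 2 / 16)) ≤
      ENNReal.ofReal ((∏ j, A j) ^ 2) *
      (if Bgy Y p ∧ Bgy Y q then ENNReal.ofReal ((∏ j, ww δ U (p j)) * (∏ j, ww δ U (q j)) *
        ∏ j : Fin m, Real.exp (-(U * frq ν q p j.succ) ^ 2 / 16)) else 0) := by
    intro p q
    by_cases hb : Bgy Y p ∧ Bgy Y q
    · rw [if_pos hb, ← ENNReal.ofReal_prod_of_nonneg (fun j _ => (Real.exp_pos _).le), ← ofReal_norm, ← ofReal_norm,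
        ← ENNReal.ofReal_mul (norm_nonneg _), ← ENNReal.ofReal_mul (by positivity),
        ← ENNReal.ofReal_mul (by positivity)]
      refine ENNReal.ofReal_le_ofReal ?_
      have h1 := zc_norm ν κ α t Y a A ha p hb.1
      have h2 := zc_norm ν κ α t Y a A ha q hb.2
      have h0 : 0 ≤ ∏ j, ww δ U (p j) := Finset.prod_nonneg fun j _ => ww_nonneg (by linarith) _
      have h0' : 0 ≤ ∏ j, ww δ U (q j) := Finset.prod_nonneg fun j _ => ww_nonneg (by linarith) _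
      have h3 : ∏ j : Fin m, Real.exp (-(T * (om ν p j - om ν q j)) ^ 2 / 16) ≤
          ∏ j : Fin m, Real.exp (-(U * frq ν q p j.succ) ^ 2 / 16) := by
        refine Finset.prod_le_prod (fun j _ => (Real.exp_pos _).le) fun j _ => ?_
        refine Real.exp_le_exp.2 ?_
        have e : om ν p j - om ν q j = -frq ν q p j.succ := by
          rw [← om_sub]
          ring
        rw [e]
        have e2 : (U * frq ν q p j.succ) ^ 2 ≤ (T * -frq ν q p j.succ) ^ 2 := by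
          rw [mul_pow, mul_pow, neg_sq]
          exact mul_le_mul_of_nonneg_right (pow_le_pow_left₀ hU0.le hUT 2) (sq_nonneg _)
        linarith
      calc ‖zc ν κ α t Y a p‖ * ‖zc ν κ α t Y a q‖ *
            ∏ j : Fin m, Real.exp (-(T * (om ν p j - om ν q j)) ^ 2 / 16)
          ≤ (((∏ j, A j) * ∏ j, ww δ U (p j)) * ((∏ j, A j) * ∏ j, ww δ U (q j))) *
            ∏ j : Fin m, Real.exp (-(U * frq ν q p j.succ) ^ 2 / 16) := by
            refine mul_le_mul (mul_le_mul h1 h2 (norm_nonneg _) (mul_nonneg hA0 h0)) h3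
              (Finset.prod_nonneg fun j _ => (Real.exp_pos _).le) (mul_nonneg (mul_nonneg hA0 h0) (mul_nonneg hA0 h0'))
        _ = _ := by ring
    · rw [if_neg hb]
      rw [not_and_or] at hb
      rcases hb with hb | hb
      · rw [zc_zero ν κ α t Y a p hb]
        simp
      · rw [zc_zero ν κ α t Y a q hb]
        simp
  have hsum : ∑' p, ∑' q, ‖zc ν κ α t Y a p‖ₑ * ‖zc ν κ α t Y a q‖ₑ *
      ∏ j, ENNReal.ofReal (Real.exp (-(T * (om ν p j - om ν q j)) ^ 2 / 16)) ≤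
      ENNReal.ofReal ((∏ j, A j) ^ 2) * ENNReal.ofReal (C * U ^ (3 * (m + 2) * δ) * Y ^ (-(1 / 2) : ℝ)) := by
    refine (ENNReal.tsum_le_tsum fun p => ENNReal.tsum_le_tsum fun q => hterm p q).trans ?_
    simp_rw [ENNReal.tsum_mul_left]
    exact mul_le_mul_right (hB U Y hU hY) _
  refine (mul_le_mul_right hsum _).trans ?_
  rw [← ENNReal.ofReal_mul (by positivity), ← ENNReal.ofReal_mul (by positivity)]
  refine ENNReal.ofReal_le_ofReal ?_
  have hY0 : 0 ≤ Y ^ (-(1 / 2) : ℝ) := Real.rpow_nonneg (by linarith) _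
  have hm0 : (0 : ℝ) ≤ m := Nat.cast_nonneg m
  have hTU : U ^ (3 * ((m : ℝ) + 2) * δ) ≤ T ^ (3 * ((m : ℝ) + 2) * δ) :=
    Real.rpow_le_rpow hU0.le hUT (by positivity)
  rw [Real.rpow_add hT, Real.rpow_natCast, mul_pow]
  calc (3 : ℝ) ^ m * T ^ m * ((∏ j, A j) ^ 2 * (C * U ^ (3 * ((m : ℝ) + 2) * δ) * Y ^ (-(1 / 2) : ℝ)))
      = (3 ^ m * T ^ m * (∏ j, A j) ^ 2 * C * Y ^ (-(1 / 2) : ℝ)) * U ^ (3 * ((m : ℝ) + 2) * δ) := by ring
    _ ≤ (3 ^ m * T ^ m * (∏ j, A j) ^ 2 * C * Y ^ (-(1 / 2) : ℝ)) * T ^ (3 * ((m : ℝ) + 2) * δ) :=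
        mul_le_mul_of_nonneg_left hTU (by positivity)
    _ = _ := by ring

end Pool.Agent.P07318o
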