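import Pool.Agent.Lib.P07318h.Defs

/-!
Shifted moments of the Riemann zeta function: shift vectors on a hyperplane (`k - 2` free parameters), definitions.

`m` free shifts, `k = m + 2` slots: slot `0` has the fixed shift `α`, the slots `1, …, m` the free shifts `h`, the last slot the shift
`κ + ∑ ν_j x_j` (`j ≤ m`), all `ν_j ≠ 0`, `∑ ν_j = 1`.
-/

set_option autoImplicit false

namespace Pool.Agent.P07318o

open MeasureTheory Complex Pool.Agent.P07318s Pool.Agent.P07318f Pool.Agent.P07318h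

/-- the last shift -/
noncomputable def lst {m : ℕ} (ν : Fin (m + 1) → ℝ) (κ α : ℝ) (h : Fin m → ℝ) : ℝ :=
  κ + ∑ j, ν j * (Fin.cons α h : Fin (m + 1) → ℝ) j

/-- all shifts -/
noncomputable def xs {m : ℕ} (ν : Fin (m + 1) → ℝ) (κ α : ℝ) (h : Fin m → ℝ) : Fin (m + 2) → ℝ :=
  Fin.snoc (α := fun _ => ℝ) (Fin.cons α h : Fin (m + 1) → ℝ) (lst ν κ α h)

/-- admissible coefficients of the linear relation -/
def Adm {m : ℕ} (ν : Fin (m + 1) → ℝ) : Prop := (∀ j, ν j ≠ 0) ∧ ∑ j, ν j = 1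

/-- the multilinear form -/
noncomputable def LL {m : ℕ} (ν : Fin (m + 1) → ℝ) (κ α : ℝ) (Z : Fin (m + 2) → ℝ → ℂ) (h : Fin m → ℝ) : ℂ :=
  ∫ t, ∏ j, Z j (t + xs ν κ α h j)

/-- the multilinear form with absolute values -/
noncomputable def LA {m : ℕ} (ν : Fin (m + 1) → ℝ) (κ α : ℝ) (Z : Fin (m + 2) → ℝ → ℂ) (h : Fin m → ℝ) : ENNReal :=
  ∫⁻ t, ∏ j, ‖Z j (t + xs ν κ α h j)‖ₑ

/-- square of the `L²` norm -/
noncomputable def nm (Y : ℝ → ℂ) : ENNReal := ∫⁻ y, ‖Y y‖ₑ ^ 2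

/-- autocorrelation -/
noncomputable def ac (Y : ℝ → ℂ) (τ : ℝ) : ℂ := ∫ y, Y y * (starRingEnd ℂ) (Y (y + τ))

/-- eighth power of the `U³` norm -/
noncomputable def U3 (Y : ℝ → ℂ) : ENNReal :=
  ∫⁻ τ, ∫⁻ z, ‖∫ y, Y y * (starRingEnd ℂ) (Y (y + τ)) * (starRingEnd ℂ) (Y (y + z)) * Y (y + τ + z)‖ₑ ^ 2

/-- the domain: all shifts in `[T, 2T]` -/
def Dm {m : ℕ} (ν : Fin (m + 1) → ℝ) (κ α T : ℝ) : Set (Fin m → ℝ) :=
  {h | ∀ j, xs ν κ α h j ∈ Set.Icc T (2 * T)}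

/-- a Gaussian times a trigonometric polynomial with rational frequencies -/
noncomputable def bk (U η : ℝ) (s : Finset Q) (c : Q → ℂ) (y : ℝ) : ℂ :=
  (Real.exp (-(y / U) ^ 2) : ℂ) * cexp (((η * y : ℝ) : ℂ) * I) * ∑ q ∈ s, c q * ex y q.1

/-- majorant of the coefficients, precise to powers of the logarithm -/
noncomputable def kl (U h : ℝ) : ℝ := if h ≤ U then 1 + Real.log (U / h) else (U / h) ^ 2

/-- smooth cut-off functions on `[U, 16 U]` -/
structure Cut (U Λ : ℝ) (c : ℝ → ℝ) : Prop where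
  smooth : ContDiff ℝ 2 c
  nonneg : ∀ y, 0 ≤ c y
  le_one : ∀ y, c y ≤ 1
  supp : ∀ y, y ∉ Set.Icc U (16 * U) → c y = 0
  d1 : ∀ y, |deriv c y| ≤ Λ / U
  d2 : ∀ y, |deriv (deriv c) y| ≤ Λ / U ^ 2

theorem finite_band (A B : ℝ) : {q : Q | A < hgt q.1 ∧ hgt q.1 ≤ B}.Finite := by
  have h1 : (Set.Iic (⌊B⌋₊) ×ˢ Set.Iic (⌊B⌋₊) : Set (ℕ × ℕ)).Finite := (Set.finite_Iic _).prod (Set.finite_Iic _)
  refine Set.Finite.of_finite_image (f := fun q : Q => ((q.1.1 : ℕ), (q.1.2 : ℕ))) (h1.subset ?_) ?_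
  · rintro _ ⟨q, ⟨_, hq⟩, rfl⟩
    unfold hgt at hq
    have ha : (1 : ℝ) ≤ ((q.1.1 : ℕ) : ℝ) := by exact_mod_cast q.1.1.2
    have hb : (1 : ℝ) ≤ ((q.1.2 : ℕ) : ℝ) := by exact_mod_cast q.1.2.2
    refine ⟨Nat.le_floor ?_, Nat.le_floor ?_⟩
    · nlinarith
    · nlinarith
  · intro q _ q' _ h
    simp only [Prod.mk.injEq] at h
    apply Subtype.ext
    apply Prod.ext
    · exact PNat.eq h.1
    · exact PNat.eq h.2

/-- the reduced fractions of height in `(A, B]` -/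
noncomputable def qs (A B : ℝ) : Finset Q := (finite_band A B).toFinset

lemma mem_qs {A B : ℝ} {q : Q} : q ∈ qs A B ↔ A < hgt q.1 ∧ hgt q.1 ≤ B := by
  unfold qs
  rw [Set.Finite.mem_toFinset]
  exact Iff.rfl

/-- one term of the series for `|ζ(1/2 + i y)|²` -/
noncomputable def tq (q : Q) (y : ℝ) : ℂ := (((hgt q.1) ^ (-(1 / 2) : ℝ) * Om (hgt q.1) y : ℝ) : ℂ) * ex y q.1

/-- the terms of height in `(A, B]` -/
noncomputable def bd (A B y : ℝ) : ℂ := ∑ q ∈ qs A B, tq q y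

/-- cut-off of a function -/
noncomputable def ct (c : ℝ → ℝ) (f : ℝ → ℂ) (y : ℝ) : ℂ := (c y : ℂ) * f y

/-- the remainder of the approximate functional equation -/
noncomputable def er (U y : ℝ) : ℂ := (gz y : ℂ) - bd 0 (U ^ 2) y

theorem fdSmall_eq (Y y : ℝ) : FdSmall Y y = bd 0 Y y := by
  classical
  unfold FdSmall bd
  rw [tsum_eq_sum (s := qs 0 Y)]
  · refine Finset.sum_congr rfl fun q hq => ?_
    rw [mem_qs] at hq
    rw [if_neg (not_lt.2 hq.2)]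
    rfl
  · intro q hq
    rw [mem_qs] at hq
    rw [if_pos]
    by_contra h
    exact hq ⟨hgt_pos q.1, not_lt.1 h⟩

theorem bd_add {A B C : ℝ} (h1 : A ≤ B) (h2 : B ≤ C) (y : ℝ) : bd A C y = bd A B y + bd B C y := by
  classical
  unfold bd
  rw [← Finset.sum_union]
  · congr 1
    ext q
    rw [Finset.mem_union, mem_qs, mem_qs, mem_qs]
    constructor
    · rintro ⟨h3, h4⟩
      by_cases h : hgt q.1 ≤ B
      · exact Or.inl ⟨h3, h⟩
      · exact Or.inr ⟨not_le.1 h, h4⟩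
    · rintro (⟨h3, h4⟩ | ⟨h3, h4⟩)
      · exact ⟨h3, h4.trans h2⟩
      · exact ⟨lt_of_le_of_lt h1 h3, h4⟩
  · rw [Finset.disjoint_left]
    intro q h3 h4
    rw [mem_qs] at h3 h4
    exact absurd h4.1 (not_lt.2 h3.2)

/-- the decomposition of `|ζ|²` -/
theorem gz_split {U A B : ℝ} (h0 : 0 ≤ A) (h1 : A ≤ B) (h2 : B ≤ U ^ 2) (y : ℝ) :
    (gz y : ℂ) = bd 0 A y + bd A B y + bd B (U ^ 2) y + er U y := by
  unfold er
  rw [bd_add (h0.trans h1) h2, bd_add h0 h1]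
  ring

lemma xs_zero {m : ℕ} (ν : Fin (m + 1) → ℝ) (κ α : ℝ) (h : Fin m → ℝ) : xs ν κ α h 0 = α := by
  unfold xs
  rw [show (0 : Fin (m + 2)) = Fin.castSucc 0 from rfl, Fin.snoc_castSucc, Fin.cons_zero]

lemma xs_succ {m : ℕ} (ν : Fin (m + 1) → ℝ) (κ α : ℝ) (h : Fin m → ℝ) (j : Fin m) :
    xs ν κ α h j.succ.castSucc = h j := by
  unfold xs
  rw [Fin.snoc_castSucc, Fin.cons_succ]

lemma xs_last {m : ℕ} (ν : Fin (m + 1) → ℝ) (κ α : ℝ) (h : Fin m → ℝ) :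
    xs ν κ α h (Fin.last (m + 1)) = lst ν κ α h := by
  unfold xs
  rw [Fin.snoc_last]

lemma xs_cont {m : ℕ} (ν : Fin (m + 1) → ℝ) (κ α : ℝ) : Continuous (xs ν κ α) := by
  refine continuous_pi fun j => ?_
  refine Fin.lastCases ?_ (fun i => ?_) j
  · simp only [xs_last]
    unfold lst
    refine continuous_const.add (continuous_finset_sum _ fun i _ => continuous_const.mul ?_)
    refine Fin.cases ?_ (fun i' => ?_) i
    · simp only [Fin.cons_zero]; exact continuous_const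
    · simp only [Fin.cons_succ]; exact continuous_apply i'
  · refine Fin.cases ?_ (fun i' => ?_) i
    · simp only [Fin.castSucc_zero, xs_zero]; exact continuous_const
    · simp only [xs_succ]; exact continuous_apply i'

/-- the last point as a combination of the others -/
lemma last_pt {m : ℕ} {ν : Fin (m + 1) → ℝ} (hν : Adm ν) (κ α : ℝ) (h : Fin m → ℝ) (t : ℝ) :
    t + lst ν κ α h = κ + ∑ j, ν j * (t + (Fin.cons α h : Fin (m + 1) → ℝ) j) := by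
  unfold lst
  simp only [mul_add, Finset.sum_add_distrib, ← Finset.sum_mul, hν.2]
  ring

end Pool.Agent.P07318o
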