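import Pool.Agent.Lib.P07318o.Defs

/-!
Shift vectors on a hyperplane: definitions for the comparison of `DgY` with `Dg` in mean square.
-/

set_option autoImplicit false

namespace Pool.Agent.P07318o

open MeasureTheory Complex Pool.Agent.P07318s Pool.Agent.P07318f Pool.Agent.P07318h

/-- the logarithm of the fraction in the slot `j` -/
noncomputable def lq {k : ℕ} (q : Fin k → Q) (j : Fin k) : ℝ := lgr (q j).1

/-- the frequency of the slot `j` (of the first `m + 1`) of the pair `(q, p)` along the hyperplane -/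
noncomputable def frq {m : ℕ} (ν : Fin (m + 1) → ℝ) (q p : Fin (m + 2) → Q) (j : Fin (m + 1)) : ℝ :=
  lq q j.castSucc - lq p j.castSucc + ν j * (lq q (Fin.last (m + 1)) - lq p (Fin.last (m + 1)))

/-- the tuples of product one -/
def One {k : ℕ} (q : Fin k → Q) : Prop := lam (fun j => (q j).1) = 0

/-- the tuples of product one with a height larger than `Y` (not only in the slot `0`) -/
def Bgy {k : ℕ} (Y : ℝ) (q : Fin (k + 1) → Q) : Prop := One q ∧ ∃ j : Fin k, Y < hgt (q j.succ).1

open Classical in
/-- the diagonal sum over the tuples with a large height, coefficients `a` -/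
noncomputable def SY {k : ℕ} (Y : ℝ) (a : Fin (k + 1) → Q → ℂ) (x : Fin (k + 1) → ℝ) : ℂ :=
  ∑' q : Fin (k + 1) → Q, if Bgy Y q then ∏ j, (a j (q j) * ex (x j) (q j).1) else 0

lemma one_iff {k : ℕ} (q : Fin k → Q) : One q ↔ ∑ j, lq q j = 0 := Iff.rfl

/-- on tuples of product one the sum of the frequencies vanishes -/
lemma sum_frq {m : ℕ} {ν : Fin (m + 1) → ℝ} (hν : Adm ν) {q p : Fin (m + 2) → Q} (hq : One q) (hp : One p) :
    ∑ j, frq ν q p j = 0 := by
  rw [one_iff, Fin.sum_univ_castSucc] at hq hp
  unfold frq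
  rw [Finset.sum_add_distrib, Finset.sum_sub_distrib, ← Finset.sum_mul, hν.2]
  linarith

end Pool.Agent.P07318o
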