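import Mathlib

/-! # Module Refine (helper31): common refinement of two factorisations -/

set_option autoImplicit false

namespace Pool.Agent.P07318o

namespace RefineAux

lemma dec (a b c : ℕ+) (h : a ∣ b * c) : ∃ a₁ a₂ : ℕ+, a₁ ∣ b ∧ a₂ ∣ c ∧ a = a₁ * a₂ := by
  have h' : (a : ℕ) ∣ (b : ℕ) * (c : ℕ) := by
    have := PNat.dvd_iff.1 h
    rwa [PNat.mul_coe] at this
  obtain ⟨x, y, hx, hy, hxy⟩ := exists_dvd_and_dvd_of_dvd_mul h'
  have hx0 : 0 < x := Nat.pos_of_dvd_of_pos hx b.pos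
  have hy0 : 0 < y := Nat.pos_of_dvd_of_pos hy c.pos
  exact ⟨⟨x, hx0⟩, ⟨y, hy0⟩, PNat.dvd_iff.2 hx, PNat.dvd_iff.2 hy, PNat.eq hxy⟩

lemma dec_prod (l : ℕ) : ∀ (a : ℕ+) (n : Fin l → ℕ+), a ∣ ∏ j, n j → ∃ e : Fin l → ℕ+, a = ∏ j, e j ∧ ∀ j, e j ∣ n j := by
  induction l with
  | zero =>
    intro a n h
    rw [Fin.prod_univ_zero] at h
    have h1 : a = 1 := PNat.eq (Nat.dvd_one.1 (PNat.dvd_iff.1 h))
    exact ⟨fun _ => 1, by rw [Fin.prod_univ_zero, h1], fun j => j.elim0⟩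
  | succ l ih =>
    intro a n h
    rw [Fin.prod_univ_succ] at h
    obtain ⟨a₁, a₂, h1, h2, h3⟩ := dec a _ _ h
    obtain ⟨e, he1, he2⟩ := ih a₂ _ h2
    refine ⟨Fin.cons a₁ e, ?_, ?_⟩
    · rw [Fin.prod_univ_succ]
      simp only [Fin.cons_zero, Fin.cons_succ]
      rw [← he1, h3]
    · intro j
      refine Fin.cases ?_ (fun i => ?_) j
      · simpa only [Fin.cons_zero] using h1
      · simpa only [Fin.cons_succ] using he2 i

end RefineAux

open RefineAux

theorem refine (k l : ℕ) (m : Fin k → ℕ+) (n : Fin l → ℕ+) (h : ∏ i, m i = ∏ j, n j) :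
    ∃ e : Fin k → Fin l → ℕ+, (∀ i, m i = ∏ j, e i j) ∧ ∀ j, n j = ∏ i, e i j := by
  induction k generalizing n with
  | zero =>
    refine ⟨fun i => i.elim0, fun i => i.elim0, fun j => ?_⟩
    rw [Fin.prod_univ_zero] at h ⊢
    have h1 : n j ∣ 1 := by
      rw [h]
      exact Finset.dvd_prod_of_mem n (Finset.mem_univ j)
    exact PNat.eq (Nat.dvd_one.1 (PNat.dvd_iff.1 h1))
  | succ k ih =>
    have h1 : m 0 ∣ ∏ j, n j := by
      rw [← h]
      exact Finset.dvd_prod_of_mem m (Finset.mem_univ 0)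
    obtain ⟨e0, he1, he2⟩ := dec_prod l (m 0) n h1
    choose n' hn' using he2
    have h2 : ∏ i : Fin k, m i.succ = ∏ j, n' j := by
      rw [Fin.prod_univ_succ] at h
      have h3 : ∏ j, n j = m 0 * ∏ j, n' j := by
        rw [he1, ← Finset.prod_mul_distrib]
        exact Finset.prod_congr rfl fun j _ => hn' j
      rw [h3] at h
      exact mul_left_cancel h
    obtain ⟨e, h4, h5⟩ := ih (fun i => m i.succ) n' h2
    refine ⟨Fin.cons e0 e, ?_, ?_⟩
    · intro i
      refine Fin.cases ?_ (fun i => ?_) i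
      · simpa only [Fin.cons_zero] using he1
      · simpa only [Fin.cons_succ] using h4 i
    · intro j
      rw [Fin.prod_univ_succ]
      simp only [Fin.cons_zero, Fin.cons_succ]
      rw [hn' j, h5 j]

end Pool.Agent.P07318o
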