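import Pool.Agent.Lib.P07318o.Defs
import Pool.Agent.Lib.P07318o.Refine
import Pool.Agent.Lib.P07318s.PiSum

/-!
# The sum over the tuples of product one, with the power of `1/c`
-/

set_option autoImplicit false

namespace Pool.Agent.P07318o

open MeasureTheory Complex Pool.Agent.P07318s Pool.Agent.P07318f Pool.Agent.P07318h

namespace ZetaSAux

lemma finite_sum {s : ℝ} (hs : 1 < s) (N : ℕ) :
    ∑ i ∈ Finset.range N, ((i : ℝ) + 1) ^ (-s) ≤ 1 + 1 / (s - 1) := by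
  have hs1 : 0 < s - 1 := by linarith
  rcases N with _ | M
  · simp only [Finset.range_zero, Finset.sum_empty]
    positivity
  rw [Finset.sum_range_succ']
  have h0 : (((0 : ℕ) : ℝ) + 1) ^ (-s) = 1 := by simp
  rw [h0]
  have hanti : AntitoneOn (fun x : ℝ => x ^ (-s)) (Set.Icc ((1 : ℕ) : ℝ) ((M + 1 : ℕ) : ℝ)) := by
    intro a ha b _ hab
    have ha0 : (0 : ℝ) < a := lt_of_lt_of_le (by norm_num) ha.1
    exact Real.rpow_le_rpow_of_nonpos ha0 hab (by linarith)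
  have h1 := hanti.sum_le_integral_Ico (by omega)
  have h2 : ∑ i ∈ Finset.range M, (((i + 1 : ℕ) : ℝ) + 1) ^ (-s) =
      ∑ i ∈ Finset.Ico 1 (M + 1), (((i + 1 : ℕ) : ℝ)) ^ (-s) := by
    rw [Finset.sum_Ico_eq_sum_range]
    refine Finset.sum_congr (by simp) fun i _ => ?_
    congr 1
    push_cast
    ring
  rw [h2]
  have h3 : ∫ x in ((1 : ℕ) : ℝ)..((M + 1 : ℕ) : ℝ), x ^ (-s) ≤ 1 / (s - 1) := by
    rw [integral_rpow]
    · have h4 : 0 ≤ (((M + 1 : ℕ) : ℝ)) ^ (-s + 1) := by positivity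
      have h5 : (((1 : ℕ) : ℝ)) ^ (-s + 1) = 1 := by simp
      rw [h5]
      rw [show (((M + 1 : ℕ) : ℝ) ^ (-s + 1) - 1) / (-s + 1) = (1 - ((M + 1 : ℕ) : ℝ) ^ (-s + 1)) / (s - 1) by
        rw [div_eq_div_iff (by linarith) (by linarith)]
        ring]
      gcongr
      linarith
    · right
      refine ⟨by linarith, ?_⟩
      rw [Set.uIcc_of_le (by exact_mod_cast Nat.le_add_left 1 M)]
      intro h
      have := h.1
      norm_num at this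
  have h6 : ∑ i ∈ Finset.Ico 1 (M + 1), (((i + 1 : ℕ) : ℝ)) ^ (-s) ≤ 1 / (s - 1) := le_trans h1 h3
  linarith

lemma tsum_pnat {s : ℝ} (hs : 1 < s) :
    ∑' n : ℕ+, ENNReal.ofReal (((n : ℕ) : ℝ) ^ (-s)) ≤ ENNReal.ofReal (1 + 1 / (s - 1)) := by
  rw [← Equiv.pnatEquivNat.symm.tsum_eq]
  refine ENNReal.tsum_le_of_sum_range_le fun N => ?_
  rw [← ENNReal.ofReal_sum_of_nonneg (fun i _ => by positivity)]
  refine ENNReal.ofReal_le_ofReal ?_
  have h := finite_sum hs N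
  refine le_of_eq_of_le ?_ h
  refine Finset.sum_congr rfl fun i _ => ?_
  simp [Equiv.pnatEquivNat]

lemma lam_zero {k : ℕ} {p : Fin k → ℕ+ × ℕ+} (h : lam p = 0) : ∏ j, (p j).1 = ∏ j, (p j).2 := by
  unfold lam lgr at h
  rw [Finset.sum_sub_distrib, sub_eq_zero] at h
  have e1 : ∀ f : Fin k → ℕ+, ∑ j, Real.log ((f j : ℕ) : ℝ) = Real.log (((∏ j, f j : ℕ+) : ℕ) : ℝ) := by
    intro f
    rw [← Real.log_prod (fun j _ => by positivity)]
    congr 1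
    push_cast
    rfl
  rw [e1 (fun j => (p j).1), e1 (fun j => (p j).2)] at h
  have h2 := Real.log_injOn_pos (Set.mem_Ioi.2 (by positivity)) (Set.mem_Ioi.2 (by positivity)) h
  exact PNat.eq (by exact_mod_cast h2)

lemma term_eq {k : ℕ} (c : ℝ) (p : Fin k → ℕ+ × ℕ+) (e : Fin k → Fin k → ℕ+) (h1 : ∀ i, (p i).1 = ∏ j, e i j)
    (h2 : ∀ j, (p j).2 = ∏ i, e i j) :
    ENNReal.ofReal (∏ j, (hgt (p j)) ^ (-(1 / 2 + c))) =
      ∏ i, ∏ j, ENNReal.ofReal (((e i j : ℕ) : ℝ) ^ (-(1 + 2 * c))) := by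
  have e1 : ∀ j, hgt (p j) = (∏ i, ((e j i : ℕ) : ℝ)) * ∏ i, ((e i j : ℕ) : ℝ) := by
    intro j
    unfold hgt
    rw [h1, h2]
    push_cast
    rfl
  have e2 : ∏ j, (hgt (p j)) ^ (-(1 / 2 + c)) = ∏ i, ∏ j, ((e i j : ℕ) : ℝ) ^ (-(1 + 2 * c)) := by
    rw [Real.finsetProd_rpow _ _ (fun j _ => (hgt_pos _).le)]
    simp_rw [e1]
    rw [Finset.prod_mul_distrib]
    rw [Finset.prod_comm (f := fun j i => ((e i j : ℕ) : ℝ))]
    have e3 : ∏ i, ∏ j, ((e i j : ℕ) : ℝ) ^ (-(1 + 2 * c)) = (∏ i, ∏ j, ((e i j : ℕ) : ℝ)) ^ (-(1 + 2 * c)) := by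
      rw [← Real.finsetProd_rpow _ _ (fun i _ => Finset.prod_nonneg fun j _ => by positivity)]
      refine Finset.prod_congr rfl fun i _ => ?_
      rw [Real.finsetProd_rpow _ _ (fun j _ => by positivity)]
    rw [e3]
    set P := ∏ i, ∏ j, ((e i j : ℕ) : ℝ) with hP
    have hP0 : 0 < P := Finset.prod_pos fun i _ => Finset.prod_pos fun j _ => by positivity
    rw [Real.mul_rpow hP0.le hP0.le, ← Real.rpow_add hP0]
    congr 1
    ring
  rw [e2, ENNReal.ofReal_prod_of_nonneg (fun i _ => Finset.prod_nonneg fun j _ => by positivity)]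
  refine Finset.prod_congr rfl fun i _ => ?_
  rw [ENNReal.ofReal_prod_of_nonneg (fun j _ => by positivity)]

end ZetaSAux

open ZetaSAux

open Classical in
theorem zeta_s (k : ℕ) {c : ℝ} (hc : 0 < c) :
    ∑' p : Fin k → ℕ+ × ℕ+, (if lam p = 0 then ENNReal.ofReal (∏ j, (hgt (p j)) ^ (-(1 / 2 + c))) else 0) ≤
      ENNReal.ofReal ((1 + 1 / (2 * c)) ^ (k ^ 2)) := by
  have hex : ∀ p : {p : Fin k → ℕ+ × ℕ+ // lam p = 0}, ∃ e : Fin k → Fin k → ℕ+,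
      (∀ i, (p.1 i).1 = ∏ j, e i j) ∧ ∀ j, (p.1 j).2 = ∏ i, e i j := by
    intro p
    exact refine k k (fun i => (p.1 i).1) (fun j => (p.1 j).2) (lam_zero p.2)
  choose E hE1 hE2 using hex
  have hinj : Function.Injective E := by
    intro p q h
    apply Subtype.ext
    funext j
    apply Prod.ext
    · rw [hE1, hE1, h]
    · rw [hE2, hE2, h]
  have h1 : ∑' p : Fin k → ℕ+ × ℕ+, (if lam p = 0 then ENNReal.ofReal (∏ j, (hgt (p j)) ^ (-(1 / 2 + c))) else 0) =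
      ∑' p : {p : Fin k → ℕ+ × ℕ+ // lam p = 0}, ENNReal.ofReal (∏ j, (hgt (p.1 j)) ^ (-(1 / 2 + c))) := by
    have := tsum_subtype {p : Fin k → ℕ+ × ℕ+ | lam p = 0}
      (fun p => ENNReal.ofReal (∏ j, (hgt (p j)) ^ (-(1 / 2 + c))))
    rw [show (∑' p : {p : Fin k → ℕ+ × ℕ+ // lam p = 0}, ENNReal.ofReal (∏ j, (hgt (p.1 j)) ^ (-(1 / 2 + c)))) =
      ∑' p : ({p : Fin k → ℕ+ × ℕ+ | lam p = 0} : Set _), ENNReal.ofReal (∏ j, (hgt (p.1 j)) ^ (-(1 / 2 + c))) from rfl,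
      this]
    refine tsum_congr fun p => ?_
    simp only [Set.indicator_apply, Set.mem_ofPred_eq]
  rw [h1]
  have h2 : ∀ p : {p : Fin k → ℕ+ × ℕ+ // lam p = 0}, ENNReal.ofReal (∏ j, (hgt (p.1 j)) ^ (-(1 / 2 + c))) =
      (fun e : Fin k → Fin k → ℕ+ => ∏ i, ∏ j, ENNReal.ofReal (((e i j : ℕ) : ℝ) ^ (-(1 + 2 * c)))) (E p) :=
    fun p => term_eq c p.1 (E p) (hE1 p) (hE2 p)
  rw [tsum_congr h2]
  refine (ENNReal.tsum_comp_le_tsum_of_injective hinj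
    (fun e : Fin k → Fin k → ℕ+ => ∏ i, ∏ j, ENNReal.ofReal (((e i j : ℕ) : ℝ) ^ (-(1 + 2 * c))))).trans ?_
  rw [tsum_pi_prod_ennreal (fun _ (f : Fin k → ℕ+) => ∏ j, ENNReal.ofReal (((f j : ℕ) : ℝ) ^ (-(1 + 2 * c))))]
  simp_rw [tsum_pi_prod_ennreal (fun _ (n : ℕ+) => ENNReal.ofReal (((n : ℕ) : ℝ) ^ (-(1 + 2 * c))))]
  simp only [Finset.prod_const, Finset.card_univ, Fintype.card_fin]
  have h3 := tsum_pnat (s := 1 + 2 * c) (by linarith)
  rw [show 1 + 2 * c - 1 = 2 * c by ring] at h3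
  rw [ENNReal.ofReal_pow (by positivity), ← pow_mul, ← sq]
  gcongr

end Pool.Agent.P07318o
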