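import Pool.Agent.Lib.P07318o.Defs
import Pool.Agent.Lib.P07318o.ZetaS
import Pool.Agent.Lib.P07318h.DgB

/-!
# The diagonal terms are at most a power of the logarithm
-/

set_option autoImplicit false

namespace Pool.Agent.P07318o

open MeasureTheory Complex Pool.Agent.P07318s Pool.Agent.P07318f Pool.Agent.P07318h

namespace DgLogAux

lemma W_unif : ∃ C : ℝ, 0 < C ∧ ∀ c y : ℝ, 0 ≤ c → c ≤ 1 → 0 < y → W y ≤ C * y ^ (-c) := by
  obtain ⟨C1, hC1, hW⟩ := W_le_rpow 1 one_pos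
  refine ⟨max 2 C1, lt_of_lt_of_le two_pos (le_max_left _ _), fun c y hc0 hc1 hy => ?_⟩
  rcases le_total y 1 with h | h
  · have h1 : W y ≤ 2 := W_le_two y
    have h2 : 1 ≤ y ^ (-c) := Real.one_le_rpow_of_pos_of_le_one_of_nonpos hy h (by linarith)
    calc W y ≤ 2 * 1 := by linarith
      _ ≤ max 2 C1 * y ^ (-c) := by
        refine mul_le_mul (le_max_left _ _) h2 zero_le_one ?_
        exact le_trans zero_le_two (le_max_left _ _)
  · have h1 := hW y hy
    have h2 : y ^ (-(1 : ℝ)) ≤ y ^ (-c) := Real.rpow_le_rpow_of_exponent_le h (by linarith)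
    calc W y ≤ C1 * y ^ (-(1 : ℝ)) := h1
      _ ≤ max 2 C1 * y ^ (-c) := by
        refine mul_le_mul (le_max_right _ _) h2 (by positivity) ?_
        exact le_trans zero_le_two (le_max_left _ _)

lemma cf_bound {C0 : ℝ} (hC0 : 0 < C0) {U c y : ℝ} (hU : 1 ≤ U) (hc0 : 0 ≤ c) (hc1 : c ≤ 1)
    (hW : ∀ c y : ℝ, 0 ≤ c → c ≤ 1 → 0 < y → W y ≤ C0 * y ^ (-c)) (hy1 : U ≤ y) (hy2 : y ≤ 16 * U)
    (p : ℕ+ × ℕ+) : |cf y p| ≤ C0 * (3 * U) ^ c * (hgt p) ^ (-(1 / 2 + c)) := by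
  have hU0 : 0 < U := by linarith
  have hp := hgt_pos p
  have hy0 : 0 < y := lt_of_lt_of_le hU0 hy1
  have hpi := Real.pi_gt_three
  have hz : 0 < 2 * Real.pi * hgt p / y := by positivity
  have h1 := hW c _ hc0 hc1 hz
  have h2 : (2 * Real.pi * hgt p / y) ^ (-c) ≤ (3 * U) ^ c * (hgt p) ^ (-c) := by
    have h3 : hgt p / (3 * U) ≤ 2 * Real.pi * hgt p / y := by
      rw [div_le_div_iff₀ (by positivity) hy0]
      have h4 : y ≤ 2 * Real.pi * (3 * U) := by nlinarith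
      nlinarith
    calc (2 * Real.pi * hgt p / y) ^ (-c) ≤ (hgt p / (3 * U)) ^ (-c) :=
          Real.rpow_le_rpow_of_nonpos (by positivity) h3 (by linarith)
      _ = (3 * U) ^ c * (hgt p) ^ (-c) := by
          rw [Real.div_rpow hp.le (by positivity), Real.rpow_neg (by positivity : (0 : ℝ) ≤ 3 * U), div_inv_eq_mul,
            mul_comm]
  have hWn : 0 ≤ W (2 * Real.pi * hgt p / y) := by
    unfold W
    exact mul_nonneg (by positivity) (setIntegral_nonneg measurableSet_Ioi fun u _ => (Real.exp_pos _).le)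
  unfold cf
  rw [abs_of_nonneg (mul_nonneg (Real.rpow_nonneg hp.le _) hWn)]
  calc (hgt p) ^ (-(1 / 2) : ℝ) * W (2 * Real.pi * hgt p / y)
      ≤ (hgt p) ^ (-(1 / 2) : ℝ) * (C0 * ((3 * U) ^ c * (hgt p) ^ (-c))) := by
        refine mul_le_mul_of_nonneg_left (h1.trans ?_) (Real.rpow_nonneg hp.le _)
        exact mul_le_mul_of_nonneg_left h2 hC0.le
    _ = C0 * (3 * U) ^ c * (hgt p) ^ (-(1 / 2 + c)) := by
        rw [show -(1 / 2 + c) = -(1 / 2) + -c by ring, Real.rpow_add hp]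
        ring

lemma dg_bound {C0 : ℝ} (hC0 : 0 < C0) {k : ℕ} {U c : ℝ} (hU : 1 ≤ U) (hc0 : 0 < c) (hc1 : c ≤ 1)
    (hW : ∀ c y : ℝ, 0 ≤ c → c ≤ 1 → 0 < y → W y ≤ C0 * y ^ (-c)) (x : Fin k → ℝ) (hx1 : ∀ j, U ≤ x j)
    (hx2 : ∀ j, x j ≤ 16 * U) :
    ‖Dg x‖ ≤ (C0 * (3 * U) ^ c) ^ k * (1 + 1 / (2 * c)) ^ (k ^ 2) := by
  classical
  have hU0 : 0 < U := by linarith
  have hA : 0 ≤ (C0 * (3 * U) ^ c) ^ k := by positivity
  have h1 : ‖Dg x‖ₑ ≤ ENNReal.ofReal ((C0 * (3 * U) ^ c) ^ k * (1 + 1 / (2 * c)) ^ (k ^ 2)) := by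
    unfold Dg
    refine enorm_tsum_le_tsum_enorm.trans ?_
    calc _ ≤ ∑' p : Fin k → ℕ+ × ℕ+, ENNReal.ofReal ((C0 * (3 * U) ^ c) ^ k) *
          (if lam p = 0 then ENNReal.ofReal (∏ j, (hgt (p j)) ^ (-(1 / 2 + c))) else 0) := by
          refine ENNReal.tsum_le_tsum fun p => ?_
          by_cases h : lam p = 0
          · simp only [h, if_true]
            rw [← ENNReal.ofReal_mul hA, ← ofReal_norm]
            refine ENNReal.ofReal_le_ofReal ?_
            rw [norm_prod]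
            calc ∏ j, ‖(cf (x j) (p j) : ℂ) * ex (x j) (p j)‖
                ≤ ∏ j, (C0 * (3 * U) ^ c * (hgt (p j)) ^ (-(1 / 2 + c))) := by
                  refine Finset.prod_le_prod (fun _ _ => norm_nonneg _) fun j _ => ?_
                  rw [norm_mul, norm_ex, mul_one, Complex.norm_real, Real.norm_eq_abs]
                  exact cf_bound hC0 hU hc0.le hc1 hW (hx1 j) (hx2 j) (p j)
              _ = (C0 * (3 * U) ^ c) ^ k * ∏ j, (hgt (p j)) ^ (-(1 / 2 + c)) := by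
                  rw [Finset.prod_mul_distrib, Finset.prod_const, Finset.card_univ, Fintype.card_fin]
          · simp [h]
      _ ≤ ENNReal.ofReal ((C0 * (3 * U) ^ c) ^ k * (1 + 1 / (2 * c)) ^ (k ^ 2)) := by
          rw [ENNReal.tsum_mul_left, ENNReal.ofReal_mul hA]
          gcongr
          convert zeta_s k hc0
  have h2 : 0 ≤ (C0 * (3 * U) ^ c) ^ k * (1 + 1 / (2 * c)) ^ (k ^ 2) := by positivity
  rw [← ofReal_norm] at h1
  exact (ENNReal.ofReal_le_ofReal_iff h2).1 h1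

end DgLogAux

open DgLogAux

theorem dg_log (k : ℕ) : ∃ C : ℝ, 0 < C ∧ ∀ (U : ℝ) (x : Fin k → ℝ), 1 ≤ U → (∀ j, U ≤ x j) → (∀ j, x j ≤ 16 * U) →
    ‖Dg x‖ ≤ C * (1 + Real.log U) ^ (k ^ 2) := by
  obtain ⟨C0, hC0, hW⟩ := W_unif
  refine ⟨(9 * C0) ^ k * 2 ^ (k ^ 2), by positivity, fun U x hU hx1 hx2 => ?_⟩
  have hU0 : 0 < U := by linarith
  have hl : 0 ≤ Real.log U := Real.log_nonneg hU
  set c : ℝ := 1 / (1 + Real.log U) with hc
  have hc0 : 0 < c := by positivity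
  have hc1 : c ≤ 1 := by
    rw [hc, div_le_one (by positivity)]
    linarith
  have h1 := dg_bound hC0 hU hc0 hc1 hW x hx1 hx2
  have h2 : (3 * U) ^ c ≤ 9 := by
    rw [Real.mul_rpow (by norm_num) hU0.le]
    have h3 : (3 : ℝ) ^ c ≤ 3 := by
      calc (3 : ℝ) ^ c ≤ 3 ^ (1 : ℝ) := Real.rpow_le_rpow_of_exponent_le (by norm_num) hc1
        _ = 3 := Real.rpow_one 3
    have h4 : U ^ c ≤ 3 := by
      rw [Real.rpow_def_of_pos hU0]
      have h5 : Real.log U * c ≤ 1 := by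
        rw [hc, mul_one_div, div_le_one (by positivity)]
        linarith
      calc Real.exp (Real.log U * c) ≤ Real.exp 1 := Real.exp_le_exp.2 h5
        _ ≤ 3 := by
          have := Real.exp_one_lt_d9
          linarith
    calc (3 : ℝ) ^ c * U ^ c ≤ 3 * 3 := by
          refine mul_le_mul h3 h4 (by positivity) (by norm_num)
      _ = 9 := by norm_num
  have h6 : 1 + 1 / (2 * c) ≤ 2 * (1 + Real.log U) := by
    have : 1 / (2 * c) = (1 + Real.log U) / 2 := by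
      rw [hc]
      field_simp
    rw [this]
    linarith
  calc ‖Dg x‖ ≤ (C0 * (3 * U) ^ c) ^ k * (1 + 1 / (2 * c)) ^ (k ^ 2) := h1
    _ ≤ (9 * C0) ^ k * (2 * (1 + Real.log U)) ^ (k ^ 2) := by
        have h7 : C0 * (3 * U) ^ c ≤ 9 * C0 := by
          rw [mul_comm 9 C0]
          exact mul_le_mul_of_nonneg_left h2 hC0.le
        refine mul_le_mul (pow_le_pow_left₀ (by positivity) h7 k) (pow_le_pow_left₀ (by positivity) h6 _)
          (by positivity) (by positivity)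
    _ = (9 * C0) ^ k * 2 ^ (k ^ 2) * (1 + Real.log U) ^ (k ^ 2) := by
        rw [mul_pow 2 (1 + Real.log U) (k ^ 2)]
        ring

end Pool.Agent.P07318o
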