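import Pool.Agent.Lib.P07318o.Defs

/-!
Windows, cut-offs, patterns.
-/

set_option autoImplicit false

namespace Pool.Agent.P07318o

open MeasureTheory Complex Pool.Agent.P07318s Pool.Agent.P07318f Pool.Agent.P07318h

/-- smooth window: `1` on `[a, b]`, `0` outside `[a - Δ, b + Δ]` -/
noncomputable def win (Δ a b t : ℝ) : ℝ :=
  Real.smoothTransition ((t - a) / Δ + 1) * Real.smoothTransition ((b - t) / Δ + 1)

/-- cut-off: `1` on `[2 U, 15 U]`, `0` outside `[U, 16 U]` -/
noncomputable def rho (U y : ℝ) : ℝ := Real.smoothTransition (y / U - 1) * Real.smoothTransition (16 - y / U)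

/-- dyadic blocks of a band -/
noncomputable def blk (A B : ℝ) (a : ℕ) : Finset Q :=
  open Classical in (qs A B).filter fun q => 2 ^ a * A < hgt q.1 ∧ hgt q.1 ≤ 2 ^ (a + 1) * A

/-- the cut-offs of the slots, `w` the window -/
noncomputable def cc {m : ℕ} (U α : ℝ) (w : ℝ → ℝ) : Fin (m + 2) → ℝ → ℝ :=
  Fin.cons (α := fun _ => ℝ → ℝ) (fun y => w (y - α)) fun _ => rho U

/-- small, middle, top heights and the error -/
noncomputable def bf (U A B : ℝ) : Fin 4 → ℝ → ℂ := ![bd 0 A, bd A B, bd B (U ^ 2), er U]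

/-- the slot functions of a pattern -/
noncomputable def ZP {m : ℕ} (U α A B : ℝ) (w : ℝ → ℝ) (P : Fin (m + 2) → Fin 4) : Fin (m + 2) → ℝ → ℂ :=
  fun j => ct (cc U α w j) (bf U A B (P j))

/-- all slots `|ζ|²` -/
noncomputable def ZG {m : ℕ} (U α : ℝ) (w : ℝ → ℝ) : Fin (m + 2) → ℝ → ℂ :=
  fun j => ct (cc U α w j) (fun y => (gz y : ℂ))

/-- slot `0` is `|ζ|²`, the others have small heights -/
noncomputable def ZS {m : ℕ} (U α A : ℝ) (w : ℝ → ℝ) : Fin (m + 2) → ℝ → ℂ :=
  fun j => ct (cc U α w j) (if j = 0 then fun y => (gz y : ℂ) else bd 0 A)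

/-- all slots with top heights, without window -/
noncomputable def ZT {m : ℕ} (U B : ℝ) : Fin (m + 2) → ℝ → ℂ := fun _ => ct (rho U) (bd B (U ^ 2))

/-- bad patterns -/
noncomputable def badP (m : ℕ) : Finset (Fin (m + 2) → Fin 4) :=
  Finset.univ.filter fun P => (∃ j : Fin (m + 1), P j.succ ≠ 0) ∧ ∃ j, P j ≠ 2

/-- the logarithm -/
noncomputable def lg (T : ℝ) : ℝ := 1 + Real.log T

/-- exponent of the small heights -/
noncomputable def dd (m : ℕ) : ℝ := 1 / (100 * ((m : ℝ) + 2))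

/-- bounds of the heights -/
noncomputable def n1 (m : ℕ) (T : ℝ) : ℝ := T ^ dd m
noncomputable def n2 (C₀ T : ℝ) : ℝ := T / (4 * lg T ^ C₀)

/-- admissible windows -/
structure Wn (T Λ : ℝ) (w : ℝ → ℝ) : Prop where
  smooth : ContDiff ℝ 2 w
  nonneg : ∀ t, 0 ≤ w t
  le_one : ∀ t, w t ≤ 1
  supp : ∀ t, t ∉ Set.Icc (-(T / 8)) (9 * T / 8) → w t = 0
  d1 : ∀ t, |deriv w t| ≤ Λ / T
  d2 : ∀ t, |deriv (deriv w) t| ≤ Λ / T ^ 2

lemma win_nonneg (Δ a b t : ℝ) : 0 ≤ win Δ a b t :=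
  mul_nonneg (Real.smoothTransition.nonneg _) (Real.smoothTransition.nonneg _)

lemma win_le_one (Δ a b t : ℝ) : win Δ a b t ≤ 1 := by
  unfold win
  have h1 := Real.smoothTransition.nonneg ((t - a) / Δ + 1)
  have h2 := Real.smoothTransition.le_one ((t - a) / Δ + 1)
  have h3 := Real.smoothTransition.nonneg ((b - t) / Δ + 1)
  have h4 := Real.smoothTransition.le_one ((b - t) / Δ + 1)
  nlinarith

lemma win_one {Δ a b t : ℝ} (hΔ : 0 < Δ) (h1 : a ≤ t) (h2 : t ≤ b) : win Δ a b t = 1 := by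
  unfold win
  rw [Real.smoothTransition.one_of_one_le, Real.smoothTransition.one_of_one_le, one_mul]
  · have : 0 ≤ (b - t) / Δ := div_nonneg (by linarith) hΔ.le
    linarith
  · have : 0 ≤ (t - a) / Δ := div_nonneg (by linarith) hΔ.le
    linarith

lemma win_zero {Δ a b t : ℝ} (hΔ : 0 < Δ) (h : t ∉ Set.Icc (a - Δ) (b + Δ)) : win Δ a b t = 0 := by
  unfold win
  by_cases h1 : t < a - Δ
  · rw [Real.smoothTransition.zero_of_nonpos, zero_mul]
    have : (t - a) / Δ ≤ -1 := by rw [div_le_iff₀ hΔ]; linarith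
    linarith
  · push Not at h1
    have h2 : b + Δ < t := by
      by_contra h3
      exact h ⟨h1, not_lt.1 h3⟩
    rw [mul_comm, Real.smoothTransition.zero_of_nonpos, zero_mul]
    have : (b - t) / Δ ≤ -1 := by rw [div_le_iff₀ hΔ]; linarith
    linarith

lemma rho_nonneg (U y : ℝ) : 0 ≤ rho U y :=
  mul_nonneg (Real.smoothTransition.nonneg _) (Real.smoothTransition.nonneg _)

lemma rho_le_one (U y : ℝ) : rho U y ≤ 1 := by
  unfold rho
  have h1 := Real.smoothTransition.nonneg (y / U - 1)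
  have h2 := Real.smoothTransition.le_one (y / U - 1)
  have h3 := Real.smoothTransition.nonneg (16 - y / U)
  have h4 := Real.smoothTransition.le_one (16 - y / U)
  nlinarith

lemma rho_one {U y : ℝ} (hU : 0 < U) (h1 : 2 * U ≤ y) (h2 : y ≤ 15 * U) : rho U y = 1 := by
  unfold rho
  rw [Real.smoothTransition.one_of_one_le, Real.smoothTransition.one_of_one_le, one_mul]
  · have : y / U ≤ 15 := by rw [div_le_iff₀ hU]; linarith
    linarith
  · have : 2 ≤ y / U := by rw [le_div_iff₀ hU]; linarith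
    linarith

lemma rho_zero {U y : ℝ} (hU : 0 < U) (h : y ∉ Set.Icc U (16 * U)) : rho U y = 0 := by
  unfold rho
  by_cases h1 : y < U
  · rw [Real.smoothTransition.zero_of_nonpos, zero_mul]
    have : y / U ≤ 1 := by rw [div_le_iff₀ hU]; linarith
    linarith
  · push Not at h1
    have h2 : 16 * U < y := by
      by_contra h3
      exact h ⟨h1, not_lt.1 h3⟩
    rw [mul_comm, Real.smoothTransition.zero_of_nonpos, zero_mul]
    have : 16 ≤ y / U := by rw [le_div_iff₀ hU]; linarith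
    linarith

lemma cc_zero {m : ℕ} (U α : ℝ) (w : ℝ → ℝ) : cc (m := m) U α w 0 = fun y => w (y - α) := rfl

lemma cc_succ {m : ℕ} (U α : ℝ) (w : ℝ → ℝ) (j : Fin (m + 1)) : cc (m := m) U α w j.succ = rho U := rfl

end Pool.Agent.P07318o
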