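import Pool.Agent.Lib.P07318o.MainMS
import Pool.Agent.Lib.P07318o.Wdefs
import Pool.Agent.Lib.P07318h.DgM

/-!
# The diagonal terms with a window, in mean square

PROOF. `Y = n1 m T = T^dd`, `dd ≤ 1/20`, `main_ms` with `d = dd m`. For fixed `h`: `‖∫ w(t) (DgY - Dg)(t + x)‖ₑ² ≤ (∫_{[-T/8, 9T/8]} 1) ∫_{[-T/8, 9T/8]} ‖DgY - Dg‖ₑ²` (`0 ≤ w ≤ 1`, `w = 0` outside; Cauchy-Schwarz, e.g. `BadI`/`LongT.cs_icc` of P07318h or Hoelder in `ENNReal`). Integrate over `h ∈ Dm`, Tonelli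
(`lintegral_lintegral_swap`; measurability of `(t, h) ↦ DgY Y (fun j => t + xs ν κ α h j)`: `dgy_meas` of P07318h/DgM.lean composed with a continuous map; `Dg` : `Dg_continuousOn` of P07318s/Cont.lean on the open set of positive coordinates, or as `tsum` of measurable functions as in DgM.lean), and `main_ms` for each `t`:
`≤ (5T/4)² C T^(m-c) ≤ C' T^(m+2-c)`.
-/

set_option autoImplicit false

namespace Pool.Agent.P07318o

open MeasureTheory Complex Pool.Agent.P07318s Pool.Agent.P07318f Pool.Agent.P07318h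

theorem dg_meas (k : ℕ) : Measurable (Dg (k := k)) := by
  classical
  unfold Dg
  have : Countable (Fin k → ℕ+ × ℕ+) := inferInstance
  refine Measurable.tsum fun p => ?_
  split_ifs
  · refine Finset.measurable_fun_prod _ fun j _ => ?_
    refine Measurable.mul ?_ ((DgMAux.ex_meas _).comp (measurable_pi_apply j))
    refine Complex.measurable_ofReal.comp ?_
    unfold cf
    exact (DgMAux.W_meas.comp (measurable_const.div (measurable_pi_apply j))).const_mul _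
  · exact measurable_const

namespace DiagBAux

private theorem cs (μ : Measure ℝ) (f : ℝ → ENNReal) (hf : Measurable f) :
    (∫⁻ u, f u ∂μ) ^ 2 ≤ μ Set.univ * ∫⁻ u, f u ^ 2 ∂μ := by
  have h1 := ENNReal.lintegral_mul_le_Lp_mul_Lq μ
    Real.HolderConjugate.two_two (f := f) (g := fun _ => 1) hf.aemeasurable aemeasurable_const
  have h2 : ∫⁻ u, (f * (fun _ => 1 : ℝ → ENNReal)) u ∂μ = ∫⁻ u, f u ∂μ :=
    lintegral_congr fun u => by rw [Pi.mul_apply, mul_one]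
  have h3 : ∫⁻ _u : ℝ, (1 : ENNReal) ^ (2 : ℝ) ∂μ = μ Set.univ := by
    rw [ENNReal.one_rpow, lintegral_one]
  rw [h2, h3] at h1
  have h4 : ∀ u, f u ^ (2 : ℝ) = f u ^ 2 := fun u => by
    rw [← ENNReal.rpow_natCast, Nat.cast_ofNat]
  simp only [h4] at h1
  have h5 : ∀ a : ENNReal, (a ^ (1 / 2 : ℝ)) ^ 2 = a := fun a => by
    rw [← ENNReal.rpow_natCast, ← ENNReal.rpow_mul]
    norm_num
  calc (∫⁻ u, f u ∂μ) ^ 2 ≤ ((∫⁻ u, f u ^ 2 ∂μ) ^ (1 / 2 : ℝ) * μ Set.univ ^ (1 / 2 : ℝ)) ^ 2 :=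
        pow_le_pow_left' h1 2
    _ = μ Set.univ * ∫⁻ u, f u ^ 2 ∂μ := by
        rw [mul_pow, h5, h5, mul_comm]

private theorem xs_meas {m : ℕ} (ν : Fin (m + 1) → ℝ) (κ α : ℝ) (j : Fin (m + 2)) :
    Measurable fun h : Fin m → ℝ => xs ν κ α h j := by
  have hc : ∀ i : Fin (m + 1), Measurable fun h : Fin m → ℝ => (Fin.cons α h : Fin (m + 1) → ℝ) i := by
    intro i
    refine Fin.cases ?_ (fun i => ?_) i
    · simp only [Fin.cons_zero]
      exact measurable_const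
    · simp only [Fin.cons_succ]
      exact measurable_pi_apply i
  refine Fin.lastCases ?_ (fun i => ?_) j
  · unfold xs
    simp only [Fin.snoc_last]
    unfold lst
    exact (Finset.measurable_fun_sum _ fun i _ => (hc i).const_mul _).const_add _
  · unfold xs
    simp only [Fin.snoc_castSucc]
    exact hc i

private theorem xs_meas' {m : ℕ} (ν : Fin (m + 1) → ℝ) (κ α : ℝ) :
    Measurable fun z : (Fin m → ℝ) × ℝ => fun j : Fin (m + 2) => z.2 + xs ν κ α z.1 j :=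
  measurable_pi_lambda _ fun j => measurable_snd.add ((xs_meas ν κ α j).comp measurable_fst)

private theorem dd_pos (m : ℕ) : 0 < dd m := by
  unfold dd
  positivity

private theorem dd_le (m : ℕ) : dd m ≤ 1 / 20 := by
  unfold dd
  have : (0 : ℝ) ≤ (m : ℝ) := Nat.cast_nonneg m
  rw [div_le_div_iff₀ (by positivity) (by norm_num)]
  linarith

private theorem main_aux {m : ℕ} {T Λ : ℝ} {w : ℝ → ℝ} (hT0 : 0 < T) (hw : Wn T Λ w)
    (G : (Fin m → ℝ) → ℝ → ℂ) (hGm : Measurable (Function.uncurry G)) (D : Set (Fin m → ℝ))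
    (B : ENNReal) (hB : ∀ t, -(T / 8) ≤ t → t ≤ 9 * T / 8 → ∫⁻ h in D, ‖G h t‖ₑ ^ 2 ≤ B) :
    ∫⁻ h in D, ‖∫ t, (w t : ℂ) * G h t‖ₑ ^ 2 ≤
      ENNReal.ofReal (5 / 4 * T) * (B * ENNReal.ofReal (5 / 4 * T)) := by
  obtain ⟨I, hI⟩ : ∃ I : Set ℝ, I = Set.Icc (-(T / 8)) (9 * T / 8) := ⟨_, rfl⟩
  have hIm : MeasurableSet I := by rw [hI]; exact measurableSet_Icc
  have hvol : (volume.restrict I) Set.univ = ENNReal.ofReal (5 / 4 * T) := by
    rw [Measure.restrict_apply_univ, hI, Real.volume_Icc]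
    congr 1
    ring
  have hpt : ∀ h, ‖∫ t, (w t : ℂ) * G h t‖ₑ ^ 2 ≤
      ENNReal.ofReal (5 / 4 * T) * ∫⁻ t in I, ‖G h t‖ₑ ^ 2 := by
    intro h
    have hm1 : Measurable (G h) := hGm.of_uncurry_left
    have h1 : ‖∫ t, (w t : ℂ) * G h t‖ₑ ≤ ∫⁻ t in I, ‖G h t‖ₑ := by
      refine (enorm_integral_le_lintegral_enorm _).trans ?_
      rw [← lintegral_indicator hIm]
      refine lintegral_mono fun t => ?_
      by_cases ht : t ∈ I
      · rw [Set.indicator_of_mem ht, enorm_mul]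
        have h2 : ‖(w t : ℂ)‖ₑ ≤ 1 := by
          rw [← ofReal_norm_eq_enorm, Complex.norm_real, Real.norm_eq_abs,
            abs_of_nonneg (hw.nonneg t)]
          exact ENNReal.ofReal_le_one.2 (hw.le_one t)
        calc ‖(w t : ℂ)‖ₑ * ‖G h t‖ₑ ≤ 1 * ‖G h t‖ₑ := by gcongr
          _ = _ := one_mul _
      · rw [Set.indicator_of_notMem ht, hw.supp t (by rwa [← hI]), Complex.ofReal_zero, zero_mul,
          enorm_zero]
    calc ‖∫ t, (w t : ℂ) * G h t‖ₑ ^ 2 ≤ (∫⁻ t in I, ‖G h t‖ₑ) ^ 2 := pow_le_pow_left' h1 2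
      _ ≤ (volume.restrict I) Set.univ * ∫⁻ t in I, ‖G h t‖ₑ ^ 2 := cs _ _ hm1.enorm
      _ = _ := by rw [hvol]
  calc ∫⁻ h in D, ‖∫ t, (w t : ℂ) * G h t‖ₑ ^ 2
      ≤ ∫⁻ h in D, ENNReal.ofReal (5 / 4 * T) * ∫⁻ t in I, ‖G h t‖ₑ ^ 2 :=
        lintegral_mono fun h => hpt h
    _ = ENNReal.ofReal (5 / 4 * T) * ∫⁻ h in D, ∫⁻ t in I, ‖G h t‖ₑ ^ 2 := by
        rw [lintegral_const_mul' _ _ ENNReal.ofReal_ne_top]
    _ = ENNReal.ofReal (5 / 4 * T) * ∫⁻ t in I, ∫⁻ h in D, ‖G h t‖ₑ ^ 2 := by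
        rw [lintegral_lintegral_swap]
        exact ((hGm.enorm.pow_const 2)).aemeasurable
    _ ≤ ENNReal.ofReal (5 / 4 * T) * ∫⁻ _t in I, B := by
        refine mul_le_mul_right ?_ _
        refine setLIntegral_mono' hIm fun t ht => ?_
        rw [hI] at ht
        exact hB t ht.1 ht.2
    _ = ENNReal.ofReal (5 / 4 * T) * (B * ENNReal.ofReal (5 / 4 * T)) := by
        rw [lintegral_const, hvol]

private theorem G_meas {m : ℕ} (ν : Fin (m + 1) → ℝ) (κ α Y : ℝ) :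
    Measurable (Function.uncurry fun (h : Fin m → ℝ) (t : ℝ) =>
      DgY Y (fun j => t + xs ν κ α h j) - Dg (fun j => t + xs ν κ α h j)) := by
  have h1 : Measurable fun z : (Fin m → ℝ) × ℝ =>
      DgY Y (fun j : Fin (m + 2) => z.2 + xs ν κ α z.1 j) :=
    Measurable.comp (dgy_meas (m + 1) Y) (xs_meas' ν κ α)
  have h2 : Measurable fun z : (Fin m → ℝ) × ℝ =>
      Dg (fun j : Fin (m + 2) => z.2 + xs ν κ α z.1 j) :=
    Measurable.comp (dg_meas (m + 2)) (xs_meas' ν κ α)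
  exact h1.sub h2

end DiagBAux

open DiagBAux

theorem diag_b {m : ℕ} (hm : 1 ≤ m) (ν : Fin (m + 1) → ℝ) (hν : Adm ν) : ∃ c C : ℝ, 0 < c ∧ 0 < C ∧
    ∀ (κ α T Λ : ℝ) (w : ℝ → ℝ), 64 ≤ T → Wn T Λ w →
    ∫⁻ h in Dm ν κ α T, ‖∫ t, (w t : ℂ) * (DgY (n1 m T) (fun j => t + xs ν κ α h j) - Dg (fun j => t + xs ν κ α h j))‖ₑ ^ 2 ≤
      ENNReal.ofReal (C * T ^ ((m : ℝ) + 2 - c)) := by
  obtain ⟨c, C, hc, hC, hms⟩ := main_ms hm ν hν (dd m) (dd_pos m) (dd_le m)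
  refine ⟨c, 25 / 16 * C, hc, by positivity, fun κ α T Λ w hT hw => ?_⟩
  have hT0 : 0 < T := by linarith
  have key := main_aux hT0 hw _ (G_meas ν κ α (n1 m T)) (Dm ν κ α T)
    (ENNReal.ofReal (C * T ^ ((m : ℝ) - c))) (fun t h1 h2 => hms κ α T t hT h1 h2)
  refine key.trans (le_of_eq ?_)
  rw [← ENNReal.ofReal_mul (by positivity), ← ENNReal.ofReal_mul (by positivity)]
  congr 1
  have h1 : T ^ ((m : ℝ) + 2 - c) = T ^ ((m : ℝ) - c) * T ^ 2 := by
    rw [← Real.rpow_natCast T 2, ← Real.rpow_add hT0]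
    congr 1
    push_cast
    ring
  rw [h1]
  ring

end Pool.Agent.P07318o
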