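import Pool.Agent.Lib.P07318o.Wdefs

/-!
# Expansion of one slot

PROOF. (1) Pointwise. Let `h ∈ Dm ν κ α T`. For every `t` : if `Z p (t + x_p) ≠ 0` (`x = xs ν κ α h`), then `t + x_p ∈ [T/4, 4T]`, `|x_r - x_p| ≤ T`, so `t + x_r ∈ [-T, 7T]` and `Z r (t + x_r) = ∑_i b_i (t + x_r)` (`HasSum`). Hence for every `t`:
`∏_j Z j (t + x_j) = ∑_i ∏_j (update Z r (b i)) j (t + x_j)` (both `0` if `Z p (t + x_p) = 0`; write the product as the factor `r` times the rest, `Finset.mul_prod_erase`, and `HasSum.mul_right`). The terms are continuous in `t`, vanish for `t + x_p ∉ [T/4, 4T]` (`p ≠ r`) and are bounded by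
`β i * ∏_{j ≠ r} B_j`. So `hasSum_integral_of_summable_norm` (or `hasSum_integral_of_summable_integral_norm`) on this interval: `HasSum (fun i => LL (update Z r (b i)) h) (LL Z h)`.
(2) `‖LL Z h‖ₑ ≤ ∑' i, ‖LL (update ..) h‖ₑ` (`enorm_tsum_le_tsum_enorm`), and Cauchy-Schwarz in `ENNReal` for `tsum` with weights: `(∑' i, x i)² ≤ (∑' i, ofReal (w i)) * ∑' i, (ofReal (w i))⁻¹ * x i ^ 2` (`ENNReal.inner_le_Lp_mul_Lq_tsum` with `p = q = 2` for
`ofReal (w i) ^ (1/2)` and `ofReal (w i) ^ (-1/2) * x i`, or Hoelder for the counting measure) and `∑' i, ofReal (w i) ≤ ofReal P` (`hwP`, `ENNReal.tsum_eq_iSup_sum`).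
(3) Integrate over `Dm`, `lintegral_tsum` (all functions `h ↦ LL (update Z r (b i)) h` are continuous, since the integrand is continuous in `(t, h)`, bounded, and vanishes unless `t + x_p(h) ∈ [T/4, 4T]`; or measurable: `MeasureTheory.StronglyMeasurable.integral_prod_right` applied to the jointly
continuous integrand, `xs_cont`), `lintegral_const_mul`.
-/

set_option autoImplicit false

namespace Pool.Agent.P07318o

open MeasureTheory Complex Pool.Agent.P07318s Pool.Agent.P07318f Pool.Agent.P07318h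

namespace ExpandAux

theorem cs_fin {ι : Type} (s : Finset ι) (w : ι → ℝ) (hw : ∀ i, 0 < w i) (x : ι → ENNReal) :
    ∑ i ∈ s, x i ≤ (∑ i ∈ s, ENNReal.ofReal (w i)) ^ (1 / 2 : ℝ) *
      (∑ i ∈ s, (ENNReal.ofReal (w i))⁻¹ * x i ^ 2) ^ (1 / 2 : ℝ) := by
  have h0 : ∀ i, ENNReal.ofReal (w i) ≠ 0 := fun i => by
    rw [Ne, ENNReal.ofReal_eq_zero, not_le]; exact hw i
  have h := ENNReal.inner_le_Lp_mul_Lq s (fun i => ENNReal.ofReal (w i) ^ (1 / 2 : ℝ))
    (fun i => (ENNReal.ofReal (w i) ^ (1 / 2 : ℝ))⁻¹ * x i) Real.HolderConjugate.two_two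
  have e1 : ∀ i, ENNReal.ofReal (w i) ^ (1 / 2 : ℝ) *
      ((ENNReal.ofReal (w i) ^ (1 / 2 : ℝ))⁻¹ * x i) = x i := by
    intro i
    rw [← mul_assoc, ENNReal.mul_inv_cancel, one_mul]
    · exact (ENNReal.rpow_pos (pos_iff_ne_zero.2 (h0 i)) ENNReal.ofReal_ne_top).ne'
    · exact ENNReal.rpow_ne_top_of_nonneg (by norm_num) ENNReal.ofReal_ne_top
  have e2 : ∀ i, (ENNReal.ofReal (w i) ^ (1 / 2 : ℝ)) ^ (2 : ℝ) = ENNReal.ofReal (w i) := by
    intro i
    rw [← ENNReal.rpow_mul]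
    norm_num
  have e3 : ∀ i, ((ENNReal.ofReal (w i) ^ (1 / 2 : ℝ))⁻¹ * x i) ^ (2 : ℝ) =
      (ENNReal.ofReal (w i))⁻¹ * x i ^ 2 := by
    intro i
    rw [ENNReal.mul_rpow_of_nonneg _ _ (by norm_num), ENNReal.inv_rpow, e2, ← ENNReal.rpow_natCast]
    norm_num
  simp only [e1, e2, e3] at h
  exact h

theorem cs_tsum {ι : Type} (w : ι → ℝ) (P : ℝ) (hw : ∀ i, 0 < w i)
    (hwP : ∀ s : Finset ι, ∑ i ∈ s, w i ≤ P) (x : ι → ENNReal) :
    (∑' i, x i) ^ 2 ≤ ENNReal.ofReal P * ∑' i, (ENNReal.ofReal (w i))⁻¹ * x i ^ 2 := by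
  have h1 : ∑' i, x i ≤ (ENNReal.ofReal P) ^ (1 / 2 : ℝ) *
      (∑' i, (ENNReal.ofReal (w i))⁻¹ * x i ^ 2) ^ (1 / 2 : ℝ) := by
    rw [ENNReal.tsum_eq_iSup_sum]
    refine iSup_le fun s => (cs_fin s w hw x).trans ?_
    refine mul_le_mul' (ENNReal.rpow_le_rpow ?_ (by norm_num))
      (ENNReal.rpow_le_rpow (ENNReal.sum_le_tsum s) (by norm_num))
    rw [← ENNReal.ofReal_sum_of_nonneg fun i _ => (hw i).le]
    exact ENNReal.ofReal_le_ofReal (hwP s)
  refine (pow_le_pow_left' h1 2).trans (le_of_eq ?_)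
  rw [mul_pow, ← ENNReal.rpow_natCast, ← ENNReal.rpow_natCast, ← ENNReal.rpow_mul,
    ← ENNReal.rpow_mul]
  norm_num

/-- the product without the slot `r` -/
noncomputable def Rst {m : ℕ} (ν : Fin (m + 1) → ℝ) (κ α : ℝ) (Z : Fin (m + 2) → ℝ → ℂ)
    (r : Fin (m + 2)) (h : Fin m → ℝ) (t : ℝ) : ℂ :=
  ∏ j ∈ Finset.univ.erase r, Z j (t + xs ν κ α h j)

theorem prod_update {m : ℕ} (ν : Fin (m + 1) → ℝ) (κ α : ℝ) (Z : Fin (m + 2) → ℝ → ℂ)
    (r : Fin (m + 2)) (b : ℝ → ℂ) (h : Fin m → ℝ) (t : ℝ) :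
    ∏ j, (Function.update Z r b) j (t + xs ν κ α h j) =
      b (t + xs ν κ α h r) * Rst ν κ α Z r h t := by
  rw [← Finset.mul_prod_erase Finset.univ _ (Finset.mem_univ r), Function.update_self]
  congr 1
  refine Finset.prod_congr rfl fun j hj => ?_
  rw [Function.update_of_ne (Finset.ne_of_mem_erase hj)]

theorem prod_self {m : ℕ} (ν : Fin (m + 1) → ℝ) (κ α : ℝ) (Z : Fin (m + 2) → ℝ → ℂ)
    (r : Fin (m + 2)) (h : Fin m → ℝ) (t : ℝ) :
    ∏ j, Z j (t + xs ν κ α h j) = Z r (t + xs ν κ α h r) * Rst ν κ α Z r h t :=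
  (Finset.mul_prod_erase Finset.univ _ (Finset.mem_univ r)).symm

theorem Rst_cont {m : ℕ} (ν : Fin (m + 1) → ℝ) (κ α : ℝ) (Z : Fin (m + 2) → ℝ → ℂ)
    (r : Fin (m + 2)) (hZ : ∀ j, j ≠ r → Continuous (Z j)) :
    Continuous fun q : (Fin m → ℝ) × ℝ => Rst ν κ α Z r q.1 q.2 := by
  refine continuous_finset_prod _ fun j hj => ?_
  exact (hZ j (Finset.ne_of_mem_erase hj)).comp
    (continuous_snd.add ((continuous_apply j).comp ((xs_cont ν κ α).comp continuous_fst)))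

theorem meas_LL {m : ℕ} (ν : Fin (m + 1) → ℝ) (κ α : ℝ) (Z : Fin (m + 2) → ℝ → ℂ)
    (r : Fin (m + 2)) (hZ : ∀ j, j ≠ r → Continuous (Z j)) (b : ℝ → ℂ) (hb : Continuous b) :
    Measurable fun h : Fin m → ℝ => LL ν κ α (Function.update Z r b) h := by
  have hc : Continuous fun q : (Fin m → ℝ) × ℝ =>
      ∏ j, (Function.update Z r b) j (q.2 + xs ν κ α q.1 j) := by
    simp only [prod_update]
    refine Continuous.mul ?_ (Rst_cont ν κ α Z r hZ)
    exact hb.comp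
      (continuous_snd.add ((continuous_apply r).comp ((xs_cont ν κ α).comp continuous_fst)))
  exact (StronglyMeasurable.integral_prod_right (ν := volume)
    (f := fun (h : Fin m → ℝ) (t : ℝ) => ∏ j, (Function.update Z r b) j (t + xs ν κ α h j))
    hc.stronglyMeasurable).measurable

theorem meas_Dm {m : ℕ} (ν : Fin (m + 1) → ℝ) (κ α T : ℝ) : MeasurableSet (Dm ν κ α T) := by
  have h1 : Dm ν κ α T = ⋂ j, {h | xs ν κ α h j ∈ Set.Icc T (2 * T)} := by
    ext h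
    simp [Dm]
  rw [h1]
  exact MeasurableSet.iInter fun j => (isClosed_Icc.preimage
    ((continuous_apply j).comp (xs_cont ν κ α))).measurableSet

theorem hasSum_LL {m : ℕ} (ν : Fin (m + 1) → ℝ) (κ α T : ℝ) (hT : 4 ≤ T) {ι : Type} [Countable ι]
    (Z : Fin (m + 2) → ℝ → ℂ) (r p : Fin (m + 2)) (hpr : p ≠ r) (hZ : ∀ j, j ≠ r → Continuous (Z j))
    (hZb : ∀ j, j ≠ r → ∃ B : ℝ, ∀ y, ‖Z j y‖ ≤ B) (hp : ∀ y, y ∉ Set.Icc (T / 4) (4 * T) → Z p y = 0)
    (b : ι → ℝ → ℂ) (β : ι → ℝ) (hb : ∀ i, Continuous (b i)) (hβ : ∀ i y, ‖b i y‖ ≤ β i)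
    (hβs : Summable β)
    (hsum : ∀ y, -T ≤ y → y ≤ 7 * T → HasSum (fun i => b i y) (Z r y)) {h : Fin m → ℝ}
    (hh : h ∈ Dm ν κ α T) :
    HasSum (fun i => LL ν κ α (Function.update Z r (b i)) h) (LL ν κ α Z h) := by
  have hβ0 : ∀ i, 0 ≤ β i := fun i => (norm_nonneg _).trans (hβ i 0)
  obtain ⟨x, hx⟩ : ∃ x, x = xs ν κ α h := ⟨_, rfl⟩
  have hxr := hh r
  have hxp := hh p
  rw [← hx, Set.mem_Icc] at hxr hxp
  -- the rest vanishes outside a compact interval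
  have hR0 : ∀ t, t ∉ Set.Icc (T / 4 - x p) (4 * T - x p) → Rst ν κ α Z r h t = 0 := by
    intro t ht
    refine Finset.prod_eq_zero (i := p) (Finset.mem_erase.2 ⟨hpr, Finset.mem_univ p⟩) ?_
    rw [← hx]
    apply hp
    intro h1
    apply ht
    rw [Set.mem_Icc] at h1 ⊢
    constructor <;> linarith [h1.1, h1.2]
  have hRc : Continuous fun t => Rst ν κ α Z r h t :=
    (Rst_cont ν κ α Z r hZ).comp (Continuous.prodMk_right h)
  obtain ⟨K, hK⟩ : ∃ K : ℝ, ∀ t, ‖Rst ν κ α Z r h t‖ ≤ K := by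
    have hB : ∀ j, ∃ B : ℝ, j ≠ r → ∀ y, ‖Z j y‖ ≤ B := by
      intro j
      by_cases hj : j = r
      · exact ⟨0, fun h => absurd hj h⟩
      · obtain ⟨B, hB⟩ := hZb j hj
        exact ⟨B, fun _ => hB⟩
    choose B hB using hB
    refine ⟨∏ j ∈ Finset.univ.erase r, B j, fun t => ?_⟩
    unfold Rst
    rw [norm_prod]
    exact Finset.prod_le_prod (fun _ _ => norm_nonneg _)
      fun j hj => hB j (Finset.ne_of_mem_erase hj) _
  have hK0 : 0 ≤ K := (norm_nonneg _).trans (hK 0)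
  -- the terms
  have hFc : ∀ i, Continuous fun t => b i (t + x r) * Rst ν κ α Z r h t := fun i =>
    ((hb i).comp (continuous_id.add continuous_const)).mul hRc
  have hF0 : ∀ i t, t ∉ Set.Icc (T / 4 - x p) (4 * T - x p) →
      b i (t + x r) * Rst ν κ α Z r h t = 0 := fun i t ht => by rw [hR0 t ht, mul_zero]
  have hFi : ∀ i, Integrable (fun t => b i (t + x r) * Rst ν κ α Z r h t) := fun i =>
    (hFc i).integrable_of_hasCompactSupport (HasCompactSupport.intro isCompact_Icc (hF0 i))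
  have hFn : ∀ i, ∫ t, ‖b i (t + x r) * Rst ν κ α Z r h t‖ ≤ β i * (K * (4 * T)) := by
    intro i
    have h1 : ∫ t, ‖b i (t + x r) * Rst ν κ α Z r h t‖ =
        ∫ t in Set.Icc (T / 4 - x p) (4 * T - x p), ‖b i (t + x r) * Rst ν κ α Z r h t‖ := by
      symm
      apply setIntegral_eq_integral_of_forall_compl_eq_zero
      intro t ht
      rw [hF0 i t ht, norm_zero]
    rw [h1]
    have h2 : ∫ t in Set.Icc (T / 4 - x p) (4 * T - x p), ‖b i (t + x r) * Rst ν κ α Z r h t‖ ≤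
        ∫ t in Set.Icc (T / 4 - x p) (4 * T - x p), β i * K := by
      apply setIntegral_mono_on (hFi i).norm.integrableOn _ measurableSet_Icc
      · intro t _
        rw [norm_mul]
        exact mul_le_mul (hβ i _) (hK t) (norm_nonneg _) (hβ0 i)
      · exact integrableOn_const (by simp)
    refine h2.trans ?_
    rw [setIntegral_const, smul_eq_mul, measureReal_def, Real.volume_Icc,
      ENNReal.toReal_ofReal (by linarith)]
    have h3 : 0 ≤ β i * K := mul_nonneg (hβ0 i) hK0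
    nlinarith
  have hmain := hasSum_integral_of_summable_integral_norm hFi
    (Summable.of_nonneg_of_le (fun i => integral_nonneg fun t => norm_nonneg _) hFn
      (hβs.mul_right _))
  have e1 : ∀ i, LL ν κ α (Function.update Z r (b i)) h =
      ∫ t, b i (t + x r) * Rst ν κ α Z r h t := by
    intro i
    unfold LL
    simp only [prod_update, hx]
  have e2 : LL ν κ α Z h = ∫ t, ∑' i, b i (t + x r) * Rst ν κ α Z r h t := by
    unfold LL
    congr 1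
    funext t
    rw [prod_self ν κ α Z r h t, ← hx]
    by_cases ht : t ∈ Set.Icc (T / 4 - x p) (4 * T - x p)
    · have h1 : HasSum (fun i => b i (t + x r)) (Z r (t + x r)) := by
        rw [Set.mem_Icc] at ht
        apply hsum <;> linarith [ht.1, ht.2, hxr.1, hxr.2, hxp.1, hxp.2]
      exact ((h1.mul_right _).tsum_eq).symm
    · rw [hR0 t ht]
      simp
  simp only [e1]
  rw [e2]
  exact hmain

end ExpandAux

open ExpandAux

theorem expand {m : ℕ} (ν : Fin (m + 1) → ℝ) (κ α T : ℝ) (hT : 4 ≤ T) {ι : Type} [Countable ι]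
    (Z : Fin (m + 2) → ℝ → ℂ) (r p : Fin (m + 2)) (hpr : p ≠ r) (hZ : ∀ j, j ≠ r → Continuous (Z j))
    (hZb : ∀ j, j ≠ r → ∃ B : ℝ, ∀ y, ‖Z j y‖ ≤ B) (hp : ∀ y, y ∉ Set.Icc (T / 4) (4 * T) → Z p y = 0)
    (b : ι → ℝ → ℂ) (β w : ι → ℝ) (P : ℝ) (hb : ∀ i, Continuous (b i)) (hβ : ∀ i y, ‖b i y‖ ≤ β i) (hβs : Summable β)
    (hsum : ∀ y, -T ≤ y → y ≤ 7 * T → HasSum (fun i => b i y) (Z r y)) (hw : ∀ i, 0 < w i)
    (hwP : ∀ s : Finset ι, ∑ i ∈ s, w i ≤ P) :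
    ∫⁻ h in Dm ν κ α T, ‖LL ν κ α Z h‖ₑ ^ 2 ≤
      ENNReal.ofReal P * ∑' i, (ENNReal.ofReal (w i))⁻¹ *
        ∫⁻ h in Dm ν κ α T, ‖LL ν κ α (Function.update Z r (b i)) h‖ₑ ^ 2 := by
  have hmeas : ∀ i, Measurable fun h : Fin m → ℝ =>
      (ENNReal.ofReal (w i))⁻¹ * ‖LL ν κ α (Function.update Z r (b i)) h‖ₑ ^ 2 := fun i =>
    ((meas_LL ν κ α Z r hZ (b i) (hb i)).enorm.pow_const 2).const_mul _
  have h1 : ∫⁻ h in Dm ν κ α T, ‖LL ν κ α Z h‖ₑ ^ 2 ≤ ∫⁻ h in Dm ν κ α T, ENNReal.ofReal P *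
      ∑' i, (ENNReal.ofReal (w i))⁻¹ * ‖LL ν κ α (Function.update Z r (b i)) h‖ₑ ^ 2 := by
    refine setLIntegral_mono' (meas_Dm ν κ α T) fun h hh => ?_
    have h2 := (hasSum_LL ν κ α T hT Z r p hpr hZ hZb hp b β hb hβ hβs hsum hh).tsum_eq
    have h3 : ‖LL ν κ α Z h‖ₑ ≤ ∑' i, ‖LL ν κ α (Function.update Z r (b i)) h‖ₑ := by
      rw [← h2]
      exact enorm_tsum_le_tsum_enorm
    exact (pow_le_pow_left' h3 2).trans (cs_tsum w P hw hwP _)
  refine h1.trans (le_of_eq ?_)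
  rw [lintegral_const_mul' _ _ ENNReal.ofReal_ne_top,
    lintegral_tsum fun i => (hmeas i).aemeasurable]
  congr 1
  refine tsum_congr fun i => ?_
  rw [lintegral_const_mul _ ((meas_LL ν κ α Z r hZ (b i) (hb i)).enorm.pow_const 2)]

end Pool.Agent.P07318o
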