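import Pool.Agent.Lib.P07318o.Meas
import Pool.Agent.Lib.P07318o.Between
import Pool.Agent.Lib.P07318o.DgLog
import Pool.Agent.Lib.P07318h.MainPt

/-!
# The final theorem

PROOF. `k = m + 2`, `L = lg T`. For `T ≥ T₀` (`meas` with `ε/2`): let `h ∈ Dm`, `h ∉ X`. `between` with `F t = ∏_j gz (t + x_j)` (continuous, `≥ 0`), `D t = Dg (t + x)`: continuous on `[-T/8, 9T/8]` (`Dg_continuousOn`, all heights `≥ 7T/8 > 0`), `‖D‖ ≤ C (1 + log T)^(k²)` there (`dg_log` with `U = 7T/8`, heights in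
`[7T/8, 25T/8]`), `n = nn m T ≥ 16`, `8 (T/n) M ≤ C T L^(k²)/(16 L^(k²)) ≤ C T`. So `‖∫_0^V (F - Dg)‖ ≤ C T L^(k/2 + ε/2)` for all `V ∈ [0, T]`. `main_pt` (P07318h/MainPt.lean with `k = m+2`, `δ₁ = 1/4`, `U = T`: heights in `[T, 3T] ⊆ [U, 4U]` for `t ∈ [0, V]`, `|x_i - x_j| ≥ T^(1/2) ≥ U^(1/4)`, `T ≥ U₀`):
`‖∫_0^V (Dg - mainTerm)‖ ≤ V C T^(-c) ≤ C T` (integrability of `mainTerm` along the path: if `t ↦ F t - mainTerm (t + x)` is not interval integrable its integral is `0` by definition and the claim is trivial; otherwise subtract the integrable `F - Dg`; `norm_integral_le_of_norm_le_const`).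
Total `≤ C T L^(k/2+ε/2) ≤ C (log T)^(k/2 + ε) T` for `T ≥ T₀` (`L ≤ 2 log T`, `T ≥ 3`). Hence the set is contained in `X ∩ Dm`, of measure `≤ C T^m L^(-η) ≤ C T^m (log T)^(-η)` (`log T ≤ L`).
For `2 ≤ T < T₀`: the set is contained in `Dm ⊆ {h | ∀ j, h j ∈ [T, 2T]}` (`xs_succ`), of measure `T^m ≤ C T^m (log T)^(-η)` with `C ≥ (log T₀)^η` (`(log T)^(-η) ≥ (log T₀)^(-η)`). The constant in front of the bound for the integral and for the measure: take the maximum.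
`‖riemannZeta (1/2 + (t + a : ℝ) I)‖² = gz (t + a)` by definition (`gz x = ‖riemannZeta (1/2 + x * I)‖²`).
-/

set_option autoImplicit false

namespace Pool.Agent.P07318o

open MeasureTheory Complex Pool.Agent.P07318s Pool.Agent.P07318f Pool.Agent.P07318h

namespace FinAux

lemma one_le_lg {T : ℝ} (hT : 1 ≤ T) : 1 ≤ lg T := by
  unfold lg
  have := Real.log_nonneg hT
  linarith

lemma nn_ge {m : ℕ} {T : ℝ} (hT : 1 ≤ T) : 16 ≤ nn m T := by
  unfold nn
  have h1 : 0 < lg T ^ ((m + 2) ^ 2) := pow_pos (lt_of_lt_of_le one_pos (one_le_lg hT)) _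
  have h2 : 1 ≤ ⌈lg T ^ ((m + 2) ^ 2)⌉₊ := Nat.one_le_iff_ne_zero.2 (Nat.ceil_pos.2 h1).ne'
  omega

lemma dg_cont {k : ℕ} {x : Fin k → ℝ} {a b : ℝ} (h : ∀ j, 0 < a + x j) :
    ContinuousOn (fun t => Dg (fun j => t + x j)) (Set.Icc a b) := by
  have h1 : Continuous fun t : ℝ => fun j : Fin k => t + x j :=
    continuous_pi fun j => continuous_id.add continuous_const
  refine (Dg_continuousOn k).comp h1.continuousOn ?_
  intro t ht j
  have := h j
  show 0 < t + x j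
  linarith [ht.1]

lemma prod_cont {k : ℕ} (x : Fin k → ℝ) : Continuous fun t : ℝ => ∏ j, gz (t + x j) :=
  continuous_finset_prod _ fun j _ => gz_cont.comp (continuous_id.add continuous_const)

lemma key {k : ℕ} {x : Fin k → ℝ} {T V E1 E2 : ℝ} (hT : 0 < T) (hV : V ∈ Set.Icc 0 T) (hx : ∀ j, 0 < x j)
    (h1 : ‖∫ t in (0:ℝ)..V, (((∏ j, gz (t + x j) : ℝ) : ℂ) - Dg (fun j => t + x j))‖ ≤ E1) (hE2 : 0 ≤ E2)
    (h2 : ∀ t ∈ Set.Icc 0 V, ‖Dg (fun j => t + x j) - mainTerm (fun j => t + x j)‖ ≤ E2) :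
    ‖∫ t in (0:ℝ)..V, (((∏ j, gz (t + x j) : ℝ) : ℂ) - mainTerm (fun j => t + x j))‖ ≤ E1 + T * E2 := by
  have hE1 : 0 ≤ E1 := (norm_nonneg _).trans h1
  by_cases hi : IntervalIntegrable (fun t => ((∏ j, gz (t + x j) : ℝ) : ℂ) - mainTerm (fun j => t + x j)) volume 0 V
  · have hi1 : IntervalIntegrable (fun t => ((∏ j, gz (t + x j) : ℝ) : ℂ) - Dg (fun j => t + x j)) volume 0 V := by
      refine ContinuousOn.intervalIntegrable ?_
      rw [Set.uIcc_of_le hV.1]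
      refine ((Complex.continuous_ofReal.comp (prod_cont x)).continuousOn).sub (dg_cont fun j => ?_)
      have := hx j
      linarith
    have hi2 := hi.sub hi1
    have e : ∫ t in (0:ℝ)..V, (((∏ j, gz (t + x j) : ℝ) : ℂ) - mainTerm (fun j => t + x j)) =
        (∫ t in (0:ℝ)..V, (((∏ j, gz (t + x j) : ℝ) : ℂ) - Dg (fun j => t + x j))) +
        ∫ t in (0:ℝ)..V, (Dg (fun j => t + x j) - mainTerm (fun j => t + x j)) := by
      have e1 : (fun t => Dg (fun j => t + x j) - mainTerm (fun j => t + x j)) =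
          fun t => (((∏ j, gz (t + x j) : ℝ) : ℂ) - mainTerm (fun j => t + x j)) -
            (((∏ j, gz (t + x j) : ℝ) : ℂ) - Dg (fun j => t + x j)) := by
        funext t; ring
      rw [e1, intervalIntegral.integral_sub hi hi1]
      ring
    rw [e]
    refine (norm_add_le _ _).trans (add_le_add h1 ?_)
    refine (intervalIntegral.norm_integral_le_of_norm_le_const (C := E2) ?_).trans ?_
    · intro t ht
      rw [Set.uIoc_of_le hV.1] at ht
      exact h2 t ⟨ht.1.le, ht.2⟩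
    · rw [sub_zero, abs_of_nonneg hV.1, mul_comm]
      exact mul_le_mul_of_nonneg_right hV.2 hE2
  · rw [intervalIntegral.integral_undef hi, norm_zero]
    positivity

end FinAux

open FinAux

theorem final {m : ℕ} (hm : 1 ≤ m) (ν : Fin (m + 1) → ℝ) (hν : Adm ν) (ε : ℝ) (hε : 0 < ε) :
    ∃ C η : ℝ, 0 < C ∧ 0 < η ∧ ∀ T κ α : ℝ, 2 ≤ T → T ≤ α → α ≤ 2 * T →
    volume {h : Fin m → ℝ | (∀ j, T ≤ xs ν κ α h j ∧ xs ν κ α h j ≤ 2 * T) ∧ ∃ V ∈ Set.Icc 0 T,
      C * T * Real.log T ^ (((m : ℝ) + 2) / 2 + ε) <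
      ‖∫ t in (0:ℝ)..V, (((∏ j, ‖riemannZeta (1 / 2 + ((t + xs ν κ α h j : ℝ) : ℂ) * I)‖ ^ 2 : ℝ) : ℂ) -
        mainTerm (fun j => t + xs ν κ α h j))‖} ≤
      ENNReal.ofReal (C * T ^ m * Real.log T ^ (-η)) := by
  obtain ⟨C₁, T₁, η, hC₁, hT₁, hη, hM⟩ := meas hm ν hν (ε / 2) (half_pos hε)
  obtain ⟨C₂, hC₂, hdg⟩ := dg_log (m + 2)
  obtain ⟨c₃, C₃, U₀, hc₃, hC₃, hU₀, hmp⟩ := main_pt (m + 2) (1 / 4) (by norm_num) (by norm_num)
  obtain ⟨T₀, hT₀⟩ : ∃ T₀ : ℝ, T₀ = max T₁ U₀ := ⟨_, rfl⟩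
  have hT₀1 : T₁ ≤ T₀ := hT₀ ▸ le_max_left _ _
  have hT₀2 : U₀ ≤ T₀ := hT₀ ▸ le_max_right _ _
  obtain ⟨p, hp⟩ : ∃ p : ℝ, p = ((m : ℝ) + 2) / 2 + ε / 2 := ⟨_, rfl⟩
  have hp0 : 0 ≤ p := by rw [hp]; positivity
  have hlT0 : 0 ≤ Real.log T₀ := Real.log_nonneg (by linarith)
  obtain ⟨C, hC⟩ : ∃ C : ℝ, C = (2 * C₁ + C₂ + C₃) * 2 ^ p + C₁ + Real.log T₀ ^ η := ⟨_, rfl⟩
  have h2p : 0 < (2:ℝ) ^ p := Real.rpow_pos_of_pos two_pos _
  have hlog0 : 0 ≤ Real.log T₀ ^ η := Real.rpow_nonneg hlT0 _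
  have hCa : (2 * C₁ + C₂ + C₃) * 2 ^ p ≤ C := by rw [hC]; linarith
  have hCb : C₁ ≤ C := by
    rw [hC]
    have : 0 < (2 * C₁ + C₂ + C₃) * 2 ^ p := by positivity
    linarith
  have hCc : Real.log T₀ ^ η ≤ C := by
    rw [hC]
    have : 0 < (2 * C₁ + C₂ + C₃) * 2 ^ p := by positivity
    linarith
  have hCpos : 0 < C := lt_of_lt_of_le hC₁ hCb
  refine ⟨C, η, hCpos, hη, fun T κ α hT2 hTα hα => ?_⟩
  have hTpos : 0 < T := by linarith
  have hlogT : 0 < Real.log T := Real.log_pos (by linarith)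
  rcases lt_or_ge T T₀ with hT | hT
  · -- small T
    have hsub : {h : Fin m → ℝ | (∀ j, T ≤ xs ν κ α h j ∧ xs ν κ α h j ≤ 2 * T) ∧ ∃ V ∈ Set.Icc 0 T,
      C * T * Real.log T ^ (((m : ℝ) + 2) / 2 + ε) <
      ‖∫ t in (0:ℝ)..V, (((∏ j, ‖riemannZeta (1 / 2 + ((t + xs ν κ α h j : ℝ) : ℂ) * I)‖ ^ 2 : ℝ) : ℂ) -
        mainTerm (fun j => t + xs ν κ α h j))‖} ⊆ Set.pi Set.univ fun _ : Fin m => Set.Icc T (2 * T) := by
      rintro h ⟨h1, _⟩ j _
      have := h1 j.succ.castSucc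
      rw [xs_succ] at this
      exact this
    refine (measure_mono hsub).trans ?_
    simp only [volume_pi_pi, Real.volume_Icc]
    rw [Finset.prod_const, Finset.card_univ, Fintype.card_fin, show 2 * T - T = T by ring,
      ← ENNReal.ofReal_pow hTpos.le]
    refine ENNReal.ofReal_le_ofReal ?_
    have h1 : Real.log T ≤ Real.log T₀ := Real.log_le_log hTpos hT.le
    have h2 : Real.log T ^ η ≤ C := (Real.rpow_le_rpow hlogT.le h1 hη.le).trans hCc
    have h3 : 0 < Real.log T ^ η := Real.rpow_pos_of_pos hlogT _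
    have h4 : 1 ≤ C * Real.log T ^ (-η) := by
      rw [Real.rpow_neg hlogT.le, ← div_eq_mul_inv, le_div_iff₀ h3]
      linarith
    calc T ^ m = T ^ m * 1 := (mul_one _).symm
      _ ≤ T ^ m * (C * Real.log T ^ (-η)) := mul_le_mul_of_nonneg_left h4 (by positivity)
      _ = C * T ^ m * Real.log T ^ (-η) := by ring
  · have hTT₁ : T₁ ≤ T := hT₀1.trans hT
    have hTU₀ : U₀ ≤ T := hT₀2.trans hT
    have hT64 : 64 ≤ T := hT₁.trans hTT₁
    obtain ⟨X, hX, hXh⟩ := hM κ α T hTT₁ hTα hα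
    have hlg1 : 1 ≤ lg T := one_le_lg (by linarith)
    have hlg0 : 0 < lg T := by linarith
    have hlogT1 : 1 ≤ Real.log T := by
      rw [Real.le_log_iff_exp_le hTpos]
      have := Real.exp_one_lt_d9
      linarith
    have hsub : {h : Fin m → ℝ | (∀ j, T ≤ xs ν κ α h j ∧ xs ν κ α h j ≤ 2 * T) ∧ ∃ V ∈ Set.Icc 0 T,
      C * T * Real.log T ^ (((m : ℝ) + 2) / 2 + ε) <
      ‖∫ t in (0:ℝ)..V, (((∏ j, ‖riemannZeta (1 / 2 + ((t + xs ν κ α h j : ℝ) : ℂ) * I)‖ ^ 2 : ℝ) : ℂ) -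
        mainTerm (fun j => t + xs ν κ α h j))‖} ⊆ X := by
      rintro h ⟨h1, V, hV, hlt⟩
      by_contra hhX
      obtain ⟨hsep, hw1, hw2⟩ := hXh h (fun j => ⟨(h1 j).1, (h1 j).2⟩) hhX
      rw [← hp] at hw1 hw2
      have hLp : 1 ≤ lg T ^ p := Real.one_le_rpow hlg1 hp0
      -- between
      have hDM : ∀ t ∈ Set.Icc (-(T / 8)) (9 * T / 8), ‖Dg (fun j => t + xs ν κ α h j)‖ ≤ C₂ * lg T ^ ((m + 2) ^ 2) := by
        intro t ht
        have e := hdg (7 * T / 8) (fun j => t + xs ν κ α h j) (by linarith)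
          (fun j => by have := (h1 j).1; linarith [ht.1]) (fun j => by have := (h1 j).2; linarith [ht.2])
        refine e.trans (mul_le_mul_of_nonneg_left ?_ hC₂.le)
        have h5 : 0 ≤ Real.log (7 * T / 8) := Real.log_nonneg (by linarith)
        refine pow_le_pow_left₀ (by linarith) ?_ _
        unfold lg
        have := Real.log_le_log (show 0 < 7 * T / 8 by linarith) (show 7 * T / 8 ≤ T by linarith)
        linarith
      have hb := between (F := fun t => ∏ j, gz (t + xs ν κ α h j)) (D := fun t => Dg (fun j => t + xs ν κ α h j))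
        (T := T) (M := C₂ * lg T ^ ((m + 2) ^ 2)) (Err := C₁ * T * lg T ^ p) (n := nn m T) (by linarith)
        (nn_ge (by linarith)) (prod_cont _) (fun t => Finset.prod_nonneg fun j _ => gz_nonneg _)
        (dg_cont fun j => by have := (h1 j).1; linarith) hDM hw1 hw2 V hV
      -- the error of the grid
      have hgrid : 8 * (T / nn m T) * (C₂ * lg T ^ ((m + 2) ^ 2)) ≤ C₂ * T := by
        have hLK : 0 < lg T ^ ((m + 2) ^ 2) := pow_pos hlg0 _
        have hn : 16 * lg T ^ ((m + 2) ^ 2) ≤ (nn m T : ℝ) := by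
          unfold nn
          push_cast
          have := Nat.le_ceil (lg T ^ ((m + 2) ^ 2))
          linarith
        have hnpos : 0 < (nn m T : ℝ) := by linarith
        have h6 : 8 * (T / nn m T) * (C₂ * lg T ^ ((m + 2) ^ 2)) = (C₂ * T) * (8 * lg T ^ ((m + 2) ^ 2) / nn m T) := by
          field_simp
        rw [h6]
        have h7 : 8 * lg T ^ ((m + 2) ^ 2) / nn m T ≤ 1 := by
          rw [div_le_one hnpos]
          linarith
        exact mul_le_of_le_one_right (by positivity) h7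
      have h2 : ∀ t ∈ Set.Icc 0 V, ‖Dg (fun j => t + xs ν κ α h j) - mainTerm (fun j => t + xs ν κ α h j)‖ ≤ C₃ := by
        intro t ht
        refine (hmp T (fun j => t + xs ν κ α h j) hTU₀ (fun j => by have := (h1 j).1; linarith [ht.1])
          (fun j => by have := (h1 j).2; linarith [ht.2, hV.2]) (fun i j hij => ?_)).trans ?_
        · have e := hsep i j hij
          rw [show t + xs ν κ α h i - (t + xs ν κ α h j) = xs ν κ α h i - xs ν κ α h j by ring]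
          refine le_trans ?_ e
          exact Real.rpow_le_rpow_of_exponent_le (by linarith) (by norm_num)
        · have : T ^ (-c₃) ≤ 1 := Real.rpow_le_one_of_one_le_of_nonpos (by linarith) (by linarith)
          calc C₃ * T ^ (-c₃) ≤ C₃ * 1 := mul_le_mul_of_nonneg_left this hC₃.le
            _ = C₃ := mul_one _
      have hk := key (x := xs ν κ α h) hTpos hV (fun j => lt_of_lt_of_le hTpos (h1 j).1) hb hC₃.le h2
      have htot : 2 * (C₁ * T * lg T ^ p) + 8 * (T / nn m T) * (C₂ * lg T ^ ((m + 2) ^ 2)) + T * C₃ ≤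
          C * T * Real.log T ^ (((m : ℝ) + 2) / 2 + ε) := by
        have e1 : 2 * (C₁ * T * lg T ^ p) + 8 * (T / nn m T) * (C₂ * lg T ^ ((m + 2) ^ 2)) + T * C₃ ≤
            (2 * C₁ + C₂ + C₃) * T * lg T ^ p := by
          have : C₂ * T + T * C₃ ≤ (C₂ + C₃) * T * lg T ^ p := by
            calc C₂ * T + T * C₃ = (C₂ + C₃) * T * 1 := by ring
              _ ≤ (C₂ + C₃) * T * lg T ^ p := mul_le_mul_of_nonneg_left hLp (by positivity)
          nlinarith
        have e2 : lg T ^ p ≤ 2 ^ p * Real.log T ^ (((m : ℝ) + 2) / 2 + ε) := by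
          calc lg T ^ p ≤ (2 * Real.log T) ^ p := Real.rpow_le_rpow hlg0.le (by unfold lg; linarith) hp0
            _ = 2 ^ p * Real.log T ^ p := Real.mul_rpow (by norm_num) hlogT.le
            _ ≤ 2 ^ p * Real.log T ^ (((m : ℝ) + 2) / 2 + ε) := by
                refine mul_le_mul_of_nonneg_left ?_ h2p.le
                exact Real.rpow_le_rpow_of_exponent_le hlogT1 (by rw [hp]; linarith)
        have hq : 0 ≤ Real.log T ^ (((m : ℝ) + 2) / 2 + ε) := Real.rpow_nonneg hlogT.le _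
        calc 2 * (C₁ * T * lg T ^ p) + 8 * (T / nn m T) * (C₂ * lg T ^ ((m + 2) ^ 2)) + T * C₃
            ≤ (2 * C₁ + C₂ + C₃) * T * lg T ^ p := e1
          _ ≤ (2 * C₁ + C₂ + C₃) * T * (2 ^ p * Real.log T ^ (((m : ℝ) + 2) / 2 + ε)) :=
              mul_le_mul_of_nonneg_left e2 (by positivity)
          _ = ((2 * C₁ + C₂ + C₃) * 2 ^ p) * (T * Real.log T ^ (((m : ℝ) + 2) / 2 + ε)) := by ring
          _ ≤ C * (T * Real.log T ^ (((m : ℝ) + 2) / 2 + ε)) :=
              mul_le_mul_of_nonneg_right hCa (mul_nonneg hTpos.le hq)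
          _ = C * T * Real.log T ^ (((m : ℝ) + 2) / 2 + ε) := by ring
      exact absurd (lt_of_lt_of_le hlt (hk.trans htot)) (lt_irrefl _)
    refine (measure_mono hsub).trans (hX.trans (ENNReal.ofReal_le_ofReal ?_))
    have h8 : lg T ^ (-η) ≤ Real.log T ^ (-η) :=
      Real.rpow_le_rpow_of_nonpos hlogT (by unfold lg; linarith) (by linarith)
    calc C₁ * T ^ m * lg T ^ (-η) ≤ C * T ^ m * lg T ^ (-η) :=
          mul_le_mul_of_nonneg_right (mul_le_mul_of_nonneg_right hCb (by positivity)) (Real.rpow_nonneg hlg0.le _)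
      _ ≤ C * T ^ m * Real.log T ^ (-η) := mul_le_mul_of_nonneg_left h8 (by positivity)

end Pool.Agent.P07318o
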