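import Pool.Agent.Lib.P07318o.FwDefs

/-!
# Module FwG: the sum over `g` of the bounds of the terms

`lg U h g = 2 π g² h / U` (`FourSepAux.lg`).
PROOF.  `min 1 (lg ^ (-2)) ≤ min 1 ((U/(g² h))²)` as `2π ≥ 1`.  `h > U`: the sum is `≤ (U/h)² ∑ g^{-5} ≤ 2 (U/h)²`.  `h ≤ U`: let `G = √(U/h) ≥ 1`; the
terms `g ≤ G` contribute `≤ ∑_{g ≤ G} 1/g ≤ 1 + log G ≤ 1 + log (U/h)` (`harmonic_floor_le_one_add_log`), the terms `g > G` contribute
`≤ G⁴ ∑_{g > G} g^{-5} ≤ G^4 G^{-3} ∑_{g > G} g^{-2} ≤ 2` (`∑_{g > G} g^{-2} ≤ 2/G`, e.g. `sum_Ioo_inv_sq_le` / telescoping `1/(g(g-1))`).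
-/

set_option autoImplicit false

namespace Pool.Agent.P07318o

open MeasureTheory Complex Pool.Agent.P07318s Pool.Agent.P07318f Pool.Agent.P07318h

namespace FwGAux

theorem step {s : ℝ} (hs : 0 < s) {x : ℝ} (hx : 1 ≤ x) :
    (x + 1) ^ (-1 - s) ≤ (1 / s) * (x ^ (-s) - (x + 1) ^ (-s)) := by
  have hx0 : 0 < x := by linarith
  have hx1 : 0 < x + 1 := by linarith
  have hr : 0 < x / (x + 1) := by positivity
  have e1 : x ^ (-s) = (x + 1) ^ (-s) * (x / (x + 1)) ^ (-s) := by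
    rw [← Real.mul_rpow hx1.le hr.le]
    congr 1
    field_simp
  have e2 : 1 + s * (1 / (x + 1)) ≤ (x / (x + 1)) ^ (-s) := by
    rw [Real.rpow_def_of_pos hr]
    have h1 : Real.log (x / (x + 1)) ≤ x / (x + 1) - 1 := Real.log_le_sub_one_of_pos hr
    have h2 : x / (x + 1) - 1 = -(1 / (x + 1)) := by
      field_simp
      ring
    have h3 := Real.add_one_le_exp (Real.log (x / (x + 1)) * -s)
    rw [h2] at h1
    nlinarith
  have e3 : (x + 1) ^ (-1 - s) = (x + 1) ^ (-s) * (1 / (x + 1)) := by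
    rw [sub_eq_add_neg, Real.rpow_add hx1, Real.rpow_neg_one, one_div, mul_comm]
  have hp : 0 < (x + 1) ^ (-s) := Real.rpow_pos_of_pos hx1 _
  rw [e1, e3]
  have h4 : (x + 1) ^ (-s) * (1 + s * (1 / (x + 1))) ≤ (x + 1) ^ (-s) * (x / (x + 1)) ^ (-s) :=
    mul_le_mul_of_nonneg_left e2 hp.le
  calc (x + 1) ^ (-s) * (1 / (x + 1))
      = (1 / s) * ((x + 1) ^ (-s) * (1 + s * (1 / (x + 1))) - (x + 1) ^ (-s)) := by
        field_simp
        ring
    _ ≤ _ := mul_le_mul_of_nonneg_left (by linarith) (by positivity)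

theorem zsum {s : ℝ} (hs : 0 < s) : ∑' g : ℕ+, ((g : ℕ) : ℝ) ^ (-1 - s) ≤ 1 + 1 / s := by
  have key : ∀ n : ℕ, ∑ i ∈ Finset.range (n + 1), ((i + 1 : ℕ) : ℝ) ^ (-1 - s)
      ≤ 1 + (1 / s) * (1 - ((n + 1 : ℕ) : ℝ) ^ (-s)) := by
    intro n
    induction n with
    | zero => simp
    | succ n ih =>
      rw [Finset.sum_range_succ]
      have h1 : (1 : ℝ) ≤ ((n + 1 : ℕ) : ℝ) := by
        push_cast
        linarith [Nat.cast_nonneg (α := ℝ) n]
      have h2 := step hs h1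
      have e : ((n + 1 + 1 : ℕ) : ℝ) = ((n + 1 : ℕ) : ℝ) + 1 := by push_cast; ring
      rw [e]
      linarith
  rw [tsum_pnat_eq_tsum_succ (f := fun n : ℕ => (n : ℝ) ^ (-1 - s))]
  refine Real.tsum_le_of_sum_range_le (fun n => by positivity) (fun n => ?_)
  have h3 : 0 < 1 / s := by positivity
  cases n with
  | zero => rw [Finset.sum_range_zero]; linarith
  | succ n =>
    refine (key n).trans ?_
    have h4 : 0 ≤ ((n + 1 : ℕ) : ℝ) ^ (-s) := by positivity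
    nlinarith

theorem min_le {y θ : ℝ} (hy : 0 < y) (h0 : 0 ≤ θ) (h2 : θ ≤ 2) :
    min 1 (y ^ (-2 : ℝ)) ≤ y ^ (-θ) := by
  rcases le_total 1 y with h | h
  · exact (min_le_right _ _).trans (Real.rpow_le_rpow_of_exponent_le h (by linarith))
  · exact (min_le_left _ _).trans
      (Real.one_le_rpow_of_pos_of_le_one_of_nonpos hy h (by linarith))

theorem main {U h θ : ℝ} (hU : 1 ≤ U) (hh : 1 ≤ h) (h0 : 0 < θ) (h2 : θ ≤ 2) :
    Summable (fun g : ℕ+ => (((g : ℕ) : ℝ))⁻¹ * min 1 ((FourSepAux.lg U h g) ^ (-2 : ℝ))) ∧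
      ∑' g : ℕ+, (((g : ℕ) : ℝ))⁻¹ * min 1 ((FourSepAux.lg U h g) ^ (-2 : ℝ)) ≤
        (U / h) ^ θ * (1 + 1 / (2 * θ)) := by
  have hU0 : 0 < U := by linarith
  have hh0 : 0 < h := by linarith
  have hlg : ∀ g : ℕ+, 0 < FourSepAux.lg U h g := by
    intro g
    have hg : (0 : ℝ) < ((g : ℕ) : ℝ) := by exact_mod_cast g.pos
    have := Real.pi_pos
    unfold FourSepAux.lg
    positivity
  have hle : ∀ g : ℕ+, (((g : ℕ) : ℝ))⁻¹ * min 1 ((FourSepAux.lg U h g) ^ (-2 : ℝ)) ≤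
      (U / h) ^ θ * ((g : ℕ) : ℝ) ^ (-1 - 2 * θ) := by
    intro g
    have hg : (0 : ℝ) < ((g : ℕ) : ℝ) := by exact_mod_cast g.pos
    refine le_trans ?_ (FourSepAux.lg_pow hU hh h0 g)
    rw [div_eq_mul_inv, mul_comm]
    exact mul_le_mul_of_nonneg_right (min_le (hlg g) h0.le h2) (by positivity)
  have hnn : ∀ g : ℕ+, 0 ≤ (((g : ℕ) : ℝ))⁻¹ * min 1 ((FourSepAux.lg U h g) ^ (-2 : ℝ)) := by
    intro g
    have h3 : 0 ≤ (FourSepAux.lg U h g) ^ (-2 : ℝ) := Real.rpow_nonneg (hlg g).le _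
    exact mul_nonneg (by positivity) (le_min zero_le_one h3)
  have hs := (FourSepAux.summable_g h0).mul_left ((U / h) ^ θ)
  have hs' := Summable.of_nonneg_of_le hnn hle hs
  refine ⟨hs', ?_⟩
  refine (hs'.tsum_le_tsum hle hs).trans ?_
  rw [tsum_mul_left]
  refine mul_le_mul_of_nonneg_left (zsum (by positivity)) (Real.rpow_nonneg (by positivity) _)

end FwGAux

open FwGAux

theorem fw_g : ∃ C : ℝ, 0 < C ∧ ∀ U h : ℝ, 1 ≤ U → 1 ≤ h →
    Summable (fun g : ℕ+ => (((g : ℕ) : ℝ))⁻¹ * min 1 ((FourSepAux.lg U h g) ^ (-2 : ℝ))) ∧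
      ∑' g : ℕ+, (((g : ℕ) : ℝ))⁻¹ * min 1 ((FourSepAux.lg U h g) ^ (-2 : ℝ)) ≤ C * kl U h := by
  refine ⟨6, by norm_num, fun U h hU hh => ?_⟩
  have hU0 : 0 < U := by linarith
  have hh0 : 0 < h := by linarith
  have hx : 0 < U / h := by positivity
  unfold kl
  split_ifs with hUh
  · have hx1 : 1 ≤ U / h := (one_le_div hh0).2 hUh
    have hL : 0 ≤ Real.log (U / h) := Real.log_nonneg hx1
    set L := Real.log (U / h) with hLdef
    have hθ0 : 0 < 1 / (1 + L) := by positivity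
    have hθ1 : 1 / (1 + L) ≤ 1 := by
      rw [div_le_one (by linarith)]
      linarith
    obtain ⟨h1, h2⟩ := main hU hh hθ0 (by linarith)
    refine ⟨h1, h2.trans ?_⟩
    have h3 : (U / h) ^ (1 / (1 + L)) ≤ 3 := by
      rw [Real.rpow_def_of_pos hx, ← hLdef]
      have h4 : L * (1 / (1 + L)) ≤ 1 := by
        rw [mul_one_div, div_le_one (by linarith)]
        linarith
      exact (Real.exp_le_exp.2 h4).trans (by linarith [Real.exp_one_lt_d9])
    have h5 : 1 + 1 / (2 * (1 / (1 + L))) = 1 + (1 + L) / 2 := by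
      field_simp
    rw [h5]
    calc (U / h) ^ (1 / (1 + L)) * (1 + (1 + L) / 2) ≤ 3 * (1 + (1 + L) / 2) :=
          mul_le_mul_of_nonneg_right h3 (by positivity)
      _ ≤ 6 * (1 + L) := by linarith
  · obtain ⟨h1, h2⟩ := main hU hh (θ := 2) (by norm_num) (le_refl _)
    refine ⟨h1, h2.trans ?_⟩
    have h3 : (U / h) ^ (2 : ℝ) = (U / h) ^ 2 := by
      rw [← Real.rpow_natCast]
      norm_num
    rw [h3]
    have h4 : 0 ≤ (U / h) ^ 2 := by positivity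
    nlinarith

end Pool.Agent.P07318o
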