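import Pool.Agent.Lib.P07318o.FwTerm
import Pool.Agent.Lib.P07318o.FwG

/-!
# Module FourG: the Fourier series of the coefficients with a cut-off and a Gaussian

PROOF.  As in the last part of `P07318f.four_sep`.  For `l > 0` let `a l` be the sequence of `fw_term` (choice; `0` for `l ≤ 0`).
`ω k h = ∑' g : ℕ+, g⁻¹ * a (lg U h g) k`, `‖ω k h‖ ≤ C Λ pk k ∑' g⁻¹ min 1 (lg ^ (-2)) ≤ C C' Λ pk k kl U h` (`fw_g`).  The double family
`(k, g) ↦ g⁻¹ a (lg U h g) k ek U k y` is summable (`pk_summable` of LongPart times `fw_g`), so `HasSum` over `k` of the inner sums, and the total is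
`∑' g, g⁻¹ c y W (lg U h g * U / y) exp(s (y/U)²) = c y Om h y exp(..)` (`lg U h g * U / y = 2π g² h/y`, definition of `Om`; `tsum_mul_left/right`).
-/

set_option autoImplicit false

namespace Pool.Agent.P07318o

open MeasureTheory Complex Pool.Agent.P07318s Pool.Agent.P07318f Pool.Agent.P07318h

theorem four_g : ∃ C : ℝ, 0 < C ∧ ∀ (U Λ s : ℝ) (c : ℝ → ℝ), 1 ≤ U → 1 ≤ Λ → 0 ≤ s → s ≤ 1 → CutW U Λ c →
    ∃ ω : ℤ → ℝ → ℂ, (∀ (k : ℤ) (h : ℝ), 1 ≤ h → ‖ω k h‖ ≤ C * Λ * Pool.Agent.P07318h.pk k * kl U h) ∧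
      ∀ h : ℝ, 1 ≤ h → ∀ y : ℝ, -(4 * U) ≤ y → y ≤ 28 * U →
        HasSum (fun k : ℤ => ω k h * Pool.Agent.P07318h.ek U k y)
          ((c y * Om h y * Real.exp (s * (y / U) ^ 2) : ℝ) : ℂ) := by
  obtain ⟨C₁, hC₁, h1⟩ := fw_term
  obtain ⟨C₂, hC₂, h2⟩ := fw_g
  refine ⟨C₁ * C₂, by positivity, ?_⟩
  intro U Λ s c hU hΛ hs0 hs1 hc
  have hU0 : 0 < U := by linarith
  have hex : ∀ l : ℝ, ∃ a : ℤ → ℂ, 0 < l →
      ((∀ k : ℤ, ‖a k‖ ≤ C₁ * Λ * Pool.Agent.P07318h.pk k * min 1 (l ^ (-2 : ℝ))) ∧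
      ∀ y : ℝ, -(4 * U) ≤ y → y ≤ 28 * U →
        HasSum (fun k : ℤ => a k * Pool.Agent.P07318h.ek U k y)
          ((c y * W (l * U / y) * Real.exp (s * (y / U) ^ 2) : ℝ) : ℂ)) := by
    intro l
    by_cases hl : 0 < l
    · obtain ⟨a, ha⟩ := h1 U Λ s l c hU hΛ hs0 hs1 hc hl
      exact ⟨a, fun _ => ha⟩
    · exact ⟨0, fun h => absurd h hl⟩
  choose a ha using hex
  have hl : ∀ (h : ℝ), 1 ≤ h → ∀ g : ℕ+, 0 < FourSepAux.lg U h g := fun h hh g => by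
    have hg : (0 : ℝ) < ((g : ℕ) : ℝ) := by exact_mod_cast g.pos
    have := Real.pi_pos
    have hh0 : 0 < h := by linarith
    unfold FourSepAux.lg; positivity
  have hterm : ∀ (h : ℝ), 1 ≤ h → ∀ (k : ℤ) (g : ℕ+),
      ‖((((g : ℕ) : ℝ) : ℂ))⁻¹ * a (FourSepAux.lg U h g) k‖ ≤
        (C₁ * Λ * Pool.Agent.P07318h.pk k) * ((((g : ℕ) : ℝ))⁻¹ * min 1 ((FourSepAux.lg U h g) ^ (-2 : ℝ))) := by
    intro h hh k g
    have hg : (0 : ℝ) < ((g : ℕ) : ℝ) := by exact_mod_cast g.pos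
    rw [norm_mul, norm_inv, Complex.norm_real, Real.norm_eq_abs, abs_of_pos hg]
    calc (((g : ℕ) : ℝ))⁻¹ * ‖a (FourSepAux.lg U h g) k‖ ≤
          (((g : ℕ) : ℝ))⁻¹ * (C₁ * Λ * Pool.Agent.P07318h.pk k * min 1 ((FourSepAux.lg U h g) ^ (-2 : ℝ))) :=
          mul_le_mul_of_nonneg_left ((ha _ (hl h hh g)).1 k) (by positivity)
      _ = _ := by ring
  refine ⟨fun k h => ∑' g : ℕ+, ((((g : ℕ) : ℝ) : ℂ))⁻¹ * a (FourSepAux.lg U h g) k, ?_, ?_⟩
  · intro k h hh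
    obtain ⟨hs, hle⟩ := h2 U h hU hh
    have hpk : 0 < Pool.Agent.P07318h.pk k := Pool.Agent.P07318h.pk_pos k
    refine le_trans (tsum_of_norm_bounded (hs.hasSum.mul_left (C₁ * Λ * Pool.Agent.P07318h.pk k))
      (fun g => hterm h hh k g)) ?_
    calc C₁ * Λ * Pool.Agent.P07318h.pk k * ∑' g : ℕ+, (((g : ℕ) : ℝ))⁻¹ * min 1 ((FourSepAux.lg U h g) ^ (-2 : ℝ)) ≤
          C₁ * Λ * Pool.Agent.P07318h.pk k * (C₂ * kl U h) := mul_le_mul_of_nonneg_left hle (by positivity)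
      _ = _ := by ring
  · intro h hh y hy1 hy2
    obtain ⟨hsg, -⟩ := h2 U h hU hh
    have hen : ∀ k, ‖Pool.Agent.P07318h.ek U k y‖ = 1 := fun k => by
      unfold Pool.Agent.P07318h.ek; exact Complex.norm_exp_ofReal_mul_I _
    have hpks : Summable Pool.Agent.P07318h.pk := by
      refine FourSepAux.summable_inv_sq.congr fun k => ?_
      unfold Pool.Agent.P07318h.pk
      rw [one_div]
    have hS : Summable (fun p : ℤ × ℕ+ => ((((p.2 : ℕ) : ℝ) : ℂ))⁻¹ * a (FourSepAux.lg U h p.2) p.1 *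
        Pool.Agent.P07318h.ek U p.1 y) := by
      have h3 : Summable (fun p : ℤ × ℕ+ => (C₁ * Λ * Pool.Agent.P07318h.pk p.1) *
          ((((p.2 : ℕ) : ℝ))⁻¹ * min 1 ((FourSepAux.lg U h p.2) ^ (-2 : ℝ)))) := by
        refine Summable.mul_of_nonneg (hpks.mul_left (C₁ * Λ)) hsg (fun k => ?_) (fun g => ?_)
        · have hpk : 0 < Pool.Agent.P07318h.pk k := Pool.Agent.P07318h.pk_pos k
          show (0 : ℝ) ≤ C₁ * Λ * Pool.Agent.P07318h.pk k
          positivity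
        · have := hl h hh g
          show (0 : ℝ) ≤ (((g : ℕ) : ℝ))⁻¹ * min 1 ((FourSepAux.lg U h g) ^ (-2 : ℝ))
          exact mul_nonneg (by positivity) (le_min zero_le_one (Real.rpow_nonneg this.le _))
      refine Summable.of_norm_bounded h3 (fun p => ?_)
      rw [norm_mul, hen, mul_one]
      exact hterm h hh p.1 p.2
    have h2' := hS.hasSum.prod_fiberwise (fun k => (hS.prod_factor k).hasSum)
    have h3 : ∑' p : ℤ × ℕ+, ((((p.2 : ℕ) : ℝ) : ℂ))⁻¹ * a (FourSepAux.lg U h p.2) p.1 * Pool.Agent.P07318h.ek U p.1 y =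
        ((c y * Om h y * Real.exp (s * (y / U) ^ 2) : ℝ) : ℂ) := by
      rw [hS.tsum_prod, ← Summable.tsum_comm (f := fun (k : ℤ) (g : ℕ+) =>
        ((((g : ℕ) : ℝ) : ℂ))⁻¹ * a (FourSepAux.lg U h g) k * Pool.Agent.P07318h.ek U k y) hS]
      have h4 : ∀ g : ℕ+, ∑' k : ℤ, ((((g : ℕ) : ℝ) : ℂ))⁻¹ * a (FourSepAux.lg U h g) k * Pool.Agent.P07318h.ek U k y =
          (((c y * Real.exp (s * (y / U) ^ 2)) * (W (2 * Real.pi * ((g : ℕ) : ℝ) ^ 2 * h / y) / ((g : ℕ) : ℝ)) : ℝ) : ℂ) := by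
        intro g
        have h5 := (ha _ (hl h hh g)).2 y hy1 hy2
        have h6 : FourSepAux.lg U h g * U / y = 2 * Real.pi * ((g : ℕ) : ℝ) ^ 2 * h / y := by
          unfold FourSepAux.lg; field_simp
        rw [h6] at h5
        have h7 : (fun k : ℤ => ((((g : ℕ) : ℝ) : ℂ))⁻¹ * a (FourSepAux.lg U h g) k * Pool.Agent.P07318h.ek U k y) =
            fun k : ℤ => ((((g : ℕ) : ℝ) : ℂ))⁻¹ * (a (FourSepAux.lg U h g) k * Pool.Agent.P07318h.ek U k y) := by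
          funext k; ring
        rw [h7, (h5.mul_left _).tsum_eq]
        push_cast
        ring
      rw [tsum_congr h4, ← Complex.ofReal_tsum, tsum_mul_left]
      unfold Om
      congr 1
      ring
    rw [h3] at h2'
    refine h2'.congr_fun ?_
    intro k
    exact tsum_mul_right.symm

end Pool.Agent.P07318o
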