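import Pool.Agent.Lib.P07318o.FrDefs

/-!
# Module FrIndep: any `m + 1` of the `m + 2` points are independent linear coordinates

PROOF.  Replace `g i` by the constant `1`: `f j = if j = i then 1 else g j`, so that
`∏ j ∈ univ.erase i, g j (..) = ∏ j, f j (..)` and `∏ j ∈ univ.erase i, ∫⁻ g j` is unchanged.
`∫⁻ h, ∫⁻ t, F h t = ∫⁻ p : (Fin m → ℝ) × ℝ, F p.1 p.2` (`lintegral_prod`, everything is measurable: `xs_cont`).  By `prod_xs` (with
`M = ENNReal`) and `cv_lint` this is
`∫⁻ y : Fin (m+1) → ℝ, (∏ j, f j.castSucc (y j)) * f (last) (κ + ∑ ν j * y j)`.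
* `i = Fin.last`: the last factor is `1`, and `∫⁻ ∏ j, f_j (y_j) = ∏ j, ∫⁻ f_j`; prove this by induction on the number of variables with
  `iso_lint 0`, `prod_insertNth`, `lintegral_prod` and `lintegral_const_mul` (a lemma `lint_pi`: for measurable `f : Fin n → ℝ → ENNReal`,
  `∫⁻ y : Fin n → ℝ, ∏ j, f j (y j) = ∏ j, ∫⁻ x, f j x`; for `n = 0` the volume is a Dirac measure, `lintegral_const`/`volume_pi` of an empty
  index type).
* `i = i'.castSucc`: `iso_lint i'`, `prod_insertNth`, `sum_insertNth`; `f (castSucc i') = 1`; the inner integral over the separated variable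
  `x` is `∫⁻ x, f_last (κ + (ν i' * x + s)) = ofReal |ν i'|⁻¹ * ∫⁻ f_last` by `lint_affine` (order of the integrals by
  `lintegral_prod_symm`), and the rest is `lint_pi`, the product over `j : Fin m` of `f (i'.succAbove j).castSucc` together with the last slot
  is the product over `univ.erase i`: `Fin.prod_univ_succAbove` applied to `f` with `∫⁻ f_i` replaced by `1` (note that `∫⁻ 1 = ⊤`, so work with
  the products over `erase`, e.g. `Finset.prod_erase_eq..`, or transport along `Fin.succAbove` with `Finset.prod_map`/`Finset.prod_image`).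
`C = 1 + ∑ j, |ν j|⁻¹`.
-/

set_option autoImplicit false

namespace Pool.Agent.P07318o

open MeasureTheory Complex Pool.Agent.P07318s Pool.Agent.P07318f Pool.Agent.P07318h

theorem lint_pi {n : ℕ} (f : Fin n → ℝ → ENNReal) (hf : ∀ j, Measurable (f j)) :
    ∫⁻ y : Fin n → ℝ, ∏ j, f j (y j) = ∏ j, ∫⁻ x, f j x := by
  induction n with
  | zero =>
    simp [volume_pi]
  | succ n ih =>
    rw [iso_lint 0, Measure.volume_eq_prod]
    simp only [prod_insertNth]
    have h := lintegral_prod_mul (μ := (volume : Measure ℝ)) (ν := (volume : Measure (Fin n → ℝ)))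
      (f := f 0) (g := fun w => ∏ j, f (Fin.succAbove 0 j) (w j)) (hf 0).aemeasurable
      (Finset.measurable_prod _ fun j _ => (hf _).comp (measurable_pi_apply j)).aemeasurable
    rw [h, ih _ (fun j => hf _), Fin.prod_univ_succ]
    rfl

namespace FrIndepAux

theorem lint_form {m : ℕ} (ν : Fin (m + 1) → ℝ) (κ : ℝ) (F : Fin (m + 1) → ℝ → ENNReal) (P : ℝ → ENNReal)
    (hF : ∀ j, Measurable (F j)) (hP : Measurable P) (i : Fin (m + 1)) (hi : ν i ≠ 0) (h1 : ∀ x, F i x = 1) :
    ∫⁻ y : Fin (m + 1) → ℝ, (∏ j, F j (y j)) * P (κ + ∑ j, ν j * y j) =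
      ENNReal.ofReal |ν i|⁻¹ * ((∏ j : Fin m, ∫⁻ x, F (i.succAbove j) x) * ∫⁻ x, P x) := by
  have hm1 : Measurable fun w : Fin m → ℝ => ∏ j, F (i.succAbove j) (w j) :=
    Finset.measurable_prod _ fun j _ => (hF _).comp (measurable_pi_apply j)
  have hm2 : Measurable fun w : Fin m → ℝ => ∑ j, ν (i.succAbove j) * w j :=
    Finset.measurable_sum _ fun j _ => (measurable_pi_apply j).const_mul _
  rw [iso_lint i, Measure.volume_eq_prod]
  simp only [prod_insertNth, sum_insertNth, h1, one_mul]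
  rw [lintegral_prod_symm']
  · have h2 : ∀ w : Fin m → ℝ, ∫⁻ x : ℝ, (∏ j, F (i.succAbove j) (w j)) *
        P (κ + (ν i * x + ∑ j, ν (i.succAbove j) * w j)) =
        (∏ j, F (i.succAbove j) (w j)) * (ENNReal.ofReal |ν i|⁻¹ * ∫⁻ x, P x) := by
      intro w
      rw [lintegral_const_mul _ (by fun_prop)]
      congr 1
      rw [← lint_affine P hi (κ + ∑ j, ν (i.succAbove j) * w j)]
      refine lintegral_congr fun x => ?_
      congr 1
      ring
    simp only [h2]
    rw [lintegral_mul_const _ hm1, lint_pi _ fun j => hF _]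
    ring
  · exact (hm1.comp measurable_snd).mul (hP.comp ((measurable_const.add
      ((measurable_fst.const_mul _).add (hm2.comp measurable_snd)))))

end FrIndepAux

open FrIndepAux in
theorem indep {m : ℕ} (ν : Fin (m + 1) → ℝ) (hν : Adm ν) : ∃ C : ℝ, 0 < C ∧
    ∀ (κ α : ℝ) (i : Fin (m + 2)) (g : Fin (m + 2) → ℝ → ENNReal), (∀ j, Measurable (g j)) →
    ∫⁻ h, ∫⁻ t, ∏ j ∈ Finset.univ.erase i, g j (t + xs ν κ α h j) ≤
      ENNReal.ofReal C * ∏ j ∈ Finset.univ.erase i, ∫⁻ y, g j y := by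
  classical
  refine ⟨1 + ∑ j, |ν j|⁻¹, by positivity, fun κ α i g hg => ?_⟩
  set f : Fin (m + 2) → ℝ → ENNReal := fun j => if j = i then fun _ => 1 else g j with hf
  have hfm : ∀ j, Measurable (f j) := by
    intro j
    rw [hf]
    dsimp only
    split_ifs
    · exact measurable_const
    · exact hg j
  have hfi : ∀ x, f i x = 1 := by
    intro x
    rw [hf]
    simp
  have hfj : ∀ j, j ≠ i → f j = g j := by
    intro j hj
    rw [hf]
    simp [hj]
  have e1 : ∀ h t, ∏ j ∈ Finset.univ.erase i, g j (t + xs ν κ α h j) = ∏ j, f j (t + xs ν κ α h j) := by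
    intro h t
    rw [← Finset.mul_prod_erase _ _ (Finset.mem_univ i), hfi, one_mul]
    exact Finset.prod_congr rfl fun j hj => by rw [hfj j (Finset.ne_of_mem_erase hj)]
  have hmeas : Measurable fun p : (Fin m → ℝ) × ℝ => ∏ j, f j (p.2 + xs ν κ α p.1 j) :=
    Finset.measurable_prod _ fun j _ => (hfm j).comp
      (measurable_snd.add ((measurable_pi_apply j).comp ((xs_cont ν κ α).measurable.comp measurable_fst)))
  simp only [e1]
  have e2 : ∫⁻ h, ∫⁻ t, ∏ j, f j (t + xs ν κ α h j) =
      ∫⁻ y : Fin (m + 1) → ℝ, (∏ j, f j.castSucc (y j)) * f (Fin.last (m + 1)) (κ + ∑ j, ν j * y j) := by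
    rw [← cv_lint α, Measure.volume_eq_prod, ← lintegral_prod _ hmeas.aemeasurable]
    refine lintegral_congr fun p => ?_
    rw [prod_xs hν]
  rw [e2]
  -- the products
  have e3 : ∏ j ∈ Finset.univ.erase i, ∫⁻ y, g j y = ∏ j ∈ Finset.univ.erase i, ∫⁻ y, f j y :=
    Finset.prod_congr rfl fun j hj => by rw [hfj j (Finset.ne_of_mem_erase hj)]
  rw [e3]
  have hone : ∀ j, |ν j|⁻¹ ≤ 1 + ∑ j, |ν j|⁻¹ := by
    intro j
    have := Finset.single_le_sum (f := fun j => |ν j|⁻¹) (fun j _ => by positivity) (Finset.mem_univ j)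
    linarith
  refine Fin.lastCases (motive := fun i => (∀ x, f i x = 1) → ∫⁻ y : Fin (m + 1) → ℝ, (∏ j, f j.castSucc (y j)) *
    f (Fin.last (m + 1)) (κ + ∑ j, ν j * y j) ≤ ENNReal.ofReal (1 + ∑ j, |ν j|⁻¹) *
      ∏ j ∈ Finset.univ.erase i, ∫⁻ y, f j y) ?_ ?_ i hfi
  · intro h1
    simp only [h1, mul_one]
    rw [lint_pi _ fun j => hfm _]
    have h2 : (∏ j : Fin (m + 1), ∫⁻ x, f j.castSucc x) =
        ∏ j ∈ Finset.univ.erase (Fin.last (m + 1)), ∫⁻ y, f j y := by
      have h3 : Finset.univ.erase (Fin.last (m + 1)) = Finset.univ.map Fin.castSuccEmb := by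
        ext j
        refine Fin.lastCases ?_ (fun j' => ?_) j
        · simp
        · simp [Fin.castSucc_ne_last]
      rw [h3, Finset.prod_map]
      rfl
    rw [h2]
    refine le_mul_of_one_le_left zero_le ?_
    rw [ENNReal.one_le_ofReal]
    have : 0 ≤ ∑ j, |ν j|⁻¹ := by positivity
    linarith
  · intro i' h1
    rw [lint_form ν κ (fun j => f j.castSucc) _ (fun j => hfm _) (hfm _) i' (hν.1 i') h1]
    refine mul_le_mul' (ENNReal.ofReal_le_ofReal (hone i')) (le_of_eq ?_)
    have h3 : (Finset.univ.erase i'.castSucc : Finset (Fin (m + 2))) =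
        Finset.univ.map (i'.castSucc).succAboveEmb := by
      ext j
      simp [Fin.exists_succAbove_eq_iff]
    rw [h3, Finset.prod_map]
    simp only [Fin.succAboveEmb_apply]
    rw [Fin.prod_univ_castSucc]
    congr 1
    · refine Finset.prod_congr rfl fun j _ => ?_
      rw [Fin.castSucc_succAbove_castSucc]
    · congr 2
      simp

end Pool.Agent.P07318o
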