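import Pool.Agent.Lib.P07318o.FrTri
import Pool.Agent.Lib.P07318o.FrIndep

/-!
# Module FrBd: bound for the form `Fm`, one slot `q` in `L²`, the slot `r` and the last slot by their autocorrelations

PROOF.  If the integrand of `Fm` is not integrable then `Fm = 0`.  Otherwise write `m = n + 1` (there are `q ≠ r` in `Fin (m + 1)`), separate the
coordinate `q` (`iso_int q`, `prod_insertNth`, `sum_insertNth`) and then in the remaining `Fin (n + 1) → ℝ` the coordinate `r'` with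
`q.succAbove r' = r` (`Fin.exists_succAbove_eq`), Fubini:
`Fm β k G P = ∫ v : Fin n → ℝ, (∏ j, G' j (v j)) * ∫ x, G q x * ∫ y, G r y * P (k + (..v..) + (β q * x + β r * y))`,
`G' j = G (q.succAbove (r'.succAbove j))`.  So
`‖Fm‖ₑ ≤ ∫⁻ v, (∏ j, ‖G' j (v j)‖ₑ) * ‖∫ x, G q x * E x‖ₑ`, and by Cauchy-Schwarz `‖∫ x, G q x * E x‖ₑ ≤ (nm (G q)) ^ (1/2) *
(∫⁻ x, ‖E x‖ₑ ^ 2) ^ (1/2)`, `tri` (with `k` replaced by `k + ..`) bounds the last factor by a constant independent of `v`; finally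
`∫⁻ v, ∏ j, ‖G' j (v j)‖ₑ = ∏ j, ∫⁻ ‖G' j‖ₑ` (`lint_pi`, which is in FrIndep; import it or copy its two-line induction) and
`∏ j, ∫⁻ ‖G' j‖ₑ = ∏ j ∈ (univ.erase q).erase r, ∫⁻ ‖G j‖ₑ` (`Fin.prod_univ_succAbove` twice, or `Finset.prod_image` along the injective map
`j ↦ q.succAbove (r'.succAbove j)` whose range is the complement of `{q, r}`).
`C = 1 + ∑ a, ∑ b, (|β a|⁻¹ * (|β b|⁻¹) ^ (1/2)) ^ (1/2)`, i.e. anything `≥` the constant of `tri` to the power `1/2` for all pairs.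
-/

set_option autoImplicit false

namespace Pool.Agent.P07318o

open MeasureTheory Complex Pool.Agent.P07318s Pool.Agent.P07318f Pool.Agent.P07318h

namespace FrBdAux

lemma core {n : ℕ} (β : Fin (n + 2) → ℝ) (k : ℝ) (G : Fin (n + 2) → ℝ → ℂ) (P : ℝ → ℂ) (r : Fin (n + 2)) (q' : Fin (n + 1))
    (hI : Integrable (fun y : Fin (n + 2) → ℝ => (∏ j, G j (y j)) * P (k + ∑ j, β j * y j))) :
    Fm β k G P = ∫ v : Fin n → ℝ, (∏ j, G (r.succAbove (q'.succAbove j)) (v j)) *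
      ∫ x, G (r.succAbove q') x * ∫ y, G r y *
        P ((k + ∑ j, β (r.succAbove (q'.succAbove j)) * v j) + (β (r.succAbove q') * x + β r * y)) := by
  have h1 := (iso_able r _).2 hI
  have h2 := h1.integral_prod_right
  have h3 := (iso_able q' _).2 h2
  unfold Fm
  rw [iso_int r, Measure.volume_eq_prod, integral_prod_symm _ h1, iso_int q', Measure.volume_eq_prod,
    integral_prod_symm _ h3]
  refine integral_congr_ae (Filter.Eventually.of_forall fun v => ?_)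
  simp only
  rw [← integral_const_mul]
  refine integral_congr_ae (Filter.Eventually.of_forall fun x => ?_)
  simp only
  rw [← mul_assoc, ← integral_const_mul]
  refine integral_congr_ae (Filter.Eventually.of_forall fun y => ?_)
  simp only
  rw [prod_insertNth r G y, sum_insertNth r β y,
    prod_insertNth q' (fun j => G (r.succAbove j)) x v, sum_insertNth q' (fun j => β (r.succAbove j)) x v]
  have h4 : k + (β r * y + (β (r.succAbove q') * x + ∑ j, β (r.succAbove (q'.succAbove j)) * v j)) =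
      (k + ∑ j, β (r.succAbove (q'.succAbove j)) * v j) + (β (r.succAbove q') * x + β r * y) := by ring
  rw [h4]
  ring

lemma prod_erase2 {M : Type*} [CommMonoid M] {n : ℕ} (r : Fin (n + 2)) (q' : Fin (n + 1)) (f : Fin (n + 2) → M) :
    ∏ j ∈ (Finset.univ.erase (r.succAbove q')).erase r, f j = ∏ j, f (r.succAbove (q'.succAbove j)) := by
  classical
  have h : ((Finset.univ.erase (r.succAbove q')).erase r : Finset (Fin (n + 2))) =
      Finset.univ.image (fun j => r.succAbove (q'.succAbove j)) := by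
    ext j
    simp only [Finset.mem_erase, Finset.mem_univ, and_true, Finset.mem_image, true_and]
    constructor
    · rintro ⟨h1, h2⟩
      obtain ⟨b, hb⟩ := Fin.exists_succAbove_eq h1
      have h3 : b ≠ q' := by
        rintro rfl
        exact h2 hb.symm
      obtain ⟨a, ha⟩ := Fin.exists_succAbove_eq h3
      exact ⟨a, by rw [ha, hb]⟩
    · rintro ⟨a, rfl⟩
      refine ⟨Fin.succAbove_ne _ _, fun h4 => ?_⟩
      exact Fin.succAbove_ne _ _ (Fin.succAbove_right_injective h4)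
  rw [h, Finset.prod_image]
  intro a _ b _ hab
  exact Fin.succAbove_right_injective (Fin.succAbove_right_injective hab)

lemma enorm_prod' {ι : Type*} (s : Finset ι) (f : ι → ℂ) : ‖∏ j ∈ s, f j‖ₑ = ∏ j ∈ s, ‖f j‖ₑ := by
  classical
  induction s using Finset.induction_on with
  | empty => simp
  | insert a s ha ih => rw [Finset.prod_insert ha, Finset.prod_insert ha, enorm_mul, ih]

lemma meas_E {a b k : ℝ} {G H : ℝ → ℂ} (hG : Measurable G) (hH : Measurable H) :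
    Measurable fun x => ∫ y, G y * H (k + (a * x + b * y)) := by
  have h1 : Measurable fun p : ℝ × ℝ => G p.2 * H (k + (a * p.1 + b * p.2)) :=
    (hG.comp measurable_snd).mul (hH.comp (by fun_prop))
  exact (h1.stronglyMeasurable.integral_prod_right' (ν := (volume : Measure ℝ))).measurable

lemma inner {a b : ℝ} (ha : a ≠ 0) (hb : b ≠ 0) (k : ℝ) {F G H : ℝ → ℂ} (hF : Measurable F) (hG : Measurable G)
    (hH : Measurable H) (hG1 : ∫⁻ y, ‖G y‖ₑ ≠ ⊤) (hH2 : nm H ≠ ⊤) :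
    ‖∫ x, F x * ∫ y, G y * H (k + (a * x + b * y))‖ₑ ≤
      ENNReal.ofReal ((|a|⁻¹ * (|b|⁻¹) ^ (1 / 2 : ℝ)) ^ (1 / 2 : ℝ)) *
        (nm F ^ (1 / 2 : ℝ) * nm (ac G) ^ (1 / 4 : ℝ) * nm (ac H) ^ (1 / 4 : ℝ)) := by
  have h1 := tri ha hb k hG hH hG1 hH2
  have h2 : (∫⁻ x, ‖∫ y, G y * H (k + (a * x + b * y))‖ₑ ^ 2) ^ (1 / 2 : ℝ) ≤
      ENNReal.ofReal ((|a|⁻¹ * (|b|⁻¹) ^ (1 / 2 : ℝ)) ^ (1 / 2 : ℝ)) * nm (ac G) ^ (1 / 4 : ℝ) * nm (ac H) ^ (1 / 4 : ℝ) := by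
    refine (ENNReal.rpow_le_rpow h1 (by norm_num)).trans (le_of_eq ?_)
    rw [ENNReal.mul_rpow_of_nonneg _ _ (by norm_num : (0 : ℝ) ≤ 1 / 2),
      ENNReal.mul_rpow_of_nonneg _ _ (by norm_num : (0 : ℝ) ≤ 1 / 2), ← ENNReal.rpow_mul, ← ENNReal.rpow_mul,
      ENNReal.ofReal_rpow_of_nonneg (by positivity) (by norm_num)]
    norm_num
  calc ‖∫ x, F x * ∫ y, G y * H (k + (a * x + b * y))‖ₑ
      ≤ ∫⁻ x, ‖F x * ∫ y, G y * H (k + (a * x + b * y))‖ₑ := enorm_integral_le_lintegral_enorm _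
    _ = ∫⁻ x, ‖F x‖ₑ * ‖∫ y, G y * H (k + (a * x + b * y))‖ₑ := lintegral_congr fun z => enorm_mul _ _
    _ ≤ (∫⁻ x, ‖F x‖ₑ ^ 2) ^ (1 / 2 : ℝ) * (∫⁻ x, ‖∫ y, G y * H (k + (a * x + b * y))‖ₑ ^ 2) ^ (1 / 2 : ℝ) :=
        FrTriAux.cs volume hF.enorm.aemeasurable (meas_E hG hH).enorm.aemeasurable
    _ ≤ (∫⁻ x, ‖F x‖ₑ ^ 2) ^ (1 / 2 : ℝ) * (ENNReal.ofReal ((|a|⁻¹ * (|b|⁻¹) ^ (1 / 2 : ℝ)) ^ (1 / 2 : ℝ)) *
          nm (ac G) ^ (1 / 4 : ℝ) * nm (ac H) ^ (1 / 4 : ℝ)) := by gcongr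
    _ = _ := by
        unfold nm
        ring

end FrBdAux

open FrBdAux

theorem form_bd {m : ℕ} (β : Fin (m + 1) → ℝ) (hβ : ∀ j, β j ≠ 0) : ∃ C : ℝ, 0 < C ∧
    ∀ (k : ℝ) (G : Fin (m + 1) → ℝ → ℂ) (P : ℝ → ℂ) (q r : Fin (m + 1)), q ≠ r → (∀ j, Measurable (G j)) → Measurable P →
    (∀ j, ∫⁻ y, ‖G j y‖ₑ ≠ ⊤) → nm P ≠ ⊤ →
    ‖Fm β k G P‖ₑ ≤ ENNReal.ofReal C * (∏ j ∈ (Finset.univ.erase q).erase r, ∫⁻ y, ‖G j y‖ₑ) *
      (nm (G q) ^ (1 / 2 : ℝ) * nm (ac (G r)) ^ (1 / 4 : ℝ) * nm (ac P) ^ (1 / 4 : ℝ)) := by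
  classical
  refine ⟨1 + ∑ a, ∑ b, (|β a|⁻¹ * (|β b|⁻¹) ^ (1 / 2 : ℝ)) ^ (1 / 2 : ℝ), by positivity, ?_⟩
  intro k G P q r hqr hG hP hG1 hP2
  by_cases hI : Integrable (fun y : Fin (m + 1) → ℝ => (∏ j, G j (y j)) * P (k + ∑ j, β j * y j))
  · cases m with
    | zero => exact absurd (Subsingleton.elim (α := Fin 1) q r) hqr
    | succ n =>
      obtain ⟨q', rfl⟩ := Fin.exists_succAbove_eq hqr
      rw [core β k G P r q' hI, prod_erase2]
      have hC : (|β (r.succAbove q')|⁻¹ * (|β r|⁻¹) ^ (1 / 2 : ℝ)) ^ (1 / 2 : ℝ) ≤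
          1 + ∑ a, ∑ b, (|β a|⁻¹ * (|β b|⁻¹) ^ (1 / 2 : ℝ)) ^ (1 / 2 : ℝ) := by
        have h1 : (|β (r.succAbove q')|⁻¹ * (|β r|⁻¹) ^ (1 / 2 : ℝ)) ^ (1 / 2 : ℝ) ≤
            ∑ b, (|β (r.succAbove q')|⁻¹ * (|β b|⁻¹) ^ (1 / 2 : ℝ)) ^ (1 / 2 : ℝ) :=
          Finset.single_le_sum (f := fun b => (|β (r.succAbove q')|⁻¹ * (|β b|⁻¹) ^ (1 / 2 : ℝ)) ^ (1 / 2 : ℝ))
            (fun b _ => by positivity) (Finset.mem_univ r)
        have h2 : ∑ b, (|β (r.succAbove q')|⁻¹ * (|β b|⁻¹) ^ (1 / 2 : ℝ)) ^ (1 / 2 : ℝ) ≤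
            ∑ a, ∑ b, (|β a|⁻¹ * (|β b|⁻¹) ^ (1 / 2 : ℝ)) ^ (1 / 2 : ℝ) :=
          Finset.single_le_sum (f := fun a => ∑ b, (|β a|⁻¹ * (|β b|⁻¹) ^ (1 / 2 : ℝ)) ^ (1 / 2 : ℝ))
            (fun a _ => by positivity) (Finset.mem_univ (r.succAbove q'))
        linarith
      set C : ℝ := 1 + ∑ a, ∑ b, (|β a|⁻¹ * (|β b|⁻¹) ^ (1 / 2 : ℝ)) ^ (1 / 2 : ℝ) with hCdef
      set R : ENNReal := nm (G (r.succAbove q')) ^ (1 / 2 : ℝ) * nm (ac (G r)) ^ (1 / 4 : ℝ) * nm (ac P) ^ (1 / 4 : ℝ) with hR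
      have h3 : ∀ v : Fin n → ℝ, ‖(∏ j, G (r.succAbove (q'.succAbove j)) (v j)) *
          ∫ x, G (r.succAbove q') x * ∫ y, G r y *
            P ((k + ∑ j, β (r.succAbove (q'.succAbove j)) * v j) + (β (r.succAbove q') * x + β r * y))‖ₑ ≤
          (∏ j, ‖G (r.succAbove (q'.succAbove j)) (v j)‖ₑ) * (ENNReal.ofReal C * R) := by
        intro v
        rw [enorm_mul, enorm_prod']
        gcongr
        refine (inner (hβ _) (hβ _) _ (hG _) (hG _) hP (hG1 _) hP2).trans ?_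
        gcongr
      have hm : ∀ j : Fin n, Measurable fun x => ‖G (r.succAbove (q'.succAbove j)) x‖ₑ := fun j => (hG _).enorm
      calc ‖∫ v : Fin n → ℝ, (∏ j, G (r.succAbove (q'.succAbove j)) (v j)) *
          ∫ x, G (r.succAbove q') x * ∫ y, G r y *
            P ((k + ∑ j, β (r.succAbove (q'.succAbove j)) * v j) + (β (r.succAbove q') * x + β r * y))‖ₑ
          ≤ ∫⁻ v : Fin n → ℝ, ‖(∏ j, G (r.succAbove (q'.succAbove j)) (v j)) *
          ∫ x, G (r.succAbove q') x * ∫ y, G r y *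
            P ((k + ∑ j, β (r.succAbove (q'.succAbove j)) * v j) + (β (r.succAbove q') * x + β r * y))‖ₑ :=
            enorm_integral_le_lintegral_enorm _
        _ ≤ ∫⁻ v : Fin n → ℝ, (∏ j, ‖G (r.succAbove (q'.succAbove j)) (v j)‖ₑ) * (ENNReal.ofReal C * R) :=
            lintegral_mono h3
        _ = (∏ j, ∫⁻ y, ‖G (r.succAbove (q'.succAbove j)) y‖ₑ) * (ENNReal.ofReal C * R) := by
            rw [lintegral_mul_const, lint_pi (fun (j : Fin n) x => ‖G (r.succAbove (q'.succAbove j)) x‖ₑ) hm]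
            exact Finset.measurable_fun_prod _ fun j _ => (hm j).comp (measurable_pi_apply j)
        _ = _ := by ring
  · have h0 : Fm β k G P = 0 := by
      unfold Fm
      exact integral_undef hI
    rw [h0]
    simp

end Pool.Agent.P07318o
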