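import Pool.Agent.Lib.P07318o.Defs

/-!
Multilinear forms with one linear relation between the variables: definitions and changes of variables.
-/

set_option autoImplicit false

namespace Pool.Agent.P07318o

open MeasureTheory Complex Pool.Agent.P07318s Pool.Agent.P07318f Pool.Agent.P07318h

/-- `Y(y) conj Y(y + τ)` -/
noncomputable def shp (Y : ℝ → ℂ) (τ y : ℝ) : ℂ := Y y * (starRingEnd ℂ) (Y (y + τ))

/-- the form `∫ G_0(y_0) … G_m(y_m) P(k + ∑ β_j y_j) dy` -/
noncomputable def Fm {m : ℕ} (β : Fin (m + 1) → ℝ) (k : ℝ) (G : Fin (m + 1) → ℝ → ℂ) (P : ℝ → ℂ) : ℂ :=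
  ∫ y : Fin (m + 1) → ℝ, (∏ j, G j (y j)) * P (k + ∑ j, β j * y j)

/-- the product over all slots as a product over the first `m + 1` slots and the last slot -/
lemma prod_xs {M : Type*} [CommMonoid M] {m : ℕ} {ν : Fin (m + 1) → ℝ} (hν : Adm ν) (κ α : ℝ) (h : Fin m → ℝ) (t : ℝ)
    (Z : Fin (m + 2) → ℝ → M) : ∏ j, Z j (t + xs ν κ α h j) =
      (∏ j : Fin (m + 1), Z j.castSucc (t + (Fin.cons α h : Fin (m + 1) → ℝ) j)) *
        Z (Fin.last (m + 1)) (κ + ∑ j, ν j * (t + (Fin.cons α h : Fin (m + 1) → ℝ) j)) := by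
  rw [Fin.prod_univ_castSucc, xs_last, last_pt hν]
  congr 1
  refine Finset.prod_congr rfl fun j _ => ?_
  unfold xs
  rw [Fin.snoc_castSucc]

/-- the change of variables `(h, t) ↦ (t + α, t + h_1, …, t + h_m)` -/
noncomputable def cvE {m : ℕ} (α : ℝ) : (Fin m → ℝ) × ℝ ≃ᵐ (Fin (m + 1) → ℝ) where
  toFun p := fun j => p.2 + (Fin.cons α p.1 : Fin (m + 1) → ℝ) j
  invFun y := (fun i => y i.succ - (y 0 - α), y 0 - α)
  left_inv p := by
    refine Prod.ext ?_ ?_
    · funext i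
      simp
    · simp
  right_inv y := by
    funext j
    refine Fin.cases ?_ (fun i => ?_) j
    · show y 0 - α + α = y 0
      ring
    · show y 0 - α + (y i.succ - (y 0 - α)) = y i.succ
      ring
  measurable_toFun := by
    refine measurable_pi_lambda _ fun j => ?_
    refine Fin.cases ?_ (fun i => ?_) j
    · exact measurable_snd.add_const α
    · exact measurable_snd.add ((measurable_pi_apply i).comp measurable_fst)
  measurable_invFun := by
    refine Measurable.prodMk ?_ ?_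
    · exact measurable_pi_lambda _ fun i => (measurable_pi_apply _).sub ((measurable_pi_apply _).sub_const _)
    · exact (measurable_pi_apply _).sub_const _

lemma cvE_apply {m : ℕ} (α : ℝ) (p : (Fin m → ℝ) × ℝ) :
    cvE α p = fun j => p.2 + (Fin.cons α p.1 : Fin (m + 1) → ℝ) j := rfl

theorem cv_mp {m : ℕ} (α : ℝ) : MeasurePreserving (cvE (m := m) α) volume volume := by
  have h1 : MeasurePreserving (fun p : (Fin m → ℝ) × ℝ => (p.2, p.1)) volume volume :=
    Measure.measurePreserving_swap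
  have h2 : MeasurePreserving (fun p : ℝ × (Fin m → ℝ) => (p.1 + α, fun i => p.2 i + p.1)) volume volume := by
    refine (measurePreserving_add_right volume α).skew_product (g := fun (x : ℝ) (w : Fin m → ℝ) => fun i => w i + x) ?_ ?_
    · refine measurable_pi_lambda _ fun i => ?_
      exact ((measurable_pi_apply i).comp measurable_snd).add measurable_fst
    · refine Filter.Eventually.of_forall fun x => ?_
      exact (measurePreserving_add_right (volume : Measure (Fin m → ℝ)) (fun _ => x)).map_eq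
  have h3 := (volume_preserving_piFinSuccAbove (fun _ : Fin (m + 1) => ℝ) 0).symm
  have h4 := h3.comp (h2.comp h1)
  have h5 : (⇑(MeasurableEquiv.piFinSuccAbove (fun _ : Fin (m + 1) => ℝ) 0).symm ∘
      (fun p : ℝ × (Fin m → ℝ) => (p.1 + α, fun i => p.2 i + p.1)) ∘ fun p : (Fin m → ℝ) × ℝ => (p.2, p.1)) =
      ⇑(cvE (m := m) α) := by
    funext p
    funext j
    refine Fin.cases ?_ (fun i => ?_) j
    · simp [cvE_apply, MeasurableEquiv.piFinSuccAbove_symm_apply]
    · simp [cvE_apply, MeasurableEquiv.piFinSuccAbove_symm_apply, add_comm]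
  rw [h5] at h4
  exact h4

theorem cv_int {m : ℕ} (α : ℝ) (Θ : (Fin (m + 1) → ℝ) → ℂ) :
    ∫ p : (Fin m → ℝ) × ℝ, Θ (fun j => p.2 + (Fin.cons α p.1 : Fin (m + 1) → ℝ) j) = ∫ y, Θ y :=
  (cv_mp α).integral_comp' Θ

theorem cv_lint {m : ℕ} (α : ℝ) (Θ : (Fin (m + 1) → ℝ) → ENNReal) :
    ∫⁻ p : (Fin m → ℝ) × ℝ, Θ (fun j => p.2 + (Fin.cons α p.1 : Fin (m + 1) → ℝ) j) = ∫⁻ y, Θ y :=
  (cv_mp α).lintegral_comp_emb (cvE α).measurableEmbedding Θ

/-- one variable separated -/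
theorem iso_int {m : ℕ} (i : Fin (m + 1)) (Θ : (Fin (m + 1) → ℝ) → ℂ) :
    ∫ y, Θ y = ∫ p : ℝ × (Fin m → ℝ), Θ (i.insertNth p.1 p.2) := by
  have h := (volume_preserving_piFinSuccAbove (fun _ : Fin (m + 1) => ℝ) i).symm.integral_comp'
    (g := Θ)
  rw [← h]
  rfl

theorem iso_lint {m : ℕ} (i : Fin (m + 1)) (Θ : (Fin (m + 1) → ℝ) → ENNReal) :
    ∫⁻ y, Θ y = ∫⁻ p : ℝ × (Fin m → ℝ), Θ (i.insertNth p.1 p.2) := by
  have h := (volume_preserving_piFinSuccAbove (fun _ : Fin (m + 1) => ℝ) i).symm.lintegral_comp_emb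
    (MeasurableEquiv.measurableEmbedding _) Θ
  rw [← h]
  rfl

theorem iso_able {m : ℕ} (i : Fin (m + 1)) (Θ : (Fin (m + 1) → ℝ) → ℂ) :
    Integrable (fun p : ℝ × (Fin m → ℝ) => Θ (i.insertNth p.1 p.2)) ↔ Integrable Θ :=
  (volume_preserving_piFinSuccAbove (fun _ : Fin (m + 1) => ℝ) i).symm.integrable_comp_emb
    (MeasurableEquiv.measurableEmbedding _)

lemma prod_insertNth {M : Type*} [CommMonoid M] {m : ℕ} (i : Fin (m + 1)) (f : Fin (m + 1) → ℝ → M) (x : ℝ)
    (w : Fin m → ℝ) : ∏ j, f j ((i.insertNth x w : Fin (m + 1) → ℝ) j) = f i x * ∏ j, f (i.succAbove j) (w j) := by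
  rw [Fin.prod_univ_succAbove _ i]
  simp

lemma sum_insertNth {m : ℕ} (i : Fin (m + 1)) (β : Fin (m + 1) → ℝ) (x : ℝ) (w : Fin m → ℝ) :
    ∑ j, β j * (i.insertNth x w : Fin (m + 1) → ℝ) j = β i * x + ∑ j, β (i.succAbove j) * w j := by
  rw [Fin.sum_univ_succAbove _ i]
  simp

/-- affine change of variable on the line -/
lemma lint_affine (g : ℝ → ENNReal) {b : ℝ} (hb : b ≠ 0) (k : ℝ) :
    ∫⁻ x, g (k + b * x) = ENNReal.ofReal |b|⁻¹ * ∫⁻ x, g x := by
  have h1 : ∫⁻ x, g (k + b * x) = ∫⁻ x, (fun z => g (k + z)) (b * x) := rfl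
  rw [h1]
  have h3 : Measure.map (b * ·) (volume : Measure ℝ) = ENNReal.ofReal |b⁻¹| • volume :=
    Real.map_volume_mul_left hb
  have h4 : ∫⁻ x, (fun z => g (k + z)) (b * x) = ∫⁻ z, g (k + z) ∂(Measure.map (b * ·) volume) := by
    exact ((Homeomorph.mulLeft₀ b hb).toMeasurableEquiv.measurableEmbedding.lintegral_map (fun z => g (k + z))).symm
  rw [h4, h3, lintegral_smul_measure, lintegral_add_left_eq_self, abs_inv]
  rfl

end Pool.Agent.P07318o
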