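import Pool.Agent.Lib.P07318o.FrDefs

/-!
# Module FrExp: the mean square of the form `LL` as an integral over differences

PROOF.  `Φ h t = ∏ j, Z j (t + xs ν κ α h j)` is jointly measurable (`xs_cont`), `∫⁻ t, ‖Φ h t‖ₑ = LA ν κ α Z h` (`enorm_prod`), and
`Ψ (h, t, t') = Φ h t * conj (Φ h t')` has `∫⁻ h, ∫⁻ t, ∫⁻ t', ‖Ψ‖ₑ = ∫⁻ h, LA ν κ α Z h ^ 2 ≠ ⊤`, so `Ψ` is integrable on
`(Fin m → ℝ) × (ℝ × ℝ)`.  For every `h` `∫ t, ∫ t', Φ h t * conj (Φ h t') = LL h * conj (LL h) = ‖LL h‖ ^ 2`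
(`integral_mul_const`, `integral_const_mul`, `integral_conj`), so `∫ h, ‖LL h‖ ^ 2 = ∫ Ψ` (as complex numbers) and
`h ↦ ‖LL h‖ ^ 2` is integrable; hence `∫⁻ h, ‖LL h‖ₑ ^ 2 = ‖∫ Ψ‖ₑ` (`ofReal_integral_eq_lintegral_ofReal`).
The map `(h, t, τ) ↦ (h, t, t + τ)` is measure preserving (skew product), and `Ψ(h, t, t + τ) = Φ h t * conj (Φ h (t + τ)) =
∏ j, shp (Z j) τ (t + xs ν κ α h j)` (`t + τ + x = t + x + τ`, `map_prod`, `Finset.prod_mul_distrib`).  Fubini with `τ` outside: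
`∫ Ψ = ∫ τ, ∫ p : (Fin m → ℝ) × ℝ, ∏ j, shp (Z j) τ (p.2 + xs ν κ α p.1 j)`, so `‖∫ Ψ‖ₑ ≤ ∫⁻ τ, ‖∫ p, ..‖ₑ`
(`enorm_integral_le_lintegral_enorm`), and for every `τ` the inner integral is `Fm ν κ ..` by `prod_xs` and `cv_int` (applied to
`Θ y = (∏ j, shp (Z j.castSucc) τ (y j)) * shp (Z (Fin.last _)) τ (κ + ∑ j, ν j * y j)`).
-/

set_option autoImplicit false

namespace Pool.Agent.P07318o

open MeasureTheory Complex Pool.Agent.P07318s Pool.Agent.P07318f Pool.Agent.P07318h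

namespace FrExpAux

/-- the product of all the factors -/
noncomputable def Ph {m : ℕ} (ν : Fin (m + 1) → ℝ) (κ α : ℝ) (Z : Fin (m + 2) → ℝ → ℂ)
    (p : (Fin m → ℝ) × ℝ) : ℂ := ∏ j, Z j (p.2 + xs ν κ α p.1 j)

theorem Ph_meas {m : ℕ} (ν : Fin (m + 1) → ℝ) (κ α : ℝ) {Z : Fin (m + 2) → ℝ → ℂ}
    (hZ : ∀ j, Measurable (Z j)) : Measurable (Ph ν κ α Z) := by
  unfold Ph
  refine Finset.measurable_fun_prod _ fun j _ => (hZ j).comp ?_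
  exact measurable_snd.add (((measurable_pi_apply j).comp (xs_cont ν κ α).measurable).comp
    measurable_fst)

/-- the product of the form with its conjugate -/
noncomputable def Ps {m : ℕ} (ν : Fin (m + 1) → ℝ) (κ α : ℝ) (Z : Fin (m + 2) → ℝ → ℂ)
    (p : (Fin m → ℝ) × (ℝ × ℝ)) : ℂ :=
  Ph ν κ α Z (p.1, p.2.1) * (starRingEnd ℂ) (Ph ν κ α Z (p.1, p.2.2))

theorem Ps_meas {m : ℕ} (ν : Fin (m + 1) → ℝ) (κ α : ℝ) {Z : Fin (m + 2) → ℝ → ℂ}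
    (hZ : ∀ j, Measurable (Z j)) : Measurable (Ps ν κ α Z) := by
  unfold Ps
  have h1 : Measurable fun p : (Fin m → ℝ) × (ℝ × ℝ) => (p.1, p.2.1) := by fun_prop
  have h2 : Measurable fun p : (Fin m → ℝ) × (ℝ × ℝ) => (p.1, p.2.2) := by fun_prop
  exact ((Ph_meas ν κ α hZ).comp h1).mul
    (Complex.continuous_conj.measurable.comp ((Ph_meas ν κ α hZ).comp h2))

theorem LA_eq {m : ℕ} (ν : Fin (m + 1) → ℝ) (κ α : ℝ) (Z : Fin (m + 2) → ℝ → ℂ)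
    (h : Fin m → ℝ) : LA ν κ α Z h = ∫⁻ t, ‖Ph ν κ α Z (h, t)‖ₑ := by
  unfold LA Ph
  refine lintegral_congr fun t => ?_
  rw [← ofReal_norm, norm_prod, ENNReal.ofReal_prod_of_nonneg fun j _ => norm_nonneg _]
  exact Finset.prod_congr rfl fun j _ => (ofReal_norm _).symm

theorem lint_Ps {m : ℕ} (ν : Fin (m + 1) → ℝ) (κ α : ℝ) {Z : Fin (m + 2) → ℝ → ℂ}
    (hZ : ∀ j, Measurable (Z j)) :
    ∫⁻ p, ‖Ps ν κ α Z p‖ₑ = ∫⁻ h, LA ν κ α Z h ^ 2 := by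
  rw [Measure.volume_eq_prod, lintegral_prod _ (Ps_meas ν κ α hZ).enorm.aemeasurable]
  refine lintegral_congr fun h => ?_
  have h1 : Measurable fun t : ℝ => ‖Ph ν κ α Z (h, t)‖ₑ :=
    ((Ph_meas ν κ α hZ).comp (measurable_const.prodMk measurable_id)).enorm
  have h2 : ∀ q : ℝ × ℝ, ‖Ps ν κ α Z (h, q)‖ₑ =
      ‖Ph ν κ α Z (h, q.1)‖ₑ * ‖Ph ν κ α Z (h, q.2)‖ₑ := by
    intro q
    unfold Ps
    rw [enorm_mul]
    congr 1
    rw [← ofReal_norm, ← ofReal_norm, RCLike.norm_conj]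
  simp only [h2]
  rw [Measure.volume_eq_prod, lintegral_prod_mul h1.aemeasurable h1.aemeasurable, LA_eq, sq]

theorem Ps_int {m : ℕ} (ν : Fin (m + 1) → ℝ) (κ α : ℝ) {Z : Fin (m + 2) → ℝ → ℂ}
    (hZ : ∀ j, Measurable (Z j)) (hfin : ∫⁻ h, LA ν κ α Z h ^ 2 ≠ ⊤) :
    Integrable (Ps ν κ α Z) := by
  refine ⟨(Ps_meas ν κ α hZ).aestronglyMeasurable, ?_⟩
  unfold HasFiniteIntegral
  rw [lint_Ps ν κ α hZ]
  exact hfin.lt_top

theorem inner_eq {m : ℕ} (ν : Fin (m + 1) → ℝ) (κ α : ℝ) (Z : Fin (m + 2) → ℝ → ℂ)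
    (h : Fin m → ℝ) : ∫ q : ℝ × ℝ, Ps ν κ α Z (h, q) = ((‖LL ν κ α Z h‖ ^ 2 : ℝ) : ℂ) := by
  unfold Ps
  rw [Measure.volume_eq_prod]
  have h1 := integral_prod_mul (μ := (volume : Measure ℝ)) (ν := (volume : Measure ℝ))
    (fun t : ℝ => Ph ν κ α Z (h, t)) (fun t : ℝ => (starRingEnd ℂ) (Ph ν κ α Z (h, t)))
  rw [h1, integral_conj]
  have h2 : ∫ t : ℝ, Ph ν κ α Z (h, t) = LL ν κ α Z h := rfl
  rw [h2, Complex.mul_conj, Complex.normSq_eq_norm_sq]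

theorem lint_LL {m : ℕ} (ν : Fin (m + 1) → ℝ) (κ α : ℝ) {Z : Fin (m + 2) → ℝ → ℂ}
    (hZ : ∀ j, Measurable (Z j)) (hfin : ∫⁻ h, LA ν κ α Z h ^ 2 ≠ ⊤) :
    ∫⁻ h, ‖LL ν κ α Z h‖ₑ ^ 2 = ‖∫ p, Ps ν κ α Z p‖ₑ := by
  have hi := Ps_int ν κ α hZ hfin
  rw [Measure.volume_eq_prod] at hi
  have h1 : Integrable fun h => ((‖LL ν κ α Z h‖ ^ 2 : ℝ) : ℂ) := by
    have := hi.integral_prod_left
    refine this.congr (Filter.Eventually.of_forall fun h => ?_)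
    exact inner_eq ν κ α Z h
  have h2 : Integrable fun h => ‖LL ν κ α Z h‖ ^ 2 := by
    exact h1.re.congr (Filter.Eventually.of_forall fun h => Complex.ofReal_re _)
  rw [Measure.volume_eq_prod, integral_prod _ hi]
  have h3 : ∫ h, ∫ q : ℝ × ℝ, Ps ν κ α Z (h, q) = ((∫ h, ‖LL ν κ α Z h‖ ^ 2 : ℝ) : ℂ) := by
    rw [← integral_complex_ofReal]
    exact integral_congr_ae (Filter.Eventually.of_forall fun h => inner_eq ν κ α Z h)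
  rw [h3]
  have h4 : ‖((∫ h, ‖LL ν κ α Z h‖ ^ 2 : ℝ) : ℂ)‖ₑ = ENNReal.ofReal (∫ h, ‖LL ν κ α Z h‖ ^ 2) := by
    rw [← ofReal_norm, Complex.norm_real, Real.norm_of_nonneg]
    exact integral_nonneg fun h => by positivity
  rw [h4, ofReal_integral_eq_lintegral_ofReal h2 (Filter.Eventually.of_forall fun h => by positivity)]
  refine lintegral_congr fun h => ?_
  rw [ENNReal.ofReal_pow (norm_nonneg _), ofReal_norm]

/-- `((h, t), τ) ↦ (h, (t, t + τ))` -/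
noncomputable def sh3 (m : ℕ) : ((Fin m → ℝ) × ℝ) × ℝ ≃ᵐ (Fin m → ℝ) × (ℝ × ℝ) :=
  MeasurableEquiv.prodAssoc.trans
    ((MeasurableEquiv.refl (Fin m → ℝ)).prodCongr (MeasurableEquiv.shearAddRight ℝ))

theorem sh3_apply {m : ℕ} (w : ((Fin m → ℝ) × ℝ) × ℝ) :
    sh3 m w = (w.1.1, (w.1.2, w.1.2 + w.2)) := rfl

theorem sh3_mp (m : ℕ) : MeasurePreserving (sh3 m) volume volume := by
  have h1 : MeasurePreserving (MeasurableEquiv.prodAssoc :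
      ((Fin m → ℝ) × ℝ) × ℝ ≃ᵐ (Fin m → ℝ) × (ℝ × ℝ)) volume volume :=
    volume_preserving_prodAssoc
  have h2 : MeasurePreserving (fun z : ℝ × ℝ => (z.1, z.1 + z.2)) volume volume :=
    measurePreserving_prod_add volume volume
  have h3 : MeasurePreserving (Prod.map id (fun z : ℝ × ℝ => (z.1, z.1 + z.2)) :
      (Fin m → ℝ) × (ℝ × ℝ) → (Fin m → ℝ) × (ℝ × ℝ)) volume volume :=
    (MeasurePreserving.id volume).prod h2
  exact h3.comp h1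

theorem Ps_sh3 {m : ℕ} (ν : Fin (m + 1) → ℝ) (κ α : ℝ) (Z : Fin (m + 2) → ℝ → ℂ)
    (p : (Fin m → ℝ) × ℝ) (τ : ℝ) :
    Ps ν κ α Z (sh3 m (p, τ)) = ∏ j, shp (Z j) τ (p.2 + xs ν κ α p.1 j) := by
  rw [sh3_apply]
  unfold Ps Ph shp
  rw [map_prod, Finset.prod_mul_distrib]
  congr 1
  refine Finset.prod_congr rfl fun j _ => ?_
  congr 2
  show p.2 + τ + _ = _
  ring

end FrExpAux

open FrExpAux

theorem expand_form {m : ℕ} {ν : Fin (m + 1) → ℝ} (hν : Adm ν) (κ α : ℝ) (Z : Fin (m + 2) → ℝ → ℂ)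
    (hZ : ∀ j, Measurable (Z j)) (hfin : ∫⁻ h, LA ν κ α Z h ^ 2 ≠ ⊤) :
    ∫⁻ h, ‖LL ν κ α Z h‖ₑ ^ 2 ≤
      ∫⁻ τ, ‖Fm ν κ (fun j => shp (Z j.castSucc) τ) (shp (Z (Fin.last (m + 1))) τ)‖ₑ := by
  rw [lint_LL ν κ α hZ hfin, ← (sh3_mp m).integral_comp' (Ps ν κ α Z)]
  have hi : Integrable (fun w => Ps ν κ α Z (sh3 m w)) :=
    (sh3_mp m).integrable_comp_of_integrable (Ps_int ν κ α hZ hfin)
  rw [Measure.volume_eq_prod] at hi
  rw [Measure.volume_eq_prod, integral_prod_symm _ hi]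
  refine (enorm_integral_le_lintegral_enorm _).trans_eq ?_
  refine lintegral_congr fun τ => ?_
  congr 1
  have h1 := cv_int α (fun y : Fin (m + 1) → ℝ => (∏ j, shp (Z j.castSucc) τ (y j)) *
    shp (Z (Fin.last (m + 1))) τ (κ + ∑ j, ν j * y j))
  unfold Fm
  rw [← h1]
  refine integral_congr_ae (Filter.Eventually.of_forall fun p => ?_)
  show Ps ν κ α Z (sh3 m (p, τ)) = _
  rw [Ps_sh3, prod_xs hν κ α p.1 p.2 (fun j => shp (Z j) τ)]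

end Pool.Agent.P07318o
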