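import Pool.Agent.Lib.P07318o.FrAc

/-!
# Module FrTri: the inequality for two functions and a line

PROOF.  `E u = ∫ y, G y * H (u + b * y)`.  First `∫⁻ x, ‖∫ y, G y * H (k + (a * x + b * y))‖ₑ ^ 2 = ∫⁻ x, ‖E (k + a * x)‖ₑ ^ 2 =
ofReal |a|⁻¹ * ∫⁻ u, ‖E u‖ₑ ^ 2` (`lint_affine` for the function `‖E ·‖ₑ ^ 2`).
`∫⁻ u, ‖E u‖ₑ ^ 2`: `Ψ (u, y, y') = G y * H (u + b y) * conj (G y' * H (u + b y'))` is integrable on `ℝ × ℝ × ℝ`:
`∫⁻ u, ‖H (u + b y)‖ ‖H (u + b y')‖ ≤ nm H` (Cauchy-Schwarz), so `∫⁻ ‖Ψ‖ ≤ (∫⁻ ‖G‖) ^ 2 * nm H < ⊤`.  As in FrExp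
`∫ u, ‖E u‖ ^ 2 = ∫ Ψ` (for every `u`, `∫∫ Ψ dy dy' = E u * conj (E u)`).  Put `y' = y + z` (measure preserving) and integrate over `u` first:
`∫ u, H (u + b y) * conj (H (u + b y + b z)) = ac H (b z)`, then over `y`: `∫ y, G y * conj (G (y + z)) = ac G z`, so
`∫ Ψ = ∫ z, ac G z * ac H (b z)` and `‖∫ Ψ‖ₑ ≤ ∫⁻ z, ‖ac G z‖ ‖ac H (b z)‖ ≤ (nm (ac G)) ^ (1/2) * (∫⁻ z, ‖ac H (b z)‖ ^ 2) ^ (1/2)` and
`∫⁻ z, ‖ac H (b z)‖ₑ ^ 2 = ofReal |b|⁻¹ * nm (ac H)` (`lint_affine` with `k = 0`).  The constant is `|a|⁻¹ * (|b|⁻¹) ^ (1/2)`.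
(`ac H w = ∫ y, H y * conj (H (y + w))`; translation invariance `integral_add_right_eq_self`.)
-/

set_option autoImplicit false

namespace Pool.Agent.P07318o

open MeasureTheory Complex Pool.Agent.P07318s Pool.Agent.P07318f Pool.Agent.P07318h

namespace FrTriAux

/-- the product, shear coordinates `((z, y), u)` -/
noncomputable def Ps (b : ℝ) (G H : ℝ → ℂ) (p : (ℝ × ℝ) × ℝ) : ℂ :=
  G p.1.2 * H (p.2 + b * p.1.2) * (starRingEnd ℂ) (G (p.1.2 + p.1.1) * H (p.2 + b * (p.1.2 + p.1.1)))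

lemma meas_Ps (b : ℝ) {G H : ℝ → ℂ} (hG : Measurable G) (hH : Measurable H) : Measurable (Ps b G H) := by
  unfold Ps
  have h1 : Measurable fun p : (ℝ × ℝ) × ℝ => G p.1.2 := hG.comp (by fun_prop)
  have h2 : Measurable fun p : (ℝ × ℝ) × ℝ => H (p.2 + b * p.1.2) := hH.comp (by fun_prop)
  have h3 : Measurable fun p : (ℝ × ℝ) × ℝ => G (p.1.2 + p.1.1) := hG.comp (by fun_prop)
  have h4 : Measurable fun p : (ℝ × ℝ) × ℝ => H (p.2 + b * (p.1.2 + p.1.1)) := hH.comp (by fun_prop)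
  exact (h1.mul h2).mul (Complex.continuous_conj.measurable.comp (h3.mul h4))

lemma enorm_conj' (z : ℂ) : ‖(starRingEnd ℂ) z‖ₑ = ‖z‖ₑ := by
  rw [← ofReal_norm, ← ofReal_norm, RCLike.norm_conj]

lemma enorm_Ps (b : ℝ) (G H : ℝ → ℂ) (z y u : ℝ) : ‖Ps b G H ((z, y), u)‖ₑ =
    ‖G y‖ₑ * ‖G (y + z)‖ₑ * ‖shp (fun u => H (u + b * y)) (b * z) u‖ₑ := by
  unfold Ps shp
  simp only [enorm_mul, enorm_conj', map_mul]
  have h : u + b * (y + z) = u + b * z + b * y := by ring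
  rw [h]
  ring

lemma nm_translate {H : ℝ → ℂ} (c : ℝ) : nm (fun u => H (u + c)) = nm H := by
  unfold nm
  exact lintegral_add_right_eq_self (fun u => ‖H u‖ₑ ^ 2) c

lemma Ps_able {b : ℝ} {G H : ℝ → ℂ} (hG : Measurable G) (hH : Measurable H)
    (hG1 : ∫⁻ y, ‖G y‖ₑ ≠ ⊤) (hH2 : nm H ≠ ⊤) :
    Integrable (Ps b G H) (((volume : Measure ℝ).prod (volume : Measure ℝ)).prod (volume : Measure ℝ)) := by
  refine ⟨(meas_Ps b hG hH).aestronglyMeasurable, ?_⟩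
  unfold HasFiniteIntegral
  rw [lintegral_prod _ (meas_Ps b hG hH).enorm.aemeasurable]
  have h1 : ∀ q : ℝ × ℝ, ∫⁻ u, ‖Ps b G H (q, u)‖ₑ ≤ (‖G q.2‖ₑ * ‖G (q.2 + q.1)‖ₑ) * nm H := by
    rintro ⟨z, y⟩
    simp only [enorm_Ps]
    have h2 : Measurable fun u => H (u + b * y) := hH.comp (by fun_prop)
    rw [lintegral_const_mul]
    · gcongr
      rw [← nm_translate (H := H) (b * y)]
      exact l1_shp h2 _
    · have h3 : Measurable fun u => H (u + b * z + b * y) := hH.comp (by fun_prop)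
      exact (h2.mul (Complex.continuous_conj.measurable.comp h3)).enorm
  have h4 : Measurable fun p : ℝ × ℝ => ‖G p.1‖ₑ * ‖G p.2‖ₑ :=
    (hG.comp measurable_fst).enorm.mul (hG.comp measurable_snd).enorm
  have h5 : ∫⁻ q : ℝ × ℝ, ‖G q.2‖ₑ * ‖G (q.2 + q.1)‖ₑ ∂((volume : Measure ℝ).prod (volume : Measure ℝ)) =
      (∫⁻ y, ‖G y‖ₑ) * ∫⁻ y, ‖G y‖ₑ := by
    have h6 := (measurePreserving_prod_add_swap (volume : Measure ℝ) (volume : Measure ℝ)).lintegral_comp h4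
    rw [lintegral_prod_mul hG.enorm.aemeasurable hG.enorm.aemeasurable] at h6
    exact h6
  calc ∫⁻ q : ℝ × ℝ, (∫⁻ u, ‖Ps b G H (q, u)‖ₑ) ∂((volume : Measure ℝ).prod (volume : Measure ℝ)) ≤
      ∫⁻ q : ℝ × ℝ, (‖G q.2‖ₑ * ‖G (q.2 + q.1)‖ₑ) * nm H ∂((volume : Measure ℝ).prod (volume : Measure ℝ)) :=
        lintegral_mono h1
    _ = ((∫⁻ y, ‖G y‖ₑ) * ∫⁻ y, ‖G y‖ₑ) * nm H := by
        rw [lintegral_mul_const', h5]
        exact hH2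
    _ < ⊤ := ENNReal.mul_lt_top (ENNReal.mul_lt_top hG1.lt_top hG1.lt_top) hH2.lt_top

/-- the square of the inner integral -/
lemma sq_E (b : ℝ) {G H : ℝ → ℂ} (hG : Measurable G) (hH : Measurable H) (u : ℝ) :
    ∫ q : ℝ × ℝ, Ps b G H (q, u) ∂((volume : Measure ℝ).prod (volume : Measure ℝ)) =
      ((‖∫ y, G y * H (u + b * y)‖ ^ 2 : ℝ) : ℂ) := by
  have h1 := integral_prod_mul (μ := (volume : Measure ℝ)) (ν := (volume : Measure ℝ))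
    (fun y : ℝ => G y * H (u + b * y)) (fun y : ℝ => (starRingEnd ℂ) (G y * H (u + b * y)))
  rw [integral_conj, Complex.mul_conj, Complex.normSq_eq_norm_sq] at h1
  rw [← h1]
  have h2 := measurePreserving_prod_add_swap (volume : Measure ℝ) (volume : Measure ℝ)
  have h3 : Measurable fun p : ℝ × ℝ => (G p.1 * H (u + b * p.1)) * (starRingEnd ℂ) (G p.2 * H (u + b * p.2)) := by
    have h4 : Measurable fun y : ℝ => G y * H (u + b * y) := hG.mul (hH.comp (by fun_prop))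
    exact (h4.comp measurable_fst).mul (Complex.continuous_conj.measurable.comp (h4.comp measurable_snd))
  rw [← h2.map_eq, integral_map h2.measurable.aemeasurable h3.aestronglyMeasurable, h2.map_eq]
  rfl

/-- the integral over `u` first -/
lemma int_u (b : ℝ) (G H : ℝ → ℂ) (z y : ℝ) :
    ∫ u, Ps b G H ((z, y), u) = (G y * (starRingEnd ℂ) (G (y + z))) * ac H (b * z) := by
  have h1 : ∀ u, Ps b G H ((z, y), u) =
      (G y * (starRingEnd ℂ) (G (y + z))) * (fun v => H v * (starRingEnd ℂ) (H (v + b * z))) (u + b * y) := by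
    intro u
    unfold Ps
    simp only [map_mul]
    have h : u + b * (y + z) = u + b * y + b * z := by ring
    rw [h]
    ring
  simp only [h1]
  rw [integral_const_mul, integral_add_right_eq_self (fun v => H v * (starRingEnd ℂ) (H (v + b * z)))]
  rfl

/-- the total integral -/
lemma total {b : ℝ} {G H : ℝ → ℂ} (hG : Measurable G) (hH : Measurable H)
    (hG1 : ∫⁻ y, ‖G y‖ₑ ≠ ⊤) (hH2 : nm H ≠ ⊤) :
    ∫ u, ((‖∫ y, G y * H (u + b * y)‖ ^ 2 : ℝ) : ℂ) = ∫ z, ac G z * ac H (b * z) := by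
  have hI := Ps_able (b := b) hG hH hG1 hH2
  have h1 := integral_prod _ hI
  have h2 := integral_prod_symm _ hI
  have h3 := hI.integral_prod_left
  simp only [sq_E b hG hH] at h2
  rw [← h2, h1, integral_prod _ h3]
  refine integral_congr_ae (Filter.Eventually.of_forall fun z => ?_)
  simp only [int_u]
  rw [integral_mul_const]
  rfl

lemma lint_sq {b : ℝ} {G H : ℝ → ℂ} (hG : Measurable G) (hH : Measurable H)
    (hG1 : ∫⁻ y, ‖G y‖ₑ ≠ ⊤) (hH2 : nm H ≠ ⊤) :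
    ∫⁻ u, ‖∫ y, G y * H (u + b * y)‖ₑ ^ 2 = ‖∫ z, ac G z * ac H (b * z)‖ₑ := by
  have hI := Ps_able (b := b) hG hH hG1 hH2
  have h1 : Integrable fun u => ((‖∫ y, G y * H (u + b * y)‖ ^ 2 : ℝ) : ℂ) := by
    refine hI.integral_prod_right.congr (Filter.Eventually.of_forall fun u => ?_)
    exact sq_E b hG hH u
  have h2 : Integrable fun u => ‖∫ y, G y * H (u + b * y)‖ ^ 2 := by
    exact h1.re.congr (Filter.Eventually.of_forall fun h => Complex.ofReal_re _)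
  rw [← total hG hH hG1 hH2]
  have h3 : ∫ u, ((‖∫ y, G y * H (u + b * y)‖ ^ 2 : ℝ) : ℂ) = ((∫ u, ‖∫ y, G y * H (u + b * y)‖ ^ 2 : ℝ) : ℂ) :=
    integral_complex_ofReal
  rw [h3]
  have h4 : ‖((∫ u, ‖∫ y, G y * H (u + b * y)‖ ^ 2 : ℝ) : ℂ)‖ₑ =
      ENNReal.ofReal (∫ u, ‖∫ y, G y * H (u + b * y)‖ ^ 2) := by
    rw [← ofReal_norm, Complex.norm_real, Real.norm_of_nonneg]
    exact integral_nonneg fun h => by positivity
  rw [h4, ofReal_integral_eq_lintegral_ofReal h2 (Filter.Eventually.of_forall fun h => by positivity)]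
  refine lintegral_congr fun h => ?_
  rw [ENNReal.ofReal_pow (norm_nonneg _), ofReal_norm]

/-- Cauchy-Schwarz -/
lemma cs {α : Type*} [MeasurableSpace α] (μ : Measure α) {f g : α → ENNReal} (hf : AEMeasurable f μ) (hg : AEMeasurable g μ) :
    ∫⁻ x, f x * g x ∂μ ≤ (∫⁻ x, f x ^ 2 ∂μ) ^ (1 / 2 : ℝ) * (∫⁻ x, g x ^ 2 ∂μ) ^ (1 / 2 : ℝ) := by
  have h := ENNReal.lintegral_mul_le_Lp_mul_Lq μ Real.HolderConjugate.two_two hf hg
  simpa [ENNReal.rpow_two] using h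

end FrTriAux

open FrTriAux

theorem tri {a b : ℝ} (ha : a ≠ 0) (hb : b ≠ 0) (k : ℝ) {G H : ℝ → ℂ} (hG : Measurable G) (hH : Measurable H)
    (hG1 : ∫⁻ y, ‖G y‖ₑ ≠ ⊤) (hH2 : nm H ≠ ⊤) :
    ∫⁻ x, ‖∫ y, G y * H (k + (a * x + b * y))‖ₑ ^ 2 ≤
      ENNReal.ofReal (|a|⁻¹ * (|b|⁻¹) ^ (1 / 2 : ℝ)) * (nm (ac G)) ^ (1 / 2 : ℝ) * (nm (ac H)) ^ (1 / 2 : ℝ) := by
  have h1 : ∫⁻ x, ‖∫ y, G y * H (k + (a * x + b * y))‖ₑ ^ 2 =
      ENNReal.ofReal |a|⁻¹ * ∫⁻ u, ‖∫ y, G y * H (u + b * y)‖ₑ ^ 2 := by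
    rw [← lint_affine (fun u => ‖∫ y, G y * H (u + b * y)‖ₑ ^ 2) ha k]
    refine lintegral_congr fun x => ?_
    simp only [add_assoc]
  have h2 : ‖∫ z, ac G z * ac H (b * z)‖ₑ ≤ (nm (ac G)) ^ (1 / 2 : ℝ) * (ENNReal.ofReal |b|⁻¹ * nm (ac H)) ^ (1 / 2 : ℝ) := by
    have h3 : Measurable fun z => ac H (b * z) := (meas_ac hH).comp (by fun_prop)
    have h4 : ∫⁻ z, ‖ac H (b * z)‖ₑ ^ 2 = ENNReal.ofReal |b|⁻¹ * nm (ac H) := by
      unfold nm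
      rw [← lint_affine (fun u => ‖ac H u‖ₑ ^ 2) hb 0]
      refine lintegral_congr fun x => ?_
      simp only [zero_add]
    calc ‖∫ z, ac G z * ac H (b * z)‖ₑ ≤ ∫⁻ z, ‖ac G z * ac H (b * z)‖ₑ := enorm_integral_le_lintegral_enorm _
      _ = ∫⁻ z, ‖ac G z‖ₑ * ‖ac H (b * z)‖ₑ := lintegral_congr fun z => enorm_mul _ _
      _ ≤ (∫⁻ z, ‖ac G z‖ₑ ^ 2) ^ (1 / 2 : ℝ) * (∫⁻ z, ‖ac H (b * z)‖ₑ ^ 2) ^ (1 / 2 : ℝ) :=
          cs volume (meas_ac hG).enorm.aemeasurable h3.enorm.aemeasurable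
      _ = _ := by
          rw [h4]
          rfl
  rw [h1, lint_sq hG hH hG1 hH2]
  calc ENNReal.ofReal |a|⁻¹ * ‖∫ z, ac G z * ac H (b * z)‖ₑ ≤
      ENNReal.ofReal |a|⁻¹ * ((nm (ac G)) ^ (1 / 2 : ℝ) * (ENNReal.ofReal |b|⁻¹ * nm (ac H)) ^ (1 / 2 : ℝ)) := by
        gcongr
    _ = _ := by
        rw [ENNReal.mul_rpow_of_nonneg _ _ (by norm_num : (0 : ℝ) ≤ 1 / 2),
          ENNReal.ofReal_rpow_of_nonneg (inv_nonneg.2 (abs_nonneg _)) (by norm_num),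
          ENNReal.ofReal_mul (inv_nonneg.2 (abs_nonneg _))]
        ring

end Pool.Agent.P07318o
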