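import Pool.Agent.Lib.P07318o.Defs
import Pool.Agent.Lib.P07318f.FourSep

/-!
Cut-off functions and Fourier series of the coefficients: definitions.
-/

set_option autoImplicit false

namespace Pool.Agent.P07318o

open MeasureTheory Complex Pool.Agent.P07318s Pool.Agent.P07318f Pool.Agent.P07318h

/-- smooth cut-off functions on `[U / 2, 17 U]` -/
structure CutW (U Λ : ℝ) (c : ℝ → ℝ) : Prop where
  smooth : ContDiff ℝ 2 c
  le_one : ∀ y, |c y| ≤ 1
  supp : ∀ y, y ∉ Set.Icc (U / 2) (17 * U) → c y = 0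
  d1 : ∀ y, |deriv c y| ≤ Λ / U
  d2 : ∀ y, |deriv (deriv c) y| ≤ Λ / U ^ 2

lemma Cut.toW {U Λ : ℝ} {c : ℝ → ℝ} (hU : 0 < U) (h : Cut U Λ c) : CutW U Λ c where
  smooth := h.smooth
  le_one y := by rw [abs_of_nonneg (h.nonneg y)]; exact h.le_one y
  supp y hy := h.supp y fun h' => hy ⟨by linarith [h'.1], by linarith [h'.2]⟩
  d1 := h.d1
  d2 := h.d2

lemma klw_nonneg {U h : ℝ} (hh : 0 < h) : 0 ≤ kl U h := by
  unfold kl
  split_ifs with h1
  · have : 0 ≤ Real.log (U / h) := Real.log_nonneg ((one_le_div hh).2 h1)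
    linarith
  · positivity

lemma klw_anti {U h h' : ℝ} (hh : 0 < h) (hU : 0 < U) (h1 : h ≤ h') : kl U h' ≤ kl U h := by
  have hh' : 0 < h' := by linarith
  unfold kl
  split_ifs with h2 h3 h3
  · have : Real.log (U / h') ≤ Real.log (U / h) :=
      Real.log_le_log (by positivity) (div_le_div_of_nonneg_left hU.le hh h1)
    linarith
  · exact absurd (h1.trans h2) h3
  · have h4 : U / h' ≤ 1 := (div_le_one hh').2 (le_of_not_ge h2)
    have h5 : 0 ≤ U / h' := by positivity
    have h6 : 0 ≤ Real.log (U / h) := Real.log_nonneg ((one_le_div hh).2 h3)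
    nlinarith
  · have h4 : U / h' ≤ U / h := div_le_div_of_nonneg_left hU.le hh h1
    have h5 : 0 ≤ U / h' := by positivity
    exact pow_le_pow_left₀ h5 h4 2

end Pool.Agent.P07318o
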