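import Pool.Agent.Lib.P07318o.FwDefs

/-!
# Module FwTerm: the Fourier series of one term

PROOF.  Follow `P07318f.FourSepAux` (`Ff`, `Fd1`, `Fd2`, `F_bound`, `cc_bound`, `cc_hasSum`; `coeff_bound`, `series`, `W_hasDeriv`, `E_hasDeriv` can be
used directly).  Put `f x = c (U x) * W (l / x) * exp(s x²)` on `[1/2, 65/2]`; there `x > 0`, `c (U ·)` is `C²` with `|c| ≤ 1`,
`|(c(U·))'| ≤ Λ`, `|(c(U·))''| ≤ Λ` and vanishes for `x ∉ [1/2, 17]`, hence (continuity) also `c(U·)` and its derivative vanish at `1/2` and at `65/2`,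
so `f`, `f'` vanish at both end points.  `|W (l/x)| ≤ 2` (`W_le_two`) and `≤ C l^{-2} x²` (`W_le_rpow 2`); the derivatives of `x ↦ W(l/x)` are
`Eg v / x` and `(v/2 - 1) Eg v / x²` with `v = log l - log x` (`W_hasDeriv`, `E_hasDeriv`), bounded on `x ≤ 33` by constants and by `C l^{-2}`
(`Eg_bound` with `θ = 0` and `θ = 2`, `exp_v`): so all are `≤ C min(1, l^{-2})` on `[1/2, 17]`; outside, the factor `c` and its derivatives vanish.
`exp(s x²)` and its derivatives `2 s x e^{..}`, `(2s + 4s²x²) e^{..}` are bounded on `[1/2, 17]` by a constant.  So `|f|, |f''| ≤ C Λ min(1, l^{-2})`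
(`Λ ≥ 1`), and `coeff_bound` bounds `a k = fourierCoeffOn hab f k` (`pk k = 1/(1 + k²)`).
`HasSum`: let `x = y/U ∈ [-4, 28]`.  If `x ≥ 1/2`: `series` at `x` (`ek U k y = exp(2πi k x/32)`; `l / x = l * U / y`).  If `x < 1/2`: `series` at `x + 32 ∈ [28, 65/2)`,
where `f (x + 32) = 0` (as `x + 32 > 17`) and the characters have period `32`, and the right-hand side is `0` as `c y = 0` (`y < U/2`).
-/

set_option autoImplicit false

namespace Pool.Agent.P07318o

open MeasureTheory Complex Pool.Agent.P07318s Pool.Agent.P07318f Pool.Agent.P07318h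

namespace FwTermAux

open Pool.Agent.P07318f.FourSepAux

/-- `W (l / x)` and its derivatives on `[1/2, 33]` -/
theorem K_bound : ∃ B : ℝ, 0 < B ∧ ∀ l : ℝ, 0 < l → ∀ y ∈ Set.Icc (1 / 2 : ℝ) (1 / 2 + 32),
    |W (l / y)| ≤ B * min 1 (l ^ (-2 : ℝ)) ∧
    |Eg (Real.log l - Real.log y) / y| ≤ B * min 1 (l ^ (-2 : ℝ)) ∧
    |((Real.log l - Real.log y) / 2 - 1) * Eg (Real.log l - Real.log y) / y ^ 2| ≤
      B * min 1 (l ^ (-2 : ℝ)) := by
  obtain ⟨C, hC, hW⟩ := W_le_rpow 2 two_pos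
  obtain ⟨A, hA⟩ : ∃ A : ℝ, A = 2 + C * 33 ^ (2 : ℝ) + 8 * Real.exp 1 + 8 * Real.exp 9 * 33 ^ (2 : ℝ) :=
    ⟨_, rfl⟩
  have e1 := Real.exp_pos 1
  have e9 := Real.exp_pos 9
  have t33 : (0 : ℝ) < 33 ^ (2 : ℝ) := by positivity
  have hA0 : 0 < A := by rw [hA]; positivity
  have hC33 : 0 < C * 33 ^ (2 : ℝ) := by positivity
  have he33 : 0 < Real.exp 9 * 33 ^ (2 : ℝ) := by positivity
  refine ⟨A, hA0, ?_⟩
  intro l hl y hy
  have hy0 : 0 < y := by have := hy.1; linarith
  have hy1 : y ≤ 33 := by have := hy.2; linarith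
  have hy2 : 1 / 2 ≤ y := hy.1
  have hyθ : y ^ (2 : ℝ) ≤ 33 ^ (2 : ℝ) := Real.rpow_le_rpow hy0.le hy1 (by norm_num)
  have hlθ : 0 < l ^ (-2 : ℝ) := Real.rpow_pos_of_pos hl _
  have hw0 : 0 ≤ W (l / y) := W_nonneg _
  have hw : W (l / y) ≤ C * (l ^ (-2 : ℝ) * 33 ^ (2 : ℝ)) := by
    refine le_trans (hW _ (by positivity)) ?_
    apply mul_le_mul_of_nonneg_left _ hC.le
    rw [Real.div_rpow hl.le hy0.le, Real.rpow_neg hy0.le, div_inv_eq_mul]
    exact mul_le_mul_of_nonneg_left hyθ hlθ.le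
  set v := Real.log l - Real.log y with hv
  have hE0 : 0 ≤ Eg v := by unfold Eg; positivity
  have hEa : (1 + |v|) * Eg v ≤ 2 * Real.exp 1 := by
    have := Eg_bound 0 v
    simpa using this
  have hEb : (1 + |v|) * Eg v ≤ 2 * Real.exp 9 * (l ^ (-2 : ℝ) * 33 ^ (2 : ℝ)) := by
    have h1 := Eg_bound 2 v
    have h2 : Real.exp (1 + 2 * 2 ^ 2) = Real.exp 9 := by norm_num
    rw [h2] at h1
    refine le_trans h1 ?_
    apply mul_le_mul_of_nonneg_left _ (by positivity)
    rw [hv, exp_v hl hy0]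
    exact mul_le_mul_of_nonneg_left hyθ hlθ.le
  have hv0 := abs_nonneg v
  have hEy : Eg v / y ≤ 2 * ((1 + |v|) * Eg v) := by
    rw [div_le_iff₀ hy0]
    have : 0 ≤ |v| * Eg v := mul_nonneg hv0 hE0
    nlinarith
  have hEy0 : 0 ≤ Eg v / y := div_nonneg hE0 hy0.le
  have hEyy : |(v / 2 - 1) * Eg v / y ^ 2| ≤ 4 * ((1 + |v|) * Eg v) := by
    rw [abs_div, abs_mul, abs_of_nonneg hE0, abs_of_nonneg (by positivity : (0 : ℝ) ≤ y ^ 2),
      div_le_iff₀ (by positivity)]
    have t1 : |v / 2 - 1| ≤ 1 + |v| := by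
      have h1 := abs_sub (v / 2) 1
      rw [abs_div, abs_one, abs_two] at h1
      linarith
    have t2 : (1 : ℝ) ≤ 4 * y ^ 2 := by nlinarith
    have t3 : 0 ≤ (1 + |v|) * Eg v := by positivity
    calc |v / 2 - 1| * Eg v ≤ (1 + |v|) * Eg v := mul_le_mul_of_nonneg_right t1 hE0
      _ ≤ (1 + |v|) * Eg v * (4 * y ^ 2) := le_mul_of_one_le_right t3 t2
      _ = _ := by ring
  have fin : ∀ X : ℝ, X ≤ A → X ≤ A * l ^ (-2 : ℝ) → X ≤ A * min 1 (l ^ (-2 : ℝ)) := by
    intro X h1 h2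
    rcases min_choice 1 (l ^ (-2 : ℝ)) with h | h
    · rw [h, mul_one]; exact h1
    · rw [h]; exact h2
  refine ⟨?_, ?_, ?_⟩
  · rw [abs_of_nonneg hw0]
    refine fin _ ?_ ?_
    · have := W_le_two (l / y)
      rw [hA]; linarith
    · refine hw.trans ?_
      have : C * (l ^ (-2 : ℝ) * 33 ^ (2 : ℝ)) = (C * 33 ^ (2 : ℝ)) * l ^ (-2 : ℝ) := by ring
      rw [this]
      apply mul_le_mul_of_nonneg_right _ hlθ.le
      rw [hA]; linarith
  · rw [abs_of_nonneg hEy0]
    refine fin _ ?_ ?_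
    · refine hEy.trans ?_
      rw [hA]; linarith
    · refine hEy.trans ?_
      have : 2 * (2 * Real.exp 9 * (l ^ (-2 : ℝ) * 33 ^ (2 : ℝ))) =
        (4 * (Real.exp 9 * 33 ^ (2 : ℝ))) * l ^ (-2 : ℝ) := by ring
      refine (mul_le_mul_of_nonneg_left hEb (by norm_num)).trans ?_
      rw [this]
      apply mul_le_mul_of_nonneg_right _ hlθ.le
      rw [hA]; linarith
  · refine fin _ ?_ ?_
    · refine hEyy.trans ?_
      rw [hA]; linarith
    · refine hEyy.trans ?_
      have : 4 * (2 * Real.exp 9 * (l ^ (-2 : ℝ) * 33 ^ (2 : ℝ))) =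
        (8 * (Real.exp 9 * 33 ^ (2 : ℝ))) * l ^ (-2 : ℝ) := by ring
      refine (mul_le_mul_of_nonneg_left hEb (by norm_num)).trans ?_
      rw [this]
      apply mul_le_mul_of_nonneg_right _ hlθ.le
      rw [hA]; linarith

/-- a continuous function vanishing on the left of `a` vanishes at `a` -/
theorem zero_left {F : ℝ → ℝ} (hF : Continuous F) {a : ℝ} (h : ∀ y, y < a → F y = 0) : F a = 0 := by
  have h1 : a ∈ closure (Set.Iio a) := by
    rw [closure_Iio]
    exact Set.self_mem_Iic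
  have h2 : IsClosed {y : ℝ | F y = 0} := isClosed_eq hF continuous_const
  exact (closure_minimal (fun y hy => h y hy) h2) h1

section
variable {U Λ s : ℝ} {c : ℝ → ℝ}

theorem c_der (h : CutW U Λ c) (y : ℝ) : HasDerivAt c (deriv c y) y :=
  (h.smooth.differentiable (by norm_num) y).hasDerivAt

theorem c_cd (h : CutW U Λ c) : ContDiff ℝ 1 (deriv c) := by
  have := h.smooth
  exact ((contDiff_succ_iff_deriv (n := 1)).1 (by exact_mod_cast this)).2.2

theorem c_der2 (h : CutW U Λ c) (y : ℝ) : HasDerivAt (deriv c) (deriv (deriv c) y) y :=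
  ((c_cd h).differentiable (by norm_num) y).hasDerivAt

theorem c_cont2 (h : CutW U Λ c) : Continuous (deriv (deriv c)) :=
  (c_cd h).continuous_deriv le_rfl

theorem d_zero {F : ℝ → ℝ} {a b : ℝ} (hF : ∀ y, y ∉ Set.Icc a b → F y = 0) (y : ℝ)
    (hy : y ∉ Set.Icc a b) : deriv F y = 0 := by
  have h1 : F =ᶠ[nhds y] fun _ => (0 : ℝ) := by
    filter_upwards [isClosed_Icc.isOpen_compl.mem_nhds hy] with z hz
    exact hF z hz
  rw [h1.deriv_eq, deriv_const]

/-- the cut-off times the Gaussian, in the variable `x = y / U` -/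
noncomputable def g0 (U s : ℝ) (c : ℝ → ℝ) (x : ℝ) : ℝ := c (U * x) * Real.exp (s * x ^ 2)

noncomputable def g1 (U s : ℝ) (c : ℝ → ℝ) (x : ℝ) : ℝ :=
  deriv c (U * x) * U * Real.exp (s * x ^ 2) + c (U * x) * (Real.exp (s * x ^ 2) * (s * (2 * x)))

noncomputable def g2 (U s : ℝ) (c : ℝ → ℝ) (x : ℝ) : ℝ :=
  (deriv (deriv c) (U * x) * U * U * Real.exp (s * x ^ 2) +
    deriv c (U * x) * U * (Real.exp (s * x ^ 2) * (s * (2 * x)))) +
  (deriv c (U * x) * U * (Real.exp (s * x ^ 2) * (s * (2 * x))) +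
    c (U * x) * (Real.exp (s * x ^ 2) * (s * (2 * x)) * (s * (2 * x)) +
      Real.exp (s * x ^ 2) * (s * 2)))

theorem exp_der (s x : ℝ) :
    HasDerivAt (fun x : ℝ => Real.exp (s * x ^ 2)) (Real.exp (s * x ^ 2) * (s * (2 * x))) x := by
  have h1 : HasDerivAt (fun x : ℝ => s * x ^ 2) (s * (2 * x)) x := by
    have := (hasDerivAt_pow 2 x).const_mul s
    simpa using this
  exact h1.exp

theorem lin_der (U x : ℝ) : HasDerivAt (fun x : ℝ => U * x) U x := by
  simpa using (hasDerivAt_id x).const_mul U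

theorem g0_der (h : CutW U Λ c) (s x : ℝ) : HasDerivAt (g0 U s c) (g1 U s c x) x :=
  ((c_der h (U * x)).comp x (lin_der U x)).mul (exp_der s x)

theorem g1_der (h : CutW U Λ c) (s x : ℝ) : HasDerivAt (g1 U s c) (g2 U s c x) x := by
  have h1 := (((c_der2 h (U * x)).comp x (lin_der U x)).mul_const U).mul (exp_der s x)
  have h2 : HasDerivAt (fun x : ℝ => s * (2 * x)) (s * 2) x := by
    have := ((hasDerivAt_id x).const_mul 2).const_mul s
    simpa using this
  have h3 := ((c_der h (U * x)).comp x (lin_der U x)).mul ((exp_der s x).mul h2)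
  exact h1.add h3

theorem g2_cont (h : CutW U Λ c) (s : ℝ) : Continuous (g2 U s c) := by
  have h1 := (c_cont2 h).comp (continuous_const_mul U)
  have h2 := ((c_cd h).continuous).comp (continuous_const_mul U)
  have h3 := (h.smooth.continuous).comp (continuous_const_mul U)
  simp only [Function.comp_def] at h1 h2 h3
  have h4 : Continuous fun x : ℝ => Real.exp (s * x ^ 2) := by fun_prop
  have h5 : Continuous fun x : ℝ => s * (2 * x) := by fun_prop
  unfold g2
  exact ((((h1.mul continuous_const).mul continuous_const).mul h4).add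
    ((h2.mul continuous_const).mul (h4.mul h5))).add
    (((h2.mul continuous_const).mul (h4.mul h5)).add
      (h3.mul (((h4.mul h5).mul h5).add (h4.mul continuous_const))))

theorem out {U x : ℝ} (hU : 0 < U) (hx : 17 < x) : U * x ∉ Set.Icc (U / 2) (17 * U) := by
  intro h
  have := h.2
  nlinarith

theorem g_out (hU : 0 < U) (h : CutW U Λ c) (s : ℝ) {x : ℝ} (hx : 17 < x) :
    g0 U s c x = 0 ∧ g1 U s c x = 0 ∧ g2 U s c x = 0 := by
  have h1 := h.supp _ (out hU hx)
  have h2 : deriv c (U * x) = 0 := d_zero h.supp _ (out hU hx)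
  have h3 : deriv (deriv c) (U * x) = 0 := d_zero (fun y hy => d_zero h.supp y hy) _ (out hU hx)
  unfold g0 g1 g2
  rw [h1, h2, h3]
  refine ⟨by ring, by ring, by ring⟩

theorem g_half (hU : 0 < U) (h : CutW U Λ c) (s : ℝ) :
    g0 U s c (1 / 2) = 0 ∧ g1 U s c (1 / 2) = 0 := by
  have h1 : c (U * (1 / 2)) = 0 := by
    refine zero_left h.smooth.continuous fun y hy => h.supp y fun hc => ?_
    have := hc.1
    linarith
  have h2 : deriv c (U * (1 / 2)) = 0 := by
    refine zero_left (c_cd h).continuous fun y hy => d_zero h.supp y fun hc => ?_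
    have := hc.1
    linarith
  unfold g0 g1
  rw [h1, h2]
  refine ⟨by ring, by ring⟩

theorem g_bound (hU : 1 ≤ U) (hΛ : 1 ≤ Λ) (h : CutW U Λ c) (hs : 0 ≤ s) (hs1 : s ≤ 1) {x : ℝ}
    (hx1 : 1 / 2 ≤ x) :
    |g0 U s c x| ≤ 1300 * Real.exp 289 * Λ ∧ |g1 U s c x| ≤ 1300 * Real.exp 289 * Λ ∧
      |g2 U s c x| ≤ 1300 * Real.exp 289 * Λ := by
  have hU0 : 0 < U := by linarith
  have hE : 0 < Real.exp 289 := Real.exp_pos _
  have hEΛ : 0 < Real.exp 289 * Λ := by positivity
  rcases lt_or_ge 17 x with hx | hx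
  · obtain ⟨h1, h2, h3⟩ := g_out hU0 h s hx
    rw [h1, h2, h3, abs_zero]
    refine ⟨by positivity, by positivity, by positivity⟩
  · have a0 : |c (U * x)| ≤ Λ := (h.le_one _).trans hΛ
    have a1 : |deriv c (U * x) * U| ≤ Λ := by
      rw [abs_mul, abs_of_pos hU0, ← le_div_iff₀ hU0]
      exact h.d1 _
    have a2 : |deriv (deriv c) (U * x) * U * U| ≤ Λ := by
      rw [abs_mul, abs_mul, abs_of_pos hU0, mul_assoc, ← sq, ← le_div_iff₀ (by positivity)]
      exact h.d2 _
    have hxx : x ^ 2 ≤ 289 := by nlinarith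
    have e0 : Real.exp (s * x ^ 2) ≤ Real.exp 289 := Real.exp_le_exp.2 (by nlinarith [sq_nonneg x])
    have e0' := Real.exp_pos (s * x ^ 2)
    have f0 : |Real.exp (s * x ^ 2)| ≤ Real.exp 289 := by rw [abs_of_pos e0']; exact e0
    have m0 : 0 ≤ s * (2 * x) := by positivity
    have m1 : s * (2 * x) ≤ 34 := by nlinarith
    have f1 : |Real.exp (s * x ^ 2) * (s * (2 * x))| ≤ 34 * Real.exp 289 := by
      rw [abs_of_nonneg (by positivity)]
      nlinarith
    have f2 : |Real.exp (s * x ^ 2) * (s * (2 * x)) * (s * (2 * x)) +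
        Real.exp (s * x ^ 2) * (s * 2)| ≤ 1158 * Real.exp 289 := by
      rw [abs_of_nonneg (by positivity)]
      have m2 : (s * (2 * x)) * (s * (2 * x)) ≤ 34 * 34 := mul_le_mul m1 m1 m0 (by norm_num)
      have m3 : Real.exp (s * x ^ 2) * ((s * (2 * x)) * (s * (2 * x)) + s * 2) ≤
          Real.exp 289 * 1158 := by
        apply mul_le_mul e0 _ (by positivity) hE.le
        linarith
      calc _ = Real.exp (s * x ^ 2) * ((s * (2 * x)) * (s * (2 * x)) + s * 2) := by ring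
        _ ≤ _ := m3
        _ = _ := by ring
    have pr : ∀ {p q P Qz : ℝ}, |p| ≤ P → |q| ≤ Qz → |p * q| ≤ P * Qz := by
      intro p q P Qz hp hq
      rw [abs_mul]
      exact mul_le_mul hp hq (abs_nonneg _) ((abs_nonneg _).trans hp)
    have b00 := pr a0 f0
    have b10 := pr a1 f0
    have b01 := pr a0 f1
    have b20 := pr a2 f0
    have b11 := pr a1 f1
    have b02 := pr a0 f2
    refine ⟨?_, ?_, ?_⟩
    · unfold g0
      nlinarith
    · unfold g1
      refine (abs_add_le _ _).trans ?_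
      nlinarith
    · unfold g2
      refine (abs_add_le _ _).trans ((add_le_add (abs_add_le _ _) (abs_add_le _ _)).trans ?_)
      nlinarith

end

theorem ek_eq {U y : ℝ} (hU : 0 < U) (k : ℤ) :
    Pool.Agent.P07318h.ek U k y = cexp (((2 * Real.pi * k * (y / U) / 32 : ℝ) : ℂ) * I) := by
  unfold Pool.Agent.P07318h.ek
  congr 3
  field_simp

theorem ek_shift {U y : ℝ} (hU : 0 < U) (k : ℤ) :
    Pool.Agent.P07318h.ek U k y =
      cexp (((2 * Real.pi * k * (y / U + 32) / 32 : ℝ) : ℂ) * I) := by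
  rw [ek_eq hU]
  have h1 : (((2 * Real.pi * k * (y / U + 32) / 32 : ℝ) : ℂ) * I) =
      ((2 * Real.pi * k * (y / U) / 32 : ℝ) : ℂ) * I + k * (2 * Real.pi * I) := by
    push_cast
    ring
  rw [h1, Complex.exp_add, Complex.exp_int_mul_two_pi_mul_I, mul_one]

end FwTermAux

open FwTermAux Pool.Agent.P07318f.FourSepAux in
theorem fw_term : ∃ C : ℝ, 0 < C ∧ ∀ (U Λ s l : ℝ) (c : ℝ → ℝ), 1 ≤ U → 1 ≤ Λ → 0 ≤ s → s ≤ 1 → CutW U Λ c → 0 < l →
    ∃ a : ℤ → ℂ, (∀ k : ℤ, ‖a k‖ ≤ C * Λ * Pool.Agent.P07318h.pk k * min 1 (l ^ (-2 : ℝ))) ∧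
      ∀ y : ℝ, -(4 * U) ≤ y → y ≤ 28 * U →
        HasSum (fun k : ℤ => a k * Pool.Agent.P07318h.ek U k y)
          ((c y * W (l * U / y) * Real.exp (s * (y / U) ^ 2) : ℝ) : ℂ) := by
  obtain ⟨B, hB, hK⟩ := K_bound
  have hE : 0 < Real.exp 289 := Real.exp_pos _
  refine ⟨60 * (4 * (1300 * Real.exp 289 * B)), by positivity, ?_⟩
  intro U Λ s l c hU hΛ hs hs1 hc hl
  have hU0 : 0 < U := by linarith
  have hΛ0 : 0 < Λ := by linarith
  have hm0 : 0 ≤ min 1 (l ^ (-2 : ℝ)) := le_min zero_le_one (Real.rpow_nonneg hl.le _)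
  set m := min 1 (l ^ (-2 : ℝ)) with hm
  have hpos : ∀ y ∈ Set.Icc (1 / 2 : ℝ) (1 / 2 + 32), (0 : ℝ) < y := fun y hy => by
    have := hy.1
    linarith
  set f : ℝ → ℝ := fun x => g0 U s c x * W (l / x) with hf
  set f1 : ℝ → ℝ := fun x => g1 U s c x * W (l / x) +
    g0 U s c x * (Eg (Real.log l - Real.log x) / x) with hf1
  set f2 : ℝ → ℝ := fun x => (g2 U s c x * W (l / x) + g1 U s c x * (Eg (Real.log l - Real.log x) / x)) +
    (g1 U s c x * (Eg (Real.log l - Real.log x) / x) +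
      g0 U s c x * (((Real.log l - Real.log x) / 2 - 1) * Eg (Real.log l - Real.log x) / x ^ 2)) with hf2
  have d1 : ∀ x ∈ Set.Icc (1 / 2 : ℝ) (1 / 2 + 32), HasDerivAt f (f1 x) x := fun x hx =>
    (g0_der hc s x).mul (W_hasDeriv hl (hpos x hx))
  have d2 : ∀ x ∈ Set.Icc (1 / 2 : ℝ) (1 / 2 + 32), HasDerivAt f1 (f2 x) x := fun x hx =>
    ((g1_der hc s x).mul (W_hasDeriv hl (hpos x hx))).add ((g0_der hc s x).mul (E_hasDeriv (hpos x hx)))
  have d3 : ContinuousOn f2 (Set.Icc (1 / 2 : ℝ) (1 / 2 + 32)) := by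
    have c0 : ContinuousOn (fun y : ℝ => W (l / y)) (Set.Icc (1 / 2 : ℝ) (1 / 2 + 32)) := fun y hy =>
      (W_hasDeriv hl (hpos y hy)).continuousAt.continuousWithinAt
    have c1 : ContinuousOn (fun y : ℝ => Eg (Real.log l - Real.log y) / y)
        (Set.Icc (1 / 2 : ℝ) (1 / 2 + 32)) :=
      fun y hy => (E_hasDeriv (hpos y hy)).continuousAt.continuousWithinAt
    have c2 : ContinuousOn (fun y : ℝ => Real.log y) (Set.Icc (1 / 2 : ℝ) (1 / 2 + 32)) :=
      Real.continuousOn_log.mono fun y hy => (hpos y hy).ne'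
    have c3 : ContinuousOn (fun y : ℝ => ((Real.log l - Real.log y) / 2 - 1) *
        Eg (Real.log l - Real.log y) / y ^ 2) (Set.Icc (1 / 2 : ℝ) (1 / 2 + 32)) := by
      have e : ∀ y ∈ Set.Icc (1 / 2 : ℝ) (1 / 2 + 32), ((Real.log l - Real.log y) / 2 - 1) *
          Eg (Real.log l - Real.log y) / y ^ 2 =
          ((Real.log l - Real.log y) / 2 - 1) * ((Eg (Real.log l - Real.log y) / y) / y) := by
        intro y hy
        have := (hpos y hy).ne'
        field_simp
      refine ContinuousOn.congr ?_ e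
      exact (((continuousOn_const.sub c2).div_const 2).sub continuousOn_const).mul
        (c1.div continuousOn_id fun y hy => (hpos y hy).ne')
    have k0 : Continuous (g0 U s c) :=
      continuous_iff_continuousAt.2 fun x => (g0_der hc s x).continuousAt
    have k1 : Continuous (g1 U s c) :=
      continuous_iff_continuousAt.2 fun x => (g1_der hc s x).continuousAt
    exact (((g2_cont hc s).continuousOn.mul c0).add (k1.continuousOn.mul c1)).add
      ((k1.continuousOn.mul c1).add (k0.continuousOn.mul c3))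
  obtain ⟨z1, z2⟩ := g_half hU0 hc s
  obtain ⟨z3, z4, -⟩ := g_out hU0 hc s (x := 1 / 2 + 32) (by norm_num)
  have e1 : f (1 / 2) = 0 := by rw [hf]; simp only [z1, zero_mul]
  have e2 : f (1 / 2 + 32) = 0 := by rw [hf]; simp only [z3, zero_mul]
  have e3 : f1 (1 / 2) = 0 := by rw [hf1]; simp only [z1, z2, zero_mul, add_zero]
  have e4 : f1 (1 / 2 + 32) = 0 := by rw [hf1]; simp only [z3, z4, zero_mul, add_zero]
  obtain ⟨A, hA⟩ : ∃ A : ℝ, A = 1300 * Real.exp 289 * Λ := ⟨_, rfl⟩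
  have hA0 : 0 < A := by rw [hA]; positivity
  have hAB : 0 ≤ A * (B * m) := by positivity
  have b1 : ∀ x ∈ Set.Icc (1 / 2 : ℝ) (1 / 2 + 32), |f x| ≤ 4 * (A * (B * m)) ∧
      |f2 x| ≤ 4 * (A * (B * m)) := by
    intro x hx
    obtain ⟨p0, p1, p2⟩ := g_bound hU hΛ hc hs hs1 hx.1
    obtain ⟨q0, q1, q2⟩ := hK l hl x hx
    rw [← hA] at p0 p1 p2
    have pr : ∀ {p q P Qz : ℝ}, |p| ≤ P → |q| ≤ Qz → |p * q| ≤ P * Qz := by
      intro p q P Qz hp hq
      rw [abs_mul]
      exact mul_le_mul hp hq (abs_nonneg _) ((abs_nonneg _).trans hp)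
    constructor
    · have := pr p0 q0
      rw [hf]
      simp only
      linarith
    · rw [hf2]
      refine (abs_add_le _ _).trans ((add_le_add (abs_add_le _ _) (abs_add_le _ _)).trans ?_)
      have r1 := pr p2 q0
      have r2 := pr p1 q1
      have r3 := pr p0 q2
      linarith
  have hco := coeff_bound (f := fun y : ℝ => ((f y : ℝ) : ℂ)) (f' := fun y : ℝ => ((f1 y : ℝ) : ℂ))
    (f'' := fun y : ℝ => ((f2 y : ℝ) : ℂ))
    (fun x hx => (d1 x hx).ofReal_comp) (fun x hx => (d2 x hx).ofReal_comp)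
    (Complex.continuous_ofReal.comp_continuousOn d3)
    (by rw [e1]; simp) (by rw [e2]; simp) (by rw [e3]; simp) (by rw [e4]; simp)
    (4 * (A * (B * m))) (fun x hx => by rw [Complex.norm_real, Real.norm_eq_abs]; exact (b1 x hx).1)
    (fun x hx => by rw [Complex.norm_real, Real.norm_eq_abs]; exact (b1 x hx).2)
  refine ⟨fun k => fourierCoeffOn hab (fun y : ℝ => ((f y : ℝ) : ℂ)) k, fun k => ?_, fun y hy1 hy2 => ?_⟩
  · refine (hco k).trans (le_of_eq ?_)
    unfold Pool.Agent.P07318h.pk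
    rw [hA]
    ring
  · have hsum : Summable fun k : ℤ => fourierCoeffOn hab (fun y : ℝ => ((f y : ℝ) : ℂ)) k := by
      refine Summable.of_norm_bounded (summable_inv_sq.mul_left (60 * (4 * (A * (B * m))))) (fun k => ?_)
      rw [← div_eq_mul_inv]
      exact hco k
    have hcf : ContinuousOn (fun y : ℝ => ((f y : ℝ) : ℂ)) (Set.Icc (1 / 2 : ℝ) (1 / 2 + 32)) :=
      fun x hx => (d1 x hx).ofReal_comp.continuousAt.continuousWithinAt
    have hyU1 : -4 ≤ y / U := by rw [le_div_iff₀ hU0]; linarith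
    have hyU2 : y / U ≤ 28 := by rw [div_le_iff₀ hU0]; linarith
    have hUy : U * (y / U) = y := by field_simp
    rcases le_or_gt (1 / 2) (y / U) with hx | hx
    · have h1 := series hcf (by rw [e1, e2]) hsum (y / U) hx (by linarith)
      have h2 : ((f (y / U) : ℝ) : ℂ) =
          ((c y * W (l * U / y) * Real.exp (s * (y / U) ^ 2) : ℝ) : ℂ) := by
        rw [hf]
        unfold g0
        simp only
        rw [hUy, div_div_eq_mul_div]
        congr 1
        ring
      rw [h2] at h1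
      refine h1.congr_fun fun k => ?_
      rw [ek_eq hU0]
    · have h1 := series hcf (by rw [e1, e2]) hsum (y / U + 32) (by linarith) (by linarith)
      have h3 : f (y / U + 32) = 0 := by
        rw [hf]
        simp only
        rw [(g_out hU0 hc s (x := y / U + 32) (by linarith)).1, zero_mul]
      have h4 : c y = 0 := by
        refine hc.supp y fun h => ?_
        have := h.1
        rw [div_lt_iff₀ hU0] at hx
        linarith
      rw [h3] at h1
      rw [h4, zero_mul, zero_mul]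
      refine h1.congr_fun fun k => ?_
      rw [ek_shift hU0]

end Pool.Agent.P07318o
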