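import Pool.Agent.Lib.P07318o.FourG

/-!
# Module FwWin: a fixed window equal to `1` on `[U, 16U]`; the size of the coefficients

PROOF.  `c y = ch (y / U)` with the bump function `ch` of `P07318f.FourSepAux` (`= 1` on `[1, 16]`, `= 0` for `|y - 17/2| ≥ 8`, i.e. outside
`[1/2, 33/2]`; `0 ≤ ch ≤ 1`, smooth, so the first two derivatives are bounded: they are continuous with compact support, cf. `ch_bound`).
`om_kl`: `four_g` with this window and `s = 0`: `|Om h y| ≤ ∑_k ‖ω k h‖ ≤ C Λ₀ (∑' k, pk k) kl U h` for `U ≤ y ≤ 16U`.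
-/

set_option autoImplicit false

namespace Pool.Agent.P07318o

open MeasureTheory Complex Pool.Agent.P07318s Pool.Agent.P07318f Pool.Agent.P07318h

namespace FwWinAux

open FourSepAux

lemma ch_cs : HasCompactSupport (ch : ℝ → ℝ) := ch.hasCompactSupport

lemma ch_bd : ∃ M : ℝ, 1 ≤ M ∧ ∀ y : ℝ, |deriv (ch : ℝ → ℝ) y| ≤ M ∧ |deriv (deriv (ch : ℝ → ℝ)) y| ≤ M := by
  obtain ⟨M₁, h1⟩ := ch_contDiff_deriv.continuous.bounded_above_of_compact_support ch_cs.deriv
  obtain ⟨M₂, h2⟩ := ch_cont2.bounded_above_of_compact_support ch_cs.deriv.deriv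
  refine ⟨1 + |M₁| + |M₂|, by linarith [abs_nonneg M₁, abs_nonneg M₂], fun y => ?_⟩
  have a1 := h1 y
  have a2 := h2 y
  rw [Real.norm_eq_abs] at a1 a2
  have b1 := le_abs_self M₁
  have b2 := le_abs_self M₂
  have c1 := abs_nonneg M₁
  have c2 := abs_nonneg M₂
  constructor <;> linarith

lemma d1 (U : ℝ) : deriv (fun y => ch (y / U)) = fun y => deriv (ch : ℝ → ℝ) (y / U) / U := by
  funext y
  have h1 : HasDerivAt (fun y : ℝ => y / U) (1 / U) y := (hasDerivAt_id y).div_const U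
  have h2 := (ch_deriv (y / U)).comp y h1
  have h3 : ((ch : ℝ → ℝ) ∘ fun y : ℝ => y / U) = fun y => ch (y / U) := rfl
  rw [h3] at h2
  rw [h2.deriv]
  ring

lemma d2 (U : ℝ) : deriv (fun y => deriv (ch : ℝ → ℝ) (y / U) / U) = fun y => deriv (deriv (ch : ℝ → ℝ)) (y / U) / U ^ 2 := by
  funext y
  have h1 : HasDerivAt (fun y : ℝ => y / U) (1 / U) y := (hasDerivAt_id y).div_const U
  have h2 := ((ch_deriv2 (y / U)).comp y h1).div_const U
  have h3 : (fun x => (deriv (ch : ℝ → ℝ) ∘ fun y : ℝ => y / U) x / U) = fun y => deriv (ch : ℝ → ℝ) (y / U) / U := rfl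
  rw [h3] at h2
  rw [h2.deriv]
  ring

end FwWinAux

open FwWinAux FourSepAux in
theorem exists_win : ∃ Λ : ℝ, 1 ≤ Λ ∧ ∀ U : ℝ, 1 ≤ U → ∃ c : ℝ → ℝ, CutW U Λ c ∧ ∀ y, U ≤ y → y ≤ 16 * U → c y = 1 := by
  obtain ⟨M, hM, hb⟩ := ch_bd
  refine ⟨M, hM, fun U hU => ⟨fun y => ch (y / U), ?_, ?_⟩⟩
  · have hU0 : 0 < U := by linarith
    constructor
    · exact (ch_smooth 2).comp (contDiff_id.div_const U)
    · intro y
      rw [abs_of_nonneg ch.nonneg]
      exact ch.le_one
    · intro y hy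
      apply ch_zero
      rw [Set.mem_Icc, not_and_or, not_le, not_le] at hy
      rcases hy with hy | hy
      · have h1 : y / U < 1 / 2 := by rw [div_lt_iff₀ hU0]; linarith
        rw [abs_of_neg (by linarith)]
        linarith
      · have h1 : 17 < y / U := by rw [lt_div_iff₀ hU0]; linarith
        rw [abs_of_pos (by linarith)]
        linarith
    · intro y
      rw [d1, abs_div, abs_of_pos hU0]
      exact div_le_div_of_nonneg_right (hb _).1 hU0.le
    · intro y
      rw [d1, d2, abs_div, abs_of_pos (by positivity : (0 : ℝ) < U ^ 2)]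
      exact div_le_div_of_nonneg_right (hb _).2 (by positivity)
  · intro y h1 h2
    have hU0 : 0 < U := by linarith
    apply ch_one
    · rw [le_div_iff₀ hU0]; linarith
    · rw [div_le_iff₀ hU0]; linarith

theorem om_kl : ∃ C : ℝ, 0 < C ∧ ∀ U h y : ℝ, 1 ≤ U → 1 ≤ h → U ≤ y → y ≤ 16 * U → Om h y ≤ C * kl U h := by
  obtain ⟨Λ, hΛ, hw⟩ := exists_win
  obtain ⟨C, hC, hF⟩ := four_g
  have hps : Summable Pool.Agent.P07318h.pk := LongPartAux.pk_summable
  have hpos : 0 < ∑' k, Pool.Agent.P07318h.pk k := hps.tsum_pos (fun k => (Pool.Agent.P07318h.pk_pos k).le) 0 (Pool.Agent.P07318h.pk_pos 0)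
  refine ⟨C * Λ * ∑' k, Pool.Agent.P07318h.pk k, by positivity, fun U h y hU hh h1 h2 => ?_⟩
  have hU0 : 0 < U := by linarith
  obtain ⟨c, hc, hc1⟩ := hw U hU
  obtain ⟨ω, hω, hs⟩ := hF U Λ 0 c hU hΛ le_rfl zero_le_one hc
  have h3 := hs h hh y (by linarith) (by linarith)
  rw [hc1 y h1 h2, zero_mul, Real.exp_zero, one_mul, mul_one] at h3
  have hkl : 0 ≤ kl U h := klw_nonneg (by linarith)
  have h4 : ∀ k, ‖ω k h * Pool.Agent.P07318h.ek U k y‖ ≤ C * Λ * Pool.Agent.P07318h.pk k * kl U h := by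
    intro k
    rw [norm_mul, Pool.Agent.P07318h.norm_ek, mul_one]
    exact hω k h hh
  have h5 : Summable fun k => C * Λ * Pool.Agent.P07318h.pk k * kl U h := (hps.mul_left (C * Λ)).mul_right _
  have h6 := tsum_of_norm_bounded h5.hasSum h4
  rw [h3.tsum_eq, Complex.norm_real, Real.norm_eq_abs, tsum_mul_right, tsum_mul_left] at h6
  exact (le_abs_self _).trans h6

end Pool.Agent.P07318o
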