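import Pool.Agent.Lib.P07318o.GsDefs

/-!
# Module GsAc: the autocorrelation of a Gaussian block

PROOF.  Expand: `bk y * conj (bk (y + τ)) = e^{-(y² + (y+τ)²)/U²} e^{-iητ} ∑_{q, q'} c_q conj(c_{q'}) e^{-i y l + i (y+τ) l'}` (`l = lgr q.1`,
`l' = lgr q'.1`, `ex x p = exp(-i x lgr p)`).  With `v = y + τ/2`: `y² + (y+τ)² = 2 v² + τ²/2`, and the phase is
`v (l' - l) + τ (l + l')/2`.  Integrate over `v` (translation) with `gi`, `b = 2/U²`: `∫ e^{-2v²/U²} e^{iv(l'-l)} dv = √(π U²/2) e^{-U² (l'-l)²/8}`,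
`√(π U²/2) = U √(π/2)`; the finite sum and the integral commute by `gi_able`.
-/

set_option autoImplicit false

namespace Pool.Agent.P07318o

open MeasureTheory Complex Pool.Agent.P07318s Pool.Agent.P07318f Pool.Agent.P07318h

namespace GsAcAux

lemma conj_real_exp (x : ℝ) : (starRingEnd ℂ) (cexp ((x : ℂ) * I)) = cexp (((-x : ℝ) : ℂ) * I) := by
  rw [← Complex.exp_conj]
  congr 1
  rw [map_mul, Complex.conj_ofReal, Complex.conj_I]
  push_cast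
  ring

lemma point {U : ℝ} (hU : 0 < U) (η τ : ℝ) (s : Finset Q) (c : Q → ℂ) (v : ℝ) :
    bk U η s c (v - τ / 2) * (starRingEnd ℂ) (bk U η s c (v - τ / 2 + τ)) =
      cexp (((-(η * τ) : ℝ) : ℂ) * I) * ((Real.exp (-((τ / U) ^ 2 / 2)) : ℝ) : ℂ) *
      ∑ p ∈ s ×ˢ s, (c p.1 * (starRingEnd ℂ) (c p.2)) * cexp (((τ * ((lgr p.1.1 + lgr p.2.1) / 2) : ℝ) : ℂ) * I) *
        (((Real.exp (-((2 / U ^ 2) * v ^ 2)) : ℝ) : ℂ) *
          cexp (((v * (lgr p.2.1 - lgr p.1.1) : ℝ) : ℂ) * I)) := by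
  have hU0 : U ≠ 0 := hU.ne'
  have h1 : Real.exp (-((v - τ / 2) / U) ^ 2) * Real.exp (-((v - τ / 2 + τ) / U) ^ 2) =
      Real.exp (-((τ / U) ^ 2 / 2)) * Real.exp (-((2 / U ^ 2) * v ^ 2)) := by
    rw [← Real.exp_add, ← Real.exp_add]
    congr 1
    field_simp
    ring
  have h1c : ((Real.exp (-((v - τ / 2) / U) ^ 2) : ℝ) : ℂ) * ((Real.exp (-((v - τ / 2 + τ) / U) ^ 2) : ℝ) : ℂ) =
      ((Real.exp (-((τ / U) ^ 2 / 2)) : ℝ) : ℂ) * ((Real.exp (-((2 / U ^ 2) * v ^ 2)) : ℝ) : ℂ) := by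
    rw [← Complex.ofReal_mul, h1, Complex.ofReal_mul]
  have h2 : cexp (((η * (v - τ / 2) : ℝ) : ℂ) * I) * cexp (((-(η * (v - τ / 2 + τ)) : ℝ) : ℂ) * I) =
      cexp (((-(η * τ) : ℝ) : ℂ) * I) := by
    rw [← Complex.exp_add]
    congr 1
    push_cast
    ring
  have h3 : ∀ l l' : ℝ, cexp (((-((v - τ / 2) * l) : ℝ) : ℂ) * I) * cexp (((-(-((v - τ / 2 + τ) * l')) : ℝ) : ℂ) * I) =
      cexp (((τ * ((l + l') / 2) : ℝ) : ℂ) * I) * cexp (((v * (l' - l) : ℝ) : ℂ) * I) := by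
    intro l l'
    rw [← Complex.exp_add, ← Complex.exp_add]
    congr 1
    push_cast
    ring
  unfold bk
  rw [map_mul, map_mul, Complex.conj_ofReal, conj_real_exp, map_sum]
  have h4 : (∑ q ∈ s, c q * ex (v - τ / 2) q.1) *
      (∑ q ∈ s, (starRingEnd ℂ) (c q * ex (v - τ / 2 + τ) q.1)) =
      ∑ p ∈ s ×ˢ s, (c p.1 * (starRingEnd ℂ) (c p.2)) *
        (cexp (((τ * ((lgr p.1.1 + lgr p.2.1) / 2) : ℝ) : ℂ) * I) *
          cexp (((v * (lgr p.2.1 - lgr p.1.1) : ℝ) : ℂ) * I)) := by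
    rw [Finset.sum_mul_sum, Finset.sum_product]
    refine Finset.sum_congr rfl fun q _ => Finset.sum_congr rfl fun q' _ => ?_
    rw [map_mul, ← h3]
    unfold ex
    rw [conj_real_exp]
    ring
  calc _ = (((Real.exp (-((v - τ / 2) / U) ^ 2) : ℝ) : ℂ) * ((Real.exp (-((v - τ / 2 + τ) / U) ^ 2) : ℝ) : ℂ)) *
        (cexp (((η * (v - τ / 2) : ℝ) : ℂ) * I) * cexp (((-(η * (v - τ / 2 + τ)) : ℝ) : ℂ) * I)) *
        ((∑ q ∈ s, c q * ex (v - τ / 2) q.1) *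
      (∑ q ∈ s, (starRingEnd ℂ) (c q * ex (v - τ / 2 + τ) q.1))) := by ring
    _ = _ := by
      rw [h1c, h2, h4, Finset.mul_sum, Finset.mul_sum]
      refine Finset.sum_congr rfl fun p _ => ?_
      ring

end GsAcAux

theorem ac_bk_eq {U : ℝ} (hU : 0 < U) (η τ : ℝ) (s : Finset Q) (c : Q → ℂ) :
    ac (bk U η s c) τ = cexp (((-(η * τ) : ℝ) : ℂ) * I) * ((Real.exp (-((τ / U) ^ 2 / 2)) : ℝ) : ℂ) *
      ∑ p ∈ s ×ˢ s, (((U * Real.sqrt (Real.pi / 2) * Real.exp (-(U * (lgr p.1.1 - lgr p.2.1)) ^ 2 / 8) : ℝ) : ℂ) *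
        (c p.1 * (starRingEnd ℂ) (c p.2))) * cexp (((τ * ((lgr p.1.1 + lgr p.2.1) / 2) : ℝ) : ℂ) * I) := by
  have hU0 : U ≠ 0 := hU.ne'
  have hb : 0 < 2 / U ^ 2 := by positivity
  unfold ac
  rw [← integral_sub_right_eq_self (fun y => bk U η s c y * (starRingEnd ℂ) (bk U η s c (y + τ))) (τ / 2)]
  rw [integral_congr_ae (Filter.Eventually.of_forall fun v => GsAcAux.point hU η τ s c v)]
  rw [integral_const_mul, integral_finsetSum]
  · congr 1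
    refine Finset.sum_congr rfl fun p _ => ?_
    rw [integral_const_mul, gi hb]
    have h5 : Real.sqrt (Real.pi / (2 / U ^ 2)) = U * Real.sqrt (Real.pi / 2) := by
      rw [show Real.pi / (2 / U ^ 2) = U ^ 2 * (Real.pi / 2) by field_simp,
        Real.sqrt_mul (by positivity), Real.sqrt_sq hU.le]
    have h6 : -((lgr p.2.1 - lgr p.1.1) ^ 2 / (4 * (2 / U ^ 2))) = -(U * (lgr p.1.1 - lgr p.2.1)) ^ 2 / 8 := by
      field_simp
      ring
    rw [h5, h6]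
    ring
  · intro p _
    exact (gi_able hb _).const_mul _

end Pool.Agent.P07318o
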