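import Pool.Agent.Lib.P07318o.GsDk
import Pool.Agent.Lib.P07318o.Refine

/-!
# Module GsD4: pairs of factorisations into four factors

PROOF.  Every pair `p ∈ T` has a matrix `e : Fin 4 → Fin 4 → ℕ+` with `p.1 i = ∏ j, e i j`, `p.2 j = ∏ i, e i j` (theorem `refine` of module
Refine, `k = l = 4`).
Choose one: `p ↦ e` is injective (`p` is recovered from `e`), and `∏ i, ∏ j, e i j = ∏ i, p.1 i ≤ N`.  Transport to `Fin (15 + 1) → ℕ+` by
`finProdFinEquiv : Fin 4 × Fin 4 ≃ Fin (4 * 4)` and use `dk_count` with `k = 15`.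
-/

set_option autoImplicit false

namespace Pool.Agent.P07318o

theorem d4_pairs (N : ℕ) (hN : 1 ≤ N) (T : Finset ((Fin 4 → ℕ+) × (Fin 4 → ℕ+)))
    (hT : ∀ p ∈ T, ∏ j, p.1 j = ∏ j, p.2 j ∧ ∏ j, ((p.1 j : ℕ+) : ℕ) ≤ N) :
    (T.card : ℝ) ≤ N * (1 + Real.log N) ^ 15 := by
  classical
  have key : ∀ p ∈ T, ∃ e : Fin 4 → Fin 4 → ℕ+, (∀ i, p.1 i = ∏ j, e i j) ∧
      ∀ j, p.2 j = ∏ i, e i j := fun p hp => refine 4 4 p.1 p.2 (hT p hp).1
  choose! e he using key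
  let φ : Fin (15 + 1) ≃ Fin 4 × Fin 4 := (finProdFinEquiv (m := 4) (n := 4)).symm
  let g : (Fin 4 → ℕ+) × (Fin 4 → ℕ+) → Fin (15 + 1) → ℕ+ := fun p i => e p (φ i).1 (φ i).2
  have hg : Set.InjOn g T := by
    intro p hp q hq hpq
    have h1 : e p = e q := by
      funext i j
      have := congrFun hpq (φ.symm (i, j))
      simpa [g] using this
    refine Prod.ext (funext fun i => ?_) (funext fun j => ?_)
    · rw [(he p hp).1 i, (he q hq).1 i, h1]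
    · rw [(he p hp).2 j, (he q hq).2 j, h1]
  rw [← Finset.card_image_of_injOn hg]
  refine dk_count 15 N hN _ ?_
  intro m hm
  obtain ⟨p, hp, rfl⟩ := Finset.mem_image.1 hm
  refine le_trans (le_of_eq ?_) (hT p hp).2
  have h1 : ∏ i : Fin (15 + 1), ((g p i : ℕ+) : ℕ) =
      ∏ x : Fin 4 × Fin 4, ((e p x.1 x.2 : ℕ+) : ℕ) :=
    Equiv.prod_comp φ (fun x : Fin 4 × Fin 4 => ((e p x.1 x.2 : ℕ+) : ℕ))
  rw [h1, Fintype.prod_prod_type]
  refine Finset.prod_congr rfl fun i _ => ?_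
  rw [(he p hp).1 i]
  push_cast
  rfl

end Pool.Agent.P07318o
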