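import Pool.Agent.Lib.P07318o.Defs
import Pool.Agent.Lib.P07318s.Spaced

/-!
Gaussian blocks: definitions and the Gaussian integral.
-/

set_option autoImplicit false

namespace Pool.Agent.P07318o

open MeasureTheory Complex Pool.Agent.P07318s Pool.Agent.P07318f Pool.Agent.P07318h

/-- the fractions of `s` have heights in `[A, 2A]` -/
def Dy (A : ℝ) (s : Finset Q) : Prop := ∀ q ∈ s, A ≤ hgt q.1 ∧ hgt q.1 ≤ 2 * A

/-- the frequency of a quadruple -/
noncomputable def la4 (q : Fin 4 → Q) : ℝ := lgr (q 0).1 - lgr (q 1).1 - lgr (q 2).1 + lgr (q 3).1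

/-- the frequency in the first difference -/
noncomputable def aa4 (q : Fin 4 → Q) : ℝ := (lgr (q 0).1 + lgr (q 1).1 - lgr (q 2).1 - lgr (q 3).1) / 2

/-- the frequency in the second difference -/
noncomputable def bb4 (q : Fin 4 → Q) : ℝ := (lgr (q 0).1 - lgr (q 1).1 + lgr (q 2).1 - lgr (q 3).1) / 2

/-- quadruples of elements of `s` -/
noncomputable def s4 (s : Finset Q) : Finset (Fin 4 → Q) := Fintype.piFinset fun _ => s

lemma mem_s4 {s : Finset Q} {q : Fin 4 → Q} : q ∈ s4 s ↔ ∀ j, q j ∈ s := by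
  unfold s4
  rw [Fintype.mem_piFinset]

/-- the weighted number of quadruples -/
noncomputable def N2 (U : ℝ) (s : Finset Q) : ℝ := ∑ q ∈ s4 s, Real.exp (-(U * la4 q) ^ 2 / 16)

/-- the weighted number of pairs of quadruples -/
noncomputable def N8 (U : ℝ) (s : Finset Q) : ℝ := ∑ q ∈ s4 s, ∑ q' ∈ s4 s,
  Real.exp (-(U ^ 2 * ((la4 q ^ 2 + la4 q' ^ 2) / 16 + ((aa4 q - aa4 q') ^ 2 + (bb4 q - bb4 q') ^ 2) / 8)))

/-- the Gaussian integral -/
theorem gi {b : ℝ} (hb : 0 < b) (θ : ℝ) : ∫ v : ℝ, ((Real.exp (-(b * v ^ 2)) : ℝ) : ℂ) * cexp (((v * θ : ℝ) : ℂ) * I) =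
    ((Real.sqrt (Real.pi / b) * Real.exp (-(θ ^ 2 / (4 * b))) : ℝ) : ℂ) := by
  have h := fourierIntegral_gaussian (b := (b : ℂ)) (by simpa using hb) (θ : ℂ)
  have h1 : ∀ v : ℝ, ((Real.exp (-(b * v ^ 2)) : ℝ) : ℂ) * cexp (((v * θ : ℝ) : ℂ) * I) =
      cexp (I * θ * v) * cexp (-b * v ^ 2) := by
    intro v
    rw [mul_comm, Complex.ofReal_exp]
    congr 1
    · congr 1
      push_cast
      ring
    · congr 1
      push_cast
      ring
  simp_rw [h1]
  rw [h]
  rw [Complex.ofReal_mul, Complex.ofReal_exp, Real.sqrt_eq_rpow, Complex.ofReal_cpow (by positivity)]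
  congr 1
  · push_cast
    rfl
  · congr 1
    push_cast
    ring

theorem gi_able {b : ℝ} (hb : 0 < b) (θ : ℝ) :
    Integrable fun v : ℝ => ((Real.exp (-(b * v ^ 2)) : ℝ) : ℂ) * cexp (((v * θ : ℝ) : ℂ) * I) := by
  have h1 : Integrable fun v : ℝ => ((Real.exp (-(b * v ^ 2)) : ℝ) : ℂ) := by
    have := (integrable_exp_neg_mul_sq hb).ofReal (𝕜 := ℂ)
    refine this.congr (Filter.Eventually.of_forall fun v => ?_)
    simp only
    congr 2
    ring
  refine h1.mul_bdd (c := 1) ?_ (Filter.Eventually.of_forall fun v => ?_)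
  · exact (Continuous.aestronglyMeasurable (by fun_prop))
  · rw [Complex.norm_exp_ofReal_mul_I]

end Pool.Agent.P07318o
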