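import Mathlib

/-!
# Module GsDk: the number of tuples of positive integers with bounded product

PROOF.  Induction on `k` (for all `N` and `T`).  `k = 0`: one variable, `|T| ≤ N`.  Step: the tuples `x ∈ T` with first coordinate `a` (`a ≤ N`)
have tails with product `≤ N / a` (natural division, `≥ 1`); the tail map is injective on them, so by induction their number is
`≤ (N/a : ℕ) (1 + log (N/a : ℕ)) ^ k ≤ (N/a : ℝ) (1 + log N) ^ k`.  Sum over `a ≤ N`: `∑ 1/a ≤ 1 + log N` (`harmonic_le_one_add_log`).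
-/

set_option autoImplicit false

namespace Pool.Agent.P07318o

theorem dk_count (k N : ℕ) (hN : 1 ≤ N) (T : Finset (Fin (k + 1) → ℕ+)) (hT : ∀ x ∈ T, ∏ j, ((x j : ℕ+) : ℕ) ≤ N) :
    (T.card : ℝ) ≤ N * (1 + Real.log N) ^ k := by
  induction k generalizing N with
  | zero =>
    have h1 : T.card ≤ (Finset.Icc 1 N).card := by
      refine Finset.card_le_card_of_injOn (fun x => ((x 0 : ℕ+) : ℕ)) (fun x hx => ?_) (fun x _ y _ h => ?_)
      · have h2 := hT x hx
        rw [Fin.prod_univ_one] at h2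
        rw [Finset.coe_Icc, Set.mem_Icc]
        exact ⟨(x 0).pos, h2⟩
      · funext j
        have hj : j = 0 := Fin.fin_one_eq_zero j
        rw [hj]
        exact PNat.eq h
    rw [Nat.card_Icc, Nat.add_sub_cancel] at h1
    rw [pow_zero, mul_one]
    exact_mod_cast h1
  | succ k ih =>
    classical
    have hNR : (1 : ℝ) ≤ N := by exact_mod_cast hN
    have hlog : 0 ≤ Real.log N := Real.log_nonneg hNR
    have hmaps : ∀ x ∈ T, ((x 0 : ℕ+) : ℕ) ∈ Finset.Icc 1 N := by
      intro x hx
      rw [Finset.mem_Icc]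
      refine ⟨(x 0).pos, le_trans ?_ (hT x hx)⟩
      exact Nat.le_of_dvd (Finset.prod_pos fun j _ => (x j).pos) (Finset.dvd_prod_of_mem _ (Finset.mem_univ 0))
    rw [Finset.card_eq_sum_card_fiberwise hmaps]
    push_cast
    have hfib : ∀ a ∈ Finset.Icc 1 N, ((T.filter fun x => ((x 0 : ℕ+) : ℕ) = a).card : ℝ) ≤
        (N * (1 + Real.log N) ^ k) * (a : ℝ)⁻¹ := by
      intro a ha
      rw [Finset.mem_Icc] at ha
      have ha0 : 0 < a := by omega
      have haR : (0 : ℝ) < a := by exact_mod_cast ha0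
      have hNa : 1 ≤ N / a := (Nat.one_le_div_iff ha0).2 ha.2
      have hinj : Set.InjOn (fun x : Fin (k + 1 + 1) → ℕ+ => (Fin.tail x : Fin (k + 1) → ℕ+))
          (T.filter fun x => ((x 0 : ℕ+) : ℕ) = a) := by
        intro x hx y hy h
        rw [Finset.mem_coe, Finset.mem_filter] at hx hy
        have h0 : x 0 = y 0 := PNat.eq (hx.2.trans hy.2.symm)
        rw [← Fin.cons_self_tail x, ← Fin.cons_self_tail y, h0]
        congr 1
      have h1 := ih (N / a) hNa ((T.filter fun x => ((x 0 : ℕ+) : ℕ) = a).image Fin.tail) (by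
        intro y hy
        obtain ⟨x, hx, rfl⟩ := Finset.mem_image.1 hy
        rw [Finset.mem_filter] at hx
        rw [Nat.le_div_iff_mul_le ha0]
        have h2 := hT x hx.1
        rw [Fin.prod_univ_succ, hx.2, mul_comm] at h2
        exact h2)
      rw [Finset.card_image_of_injOn hinj] at h1
      refine h1.trans ?_
      have h3 : ((N / a : ℕ) : ℝ) ≤ (N : ℝ) / a := Nat.cast_div_le
      have h4 : (1 : ℝ) ≤ ((N / a : ℕ) : ℝ) := by exact_mod_cast hNa
      have h5 : Real.log ((N / a : ℕ) : ℝ) ≤ Real.log N := by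
        refine Real.log_le_log (by linarith) (h3.trans ?_)
        exact div_le_self (by linarith) (by exact_mod_cast ha.1)
      have h6 : 0 ≤ Real.log ((N / a : ℕ) : ℝ) := Real.log_nonneg h4
      calc ((N / a : ℕ) : ℝ) * (1 + Real.log ((N / a : ℕ) : ℝ)) ^ k ≤ ((N : ℝ) / a) * (1 + Real.log N) ^ k := by
            refine mul_le_mul h3 (pow_le_pow_left₀ (by linarith) (by linarith) k) (by positivity) (by positivity)
        _ = _ := by rw [div_eq_mul_inv]; ring
    refine (Finset.sum_le_sum hfib).trans ?_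
    rw [← Finset.mul_sum]
    have hh : ∑ a ∈ Finset.Icc 1 N, ((a : ℕ) : ℝ)⁻¹ ≤ 1 + Real.log N := by
      have h1 := harmonic_le_one_add_log N
      rw [harmonic_eq_sum_Icc] at h1
      push_cast at h1
      exact h1
    calc N * (1 + Real.log N) ^ k * ∑ a ∈ Finset.Icc 1 N, ((a : ℕ) : ℝ)⁻¹ ≤
          N * (1 + Real.log N) ^ k * (1 + Real.log N) := mul_le_mul_of_nonneg_left hh (by positivity)
      _ = _ := by ring

end Pool.Agent.P07318o
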