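import Pool.Agent.Lib.P07318o.GsN2a
import Pool.Agent.Lib.P07318o.GsD4

/-!
# Module GsN2: the weighted number of quadruples

PROOF.  For `q ∈ s4 s`, `q j = a_j/b_j`, put `X = a0 b1 b2 a3`, `Y = b0 a1 a2 b3`: `la4 q = log X - log Y` and `X Y = ∏ hgt (q j).1 ≤ 16 A⁴`.
*Far part*, `|la4 q| > log 2`: at most `|s|⁴` quadruples, each with weight `≤ exp(-U² (log 2)²/16) ≤ C U^{-12}` (`U ≥ 1`), and
`|s| ≤ C A (1 + log A) ≤ C U²` (`card_le`), so the far part is `≤ C` (use e.g. `exp(-x) ≤ 6!/x⁶` with `x = U² (log 2)²/16`;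
`|s|⁴ ≤ C A⁴ (1 + log A)⁴ ≤ C A⁸ ≤ C U⁸`).
*Near part*, `|la4 q| ≤ log 2`, i.e. `X ≤ 2Y`, `Y ≤ 2X`: then `X² ≤ 2XY ≤ 32 A⁴`, `X, Y ≤ M := ⌊6 A²⌋₊`.  The map
`q ↦ (x, y)`, `x = (a0, b1, b2, a3)`, `y = (b0, a1, a2, b3) : Fin 4 → ℕ+` is injective, `∏ x = X`, `∏ y = Y`.  Let `R = {x : Fin 4 → ℕ+ | ∏ x ≤ M}`
(a finite set: `x j ≤ M`; take `Fintype.piFinset` of `{n | n ≤ M}` and filter), `r n = #{x ∈ R | ∏ x = n}`.  So the near part is
`≤ ∑_{(X, Y)} r X r Y exp(-(U (log X - log Y))²/16)` over the pairs in `n2_pairs` (group by the products, `Finset.sum_fiberwise_of_maps_to`),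
`≤ 24 (1 + M/U) ∑_{n ≤ M} r n ²`, and `∑_n r n² = #{(x, y) ∈ R × R | ∏ x = ∏ y} ≤ M (1 + log M)^{15}` (`d4_pairs`).
With `1 ≤ M ≤ 6A²`, `1 + log M ≤ 3 + 2 log A ≤ 3 (1 + log U)` and `1 + M/U ≤ 6 (1 + A²/U)`: total `≤ C A² (1 + A²/U) (1 + log U)^{15}`; the far part
is absorbed as `A ≥ 1`.
-/

set_option autoImplicit false

namespace Pool.Agent.P07318o

open MeasureTheory Complex Pool.Agent.P07318s Pool.Agent.P07318f Pool.Agent.P07318h

namespace GsN2Aux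

/-- the product -/
def pN (x : Fin 4 → ℕ+) : ℕ := ∏ j, ((x j : ℕ+) : ℕ)

def Xv (q : Fin 4 → Q) : Fin 4 → ℕ+ := ![(q 0).1.1, (q 1).1.2, (q 2).1.2, (q 3).1.1]

def Yv (q : Fin 4 → Q) : Fin 4 → ℕ+ := ![(q 0).1.2, (q 1).1.1, (q 2).1.1, (q 3).1.2]

theorem pN_pos (x : Fin 4 → ℕ+) : 0 < pN x := Finset.prod_pos fun j _ => (x j).pos

theorem pN_X (q : Fin 4 → Q) : pN (Xv q) =
    ((q 0).1.1 : ℕ) * ((q 1).1.2 : ℕ) * ((q 2).1.2 : ℕ) * ((q 3).1.1 : ℕ) := by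
  unfold pN Xv
  rw [Fin.prod_univ_four]
  rfl

theorem pN_Y (q : Fin 4 → Q) : pN (Yv q) =
    ((q 0).1.2 : ℕ) * ((q 1).1.1 : ℕ) * ((q 2).1.1 : ℕ) * ((q 3).1.2 : ℕ) := by
  unfold pN Yv
  rw [Fin.prod_univ_four]
  rfl

theorem la4_eq (q : Fin 4 → Q) : la4 q = Real.log (pN (Xv q)) - Real.log (pN (Yv q)) := by
  have h : ∀ n : ℕ+, ((n : ℕ) : ℝ) ≠ 0 := fun n => by exact_mod_cast n.ne_zero
  rw [pN_X, pN_Y]
  unfold la4 lgr
  push_cast
  rw [Real.log_mul (mul_ne_zero (mul_ne_zero (h _) (h _)) (h _)) (h _),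
    Real.log_mul (mul_ne_zero (h _) (h _)) (h _), Real.log_mul (h _) (h _),
    Real.log_mul (mul_ne_zero (mul_ne_zero (h _) (h _)) (h _)) (h _),
    Real.log_mul (mul_ne_zero (h _) (h _)) (h _), Real.log_mul (h _) (h _)]
  ring

theorem prod_eq (q : Fin 4 → Q) : (pN (Xv q) : ℝ) * pN (Yv q) = ∏ j, hgt (q j).1 := by
  rw [pN_X, pN_Y, Fin.prod_univ_four]
  unfold hgt
  push_cast
  ring

theorem inj {q q' : Fin 4 → Q} (h1 : Xv q = Xv q') (h2 : Yv q = Yv q') : q = q' := by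
  funext j
  apply Subtype.ext
  have a0 := congrFun h1 0
  have a1 := congrFun h1 1
  have a2 := congrFun h1 2
  have a3 := congrFun h1 3
  have b0 := congrFun h2 0
  have b1 := congrFun h2 1
  have b2 := congrFun h2 2
  have b3 := congrFun h2 3
  fin_cases j
  · exact Prod.ext a0 b0
  · exact Prod.ext b1 a1
  · exact Prod.ext b2 a2
  · exact Prod.ext a3 b3

theorem bounds {A : ℝ} (hA : 1 ≤ A) {s : Finset Q} (hs : Dy A s) {q : Fin 4 → Q} (hq : q ∈ s4 s)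
    (hn : |la4 q| ≤ Real.log 2) :
    (pN (Xv q) ≤ 2 * pN (Yv q) ∧ pN (Yv q) ≤ 2 * pN (Xv q)) ∧
      pN (Xv q) ≤ ⌊6 * A ^ 2⌋₊ ∧ pN (Yv q) ≤ ⌊6 * A ^ 2⌋₊ := by
  have hX0 : (0 : ℝ) < pN (Xv q) := by exact_mod_cast pN_pos _
  have hY0 : (0 : ℝ) < pN (Yv q) := by exact_mod_cast pN_pos _
  rw [la4_eq, abs_le] at hn
  have h1 : (pN (Xv q) : ℝ) ≤ 2 * pN (Yv q) := by
    rw [← Real.log_le_log_iff hX0 (by positivity), Real.log_mul (by norm_num) hY0.ne']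
    linarith [hn.2]
  have h2 : (pN (Yv q) : ℝ) ≤ 2 * pN (Xv q) := by
    rw [← Real.log_le_log_iff hY0 (by positivity), Real.log_mul (by norm_num) hX0.ne']
    linarith [hn.1]
  have hprod : (pN (Xv q) : ℝ) * pN (Yv q) ≤ 16 * A ^ 4 := by
    rw [prod_eq]
    calc ∏ j, hgt (q j).1 ≤ ∏ _j : Fin 4, (2 * A) :=
          Finset.prod_le_prod (fun j _ => (hgt_pos _).le) fun j _ => (hs _ (mem_s4.1 hq j)).2
      _ = 16 * A ^ 4 := by
          rw [Finset.prod_const, Finset.card_univ, Fintype.card_fin]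
          ring
  have hA2 : 0 < A ^ 2 := by positivity
  have h3 : (pN (Xv q) : ℝ) ≤ 6 * A ^ 2 := by
    by_contra hcon
    push Not at hcon
    have h4 : (6 * A ^ 2) * (6 * A ^ 2) < (pN (Xv q) : ℝ) * pN (Xv q) :=
      mul_lt_mul'' hcon hcon (by positivity) (by positivity)
    have h5 : (pN (Xv q) : ℝ) * pN (Xv q) ≤ pN (Xv q) * (2 * pN (Yv q)) :=
      mul_le_mul_of_nonneg_left h1 hX0.le
    nlinarith [sq_nonneg (A ^ 2)]
  have h4 : (pN (Yv q) : ℝ) ≤ 6 * A ^ 2 := by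
    by_contra hcon
    push Not at hcon
    have h4 : (6 * A ^ 2) * (6 * A ^ 2) < (pN (Yv q) : ℝ) * pN (Yv q) :=
      mul_lt_mul'' hcon hcon (by positivity) (by positivity)
    have h5 : (pN (Yv q) : ℝ) * pN (Yv q) ≤ pN (Yv q) * (2 * pN (Xv q)) :=
      mul_le_mul_of_nonneg_left h2 hY0.le
    nlinarith [sq_nonneg (A ^ 2)]
  exact ⟨⟨by exact_mod_cast h1, by exact_mod_cast h2⟩, Nat.le_floor h3, Nat.le_floor h4⟩

/-- The near part. -/
theorem near {U A : ℝ} (hU : 1 ≤ U) (hA : 1 ≤ A) {s : Finset Q} (hs : Dy A s) :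
    ∑ q ∈ (s4 s).filter (fun q => |la4 q| ≤ Real.log 2), Real.exp (-(U * la4 q) ^ 2 / 16) ≤
      24 * (1 + (⌊6 * A ^ 2⌋₊ : ℝ) / U) *
        ((⌊6 * A ^ 2⌋₊ : ℝ) * (1 + Real.log ⌊6 * A ^ 2⌋₊) ^ 15) := by
  classical
  obtain ⟨M, hM⟩ : ∃ M : ℕ, M = ⌊6 * A ^ 2⌋₊ := ⟨_, rfl⟩
  have hM1 : 1 ≤ M := by
    rw [hM]
    apply Nat.le_floor
    push_cast
    nlinarith
  set E := (s4 s).filter (fun q => |la4 q| ≤ Real.log 2) with hE
  have hEb : ∀ q ∈ E, (pN (Xv q) ≤ 2 * pN (Yv q) ∧ pN (Yv q) ≤ 2 * pN (Xv q)) ∧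
      pN (Xv q) ≤ M ∧ pN (Yv q) ≤ M := by
    intro q hq
    obtain ⟨h1, h2⟩ := Finset.mem_filter.1 hq
    rw [hM]
    exact bounds hA hs h1 h2
  rw [← hM]
  obtain ⟨R, hR⟩ : ∃ R : Finset (Fin 4 → ℕ+), R = E.image Xv ∪ E.image Yv := ⟨_, rfl⟩
  have hXR : ∀ q ∈ E, Xv q ∈ R := fun q hq => by
    rw [hR]
    exact Finset.mem_union_left _ (Finset.mem_image_of_mem _ hq)
  have hYR : ∀ q ∈ E, Yv q ∈ R := fun q hq => by
    rw [hR]
    exact Finset.mem_union_right _ (Finset.mem_image_of_mem _ hq)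
  have hRM : ∀ x ∈ R, pN x ≤ M := by
    intro x hx
    rw [hR, Finset.mem_union, Finset.mem_image, Finset.mem_image] at hx
    rcases hx with ⟨q, hq, rfl⟩ | ⟨q, hq, rfl⟩
    · exact (hEb q hq).2.1
    · exact (hEb q hq).2.2
  let r : ℕ → ℝ := fun n => ((R.filter fun x => pN x = n).card : ℝ)
  let w : ℕ × ℕ → ℝ := fun p => Real.exp (-(U * (Real.log p.1 - Real.log p.2)) ^ 2 / 16)
  let P := (Finset.Icc 1 M ×ˢ Finset.Icc 1 M).filter
    (fun p : ℕ × ℕ => p.1 ≤ 2 * p.2 ∧ p.2 ≤ 2 * p.1)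
  have hmaps : ∀ q ∈ E, (pN (Xv q), pN (Yv q)) ∈ P := by
    intro q hq
    obtain ⟨h1, h2, h3⟩ := hEb q hq
    refine Finset.mem_filter.2 ⟨Finset.mem_product.2 ⟨Finset.mem_Icc.2 ⟨pN_pos _, h2⟩,
      Finset.mem_Icc.2 ⟨pN_pos _, h3⟩⟩, h1⟩
  have hstep1 : ∑ q ∈ E, Real.exp (-(U * la4 q) ^ 2 / 16) ≤ ∑ p ∈ P, r p.1 * r p.2 * w p := by
    rw [← Finset.sum_fiberwise_of_maps_to hmaps]
    refine Finset.sum_le_sum fun p _ => ?_
    have h1 : ∀ q ∈ E.filter (fun q => (pN (Xv q), pN (Yv q)) = p),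
        Real.exp (-(U * la4 q) ^ 2 / 16) = w p := by
      intro q hq
      have h2 := (Finset.mem_filter.1 hq).2
      rw [← h2, la4_eq]
    rw [Finset.sum_congr rfl h1, Finset.sum_const, nsmul_eq_mul]
    refine mul_le_mul_of_nonneg_right ?_ (Real.exp_pos _).le
    have h2 : (E.filter (fun q => (pN (Xv q), pN (Yv q)) = p)).card ≤
        ((R.filter fun x => pN x = p.1) ×ˢ (R.filter fun x => pN x = p.2)).card := by
      refine Finset.card_le_card_of_injOn (fun q => (Xv q, Yv q)) ?_ ?_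
      · intro q hq
        obtain ⟨hqE, hqp⟩ := Finset.mem_filter.1 (Finset.mem_coe.1 hq)
        rw [Finset.mem_coe, Finset.mem_product, Finset.mem_filter, Finset.mem_filter]
        exact ⟨⟨hXR q hqE, congrArg Prod.fst hqp⟩, ⟨hYR q hqE, congrArg Prod.snd hqp⟩⟩
      · intro q _ q' _ h
        simp only [Prod.mk.injEq] at h
        exact inj h.1 h.2
    rw [Finset.card_product] at h2
    simp only [r]
    exact_mod_cast h2
  have hstep2 := n2_pairs hU M r (fun n => Nat.cast_nonneg _)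
  have hstep3 : ∑ n ∈ Finset.Icc 1 M, r n ^ 2 ≤ M * (1 + Real.log M) ^ 15 := by
    let T := (R ×ˢ R).filter fun p => ∏ j, p.1 j = ∏ j, p.2 j
    have hT : ∀ p ∈ T, ∏ j, p.1 j = ∏ j, p.2 j ∧ ∏ j, ((p.1 j : ℕ+) : ℕ) ≤ M := by
      intro p hp
      obtain ⟨h1, h2⟩ := Finset.mem_filter.1 hp
      exact ⟨h2, hRM _ (Finset.mem_product.1 h1).1⟩
    have hcoe : ∀ x : Fin 4 → ℕ+, ((∏ j, x j : ℕ+) : ℕ) = pN x := by
      intro x
      unfold pN
      exact map_prod PNat.coeMonoidHom x Finset.univ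
    have h1 : (T.card : ℝ) = ∑ n ∈ Finset.Icc 1 M, r n ^ 2 := by
      have h2 : T.card = ∑ n ∈ Finset.Icc 1 M, (T.filter fun p => pN p.1 = n).card := by
        refine Finset.card_eq_sum_card_fiberwise fun p hp => ?_
        have hp' := Finset.mem_coe.1 hp
        exact Finset.mem_coe.2 (Finset.mem_Icc.2 ⟨pN_pos _, (hT p hp').2⟩)
      rw [h2, Nat.cast_sum]
      refine Finset.sum_congr rfl fun n _ => ?_
      have h3 : T.filter (fun p => pN p.1 = n) =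
          (R.filter fun x => pN x = n) ×ˢ (R.filter fun x => pN x = n) := by
        ext p
        rw [Finset.mem_filter, Finset.mem_filter, Finset.mem_product, Finset.mem_product,
          Finset.mem_filter, Finset.mem_filter]
        constructor
        · rintro ⟨⟨⟨h4, h5⟩, h6⟩, h7⟩
          refine ⟨⟨h4, h7⟩, h5, ?_⟩
          rw [← hcoe, ← h6, hcoe]
          exact h7
        · rintro ⟨⟨h4, h5⟩, h6, h7⟩
          refine ⟨⟨⟨h4, h6⟩, ?_⟩, h5⟩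
          apply PNat.eq
          rw [hcoe, hcoe, h5, h7]
      rw [h3, Finset.card_product]
      push_cast
      ring
    rw [← h1]
    exact d4_pairs M hM1 T hT
  calc ∑ q ∈ E, Real.exp (-(U * la4 q) ^ 2 / 16) ≤ ∑ p ∈ P, r p.1 * r p.2 * w p := hstep1
    _ ≤ 24 * (1 + M / U) * ∑ n ∈ Finset.Icc 1 M, r n ^ 2 := hstep2
    _ ≤ _ := mul_le_mul_of_nonneg_left hstep3 (by positivity)

/-- The far part. -/
theorem far : ∃ C : ℝ, 0 < C ∧ ∀ (U A : ℝ) (s : Finset Q), 1 ≤ U → 1 ≤ A → A ≤ U → Dy A s →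
    ∑ q ∈ (s4 s).filter (fun q => ¬ |la4 q| ≤ Real.log 2), Real.exp (-(U * la4 q) ^ 2 / 16) ≤
      C := by
  classical
  obtain ⟨C, hC, hcard⟩ := card_le
  have hl2 := Real.log_pos (by norm_num : (1 : ℝ) < 2)
  refine ⟨C ^ 4 * (24 * (16 / Real.log 2 ^ 2) ^ 4), by positivity, ?_⟩
  intro U A s hU hA hAU hs
  have hU0 : 0 < U := by linarith
  obtain ⟨x, hx⟩ : ∃ x : ℝ, x = U ^ 2 * Real.log 2 ^ 2 / 16 := ⟨_, rfl⟩
  have hx0 : 0 < x := by rw [hx]; positivity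
  have h1 : ∀ q ∈ (s4 s).filter (fun q => ¬ |la4 q| ≤ Real.log 2),
      Real.exp (-(U * la4 q) ^ 2 / 16) ≤ 24 / x ^ 4 := by
    intro q hq
    have h2 := (Finset.mem_filter.1 hq).2
    have h3 : Real.log 2 ^ 2 ≤ la4 q ^ 2 := by
      rw [← sq_abs (la4 q)]
      exact pow_le_pow_left₀ hl2.le (not_le.1 h2).le 2
    have h4 : Real.exp (-(U * la4 q) ^ 2 / 16) ≤ Real.exp (-x) := by
      apply Real.exp_le_exp.2
      rw [hx, mul_pow]
      have : U ^ 2 * Real.log 2 ^ 2 ≤ U ^ 2 * la4 q ^ 2 :=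
        mul_le_mul_of_nonneg_left h3 (by positivity)
      linarith
    refine h4.trans ?_
    have h5 := Real.pow_div_factorial_le_exp x hx0.le 4
    have h6 : ((Nat.factorial 4 : ℕ) : ℝ) = 24 := by norm_num [Nat.factorial]
    rw [h6] at h5
    rw [Real.exp_neg, ← one_div, div_le_div_iff₀ (Real.exp_pos _) (by positivity)]
    rw [div_le_iff₀ (by norm_num)] at h5
    linarith
  have h2 : (((s4 s).filter (fun q => ¬ |la4 q| ≤ Real.log 2)).card : ℝ) ≤ (s.card : ℝ) ^ 4 := by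
    have h3 : ((s4 s).filter (fun q => ¬ |la4 q| ≤ Real.log 2)).card ≤ s.card ^ 4 := by
      refine (Finset.card_filter_le _ _).trans (le_of_eq ?_)
      unfold s4
      rw [Fintype.card_piFinset_const]
    exact_mod_cast h3
  have h3 : (s.card : ℝ) ≤ C * U ^ 2 := by
    refine (hcard A s hA hs).trans ?_
    have h4 : 1 + Real.log A ≤ A := by
      have := Real.log_le_sub_one_of_pos (by linarith : (0 : ℝ) < A)
      linarith
    have h5 : A * (1 + Real.log A) ≤ U * U :=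
      mul_le_mul hAU (h4.trans hAU) (by have := Real.log_nonneg hA; linarith) hU0.le
    calc C * A * (1 + Real.log A) = C * (A * (1 + Real.log A)) := by ring
      _ ≤ C * (U * U) := mul_le_mul_of_nonneg_left h5 hC.le
      _ = _ := by ring
  calc ∑ q ∈ (s4 s).filter (fun q => ¬ |la4 q| ≤ Real.log 2), Real.exp (-(U * la4 q) ^ 2 / 16)
      ≤ ∑ q ∈ (s4 s).filter (fun q => ¬ |la4 q| ≤ Real.log 2), 24 / x ^ 4 :=
        Finset.sum_le_sum h1
    _ = (((s4 s).filter (fun q => ¬ |la4 q| ≤ Real.log 2)).card : ℝ) * (24 / x ^ 4) := by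
        rw [Finset.sum_const, nsmul_eq_mul]
    _ ≤ (C * U ^ 2) ^ 4 * (24 / x ^ 4) :=
        mul_le_mul_of_nonneg_right (h2.trans (pow_le_pow_left₀ (Nat.cast_nonneg _) h3 4))
          (by positivity)
    _ = C ^ 4 * (24 * (16 / Real.log 2 ^ 2) ^ 4) := by
        rw [hx]
        have := hl2.ne'
        field_simp

end GsN2Aux

open GsN2Aux in
theorem n2_le : ∃ C : ℝ, 0 < C ∧ ∀ (U A : ℝ) (s : Finset Q), 1 ≤ U → 1 ≤ A → A ≤ U → Dy A s →
    N2 U s ≤ C * A ^ 2 * (1 + A ^ 2 / U) * (1 + Real.log U) ^ 15 := by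
  classical
  obtain ⟨C, hC, hfar⟩ := far
  refine ⟨C + 24 * 6 * 6 * 3 ^ 15, by positivity, ?_⟩
  intro U A s hU hA hAU hs
  have hU0 : 0 < U := by linarith
  have hA0 : 0 < A := by linarith
  have hlogA := Real.log_nonneg hA
  have hlogU := Real.log_nonneg hU
  have h1 := near hU hA hs
  have h2 := hfar U A s hU hA hAU hs
  have hsum := Finset.sum_filter_add_sum_filter_not (s4 s) (fun q => |la4 q| ≤ Real.log 2)
    (fun q => Real.exp (-(U * la4 q) ^ 2 / 16))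
  obtain ⟨M, hM⟩ : ∃ M : ℕ, M = ⌊6 * A ^ 2⌋₊ := ⟨_, rfl⟩
  rw [← hM] at h1
  have hMr : (M : ℝ) ≤ 6 * A ^ 2 := by
    rw [hM]
    exact Nat.floor_le (by positivity)
  have hM1 : 1 ≤ M := by
    rw [hM]
    apply Nat.le_floor
    push_cast
    nlinarith
  have hM1r : (1 : ℝ) ≤ M := by exact_mod_cast hM1
  have hlogM0 := Real.log_nonneg hM1r
  have h3 : 1 + (M : ℝ) / U ≤ 6 * (1 + A ^ 2 / U) := by
    have h4 : (M : ℝ) / U ≤ 6 * A ^ 2 / U := div_le_div_of_nonneg_right hMr hU0.le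
    have h5 : 6 * A ^ 2 / U = 6 * (A ^ 2 / U) := by ring
    rw [h5] at h4
    linarith
  have h4 : 1 + Real.log M ≤ 3 * (1 + Real.log U) := by
    have h5 := Real.log_le_log (by linarith) hMr
    rw [Real.log_mul (by norm_num) (by positivity), Real.log_pow] at h5
    have h6 : Real.log 6 ≤ 2 := by
      rw [Real.log_le_iff_le_exp (by norm_num)]
      have h7 := Real.exp_one_gt_d9
      have h8 : Real.exp 2 = Real.exp 1 * Real.exp 1 := by
        rw [← Real.exp_add]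
        norm_num
      rw [h8]
      nlinarith
    have h7 := Real.log_le_log hA0 hAU
    push_cast at h5
    linarith
  have h5 : 24 * (1 + (M : ℝ) / U) * ((M : ℝ) * (1 + Real.log M) ^ 15) ≤
      24 * (6 * (1 + A ^ 2 / U)) * ((6 * A ^ 2) * (3 * (1 + Real.log U)) ^ 15) := by
    have h6 : (1 + Real.log M) ^ 15 ≤ (3 * (1 + Real.log U)) ^ 15 :=
      pow_le_pow_left₀ (by linarith) h4 15
    exact mul_le_mul (mul_le_mul_of_nonneg_left h3 (by norm_num))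
      (mul_le_mul hMr h6 (by positivity) (by positivity)) (by positivity) (by positivity)
  have h6 : 1 ≤ A ^ 2 * (1 + A ^ 2 / U) * (1 + Real.log U) ^ 15 := by
    have g1 : 1 ≤ A ^ 2 := one_le_pow₀ hA
    have g2 : 1 ≤ 1 + A ^ 2 / U := by
      have : 0 ≤ A ^ 2 / U := by positivity
      linarith
    have g3 : 1 ≤ (1 + Real.log U) ^ 15 := one_le_pow₀ (by linarith)
    have g4 := one_le_mul_of_one_le_of_one_le g1 g2
    exact one_le_mul_of_one_le_of_one_le g4 g3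
  unfold N2
  rw [← hsum]
  calc _ ≤ 24 * (6 * (1 + A ^ 2 / U)) * ((6 * A ^ 2) * (3 * (1 + Real.log U)) ^ 15) + C :=
        add_le_add (h1.trans h5) h2
    _ ≤ 24 * (6 * (1 + A ^ 2 / U)) * ((6 * A ^ 2) * (3 * (1 + Real.log U)) ^ 15) +
        C * (A ^ 2 * (1 + A ^ 2 / U) * (1 + Real.log U) ^ 15) := by
        have := mul_le_mul_of_nonneg_left h6 hC.le
        linarith
    _ = _ := by ring

end Pool.Agent.P07318o
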