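import Pool.Agent.Lib.P07318o.GsRow

/-!
# Module GsN2a: a weighted sum over pairs of integers with bounded ratio

Here `r : ℕ → ℝ` is any nonnegative function (later the number of factorisations into four factors).
PROOF.  For `n, n' ∈ [1, M]`, `n ≤ 2 n'`, `n' ≤ 2 n`: `r n * r n' ≤ (r n ^ 2 + r n' ^ 2)/2`, and the set of pairs and the weight
`g n n' = exp(-(U (log n - log n'))²/16)` are symmetric, so the sum is `≤ ∑_n r n ^ 2 ∑_{n'} g n n'`.  For fixed `n` and `n' ≤ 2n`, `n ≤ 2 n'`: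
`|log n - log n'| ≥ |n - n'|/(2n)` (if `n' ≥ n`: `log(n'/n) ≥ 1 - n/n' = (n'-n)/n' ≥ (n'-n)/(2n)`; if `n' < n`: `log(n/n') ≥ (n-n')/n`; from
`Real.add_one_le_exp`/`Real.one_sub_inv_le_log_of_pos`), so `∑_{n'} g n n' ≤ ∑_{j ∈ ℤ} exp(-(U j/(8n))²) ≤ 1 + 24 n/U ≤ 24 (1 + M/U)` by
`gs_int` (the injection `n' ↦ n' - n` into `ℤ`).
-/

set_option autoImplicit false

namespace Pool.Agent.P07318o

open MeasureTheory Complex Pool.Agent.P07318s Pool.Agent.P07318f Pool.Agent.P07318h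

namespace GsN2aAux

/-- the weight -/
noncomputable def g (U : ℝ) (n n' : ℕ) : ℝ :=
  Real.exp (-(U * (Real.log n - Real.log n')) ^ 2 / 16)

theorem g_pos (U : ℝ) (n n' : ℕ) : 0 ≤ g U n n' := (Real.exp_pos _).le

theorem g_symm (U : ℝ) (n n' : ℕ) : g U n n' = g U n' n := by
  unfold g
  congr 1
  ring

theorem log_lb {n n' : ℕ} (hn : 1 ≤ n) (hn' : 1 ≤ n') (h : n' ≤ 2 * n) :
    |(n' : ℝ) - n| / (2 * n) ≤ |Real.log n - Real.log n'| := by
  have hnp : (0 : ℝ) < n := by exact_mod_cast hn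
  have hnp' : (0 : ℝ) < n' := by exact_mod_cast hn'
  have h2 : (n' : ℝ) ≤ 2 * n := by exact_mod_cast h
  rcases le_total n n' with hle | hle
  · have hle' : (n : ℝ) ≤ n' := by exact_mod_cast hle
    have h3 := Real.one_sub_inv_le_log_of_pos (x := (n' : ℝ) / n) (by positivity)
    rw [Real.log_div hnp'.ne' hnp.ne', inv_div] at h3
    rw [abs_of_nonneg (by linarith), abs_of_nonpos (by
      have := Real.log_le_log hnp hle'
      linarith)]
    have h4 : ((n' : ℝ) - n) / (2 * n) ≤ 1 - (n : ℝ) / n' := by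
      have h5 : 1 - (n : ℝ) / n' = ((n' : ℝ) - n) / n' := by field_simp
      rw [h5]
      exact div_le_div_of_nonneg_left (by linarith) hnp' h2
    linarith
  · have hle' : (n' : ℝ) ≤ n := by exact_mod_cast hle
    have h3 := Real.one_sub_inv_le_log_of_pos (x := (n : ℝ) / n') (by positivity)
    rw [Real.log_div hnp.ne' hnp'.ne', inv_div] at h3
    rw [abs_of_nonpos (by linarith), abs_of_nonneg (by
      have := Real.log_le_log hnp' hle'
      linarith)]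
    have h4 : -((n' : ℝ) - n) / (2 * n) ≤ 1 - (n' : ℝ) / n := by
      have h5 : 1 - (n' : ℝ) / n = ((n : ℝ) - n') / n := by field_simp
      rw [h5, neg_sub]
      exact div_le_div_of_nonneg_left (by linarith) hnp (by linarith)
    linarith

theorem inner {U : ℝ} (hU : 1 ≤ U) {M n : ℕ} (hn : 1 ≤ n) (hM : n ≤ M) :
    ∑ n' ∈ (Finset.Icc 1 M).filter (fun n' => n ≤ 2 * n' ∧ n' ≤ 2 * n), g U n n' ≤
      24 * (1 + M / U) := by
  have hnp : (0 : ℝ) < n := by exact_mod_cast hn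
  have hUp : 0 < U := by linarith
  have hc : 0 < U / (8 * n) := by positivity
  have h1 := gs_int hc (((Finset.Icc 1 M).filter (fun n' => n ≤ 2 * n' ∧ n' ≤ 2 * n)).image
    (fun n' : ℕ => (n' : ℤ) - n))
  rw [Finset.sum_image (by
    intro a _ b _ hab
    have : (a : ℤ) - n = (b : ℤ) - n := hab
    omega)] at h1
  have h2 : ∑ n' ∈ (Finset.Icc 1 M).filter (fun n' => n ≤ 2 * n' ∧ n' ≤ 2 * n), g U n n' ≤
      ∑ n' ∈ (Finset.Icc 1 M).filter (fun n' => n ≤ 2 * n' ∧ n' ≤ 2 * n),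
        Real.exp (-(U / (8 * n) * (((n' : ℤ) - n : ℤ) : ℝ)) ^ 2) := by
    apply Finset.sum_le_sum
    intro n' hn'
    rw [Finset.mem_filter, Finset.mem_Icc] at hn'
    unfold g
    apply Real.exp_le_exp.2
    have h3 := log_lb hn hn'.1.1 hn'.2.2
    have h4 : (|(n' : ℝ) - n| / (2 * n)) ^ 2 ≤ (Real.log n - Real.log n') ^ 2 := by
      rw [← sq_abs (Real.log n - Real.log n')]
      exact pow_le_pow_left₀ (by positivity) h3 2
    rw [div_pow, sq_abs] at h4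
    have h5 : (U / (8 * n) * (((n' : ℤ) - n : ℤ) : ℝ)) ^ 2 =
        U ^ 2 / 16 * (((n' : ℝ) - n) ^ 2 / (2 * n) ^ 2) := by
      push_cast
      field_simp
      ring
    have h6 : (U * (Real.log n - Real.log n')) ^ 2 / 16 =
        U ^ 2 / 16 * (Real.log n - Real.log n') ^ 2 := by ring
    have h7 : U ^ 2 / 16 * (((n' : ℝ) - n) ^ 2 / (2 * n) ^ 2) ≤
        U ^ 2 / 16 * (Real.log n - Real.log n') ^ 2 :=
      mul_le_mul_of_nonneg_left h4 (by positivity)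
    rw [h5, neg_div, h6]
    linarith
  refine h2.trans (h1.trans ?_)
  have h8 : 3 / (U / (8 * n)) = 24 * (n / U) := by
    field_simp
    ring
  rw [h8]
  have h9 : (n : ℝ) / U ≤ M / U := by
    have : (n : ℝ) ≤ M := by exact_mod_cast hM
    exact div_le_div_of_nonneg_right this hUp.le
  linarith

end GsN2aAux

open GsN2aAux in
theorem n2_pairs {U : ℝ} (hU : 1 ≤ U) (M : ℕ) (r : ℕ → ℝ) (hr : ∀ n, 0 ≤ r n) :
    ∑ p ∈ (Finset.Icc 1 M ×ˢ Finset.Icc 1 M).filter (fun p => p.1 ≤ 2 * p.2 ∧ p.2 ≤ 2 * p.1),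
        r p.1 * r p.2 * Real.exp (-(U * (Real.log p.1 - Real.log p.2)) ^ 2 / 16) ≤
      24 * (1 + M / U) * ∑ n ∈ Finset.Icc 1 M, r n ^ 2 := by
  have hle : ∑ p ∈ (Finset.Icc 1 M ×ˢ Finset.Icc 1 M).filter (fun p => p.1 ≤ 2 * p.2 ∧ p.2 ≤ 2 * p.1),
        r p.1 * r p.2 * Real.exp (-(U * (Real.log p.1 - Real.log p.2)) ^ 2 / 16) ≤
      ∑ p ∈ (Finset.Icc 1 M ×ˢ Finset.Icc 1 M).filter (fun p => p.1 ≤ 2 * p.2 ∧ p.2 ≤ 2 * p.1),
        (r p.1 ^ 2 / 2 * g U p.1 p.2 + r p.2 ^ 2 / 2 * g U p.2 p.1) := by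
    apply Finset.sum_le_sum
    intro p _
    have h1 : r p.1 * r p.2 ≤ r p.1 ^ 2 / 2 + r p.2 ^ 2 / 2 := by
      nlinarith [sq_nonneg (r p.1 - r p.2)]
    rw [g_symm U p.2 p.1, ← add_mul]
    exact mul_le_mul_of_nonneg_right h1 (g_pos U p.1 p.2)
  refine hle.trans ?_
  rw [Finset.sum_add_distrib]
  have hA : ∑ p ∈ (Finset.Icc 1 M ×ˢ Finset.Icc 1 M).filter
        (fun p => p.1 ≤ 2 * p.2 ∧ p.2 ≤ 2 * p.1), r p.1 ^ 2 / 2 * g U p.1 p.2 ≤
      ∑ n ∈ Finset.Icc 1 M, r n ^ 2 / 2 * (24 * (1 + M / U)) := by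
    rw [Finset.sum_filter, Finset.sum_product]
    apply Finset.sum_le_sum
    intro n hn
    rw [Finset.mem_Icc] at hn
    have h1 := inner hU hn.1 hn.2
    rw [Finset.sum_filter] at h1
    have h2 : ∑ y ∈ Finset.Icc 1 M, (if n ≤ 2 * y ∧ y ≤ 2 * n then r n ^ 2 / 2 * g U n y else 0) =
        r n ^ 2 / 2 * ∑ y ∈ Finset.Icc 1 M, (if n ≤ 2 * y ∧ y ≤ 2 * n then g U n y else 0) := by
      rw [Finset.mul_sum]
      apply Finset.sum_congr rfl
      intro y _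
      split_ifs <;> simp
    have h3 := mul_le_mul_of_nonneg_left h1 (show 0 ≤ r n ^ 2 / 2 by positivity)
    rw [← h2] at h3
    exact h3
  have hB : ∑ p ∈ (Finset.Icc 1 M ×ˢ Finset.Icc 1 M).filter
        (fun p => p.1 ≤ 2 * p.2 ∧ p.2 ≤ 2 * p.1), r p.2 ^ 2 / 2 * g U p.2 p.1 ≤
      ∑ n ∈ Finset.Icc 1 M, r n ^ 2 / 2 * (24 * (1 + M / U)) := by
    rw [Finset.sum_filter, Finset.sum_product_right]
    apply Finset.sum_le_sum
    intro n hn
    rw [Finset.mem_Icc] at hn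
    have h1 := inner hU hn.1 hn.2
    rw [Finset.sum_filter] at h1
    have h2 : ∑ x ∈ Finset.Icc 1 M, (if x ≤ 2 * n ∧ n ≤ 2 * x then r n ^ 2 / 2 * g U n x else 0) =
        r n ^ 2 / 2 * ∑ y ∈ Finset.Icc 1 M, (if n ≤ 2 * y ∧ y ≤ 2 * n then g U n y else 0) := by
      rw [Finset.mul_sum]
      apply Finset.sum_congr rfl
      intro y _
      by_cases hy : n ≤ 2 * y ∧ y ≤ 2 * n
      · rw [if_pos hy, if_pos ⟨hy.2, hy.1⟩]
      · rw [if_neg hy, if_neg (fun h => hy ⟨h.2, h.1⟩), mul_zero]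
    have h3 := mul_le_mul_of_nonneg_left h1 (show 0 ≤ r n ^ 2 / 2 by positivity)
    rw [← h2] at h3
    exact h3
  have hC : ∑ n ∈ Finset.Icc 1 M, r n ^ 2 / 2 * (24 * (1 + M / U)) =
      24 * (1 + M / U) * (∑ n ∈ Finset.Icc 1 M, r n ^ 2) / 2 := by
    rw [← Finset.sum_mul, ← Finset.sum_div]
    ring
  linarith

end Pool.Agent.P07318o
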