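import Pool.Agent.Lib.P07318o.GsRow

/-!
# Module GsN8: pairs of quadruples from quadruples

PROOF.  Fix `q = (q0, q1, q2, q3)` and `q3'`; `λ = la4 q`, `a = aa4 q`, `b = bb4 q`, with primes for `q'`, `l_j' = lgr (q' j).1`.  Identities:
`l0' - l3' - a - b = (a' - a) + (b' - b)`, `l1' - l3' - a = (a' - a) - λ'/2`, `l2' - l3' - b = (b' - b) - λ'/2`.  With `x = a' - a`, `y = b' - b`,
`z = λ'/2` the sum of the three squares is `(x+y)² + (x-z)² + (y-z)² ≤ 4x² + 4y² + 4z²`, so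
`(λ² + λ'²)/16 + ((a-a')² + (b-b')²)/8 ≥ λ²/16 + (1/32) ((l0' - (l3'+a+b))² + (l1' - (l3'+a))² + (l2' - (l3'+b))²)`.
The sum over `q0', q1', q2' ∈ s` of the product of the three Gaussians is `≤ (C (1 + A/U))³` (`row_bd` with `c = 1/32`), the sum over `q3' ∈ s`
gives `|s|`, and the sum over `q` of `exp(-(Uλ)²/16)` is `N2 U s`.
-/

set_option autoImplicit false

namespace Pool.Agent.P07318o

open MeasureTheory Complex Pool.Agent.P07318s Pool.Agent.P07318f Pool.Agent.P07318h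

namespace N8Aux

open scoped Classical

/-- the factors: coordinate `j` of `q'` when its last coordinate is `t` -/
noncomputable def G (U a b : ℝ) (t : Q) (j : Fin 4) (x : Q) : ℝ :=
  if j = 0 then Real.exp (-((1 / 32) * (U * (lgr x.1 - (lgr t.1 + a + b))) ^ 2))
  else if j = 1 then Real.exp (-((1 / 32) * (U * (lgr x.1 - (lgr t.1 + a))) ^ 2))
  else if j = 2 then Real.exp (-((1 / 32) * (U * (lgr x.1 - (lgr t.1 + b))) ^ 2))
  else if x = t then 1 else 0

theorem G_nonneg (U a b : ℝ) (t : Q) (j : Fin 4) (x : Q) : 0 ≤ G U a b t j x := by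
  unfold G
  split_ifs <;> first | exact (Real.exp_pos _).le | norm_num

theorem prod_eq (U a b : ℝ) (t : Q) (q' : Fin 4 → Q) : ∏ j, G U a b t j (q' j) =
    if q' 3 = t then Real.exp (-((1 / 32) * (U * (lgr (q' 0).1 - (lgr t.1 + a + b))) ^ 2)) *
      Real.exp (-((1 / 32) * (U * (lgr (q' 1).1 - (lgr t.1 + a))) ^ 2)) *
      Real.exp (-((1 / 32) * (U * (lgr (q' 2).1 - (lgr t.1 + b))) ^ 2)) else 0 := by
  rw [Fin.prod_univ_four]
  unfold G
  have h10 : (1 : Fin 4) ≠ 0 := by decide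
  have h20 : (2 : Fin 4) ≠ 0 := by decide
  have h21 : (2 : Fin 4) ≠ 1 := by decide
  have h30 : (3 : Fin 4) ≠ 0 := by decide
  have h31 : (3 : Fin 4) ≠ 1 := by decide
  have h32 : (3 : Fin 4) ≠ 2 := by decide
  rw [if_pos rfl, if_neg h10, if_pos rfl, if_neg h20, if_neg h21, if_pos rfl, if_neg h30, if_neg h31, if_neg h32]
  split_ifs
  · rw [mul_one]
  · rw [mul_zero]

/-- the pointwise bound -/
theorem pt_le (U a b : ℝ) (s : Finset Q) (q' : Fin 4 → Q) (hq : q' ∈ s4 s) :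
    Real.exp (-(U ^ 2 * (la4 q' ^ 2 / 16 + ((a - aa4 q') ^ 2 + (b - bb4 q') ^ 2) / 8))) ≤
      ∑ t ∈ s, ∏ j, G U a b t j (q' j) := by
  simp_rw [prod_eq]
  rw [Finset.sum_ite_eq, if_pos (mem_s4.1 hq 3), ← Real.exp_add, ← Real.exp_add]
  apply Real.exp_le_exp.2
  have e0 : lgr (q' 0).1 - (lgr (q' 3).1 + a + b) = (aa4 q' - a) + (bb4 q' - b) := by
    unfold aa4 bb4; ring
  have e1 : lgr (q' 1).1 - (lgr (q' 3).1 + a) = (aa4 q' - a) - la4 q' / 2 := by
    unfold aa4 la4; ring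
  have e2 : lgr (q' 2).1 - (lgr (q' 3).1 + b) = (bb4 q' - b) - la4 q' / 2 := by
    unfold bb4 la4; ring
  rw [e0, e1, e2]
  generalize aa4 q' = x
  generalize bb4 q' = y
  generalize la4 q' = z
  nlinarith [sq_nonneg (U * ((x - a) - (y - b))), sq_nonneg (U * ((x - a) + z / 2)),
    sq_nonneg (U * ((y - b) + z / 2)), sq_nonneg (U * z)]

/-- the sum over `q'` -/
theorem inner_le {C : ℝ} (hC : 0 < C) (h : ∀ (U A μ : ℝ) (s : Finset Q), 1 ≤ U → 1 ≤ A → Dy A s →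
    ∑ q ∈ s, Real.exp (-((1 / 32) * (U * (lgr q.1 - μ)) ^ 2)) ≤ C * (1 + A / U)) (U A a b : ℝ) (s : Finset Q)
    (hU : 1 ≤ U) (hA : 1 ≤ A) (hs : Dy A s) :
    ∑ q' ∈ s4 s, Real.exp (-(U ^ 2 * (la4 q' ^ 2 / 16 + ((a - aa4 q') ^ 2 + (b - bb4 q') ^ 2) / 8))) ≤
      s.card * (C * (1 + A / U)) ^ 3 := by
  calc ∑ q' ∈ s4 s, Real.exp (-(U ^ 2 * (la4 q' ^ 2 / 16 + ((a - aa4 q') ^ 2 + (b - bb4 q') ^ 2) / 8)))
      ≤ ∑ q' ∈ s4 s, ∑ t ∈ s, ∏ j, G U a b t j (q' j) := Finset.sum_le_sum fun q' hq => pt_le U a b s q' hq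
    _ = ∑ t ∈ s, ∑ q' ∈ s4 s, ∏ j, G U a b t j (q' j) := Finset.sum_comm
    _ = ∑ t ∈ s, ∏ j, ∑ x ∈ s, G U a b t j x := by
        refine Finset.sum_congr rfl fun t _ => ?_
        rw [Finset.prod_univ_sum]
        rfl
    _ ≤ ∑ _t ∈ s, (C * (1 + A / U)) ^ 3 := by
        refine Finset.sum_le_sum fun t ht => ?_
        rw [Fin.prod_univ_four]
        have h0 : ∑ x ∈ s, G U a b t 0 x ≤ C * (1 + A / U) := by
          refine le_trans (le_of_eq ?_) (h U A (lgr t.1 + a + b) s hU hA hs)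
          refine Finset.sum_congr rfl fun x _ => ?_
          unfold G
          rw [if_pos rfl]
        have h1 : ∑ x ∈ s, G U a b t 1 x ≤ C * (1 + A / U) := by
          refine le_trans (le_of_eq ?_) (h U A (lgr t.1 + a) s hU hA hs)
          refine Finset.sum_congr rfl fun x _ => ?_
          unfold G
          have h10 : (1 : Fin 4) ≠ 0 := by decide
          rw [if_neg h10, if_pos rfl]
        have h2 : ∑ x ∈ s, G U a b t 2 x ≤ C * (1 + A / U) := by
          refine le_trans (le_of_eq ?_) (h U A (lgr t.1 + b) s hU hA hs)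
          refine Finset.sum_congr rfl fun x _ => ?_
          unfold G
          have h20 : (2 : Fin 4) ≠ 0 := by decide
          have h21 : (2 : Fin 4) ≠ 1 := by decide
          rw [if_neg h20, if_neg h21, if_pos rfl]
        have h3 : ∑ x ∈ s, G U a b t 3 x = 1 := by
          have h30 : (3 : Fin 4) ≠ 0 := by decide
          have h31 : (3 : Fin 4) ≠ 1 := by decide
          have h32 : (3 : Fin 4) ≠ 2 := by decide
          unfold G
          simp only [if_neg h30, if_neg h31, if_neg h32]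
          rw [Finset.sum_ite_eq', if_pos ht]
        have p0 : 0 ≤ ∑ x ∈ s, G U a b t 0 x := Finset.sum_nonneg fun x _ => G_nonneg _ _ _ _ _ _
        have p1 : 0 ≤ ∑ x ∈ s, G U a b t 1 x := Finset.sum_nonneg fun x _ => G_nonneg _ _ _ _ _ _
        have p2 : 0 ≤ ∑ x ∈ s, G U a b t 2 x := Finset.sum_nonneg fun x _ => G_nonneg _ _ _ _ _ _
        have pC : 0 ≤ C * (1 + A / U) := by positivity
        rw [h3, mul_one]
        calc _ ≤ C * (1 + A / U) * (C * (1 + A / U)) * (C * (1 + A / U)) := by gcongr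
          _ = _ := by ring
    _ = s.card * (C * (1 + A / U)) ^ 3 := by
        rw [Finset.sum_const, nsmul_eq_mul]

end N8Aux

open N8Aux in
theorem n8_le : ∃ C : ℝ, 0 < C ∧ ∀ (U A : ℝ) (s : Finset Q), 1 ≤ U → 1 ≤ A → Dy A s →
    N8 U s ≤ C * s.card * (1 + A / U) ^ 3 * N2 U s := by
  obtain ⟨C, hC, h⟩ := row_bd (1 / 32) (by norm_num)
  refine ⟨C ^ 3, by positivity, fun U A s hU hA hs => ?_⟩
  unfold N8 N2
  rw [Finset.mul_sum]
  refine Finset.sum_le_sum fun q _ => ?_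
  have h1 : ∀ q' : Fin 4 → Q,
      Real.exp (-(U ^ 2 * ((la4 q ^ 2 + la4 q' ^ 2) / 16 + ((aa4 q - aa4 q') ^ 2 + (bb4 q - bb4 q') ^ 2) / 8))) =
        Real.exp (-(U * la4 q) ^ 2 / 16) *
          Real.exp (-(U ^ 2 * (la4 q' ^ 2 / 16 + ((aa4 q - aa4 q') ^ 2 + (bb4 q - bb4 q') ^ 2) / 8))) := by
    intro q'
    rw [← Real.exp_add]
    congr 1
    ring
  simp_rw [h1]
  rw [← Finset.mul_sum]
  have h2 := inner_le hC h U A (aa4 q) (bb4 q) s hU hA hs
  calc _ ≤ Real.exp (-(U * la4 q) ^ 2 / 16) * (s.card * (C * (1 + A / U)) ^ 3) :=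
        mul_le_mul_of_nonneg_left h2 (Real.exp_pos _).le
    _ = _ := by ring

end Pool.Agent.P07318o
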