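import Pool.Agent.Lib.P07318o.GsQ

/-!
# Module GsU3: the `U³` norm of a Gaussian block and the number of pairs of quadruples

PROOF.  Inner integral (`gs_inner`): with `v = y + (τ+z)/2` the four points are `y = v - (τ+z)/2`, `y + τ = v + (τ-z)/2`, `y + z = v - (τ-z)/2`,
`y + τ + z = v + (τ+z)/2`; the sum of their squares is `4v² + τ² + z²`, the factors `e^{iη..}` cancel, and the phase of the term
`c(q0) conj(c(q1)) conj(c(q2)) c(q3)` is `-y l0 + (y+τ) l1 + (y+z) l2 - (y+τ+z) l3 = -v λ + τ a + z b`, where `λ = la4 q = l0 - l1 - l2 + l3`,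
`a = (l0 + l1 - l2 - l3)/2 = aa4 q`, `b = (l0 - l1 + l2 - l3)/2 = bb4 q` (`ex x p = exp(-i x lgr p)`): indeed the coefficient of `τ` is
`(l0 + l1 - l2 - l3)/2`.  The product of the four sums is the sum over `s4 s` (`Finset.prod_univ_sum` with `Fin.prod_univ_four`, factor `j` is
`∑_{q_j ∈ s}`).  `∫ e^{-4v²/U²} e^{-ivλ} dv = √(π U²/4) e^{-U² λ²/16}` (`gi`, `b = 4/U²`), `√(π U²/4) = U √π/2`.
`U3_bk_le`: `U3 (bk)` is the double integral of `‖inner‖²`; `quad2` with `D = U`, `w_q = U √π/2 e^{-(Uλ)²/16} c(q0) conj(c(q1)) conj(c(q2)) c(q3)`,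
`‖w_q‖ ≤ U (K A^{-1/2})⁴ e^{-(Uλ)²/16}` (`√π/2 ≤ 1`), gives `U3 ≤ 2 U² · U² (K A^{-1/2})⁸ · N8 U s` (the exponents add up to the one in `N8`).
`M` is the bound `K A^{-1/2}` of the coefficients.
-/

set_option autoImplicit false

namespace Pool.Agent.P07318o

open MeasureTheory Complex Pool.Agent.P07318s Pool.Agent.P07318f Pool.Agent.P07318h

namespace GsU3Aux

theorem conj_e (r : ℝ) : (starRingEnd ℂ) (cexp ((r : ℂ) * I)) = cexp (((-r : ℝ) : ℂ) * I) := by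
  rw [← Complex.exp_conj, map_mul, Complex.conj_I, Complex.conj_ofReal]
  congr 1
  push_cast
  ring

theorem term_id {U : ℝ} (hU : 0 < U) (η v τ z l0 l1 l2 l3 : ℝ) (c0 c1 c2 c3 : ℂ) {x0 x1 x2 x3 : ℝ}
    (h0 : x0 = v - (τ + z) / 2) (h1 : x1 = v - (τ + z) / 2 + τ) (h2 : x2 = v - (τ + z) / 2 + z)
    (h3 : x3 = v - (τ + z) / 2 + τ + z) :
    (((Real.exp (-(x0 / U) ^ 2) : ℝ) : ℂ) * cexp (((η * x0 : ℝ) : ℂ) * I) *
        (c0 * cexp (((-(x0 * l0) : ℝ) : ℂ) * I))) *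
      (((Real.exp (-(x1 / U) ^ 2) : ℝ) : ℂ) * cexp (((-(η * x1) : ℝ) : ℂ) * I) *
        (c1 * cexp (((-(-(x1 * l1)) : ℝ) : ℂ) * I))) *
      (((Real.exp (-(x2 / U) ^ 2) : ℝ) : ℂ) * cexp (((-(η * x2) : ℝ) : ℂ) * I) *
        (c2 * cexp (((-(-(x2 * l2)) : ℝ) : ℂ) * I))) *
      (((Real.exp (-(x3 / U) ^ 2) : ℝ) : ℂ) * cexp (((η * x3 : ℝ) : ℂ) * I) *
        (c3 * cexp (((-(x3 * l3) : ℝ) : ℂ) * I))) =
    ((((Real.exp (-(τ / U) ^ 2) * Real.exp (-(z / U) ^ 2) : ℝ) : ℂ) * (c0 * c1 * c2 * c3)) *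
      cexp (((τ * ((l0 + l1 - l2 - l3) / 2) + z * ((l0 - l1 + l2 - l3) / 2) : ℝ) : ℂ) * I)) *
      (((Real.exp (-(4 / U ^ 2 * v ^ 2)) : ℝ) : ℂ) *
        cexp (((v * (-(l0 - l1 - l2 + l3)) : ℝ) : ℂ) * I)) := by
  have hU0 : U ≠ 0 := hU.ne'
  have e1 : ((Real.exp (-(x0 / U) ^ 2) : ℝ) : ℂ) * ((Real.exp (-(x1 / U) ^ 2) : ℝ) : ℂ) *
      ((Real.exp (-(x2 / U) ^ 2) : ℝ) : ℂ) * ((Real.exp (-(x3 / U) ^ 2) : ℝ) : ℂ) =
      ((Real.exp (-(τ / U) ^ 2) * Real.exp (-(z / U) ^ 2) : ℝ) : ℂ) *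
        ((Real.exp (-(4 / U ^ 2 * v ^ 2)) : ℝ) : ℂ) := by
    norm_cast
    rw [← Real.exp_add, ← Real.exp_add, ← Real.exp_add, ← Real.exp_add, ← Real.exp_add]
    congr 1
    subst h0 h1 h2 h3
    field_simp
    ring
  have e2 : cexp (((η * x0 : ℝ) : ℂ) * I) * cexp (((-(x0 * l0) : ℝ) : ℂ) * I) *
      (cexp (((-(η * x1) : ℝ) : ℂ) * I) * cexp (((-(-(x1 * l1)) : ℝ) : ℂ) * I)) *
      (cexp (((-(η * x2) : ℝ) : ℂ) * I) * cexp (((-(-(x2 * l2)) : ℝ) : ℂ) * I)) *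
      (cexp (((η * x3 : ℝ) : ℂ) * I) * cexp (((-(x3 * l3) : ℝ) : ℂ) * I)) =
      cexp (((τ * ((l0 + l1 - l2 - l3) / 2) + z * ((l0 - l1 + l2 - l3) / 2) : ℝ) : ℂ) * I) *
        cexp (((v * (-(l0 - l1 - l2 + l3)) : ℝ) : ℂ) * I) := by
    simp only [← Complex.exp_add]
    congr 1
    subst h0 h1 h2 h3
    push_cast
    ring
  calc _ = (((Real.exp (-(x0 / U) ^ 2) : ℝ) : ℂ) * ((Real.exp (-(x1 / U) ^ 2) : ℝ) : ℂ) *
      ((Real.exp (-(x2 / U) ^ 2) : ℝ) : ℂ) * ((Real.exp (-(x3 / U) ^ 2) : ℝ) : ℂ)) *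
      (cexp (((η * x0 : ℝ) : ℂ) * I) * cexp (((-(x0 * l0) : ℝ) : ℂ) * I) *
      (cexp (((-(η * x1) : ℝ) : ℂ) * I) * cexp (((-(-(x1 * l1)) : ℝ) : ℂ) * I)) *
      (cexp (((-(η * x2) : ℝ) : ℂ) * I) * cexp (((-(-(x2 * l2)) : ℝ) : ℂ) * I)) *
      (cexp (((η * x3 : ℝ) : ℂ) * I) * cexp (((-(x3 * l3) : ℝ) : ℂ) * I))) * (c0 * c1 * c2 * c3) := by
        ring
    _ = _ := by
        rw [e1, e2]
        ring

theorem prod_four (s : Finset Q) (F0 F1 F2 F3 : Q → ℂ) :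
    (∑ q ∈ s, F0 q) * (∑ q ∈ s, F1 q) * (∑ q ∈ s, F2 q) * (∑ q ∈ s, F3 q) =
      ∑ q ∈ s4 s, F0 (q 0) * F1 (q 1) * F2 (q 2) * F3 (q 3) := by
  have h := Finset.prod_univ_sum (fun _ : Fin 4 => s) (![F0, F1, F2, F3] : Fin 4 → Q → ℂ)
  simp only [Fin.prod_univ_four] at h
  exact h

theorem bk_sum (U η : ℝ) (s : Finset Q) (c : Q → ℂ) (x : ℝ) : bk U η s c x =
    ∑ q ∈ s, ((Real.exp (-(x / U) ^ 2) : ℝ) : ℂ) * cexp (((η * x : ℝ) : ℂ) * I) *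
        (c q * cexp (((-(x * lgr q.1) : ℝ) : ℂ) * I)) := by
  unfold bk ex
  rw [Finset.mul_sum]

theorem bk_conj (U η : ℝ) (s : Finset Q) (c : Q → ℂ) (x : ℝ) : (starRingEnd ℂ) (bk U η s c x) =
    ∑ q ∈ s, ((Real.exp (-(x / U) ^ 2) : ℝ) : ℂ) * cexp (((-(η * x) : ℝ) : ℂ) * I) *
        ((starRingEnd ℂ) (c q) * cexp (((-(-(x * lgr q.1)) : ℝ) : ℂ) * I)) := by
  rw [bk_sum, map_sum]
  refine Finset.sum_congr rfl fun q _ => ?_
  rw [map_mul, map_mul, map_mul, conj_e, conj_e, Complex.conj_ofReal]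

theorem sqrt_id {U : ℝ} (hU : 0 < U) : Real.sqrt (Real.pi / (4 / U ^ 2)) = U * (Real.sqrt Real.pi / 2) := by
  have e : Real.pi / (4 / U ^ 2) = Real.pi * (U / 2) ^ 2 := by
    have hU0 : U ≠ 0 := hU.ne'
    field_simp
    ring
  rw [e, Real.sqrt_mul Real.pi_pos.le, Real.sqrt_sq (by positivity)]
  ring

end GsU3Aux

open GsU3Aux in
theorem gs_inner {U : ℝ} (hU : 0 < U) (η τ z : ℝ) (s : Finset Q) (c : Q → ℂ) :
    ∫ y, bk U η s c y * (starRingEnd ℂ) (bk U η s c (y + τ)) * (starRingEnd ℂ) (bk U η s c (y + z)) *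
        bk U η s c (y + τ + z) =
      ((Real.exp (-(τ / U) ^ 2) * Real.exp (-(z / U) ^ 2) : ℝ) : ℂ) *
        ∑ q ∈ s4 s, (((U * (Real.sqrt Real.pi / 2) * Real.exp (-(U * la4 q) ^ 2 / 16) : ℝ) : ℂ) *
          (c (q 0) * (starRingEnd ℂ) (c (q 1)) * (starRingEnd ℂ) (c (q 2)) * c (q 3))) *
          cexp (((τ * aa4 q + z * bb4 q : ℝ) : ℂ) * I) := by
  have hb : 0 < 4 / U ^ 2 := by positivity
  rw [← integral_sub_right_eq_self _ ((τ + z) / 2)]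
  have key : ∀ v : ℝ, bk U η s c (v - (τ + z) / 2) *
      (starRingEnd ℂ) (bk U η s c (v - (τ + z) / 2 + τ)) *
      (starRingEnd ℂ) (bk U η s c (v - (τ + z) / 2 + z)) *
        bk U η s c (v - (τ + z) / 2 + τ + z) = ∑ q ∈ s4 s,
      ((((Real.exp (-(τ / U) ^ 2) * Real.exp (-(z / U) ^ 2) : ℝ) : ℂ) *
        (c (q 0) * (starRingEnd ℂ) (c (q 1)) * (starRingEnd ℂ) (c (q 2)) * c (q 3))) *
      cexp (((τ * aa4 q + z * bb4 q : ℝ) : ℂ) * I)) *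
      (((Real.exp (-(4 / U ^ 2 * v ^ 2)) : ℝ) : ℂ) *
        cexp (((v * (-(la4 q)) : ℝ) : ℂ) * I)) := by
    intro v
    rw [bk_sum U η s c (v - (τ + z) / 2), bk_conj, bk_conj,
      bk_sum U η s c (v - (τ + z) / 2 + τ + z), prod_four]
    refine Finset.sum_congr rfl fun q _ => ?_
    exact term_id hU η v τ z _ _ _ _ _ _ _ _ rfl rfl rfl rfl
  simp_rw [key]
  rw [integral_finsetSum _ (fun q _ => (gi_able hb _).const_mul _), Finset.mul_sum]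
  refine Finset.sum_congr rfl fun q _ => ?_
  rw [integral_const_mul, gi hb, sqrt_id hU]
  have e : -((-(la4 q)) ^ 2 / (4 * (4 / U ^ 2))) = -(U * la4 q) ^ 2 / 16 := by
    have hU0 : U ≠ 0 := hU.ne'
    field_simp
    ring
  rw [e]
  ring

open GsU3Aux in
theorem U3_bk_le {U : ℝ} (hU : 0 < U) (η M : ℝ) (hM : 0 ≤ M) (s : Finset Q) (c : Q → ℂ) (hc : ∀ q ∈ s, ‖c q‖ ≤ M) :
    U3 (bk U η s c) ≤ ENNReal.ofReal (2 * U ^ 4 * M ^ 8 * N8 U s) := by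
  have hw : ∀ q ∈ s4 s, ‖(((U * (Real.sqrt Real.pi / 2) * Real.exp (-(U * la4 q) ^ 2 / 16) : ℝ) : ℂ) *
          (c (q 0) * (starRingEnd ℂ) (c (q 1)) * (starRingEnd ℂ) (c (q 2)) * c (q 3)))‖ ≤
      U * Real.exp (-(U * la4 q) ^ 2 / 16) * M ^ 4 := by
    intro q hq
    rw [mem_s4] at hq
    have h0 := hc _ (hq 0)
    have h1 := hc _ (hq 1)
    have h2 := hc _ (hq 2)
    have h3 := hc _ (hq 3)
    have hpi : Real.sqrt Real.pi / 2 ≤ 1 := by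
      rw [div_le_one (by norm_num)]
      rw [Real.sqrt_le_left (by norm_num)]
      have := Real.pi_le_four
      linarith
    have hpi0 : 0 ≤ Real.sqrt Real.pi / 2 := by positivity
    rw [norm_mul, Complex.norm_real, Real.norm_of_nonneg (by positivity)]
    rw [norm_mul, norm_mul, norm_mul, RCLike.norm_conj, RCLike.norm_conj]
    have e4 : M ^ 4 = M * M * M * M := by ring
    rw [e4]
    have hU1 : U * (Real.sqrt Real.pi / 2) ≤ U := by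
      have := mul_le_mul_of_nonneg_left hpi hU.le
      linarith
    gcongr
  unfold U3
  simp_rw [gs_inner hU]
  refine (quad2 (s4 s) _ aa4 bb4 hU).trans ?_
  apply ENNReal.ofReal_le_ofReal
  have e : 2 * U ^ 4 * M ^ 8 * N8 U s = 2 * U ^ 2 * ∑ q ∈ s4 s, ∑ q' ∈ s4 s,
      (U * Real.exp (-(U * la4 q) ^ 2 / 16) * M ^ 4) * (U * Real.exp (-(U * la4 q') ^ 2 / 16) * M ^ 4) *
        Real.exp (-(U ^ 2 * ((aa4 q - aa4 q') ^ 2 + (bb4 q - bb4 q') ^ 2)) / 8) := by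
    unfold N8
    rw [Finset.mul_sum, Finset.mul_sum]
    refine Finset.sum_congr rfl fun q _ => ?_
    rw [Finset.mul_sum, Finset.mul_sum]
    refine Finset.sum_congr rfl fun q' _ => ?_
    have e2 : -(U ^ 2 * ((la4 q ^ 2 + la4 q' ^ 2) / 16 + ((aa4 q - aa4 q') ^ 2 + (bb4 q - bb4 q') ^ 2) / 8)) =
        -(U * la4 q) ^ 2 / 16 + -(U * la4 q') ^ 2 / 16 +
          -(U ^ 2 * ((aa4 q - aa4 q') ^ 2 + (bb4 q - bb4 q') ^ 2)) / 8 := by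
      ring
    rw [e2, Real.exp_add, Real.exp_add]
    ring
  rw [e]
  apply mul_le_mul_of_nonneg_left _ (by positivity)
  refine Finset.sum_le_sum fun q hq => Finset.sum_le_sum fun q' hq' => ?_
  apply mul_le_mul_of_nonneg_right _ (Real.exp_pos _).le
  exact mul_le_mul (hw q hq) (hw q' hq') (norm_nonneg _) (by positivity)

end Pool.Agent.P07318o
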