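import Pool.Agent.Lib.P07318o.FrExp
import Pool.Agent.Lib.P07318o.FrBd
import Pool.Agent.Lib.P07318o.AbsF

/-!
# Module HForm: the mean square of `LL` and the `U³` norm of one slot

PROOF.  `abs_form` and `nm (Z j) ≠ ⊤` give `∫⁻ h, LA ^ 2 ≠ ⊤`; `expand_form`.
Choose `r₁ ≠ q` in `Fin (m + 1)` (possible as `m ≥ 1`): if `r = Fin.last` then `r₁ = 0`, `q = 1`; if `r = r₀.castSucc` then `r₁ = r₀` and `q` any
other index.  For a.e. `τ` `nm (shp (Z last) τ) ≠ ⊤` (as `∫⁻ τ, nm (shp (Z last) τ) = nm (Z last) ^ 2 ≠ ⊤`, `ae_lt_top`), and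
`∫⁻ ‖shp (Z j) τ‖ₑ ≤ nm (Z j) ≠ ⊤` for all `τ` (`l1_shp`), so by `form_bd` for a.e. `τ`
`‖Fm ..‖ₑ ≤ C * (∏ j ∈ (univ.erase q).erase r₁, nm (Z j.castSucc)) * (nm (shp (Z q) τ) ^ (1/2) * nm (ac (shp (Z r₁) τ)) ^ (1/4) *
nm (ac (shp (Z last) τ)) ^ (1/4))`.
Hölder with the exponents `2, 4, 4` (`ENNReal.lintegral_mul_le_Lp_mul_Lq` twice, or `ENNReal.lintegral_prod_norm_pow_le`):
`∫⁻ τ, a ^ (1/2) * b ^ (1/4) * c ^ (1/4) ≤ (∫⁻ a) ^ (1/2) * (∫⁻ b) ^ (1/4) * (∫⁻ c) ^ (1/4)`, where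
`∫⁻ τ, nm (shp (Z q) τ) = nm (Z q) ^ 2` (`nm_shp`), `∫⁻ τ, nm (ac (shp (Z r₁) τ)) = U3 (Z r₁)` (`U3_eq`), the same for the last slot.  For the slot
of the two which is not `r` use `U3 Y ≤ nm Y ^ 4` (`U3_le`), `(nm Y ^ 4) ^ (1/4) = nm Y`.  Collect the product over `univ.erase r` in
`Fin (m + 2)` (`Fin.prod_univ_castSucc`).
-/

set_option autoImplicit false

namespace Pool.Agent.P07318o

open MeasureTheory Complex Pool.Agent.P07318s Pool.Agent.P07318f Pool.Agent.P07318h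

namespace HFormAux

/-- Cauchy-Schwarz with square roots -/
lemma cs_half {f g : ℝ → ENNReal} (hf : Measurable f) (hg : Measurable g) :
    ∫⁻ x, f x ^ (1 / 2 : ℝ) * g x ^ (1 / 2 : ℝ) ≤ (∫⁻ x, f x) ^ (1 / 2 : ℝ) * (∫⁻ x, g x) ^ (1 / 2 : ℝ) := by
  have h := ENNReal.lintegral_mul_le_Lp_mul_Lq (volume : Measure ℝ) Real.HolderConjugate.two_two
    (f := fun x => f x ^ (1 / 2 : ℝ)) (g := fun x => g x ^ (1 / 2 : ℝ))
    (hf.pow_const _).aemeasurable (hg.pow_const _).aemeasurable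
  have e : ∀ z : ENNReal, (z ^ (1 / 2 : ℝ)) ^ (2 : ℝ) = z := by
    intro z
    rw [← ENNReal.rpow_mul]
    norm_num
  simp only [e, Pi.mul_apply] at h
  exact h

/-- Hölder with the exponents `2, 4, 4` -/
lemma holder244 {a b c : ℝ → ENNReal} (ha : Measurable a) (hb : Measurable b) (hc : Measurable c) :
    ∫⁻ x, a x ^ (1 / 2 : ℝ) * b x ^ (1 / 4 : ℝ) * c x ^ (1 / 4 : ℝ) ≤
      (∫⁻ x, a x) ^ (1 / 2 : ℝ) * (∫⁻ x, b x) ^ (1 / 4 : ℝ) * (∫⁻ x, c x) ^ (1 / 4 : ℝ) := by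
  have e : ∀ z : ENNReal, (z ^ (1 / 2 : ℝ)) ^ (1 / 2 : ℝ) = z ^ (1 / 4 : ℝ) := by
    intro z
    rw [← ENNReal.rpow_mul]
    norm_num
  have h1 : ∀ x, a x ^ (1 / 2 : ℝ) * b x ^ (1 / 4 : ℝ) * c x ^ (1 / 4 : ℝ) =
      a x ^ (1 / 2 : ℝ) * (b x ^ (1 / 2 : ℝ) * c x ^ (1 / 2 : ℝ)) ^ (1 / 2 : ℝ) := by
    intro x
    rw [ENNReal.mul_rpow_of_nonneg _ _ (by norm_num : (0 : ℝ) ≤ 1 / 2), e, e, mul_assoc]
  simp only [h1]
  refine (cs_half ha ((hb.pow_const _).mul (hc.pow_const _))).trans ?_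
  rw [mul_assoc]
  refine mul_le_mul_right ?_ _
  refine (ENNReal.rpow_le_rpow (cs_half hb hc) (by norm_num : (0 : ℝ) ≤ 1 / 2)).trans ?_
  rw [ENNReal.mul_rpow_of_nonneg _ _ (by norm_num : (0 : ℝ) ≤ 1 / 2), e, e]

lemma meas_shp {Y : ℝ → ℂ} (hY : Measurable Y) (τ : ℝ) : Measurable (shp Y τ) := by
  unfold shp
  exact hY.mul (Complex.continuous_conj.measurable.comp (hY.comp (measurable_id.add_const τ)))

lemma prod_erase_cast {M : Type*} [CommMonoid M] {m : ℕ} (f : Fin (m + 2) → M) (r : Fin (m + 1)) :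
    ∏ j ∈ Finset.univ.erase r.castSucc, f j = (∏ j ∈ Finset.univ.erase r, f j.castSucc) * f (Fin.last (m + 1)) := by
  classical
  have h1 : ∏ j ∈ Finset.univ.erase r.castSucc, f j = ∏ j, if j = r.castSucc then 1 else f j := by
    rw [← Finset.prod_erase (s := Finset.univ) (f := fun j => if j = r.castSucc then (1 : M) else f j)
      (a := r.castSucc) (by simp)]
    refine Finset.prod_congr rfl fun j hj => ?_
    rw [if_neg (Finset.ne_of_mem_erase hj)]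
  have h2 : ∏ j ∈ Finset.univ.erase r, f j.castSucc = ∏ j : Fin (m + 1), if j = r then 1 else f j.castSucc := by
    rw [← Finset.prod_erase (s := Finset.univ) (f := fun j => if j = r then (1 : M) else f j.castSucc)
      (a := r) (by simp)]
    refine Finset.prod_congr rfl fun j hj => ?_
    rw [if_neg (Finset.ne_of_mem_erase hj)]
  rw [h1, h2, Fin.prod_univ_castSucc]
  congr 1
  · refine Finset.prod_congr rfl fun j _ => ?_
    simp [Fin.castSucc_inj]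
  · rw [if_neg]
    exact (Fin.castSucc_lt_last r).ne'

lemma prod_erase_last {M : Type*} [CommMonoid M] {m : ℕ} (f : Fin (m + 2) → M) :
    ∏ j ∈ Finset.univ.erase (Fin.last (m + 1)), f j = ∏ j : Fin (m + 1), f j.castSucc := by
  classical
  have h1 : ∏ j ∈ Finset.univ.erase (Fin.last (m + 1)), f j = ∏ j, if j = Fin.last (m + 1) then 1 else f j := by
    rw [← Finset.prod_erase (s := Finset.univ) (f := fun j => if j = Fin.last (m + 1) then (1 : M) else f j)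
      (a := Fin.last (m + 1)) (by simp)]
    refine Finset.prod_congr rfl fun j hj => ?_
    rw [if_neg (Finset.ne_of_mem_erase hj)]
  rw [h1, Fin.prod_univ_castSucc]
  simp [(Fin.castSucc_lt_last _).ne]

lemma U3_quarter {Y : ℝ → ℂ} (hY : Measurable Y) : U3 Y ^ (1 / 4 : ℝ) ≤ nm Y := by
  refine (ENNReal.rpow_le_rpow (U3_le hY) (by norm_num : (0 : ℝ) ≤ 1 / 4)).trans ?_
  rw [← ENNReal.rpow_natCast, ← ENNReal.rpow_mul]
  norm_num

end HFormAux

open HFormAux in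
theorem h_form {m : ℕ} (hm : 1 ≤ m) (ν : Fin (m + 1) → ℝ) (hν : Adm ν) : ∃ C : ℝ, 0 < C ∧
    ∀ (κ α : ℝ) (Z : Fin (m + 2) → ℝ → ℂ) (r : Fin (m + 2)), (∀ j, Measurable (Z j)) → (∀ j, nm (Z j) ≠ ⊤) →
    ∫⁻ h, ‖LL ν κ α Z h‖ₑ ^ 2 ≤
      ENNReal.ofReal C * U3 (Z r) ^ (1 / 4 : ℝ) * ∏ j ∈ Finset.univ.erase r, nm (Z j) := by
  classical
  obtain ⟨C1, hC1, H1⟩ := abs_form hm ν hν
  obtain ⟨C2, hC2, H2⟩ := form_bd ν hν.1
  refine ⟨C2, hC2, ?_⟩
  intro κ α Z r hZ hn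
  have hfin : ∫⁻ h, LA ν κ α Z h ^ 2 ≠ ⊤ := by
    refine ne_top_of_le_ne_top ?_ (H1 κ α Z hZ)
    exact ENNReal.mul_ne_top ENNReal.ofReal_ne_top (ENNReal.prod_ne_top fun j _ => hn j)
  have hexp := expand_form hν κ α Z hZ hfin
  -- the general bound
  have K : ∀ q r₁ : Fin (m + 1), q ≠ r₁ →
      ∫⁻ h, ‖LL ν κ α Z h‖ₑ ^ 2 ≤ ENNReal.ofReal C2 *
        (∏ j ∈ (Finset.univ.erase q).erase r₁, nm (Z j.castSucc)) *
        (nm (Z q.castSucc) * U3 (Z r₁.castSucc) ^ (1 / 4 : ℝ) * U3 (Z (Fin.last (m + 1))) ^ (1 / 4 : ℝ)) := by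
    intro q r₁ hqr
    refine hexp.trans ?_
    have hae : ∀ᵐ τ : ℝ, nm (shp (Z (Fin.last (m + 1))) τ) ≠ ⊤ := by
      have h1 : ∫⁻ τ, nm (shp (Z (Fin.last (m + 1))) τ) ≠ ⊤ := by
        rw [nm_shp (hZ _)]
        exact ENNReal.pow_ne_top (hn _)
      filter_upwards [ae_lt_top (meas_nm_shp (hZ _)) h1] with τ hτ
      exact hτ.ne
    have hb : ∀ᵐ τ : ℝ, ‖Fm ν κ (fun j => shp (Z j.castSucc) τ) (shp (Z (Fin.last (m + 1))) τ)‖ₑ ≤
        ENNReal.ofReal C2 * (∏ j ∈ (Finset.univ.erase q).erase r₁, nm (Z j.castSucc)) *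
          (nm (shp (Z q.castSucc) τ) ^ (1 / 2 : ℝ) * nm (ac (shp (Z r₁.castSucc) τ)) ^ (1 / 4 : ℝ) *
            nm (ac (shp (Z (Fin.last (m + 1))) τ)) ^ (1 / 4 : ℝ)) := by
      filter_upwards [hae] with τ hτ
      refine (H2 κ (fun j => shp (Z j.castSucc) τ) (shp (Z (Fin.last (m + 1))) τ) q r₁ hqr
        (fun j => meas_shp (hZ _) τ) (meas_shp (hZ _) τ)
        (fun j => ne_top_of_le_ne_top (hn _) (l1_shp (hZ _) τ)) hτ).trans ?_
      refine mul_le_mul_left ?_ _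
      refine mul_le_mul_right ?_ _
      exact Finset.prod_le_prod' fun j _ => l1_shp (hZ _) τ
    refine (lintegral_mono_ae hb).trans ?_
    have hme : Measurable fun τ => nm (shp (Z q.castSucc) τ) ^ (1 / 2 : ℝ) *
        nm (ac (shp (Z r₁.castSucc) τ)) ^ (1 / 4 : ℝ) *
        nm (ac (shp (Z (Fin.last (m + 1))) τ)) ^ (1 / 4 : ℝ) :=
      (((meas_nm_shp (hZ _)).pow_const _).mul ((meas_nm_ac (hZ _)).pow_const _)).mul
        ((meas_nm_ac (hZ _)).pow_const _)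
    rw [lintegral_const_mul _ hme]
    refine mul_le_mul_right ?_ _
    refine (holder244 (meas_nm_shp (hZ _)) (meas_nm_ac (hZ _)) (meas_nm_ac (hZ _))).trans ?_
    rw [nm_shp (hZ _), ← U3_eq, ← U3_eq]
    have e : (nm (Z q.castSucc) ^ 2) ^ (1 / 2 : ℝ) = nm (Z q.castSucc) := by
      rw [← ENNReal.rpow_natCast, ← ENNReal.rpow_mul]
      norm_num
    rw [e]
  induction r using Fin.lastCases with
  | last =>
    have h01 : (⟨1, by omega⟩ : Fin (m + 1)) ≠ 0 := by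
      intro h
      have := congrArg Fin.val h
      simp at this
    refine (K ⟨1, by omega⟩ 0 h01).trans ?_
    rw [prod_erase_last]
    have hp : ∏ j : Fin (m + 1), nm (Z j.castSucc) =
        nm (Z (⟨1, by omega⟩ : Fin (m + 1)).castSucc) *
          (nm (Z (0 : Fin (m + 1)).castSucc) * ∏ j ∈ (Finset.univ.erase (⟨1, by omega⟩ : Fin (m + 1))).erase 0, nm (Z j.castSucc)) := by
      rw [Finset.mul_prod_erase (Finset.univ.erase (⟨1, by omega⟩ : Fin (m + 1)))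
        (fun j : Fin (m + 1) => nm (Z j.castSucc)) (Finset.mem_erase.2 ⟨h01.symm, Finset.mem_univ _⟩),
        Finset.mul_prod_erase Finset.univ (fun j : Fin (m + 1) => nm (Z j.castSucc)) (Finset.mem_univ _)]
    rw [hp]
    calc _ ≤ ENNReal.ofReal C2 *
        (∏ j ∈ (Finset.univ.erase (⟨1, by omega⟩ : Fin (m + 1))).erase 0, nm (Z j.castSucc)) *
        (nm (Z (⟨1, by omega⟩ : Fin (m + 1)).castSucc) * nm (Z (0 : Fin (m + 1)).castSucc) *
          U3 (Z (Fin.last (m + 1))) ^ (1 / 4 : ℝ)) := by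
          gcongr
          exact U3_quarter (hZ _)
      _ = _ := by ring
  | cast r₀ =>
    obtain ⟨q, hq⟩ : ∃ q : Fin (m + 1), q ≠ r₀ := by
      by_cases h : r₀ = 0
      · refine ⟨⟨1, by omega⟩, ?_⟩
        rw [h]
        intro h'
        have := congrArg Fin.val h'
        simp at this
      · exact ⟨0, fun h' => h h'.symm⟩
    refine (K q r₀ hq).trans ?_
    rw [prod_erase_cast]
    have hp : ∏ j ∈ Finset.univ.erase r₀, nm (Z j.castSucc) =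
        nm (Z q.castSucc) * ∏ j ∈ (Finset.univ.erase q).erase r₀, nm (Z j.castSucc) := by
      rw [Finset.erase_right_comm, Finset.mul_prod_erase (Finset.univ.erase r₀)
        (fun j : Fin (m + 1) => nm (Z j.castSucc)) (Finset.mem_erase.2 ⟨hq, Finset.mem_univ _⟩)]
    rw [hp]
    calc _ ≤ ENNReal.ofReal C2 *
        (∏ j ∈ (Finset.univ.erase q).erase r₀, nm (Z j.castSucc)) *
        (nm (Z q.castSucc) * U3 (Z r₀.castSucc) ^ (1 / 4 : ℝ) * nm (Z (Fin.last (m + 1)))) := by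
          gcongr
          exact U3_quarter (hZ _)
      _ = _ := by ring

end Pool.Agent.P07318o
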