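import Pool.Agent.Lib.P07318o.Meas
import Pool.Agent.Lib.P07318o.Between
import Pool.Agent.Lib.P07318o.DgLog
import Pool.Agent.Lib.P07318h.MainPt
import Pool.Agent.Lib.P07318s.Cont
import Pool.Agent.Lib.P07318s.MainCont

/-!
# The mean square of the remainder over the family, all windows at once
-/

set_option autoImplicit false

namespace Pool.Agent.P07318o

open MeasureTheory Complex Pool.Agent.P07318s Pool.Agent.P07318f Pool.Agent.P07318h

namespace L2Aux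

lemma sq_add3 (a b c : ENNReal) : (a + b + c) ^ 2 ≤ 3 * (a ^ 2 + b ^ 2 + c ^ 2) := by
  have h := ENNReal.rpow_sum_le_const_mul_sum_rpow (Finset.univ : Finset (Fin 3)) ![a, b, c] (p := 2) (by norm_num)
  simp only [Fin.sum_univ_three, Finset.card_univ, Fintype.card_fin] at h
  norm_num at h
  exact h

lemma sq_sum {ι : Type*} (s : Finset ι) (f : ι → ENNReal) : (∑ i ∈ s, f i) ^ 2 ≤ (s.card : ENNReal) * ∑ i ∈ s, f i ^ 2 := by
  have h := ENNReal.rpow_sum_le_const_mul_sum_rpow s f (p := 2) (by norm_num)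
  norm_num at h
  exact h

lemma vol_dm {m : ℕ} (ν : Fin (m + 1) → ℝ) (κ α T : ℝ) (hT : 0 ≤ T) : volume (Dm ν κ α T) ≤ ENNReal.ofReal (T ^ m) := by
  have h1 : Dm ν κ α T ⊆ Set.Icc (fun _ : Fin m => T) (fun _ => 2 * T) := by
    intro h hh
    constructor
    · intro j
      have := (hh j.succ.castSucc).1
      rwa [xs_succ] at this
    · intro j
      have := (hh j.succ.castSucc).2
      rwa [xs_succ] at this
  refine (measure_mono h1).trans ?_
  rw [Real.volume_Icc_pi]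
  simp only [Finset.prod_const, Finset.card_univ, Fintype.card_fin]
  rw [show 2 * T - T = T by ring, ENNReal.ofReal_pow hT]

/-- all windows, in mean square: `∫ W (∏ gz - Dg)` is bounded by `A + R` with `A`, `R` measurable -/
theorem windows {m : ℕ} (hm : 1 ≤ m) (ν : Fin (m + 1) → ℝ) (hν : Adm ν) (ε : ℝ) (hε : 0 < ε) :
    ∃ C T₀ : ℝ, 0 < C ∧ 64 ≤ T₀ ∧ ∀ κ α T : ℝ, T₀ ≤ T → T ≤ α → α ≤ 2 * T →
    ∃ A R : (Fin m → ℝ) → ENNReal, Measurable A ∧ Measurable R ∧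
      ∫⁻ h, A h ^ 2 ≤ ENNReal.ofReal (C * T ^ (m + 2) * lg T ^ ((m : ℝ) + 2 + ε)) ∧
      ∫⁻ h in Dm ν κ α T, R h ^ 2 ≤ ENNReal.ofReal (C * T ^ (m + 2)) ∧
      ∀ h ∈ Dm ν κ α T,
      (∀ i : ℕ, i ≤ nn m T → ‖∫ t, (win (T / nn m T) 0 (i * (T / nn m T)) t : ℂ) *
        (((∏ j, gz (t + xs ν κ α h j) : ℝ) : ℂ) - Dg (fun j => t + xs ν κ α h j))‖ₑ ≤ A h + R h) ∧
      (∀ i : ℕ, i ≤ nn m T → ‖∫ t, (win (T / nn m T) (T / nn m T) (i * (T / nn m T) - T / nn m T) t : ℂ) *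
        (((∏ j, gz (t + xs ν κ α h j) : ℝ) : ℂ) - Dg (fun j => t + xs ν κ α h j))‖ₑ ≤ A h + R h) := by
  classical
  obtain ⟨Tw, hTw, hwin⟩ := MeasAux.wins m
  obtain ⟨C₀, Cb, Tb, hC₀, hCb, hTb, hbad⟩ := bad_b hm ν hν
    (2 * (((m + 2) ^ 2 : ℕ) : ℝ) + 4) (2 * (((m + 2) ^ 2 : ℕ) : ℝ)) (by positivity) (by positivity)
  obtain ⟨Ct, Tt, hCt, hTt, htop⟩ := top_b hm ν hν C₀ ε hC₀ hε
  obtain ⟨c, Cd, hc, hCd, hdiag⟩ := diag_b hm ν hν
  obtain ⟨C1, hC1, hone⟩ := one_w (m := m)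
  obtain ⟨Ca, hCa, hla⟩ := MeasAux.lg_pow (A := 2 * (((m + 2) ^ 2 : ℕ) : ℝ)) (c := c)
    (by positivity) hc
  obtain ⟨Cf, hCf, hlf⟩ := MeasAux.lg_pow (A := 2 * (((m + 2) ^ 2 : ℕ) : ℝ) + 4) (c := 1 / 4)
    (by positivity) (by norm_num)
  obtain ⟨nb, hnb⟩ : ∃ nb : ℝ, nb = ((badP m).card : ℝ) := ⟨_, rfl⟩
  have hnb0 : 0 ≤ nb := by rw [hnb]; positivity
  obtain ⟨CR, hCR⟩ : ∃ CR : ℝ, CR = 3 * ((66 * nb) ^ 2 * Cb + 66 ^ 2 * Cd * Ca + (C1 * Cf) ^ 2) := ⟨_, rfl⟩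
  have hCR0 : 0 < CR := by rw [hCR]; positivity
  refine ⟨Ct + CR, max (max Tw Tb) Tt, by positivity, ?_, ?_⟩
  · exact hTw.trans ((le_max_left _ _).trans (le_max_left _ _))
  intro κ α T hT hα1 hα2
  have hTw' : Tw ≤ T := ((le_max_left _ _).trans (le_max_left _ _)).trans hT
  have hTb' : Tb ≤ T := ((le_max_right _ _).trans (le_max_left _ _)).trans hT
  have hTt' : Tt ≤ T := (le_max_right _ _).trans hT
  have hT64 : 64 ≤ T := hTw.trans hTw'
  have hT1 : 1 ≤ T := by linarith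
  have hT0 : 0 < T := by linarith
  have hL := MeasAux.lg_ge hT1
  have hL0 : 0 < lg T := by linarith
  obtain ⟨n, hn⟩ : ∃ n : ℕ, n = nn m T := ⟨_, rfl⟩
  obtain ⟨Δ, hΔ⟩ : ∃ Δ : ℝ, Δ = T / nn m T := ⟨_, rfl⟩
  obtain ⟨Λ, hΛ⟩ : ∃ Λ : ℝ, Λ = lg T ^ (2 * (((m + 2) ^ 2 : ℕ) : ℝ) + 4) := ⟨_, rfl⟩
  have hΛ1 : 1 ≤ Λ := by rw [hΛ]; exact Real.one_le_rpow hL (by positivity)
  obtain ⟨W, hWdef⟩ : ∃ W : Bool × ℕ → ℝ → ℝ, W = fun x =>
    if x.1 then win Δ 0 (x.2 * Δ) else win Δ Δ (x.2 * Δ - Δ) := ⟨_, rfl⟩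
  obtain ⟨I, hI⟩ : ∃ I : Finset (Bool × ℕ), I = Finset.univ ×ˢ Finset.range (n + 1) := ⟨_, rfl⟩
  have hIcard : (I.card : ℝ) = ((2 * (nn m T + 1) : ℕ) : ℝ) := by
    rw [hI, Finset.card_product, Finset.card_range, Finset.card_univ, Fintype.card_bool, hn]
  have hIc : (I.card : ℝ) ≤ 66 * lg T ^ ((m + 2) ^ 2) := by
    rw [hIcard]
    exact MeasAux.numN hT1
  have hmemI : ∀ (b : Bool) (i : ℕ), i ≤ nn m T → (b, i) ∈ I := by
    intro b i hi
    rw [hI, Finset.mem_product, Finset.mem_range]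
    exact ⟨Finset.mem_univ _, by rw [hn]; exact Nat.lt_succ_of_le hi⟩
  have hWwn : ∀ x ∈ I, Wn T Λ (W x) := by
    intro x hx
    rw [hI, Finset.mem_product, Finset.mem_range, hn] at hx
    have h1 := hwin T hTw' x.2 (Nat.lt_succ_iff.1 hx.2)
    rw [← hΔ, ← hΛ] at h1
    rw [hWdef]
    show Wn T Λ (if x.1 then win Δ 0 (x.2 * Δ) else win Δ Δ (x.2 * Δ - Δ))
    split_ifs
    · exact h1.1
    · exact h1.2
  have hWm : ∀ x, Measurable (W x) := by
    intro x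
    rw [hWdef]
    show Measurable (if x.1 then win Δ 0 (x.2 * Δ) else win Δ Δ (x.2 * Δ - Δ))
    split_ifs
    · exact MeasAux.win_meas _ _ _
    · exact MeasAux.win_meas _ _ _
  -- the functions
  obtain ⟨fL, hfL⟩ : ∃ fL : (Bool × ℕ) × (Fin (m + 2) → Fin 4) → (Fin m → ℝ) → ENNReal,
    fL = fun y h => ‖LL ν κ α (ZP (T / 4) α (n1 m T) (n2 C₀ T) (W y.1) y.2) h‖ₑ := ⟨_, rfl⟩
  obtain ⟨gD, hgD⟩ : ∃ gD : Bool × ℕ → (Fin m → ℝ) → ENNReal,
    gD = fun x h => ‖∫ t, (W x t : ℂ) * (DgY (n1 m T) (fun j => t + xs ν κ α h j) -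
        Dg (fun j => t + xs ν κ α h j))‖ₑ := ⟨_, rfl⟩
  have hfm : ∀ y, Measurable (fL y) := by
    intro y
    rw [hfL]
    exact (MeasAux.LL_meas ν κ α fun j => MeasAux.ct_meas
      (MeasAux.cc_meas _ _ (hWm _) j) (MeasAux.bf_meas _ _ _ _)).enorm
  have hgm : ∀ x, Measurable (gD x) := by
    intro x
    rw [hgD]
    exact (MeasAux.DD_meas ν κ α (n1 m T) (hWm x)).enorm
  have hfsum : Measurable fun h => ∑ y ∈ I ×ˢ badP m, fL y h := Finset.measurable_fun_sum _ fun y _ => hfm y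
  have hgsum : Measurable fun h => ∑ x ∈ I, gD x h := Finset.measurable_fun_sum _ fun x _ => hgm x
  refine ⟨LA ν κ α (ZT (T / 4) (n2 C₀ T)), fun h => ∑ y ∈ I ×ˢ badP m, fL y h + ∑ x ∈ I, gD x h +
    ENNReal.ofReal (C1 * Λ * T ^ (3 / 4 : ℝ)), MeasAux.LA_meas ν κ α fun j => MeasAux.ct_meas
        (MeasAux.rho_meas _) (MeasAux.bd_meas _ _), (hfsum.add hgsum).add_const _, ?_, ?_, ?_⟩
  · refine (htop κ α T hTt').trans (ENNReal.ofReal_le_ofReal ?_)
    have : 0 ≤ CR * T ^ (m + 2) * lg T ^ ((m : ℝ) + 2 + ε) := by positivity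
    nlinarith
  · -- the mean square of R
    have h1 : ∫⁻ h in Dm ν κ α T, (∑ y ∈ I ×ˢ badP m, fL y h) ^ 2 ≤
        ENNReal.ofReal ((66 * nb) ^ 2 * Cb * T ^ (m + 2)) := by
      calc ∫⁻ h in Dm ν κ α T, (∑ y ∈ I ×ˢ badP m, fL y h) ^ 2
          ≤ ∫⁻ h in Dm ν κ α T, ((I ×ˢ badP m).card : ENNReal) * ∑ y ∈ I ×ˢ badP m, fL y h ^ 2 :=
            lintegral_mono fun h => sq_sum _ _
        _ = ((I ×ˢ badP m).card : ENNReal) * ∑ y ∈ I ×ˢ badP m, ∫⁻ h in Dm ν κ α T, fL y h ^ 2 := by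
            rw [lintegral_const_mul _ (Finset.measurable_fun_sum _ fun y _ => (hfm y).pow_const 2),
              lintegral_finset_sum _ fun y _ => (hfm y).pow_const 2]
        _ ≤ ((I ×ˢ badP m).card : ENNReal) * ∑ y ∈ I ×ˢ badP m,
            ENNReal.ofReal (Cb * T ^ (m + 2) * lg T ^ (-(2 * (((m + 2) ^ 2 : ℕ) : ℝ)))) := by
            gcongr with y hy
            rw [Finset.mem_product] at hy
            have h1 := hWwn y.1 hy.1
            rw [hΛ] at h1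
            rw [hfL]
            exact (hbad κ α T (W y.1) y.2 hTb' hα1 hα2 h1 hy.2).2
        _ = ENNReal.ofReal ((I.card * nb) ^ 2 * (Cb * T ^ (m + 2) * lg T ^ (-(2 * (((m + 2) ^ 2 : ℕ) : ℝ))))) := by
            rw [Finset.sum_const, nsmul_eq_mul, ← ENNReal.ofReal_natCast, ← ENNReal.ofReal_mul (Nat.cast_nonneg _),
              ← ENNReal.ofReal_mul (Nat.cast_nonneg _), Finset.card_product, Nat.cast_mul, ← hnb]
            congr 1
            ring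
        _ ≤ ENNReal.ofReal ((66 * nb) ^ 2 * Cb * T ^ (m + 2)) := by
            refine ENNReal.ofReal_le_ofReal ?_
            have h2 : lg T ^ (-(2 * (((m + 2) ^ 2 : ℕ) : ℝ))) * (lg T ^ ((m + 2) ^ 2)) ^ 2 = 1 := by
              rw [← pow_mul, ← Real.rpow_natCast, ← Real.rpow_add hL0]
              rw [show -(2 * (((m + 2) ^ 2 : ℕ) : ℝ)) + (((m + 2) ^ 2 * 2 : ℕ) : ℝ) = 0 by push_cast; ring, Real.rpow_zero]
            calc (I.card * nb) ^ 2 * (Cb * T ^ (m + 2) * lg T ^ (-(2 * (((m + 2) ^ 2 : ℕ) : ℝ))))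
                ≤ ((66 * lg T ^ ((m + 2) ^ 2)) * nb) ^ 2 * (Cb * T ^ (m + 2) * lg T ^ (-(2 * (((m + 2) ^ 2 : ℕ) : ℝ)))) := by
                  gcongr
              _ = (66 * nb) ^ 2 * Cb * T ^ (m + 2) * (lg T ^ (-(2 * (((m + 2) ^ 2 : ℕ) : ℝ))) * (lg T ^ ((m + 2) ^ 2)) ^ 2) := by
                  ring
              _ = _ := by rw [h2, mul_one]
    have h2 : ∫⁻ h in Dm ν κ α T, (∑ x ∈ I, gD x h) ^ 2 ≤ ENNReal.ofReal (66 ^ 2 * Cd * Ca * T ^ (m + 2)) := by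
      calc ∫⁻ h in Dm ν κ α T, (∑ x ∈ I, gD x h) ^ 2
          ≤ ∫⁻ h in Dm ν κ α T, (I.card : ENNReal) * ∑ x ∈ I, gD x h ^ 2 :=
            lintegral_mono fun h => sq_sum _ _
        _ = (I.card : ENNReal) * ∑ x ∈ I, ∫⁻ h in Dm ν κ α T, gD x h ^ 2 := by
            rw [lintegral_const_mul _ (Finset.measurable_fun_sum _ fun y _ => (hgm y).pow_const 2),
              lintegral_finset_sum _ fun y _ => (hgm y).pow_const 2]
        _ ≤ (I.card : ENNReal) * ∑ x ∈ I, ENNReal.ofReal (Cd * T ^ ((m : ℝ) + 2 - c)) := by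
            gcongr with x hx
            rw [hgD]
            exact hdiag κ α T Λ (W x) hT64 (hWwn x hx)
        _ = ENNReal.ofReal ((I.card : ℝ) ^ 2 * (Cd * T ^ ((m : ℝ) + 2 - c))) := by
            rw [Finset.sum_const, nsmul_eq_mul, ← ENNReal.ofReal_natCast, ← ENNReal.ofReal_mul (Nat.cast_nonneg _),
              ← ENNReal.ofReal_mul (Nat.cast_nonneg _)]
            congr 1
            ring
        _ ≤ ENNReal.ofReal (66 ^ 2 * Cd * Ca * T ^ (m + 2)) := by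
            refine ENNReal.ofReal_le_ofReal ?_
            have h3 : (lg T ^ ((m + 2) ^ 2)) ^ 2 ≤ Ca * T ^ c := by
              have := hla T hT1
              rwa [show 2 * (((m + 2) ^ 2 : ℕ) : ℝ) = (((m + 2) ^ 2 * 2 : ℕ) : ℝ) by push_cast; ring, Real.rpow_natCast, pow_mul] at this
            have h4 : T ^ c * T ^ ((m : ℝ) + 2 - c) = T ^ (m + 2) := by
              rw [← Real.rpow_add hT0, ← Real.rpow_natCast]
              congr 1
              push_cast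
              ring
            calc (I.card : ℝ) ^ 2 * (Cd * T ^ ((m : ℝ) + 2 - c))
                ≤ (66 * lg T ^ ((m + 2) ^ 2)) ^ 2 * (Cd * T ^ ((m : ℝ) + 2 - c)) := by gcongr
              _ = 66 ^ 2 * Cd * T ^ ((m : ℝ) + 2 - c) * (lg T ^ ((m + 2) ^ 2)) ^ 2 := by ring
              _ ≤ 66 ^ 2 * Cd * T ^ ((m : ℝ) + 2 - c) * (Ca * T ^ c) := by gcongr
              _ = 66 ^ 2 * Cd * Ca * (T ^ c * T ^ ((m : ℝ) + 2 - c)) := by ring
              _ = _ := by rw [h4]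
    have h3 : ∫⁻ _h in Dm ν κ α T, (ENNReal.ofReal (C1 * Λ * T ^ (3 / 4 : ℝ))) ^ 2 ≤
        ENNReal.ofReal ((C1 * Cf) ^ 2 * T ^ (m + 2)) := by
      rw [setLIntegral_const]
      have h6 : C1 * Λ * T ^ (3 / 4 : ℝ) ≤ C1 * Cf * T := by
        have h7 : Λ ≤ Cf * T ^ (1 / 4 : ℝ) := by rw [hΛ]; exact hlf T hT1
        calc C1 * Λ * T ^ (3 / 4 : ℝ) ≤ C1 * (Cf * T ^ (1 / 4 : ℝ)) * T ^ (3 / 4 : ℝ) := by gcongr
          _ = C1 * Cf * (T ^ (1 / 4 : ℝ) * T ^ (3 / 4 : ℝ)) := by ring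
          _ = C1 * Cf * T := by
            rw [← Real.rpow_add hT0]
            norm_num
      calc ENNReal.ofReal (C1 * Λ * T ^ (3 / 4 : ℝ)) ^ 2 * volume (Dm ν κ α T)
          ≤ ENNReal.ofReal (C1 * Cf * T) ^ 2 * ENNReal.ofReal (T ^ m) := by
            gcongr
            exact vol_dm ν κ α T hT0.le
        _ = ENNReal.ofReal ((C1 * Cf) ^ 2 * T ^ (m + 2)) := by
            rw [← ENNReal.ofReal_pow (by positivity), ← ENNReal.ofReal_mul (by positivity)]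
            congr 1
            ring
    calc ∫⁻ h in Dm ν κ α T, (∑ y ∈ I ×ˢ badP m, fL y h + ∑ x ∈ I, gD x h + ENNReal.ofReal (C1 * Λ * T ^ (3 / 4 : ℝ))) ^ 2
        ≤ ∫⁻ h in Dm ν κ α T, 3 * ((∑ y ∈ I ×ˢ badP m, fL y h) ^ 2 + (∑ x ∈ I, gD x h) ^ 2 +
          ENNReal.ofReal (C1 * Λ * T ^ (3 / 4 : ℝ)) ^ 2) := lintegral_mono fun h => sq_add3 _ _ _
      _ = 3 * ((∫⁻ h in Dm ν κ α T, (∑ y ∈ I ×ˢ badP m, fL y h) ^ 2) + (∫⁻ h in Dm ν κ α T, (∑ x ∈ I, gD x h) ^ 2) +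
          (∫⁻ _h in Dm ν κ α T, ENNReal.ofReal (C1 * Λ * T ^ (3 / 4 : ℝ)) ^ 2)) := by
          have e1 : Measurable fun h => (∑ y ∈ I ×ˢ badP m, fL y h) ^ 2 := hfsum.pow_const 2
          have e2 : Measurable fun h => (∑ x ∈ I, gD x h) ^ 2 := hgsum.pow_const 2
          have e3 : Measurable fun h => (∑ y ∈ I ×ˢ badP m, fL y h) ^ 2 + (∑ x ∈ I, gD x h) ^ 2 := e1.add e2
          rw [lintegral_const_mul _ (e3.add_const _), lintegral_add_left e3, lintegral_add_left e1]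
      _ ≤ 3 * (ENNReal.ofReal ((66 * nb) ^ 2 * Cb * T ^ (m + 2)) + ENNReal.ofReal (66 ^ 2 * Cd * Ca * T ^ (m + 2)) +
          ENNReal.ofReal ((C1 * Cf) ^ 2 * T ^ (m + 2))) := by gcongr
      _ = ENNReal.ofReal (CR * T ^ (m + 2)) := by
          rw [← ENNReal.ofReal_add (by positivity) (by positivity), ← ENNReal.ofReal_add (by positivity) (by positivity),
            show (3 : ENNReal) = ENNReal.ofReal 3 by norm_num, ← ENNReal.ofReal_mul (by norm_num), hCR]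
          congr 1
          ring
      _ ≤ ENNReal.ofReal ((Ct + CR) * T ^ (m + 2)) := by
          refine ENNReal.ofReal_le_ofReal ?_
          have : 0 ≤ Ct * T ^ (m + 2) := by positivity
          nlinarith
  · intro h hD
    have hval : ∀ x ∈ I, ‖∫ t, (W x t : ℂ) * (((∏ j, gz (t + xs ν κ α h j) : ℝ) : ℂ) -
        Dg (fun j => t + xs ν κ α h j))‖ₑ ≤ LA ν κ α (ZT (T / 4) (n2 C₀ T)) h + (∑ y ∈ I ×ˢ badP m, fL y h + ∑ x ∈ I, gD x h +
          ENNReal.ofReal (C1 * Λ * T ^ (3 / 4 : ℝ))) := by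
      intro x hx
      have hwn := hWwn x hx
      -- the heights
      have hP : (fun j : Fin (m + 2) => if j = 0 then (0 : Fin 4) else 1) ∈ badP m := by
        unfold badP
        rw [Finset.mem_filter]
        refine ⟨Finset.mem_univ _, ⟨0, ?_⟩, ⟨0, ?_⟩⟩
        · simp
        · simp
      have hwn' := hwn
      rw [hΛ] at hwn'
      obtain ⟨⟨k1, k2, k3⟩, -⟩ := hbad κ α T (W x) _ hTb' hα1 hα2 hwn' hP
      have h1 := hone ν κ α T Λ (n2 C₀ T) (W x) h hT64 hΛ1 hwn hα1 hα2 k1 k2 k3 hD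
      refine h1.trans ?_
      rw [add_assoc, add_assoc]
      refine add_le_add_right ?_ _
      rw [← add_assoc]
      refine add_le_add_left (add_le_add ?_ ?_) _
      · rw [Finset.sum_product]
        refine le_trans ?_ (Finset.single_le_sum (f := fun x => ∑ y ∈ badP m, fL (x, y) h) (fun _ _ => zero_le) hx)
        rw [hfL]
      · refine le_trans ?_ (Finset.single_le_sum (f := fun x => gD x h) (fun _ _ => zero_le) hx)
        rw [hgD]
    refine ⟨?_, ?_⟩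
    · intro i hi
      have h1 := hval (true, i) (hmemI true i hi)
      rw [hWdef] at h1
      rw [← hΔ]
      simpa using h1
    · intro i hi
      have h1 := hval (false, i) (hmemI false i hi)
      rw [hWdef] at h1
      rw [← hΔ]
      simpa using h1

/-- sharp windows: from the smooth windows -/
theorem sharp (m : ℕ) : ∃ C : ℝ, 0 < C ∧ ∀ (ν : Fin (m + 1) → ℝ) (κ α T : ℝ) (h : Fin m → ℝ) (S : ENNReal), 64 ≤ T →
    h ∈ Dm ν κ α T →
    (∀ i : ℕ, i ≤ nn m T → ‖∫ t, (win (T / nn m T) 0 (i * (T / nn m T)) t : ℂ) *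
      (((∏ j, gz (t + xs ν κ α h j) : ℝ) : ℂ) - Dg (fun j => t + xs ν κ α h j))‖ₑ ≤ S) →
    (∀ i : ℕ, i ≤ nn m T → ‖∫ t, (win (T / nn m T) (T / nn m T) (i * (T / nn m T) - T / nn m T) t : ℂ) *
      (((∏ j, gz (t + xs ν κ α h j) : ℝ) : ℂ) - Dg (fun j => t + xs ν κ α h j))‖ₑ ≤ S) →
    ∀ V ∈ Set.Icc 0 T, ‖∫ t in (0:ℝ)..V, (((∏ j, gz (t + xs ν κ α h j) : ℝ) : ℂ) - Dg (fun j => t + xs ν κ α h j))‖ₑ ≤
      2 * S + ENNReal.ofReal (C * T) := by
  obtain ⟨Cg, hCg, hdg⟩ := dg_log (m + 2)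
  refine ⟨Cg, hCg, fun ν κ α T h S hT hD h1 h2 V hV => ?_⟩
  have hT1 : 1 ≤ T := by linarith
  have hT0 : 0 < T := by linarith
  have hL := MeasAux.lg_ge hT1
  by_cases hS : S = ⊤
  · rw [hS]
    simp
  have hF : Continuous fun t : ℝ => ∏ j, gz (t + xs ν κ α h j) :=
    continuous_finsetProd _ fun j _ => gz_cont.comp (by fun_prop)
  have hF0 : ∀ t : ℝ, 0 ≤ ∏ j, gz (t + xs ν κ α h j) := fun t => Finset.prod_nonneg fun j _ => by
    unfold gz
    positivity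
  have hx : ∀ t ∈ Set.Icc (-(T / 8)) (9 * T / 8), ∀ j, 7 * T / 8 ≤ t + xs ν κ α h j ∧ t + xs ν κ α h j ≤ 16 * (7 * T / 8) := by
    intro t ht j
    have h3 := (hD j).1
    have h4 := (hD j).2
    have h5 := ht.1
    have h6 := ht.2
    constructor <;> linarith
  have hDc : ContinuousOn (fun t : ℝ => Dg (fun j => t + xs ν κ α h j)) (Set.Icc (-(T / 8)) (9 * T / 8)) := by
    refine (Dg_continuousOn (m + 2)).comp (f := fun t : ℝ => (fun j => t + xs ν κ α h j)) (by fun_prop) ?_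
    intro t ht j
    have := (hx t ht j).1
    show 0 < t + xs ν κ α h j
    linarith
  have hDb : ∀ t ∈ Set.Icc (-(T / 8)) (9 * T / 8), ‖Dg (fun j => t + xs ν κ α h j)‖ ≤ Cg * lg T ^ ((m + 2) ^ 2) := by
    intro t ht
    have h3 := hdg (7 * T / 8) (fun j => t + xs ν κ α h j) (by linarith) (fun j => (hx t ht j).1) fun j => (hx t ht j).2
    refine h3.trans ?_
    have h4 : Real.log (7 * T / 8) ≤ Real.log T := Real.log_le_log (by linarith) (by linarith)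
    have h5 : 0 ≤ Real.log (7 * T / 8) := Real.log_nonneg (by linarith)
    have h6 : 1 + Real.log (7 * T / 8) ≤ lg T := by
      unfold lg
      linarith
    gcongr
  have e1 : ∀ i : ℕ, i ≤ nn m T → ‖∫ t, (win (T / nn m T) 0 (i * (T / nn m T)) t : ℂ) *
      (((∏ j, gz (t + xs ν κ α h j) : ℝ) : ℂ) - Dg (fun j => t + xs ν κ α h j))‖ ≤ S.toReal := by
    intro i hi
    have := ENNReal.toReal_mono hS (h1 i hi)
    rwa [toReal_enorm] at this
  have e2 : ∀ i : ℕ, i ≤ nn m T → ‖∫ t, (win (T / nn m T) (T / nn m T) (i * (T / nn m T) - T / nn m T) t : ℂ) *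
      (((∏ j, gz (t + xs ν κ α h j) : ℝ) : ℂ) - Dg (fun j => t + xs ν κ α h j))‖ ≤ S.toReal := by
    intro i hi
    have := ENNReal.toReal_mono hS (h2 i hi)
    rwa [toReal_enorm] at this
  have h3 := between hT1 (MeasAux.nn_ge m hT1) hF hF0 hDc hDb e1 e2 V hV
  have h4 : 8 * (T / nn m T) * (Cg * lg T ^ ((m + 2) ^ 2)) ≤ Cg * T := by
    have h5 : 16 * lg T ^ ((m + 2) ^ 2) ≤ (nn m T : ℝ) := by
      unfold nn
      push_cast
      have := Nat.le_ceil (lg T ^ ((m + 2) ^ 2))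
      linarith
    have h6 : (0 : ℝ) < lg T ^ ((m + 2) ^ 2) := by positivity
    have h7 : (0 : ℝ) < nn m T := by linarith
    rw [show 8 * (T / nn m T) * (Cg * lg T ^ ((m + 2) ^ 2)) = (8 * lg T ^ ((m + 2) ^ 2)) * (Cg * T) / nn m T by ring,
      div_le_iff₀ h7, mul_comm]
    have h8 : 0 < Cg * T := by positivity
    nlinarith
  rw [← ofReal_norm]
  calc ENNReal.ofReal ‖∫ t in (0:ℝ)..V, (((∏ j, gz (t + xs ν κ α h j) : ℝ) : ℂ) - Dg (fun j => t + xs ν κ α h j))‖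
      ≤ ENNReal.ofReal (2 * S.toReal + Cg * T) := ENNReal.ofReal_le_ofReal (h3.trans (by linarith))
    _ = 2 * S + ENNReal.ofReal (Cg * T) := by
        rw [ENNReal.ofReal_add (by positivity) (by positivity), ENNReal.ofReal_mul (by norm_num), ENNReal.ofReal_toReal hS]
        norm_num

/-- from the diagonal terms to the main term -/
theorem tomain (m : ℕ) (δ : ℝ) (hδ : 0 < δ) : ∃ C T₀ : ℝ, 0 < C ∧ 64 ≤ T₀ ∧ ∀ (ν : Fin (m + 1) → ℝ) (κ α T : ℝ) (h : Fin m → ℝ),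
    T₀ ≤ T → h ∈ Dm ν κ α T → (∀ i j, i ≠ j → T ^ δ ≤ |xs ν κ α h i - xs ν κ α h j|) →
    ∀ V ∈ Set.Icc 0 T, ‖∫ t in (0:ℝ)..V, (((∏ j, ‖riemannZeta (1 / 2 + ((t + xs ν κ α h j : ℝ) : ℂ) * I)‖ ^ 2 : ℝ) : ℂ) -
        mainTerm (fun j => t + xs ν κ α h j))‖ₑ ≤
      ‖∫ t in (0:ℝ)..V, (((∏ j, gz (t + xs ν κ α h j) : ℝ) : ℂ) - Dg (fun j => t + xs ν κ α h j))‖ₑ +
      ENNReal.ofReal (C * T) := by
  obtain ⟨c, C₁, U₀, hc, hC₁, hU₀, hmp⟩ := main_pt (m + 2) (min δ 1) (lt_min hδ one_pos) (min_le_right _ _)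
  refine ⟨C₁, max 64 U₀, hC₁, le_max_left _ _, fun ν κ α T h hT hD hsep V hV => ?_⟩
  have hT64 : 64 ≤ T := (le_max_left _ _).trans hT
  have hTU : U₀ ≤ T := (le_max_right _ _).trans hT
  have hT0 : 0 < T := by linarith
  have hV0 := hV.1
  have hV1 := hV.2
  obtain ⟨a, ha⟩ : ∃ a : Fin (m + 2) → ℝ, a = xs ν κ α h := ⟨_, rfl⟩
  rw [← ha] at hsep
  rw [← ha]
  have ht : ∀ t ∈ Set.uIcc 0 V, ∀ j, T ≤ t + a j ∧ t + a j ≤ 4 * T := by
    intro t ht j
    rw [Set.uIcc_of_le hV0] at ht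
    have h3 := (hD j).1
    have h4 := (hD j).2
    rw [← ha] at h3 h4
    have h5 := ht.1
    have h6 := ht.2
    constructor <;> linarith
  have hdiff : ∀ (t : ℝ) i j, t + a i - (t + a j) = a i - a j := fun t i j => by ring
  have hsep1 : ∀ i j, i ≠ j → 1 < |a i - a j| := by
    intro i j hij
    exact lt_of_lt_of_le (Real.one_lt_rpow (by linarith) hδ) (hsep i j hij)
  have hcontM : ContinuousOn (fun t : ℝ => mainTerm (fun j => t + a j)) (Set.uIcc 0 V) := by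
    refine (mainTerm_continuousOn (m + 2)).comp (f := fun t : ℝ => (fun j => t + a j)) (by fun_prop) ?_
    intro t ht'
    refine ⟨fun j => ?_, fun i j hij => ?_⟩
    · have := (ht t ht' j).1
      show 0 < t + a j
      linarith
    · simp only
      rw [hdiff]
      exact hsep1 i j hij
  have hcontD : ContinuousOn (fun t : ℝ => Dg (fun j => t + a j)) (Set.uIcc 0 V) := by
    refine (Dg_continuousOn (m + 2)).comp (f := fun t : ℝ => (fun j => t + a j)) (by fun_prop) ?_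
    intro t ht' j
    have := (ht t ht' j).1
    show 0 < t + a j
    linarith
  have hcontZ : Continuous (fun t : ℝ => ((∏ j, gz (t + a j) : ℝ) : ℂ)) := by
    apply Complex.continuous_ofReal.comp
    exact continuous_finsetProd _ fun j _ => gz_cont.comp (by fun_prop)
  have hi1 : IntervalIntegrable (fun t : ℝ => ((∏ j, gz (t + a j) : ℝ) : ℂ) - Dg (fun j => t + a j)) volume 0 V :=
    (hcontZ.continuousOn.sub hcontD).intervalIntegrable
  have hi2 : IntervalIntegrable (fun t : ℝ => Dg (fun j => t + a j) - mainTerm (fun j => t + a j)) volume 0 V :=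
    (hcontD.sub hcontM).intervalIntegrable
  have hsplit : ∫ t in (0:ℝ)..V, (((∏ j, ‖riemannZeta (1 / 2 + ((t + a j : ℝ) : ℂ) * I)‖ ^ 2 : ℝ) : ℂ) -
      mainTerm (fun j => t + a j)) =
      (∫ t in (0:ℝ)..V, (((∏ j, gz (t + a j) : ℝ) : ℂ) - Dg (fun j => t + a j))) +
      ∫ t in (0:ℝ)..V, (Dg (fun j => t + a j) - mainTerm (fun j => t + a j)) := by
    rw [← intervalIntegral.integral_add hi1 hi2]
    refine intervalIntegral.integral_congr fun t _ => ?_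
    show _ - _ = (_ - _) + (_ - _)
    unfold gz
    ring
  have hb2 : ‖∫ t in (0:ℝ)..V, (Dg (fun j => t + a j) - mainTerm (fun j => t + a j))‖ ≤ C₁ * T := by
    have h1 := intervalIntegral.norm_integral_le_of_norm_le_const (a := 0) (b := V) (C := C₁)
      (f := fun t : ℝ => Dg (fun j => t + a j) - mainTerm (fun j => t + a j)) (by
        intro t ht1
        have ht' : t ∈ Set.uIcc 0 V := Set.uIoc_subset_uIcc ht1
        refine (hmp T (fun j => t + a j) hTU (fun j => (ht t ht' j).1) (fun j => (ht t ht' j).2) ?_).trans ?_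
        · intro i j hij
          rw [hdiff]
          refine le_trans ?_ (hsep i j hij)
          exact Real.rpow_le_rpow_of_exponent_le (by linarith) (min_le_left _ _)
        · have h2 : T ^ (-c) ≤ 1 := Real.rpow_le_one_of_one_le_of_nonpos (by linarith) (by linarith)
          nlinarith)
    rw [sub_zero, abs_of_nonneg hV0] at h1
    refine h1.trans ?_
    gcongr
  rw [hsplit]
  refine (enorm_add_le _ _).trans ?_
  gcongr
  rw [← ofReal_norm]
  exact ENNReal.ofReal_le_ofReal hb2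

end L2Aux

open L2Aux

/-- The mean square over the family of the largest remainder of all windows. -/
theorem l2_main {m : ℕ} (hm : 1 ≤ m) (ν : Fin (m + 1) → ℝ) (hν : Adm ν) (δ ε : ℝ) (hδ : 0 < δ) (hε : 0 < ε) :
    ∃ C T₀ : ℝ, 0 < C ∧ 64 ≤ T₀ ∧ ∀ T κ α : ℝ, T₀ ≤ T → T ≤ α → α ≤ 2 * T →
    ∫⁻ h in {h : Fin m → ℝ | (∀ j, T ≤ xs ν κ α h j ∧ xs ν κ α h j ≤ 2 * T) ∧
        ∀ i j, i ≠ j → T ^ δ ≤ |xs ν κ α h i - xs ν κ α h j|},
      (⨆ V ∈ Set.Icc 0 T, ‖∫ t in (0:ℝ)..V, (((∏ j, ‖riemannZeta (1 / 2 + ((t + xs ν κ α h j : ℝ) : ℂ) * I)‖ ^ 2 : ℝ) : ℂ) -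
        mainTerm (fun j => t + xs ν κ α h j))‖ₑ) ^ 2 ≤
      ENNReal.ofReal (C * T ^ (m + 2) * Real.log T ^ ((m : ℝ) + 2 + ε)) := by
  obtain ⟨C₁, T₁, hC₁, hT₁, hw⟩ := windows hm ν hν ε hε
  obtain ⟨C₂, hC₂, hs⟩ := sharp m
  obtain ⟨C₃, T₃, hC₃, hT₃, hmn⟩ := tomain m δ hδ
  refine ⟨3 * (8 * C₁ + (C₂ + C₃) ^ 2) * 2 ^ ((m : ℝ) + 2 + ε), max T₁ T₃, by positivity, hT₁.trans (le_max_left _ _), ?_⟩
  intro T κ α hT hα1 hα2
  have hTT₁ : T₁ ≤ T := (le_max_left _ _).trans hT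
  have hTT₃ : T₃ ≤ T := (le_max_right _ _).trans hT
  have hT64 : 64 ≤ T := hT₁.trans hTT₁
  have hT1 : 1 ≤ T := by linarith
  have hT0 : 0 < T := by linarith
  have hL := MeasAux.lg_ge hT1
  obtain ⟨A, R, hA, hR, hA2, hR2, hAR⟩ := hw κ α T hTT₁ hα1 hα2
  set E : Set (Fin m → ℝ) := {h : Fin m → ℝ | (∀ j, T ≤ xs ν κ α h j ∧ xs ν κ α h j ≤ 2 * T) ∧
        ∀ i j, i ≠ j → T ^ δ ≤ |xs ν κ α h i - xs ν κ α h j|} with hE
  have hEm : MeasurableSet E := by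
    have hc := xs_cont ν κ α
    have hcj : ∀ j, Continuous fun h : Fin m → ℝ => xs ν κ α h j := fun j => (continuous_apply j).comp hc
    refine IsClosed.measurableSet ?_
    rw [hE, Set.setOf_and]
    refine IsClosed.inter ?_ ?_
    · simp only [Set.setOf_forall]
      refine isClosed_iInter fun j => ?_
      rw [Set.setOf_and]
      exact (isClosed_le continuous_const (hcj j)).inter (isClosed_le (hcj j) continuous_const)
    · simp only [Set.setOf_forall]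
      refine isClosed_iInter fun i => isClosed_iInter fun j => isClosed_iInter fun _ => ?_
      exact isClosed_le continuous_const ((hcj i).sub (hcj j)).abs
  have hED : E ⊆ Dm ν κ α T := fun h hh j => ⟨(hh.1 j).1, (hh.1 j).2⟩
  have hpt : ∀ h ∈ E, (⨆ V ∈ Set.Icc 0 T, ‖∫ t in (0:ℝ)..V, (((∏ j, ‖riemannZeta (1 / 2 +
      ((t + xs ν κ α h j : ℝ) : ℂ) * I)‖ ^ 2 : ℝ) : ℂ) - mainTerm (fun j => t + xs ν κ α h j))‖ₑ) ≤
      2 * A h + 2 * R h + ENNReal.ofReal ((C₂ + C₃) * T) := by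
    intro h hh
    refine iSup₂_le fun V hV => ?_
    have h1 := hAR h (hED hh)
    have h2 := hs ν κ α T h (A h + R h) hT64 (hED hh) h1.1 h1.2 V hV
    have h3 := hmn ν κ α T h hTT₃ (hED hh) hh.2 V hV
    refine h3.trans ((add_le_add_left h2 _).trans ?_)
    rw [add_assoc, ← ENNReal.ofReal_add (by positivity) (by positivity), ← add_mul, mul_add]
  have hA4 : Measurable fun h => (2 * A h) ^ 2 := (hA.const_mul 2).pow_const 2
  have hR4 : Measurable fun h => (2 * R h) ^ 2 := (hR.const_mul 2).pow_const 2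
  calc ∫⁻ h in E, (⨆ V ∈ Set.Icc 0 T, ‖∫ t in (0:ℝ)..V, (((∏ j, ‖riemannZeta (1 / 2 +
      ((t + xs ν κ α h j : ℝ) : ℂ) * I)‖ ^ 2 : ℝ) : ℂ) - mainTerm (fun j => t + xs ν κ α h j))‖ₑ) ^ 2
      ≤ ∫⁻ h in E, (2 * A h + 2 * R h + ENNReal.ofReal ((C₂ + C₃) * T)) ^ 2 :=
        setLIntegral_mono' hEm fun h hh => pow_le_pow_left' (hpt h hh) 2
    _ ≤ ∫⁻ h in Dm ν κ α T, (2 * A h + 2 * R h + ENNReal.ofReal ((C₂ + C₃) * T)) ^ 2 := lintegral_mono_set hED
    _ ≤ ∫⁻ h in Dm ν κ α T, 3 * ((2 * A h) ^ 2 + (2 * R h) ^ 2 + ENNReal.ofReal ((C₂ + C₃) * T) ^ 2) :=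
        lintegral_mono fun h => sq_add3 _ _ _
    _ = 3 * ((∫⁻ h in Dm ν κ α T, (2 * A h) ^ 2) + (∫⁻ h in Dm ν κ α T, (2 * R h) ^ 2) +
        (∫⁻ _h in Dm ν κ α T, ENNReal.ofReal ((C₂ + C₃) * T) ^ 2)) := by
        have e3 : Measurable fun h => (2 * A h) ^ 2 + (2 * R h) ^ 2 := hA4.add hR4
        rw [lintegral_const_mul _ (e3.add_const _), lintegral_add_left e3, lintegral_add_left hA4]
    _ ≤ 3 * (ENNReal.ofReal (4 * (C₁ * T ^ (m + 2) * lg T ^ ((m : ℝ) + 2 + ε))) +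
        ENNReal.ofReal (4 * (C₁ * T ^ (m + 2))) + ENNReal.ofReal ((C₂ + C₃) ^ 2 * T ^ (m + 2))) := by
        gcongr
        · simp only [mul_pow]
          rw [lintegral_const_mul _ (hA.pow_const 2), ENNReal.ofReal_mul (by norm_num)]
          refine mul_le_mul' (by norm_num) ?_
          exact (setLIntegral_le_lintegral _ _).trans hA2
        · simp only [mul_pow]
          rw [lintegral_const_mul _ (hR.pow_const 2), ENNReal.ofReal_mul (by norm_num)]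
          exact mul_le_mul' (by norm_num) hR2
        · rw [setLIntegral_const]
          calc ENNReal.ofReal ((C₂ + C₃) * T) ^ 2 * volume (Dm ν κ α T)
              ≤ ENNReal.ofReal ((C₂ + C₃) * T) ^ 2 * ENNReal.ofReal (T ^ m) := by
                gcongr
                exact vol_dm ν κ α T hT0.le
            _ = ENNReal.ofReal ((C₂ + C₃) ^ 2 * T ^ (m + 2)) := by
                rw [← ENNReal.ofReal_pow (by positivity), ← ENNReal.ofReal_mul (by positivity)]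
                congr 1
                ring
    _ = ENNReal.ofReal (3 * (4 * (C₁ * T ^ (m + 2) * lg T ^ ((m : ℝ) + 2 + ε)) + 4 * (C₁ * T ^ (m + 2)) +
        (C₂ + C₃) ^ 2 * T ^ (m + 2))) := by
        rw [← ENNReal.ofReal_add (by positivity) (by positivity), ← ENNReal.ofReal_add (by positivity) (by positivity),
            show (3 : ENNReal) = ENNReal.ofReal 3 by norm_num, ← ENNReal.ofReal_mul (by norm_num)]
    _ ≤ _ := by
        refine ENNReal.ofReal_le_ofReal ?_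
        have hlog : 1 ≤ Real.log T := by
          rw [Real.le_log_iff_exp_le hT0]
          linarith [Real.exp_one_lt_three]
        have h1 : lg T ≤ 2 * Real.log T := by
          unfold lg
          linarith
        have h2 : lg T ^ ((m : ℝ) + 2 + ε) ≤ 2 ^ ((m : ℝ) + 2 + ε) * Real.log T ^ ((m : ℝ) + 2 + ε) := by
          rw [← Real.mul_rpow (by norm_num) (by linarith)]
          exact Real.rpow_le_rpow (by linarith) h1 (by positivity)
        have h3 : 1 ≤ lg T ^ ((m : ℝ) + 2 + ε) := Real.one_le_rpow hL (by positivity)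
        calc 3 * (4 * (C₁ * T ^ (m + 2) * lg T ^ ((m : ℝ) + 2 + ε)) + 4 * (C₁ * T ^ (m + 2)) + (C₂ + C₃) ^ 2 * T ^ (m + 2))
            ≤ 3 * (4 * (C₁ * T ^ (m + 2) * lg T ^ ((m : ℝ) + 2 + ε)) + 4 * (C₁ * T ^ (m + 2)) * lg T ^ ((m : ℝ) + 2 + ε) +
              (C₂ + C₃) ^ 2 * T ^ (m + 2) * lg T ^ ((m : ℝ) + 2 + ε)) := by
              have e1 : 4 * (C₁ * T ^ (m + 2)) ≤ 4 * (C₁ * T ^ (m + 2)) * lg T ^ ((m : ℝ) + 2 + ε) :=
                le_mul_of_one_le_right (by positivity) h3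
              have e2 : (C₂ + C₃) ^ 2 * T ^ (m + 2) ≤ (C₂ + C₃) ^ 2 * T ^ (m + 2) * lg T ^ ((m : ℝ) + 2 + ε) :=
                le_mul_of_one_le_right (by positivity) h3
              linarith
          _ = 3 * (8 * C₁ + (C₂ + C₃) ^ 2) * T ^ (m + 2) * lg T ^ ((m : ℝ) + 2 + ε) := by ring
          _ ≤ 3 * (8 * C₁ + (C₂ + C₃) ^ 2) * T ^ (m + 2) * (2 ^ ((m : ℝ) + 2 + ε) * Real.log T ^ ((m : ℝ) + 2 + ε)) := by
              gcongr
          _ = _ := by ring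

end Pool.Agent.P07318o
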