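import Pool.Agent.Lib.P07318o.DefsM
import Pool.Agent.Lib.P07318h.TailD
import Pool.Agent.Lib.P07318f.FourSep

/-!
# Separation of the variables in the diagonal terms  (1.5 h)

PROOF. By definition (`Dg_eq` of P07318s/Regroup.lean and the definition of `DgY`; compare `TailDAux.dg_sub`): for positive `x`,
`Dg x - DgY Y x = ∑' q, if Bgy Y q then ∏_j tq (q_j) (x_j) else 0` (`lam = 0` and not all `hgt (q j.succ) ≤ Y`; both series converge absolutely: `TailDAux.pt_summable`).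
Choose `ω` from `four_sep δ` for `U`: `‖ω k h‖ ≤ C₀ /(1+k²) kap δ U h`, `∑_k ω k h · ek U k x = Om h x` for `U ≤ x ≤ 16 U` (`ek U k x = cexp(2π i k x/(32U))`). Put `a_k(q) = hgt^(-1/2) ω k (hgt q)` (complex), `‖a_k(q)‖ ≤ C₀ pk k · ww δ U q`.
For every `q`: `tq (q_j) (x_j) = ∑_k a_k(q_j) ek U k (x_j) ex (x_j) (q_j)`, absolutely; `hasSum_pi_prod` (P07318s/PiSum.lean): `∏_j tq (q_j)(x_j) = ∑_{k : Fin (n+1) → ℤ} ∏_j a_{k_j}(q_j) ek U k_j (x_j) ex (x_j)(q_j)`.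
Double series over `(k, q)`: absolutely convergent, `∑_k ∏ C₀ pk(k_j) · ∑_q ∏ ww(q_j) < ∞` (`LongPartAux.pk_summable`, `summable_pi_prod_real`; `∑_q ww δ U q < ∞`), so the order may be interchanged (`Summable.tsum_comm`), and `∏_j ek U k_j (x_j)` (modulus one)
comes out of the `q`-sum: `Dg x - DgY Y x = ∑_k (∏_j ek U k_j (x_j)) SY Y (fun j => a_{k_j}) x`. Take norms.
-/

set_option autoImplicit false

namespace Pool.Agent.P07318o

open MeasureTheory Complex Pool.Agent.P07318s Pool.Agent.P07318f Pool.Agent.P07318h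

namespace SepKAux

open TailDAux

theorem dg_sub_big {n : ℕ} (Y : ℝ) (x : Fin (n + 1) → ℝ) (hx : ∀ j, 0 < x j) :
    Dg x - DgY Y x = PS (Bgy Y) x := by
  have h1 : Dg x = PS (fun q => lam (fun j => (q j).1) = 0) x := by
    rw [Dg_eq x hx]
    unfold PS pt
    refine tsum_congr fun q => ?_
    by_cases h : lam (fun j => (q j).1) = 0
    · rw [if_pos h, if_pos h]
      rfl
    · rw [if_neg h, if_neg h]
  have h2 : DgY Y x = PS (fun q => lam (fun j => (q j).1) = 0 ∧ ∀ j : Fin n, hgt (q j.succ).1 ≤ Y) x := by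
    unfold DgY PS pt
    refine tsum_congr fun q => ?_
    by_cases h : lam (fun j => (q j).1) = 0 ∧ ∀ j : Fin n, hgt (q j.succ).1 ≤ Y
    · rw [if_pos h, if_pos h]
      rfl
    · rw [if_neg h, if_neg h]
  rw [h1, h2]
  unfold PS
  rw [← (pt_summable _ x hx).tsum_sub (pt_summable _ x hx)]
  refine tsum_congr fun q => ?_
  unfold pt Bgy One
  by_cases h0 : lam (fun j => (q j).1) = 0
  · by_cases h3 : ∀ j : Fin n, hgt (q j.succ).1 ≤ Y
    · rw [if_pos h0, if_pos ⟨h0, h3⟩, sub_self, if_neg]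
      rintro ⟨_, j, hj⟩
      exact absurd hj (not_lt.2 (h3 j))
    · rw [if_pos h0, if_neg (fun h => h3 h.2), sub_zero, if_pos]
      push Not at h3
      exact ⟨h0, h3⟩
  · rw [if_neg h0, if_neg (fun h => h0 h.1), sub_self, if_neg (fun h => h0 h.1)]

open Classical in
/-- the terms of the double series -/
noncomputable def FF {n : ℕ} (U Y : ℝ) (ω : ℤ → ℝ → ℂ) (x : Fin (n + 1) → ℝ)
    (z : (Fin (n + 1) → Q) × (Fin (n + 1) → ℤ)) : ℂ :=
  if Bgy Y z.1 then ∏ j, (LongPartAux.co 0 ω (z.2 j) (z.1 j) * (ek U (z.2 j) (x j) * ex (x j) (z.1 j).1)) else 0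

theorem FF_norm {n : ℕ} {δ U Y C : ℝ} {ω : ℤ → ℝ → ℂ} (hC : 0 ≤ C) (hU : 0 ≤ U)
    (hω : ∀ (k : ℤ) (h : ℝ), 1 ≤ h → ‖ω k h‖ ≤ C / (1 + (k : ℝ) ^ 2) * kap δ U h) (x : Fin (n + 1) → ℝ)
    (z : (Fin (n + 1) → Q) × (Fin (n + 1) → ℤ)) :
    ‖FF U Y ω x z‖ ≤ (∏ j, ww δ U (z.1 j)) * ∏ j, (C * pk (z.2 j)) := by
  have h0 : 0 ≤ (∏ j, ww δ U (z.1 j)) * ∏ j, (C * pk (z.2 j)) :=
    mul_nonneg (Finset.prod_nonneg fun j _ => ww_nonneg hU _)
      (Finset.prod_nonneg fun j _ => mul_nonneg hC (pk_pos _).le)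
  unfold FF
  split_ifs
  · rw [norm_prod, ← Finset.prod_mul_distrib]
    refine Finset.prod_le_prod (fun j _ => norm_nonneg _) fun j _ => ?_
    rw [norm_mul, norm_mul, norm_ek, norm_ex, mul_one, mul_one]
    refine (LongPartAux.co_norm hC hU hω (z.2 j) (z.1 j)).trans (le_of_eq ?_)
    show C * pk (z.2 j) * ww δ U (z.1 j) = ww δ U (z.1 j) * (C * pk (z.2 j))
    ring
  · rw [norm_zero]
    exact h0

theorem mulN {α β : Type*} (f : α → ℝ) (g : β → ℝ) (hf : Summable f) (hg : Summable g) (hf0 : ∀ a, 0 ≤ f a)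
    (hg0 : ∀ b, 0 ≤ g b) : Summable (fun z : α × β => f z.1 * g z.2) :=
  hf.mul_of_nonneg hg hf0 hg0

theorem FF_summable {n : ℕ} {δ U Y C : ℝ} {ω : ℤ → ℝ → ℂ} (hδ : 0 < δ) (hδ2 : δ ≤ 1 / 2) (hC : 0 ≤ C) (hU : 1 ≤ U)
    (hω : ∀ (k : ℤ) (h : ℝ), 1 ≤ h → ‖ω k h‖ ≤ C / (1 + (k : ℝ) ^ 2) * kap δ U h) (x : Fin (n + 1) → ℝ) :
    Summable (FF (n := n) U Y ω x) := by
  have hU0 : 0 ≤ U := by linarith
  have h1 : Summable (fun z : (Fin (n + 1) → Q) × (Fin (n + 1) → ℤ) =>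
      (∏ j, ww δ U (z.1 j)) * ∏ j, (C * pk (z.2 j))) := by
    have a1 : Summable (fun q : Fin (n + 1) → Q => ∏ j, ww δ U (q j)) :=
      summable_pi_prod_real (fun _ q => ww δ U q) (fun _ => ww_summable hδ hδ2 hU) (fun _ q => ww_nonneg hU0 q)
    have hp : Summable (fun k : ℤ => C * pk k) := LongPartAux.pk_summable.mul_left C
    have a2 : Summable (fun k : Fin (n + 1) → ℤ => ∏ j, (C * pk (k j))) :=
      summable_pi_prod_real (fun _ k => C * pk k) (fun _ => hp) (fun _ k => mul_nonneg hC (pk_pos k).le)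
    have a3 : ∀ q : Fin (n + 1) → Q, 0 ≤ ∏ j, ww δ U (q j) := fun q => Finset.prod_nonneg fun j _ => ww_nonneg hU0 _
    have a4 : ∀ k : Fin (n + 1) → ℤ, 0 ≤ ∏ j, (C * pk (k j)) :=
      fun k => Finset.prod_nonneg fun j _ => mul_nonneg hC (pk_pos _).le
    exact mulN (fun q : Fin (n + 1) → Q => ∏ j, ww δ U (q j)) (fun k : Fin (n + 1) → ℤ => ∏ j, (C * pk (k j)))
      a1 a2 a3 a4
  exact Summable.of_norm_bounded h1 fun z => FF_norm hC hU0 hω x z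

theorem one_hasSum {U x : ℝ} {ω : ℤ → ℝ → ℂ}
    (hs : ∀ h : ℝ, 1 ≤ h → HasSum (fun k : ℤ => ω k h * ek U k x) (Om h x : ℂ)) (q : Q) :
    HasSum (fun k : ℤ => LongPartAux.co 0 ω k q * (ek U k x * ex x q.1)) (tm x q) := by
  unfold LongPartAux.co tm
  simp only [hgt_pos q.1, if_true]
  have h1 := ((hs (hgt q.1) (one_le_hgt q.1)).mul_left
    (((hgt q.1) ^ (-(1 / 2) : ℝ) : ℝ) : ℂ)).mul_right (ex x q.1)
  have h2 : (((hgt q.1) ^ (-(1 / 2) : ℝ) * Om (hgt q.1) x : ℝ) : ℂ) * ex x q.1 =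
      (((hgt q.1) ^ (-(1 / 2) : ℝ) : ℝ) : ℂ) * (Om (hgt q.1) x : ℂ) * ex x q.1 := by
    push_cast
    ring
  rw [h2]
  refine h1.congr_fun ?_
  intro k
  ring

theorem fib {n : ℕ} {δ U Y C : ℝ} {ω : ℤ → ℝ → ℂ} (hC : 0 ≤ C) (hU : 0 ≤ U)
    (hω : ∀ (k : ℤ) (h : ℝ), 1 ≤ h → ‖ω k h‖ ≤ C / (1 + (k : ℝ) ^ 2) * kap δ U h) (x : Fin (n + 1) → ℝ)
    (hs : ∀ j, ∀ h : ℝ, 1 ≤ h → HasSum (fun k : ℤ => ω k h * ek U k (x j)) (Om h (x j) : ℂ))
    (q : Fin (n + 1) → Q) : HasSum (fun k : Fin (n + 1) → ℤ => FF U Y ω x (q, k)) (pt (Bgy Y) x q) := by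
  unfold FF pt
  by_cases h : Bgy Y q
  · simp only [if_pos h]
    have h1 := hasSum_pi_prod (fun (j : Fin (n + 1)) (k : ℤ) =>
      LongPartAux.co 0 ω k (q j) * (ek U k (x j) * ex (x j) (q j).1)) (fun j => by
        refine Summable.of_nonneg_of_le (fun k => norm_nonneg _) (fun k => ?_)
          (LongPartAux.pk_summable.mul_left (C * ww δ U (q j)))
        rw [norm_mul, norm_mul, norm_ek, norm_ex, mul_one, mul_one]
        refine (LongPartAux.co_norm hC hU hω k (q j)).trans (le_of_eq ?_)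
        ring)
    have h2 : ∏ j, tm (x j) (q j) = ∏ j, ∑' k : ℤ, LongPartAux.co 0 ω k (q j) * (ek U k (x j) * ex (x j) (q j).1) := by
      refine Finset.prod_congr rfl fun j _ => ?_
      exact (one_hasSum (hs j) (q j)).tsum_eq.symm
    rw [h2]
    exact h1
  · simp only [if_neg h]
    exact hasSum_zero

theorem FF_eq {n : ℕ} {U Y : ℝ} {ω : ℤ → ℝ → ℂ} (x : Fin (n + 1) → ℝ) (k : Fin (n + 1) → ℤ) :
    ∑' q, FF U Y ω x (q, k) = (∏ j, ek U (k j) (x j)) * SY Y (fun j => LongPartAux.co 0 ω (k j)) x := by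
  unfold SY
  rw [← tsum_mul_left]
  refine tsum_congr fun q => ?_
  unfold FF
  by_cases h : Bgy Y q
  · simp only [if_pos h]
    rw [← Finset.prod_mul_distrib]
    refine Finset.prod_congr rfl fun j _ => ?_
    ring
  · simp only [if_neg h, mul_zero]

end SepKAux

open SepKAux TailDAux in
theorem sep_k (n : ℕ) (δ : ℝ) (hδ : 0 < δ) (hδ2 : δ ≤ 1 / 2) : ∃ C : ℝ, 0 < C ∧ ∀ U : ℝ, 1 ≤ U →
    ∃ a : ℤ → Q → ℂ, (∀ k q, ‖a k q‖ ≤ C * pk k * ww δ U q) ∧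
      ∀ (Y : ℝ) (x : Fin (n + 1) → ℝ), (∀ j, U ≤ x j) → (∀ j, x j ≤ 16 * U) →
        ‖DgY Y x - Dg x‖ₑ ≤ ∑' k : Fin (n + 1) → ℤ, ‖SY Y (fun j => a (k j)) x‖ₑ := by
  obtain ⟨C, hC, hfs⟩ := four_sep δ hδ hδ2
  refine ⟨C, hC, fun U hU => ?_⟩
  have hU0 : 0 ≤ U := by linarith
  obtain ⟨ω, hω1, hω2⟩ := hfs U hU
  refine ⟨fun k q => LongPartAux.co 0 ω k q, fun k q => LongPartAux.co_norm hC.le hU0 hω1 k q, fun Y x hx1 hx2 => ?_⟩
  have hpos : ∀ j, 0 < x j := fun j => by linarith [hx1 j]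
  have hs : ∀ j, ∀ h : ℝ, 1 ≤ h → HasSum (fun k : ℤ => ω k h * ek U k (x j)) (Om h (x j) : ℂ) :=
    fun j h hh => hω2 h hh (x j) (hx1 j) (hx2 j)
  have hsum := FF_summable (n := n) (Y := Y) hδ hδ2 hC.le hU hω1 x
  have h1 : Dg x - DgY Y x = ∑' z, FF U Y ω x z := by
    rw [dg_sub_big Y x hpos]
    exact (hsum.hasSum.prod_fiberwise (fib hC.le hU0 hω1 x hs)).tsum_eq
  have h2 : ∑' z, FF U Y ω x z = ∑' k : Fin (n + 1) → ℤ, ∑' q, FF U Y ω x (q, k) := by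
    rw [hsum.tsum_prod]
    have hs' : Summable (Function.uncurry fun (q : Fin (n + 1) → Q) (k : Fin (n + 1) → ℤ) => FF U Y ω x (q, k)) :=
      hsum.congr fun z => rfl
    exact hs'.tsum_comm.symm
  have h3 : ‖DgY Y x - Dg x‖ₑ = ‖Dg x - DgY Y x‖ₑ := by
    rw [← enorm_neg]
    congr 1
    ring
  rw [h3, h1, h2]
  refine enorm_tsum_le_tsum_enorm.trans (ENNReal.tsum_le_tsum fun k => ?_)
  rw [FF_eq, enorm_mul]
  have h4 : ‖∏ j, ek U (k j) (x j)‖ₑ = 1 := by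
    rw [← ofReal_norm, norm_prod, Finset.prod_congr rfl fun j _ => norm_ek U (k j) (x j), Finset.prod_const_one,
      ENNReal.ofReal_one]
  rw [h4, one_mul]

end Pool.Agent.P07318o
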