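import Pool.Agent.Lib.P07318o.Defs
import Pool.Agent.Lib.P07318o.CoreMS
import Pool.Agent.Lib.P07318o.SepK

/-!
# The diagonal terms with a large height, in mean square over the hyperplane  (1.5 h)

PROOF. `δ = d/(16(m+2))` (`≤ 1/2`), `U = 7T/8 ≥ 1`, `Y = T^d ≥ 1`. For `h ∈ Dm ν κ α T` and `-(T/8) ≤ t ≤ 9T/8` the heights `x_j = t + xs ν κ α h j` lie in `[7T/8, 25T/8] ⊆ [U, 16U]`. `sep_k (m+1) δ` at `U` gives `a`; on `Dm`:
`‖D‖ₑ ≤ ∑_k ‖S_k‖ₑ`, `S_k(h) = SY Y (fun j => a (k j)) (..)`. Put `w_k = ofReal (∏_j pk (k_j))`, `W = ∑_k w_k = (∑ pk)^(m+2) < ∞` (`tsum_pi_prod_ennreal`), `0 < w_k < ∞`. Cauchy-Schwarz for series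
(`ENNReal.inner_le_Lp_mul_Lq_tsum`-type lemma, or for finite sums and a limit): `(∑_k ‖S_k‖ₑ)² ≤ W ∑_k w_k⁻¹ ‖S_k‖ₑ²`. Integrate over `Dm` (`lintegral_tsum`, measurability: `S_k` is a continuous function of `h` -
uniformly convergent series, or prove the inequality with `lintegral_const_mul'` and note `AEMeasurable` of `h ↦ ‖SY ..‖ₑ` from `continuous_tsum` with the bound `∏ ww`): `∫ ‖S_k‖² ≤ ofReal (C (∏_j C₀ pk(k_j))² T^(m + 3(m+2)δ) Y^(-1/2))` (`core_ms`, `A_j = C₀ pk (k_j)`), so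
`∫ ‖D‖² ≤ W ∑_k w_k⁻¹ w_k² · C C₀^(2(m+2)) T^(m+3(m+2)δ) T^(-d/2) = W² C C₀^(2(m+2)) T^(m + 3d/16 - d/2) ≤ C' T^(m - d/4)`. `c = d/4`.
-/

set_option autoImplicit false

namespace Pool.Agent.P07318o

open MeasureTheory Complex Pool.Agent.P07318s Pool.Agent.P07318f Pool.Agent.P07318h

namespace MainMSAux

/-- Cauchy-Schwarz for series -/
theorem cs_tsum {ι : Type*} (w f : ι → ENNReal) (h0 : ∀ i, w i ≠ 0) (h1 : ∀ i, w i ≠ ⊤) :
    (∑' i, f i) ^ 2 ≤ (∑' i, w i) * ∑' i, (w i)⁻¹ * f i ^ 2 := by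
  have key : ∀ s : Finset ι, (∑ i ∈ s, f i) ^ 2 ≤ (∑' i, w i) * ∑' i, (w i)⁻¹ * f i ^ 2 := by
    intro s
    have h2 := ENNReal.inner_le_Lp_mul_Lq s (fun i => (w i) ^ (1 / 2 : ℝ))
      (fun i => (w i) ^ (-(1 / 2) : ℝ) * f i) Real.HolderConjugate.two_two
    have e1 : ∀ i, (w i) ^ (1 / 2 : ℝ) * ((w i) ^ (-(1 / 2) : ℝ) * f i) = f i := by
      intro i
      rw [← mul_assoc, ← ENNReal.rpow_add _ _ (h0 i) (h1 i), add_neg_cancel, ENNReal.rpow_zero, one_mul]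
    have e2 : ∀ i, ((w i) ^ (1 / 2 : ℝ)) ^ (2 : ℝ) = w i := by
      intro i
      rw [← ENNReal.rpow_mul]
      norm_num
    have e3 : ∀ i, ((w i) ^ (-(1 / 2) : ℝ) * f i) ^ (2 : ℝ) = (w i)⁻¹ * f i ^ 2 := by
      intro i
      rw [ENNReal.mul_rpow_of_nonneg _ _ (by norm_num), ← ENNReal.rpow_mul, ENNReal.rpow_two]
      norm_num [ENNReal.rpow_neg_one]
    simp only [e1, e2, e3] at h2
    calc (∑ i ∈ s, f i) ^ 2 ≤ ((∑ i ∈ s, w i) ^ (1 / 2 : ℝ) * (∑ i ∈ s, (w i)⁻¹ * f i ^ 2) ^ (1 / 2 : ℝ)) ^ 2 := by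
          gcongr
      _ = (∑ i ∈ s, w i) * ∑ i ∈ s, (w i)⁻¹ * f i ^ 2 := by
          rw [mul_pow, ← ENNReal.rpow_natCast, ← ENNReal.rpow_natCast, ← ENNReal.rpow_mul, ← ENNReal.rpow_mul]
          norm_num
      _ ≤ _ := by
          gcongr
          · exact ENNReal.sum_le_tsum s
          · exact ENNReal.sum_le_tsum s
  have h3 : Filter.Tendsto (fun s : Finset ι => (∑ i ∈ s, f i) ^ 2) Filter.atTop (nhds ((∑' i, f i) ^ 2)) :=
    (ENNReal.continuous_pow 2).continuousAt.tendsto.comp ENNReal.summable.hasSum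
  exact le_of_tendsto' h3 key

lemma ex_cont (p : ℕ+ × ℕ+) : Continuous fun x => ex x p := by
  unfold ex
  fun_prop

/-- the diagonal sum is a continuous function of the shifts -/
theorem sy_cont {m : ℕ} (ν : Fin (m + 1) → ℝ) (κ α t Y U δ : ℝ) (hδ : 0 < δ) (hδ2 : δ ≤ 1 / 2) (hU : 1 ≤ U)
    (a : Fin (m + 2) → Q → ℂ) (A : Fin (m + 2) → ℝ) (hA : ∀ j, 0 ≤ A j)
    (ha : ∀ j q, ‖a j q‖ ≤ A j * ww δ U q) :
    Continuous fun h : Fin m → ℝ => SY Y a (fun j => t + xs ν κ α h j) := by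
  classical
  unfold SY
  have hs : Summable fun q : Fin (m + 2) → Q => ∏ j, (A j * ww δ U (q j)) :=
    summable_pi_prod_real (fun j q => A j * ww δ U q) (fun j => (ww_summable hδ hδ2 hU).mul_left _)
      (fun j q => mul_nonneg (hA j) (ww_nonneg (by linarith) q))
  refine continuous_tsum (fun q => ?_) hs (fun q h => ?_)
  · by_cases hq : Bgy Y q
    · simp only [if_pos hq]
      refine continuous_finset_prod _ fun j _ => continuous_const.mul ?_
      exact (ex_cont _).comp (continuous_const.add ((continuous_apply j).comp (xs_cont ν κ α)))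
    · simp only [if_neg hq]
      exact continuous_const
  · by_cases hq : Bgy Y q
    · rw [if_pos hq, norm_prod]
      refine Finset.prod_le_prod (fun j _ => norm_nonneg _) fun j _ => ?_
      rw [norm_mul, norm_ex, mul_one]
      exact ha j (q j)
    · rw [if_neg hq, norm_zero]
      exact Finset.prod_nonneg fun j _ => mul_nonneg (hA j) (ww_nonneg (by linarith) _)

end MainMSAux

open MainMSAux in
theorem main_ms {m : ℕ} (hm : 1 ≤ m) (ν : Fin (m + 1) → ℝ) (hν : Adm ν) (d : ℝ) (hd : 0 < d) (hd1 : d ≤ 1 / 20) :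
    ∃ c C : ℝ, 0 < c ∧ 0 < C ∧ ∀ κ α T t : ℝ, 64 ≤ T → -(T / 8) ≤ t → t ≤ 9 * T / 8 →
    ∫⁻ h in Dm ν κ α T, ‖DgY (T ^ d) (fun j => t + xs ν κ α h j) - Dg (fun j => t + xs ν κ α h j)‖ₑ ^ 2 ≤
      ENNReal.ofReal (C * T ^ ((m : ℝ) - c)) := by
  have hm2 : (0 : ℝ) < (m : ℝ) + 2 := by positivity
  obtain ⟨δ, hδdef⟩ : ∃ δ : ℝ, δ = d / (16 * ((m : ℝ) + 2)) := ⟨_, rfl⟩
  have hδ : 0 < δ := by rw [hδdef]; positivity
  have hδ2 : δ ≤ 1 / 2 := by
    rw [hδdef, div_le_iff₀ (by positivity)]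
    nlinarith
  have hδ3 : 3 * ((m : ℝ) + 2) * δ = 3 * d / 16 := by
    rw [hδdef]
    field_simp
  obtain ⟨C₀, hC₀, hsep⟩ := sep_k (m + 1) δ hδ hδ2
  obtain ⟨C₁, hC₁, hcore⟩ := core_ms hm ν hν δ hδ hδ2
  have hpk : Summable pk := LongPartAux.pk_summable
  obtain ⟨S, hSdef⟩ : ∃ S : ℝ, S = ∑' k, pk k := ⟨_, rfl⟩
  have hS : 0 < S := by
    rw [hSdef]
    exact hpk.tsum_pos (fun k => (pk_pos k).le) 0 (pk_pos 0)
  refine ⟨d / 4, C₁ * (C₀ ^ (m + 2)) ^ 2 * (S ^ (m + 2)) ^ 2, by positivity, by positivity, ?_⟩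
  intro κ α T t hT ht1 ht2
  obtain ⟨U, hUdef⟩ : ∃ U : ℝ, U = 7 * T / 8 := ⟨_, rfl⟩
  have hU1 : 1 ≤ U := by rw [hUdef]; linarith
  have hUT : U ≤ T := by rw [hUdef]; linarith
  have hT1 : 1 ≤ T := by linarith
  have hY1 : 1 ≤ T ^ d := Real.one_le_rpow hT1 hd.le
  obtain ⟨a, ha, hdec⟩ := hsep U hU1
  -- the weights
  obtain ⟨P, hPdef⟩ : ∃ P : (Fin (m + 2) → ℤ) → ℝ, P = fun k => ∏ j, pk (k j) := ⟨_, rfl⟩
  have hP : ∀ k, 0 < P k := fun k => by
    rw [hPdef]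
    exact Finset.prod_pos fun j _ => pk_pos _
  have hW : ∑' k, ENNReal.ofReal (P k) = ENNReal.ofReal (S ^ (m + 2)) := by
    have h1 : ∀ k : Fin (m + 2) → ℤ, ENNReal.ofReal (P k) = ∏ j, ENNReal.ofReal (pk (k j)) := by
      intro k
      rw [hPdef]
      exact ENNReal.ofReal_prod_of_nonneg fun j _ => (pk_pos _).le
    rw [tsum_congr h1, tsum_pi_prod_ennreal (fun (_ : Fin (m + 2)) (l : ℤ) => ENNReal.ofReal (pk l)),
      Finset.prod_const, Finset.card_univ, Fintype.card_fin,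
      ← ENNReal.ofReal_tsum_of_nonneg (fun k => (pk_pos k).le) hpk, ← hSdef, ENNReal.ofReal_pow hS.le]
  have hA0 : ∀ (k : Fin (m + 2) → ℤ) (j : Fin (m + 2)), 0 ≤ C₀ * pk (k j) := fun k j =>
    mul_nonneg hC₀.le (pk_pos _).le
  have hcont : ∀ k : Fin (m + 2) → ℤ,
      Continuous fun h : Fin m → ℝ => SY (T ^ d) (fun j => a (k j)) (fun j => t + xs ν κ α h j) :=
    fun k => sy_cont ν κ α t (T ^ d) U δ hδ hδ2 hU1 (fun j => a (k j)) (fun j => C₀ * pk (k j)) (hA0 k)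
      (fun j q => ha (k j) q)
  -- the mean square of one term
  obtain ⟨R, hRdef⟩ : ∃ R : ℝ, R = C₁ * (C₀ ^ (m + 2)) ^ 2 * T ^ ((m : ℝ) - d / 4) := ⟨_, rfl⟩
  have hR : 0 ≤ R := by rw [hRdef]; positivity
  have hone : ∀ k : Fin (m + 2) → ℤ,
      ∫⁻ h in Dm ν κ α T, ‖SY (T ^ d) (fun j => a (k j)) (fun j => t + xs ν κ α h j)‖ₑ ^ 2 ≤
        ENNReal.ofReal (R * P k ^ 2) := by
    intro k
    refine (hcore κ α T U (T ^ d) t (fun j => a (k j)) (fun j => C₀ * pk (k j)) hU1 hUT hY1 (hA0 k)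
      (fun j q => ha (k j) q)).trans (ENNReal.ofReal_le_ofReal ?_)
    have h1 : ∏ j : Fin (m + 2), (C₀ * pk (k j)) = C₀ ^ (m + 2) * P k := by
      rw [Finset.prod_mul_distrib, Finset.prod_const, Finset.card_univ, Fintype.card_fin, hPdef]
    have h2 : T ^ ((m : ℝ) + 3 * (m + 2) * δ) * (T ^ d) ^ (-(1 / 2) : ℝ) ≤ T ^ ((m : ℝ) - d / 4) := by
      rw [← Real.rpow_mul (by linarith), ← Real.rpow_add (by linarith), hδ3]
      refine Real.rpow_le_rpow_of_exponent_le hT1 ?_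
      linarith
    rw [h1, hRdef]
    calc C₁ * (C₀ ^ (m + 2) * P k) ^ 2 * T ^ ((m : ℝ) + 3 * (m + 2) * δ) * (T ^ d) ^ (-(1 / 2) : ℝ)
        = C₁ * (C₀ ^ (m + 2)) ^ 2 * P k ^ 2 *
          (T ^ ((m : ℝ) + 3 * (m + 2) * δ) * (T ^ d) ^ (-(1 / 2) : ℝ)) := by ring
      _ ≤ C₁ * (C₀ ^ (m + 2)) ^ 2 * P k ^ 2 * T ^ ((m : ℝ) - d / 4) := by
          gcongr
      _ = _ := by ring
  -- the decomposition
  have hDm : MeasurableSet (Dm ν κ α T) := by
    have h1 : Dm ν κ α T = ⋂ j, (fun h => xs ν κ α h j) ⁻¹' Set.Icc T (2 * T) := by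
      ext h
      simp [Dm]
    rw [h1]
    exact MeasurableSet.iInter fun j =>
      measurableSet_Icc.preimage ((continuous_apply j).comp (xs_cont ν κ α)).measurable
  calc ∫⁻ h in Dm ν κ α T, ‖DgY (T ^ d) (fun j => t + xs ν κ α h j) - Dg (fun j => t + xs ν κ α h j)‖ₑ ^ 2
      ≤ ∫⁻ h in Dm ν κ α T, ENNReal.ofReal (S ^ (m + 2)) * ∑' k : Fin (m + 2) → ℤ,
          (ENNReal.ofReal (P k))⁻¹ *
            ‖SY (T ^ d) (fun j => a (k j)) (fun j => t + xs ν κ α h j)‖ₑ ^ 2 := by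
        refine setLIntegral_mono' hDm fun h hh => ?_
        have h1 := hdec (T ^ d) (fun j => t + xs ν κ α h j)
          (fun j => by have := (hh j).1; rw [hUdef]; linarith)
          (fun j => by have := (hh j).2; rw [hUdef]; linarith)
        have h2 := cs_tsum (fun k : Fin (m + 2) → ℤ => ENNReal.ofReal (P k))
          (fun k => ‖SY (T ^ d) (fun j => a (k j)) (fun j => t + xs ν κ α h j)‖ₑ)
          (fun k => by
            rw [Ne, ENNReal.ofReal_eq_zero, not_le]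
            exact hP k) (fun k => ENNReal.ofReal_ne_top)
        rw [hW] at h2
        exact (pow_le_pow_left' h1 2).trans h2
    _ = ENNReal.ofReal (S ^ (m + 2)) * ∑' k : Fin (m + 2) → ℤ, (ENNReal.ofReal (P k))⁻¹ *
          ∫⁻ h in Dm ν κ α T, ‖SY (T ^ d) (fun j => a (k j)) (fun j => t + xs ν κ α h j)‖ₑ ^ 2 := by
        rw [lintegral_const_mul' _ _ ENNReal.ofReal_ne_top, lintegral_tsum]
        · congr 1
          refine tsum_congr fun k => ?_
          rw [lintegral_const_mul' _ _ ?_]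
          rw [Ne, ENNReal.inv_eq_top, ENNReal.ofReal_eq_zero, not_le]
          exact hP k
        · intro k
          refine AEMeasurable.const_mul ?_ _
          exact ((hcont k).enorm.measurable.pow_const 2).aemeasurable
    _ ≤ ENNReal.ofReal (S ^ (m + 2)) * ∑' k : Fin (m + 2) → ℤ, ENNReal.ofReal R * ENNReal.ofReal (P k) := by
        refine mul_le_mul' le_rfl (ENNReal.tsum_le_tsum fun k => ?_)
        calc _ ≤ (ENNReal.ofReal (P k))⁻¹ * ENNReal.ofReal (R * P k ^ 2) :=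
              mul_le_mul' le_rfl (hone k)
          _ = ENNReal.ofReal R * ENNReal.ofReal (P k) := by
              rw [← ENNReal.ofReal_inv_of_pos (hP k), ← ENNReal.ofReal_mul (by have := hP k; positivity),
                ← ENNReal.ofReal_mul hR]
              congr 1
              have := (hP k).ne'
              field_simp
    _ = ENNReal.ofReal (C₁ * (C₀ ^ (m + 2)) ^ 2 * (S ^ (m + 2)) ^ 2 * T ^ ((m : ℝ) - d / 4)) := by
        rw [ENNReal.tsum_mul_left, hW, ← ENNReal.ofReal_mul hR, ← ENNReal.ofReal_mul (by positivity)]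
        congr 1
        rw [hRdef]
        ring

end Pool.Agent.P07318o
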