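import Pool.Agent.Lib.P07318o.Defs
import Pool.Agent.Lib.P07318h.ShortP
import Pool.Agent.Lib.P07318h.TailD

/-!
# All slots but the first with small heights, smooth weight  (1.5 h)

PROOF. Put `f t = gz (t + x 0) ∏_{j : Fin (m+1)} bd 0 Y (t + x j.succ) - DgY Y (fun j => t + x j)`, `U = 7T/16`. `fdSmall_eq` and `fS_eq`: `bd 0 Y y = FdSmall Y y = fS Y y` for `y ≥ 1`; `sh α h t = fun j => t + cons α h j`.
(1) For `-T/8 ≤ v ≤ 3T/4`: `‖∫_{-T/8}^v f‖ ≤ C T^(3/4)`: `short_p (m+1)` (P07318h/ShortP.lean) with `U`, `α = x 0 - T/8`, `h j = x j.succ - T/8`, `V = v + T/8 ≤ 7T/8 = 2U` (substitution `t = s - T/8`): `2U = 7T/8 ≤ x j - T/8 ≤ 15T/8 ≤ 6U = 21T/8`, and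
`Y^(m+1) ≤ T^(1/20) ≤ U^(1/16)` (as `T ≥ 64`: `U = 7T/16 ≥ T^(4/5)`, since `T^(1/5) ≥ 64^(1/5) = 2.297 ≥ 16/7 = 2.286`), `U ≤ T`.
(2) For `3T/4 ≤ v ≤ 9T/8`: `‖∫_{3T/4}^v f‖ ≤ C T^(3/4)`: `short_p (m+1)` with `U' = 7T/8`, `α = x 0 + 3T/4`, `h j = x j.succ + 3T/4`, `V = v - 3T/4 ≤ 3T/8 ≤ 2U'`: `2U' = 7T/4 ≤ x j + 3T/4 ≤ 11T/4 ≤ 6U'`.
So `F v = ∫_{-T/8}^v f` satisfies `‖F v‖ ≤ 2 C T^(3/4)` on `[-T/8, 9T/8]`, `F(-T/8) = 0`.
(3) `w` vanishes outside `[-T/8, 9T/8]`, hence (continuity) at the end points too: `∫ w f = ∫_{-T/8}^{9T/8} w f = [w F] - ∫_{-T/8}^{9T/8} w' F`, the boundary terms vanish, `‖..‖ ≤ (5T/4) (Λ/T) 2C T^(3/4) ≤ 3 C Λ T^(3/4)`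
(`intervalIntegral.integral_mul_deriv_eq_deriv_mul`; `f` must be continuous on `[-T/8, 9T/8]` for `F' = f`: `gz` is, `bd` is a finite sum of continuous functions on `y > 0` (`Om` is continuous in `x > 0`), `DgY` is continuous on positive arguments
(`TailDAux.ps_cont` of P07318h/TailD.lean). If you prefer not to use the continuity: write `w t = ∫_{-T/8}^t w'`, Fubini: `∫ w f = ∫ w'(v) (∫_v^{9T/8} f) dv` needs only the integrability of `f` on the bounded interval, and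
`∫_v^{9T/8} f = F(9T/8) - F(v)`.)
-/

set_option autoImplicit false

namespace Pool.Agent.P07318o

open MeasureTheory Complex Pool.Agent.P07318s Pool.Agent.P07318f Pool.Agent.P07318h

namespace SmallWAux

/-- the condition on the terms of the diagonal sum -/
def Pd (n : ℕ) (Y : ℝ) (q : Fin (n + 1) → Q) : Prop :=
  lam (fun j => (q j).1) = 0 ∧ ∀ j : Fin n, hgt (q j.succ).1 ≤ Y

theorem dgY_eq {n : ℕ} (Y : ℝ) (x : Fin (n + 1) → ℝ) : DgY Y x = TailDAux.PS (Pd n Y) x := by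
  unfold DgY TailDAux.PS TailDAux.pt TailDAux.tm
  refine tsum_congr fun q => ?_
  by_cases h : lam (fun j => (q j).1) = 0 ∧ ∀ j : Fin n, hgt (q j.succ).1 ≤ Y
  · have h' : Pd n Y q := h
    rw [if_pos h, if_pos h']
  · have h' : ¬ Pd n Y q := h
    rw [if_neg h, if_neg h']

/-- the continuous version of the integrand -/
noncomputable def ff (m : ℕ) (Y : ℝ) (x : Fin (m + 2) → ℝ) (t : ℝ) : ℂ :=
  (gz (t + x 0) : ℂ) * (∏ j : Fin (m + 1), fS Y (t + x j.succ)) -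
    TailDAux.PS (Pd (m + 1) Y) (fun j => max (t + x j) 1)

theorem ff_cont (m : ℕ) (Y : ℝ) (x : Fin (m + 2) → ℝ) : Continuous (ff m Y x) := by
  unfold ff
  refine Continuous.sub (Continuous.mul ?_ ?_) ?_
  · exact Complex.continuous_ofReal.comp (gz_cont.comp (continuous_id.add continuous_const))
  · exact continuous_finsetProd _ fun j _ => (fS_cont Y).comp (continuous_id.add continuous_const)
  · refine (TailDAux.ps_cont (Pd (m + 1) Y)).comp_continuous ?_ ?_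
    · exact continuous_pi fun j => (continuous_id.add continuous_const).max continuous_const
    · intro t j
      exact lt_of_lt_of_le one_pos (le_max_right _ _)

theorem ff_eq {m : ℕ} {Y : ℝ} {x : Fin (m + 2) → ℝ} {t : ℝ} (h : ∀ j, 1 ≤ t + x j) :
    ff m Y x t = (gz (t + x 0) : ℂ) * (∏ j : Fin (m + 1), fS Y (t + x j.succ)) -
      DgY Y (fun j => t + x j) := by
  unfold ff
  rw [dgY_eq]
  congr 2
  funext j
  exact max_eq_left (h j)

theorem pow_U {T U : ℝ} (hT : 64 ≤ T) (hU : 7 * T / 16 ≤ U) : T ^ (1 / 20 : ℝ) ≤ U ^ (1 / 16 : ℝ) := by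
  have hT0 : 0 < T := by linarith
  have h1 : (16 / 7 : ℝ) ≤ T ^ (1 / 5 : ℝ) := by
    have h2 : ((16 / 7 : ℝ) ^ (5 : ℕ)) ^ (1 / 5 : ℝ) = 16 / 7 := by
      rw [← Real.rpow_natCast, ← Real.rpow_mul (by norm_num)]
      norm_num
    rw [← h2]
    apply Real.rpow_le_rpow (by norm_num) _ (by norm_num)
    refine le_trans ?_ hT
    norm_num
  have h3 : T ^ (4 / 5 : ℝ) * T ^ (1 / 5 : ℝ) = T := by
    rw [← Real.rpow_add hT0]
    norm_num
  have h4 : T ^ (4 / 5 : ℝ) ≤ U := by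
    have h5 : 0 < T ^ (4 / 5 : ℝ) := Real.rpow_pos_of_pos hT0 _
    nlinarith
  have h6 : T ^ (1 / 20 : ℝ) = (T ^ (4 / 5 : ℝ)) ^ (1 / 16 : ℝ) := by
    rw [← Real.rpow_mul hT0.le]
    norm_num
  rw [h6]
  exact Real.rpow_le_rpow (Real.rpow_nonneg hT0.le _) h4 (by norm_num)

theorem seg {m : ℕ} {C : ℝ} (hC : 0 < C)
    (hS : ∀ (U Y V α : ℝ) (h : Fin (m + 1) → ℝ), 1 ≤ U → 1 ≤ Y → Y ^ (m + 1) ≤ U ^ (1 / 16 : ℝ) →
    2 * U ≤ α → α ≤ 6 * U → (∀ j, 2 * U ≤ h j) → (∀ j, h j ≤ 6 * U) → 0 ≤ V → V ≤ 2 * U →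
    ‖∫ t in (0:ℝ)..V, ((gz (t + α) : ℂ) * (∏ j, fS Y (t + h j)) - DgY Y (sh α h t))‖ ≤
      C * U ^ (3 / 4 : ℝ))
    {T Y : ℝ} {x : Fin (m + 2) → ℝ} (hT : 64 ≤ T) (hY : 1 ≤ Y)
    (hYT : Y ^ (m + 1) ≤ T ^ (1 / 20 : ℝ)) {d U V : ℝ} (hU : 7 * T / 16 ≤ U) (hUT : U ≤ T)
    (h1 : ∀ j, 2 * U ≤ x j + d) (h2 : ∀ j, x j + d ≤ 6 * U) (hV : 0 ≤ V) (hV2 : V ≤ 2 * U) :
    ‖∫ t in d..(V + d), ff m Y x t‖ ≤ C * T ^ (3 / 4 : ℝ) := by
  have hT0 : 0 < T := by linarith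
  have hU1 : 1 ≤ U := by linarith
  have h3 := hS U Y V (x 0 + d) (fun j => x j.succ + d) hU1 hY (hYT.trans (pow_U hT hU)) (h1 0) (h2 0)
    (fun j => h1 j.succ) (fun j => h2 j.succ) hV hV2
  have h4 : ∫ t in d..(V + d), ff m Y x t = ∫ t in (0:ℝ)..V, ((gz (t + (x 0 + d)) : ℂ) *
      (∏ j : Fin (m + 1), fS Y (t + (x j.succ + d))) - DgY Y (sh (x 0 + d) (fun j => x j.succ + d) t)) := by
    have h5 := intervalIntegral.integral_comp_add_right (a := 0) (b := V) (ff m Y x) d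
    rw [zero_add] at h5
    rw [← h5]
    apply intervalIntegral.integral_congr
    intro t ht
    rw [Set.uIcc_of_le hV] at ht
    have h6 : ∀ j, 1 ≤ t + d + x j := by
      intro j
      have := h1 j
      have := ht.1
      linarith
    simp only
    rw [ff_eq h6]
    have e1 : ∀ y, t + d + y = t + (y + d) := fun y => by ring
    simp only [e1]
    congr 2
    unfold sh
    funext j
    refine Fin.cases ?_ (fun i => ?_) j
    · rw [Fin.cons_zero]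
    · rw [Fin.cons_succ]
  rw [h4]
  refine h3.trans ?_
  apply mul_le_mul_of_nonneg_left _ hC.le
  exact Real.rpow_le_rpow (by linarith) hUT (by norm_num)

theorem F_bd {m : ℕ} {C : ℝ} (hC : 0 < C)
    (hS : ∀ (U Y V α : ℝ) (h : Fin (m + 1) → ℝ), 1 ≤ U → 1 ≤ Y → Y ^ (m + 1) ≤ U ^ (1 / 16 : ℝ) →
    2 * U ≤ α → α ≤ 6 * U → (∀ j, 2 * U ≤ h j) → (∀ j, h j ≤ 6 * U) → 0 ≤ V → V ≤ 2 * U →
    ‖∫ t in (0:ℝ)..V, ((gz (t + α) : ℂ) * (∏ j, fS Y (t + h j)) - DgY Y (sh α h t))‖ ≤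
      C * U ^ (3 / 4 : ℝ))
    {T Y : ℝ} {x : Fin (m + 2) → ℝ} (hT : 64 ≤ T) (hY : 1 ≤ Y)
    (hYT : Y ^ (m + 1) ≤ T ^ (1 / 20 : ℝ)) (hx1 : ∀ j, T ≤ x j) (hx2 : ∀ j, x j ≤ 2 * T)
    {v : ℝ} (hv1 : -(T / 8) ≤ v) (hv2 : v ≤ 9 * T / 8) :
    ‖∫ t in (-(T / 8))..v, ff m Y x t‖ ≤ 2 * C * T ^ (3 / 4 : ℝ) := by
  have hT0 : 0 < T := by linarith
  have hp : 0 < T ^ (3 / 4 : ℝ) := Real.rpow_pos_of_pos hT0 _
  have s1 : ∀ v : ℝ, -(T / 8) ≤ v → v ≤ 3 * T / 4 →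
      ‖∫ t in (-(T / 8))..v, ff m Y x t‖ ≤ C * T ^ (3 / 4 : ℝ) := by
    intro v h1 h2
    have h3 := seg (x := x) hC hS hT hY hYT (d := -(T / 8)) (U := 7 * T / 16) (V := v + T / 8) le_rfl
      (by linarith) (fun j => by have := hx1 j; linarith) (fun j => by have := hx2 j; linarith)
      (by linarith) (by linarith)
    have e : v + T / 8 + -(T / 8) = v := by ring
    rwa [e] at h3
  by_cases hc : v ≤ 3 * T / 4
  · refine (s1 v hv1 hc).trans ?_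
    nlinarith
  · rw [not_le] at hc
    have h3 := seg (x := x) hC hS hT hY hYT (d := 3 * T / 4) (U := 7 * T / 8) (V := v - 3 * T / 4)
      (by linarith) (by linarith) (fun j => by have := hx1 j; linarith)
      (fun j => by have := hx2 j; linarith) (by linarith) (by linarith)
    have e : v - 3 * T / 4 + 3 * T / 4 = v := by ring
    rw [e] at h3
    have h4 := s1 (3 * T / 4) (by linarith) le_rfl
    have h5 := intervalIntegral.integral_add_adjacent_intervals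
      ((ff_cont m Y x).intervalIntegrable (-(T / 8)) (3 * T / 4))
      ((ff_cont m Y x).intervalIntegrable (μ := volume) (3 * T / 4) v)
    rw [← h5]
    refine (norm_add_le _ _).trans ?_
    linarith

end SmallWAux

open SmallWAux in
theorem small_w (m : ℕ) : ∃ C : ℝ, 0 < C ∧ ∀ (T Y Λ : ℝ) (x : Fin (m + 2) → ℝ) (w : ℝ → ℝ), 64 ≤ T → 1 ≤ Λ → 1 ≤ Y →
    Y ^ (m + 1) ≤ T ^ (1 / 20 : ℝ) → (∀ j, T ≤ x j) → (∀ j, x j ≤ 2 * T) → ContDiff ℝ 2 w → (∀ t, 0 ≤ w t) → (∀ t, w t ≤ 1) →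
    (∀ t, |deriv w t| ≤ Λ / T) → (∀ t, t ∉ Set.Icc (-(T / 8)) (9 * T / 8) → w t = 0) →
    ‖∫ t, (w t : ℂ) * ((gz (t + x 0) : ℂ) * (∏ j : Fin (m + 1), bd 0 Y (t + x j.succ)) - DgY Y (fun j => t + x j))‖ ≤
      C * Λ * T ^ (3 / 4 : ℝ) := by
  obtain ⟨C, hC, hS⟩ := short_p (m + 1)
  refine ⟨3 * C, by positivity, ?_⟩
  intro T Y Λ x w hT hΛ hY hYT hx1 hx2 hw _ _ hw' hw0
  have hT0 : 0 < T := by linarith
  have hp : 0 < T ^ (3 / 4 : ℝ) := Real.rpow_pos_of_pos hT0 _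
  have hab : -(T / 8) ≤ 9 * T / 8 := by linarith
  have hwd : Differentiable ℝ w := hw.differentiable (by norm_num)
  have hwb : w (9 * T / 8) = 0 := by
    have h1 : Set.EqOn w (fun _ => 0) (Set.Ioi (9 * T / 8)) := by
      intro t ht
      apply hw0
      intro h2
      exact absurd h2.2 (not_le.2 ht)
    have h2 := h1.closure hw.continuous continuous_const
    rw [closure_Ioi] at h2
    exact h2 (Set.mem_Ici.2 le_rfl)
  have e1 : ∫ t, (w t : ℂ) * ((gz (t + x 0) : ℂ) * (∏ j : Fin (m + 1), bd 0 Y (t + x j.succ)) -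
      DgY Y (fun j => t + x j)) = ∫ t in (-(T / 8))..(9 * T / 8), (w t : ℂ) * ff m Y x t := by
    rw [intervalIntegral.integral_of_le hab, ← integral_Icc_eq_integral_Ioc,
      ← setIntegral_eq_integral_of_forall_compl_eq_zero (s := Set.Icc (-(T / 8)) (9 * T / 8))]
    · apply setIntegral_congr_fun measurableSet_Icc
      intro t ht
      simp only
      have h1 : ∀ j, 1 ≤ t + x j := by
        intro j
        have h2 := hx1 j
        have h3 := ht.1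
        linarith
      rw [ff_eq h1]
      congr 3
      refine Finset.prod_congr rfl fun j _ => ?_
      rw [fS_eq (h1 j.succ), fdSmall_eq]
    · intro t ht
      rw [hw0 t ht, Complex.ofReal_zero, zero_mul]
  rw [e1]
  have hw2 : Continuous (deriv w) := hw.continuous_deriv (by norm_num)
  have hF : ∀ v : ℝ, HasDerivAt (fun v => ∫ t in (-(T / 8))..v, ff m Y x t) (ff m Y x v) v :=
    fun v => (ff_cont m Y x).integral_hasStrictDerivAt (-(T / 8)) v |>.hasDerivAt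
  have hip := intervalIntegral.integral_mul_deriv_eq_deriv_mul (a := -(T / 8)) (b := 9 * T / 8)
    (u := fun t => (w t : ℂ)) (v := fun v => ∫ t in (-(T / 8))..v, ff m Y x t)
    (u' := fun t => ((deriv w t : ℝ) : ℂ)) (v' := ff m Y x)
    (fun t _ => (hwd t).hasDerivAt.ofReal_comp) (fun t _ => hF t)
    ((Complex.continuous_ofReal.comp hw2).intervalIntegrable _ _)
    ((ff_cont m Y x).intervalIntegrable _ _)
  rw [hip]
  simp only [hwb, intervalIntegral.integral_same, Complex.ofReal_zero, zero_mul, mul_zero, sub_zero,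
    zero_sub, norm_neg]
  have hb := intervalIntegral.norm_integral_le_of_norm_le_const (a := -(T / 8)) (b := 9 * T / 8)
    (C := Λ / T * (2 * C * T ^ (3 / 4 : ℝ)))
    (f := fun t => ((deriv w t : ℝ) : ℂ) * ∫ t in (-(T / 8))..t, ff m Y x t) (by
      intro t ht
      rw [Set.uIoc_of_le hab] at ht
      rw [norm_mul, Complex.norm_real, Real.norm_eq_abs]
      exact mul_le_mul (hw' t) (F_bd hC hS hT hY hYT hx1 hx2 ht.1.le ht.2) (norm_nonneg _)
        (by positivity))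
  refine hb.trans ?_
  have e2 : |9 * T / 8 - -(T / 8)| = 5 * T / 4 := by
    rw [abs_of_nonneg (by linarith)]
    ring
  rw [e2]
  have e3 : Λ / T * (2 * C * T ^ (3 / 4 : ℝ)) * (5 * T / 4) = 5 / 2 * (C * Λ * T ^ (3 / 4 : ℝ)) := by
    field_simp
    ring
  rw [e3]
  have h9 : 0 < C * Λ * T ^ (3 / 4 : ℝ) := by positivity
  linarith

end Pool.Agent.P07318o
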