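import Pool.Agent.Lib.P07318o.Pat
import Pool.Agent.Lib.P07318o.SmallW
import Pool.Agent.Lib.P07318o.LLcut
import Pool.Agent.Lib.P07318o.DiagB
import Pool.Agent.Lib.P07318h.TailD

/-!
# One window, pointwise in the shifts

PROOF. `U = T/4`, `x = xs ν κ α h`, `h ∈ Dm`, `A = n1 m T`. `∫ w(t) (∏_j gz (t + x_j) - Dg (t + x)) = [LL ZG h - LL ZS h] + [∫ w (gz(t + x_0) ∏_{j ≥ 1} bd 0 A (t + x_j) - DgY A (t + x))] + ∫ w (DgY A (t+x) - Dg (t+x))`, since `LL ZG h = ∫ w ∏ gz` and `LL ZS h = ∫ w gz(t + x_0) ∏_{j≥1} bd 0 A (t + x_j)` by `ll_cut`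
(`Fin.prod_univ_succ`). First bracket: `pat`; second: `small_w` (`Y = n1 m T`, `Y^(m+1) = T^(dd (m+1)) ≤ T^(1/20)`, all `x_j ∈ [T, 2T]`): `≤ C Λ T^(3/4)`. Integrability of the three integrands: `w` has compact support and is continuous, `gz`, `bd 0 A` are continuous on `(0, ∞)` (`bd_contOn`), `Dg` is continuous on positive vectors
(`Dg_continuousOn`), `DgY` is continuous too, or measurable and bounded (`dgy_meas`; `‖DgY Y x‖ ≤ ..`): if integrability of the `DgY` term is inconvenient: it is a `tsum` with the summable majorant used in ShortP.lean/Core.lean (`dgy_int` of P07318h/Core.lean gives interval integrability of `DgY Y (sh α h t)`).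
-/

set_option autoImplicit false

namespace Pool.Agent.P07318o

open MeasureTheory Complex Pool.Agent.P07318s Pool.Agent.P07318f Pool.Agent.P07318h

namespace OneWAux

theorem dgy_contOn {n : ℕ} (Y : ℝ) : ContinuousOn (fun x : Fin (n + 1) → ℝ => DgY Y x) {x | ∀ j, 0 < x j} := by
  have h : (fun x : Fin (n + 1) → ℝ => DgY Y x) =
      TailDAux.PS (fun q => lam (fun j => (q j).1) = 0 ∧ ∀ j : Fin n, hgt (q j.succ).1 ≤ Y) := by
    funext x
    unfold DgY TailDAux.PS TailDAux.pt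
    refine tsum_congr fun q => ?_
    by_cases h : lam (fun j => (q j).1) = 0 ∧ ∀ j : Fin n, hgt (q j.succ).1 ≤ Y
    · rw [if_pos h, if_pos h]
      rfl
    · rw [if_neg h, if_neg h]
  rw [h]
  exact TailDAux.ps_cont _

theorem int_w {T Λ : ℝ} {w : ℝ → ℝ} (hw : Wn T Λ w) {F : ℝ → ℂ}
    (hF : ContinuousOn F (Set.Icc (-(T / 8)) (9 * T / 8))) : Integrable fun t => (w t : ℂ) * F t := by
  have h1 : IntegrableOn (fun t => (w t : ℂ) * F t) (Set.Icc (-(T / 8)) (9 * T / 8)) :=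
    ((Complex.continuous_ofReal.comp hw.smooth.continuous).continuousOn.mul hF).integrableOn_Icc
  rw [← integrableOn_iff_integrable_of_support_subset (s := Set.Icc (-(T / 8)) (9 * T / 8))]
  · exact h1
  · intro t ht
    by_contra hc
    apply ht
    show (w t : ℂ) * F t = 0
    rw [hw.supp t hc, Complex.ofReal_zero, zero_mul]

theorem n1_pow (m : ℕ) {T : ℝ} (hT : 1 ≤ T) : n1 m T ^ (m + 1) ≤ T ^ (1 / 20 : ℝ) := by
  have hT0 : 0 ≤ T := by linarith
  unfold n1
  rw [← Real.rpow_natCast, ← Real.rpow_mul hT0]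
  refine Real.rpow_le_rpow_of_exponent_le hT ?_
  unfold dd
  have hm : (0 : ℝ) ≤ m := Nat.cast_nonneg m
  rw [div_mul_eq_mul_div, one_mul, div_le_div_iff₀ (by positivity) (by norm_num)]
  push_cast
  nlinarith

theorem split {f1 f2 f3 f4 : ℝ → ℂ} {w : ℝ → ℝ} (h1 : Integrable fun t => (w t : ℂ) * f1 t)
    (h2 : Integrable fun t => (w t : ℂ) * f2 t) (h3 : Integrable fun t => (w t : ℂ) * f3 t)
    (h4 : Integrable fun t => (w t : ℂ) * f4 t) :
    (∫ t, (w t : ℂ) * (f1 t - f4 t)) = ((∫ t, (w t : ℂ) * f1 t) - ∫ t, (w t : ℂ) * f2 t) +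
      (∫ t, (w t : ℂ) * (f3 t - f4 t)) + ∫ t, (w t : ℂ) * (f2 t - f3 t) := by
  simp only [mul_sub]
  rw [integral_sub h1 h4, integral_sub h3 h4, integral_sub h2 h3]
  ring

end OneWAux

theorem one_w {m : ℕ} : ∃ C : ℝ, 0 < C ∧ ∀ (ν : Fin (m + 1) → ℝ) (κ α T Λ B : ℝ) (w : ℝ → ℝ) (h : Fin m → ℝ), 64 ≤ T → 1 ≤ Λ → Wn T Λ w →
    T ≤ α → α ≤ 2 * T → 1 ≤ n1 m T → n1 m T ≤ B → B ≤ (T / 4) ^ 2 → h ∈ Dm ν κ α T →
    ‖∫ t, (w t : ℂ) * (((∏ j, gz (t + xs ν κ α h j) : ℝ) : ℂ) - Dg (fun j => t + xs ν κ α h j))‖ₑ ≤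
      LA ν κ α (ZT (T / 4) B) h + ∑ P ∈ badP m, ‖LL ν κ α (ZP (T / 4) α (n1 m T) B w P) h‖ₑ +
      ‖∫ t, (w t : ℂ) * (DgY (n1 m T) (fun j => t + xs ν κ α h j) - Dg (fun j => t + xs ν κ α h j))‖ₑ +
      ENNReal.ofReal (C * Λ * T ^ (3 / 4 : ℝ)) := by
  obtain ⟨C, hC, hsm⟩ := small_w m
  refine ⟨C, hC, ?_⟩
  intro ν κ α T Λ B w h hT hΛ hw hα1 hα2 hn1 hnB hB hh
  have hT0 : 0 < T := by linarith
  have hx : ∀ j, xs ν κ α h j ∈ Set.Icc T (2 * T) := hh
  have hpos : ∀ t ∈ Set.Icc (-(T / 8)) (9 * T / 8), ∀ j, 0 < t + xs ν κ α h j := by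
    intro t ht j
    have h1 := (hx j).1
    have h2 := ht.1
    linarith
  have hcx : Continuous fun t : ℝ => fun j => t + xs ν κ α h j :=
    continuous_pi fun j => continuous_id.add continuous_const
  have c1 : ContinuousOn (fun t => ((∏ j, gz (t + xs ν κ α h j) : ℝ) : ℂ)) (Set.Icc (-(T / 8)) (9 * T / 8)) := by
    refine (Complex.continuous_ofReal.comp ?_).continuousOn
    exact continuous_finsetProd _ fun j _ => gz_cont.comp (continuous_id.add continuous_const)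
  have c2 : ContinuousOn (fun t => (gz (t + xs ν κ α h 0) : ℂ) *
      (∏ j : Fin (m + 1), bd 0 (n1 m T) (t + xs ν κ α h j.succ))) (Set.Icc (-(T / 8)) (9 * T / 8)) := by
    refine ContinuousOn.mul ?_ ?_
    · exact (Complex.continuous_ofReal.comp (gz_cont.comp (continuous_id.add continuous_const))).continuousOn
    · refine continuousOn_finsetProd _ fun j _ => ?_
      refine (bd_contOn 0 (n1 m T)).comp (continuous_id.add continuous_const).continuousOn ?_
      intro t ht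
      exact hpos t ht j.succ
  have c3 : ContinuousOn (fun t => DgY (n1 m T) (fun j => t + xs ν κ α h j)) (Set.Icc (-(T / 8)) (9 * T / 8)) :=
    (OneWAux.dgy_contOn (n1 m T)).comp hcx.continuousOn hpos
  have c4 : ContinuousOn (fun t => Dg (fun j => t + xs ν κ α h j)) (Set.Icc (-(T / 8)) (9 * T / 8)) :=
    (Dg_continuousOn (m + 2)).comp hcx.continuousOn hpos
  have e1 : LL ν κ α (ZG (T / 4) α w) h = ∫ t, (w t : ℂ) * ((∏ j, gz (t + xs ν κ α h j) : ℝ) : ℂ) := by
    have := ll_cut ν κ α T Λ w (by linarith) hw h hh (fun _ y => (gz y : ℂ))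
    unfold ZG
    rw [this]
    refine integral_congr_ae (Filter.Eventually.of_forall fun t => ?_)
    simp only [Complex.ofReal_prod]
  have e2 : LL ν κ α (ZS (T / 4) α (n1 m T) w) h = ∫ t, (w t : ℂ) * ((gz (t + xs ν κ α h 0) : ℂ) *
      (∏ j : Fin (m + 1), bd 0 (n1 m T) (t + xs ν κ α h j.succ))) := by
    have := ll_cut ν κ α T Λ w (by linarith) hw h hh
      (fun j => if j = 0 then fun y => (gz y : ℂ) else bd 0 (n1 m T))
    unfold ZS
    rw [this]
    refine integral_congr_ae (Filter.Eventually.of_forall fun t => ?_)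
    simp only [Fin.prod_univ_succ (n := m + 1), if_true, Fin.succ_ne_zero, if_false]
  have hsplit := OneWAux.split (OneWAux.int_w hw c1) (OneWAux.int_w hw c2) (OneWAux.int_w hw c3) (OneWAux.int_w hw c4)
  rw [← e1, ← e2] at hsplit
  rw [hsplit]
  refine (enorm_add_le _ _).trans (add_le_add ((enorm_add_le _ _).trans (add_le_add ?_ le_rfl)) ?_)
  · exact pat ν κ α T Λ (n1 m T) B w (by linarith) hw hα1 hα2 (by linarith) hnB hB h
  · have h5 := hsm T (n1 m T) Λ (xs ν κ α h) w hT hΛ hn1 (OneWAux.n1_pow m (by linarith)) (fun j => (hx j).1)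
      (fun j => (hx j).2) hw.smooth hw.nonneg hw.le_one hw.d1 hw.supp
    rw [← ofReal_norm]
    exact ENNReal.ofReal_le_ofReal h5

end Pool.Agent.P07318o
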