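import Pool.Agent.Lib.P07318o.Defs
import Pool.Agent.Lib.P07318s.Final

/-!
# The shift vectors with a small difference  (1.5 h)

PROOF. `Dm ν κ α T ⊆ Icc (fun _ => T) (fun _ => T + T)` (coordinates `j.succ.castSucc`, `xs_succ`). Union over the finitely many pairs `i ≠ j`, wlog `i < j`; the difference is `xs h i - xs h j = c₀ + ∑_r c_r h_r` with a vector `c = c(i, j, ν) ≠ 0` :
 * `i = 0`, `j = r.succ.castSucc`: `α - h_r`, `c_r = -1`;
 * `i = r.succ.castSucc`, `j = r'.succ.castSucc`: `h_r - h_r'`, `c_r = 1`;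
 * `i = 0`, `j = last`: `α - lst`, `c_r = -ν_{r.succ} ≠ 0` for every `r : Fin m` (`m ≥ 1`);
 * `i = r.succ.castSucc`, `j = last`: `c_r = 1 - ν_{r.succ}`, `c_r' = -ν_{r'.succ}` for `r' ≠ r`. If `m ≥ 2` some `r' ≠ r` has `c_r' ≠ 0`; if `m = 1`: `1 - ν_1 = ν_0 ≠ 0` (`∑ ν = 1`).
Fix `r` with `c_r ≠ 0`; for fixed other coordinates the set of the `h_r` is contained in an interval of length `2D/|c_r|`, so by `FinalAux.fub` (P07318s/Final.lean; see `SepMAux.key`, `SepMAux.pair` of P07318h/SepM.lean for exactly this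
computation with `c_r = ±1`; `fub` allows any real factor `s`) the measure is `≤ (2D/|c_r|) T^(m-1)`. Write `m = n + 1` (`m ≥ 1`) to use `Fin.insertNth`, `r.succAbove`. Sum over the pairs: `C = ∑_{i≠j} 2/|c_r|`.
-/

set_option autoImplicit false

namespace Pool.Agent.P07318o

open MeasureTheory Complex Pool.Agent.P07318s Pool.Agent.P07318f Pool.Agent.P07318h

namespace SepDmAux

open FinalAux

/-- the coefficient vectors of the slots -/
noncomputable def av {m : ℕ} (ν : Fin (m + 1) → ℝ) : Fin (m + 2) → (Fin m → ℝ) :=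
  Fin.snoc (α := fun _ => Fin m → ℝ) (Fin.cons 0 (fun r => Pi.single r 1) : Fin (m + 1) → (Fin m → ℝ))
    (fun r => ν r.succ)

/-- the constants of the slots -/
noncomputable def kv {m : ℕ} (ν : Fin (m + 1) → ℝ) (κ α : ℝ) : Fin (m + 2) → ℝ :=
  Fin.snoc (α := fun _ => ℝ) (Fin.cons α (fun _ => 0) : Fin (m + 1) → ℝ) (κ + ν 0 * α)

theorem xs_aff {m : ℕ} (ν : Fin (m + 1) → ℝ) (κ α : ℝ) (h : Fin m → ℝ) (i : Fin (m + 2)) :
    xs ν κ α h i = kv ν κ α i + ∑ r, av ν i r * h r := by
  refine Fin.lastCases ?_ (fun i => ?_) i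
  · rw [xs_last]
    unfold lst kv av
    rw [Fin.snoc_last, Fin.snoc_last, Fin.sum_univ_succ]
    simp only [Fin.cons_zero, Fin.cons_succ]
    ring
  · refine Fin.cases ?_ (fun r => ?_) i
    · rw [show xs ν κ α h (Fin.castSucc 0) = α from xs_zero ν κ α h]
      unfold kv av
      rw [Fin.snoc_castSucc, Fin.snoc_castSucc]
      simp
    · rw [xs_succ]
      unfold kv av
      rw [Fin.snoc_castSucc, Fin.snoc_castSucc]
      simp [Pi.single_apply]

theorem av_ne {m : ℕ} (hm : 1 ≤ m) {ν : Fin (m + 1) → ℝ} (hν : Adm ν) {i j : Fin (m + 2)} (hij : i ≠ j) :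
    av ν i ≠ av ν j := by
  have hl : ∀ i : Fin (m + 1), av ν i.castSucc ≠ av ν (Fin.last (m + 1)) := by
    intro i h
    have h2 : ∀ r, (Fin.cons 0 (fun r => Pi.single r 1) : Fin (m + 1) → (Fin m → ℝ)) i r = ν r.succ := by
      intro r
      have := congrFun h r
      unfold av at this
      rwa [Fin.snoc_castSucc, Fin.snoc_last] at this
    revert h2
    refine Fin.cases ?_ (fun r => ?_) i
    · intro h2
      have h3 := h2 ⟨0, hm⟩
      simp only [Fin.cons_zero, Pi.zero_apply] at h3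
      exact hν.1 _ h3.symm
    · intro h2
      simp only [Fin.cons_succ] at h2
      have h3 : ∑ r' : Fin m, ν r'.succ = 1 := by
        rw [← Finset.sum_congr rfl fun r' _ => h2 r']
        simp [Pi.single_apply]
      have h4 := hν.2
      rw [Fin.sum_univ_succ, h3] at h4
      exact hν.1 0 (by linarith)
  have hc : ∀ i j : Fin (m + 1), i ≠ j → av ν i.castSucc ≠ av ν j.castSucc := by
    intro i j hij h
    unfold av at h
    rw [Fin.snoc_castSucc, Fin.snoc_castSucc] at h
    have hs : ∀ (r : Fin m), (Pi.single r (1 : ℝ) : Fin m → ℝ) ≠ 0 := by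
      intro r h'
      have := congrFun h' r
      simp at this
    revert h hij
    refine Fin.cases ?_ (fun r => ?_) i <;> refine Fin.cases ?_ (fun r' => ?_) j
    · intro hij
      exact absurd rfl hij
    · intro _ h
      rw [Fin.cons_zero, Fin.cons_succ] at h
      exact hs r' h.symm
    · intro _ h
      rw [Fin.cons_zero, Fin.cons_succ] at h
      exact hs r h
    · intro hij h
      rw [Fin.cons_succ, Fin.cons_succ] at h
      have hne : r ≠ r' := fun h' => hij (by rw [h'])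
      have := congrFun h r
      rw [Pi.single_eq_same, Pi.single_eq_of_ne hne] at this
      exact one_ne_zero this
  revert hij
  refine Fin.lastCases ?_ (fun i => ?_) i <;> refine Fin.lastCases ?_ (fun j => ?_) j
  · intro h
    exact absurd rfl h
  · intro _
    exact (hl j).symm
  · intro _
    exact hl i
  · intro h
    exact hc i j fun h' => h (by rw [h'])

theorem aff {n : ℕ} (β : Fin (n + 1) → ℝ) {H D : ℝ} (hH : 0 ≤ H) (r : Fin (n + 1)) (c : Fin (n + 1) → ℝ)
    (hc : c r ≠ 0) (k : ℝ) :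
    volume {h ∈ Set.Icc β (fun j => β j + H) | |k + ∑ j, c j * h j| < D} ≤
      ENNReal.ofReal (2 / |c r| * D * H ^ n) := by
  have hcr : 0 < |c r| := abs_pos.2 hc
  have h1 := fub r β hH (measurableSet_Ioo (a := -D) (b := D)) (c r)
    (fun w => k + ∑ j, c (r.succAbove j) * w j) (by fun_prop) (ENNReal.ofReal (2 / |c r| * D)) (by
      intro w _
      have h2 : {u ∈ Set.Icc (β r) (β r + H) | c r * u + (k + ∑ j, c (r.succAbove j) * w j) ∈ Set.Ioo (-D) D} ⊆
          Set.Ioo (-(k + ∑ j, c (r.succAbove j) * w j) / c r - D / |c r|)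
            (-(k + ∑ j, c (r.succAbove j) * w j) / c r + D / |c r|) := by
        rintro u ⟨_, h3, h4⟩
        set K := k + ∑ j, c (r.succAbove j) * w j with hK
        have h5 : |c r * u + K| < D := abs_lt.2 ⟨h3, h4⟩
        have h6 : |u - -K / c r| < D / |c r| := by
          rw [lt_div_iff₀ hcr, ← abs_mul]
          have : (u - -K / c r) * c r = c r * u + K := by field_simp; ring
          rwa [this]
        rw [abs_lt] at h6
        exact ⟨by linarith [h6.1], by linarith [h6.2]⟩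
      refine (measure_mono h2).trans ?_
      rw [Real.volume_Ioo]
      apply ENNReal.ofReal_le_ofReal
      apply le_of_eq
      ring)
  refine le_trans (measure_mono ?_) (h1.trans ?_)
  · rintro h ⟨hh, hh'⟩
    refine ⟨hh, ?_⟩
    rw [Fin.sum_univ_succAbove _ r, abs_lt] at hh'
    exact ⟨by linarith [hh'.1], by linarith [hh'.2]⟩
  · by_cases hD : 0 ≤ D
    · rw [← ENNReal.ofReal_mul (by positivity)]
    · rw [ENNReal.ofReal_of_nonpos, zero_mul]
      · exact zero_le
      · have : 0 < 2 / |c r| := by positivity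
        nlinarith

end SepDmAux

open SepDmAux in
theorem sep_dm {m : ℕ} (hm : 1 ≤ m) (ν : Fin (m + 1) → ℝ) (hν : Adm ν) : ∃ C : ℝ, 0 < C ∧
    ∀ κ α T D : ℝ, 1 ≤ T → 0 ≤ D →
    volume {h | h ∈ Dm ν κ α T ∧ ∃ i j : Fin (m + 2), i ≠ j ∧ |xs ν κ α h i - xs ν κ α h j| < D} ≤
      ENNReal.ofReal (C * T ^ (m - 1) * D) := by
  classical
  obtain ⟨n, rfl⟩ : ∃ n, m = n + 1 := ⟨m - 1, by omega⟩
  have h0 : ∀ i j : Fin (n + 1 + 2), ∃ r : Fin (n + 1), i ≠ j → av ν i r - av ν j r ≠ 0 := by
    intro i j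
    by_cases hij : i = j
    · exact ⟨0, fun h => absurd hij h⟩
    · obtain ⟨r, hr⟩ := Function.ne_iff.1 (av_ne hm hν hij)
      exact ⟨r, fun _ => sub_ne_zero.2 hr⟩
  choose r hr using h0
  refine ⟨1 + ∑ i, ∑ j, 2 / |av ν i (r i j) - av ν j (r i j)|, by positivity, fun κ α T D hT hD => ?_⟩
  have hsub : {h | h ∈ Dm ν κ α T ∧ ∃ i j : Fin (n + 1 + 2), i ≠ j ∧ |xs ν κ α h i - xs ν κ α h j| < D} ⊆
      ⋃ i ∈ (Finset.univ : Finset (Fin (n + 1 + 2))), ⋃ j ∈ (Finset.univ : Finset (Fin (n + 1 + 2))),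
        {h | i ≠ j ∧ h ∈ Set.Icc (fun _ : Fin (n + 1) => T) (fun j => (fun _ => T) j + T) ∧
          |(kv ν κ α i - kv ν κ α j) + ∑ r, (av ν i r - av ν j r) * h r| < D} := by
    rintro h ⟨h1, i, j, hij, h2⟩
    simp only [Set.mem_iUnion]
    refine ⟨i, Finset.mem_univ _, j, Finset.mem_univ _, hij, ?_, ?_⟩
    · have h3 : ∀ r : Fin (n + 1), T ≤ h r ∧ h r ≤ 2 * T := by
        intro r
        have := h1 r.succ.castSucc
        rw [xs_succ] at this
        exact this
      exact ⟨fun r => (h3 r).1, fun r => by have := (h3 r).2; simp only; linarith⟩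
    · rw [xs_aff, xs_aff] at h2
      have e : kv ν κ α i - kv ν κ α j + ∑ r, (av ν i r - av ν j r) * h r =
          kv ν κ α i + ∑ r, av ν i r * h r - (kv ν κ α j + ∑ r, av ν j r * h r) := by
        simp only [sub_mul, Finset.sum_sub_distrib]
        ring
      rw [e]
      exact h2
  refine (measure_mono hsub).trans ?_
  have hb : ∀ i j : Fin (n + 1 + 2), volume {h | i ≠ j ∧ h ∈ Set.Icc (fun _ : Fin (n + 1) => T) (fun j => (fun _ => T) j + T) ∧
          |(kv ν κ α i - kv ν κ α j) + ∑ r, (av ν i r - av ν j r) * h r| < D} ≤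
      ENNReal.ofReal (2 / |av ν i (r i j) - av ν j (r i j)| * D * T ^ n) := by
    intro i j
    by_cases hij : i = j
    · have : {h | i ≠ j ∧ h ∈ Set.Icc (fun _ : Fin (n + 1) => T) (fun j => (fun _ => T) j + T) ∧
          |(kv ν κ α i - kv ν κ α j) + ∑ r, (av ν i r - av ν j r) * h r| < D} = ∅ := by
        ext h
        simp [hij]
      rw [this, measure_empty]
      exact zero_le
    · refine le_trans (measure_mono ?_) (aff (fun _ => T) (D := D) (by linarith : (0 : ℝ) ≤ T) (r i j)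
        (fun s => av ν i s - av ν j s) (hr i j hij) (kv ν κ α i - kv ν κ α j))
      rintro h ⟨_, h1, h2⟩
      exact ⟨h1, h2⟩
  refine (measure_biUnion_finset_le _ _).trans ?_
  have h4 : ∀ i ∈ (Finset.univ : Finset (Fin (n + 1 + 2))), volume (⋃ j ∈ (Finset.univ : Finset (Fin (n + 1 + 2))),
      {h | i ≠ j ∧ h ∈ Set.Icc (fun _ : Fin (n + 1) => T) (fun j => (fun _ => T) j + T) ∧
          |(kv ν κ α i - kv ν κ α j) + ∑ r, (av ν i r - av ν j r) * h r| < D}) ≤
      ENNReal.ofReal (∑ j, 2 / |av ν i (r i j) - av ν j (r i j)| * D * T ^ n) := by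
    intro i _
    refine (measure_biUnion_finset_le _ _).trans ?_
    rw [ENNReal.ofReal_sum_of_nonneg (fun j _ => by positivity)]
    exact Finset.sum_le_sum fun j _ => hb i j
  refine (Finset.sum_le_sum h4).trans ?_
  rw [← ENNReal.ofReal_sum_of_nonneg (fun i _ => by positivity)]
  apply ENNReal.ofReal_le_ofReal
  rw [Nat.add_sub_cancel]
  simp only [← Finset.sum_mul]
  have h5 : 0 ≤ D * T ^ n := by positivity
  calc (∑ i, ∑ j, 2 / |av ν i (r i j) - av ν j (r i j)|) * D * T ^ n =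
        (∑ i, ∑ j, 2 / |av ν i (r i j) - av ν j (r i j)|) * (D * T ^ n) := by ring
    _ ≤ (1 + ∑ i, ∑ j, 2 / |av ν i (r i j) - av ν j (r i j)|) * (D * T ^ n) := by
        apply mul_le_mul_of_nonneg_right _ h5
        linarith
    _ = _ := by ring

end Pool.Agent.P07318o
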