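import Pool.Agent.Lib.P07318o.BadB
import Pool.Agent.Lib.P07318o.TopB
import Pool.Agent.Lib.P07318o.DiagB
import Pool.Agent.Lib.P07318o.OneW
import Pool.Agent.Lib.P07318o.SepDm
import Pool.Agent.Lib.P07318o.Win
import Pool.Agent.Lib.P07318h.DgM

/-!
# The exceptional set

PROOF. `L = lg T`, `k = m + 2`, `K = k²`. `n = nn m T = 16 ⌈L^K⌉₊`, `Δ = T/n`; all the windows `win Δ 0 (iΔ)`, `win Δ Δ (iΔ - Δ)`, `i ≤ n`, are `Wn T Λ₀` with `Λ₀ = C n²` (`win_wn`: `0 ≤ iΔ ≤ T`, `Δ ≤ T/16`), and `C n² ≤ L^C₁` with `C₁ = 2K + 4` for `T ≥ T₀` (`Wn` is monotone in `Λ`). Take `B = K + 2` in `bad_b` (this fixes `C₀`),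
`top_b` with this `C₀` and `ε`. For `h ∈ Dm` outside the following sets
 (i) `{LA (ZT ..) h > T L^(k/2 + ε)}`: measure `≤ C T^(m+2) L^(k+ε)/(T² L^(k+2ε)) = C T^m L^(-ε)` (Chebyshev, `mul_meas_ge_le_lintegral₀`/`meas_ge_le_lintegral_div`; `LA` is measurable in `h`, or use `∫⁻` inequalities which do not need measurability: `mul_meas_ge_le_lintegral₀` needs `AEMeasurable`; `LA` is a `lintegral` of a jointly measurable function),
 (ii) for each of the `≤ 2(n+1) ≤ C L^K` windows and each `P ∈ badP m`: `{h ∈ Dm | ‖LL (ZP ..) h‖ₑ > T}`: measure `≤ C T^m L^(-B)` each, total `≤ C T^m L^(K-B) ≤ C T^m L^(-1)`,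
 (iii) for each window `{h ∈ Dm | ‖∫ w (DgY - Dg)‖ₑ > T}`: `≤ C T^(m-c)` each,
`one_w` gives for all windows `‖∫ w (∏ gz - Dg)‖ ≤ T L^(k/2+ε) + 4^k T + T + C Λ T^(3/4) ≤ C T L^(k/2 + ε)` for `T ≥ T₀`. (iv) the set of `h` with `|x_i - x_j| < T^(1/2)` for some `i ≠ j` has measure `≤ C T^(m-1) T^(1/2)` (`sep_dm`).
All four are `≤ C T^m L^(-η)` with `η = min(ε, 1)`, say. The exceptional set `X` may be taken as the union (only an outer measure bound is needed: `measure_union_le`, `measure_biUnion_finset_le`).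
-/

set_option autoImplicit false

namespace Pool.Agent.P07318o

open MeasureTheory Complex Pool.Agent.P07318s Pool.Agent.P07318f Pool.Agent.P07318h

/-- number of the grid points -/
noncomputable def nn (m : ℕ) (T : ℝ) : ℕ := 16 * ⌈lg T ^ ((m + 2) ^ 2)⌉₊

namespace MeasAux

/-! ### measurability -/

lemma tq_meas (q : Q) : Measurable (tq q) := by
  unfold tq
  refine Measurable.mul ?_ (DgMAux.ex_meas _)
  refine Complex.measurable_ofReal.comp ?_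
  exact (DgMAux.Om_meas _).const_mul _

lemma bd_meas (A B : ℝ) : Measurable (bd A B) := by
  unfold bd
  exact Finset.measurable_fun_sum _ fun q _ => tq_meas q

lemma er_meas (U : ℝ) : Measurable (er U) := by
  unfold er
  exact (Complex.measurable_ofReal.comp gz_cont.measurable).sub (bd_meas _ _)

lemma bf_meas (U A B : ℝ) (i : Fin 4) : Measurable (bf U A B i) := by
  fin_cases i
  · exact bd_meas _ _
  · exact bd_meas _ _
  · exact bd_meas _ _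
  · exact er_meas _

lemma ct_meas {c : ℝ → ℝ} {f : ℝ → ℂ} (hc : Measurable c) (hf : Measurable f) :
    Measurable (ct c f) := by
  unfold ct
  exact (Complex.measurable_ofReal.comp hc).mul hf

lemma st_cont : Continuous Real.smoothTransition := Real.smoothTransition.continuous

lemma rho_meas (U : ℝ) : Measurable (rho U) := by
  unfold rho
  refine Continuous.measurable ?_
  exact (st_cont.comp (by fun_prop)).mul (st_cont.comp (by fun_prop))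

lemma win_meas (Δ a b : ℝ) : Measurable (win Δ a b) := by
  unfold win
  refine Continuous.measurable ?_
  exact (st_cont.comp (by fun_prop)).mul (st_cont.comp (by fun_prop))

lemma cc_meas {m : ℕ} (U α : ℝ) {w : ℝ → ℝ} (hw : Measurable w) (j : Fin (m + 2)) :
    Measurable (cc (m := m) U α w j) := by
  refine Fin.cases ?_ (fun i => ?_) j
  · rw [cc_zero]
    exact hw.comp (measurable_id.sub_const _)
  · rw [cc_succ]
    exact rho_meas U

lemma arg_meas {m : ℕ} (ν : Fin (m + 1) → ℝ) (κ α : ℝ) (j : Fin (m + 2)) :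
    Measurable fun p : (Fin m → ℝ) × ℝ => p.2 + xs ν κ α p.1 j :=
  measurable_snd.add (((measurable_pi_apply j).comp (xs_cont ν κ α).measurable).comp measurable_fst)

lemma LA_meas {m : ℕ} (ν : Fin (m + 1) → ℝ) (κ α : ℝ) {Z : Fin (m + 2) → ℝ → ℂ}
    (hZ : ∀ j, Measurable (Z j)) : Measurable (LA ν κ α Z) := by
  have h1 : Measurable fun p : (Fin m → ℝ) × ℝ => ∏ j, ‖Z j (p.2 + xs ν κ α p.1 j)‖ₑ :=
    Finset.measurable_fun_prod _ fun j _ => ((hZ j).comp (arg_meas ν κ α j)).enorm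
  exact h1.lintegral_prod_right'

lemma LL_meas {m : ℕ} (ν : Fin (m + 1) → ℝ) (κ α : ℝ) {Z : Fin (m + 2) → ℝ → ℂ}
    (hZ : ∀ j, Measurable (Z j)) : Measurable (LL ν κ α Z) := by
  have h1 : Measurable fun p : (Fin m → ℝ) × ℝ => ∏ j, Z j (p.2 + xs ν κ α p.1 j) :=
    Finset.measurable_fun_prod _ fun j _ => (hZ j).comp (arg_meas ν κ α j)
  exact (h1.stronglyMeasurable.integral_prod_right').measurable

lemma DD_meas {m : ℕ} (ν : Fin (m + 1) → ℝ) (κ α Y : ℝ) {w : ℝ → ℝ} (hw : Measurable w) :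
    Measurable fun h : Fin m → ℝ => ∫ t, (w t : ℂ) *
      (DgY Y (fun j => t + xs ν κ α h j) - Dg (fun j => t + xs ν κ α h j)) := by
  have h0 : Measurable fun p : (Fin m → ℝ) × ℝ => (fun j => p.2 + xs ν κ α p.1 j) :=
    measurable_pi_lambda _ fun j => arg_meas ν κ α j
  have h1 : Measurable fun p : (Fin m → ℝ) × ℝ => (w p.2 : ℂ) *
      (DgY Y (fun j => p.2 + xs ν κ α p.1 j) - Dg (fun j => p.2 + xs ν κ α p.1 j)) := by
    refine Measurable.mul (Complex.measurable_ofReal.comp (hw.comp measurable_snd)) ?_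
    exact ((dgy_meas (m + 1) Y).comp h0).sub ((dg_meas (m + 2)).comp h0)
  exact (h1.stronglyMeasurable.integral_prod_right').measurable

/-! ### measure theory -/

lemma cheb {X : Type*} [MeasurableSpace X] (μ : Measure X) {f : X → ENNReal} (hf : Measurable f)
    {a M : ℝ} (ha : 0 < a) (h : ∫⁻ x, f x ^ 2 ∂μ ≤ ENNReal.ofReal M) :
    μ {x | ENNReal.ofReal a < f x} ≤ ENNReal.ofReal (M / a ^ 2) := by
  have h1 : {x | ENNReal.ofReal a < f x} ⊆ {x | ENNReal.ofReal (a ^ 2) ≤ f x ^ 2} := by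
    intro x hx
    have h2 : ENNReal.ofReal a ≤ f x := le_of_lt hx
    show ENNReal.ofReal (a ^ 2) ≤ f x ^ 2
    rw [ENNReal.ofReal_pow ha.le]
    exact pow_le_pow_left' h2 2
  have h3 : ENNReal.ofReal (a ^ 2) ≠ 0 := by
    rw [Ne, ENNReal.ofReal_eq_zero, not_le]
    positivity
  calc μ {x | ENNReal.ofReal a < f x} ≤ μ {x | ENNReal.ofReal (a ^ 2) ≤ f x ^ 2} := measure_mono h1
    _ ≤ (∫⁻ x, f x ^ 2 ∂μ) / ENNReal.ofReal (a ^ 2) :=
      meas_ge_le_lintegral_div (hf.pow_const 2).aemeasurable h3 ENNReal.ofReal_ne_top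
    _ ≤ ENNReal.ofReal M / ENNReal.ofReal (a ^ 2) := by gcongr
    _ = ENNReal.ofReal (M / a ^ 2) := (ENNReal.ofReal_div_of_pos (by positivity)).symm

lemma cheb_on {m : ℕ} (D : Set (Fin m → ℝ)) {f : (Fin m → ℝ) → ENNReal}
    (hf : Measurable f) {a M : ℝ} (ha : 0 < a) (h : ∫⁻ x in D, f x ^ 2 ≤ ENNReal.ofReal M) :
    volume {x | x ∈ D ∧ ENNReal.ofReal a < f x} ≤ ENNReal.ofReal (M / a ^ 2) := by
  have h1 : {x | x ∈ D ∧ ENNReal.ofReal a < f x} = {x | ENNReal.ofReal a < f x} ∩ D := by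
    ext x
    exact and_comm
  rw [h1]
  exact (Measure.le_restrict_apply _ _).trans (cheb _ hf ha h)

lemma union_bound {ι : Type*} {m : ℕ} (s : Finset ι) (f : ι → Set (Fin m → ℝ)) {b : ℝ}
    (h : ∀ i ∈ s, volume (f i) ≤ ENNReal.ofReal b) :
    volume (⋃ i ∈ s, f i) ≤ ENNReal.ofReal (s.card * b) := by
  calc volume (⋃ i ∈ s, f i) ≤ ∑ i ∈ s, volume (f i) := measure_biUnion_finset_le s f
    _ ≤ ∑ _i ∈ s, ENNReal.ofReal b := Finset.sum_le_sum h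
    _ = ENNReal.ofReal (s.card * b) := by
      rw [Finset.sum_const, nsmul_eq_mul, ENNReal.ofReal_mul (Nat.cast_nonneg _),
        ENNReal.ofReal_natCast]

/-! ### numbers -/

lemma lg_ge {T : ℝ} (hT : 1 ≤ T) : 1 ≤ lg T := by
  unfold lg
  have := Real.log_nonneg hT
  linarith

lemma lg_pow {A c : ℝ} (hA : 0 ≤ A) (hc : 0 < c) :
    ∃ C : ℝ, 0 < C ∧ ∀ T : ℝ, 1 ≤ T → lg T ^ A ≤ C * T ^ c := by
  set δ : ℝ := c / (A + 1) with hδ
  have hδ0 : 0 < δ := by positivity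
  refine ⟨(1 + 1 / δ) ^ A, by positivity, fun T hT => ?_⟩
  have hT0 : 0 < T := by linarith
  have h1 : lg T ≤ (1 + 1 / δ) * T ^ δ := by
    unfold lg
    have h2 := Real.log_le_rpow_div hT0.le hδ0
    have h3 : 1 ≤ T ^ δ := Real.one_le_rpow hT hδ0.le
    have h4 : (1 + 1 / δ) * T ^ δ = T ^ δ + T ^ δ / δ := by ring
    rw [h4]
    linarith
  have h5 : (0 : ℝ) ≤ lg T := zero_le_one.trans (lg_ge hT)
  calc lg T ^ A ≤ ((1 + 1 / δ) * T ^ δ) ^ A := Real.rpow_le_rpow h5 h1 hA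
    _ = (1 + 1 / δ) ^ A * (T ^ δ) ^ A := Real.mul_rpow (by positivity) (by positivity)
    _ = (1 + 1 / δ) ^ A * T ^ (δ * A) := by rw [← Real.rpow_mul hT0.le]
    _ ≤ (1 + 1 / δ) ^ A * T ^ c := by
      have h6 : δ * A ≤ c := by
        rw [hδ, div_mul_eq_mul_div, div_le_iff₀ (by positivity)]
        nlinarith
      gcongr

lemma nn_ge (m : ℕ) {T : ℝ} (hT : 1 ≤ T) : 16 ≤ nn m T := by
  unfold nn
  have h1 : 0 < ⌈lg T ^ ((m + 2) ^ 2)⌉₊ := by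
    rw [Nat.ceil_pos]
    exact pow_pos (lt_of_lt_of_le one_pos (lg_ge hT)) _
  omega

lemma nn_le (m : ℕ) {T : ℝ} (hT : 1 ≤ T) : (nn m T : ℝ) ≤ 32 * lg T ^ ((m + 2) ^ 2) := by
  unfold nn
  have h0 := lg_ge hT
  have h1 : (1 : ℝ) ≤ lg T ^ ((m + 2) ^ 2) := one_le_pow₀ h0
  have h2 := (Nat.ceil_lt_add_one (show (0 : ℝ) ≤ lg T ^ ((m + 2) ^ 2) by linarith)).le
  push_cast
  linarith

lemma wn_mono {T Λ Λ' : ℝ} (hT : 1 ≤ T) (h : Λ ≤ Λ') {w : ℝ → ℝ} (hw : Wn T Λ w) :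
    Wn T Λ' w where
  smooth := hw.smooth
  nonneg := hw.nonneg
  le_one := hw.le_one
  supp := hw.supp
  d1 := fun t => (hw.d1 t).trans (by gcongr)
  d2 := fun t => (hw.d2 t).trans (by gcongr)

lemma wins (m : ℕ) : ∃ T₀ : ℝ, 64 ≤ T₀ ∧ ∀ T, T₀ ≤ T → ∀ i : ℕ, i ≤ nn m T →
    Wn T (lg T ^ (2 * (((m + 2) ^ 2 : ℕ) : ℝ) + 4)) (win (T / nn m T) 0 (i * (T / nn m T))) ∧
    Wn T (lg T ^ (2 * (((m + 2) ^ 2 : ℕ) : ℝ) + 4))
      (win (T / nn m T) (T / nn m T) (i * (T / nn m T) - T / nn m T)) := by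
  obtain ⟨C, hC, hwin⟩ := win_wn
  refine ⟨max 64 (Real.exp (1024 * C)), le_max_left _ _, fun T hT i hi => ?_⟩
  have hT64 : 64 ≤ T := (le_max_left _ _).trans hT
  have hT1 : 1 ≤ T := by linarith
  have hT0 : 0 < T := by linarith
  have hTe : Real.exp (1024 * C) ≤ T := (le_max_right _ _).trans hT
  have hL : 1024 * C ≤ lg T := by
    have h1 : 1024 * C ≤ Real.log T := by
      rw [Real.le_log_iff_exp_le hT0]
      exact hTe
    unfold lg
    linarith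
  have hL1 := lg_ge hT1
  have hn16 := nn_ge m hT1
  have hn16' : (16 : ℝ) ≤ nn m T := by exact_mod_cast hn16
  have hn0 : (0 : ℝ) < nn m T := by linarith
  have hΔ0 : 0 < T / nn m T := by positivity
  have hΔ1 : T / nn m T ≤ T / 16 := by gcongr
  have hi' : (i : ℝ) * (T / nn m T) ≤ T := by
    have h1 : (i : ℝ) ≤ nn m T := by exact_mod_cast hi
    calc (i : ℝ) * (T / nn m T) ≤ nn m T * (T / nn m T) := by gcongr
      _ = T := by field_simp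
  have hq : T / (T / nn m T) = nn m T := by field_simp
  have hΛ : C * (T / (T / nn m T)) ^ 2 ≤ lg T ^ (2 * (((m + 2) ^ 2 : ℕ) : ℝ) + 4) := by
    rw [hq]
    have h1 := nn_le m hT1
    have h2 : lg T ^ (2 * (((m + 2) ^ 2 : ℕ) : ℝ) + 4) = lg T ^ (2 * (m + 2) ^ 2 + 4 : ℕ) := by
      rw [← Real.rpow_natCast]
      congr 1
      push_cast
      ring
    rw [h2]
    have h3 : (1 : ℝ) ≤ lg T ^ 3 := one_le_pow₀ hL1
    calc C * (nn m T : ℝ) ^ 2 ≤ C * (32 * lg T ^ ((m + 2) ^ 2)) ^ 2 := by gcongr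
      _ = (1024 * C) * lg T ^ (2 * (m + 2) ^ 2) := by ring
      _ ≤ lg T * lg T ^ (2 * (m + 2) ^ 2) := by gcongr
      _ ≤ (lg T * lg T ^ 3) * lg T ^ (2 * (m + 2) ^ 2) := by
        have h4 : lg T ≤ lg T * lg T ^ 3 := by nlinarith
        gcongr
      _ = lg T ^ (2 * (m + 2) ^ 2 + 4 : ℕ) := by ring
  constructor
  · exact wn_mono hT1 hΛ (hwin T (T / nn m T) 0 _ hT1 hΔ0 (by linarith) (by linarith) (by linarith))
  · exact wn_mono hT1 hΛ (hwin T (T / nn m T) _ _ hT1 hΔ0 (by linarith) (by linarith) (by linarith))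

/-! ### the four bounds -/

lemma num1 {m : ℕ} {ε η T Ct : ℝ} (hT : 1 ≤ T) (hη : η ≤ ε) (hCt : 0 < Ct) :
    Ct * T ^ (m + 2) * lg T ^ ((m : ℝ) + 2 + ε) / (T * lg T ^ (((m : ℝ) + 2) / 2 + ε)) ^ 2 ≤
      Ct * (T ^ m * lg T ^ (-η)) := by
  have hT0 : 0 < T := by linarith
  have hL := lg_ge hT
  have hL0 : 0 < lg T := by linarith
  have h1 : (lg T ^ (((m : ℝ) + 2) / 2 + ε)) ^ 2 = lg T ^ ((m : ℝ) + 2 + ε) * lg T ^ ε := by
    rw [← Real.rpow_natCast, ← Real.rpow_mul hL0.le, ← Real.rpow_add hL0]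
    congr 1
    push_cast
    ring
  have h2 : lg T ^ (-ε) ≤ lg T ^ (-η) := Real.rpow_le_rpow_of_exponent_le hL (by linarith)
  have h3 : lg T ^ (-ε) * lg T ^ ε = 1 := by
    rw [← Real.rpow_add hL0]
    simp
  rw [mul_pow, h1, div_le_iff₀ (by positivity)]
  calc Ct * T ^ (m + 2) * lg T ^ ((m : ℝ) + 2 + ε)
      = Ct * (T ^ m * (lg T ^ (-ε) * lg T ^ ε)) * T ^ 2 * lg T ^ ((m : ℝ) + 2 + ε) := by
        rw [h3]
        ring
    _ ≤ Ct * (T ^ m * (lg T ^ (-η) * lg T ^ ε)) * T ^ 2 * lg T ^ ((m : ℝ) + 2 + ε) := by gcongr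
    _ = Ct * (T ^ m * lg T ^ (-η)) * (T ^ 2 * (lg T ^ ((m : ℝ) + 2 + ε) * lg T ^ ε)) := by ring

lemma numN {m : ℕ} {T : ℝ} (hT : 1 ≤ T) :
    (((2 * (nn m T + 1) : ℕ)) : ℝ) ≤ 66 * lg T ^ ((m + 2) ^ 2) := by
  have h1 := nn_le m hT
  have h2 : (1 : ℝ) ≤ lg T ^ ((m + 2) ^ 2) := one_le_pow₀ (lg_ge hT)
  push_cast
  linarith

lemma num2 {m : ℕ} {η T Cb b : ℝ} (hT : 1 ≤ T) (hη : η ≤ 1) (hCb : 0 < Cb) (hb : 0 ≤ b) :
    (((2 * (nn m T + 1) : ℕ)) : ℝ) * b *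
      (Cb * T ^ (m + 2) * lg T ^ (-((((m + 2) ^ 2 : ℕ) : ℝ) + 2)) / T ^ 2) ≤
      66 * b * Cb * (T ^ m * lg T ^ (-η)) := by
  have hT0 : 0 < T := by linarith
  have hL := lg_ge hT
  have hL0 : 0 < lg T := by linarith
  have h1 : lg T ^ (-((((m + 2) ^ 2 : ℕ) : ℝ) + 2)) * lg T ^ ((m + 2) ^ 2) ≤ lg T ^ (-η) := by
    rw [← Real.rpow_natCast, ← Real.rpow_add hL0]
    exact Real.rpow_le_rpow_of_exponent_le hL (by linarith)
  have h2 : Cb * T ^ (m + 2) * lg T ^ (-((((m + 2) ^ 2 : ℕ) : ℝ) + 2)) / T ^ 2 =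
      Cb * T ^ m * lg T ^ (-((((m + 2) ^ 2 : ℕ) : ℝ) + 2)) := by
    rw [div_eq_iff (by positivity)]
    ring
  rw [h2]
  calc (((2 * (nn m T + 1) : ℕ)) : ℝ) * b *
        (Cb * T ^ m * lg T ^ (-((((m + 2) ^ 2 : ℕ) : ℝ) + 2)))
      ≤ (66 * lg T ^ ((m + 2) ^ 2)) * b *
        (Cb * T ^ m * lg T ^ (-((((m + 2) ^ 2 : ℕ) : ℝ) + 2))) := by
        have := numN (m := m) hT
        gcongr
    _ = 66 * b * Cb * (T ^ m *
        (lg T ^ (-((((m + 2) ^ 2 : ℕ) : ℝ) + 2)) * lg T ^ ((m + 2) ^ 2))) := by ring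
    _ ≤ 66 * b * Cb * (T ^ m * lg T ^ (-η)) := by gcongr

lemma num3 {m : ℕ} {η T Cd c Ca : ℝ} (hT : 1 ≤ T) (hη : η ≤ 1) (hCd : 0 < Cd) (hCa : 0 < Ca)
    (hla : lg T ^ ((((m + 2) ^ 2 : ℕ) : ℝ) + 1) ≤ Ca * T ^ c) :
    (((2 * (nn m T + 1) : ℕ)) : ℝ) * (Cd * T ^ ((m : ℝ) + 2 - c) / T ^ 2) ≤
      66 * Cd * Ca * (T ^ m * lg T ^ (-η)) := by
  have hT0 : 0 < T := by linarith
  have hL := lg_ge hT
  have hL0 : 0 < lg T := by linarith
  have h2 : Cd * T ^ ((m : ℝ) + 2 - c) / T ^ 2 = Cd * T ^ m * T ^ (-c) := by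
    rw [div_eq_iff (by positivity), show (m : ℝ) + 2 - c = (m : ℝ) + (2 : ℕ) + (-c) by
      push_cast; ring, Real.rpow_add hT0, Real.rpow_add hT0, Real.rpow_natCast,
      Real.rpow_natCast]
    ring
  have h3 : lg T ^ ((m + 2) ^ 2) * T ^ (-c) ≤ Ca * lg T ^ (-η) := by
    have h4 : lg T ^ ((m + 2) ^ 2) * lg T ≤ Ca * T ^ c := by
      rw [Real.rpow_add hL0, Real.rpow_natCast, Real.rpow_one] at hla
      exact hla
    have h5 : T ^ c * T ^ (-c) = 1 := by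
      rw [← Real.rpow_add hT0]
      simp
    have h6 : lg T * lg T ^ (-1 : ℝ) = 1 := by
      rw [Real.rpow_neg_one]
      exact mul_inv_cancel₀ hL0.ne'
    have h7 : lg T ^ (-1 : ℝ) ≤ lg T ^ (-η) :=
      Real.rpow_le_rpow_of_exponent_le hL (by linarith)
    calc lg T ^ ((m + 2) ^ 2) * T ^ (-c)
        = (lg T ^ ((m + 2) ^ 2) * lg T) * T ^ (-c) * lg T ^ (-1 : ℝ) := by
          rw [show (lg T ^ ((m + 2) ^ 2) * lg T) * T ^ (-c) * lg T ^ (-1 : ℝ) =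
            lg T ^ ((m + 2) ^ 2) * T ^ (-c) * (lg T * lg T ^ (-1 : ℝ)) by ring, h6, mul_one]
      _ ≤ (Ca * T ^ c) * T ^ (-c) * lg T ^ (-1 : ℝ) := by gcongr
      _ = Ca * lg T ^ (-1 : ℝ) := by
          rw [mul_assoc Ca, h5, mul_one]
      _ ≤ Ca * lg T ^ (-η) := by gcongr
  rw [h2]
  calc (((2 * (nn m T + 1) : ℕ)) : ℝ) * (Cd * T ^ m * T ^ (-c))
      ≤ (66 * lg T ^ ((m + 2) ^ 2)) * (Cd * T ^ m * T ^ (-c)) := by
        have := numN (m := m) hT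
        gcongr
    _ = 66 * Cd * T ^ m * (lg T ^ ((m + 2) ^ 2) * T ^ (-c)) := by ring
    _ ≤ 66 * Cd * T ^ m * (Ca * lg T ^ (-η)) := by gcongr
    _ = 66 * Cd * Ca * (T ^ m * lg T ^ (-η)) := by ring

lemma num4 {m : ℕ} (hm : 1 ≤ m) {η T Cs Ce : ℝ} (hT : 1 ≤ T) (hη : η ≤ 1) (hCs : 0 < Cs)
    (hCe : 0 < Ce) (hle : lg T ^ (1 : ℝ) ≤ Ce * T ^ (1 / 2 : ℝ)) :
    Cs * T ^ (m - 1) * T ^ (1 / 2 : ℝ) ≤ Cs * Ce * (T ^ m * lg T ^ (-η)) := by
  have hT0 : 0 < T := by linarith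
  have hL := lg_ge hT
  have hL0 : 0 < lg T := by linarith
  rw [Real.rpow_one] at hle
  have h1 : T ^ m = T ^ (m - 1) * (T ^ (1 / 2 : ℝ) * T ^ (1 / 2 : ℝ)) := by
    rw [← Real.rpow_add hT0]
    norm_num
    rw [← pow_succ]
    congr 1
    omega
  have h6 : lg T * lg T ^ (-1 : ℝ) = 1 := by
    rw [Real.rpow_neg_one]
    exact mul_inv_cancel₀ hL0.ne'
  have h7 : lg T ^ (-1 : ℝ) ≤ lg T ^ (-η) :=
    Real.rpow_le_rpow_of_exponent_le hL (by linarith)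
  calc Cs * T ^ (m - 1) * T ^ (1 / 2 : ℝ)
      = Cs * T ^ (m - 1) * T ^ (1 / 2 : ℝ) * (lg T * lg T ^ (-1 : ℝ)) := by rw [h6, mul_one]
    _ ≤ Cs * T ^ (m - 1) * T ^ (1 / 2 : ℝ) * ((Ce * T ^ (1 / 2 : ℝ)) * lg T ^ (-η)) := by gcongr
    _ = Cs * Ce * ((T ^ (m - 1) * (T ^ (1 / 2 : ℝ) * T ^ (1 / 2 : ℝ))) * lg T ^ (-η)) := by ring
    _ = Cs * Ce * (T ^ m * lg T ^ (-η)) := by rw [← h1]

end MeasAux

theorem meas {m : ℕ} (hm : 1 ≤ m) (ν : Fin (m + 1) → ℝ) (hν : Adm ν) (ε : ℝ) (hε : 0 < ε) :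
    ∃ C T₀ η : ℝ, 0 < C ∧ 64 ≤ T₀ ∧ 0 < η ∧ ∀ κ α T : ℝ, T₀ ≤ T → T ≤ α → α ≤ 2 * T → ∃ X : Set (Fin m → ℝ),
    volume X ≤ ENNReal.ofReal (C * T ^ m * lg T ^ (-η)) ∧ ∀ h ∈ Dm ν κ α T, h ∉ X →
      (∀ i j, i ≠ j → T ^ (1 / 2 : ℝ) ≤ |xs ν κ α h i - xs ν κ α h j|) ∧
      (∀ i : ℕ, i ≤ nn m T → ‖∫ t, (win (T / nn m T) 0 (i * (T / nn m T)) t : ℂ) *
        (((∏ j, gz (t + xs ν κ α h j) : ℝ) : ℂ) - Dg (fun j => t + xs ν κ α h j))‖ ≤ C * T * lg T ^ (((m : ℝ) + 2) / 2 + ε)) ∧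
      (∀ i : ℕ, i ≤ nn m T → ‖∫ t, (win (T / nn m T) (T / nn m T) (i * (T / nn m T) - T / nn m T) t : ℂ) *
        (((∏ j, gz (t + xs ν κ α h j) : ℝ) : ℂ) - Dg (fun j => t + xs ν κ α h j))‖ ≤ C * T * lg T ^ (((m : ℝ) + 2) / 2 + ε)) := by
  classical
  obtain ⟨Tw, hTw, hwin⟩ := MeasAux.wins m
  obtain ⟨C₀, Cb, Tb, hC₀, hCb, hTb, hbad⟩ := bad_b hm ν hν
    (2 * (((m + 2) ^ 2 : ℕ) : ℝ) + 4) ((((m + 2) ^ 2 : ℕ) : ℝ) + 2) (by positivity) (by positivity)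
  obtain ⟨Ct, Tt, hCt, hTt, htop⟩ := top_b hm ν hν C₀ ε hC₀ hε
  obtain ⟨c, Cd, hc, hCd, hdiag⟩ := diag_b hm ν hν
  obtain ⟨C1, hC1, hone⟩ := one_w (m := m)
  obtain ⟨Cs, hCs, hsep⟩ := sep_dm hm ν hν
  obtain ⟨Ca, hCa, hla⟩ := MeasAux.lg_pow (A := (((m + 2) ^ 2 : ℕ) : ℝ) + 1) (c := c)
    (by positivity) hc
  obtain ⟨Ce, hCe, hle⟩ := MeasAux.lg_pow (A := 1) (c := 1 / 2) (by norm_num) (by norm_num)
  obtain ⟨Cf, hCf, hlf⟩ := MeasAux.lg_pow (A := 2 * (((m + 2) ^ 2 : ℕ) : ℝ) + 4) (c := 1 / 4)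
    (by positivity) (by norm_num)
  obtain ⟨nb, hnb⟩ : ∃ nb : ℝ, nb = ((badP m).card : ℝ) := ⟨_, rfl⟩
  have hnb0 : 0 ≤ nb := by rw [hnb]; positivity
  obtain ⟨η, hη⟩ : ∃ η : ℝ, η = min ε 1 := ⟨_, rfl⟩
  have hηε : η ≤ ε := hη ▸ min_le_left _ _
  have hη1 : η ≤ 1 := hη ▸ min_le_right _ _
  have hη0 : 0 < η := hη ▸ lt_min hε one_pos
  obtain ⟨Cm, hCm⟩ : ∃ Cm : ℝ, Cm = Ct + 66 * nb * Cb + 66 * Cd * Ca + Cs * Ce := ⟨_, rfl⟩
  obtain ⟨Cv, hCv⟩ : ∃ Cv : ℝ, Cv = 1 + nb + 1 + C1 * Cf := ⟨_, rfl⟩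
  have hCm0 : 0 < Cm := by rw [hCm]; positivity
  have hCv0 : 0 < Cv := by rw [hCv]; positivity
  refine ⟨Cm + Cv, max (max Tw Tb) Tt, η, by positivity, ?_, hη0, ?_⟩
  · exact hTw.trans ((le_max_left _ _).trans (le_max_left _ _))
  intro κ α T hT hα1 hα2
  have hTw' : Tw ≤ T := ((le_max_left _ _).trans (le_max_left _ _)).trans hT
  have hTb' : Tb ≤ T := ((le_max_right _ _).trans (le_max_left _ _)).trans hT
  have hTt' : Tt ≤ T := (le_max_right _ _).trans hT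
  have hT64 : 64 ≤ T := hTw.trans hTw'
  have hT1 : 1 ≤ T := by linarith
  have hT0 : 0 < T := by linarith
  have hL := MeasAux.lg_ge hT1
  have hL0 : 0 < lg T := by linarith
  obtain ⟨n, hn⟩ : ∃ n : ℕ, n = nn m T := ⟨_, rfl⟩
  obtain ⟨Δ, hΔ⟩ : ∃ Δ : ℝ, Δ = T / nn m T := ⟨_, rfl⟩
  obtain ⟨Λ, hΛ⟩ : ∃ Λ : ℝ, Λ = lg T ^ (2 * (((m + 2) ^ 2 : ℕ) : ℝ) + 4) := ⟨_, rfl⟩
  have hΛ1 : 1 ≤ Λ := by rw [hΛ]; exact Real.one_le_rpow hL (by positivity)
  obtain ⟨W, hWdef⟩ : ∃ W : Bool × ℕ → ℝ → ℝ, W = fun x =>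
    if x.1 then win Δ 0 (x.2 * Δ) else win Δ Δ (x.2 * Δ - Δ) := ⟨_, rfl⟩
  obtain ⟨I, hI⟩ : ∃ I : Finset (Bool × ℕ), I = Finset.univ ×ˢ Finset.range (n + 1) := ⟨_, rfl⟩
  have hIcard : (I.card : ℝ) = ((2 * (nn m T + 1) : ℕ) : ℝ) := by
    rw [hI, Finset.card_product, Finset.card_range, Finset.card_univ, Fintype.card_bool, hn]
  have hmemI : ∀ (b : Bool) (i : ℕ), i ≤ nn m T → (b, i) ∈ I := by
    intro b i hi
    rw [hI, Finset.mem_product, Finset.mem_range]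
    exact ⟨Finset.mem_univ _, by rw [hn]; exact Nat.lt_succ_of_le hi⟩
  have hWwn : ∀ x ∈ I, Wn T Λ (W x) := by
    intro x hx
    rw [hI, Finset.mem_product, Finset.mem_range, hn] at hx
    have h1 := hwin T hTw' x.2 (Nat.lt_succ_iff.1 hx.2)
    rw [← hΔ, ← hΛ] at h1
    rw [hWdef]
    show Wn T Λ (if x.1 then win Δ 0 (x.2 * Δ) else win Δ Δ (x.2 * Δ - Δ))
    split_ifs
    · exact h1.1
    · exact h1.2
  have hWm : ∀ x, Measurable (W x) := by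
    intro x
    rw [hWdef]
    show Measurable (if x.1 then win Δ 0 (x.2 * Δ) else win Δ Δ (x.2 * Δ - Δ))
    split_ifs
    · exact MeasAux.win_meas _ _ _
    · exact MeasAux.win_meas _ _ _
  -- the exceptional set
  obtain ⟨a, ha⟩ : ∃ a : ℝ, a = T * lg T ^ (((m : ℝ) + 2) / 2 + ε) := ⟨_, rfl⟩
  have ha0 : 0 < a := by rw [ha]; positivity
  obtain ⟨X1, hX1⟩ : ∃ X1 : Set (Fin m → ℝ), X1 = {h | ENNReal.ofReal a <
    LA ν κ α (ZT (T / 4) (n2 C₀ T)) h} := ⟨_, rfl⟩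
  obtain ⟨X2, hX2⟩ : ∃ X2 : (Bool × ℕ) × (Fin (m + 2) → Fin 4) → Set (Fin m → ℝ),
    X2 = fun y => {h | h ∈ Dm ν κ α T ∧ ENNReal.ofReal T <
      ‖LL ν κ α (ZP (T / 4) α (n1 m T) (n2 C₀ T) (W y.1) y.2) h‖ₑ} := ⟨_, rfl⟩
  obtain ⟨X3, hX3⟩ : ∃ X3 : Bool × ℕ → Set (Fin m → ℝ),
    X3 = fun x => {h | h ∈ Dm ν κ α T ∧ ENNReal.ofReal T <
      ‖∫ t, (W x t : ℂ) * (DgY (n1 m T) (fun j => t + xs ν κ α h j) -
        Dg (fun j => t + xs ν κ α h j))‖ₑ} := ⟨_, rfl⟩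
  obtain ⟨X4, hX4⟩ : ∃ X4 : Set (Fin m → ℝ), X4 = {h | h ∈ Dm ν κ α T ∧
    ∃ i j : Fin (m + 2), i ≠ j ∧ |xs ν κ α h i - xs ν κ α h j| < T ^ (1 / 2 : ℝ)} := ⟨_, rfl⟩
  refine ⟨X1 ∪ (⋃ y ∈ I ×ˢ badP m, X2 y) ∪ (⋃ x ∈ I, X3 x) ∪ X4, ?_, ?_⟩
  · -- the measure
    have hm1 : volume X1 ≤ ENNReal.ofReal (Ct * (T ^ m * lg T ^ (-η))) := by
      rw [hX1]
      refine (MeasAux.cheb volume (MeasAux.LA_meas ν κ α fun j => MeasAux.ct_meas
        (MeasAux.rho_meas _) (MeasAux.bd_meas _ _)) ha0 (htop κ α T hTt')).trans ?_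
      refine ENNReal.ofReal_le_ofReal ?_
      rw [ha]
      exact MeasAux.num1 hT1 hηε hCt
    have hm2 : volume (⋃ y ∈ I ×ˢ badP m, X2 y) ≤
        ENNReal.ofReal (66 * nb * Cb * (T ^ m * lg T ^ (-η))) := by
      refine (MeasAux.union_bound (I ×ˢ badP m) X2
        (b := Cb * T ^ (m + 2) * lg T ^ (-((((m + 2) ^ 2 : ℕ) : ℝ) + 2)) / T ^ 2) ?_).trans ?_
      · intro y hy
        rw [Finset.mem_product] at hy
        rw [hX2]
        have h1 := hWwn y.1 hy.1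
        rw [hΛ] at h1
        refine MeasAux.cheb_on (Dm ν κ α T) (f := fun h =>
          ‖LL ν κ α (ZP (T / 4) α (n1 m T) (n2 C₀ T) (W y.1) y.2) h‖ₑ) ?_ hT0
          (hbad κ α T (W y.1) y.2 hTb' hα1 hα2 h1 hy.2).2
        exact (MeasAux.LL_meas ν κ α fun j => MeasAux.ct_meas
          (MeasAux.cc_meas _ _ (hWm _) j) (MeasAux.bf_meas _ _ _ _)).enorm
      · refine ENNReal.ofReal_le_ofReal ?_
        rw [Finset.card_product, Nat.cast_mul, hIcard, ← hnb]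
        exact MeasAux.num2 hT1 hη1 hCb hnb0
    have hm3 : volume (⋃ x ∈ I, X3 x) ≤
        ENNReal.ofReal (66 * Cd * Ca * (T ^ m * lg T ^ (-η))) := by
      refine (MeasAux.union_bound I X3
        (b := Cd * T ^ ((m : ℝ) + 2 - c) / T ^ 2) ?_).trans ?_
      · intro x hx
        rw [hX3]
        refine MeasAux.cheb_on (Dm ν κ α T) (f := fun h =>
          ‖∫ t, (W x t : ℂ) * (DgY (n1 m T) (fun j => t + xs ν κ α h j) -
            Dg (fun j => t + xs ν κ α h j))‖ₑ) ?_ hT0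
          (hdiag κ α T Λ (W x) hT64 (hWwn x hx))
        exact (MeasAux.DD_meas ν κ α (n1 m T) (hWm x)).enorm
      · refine ENNReal.ofReal_le_ofReal ?_
        rw [hIcard]
        exact MeasAux.num3 hT1 hη1 hCd hCa (hla T hT1)
    have hm4 : volume X4 ≤ ENNReal.ofReal (Cs * Ce * (T ^ m * lg T ^ (-η))) := by
      rw [hX4]
      refine (hsep κ α T (T ^ (1 / 2 : ℝ)) hT1 (by positivity)).trans ?_
      exact ENNReal.ofReal_le_ofReal (MeasAux.num4 hm hT1 hη1 hCs hCe (hle T hT1))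
    have hE : 0 ≤ T ^ m * lg T ^ (-η) := by positivity
    calc volume (X1 ∪ (⋃ y ∈ I ×ˢ badP m, X2 y) ∪ (⋃ x ∈ I, X3 x) ∪ X4)
        ≤ volume X1 + volume (⋃ y ∈ I ×ˢ badP m, X2 y) + volume (⋃ x ∈ I, X3 x) + volume X4 := by
          refine (measure_union_le _ _).trans (add_le_add_left ?_ _)
          refine (measure_union_le _ _).trans (add_le_add_left ?_ _)
          exact measure_union_le _ _
      _ ≤ ENNReal.ofReal (Ct * (T ^ m * lg T ^ (-η))) +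
          ENNReal.ofReal (66 * nb * Cb * (T ^ m * lg T ^ (-η))) +
          ENNReal.ofReal (66 * Cd * Ca * (T ^ m * lg T ^ (-η))) +
          ENNReal.ofReal (Cs * Ce * (T ^ m * lg T ^ (-η))) := by gcongr
      _ = ENNReal.ofReal (Cm * (T ^ m * lg T ^ (-η))) := by
          rw [← ENNReal.ofReal_add (by positivity) (by positivity),
            ← ENNReal.ofReal_add (by positivity) (by positivity),
            ← ENNReal.ofReal_add (by positivity) (by positivity), hCm]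
          congr 1
          ring
      _ ≤ ENNReal.ofReal ((Cm + Cv) * T ^ m * lg T ^ (-η)) := by
          refine ENNReal.ofReal_le_ofReal ?_
          have h1 : 0 ≤ Cv * (T ^ m * lg T ^ (-η)) := by positivity
          linarith [show (Cm + Cv) * T ^ m * lg T ^ (-η) = Cm * (T ^ m * lg T ^ (-η)) +
            Cv * (T ^ m * lg T ^ (-η)) by ring]
  · intro h hD hX
    simp only [Set.mem_union, not_or] at hX
    obtain ⟨⟨⟨hn1, hn2⟩, hn3⟩, hn4⟩ := hX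
    have hval : ∀ x ∈ I, ‖∫ t, (W x t : ℂ) * (((∏ j, gz (t + xs ν κ α h j) : ℝ) : ℂ) -
        Dg (fun j => t + xs ν κ α h j))‖ ≤ (Cm + Cv) * T * lg T ^ (((m : ℝ) + 2) / 2 + ε) := by
      intro x hx
      have hwn := hWwn x hx
      -- the heights
      have hP : (fun j : Fin (m + 2) => if j = 0 then (0 : Fin 4) else 1) ∈ badP m := by
        unfold badP
        rw [Finset.mem_filter]
        refine ⟨Finset.mem_univ _, ⟨0, ?_⟩, ⟨0, ?_⟩⟩
        · simp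
        · simp
      have hwn' := hwn
      rw [hΛ] at hwn'
      obtain ⟨⟨k1, k2, k3⟩, -⟩ := hbad κ α T (W x) _ hTb' hα1 hα2 hwn' hP
      have h1 := hone ν κ α T Λ (n2 C₀ T) (W x) h hT64 hΛ1 hwn hα1 hα2 k1 k2 k3 hD
      have h2 : LA ν κ α (ZT (T / 4) (n2 C₀ T)) h ≤ ENNReal.ofReal a := by
        rw [hX1] at hn1
        exact not_lt.1 hn1
      have h3 : ∀ P ∈ badP m, ‖LL ν κ α (ZP (T / 4) α (n1 m T) (n2 C₀ T) (W x) P) h‖ₑ ≤
          ENNReal.ofReal T := by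
        intro P hP'
        by_contra hcon
        apply hn2
        rw [Set.mem_iUnion₂]
        refine ⟨(x, P), Finset.mem_product.2 ⟨hx, hP'⟩, ?_⟩
        rw [hX2]
        exact ⟨hD, not_le.1 hcon⟩
      have h4 : ‖∫ t, (W x t : ℂ) * (DgY (n1 m T) (fun j => t + xs ν κ α h j) -
          Dg (fun j => t + xs ν κ α h j))‖ₑ ≤ ENNReal.ofReal T := by
        by_contra hcon
        apply hn3
        rw [Set.mem_iUnion₂]
        refine ⟨x, hx, ?_⟩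
        rw [hX3]
        exact ⟨hD, not_le.1 hcon⟩
      have h5 : ∑ P ∈ badP m, ‖LL ν κ α (ZP (T / 4) α (n1 m T) (n2 C₀ T) (W x) P) h‖ₑ ≤
          ENNReal.ofReal (nb * T) := by
        refine (Finset.sum_le_sum h3).trans_eq ?_
        rw [Finset.sum_const, nsmul_eq_mul, ENNReal.ofReal_mul hnb0, hnb,
          ENNReal.ofReal_natCast]
      have hLe : 1 ≤ lg T ^ (((m : ℝ) + 2) / 2 + ε) := Real.one_le_rpow hL (by positivity)
      have h6 : C1 * Λ * T ^ (3 / 4 : ℝ) ≤ C1 * Cf * T := by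
        have h7 : Λ ≤ Cf * T ^ (1 / 4 : ℝ) := by rw [hΛ]; exact hlf T hT1
        calc C1 * Λ * T ^ (3 / 4 : ℝ) ≤ C1 * (Cf * T ^ (1 / 4 : ℝ)) * T ^ (3 / 4 : ℝ) := by gcongr
          _ = C1 * Cf * (T ^ (1 / 4 : ℝ) * T ^ (3 / 4 : ℝ)) := by ring
          _ = C1 * Cf * T := by
            rw [← Real.rpow_add hT0]
            norm_num
      have h8 : ‖∫ t, (W x t : ℂ) * (((∏ j, gz (t + xs ν κ α h j) : ℝ) : ℂ) -
          Dg (fun j => t + xs ν κ α h j))‖ₑ ≤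
          ENNReal.ofReal ((Cm + Cv) * T * lg T ^ (((m : ℝ) + 2) / 2 + ε)) := by
        calc _ ≤ ENNReal.ofReal a + ENNReal.ofReal (nb * T) + ENNReal.ofReal T +
              ENNReal.ofReal (C1 * Cf * T) := by
              refine h1.trans ?_
              gcongr
          _ = ENNReal.ofReal (a + nb * T + T + C1 * Cf * T) := by
              rw [← ENNReal.ofReal_add (by positivity) (by positivity),
                ← ENNReal.ofReal_add (by positivity) (by positivity),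
                ← ENNReal.ofReal_add (by positivity) (by positivity)]
          _ ≤ _ := by
              refine ENNReal.ofReal_le_ofReal ?_
              rw [ha, hCv]
              have e1 : nb * T ≤ nb * T * lg T ^ (((m : ℝ) + 2) / 2 + ε) :=
                le_mul_of_one_le_right (by positivity) hLe
              have e2 : T ≤ T * lg T ^ (((m : ℝ) + 2) / 2 + ε) :=
                le_mul_of_one_le_right (by positivity) hLe
              have e3 : C1 * Cf * T ≤ C1 * Cf * T * lg T ^ (((m : ℝ) + 2) / 2 + ε) :=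
                le_mul_of_one_le_right (by positivity) hLe
              have e4 : 0 ≤ Cm * T * lg T ^ (((m : ℝ) + 2) / 2 + ε) := by positivity
              have e5 : (Cm + (1 + nb + 1 + C1 * Cf)) * T * lg T ^ (((m : ℝ) + 2) / 2 + ε) =
                Cm * T * lg T ^ (((m : ℝ) + 2) / 2 + ε) +
                T * lg T ^ (((m : ℝ) + 2) / 2 + ε) + nb * T * lg T ^ (((m : ℝ) + 2) / 2 + ε) +
                T * lg T ^ (((m : ℝ) + 2) / 2 + ε) +
                C1 * Cf * T * lg T ^ (((m : ℝ) + 2) / 2 + ε) := by ring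
              rw [e5]
              linarith
      rw [← ofReal_norm] at h8
      exact (ENNReal.ofReal_le_ofReal_iff (by positivity)).1 h8
    refine ⟨?_, ?_, ?_⟩
    · intro i j hij
      by_contra hcon
      apply hn4
      rw [hX4]
      exact ⟨hD, i, j, hij, not_le.1 hcon⟩
    · intro i hi
      have h1 := hval (true, i) (hmemI true i hi)
      rw [hWdef] at h1
      rw [← hΔ]
      simpa using h1
    · intro i hi
      have h1 := hval (false, i) (hmemI false i hi)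
      rw [hWdef] at h1
      rw [← hΔ]
      simpa using h1

end Pool.Agent.P07318o
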