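import Pool.Agent.Lib.P07318o.GsU3
import Pool.Agent.Lib.P07318o.GsN8
import Pool.Agent.Lib.P07318o.GsN2

/-!
# Module U3Bk: the `U³` norm of a Gaussian block

PROOF.  `U3_bk_le` with `M = K A^{-1/2}` (`M ^ 8 = K ^ 8 A ^ (-4)`), `n8_le`, `card_le`, `n2_le`, `A ≤ U`:
`U3 ≤ 2 U⁴ K⁸ A⁻⁴ · C · C A (1 + log A) · 2³ · C A² (1 + A²/U) (1 + log U)^{15} ≤ C' K⁸ U⁴ (1 + log U)^{16} (1/A + A/U)`
(`A⁻⁴ A³ (1 + A²/U) = 1/A + A/U`, `log A ≤ log U`).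
-/

set_option autoImplicit false

namespace Pool.Agent.P07318o

open MeasureTheory Complex Pool.Agent.P07318s Pool.Agent.P07318f Pool.Agent.P07318h

theorem u3_bk : ∃ C : ℝ, 0 < C ∧ ∀ (U A K η : ℝ) (s : Finset Q) (c : Q → ℂ), 1 ≤ U → 1 ≤ A → A ≤ U → 0 ≤ K →
    (∀ q ∈ s, A ≤ hgt q.1 ∧ hgt q.1 ≤ 2 * A) → (∀ q ∈ s, ‖c q‖ ≤ K * A ^ (-(1 / 2) : ℝ)) →
    U3 (bk U η s c) ≤ ENNReal.ofReal (C * K ^ 8 * U ^ 4 * (1 + Real.log U) ^ 16 * (1 / A + A / U)) := by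
  obtain ⟨C₁, hC₁, h8⟩ := n8_le
  obtain ⟨C₂, hC₂, hcd⟩ := card_le
  obtain ⟨C₃, hC₃, h2⟩ := n2_le
  refine ⟨16 * C₁ * C₂ * C₃, by positivity, fun U A K η s c hU hA hAU hK hs hc => ?_⟩
  have hU0 : 0 < U := by linarith
  have hA0 : 0 < A := by linarith
  refine (U3_bk_le hU0 η (K * A ^ (-(1 / 2) : ℝ)) (by positivity) s c hc).trans (ENNReal.ofReal_le_ofReal ?_)
  have hlA : 0 ≤ Real.log A := Real.log_nonneg hA
  have hlog : Real.log A ≤ Real.log U := Real.log_le_log hA0 hAU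
  obtain ⟨L, hL⟩ : ∃ L : ℝ, L = 1 + Real.log U := ⟨_, rfl⟩
  have hL1 : 1 ≤ L := by rw [hL]; linarith
  rw [← hL]
  have a8 := h8 U A s hU hA hs
  have a2 := h2 U A s hU hA hAU hs
  rw [← hL] at a2
  have acd : (s.card : ℝ) ≤ C₂ * A * L := by
    refine (hcd A s hA hs).trans ?_
    exact mul_le_mul_of_nonneg_left (by rw [hL]; linarith) (by positivity)
  have hN2 : 0 ≤ N2 U s := by
    unfold N2
    exact Finset.sum_nonneg fun _ _ => (Real.exp_pos _).le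
  have h3 : (1 + A / U) ^ 3 ≤ 8 := by
    have h4 : A / U ≤ 1 := (div_le_one hU0).2 hAU
    have h5 : 0 ≤ A / U := by positivity
    calc (1 + A / U) ^ 3 ≤ 2 ^ 3 := pow_le_pow_left₀ (by linarith) (by linarith) 3
      _ = 8 := by norm_num
  have h4 : N8 U s ≤ C₁ * (C₂ * A * L) * 8 * (C₃ * A ^ 2 * (1 + A ^ 2 / U) * L ^ 15) := by
    refine a8.trans ?_
    have h5 : C₁ * (s.card : ℝ) ≤ C₁ * (C₂ * A * L) := mul_le_mul_of_nonneg_left acd hC₁.le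
    have h6 : C₁ * (s.card : ℝ) * (1 + A / U) ^ 3 ≤ C₁ * (C₂ * A * L) * 8 :=
      mul_le_mul h5 h3 (by positivity) (by positivity)
    exact mul_le_mul h6 a2 hN2 (by positivity)
  have h5 : (K * A ^ (-(1 / 2) : ℝ)) ^ 8 = K ^ 8 * (A ^ 4)⁻¹ := by
    rw [mul_pow]
    congr 1
    rw [← Real.rpow_natCast, ← Real.rpow_mul hA0.le, ← Real.rpow_natCast A 4, ← Real.rpow_neg hA0.le]
    norm_num
  rw [h5]
  refine (mul_le_mul_of_nonneg_left h4 (by positivity)).trans (le_of_eq ?_)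
  field_simp
  ring

end Pool.Agent.P07318o
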