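import Pool.Agent.Lib.P07318o.Expand
import Pool.Agent.Lib.P07318o.BandExp
import Pool.Agent.Lib.P07318o.HForm
import Pool.Agent.Lib.P07318o.U3Bk
import Pool.Agent.Lib.P07318o.NmBk
import Pool.Agent.Lib.P07318o.LLcut

/-!
# One slot with middle heights

PROOF. `U = T/4 ≥ 1`, `L = lg T`. If `B ≤ A` the band is empty (`qs A B = ∅`), `Z r = 0`, `LL = 0`. Otherwise take `J : ℕ` minimal with `B ≤ 2^J A`: `J ≤ 1 + log (B/A)/log 2 ≤ 3 L` (`B ≤ T/4`, `A ≥ 1`).
`band_exp` gives `cf`; on `blk A B a` (`a < J`, `A_a = 2^a A`, `A_a < hgt ≤ 2 A_a`, and `A_a ≤ B ≤ U` if the block is not empty; an empty block has `bk = 0`): `‖cf k q‖ ≤ C Λ pk k kl U (A_a) A_a^(-1/2) ≤ K_k A_a^(-1/2)`, `K_k = C Λ pk k L` (`kl_anti`, `kl_le`).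
`expand` with `ι = ℤ × Fin J`, `b (k, a) = bk U (2πk/(32U)) (blk A B a) (cf k)` (continuous, bounded by `∑_{q ∈ blk} ‖cf k q‖ ≤ C' pk k`, summable), `w (k, a) = pk k`, `P = J C_p` (`pk_sum`), `p` any slot `≠ r` (`m + 2 ≥ 3` slots; `hZ`, supports; bounded by `bounded_of`); `[-T, 7T] = [-4U, 28U]`.
Each term: `∫⁻_{Dm} ≤ ∫⁻` over all `h` and `h_form` (measurable: continuous; `nm < ⊤`: `nm_bk` for the slot `r`, hypothesis for the others): `≤ C U3(bk)^(1/4) ∏_{j ≠ r} nm (Z j) ≤ C (C K_k^8 U^4 (1 + log U)^16 (1/A_a + A_a/U))^(1/4) G^(m+1)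
≤ C' K_k² U L^4 (1/A + 4B/T)^(1/4) G^(m+1)` (`u3_bk`, `A ≤ A_a ≤ B`; `Function.update` at `j ≠ r`; `Finset.prod_le_prod'` and `card (univ.erase r) = m + 1`). `∑' (k, a), (pk k)⁻¹ K_k² = J ∑ C² Λ² L² pk k ≤ C J Λ² L²`.
Total `≤ C J² Λ² L^6 T (1/A + B/T)^(1/4) G^(m+1) ≤ C Λ² L^8 T ..`.
-/

set_option autoImplicit false

namespace Pool.Agent.P07318o

open MeasureTheory Complex Pool.Agent.P07318s Pool.Agent.P07318f Pool.Agent.P07318h

namespace MidAux

lemma ex_cont' (p : ℕ+ × ℕ+) : Continuous (fun x : ℝ => ex x p) := by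
  unfold ex
  fun_prop

lemma bk_cont (U η : ℝ) (s : Finset Q) (c : Q → ℂ) : Continuous (bk U η s c) := by
  unfold bk
  refine Continuous.mul (Continuous.mul ?_ ?_) ?_
  · fun_prop
  · fun_prop
  · exact continuous_finsetSum _ fun q _ => continuous_const.mul (ex_cont' q.1)

lemma bk_norm_le {U η : ℝ} {s : Finset Q} {c : Q → ℂ} {M : ℝ} (h : ∀ q ∈ s, ‖c q‖ ≤ M) (y : ℝ) :
    ‖bk U η s c y‖ ≤ s.card * M := by
  unfold bk
  rw [norm_mul, norm_mul, Complex.norm_real, Complex.norm_exp_ofReal_mul_I, mul_one,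
    Real.norm_eq_abs, abs_of_pos (Real.exp_pos _)]
  have h1 : Real.exp (-(y / U) ^ 2) ≤ 1 := by
    rw [Real.exp_le_one_iff]
    have := sq_nonneg (y / U)
    linarith
  have h2 : ‖∑ q ∈ s, c q * ex y q.1‖ ≤ s.card * M := by
    refine (norm_sum_le _ _).trans ?_
    refine (Finset.sum_le_card_nsmul s _ M fun q hq => ?_).trans (le_of_eq (nsmul_eq_mul _ _))
    rw [norm_mul, norm_ex, mul_one]
    exact h q hq
  calc Real.exp (-(y / U) ^ 2) * ‖∑ q ∈ s, c q * ex y q.1‖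
      ≤ 1 * ‖∑ q ∈ s, c q * ex y q.1‖ := mul_le_mul_of_nonneg_right h1 (norm_nonneg _)
    _ ≤ s.card * M := by rw [one_mul]; exact h2

lemma exists_J {A B T : ℝ} (hT : 4 ≤ T) (hA : 1 ≤ A) (hAB : A < B) (hB : B ≤ T / 4) :
    ∃ J : ℕ, B ≤ 2 ^ J * A ∧ (∀ a < J, 2 ^ a * A ≤ B) ∧ (J : ℝ) ≤ 2 * lg T := by
  have hA0 : 0 < A := by linarith
  have hB0 : 0 < B := by linarith
  have hq : 0 < B / A := div_pos hB0 hA0
  have hq1 : 1 < B / A := by rw [one_lt_div hA0]; exact hAB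
  have hlb : 0 ≤ Real.logb 2 (B / A) := Real.logb_nonneg (by norm_num) hq1.le
  have hpow : (2 : ℝ) ^ Real.logb 2 (B / A) = B / A :=
    Real.rpow_logb (by norm_num) (by norm_num) hq
  refine ⟨⌈Real.logb 2 (B / A)⌉₊, ?_, ?_, ?_⟩
  · have h1 : (2 : ℝ) ^ Real.logb 2 (B / A) ≤ (2 : ℝ) ^ ((⌈Real.logb 2 (B / A)⌉₊ : ℕ) : ℝ) :=
      Real.rpow_le_rpow_of_exponent_le (by norm_num) (Nat.le_ceil _)
    rw [hpow, Real.rpow_natCast, div_le_iff₀ hA0] at h1
    exact h1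
  · intro a ha
    have h0 : (a : ℝ) < Real.logb 2 (B / A) := Nat.lt_ceil.1 ha
    have h1 : (2 : ℝ) ^ (a : ℝ) ≤ (2 : ℝ) ^ Real.logb 2 (B / A) :=
      Real.rpow_le_rpow_of_exponent_le (by norm_num) h0.le
    rw [hpow, Real.rpow_natCast, le_div_iff₀ hA0] at h1
    exact h1
  · have h1 := (Nat.ceil_lt_add_one hlb).le
    have h2 : Real.logb 2 (B / A) ≤ 2 * Real.log T := by
      rw [Real.logb, div_le_iff₀ (Real.log_pos (by norm_num))]
      have h3 : Real.log (B / A) ≤ Real.log T := by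
        apply Real.log_le_log hq
        rw [div_le_iff₀ hA0]
        nlinarith
      have h4 : 0 ≤ Real.log T := Real.log_nonneg (by linarith)
      have h5 := Real.log_two_gt_d9
      nlinarith
    unfold lg
    linarith

lemma rp4 {x : ℝ} (hx : 0 ≤ x) : (x ^ (1 / 4 : ℝ)) ^ 4 = x := by
  rw [← Real.rpow_natCast, ← Real.rpow_mul hx]
  norm_num

lemma rp4' {x : ℝ} (hx : 0 ≤ x) : (x ^ 4) ^ (1 / 4 : ℝ) = x := by
  rw [← Real.rpow_natCast, ← Real.rpow_mul hx]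
  norm_num

/-- the bound for the `U³` norm of a block -/
lemma u3_quarter {U3v : ENNReal} {C3 K U l L Y X : ℝ} (hC3 : 0 ≤ C3) (hK : 0 ≤ K) (hU : 0 ≤ U)
    (hl : 0 ≤ l) (hL : l ≤ L) (hY : 0 ≤ Y) (hX : 0 ≤ X) (hYX : Y ≤ 4 * X)
    (h : U3v ≤ ENNReal.ofReal (C3 * K ^ 8 * U ^ 4 * l ^ 16 * Y)) :
    U3v ^ (1 / 4 : ℝ) ≤
      ENNReal.ofReal (C3 ^ (1 / 4 : ℝ) * K ^ 2 * U * L ^ 4 * (4 * X ^ (1 / 4 : ℝ))) := by
  refine (ENNReal.rpow_le_rpow h (by norm_num)).trans ?_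
  rw [ENNReal.ofReal_rpow_of_nonneg (by positivity) (by norm_num)]
  apply ENNReal.ofReal_le_ofReal
  have hL0 : 0 ≤ L := hl.trans hL
  have hW : 0 ≤ C3 ^ (1 / 4 : ℝ) * K ^ 2 * U * L ^ 4 * (4 * X ^ (1 / 4 : ℝ)) := by positivity
  rw [← rp4' hW]
  apply Real.rpow_le_rpow (by positivity) _ (by norm_num)
  have h1 : (C3 ^ (1 / 4 : ℝ) * K ^ 2 * U * L ^ 4 * (4 * X ^ (1 / 4 : ℝ))) ^ 4 =
      C3 * K ^ 8 * U ^ 4 * L ^ 16 * (256 * X) := by
    have e1 := rp4 hC3
    have e2 := rp4 hX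
    calc (C3 ^ (1 / 4 : ℝ) * K ^ 2 * U * L ^ 4 * (4 * X ^ (1 / 4 : ℝ))) ^ 4
        = (C3 ^ (1 / 4 : ℝ)) ^ 4 * K ^ 8 * U ^ 4 * L ^ 16 * (256 * (X ^ (1 / 4 : ℝ)) ^ 4) := by ring
      _ = _ := by rw [e1, e2]
  rw [h1]
  have h2 : l ^ 16 ≤ L ^ 16 := pow_le_pow_left₀ hl hL 16
  have h3 : Y ≤ 256 * X := by linarith
  gcongr

end MidAux

open MidAux in
theorem mid {m : ℕ} (hm : 1 ≤ m) (ν : Fin (m + 1) → ℝ) (hν : Adm ν) : ∃ C : ℝ, 0 < C ∧
    ∀ (κ α T Λ A B G : ℝ) (c : ℝ → ℝ) (Z : Fin (m + 2) → ℝ → ℂ) (r : Fin (m + 2)), 4 ≤ T → 1 ≤ Λ → Cut (T / 4) Λ c →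
    1 ≤ A → B ≤ T / 4 → 0 ≤ B → 0 ≤ G → (∀ j, j ≠ r → Continuous (Z j)) →
    (∀ j, j ≠ r → ∀ y, y ∉ Set.Icc (T / 4) (16 * (T / 4)) → Z j y = 0) → (∀ j, j ≠ r → nm (Z j) ≤ ENNReal.ofReal G) →
    (Z r = ct c (bd A B)) →
    ∫⁻ h in Dm ν κ α T, ‖LL ν κ α Z h‖ₑ ^ 2 ≤
      ENNReal.ofReal (C * Λ ^ 2 * lg T ^ 8 * T * G ^ (m + 1) * (1 / A + B / T) ^ (1 / 4 : ℝ)) := by
  obtain ⟨C1, hC1, hexp⟩ := band_exp
  obtain ⟨C2, hC2, hform⟩ := h_form hm ν hν
  obtain ⟨C3, hC3, hu3⟩ := u3_bk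
  obtain ⟨C4, hC4, hnm⟩ := nm_bk
  obtain ⟨C5, hC5, hpk⟩ := pk_sum
  refine ⟨4 * C5 ^ 2 * C2 * C3 ^ (1 / 4 : ℝ) * C1 ^ 2, by positivity, ?_⟩
  intro κ α T Λ A B G c Z r hT hΛ hc hA hBT hB0 hG hZc hZs hZn hZr
  rcases le_or_gt B A with hBA | hAB
  · -- empty band
    have hbd : ∀ y, bd A B y = 0 := by
      intro y
      unfold bd
      have : qs A B = ∅ := by
        rw [Finset.eq_empty_iff_forall_notMem]
        intro q hq
        rw [mem_qs] at hq
        linarith [hq.1, hq.2]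
      rw [this, Finset.sum_empty]
    have hLL : ∀ h, LL ν κ α Z h = 0 := by
      intro h
      unfold LL
      have : (fun t => ∏ j, Z j (t + xs ν κ α h j)) = fun _ => 0 := by
        funext t
        refine Finset.prod_eq_zero (Finset.mem_univ r) ?_
        rw [hZr]
        unfold ct
        rw [hbd, mul_zero]
      rw [this, integral_zero]
    have : (∫⁻ h in Dm ν κ α T, ‖LL ν κ α Z h‖ₑ ^ 2) = 0 := by
      have h0 : (fun h => ‖LL ν κ α Z h‖ₑ ^ 2) = fun _ => 0 := by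
        funext h
        rw [hLL h]
        simp
      rw [h0, lintegral_zero]
    rw [this]
    exact zero_le
  · obtain ⟨J, hJ1, hJ2, hJ3⟩ := exists_J hT hA hAB hBT
    have hU : 1 ≤ T / 4 := by linarith
    have hU0 : 0 < T / 4 := by linarith
    have hA0 : 0 < A := by linarith
    have hT0 : 0 < T := by linarith
    have hBpos : 0 < B := by linarith
    set L : ℝ := lg T with hL
    have hL1 : 1 ≤ L := by
      rw [hL]; unfold lg
      have := Real.log_nonneg (show (1 : ℝ) ≤ T by linarith)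
      linarith
    set l : ℝ := 1 + Real.log (T / 4) with hl
    have hl0 : 0 ≤ l := by
      have := Real.log_nonneg hU
      rw [hl]; linarith
    have hlL : l ≤ L := by
      rw [hl, hL]; unfold lg
      have := Real.log_le_log hU0 (show T / 4 ≤ T by linarith)
      linarith
    set X : ℝ := 1 / A + B / T with hX
    have hX0 : 0 ≤ X := by positivity
    obtain ⟨cf, hcf, hsum⟩ := hexp (T / 4) Λ A B J c hU hΛ hc hA hJ1
    -- blocks
    set Aa : ℕ → ℝ := fun a => 2 ^ a * A with hAa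
    have hAa1 : ∀ a, 1 ≤ Aa a := by
      intro a
      have : (1 : ℝ) ≤ 2 ^ a := one_le_pow₀ (by norm_num)
      show (1 : ℝ) ≤ 2 ^ a * A
      nlinarith
    have hblk : ∀ a, ∀ q ∈ blk A B a, Aa a ≤ hgt q.1 ∧ hgt q.1 ≤ 2 * Aa a ∧ hgt q.1 ≤ B := by
      intro a q hq
      unfold blk at hq
      rw [Finset.mem_filter, mem_qs] at hq
      obtain ⟨⟨-, h2⟩, h3, h4⟩ := hq
      refine ⟨h3.le, ?_, h2⟩
      show hgt q.1 ≤ 2 * (2 ^ a * A)
      rw [pow_succ] at h4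
      linarith
    set Kk : ℤ → ℝ := fun k => C1 * Λ * pk k * L with hKk
    have hKk0 : ∀ k, 0 ≤ Kk k := by
      intro k
      have := (pk_pos k).le
      show 0 ≤ C1 * Λ * pk k * L
      positivity
    have hcf1 : ∀ k a, ∀ q ∈ blk A B a, ‖cf k q‖ ≤ Kk k * (Aa a) ^ (-(1 / 2) : ℝ) := by
      intro k a q hq
      obtain ⟨h1, h2, h3⟩ := hblk a q hq
      refine (hcf k q).trans ?_
      have h4 := kl_le (U := T / 4) hU (one_le_hgt q.1)
      have h5 := kl_nonneg (U := T / 4) hU (hgt_pos q.1)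
      have h6 : (hgt q.1) ^ (-(1 / 2) : ℝ) ≤ (Aa a) ^ (-(1 / 2) : ℝ) :=
        Real.rpow_le_rpow_of_nonpos (by linarith [hAa1 a]) h1 (by norm_num)
      have h7 : 0 ≤ (hgt q.1) ^ (-(1 / 2) : ℝ) := Real.rpow_nonneg (hgt_pos q.1).le _
      have h8 := (pk_pos k).le
      have h9 : kl (T / 4) (hgt q.1) ≤ L := h4.trans hlL
      calc C1 * Λ * pk k * kl (T / 4) (hgt q.1) * (hgt q.1) ^ (-(1 / 2) : ℝ)
          ≤ C1 * Λ * pk k * L * (Aa a) ^ (-(1 / 2) : ℝ) := by gcongr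
        _ = Kk k * (Aa a) ^ (-(1 / 2) : ℝ) := rfl
    -- the family
    set b : ℤ × Fin J → ℝ → ℂ := fun p =>
      bk (T / 4) (2 * Real.pi * p.1 / (32 * (T / 4))) (blk A B p.2) (cf p.1) with hb
    set β : ℤ × Fin J → ℝ := fun p => pk p.1 * (((blk A B p.2).card : ℝ) * (C1 * Λ * L)) with hβ
    have hbβ : ∀ i y, ‖b i y‖ ≤ β i := by
      rintro ⟨k, a⟩ y
      have h1 : ∀ q ∈ blk A B a, ‖cf k q‖ ≤ Kk k := by
        intro q hq
        refine (hcf1 k a q hq).trans ?_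
        have h2 : (Aa a) ^ (-(1 / 2) : ℝ) ≤ 1 := Real.rpow_le_one_of_one_le_of_nonpos (hAa1 a) (by norm_num)
        have := mul_le_mul_of_nonneg_left h2 (hKk0 k)
        linarith
      refine (bk_norm_le h1 y).trans (le_of_eq ?_)
      show ((blk A B a).card : ℝ) * (C1 * Λ * pk k * L) = pk k * (((blk A B a).card : ℝ) * (C1 * Λ * L))
      ring
    have hβs : Summable β := by
      have h1 : Summable (fun a : Fin J => ((blk A B a).card : ℝ) * (C1 * Λ * L)) :=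
        summable_of_finite_support (Set.toFinite _)
      have h2 : Summable pk := LongPartAux.pk_summable
      exact h2.mul_of_nonneg h1 (fun k => (pk_pos k).le) (fun a => by positivity)
    obtain ⟨p, hpr⟩ : ∃ p : Fin (m + 2), p ≠ r := exists_ne r
    have hwP : ∀ s : Finset (ℤ × Fin J), ∑ i ∈ s, pk i.1 ≤ J * C5 := by
      intro s
      classical
      have h1 : ∑ i ∈ s, pk i.1 ≤ ∑ i ∈ (s.image Prod.fst) ×ˢ (Finset.univ : Finset (Fin J)), pk i.1 := by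
        refine Finset.sum_le_sum_of_subset_of_nonneg ?_ (fun i _ _ => (pk_pos _).le)
        intro i hi
        rw [Finset.mem_product]
        exact ⟨Finset.mem_image_of_mem _ hi, Finset.mem_univ _⟩
      refine h1.trans ?_
      rw [Finset.sum_product]
      simp only [Finset.sum_const, Finset.card_univ, Fintype.card_fin, nsmul_eq_mul]
      rw [← Finset.mul_sum]
      exact mul_le_mul_of_nonneg_left (hpk _) (Nat.cast_nonneg _)
    have hex := expand ν κ α T hT Z r p hpr hZc (fun j hj => bounded_of (hZc j hj) (hZs j hj))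
      (fun y hy => hZs p hpr y (by rwa [show 16 * (T / 4) = 4 * T by ring])) b β (fun i => pk i.1) (J * C5)
      (fun i => bk_cont _ _ _ _) hbβ hβs
      (fun y h1 h2 => by
        rw [hZr]
        exact hsum y (by linarith) (by linarith))
      (fun i => pk_pos i.1) hwP
    refine hex.trans ?_
    -- one term
    set D0 : ℝ := C2 * (C3 ^ (1 / 4 : ℝ) * (C1 * Λ * L) ^ 2 * (T / 4) * L ^ 4 * (4 * X ^ (1 / 4 : ℝ))) *
      G ^ (m + 1) with hD0
    have hD00 : 0 ≤ D0 := by positivity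
    have hterm : ∀ i : ℤ × Fin J, (ENNReal.ofReal (pk i.1))⁻¹ *
        ∫⁻ h in Dm ν κ α T, ‖LL ν κ α (Function.update Z r (b i)) h‖ₑ ^ 2 ≤ ENNReal.ofReal (D0 * pk i.1) := by
      rintro ⟨k, a⟩
      have hpk0 := pk_pos k
      have hblkA : ∀ q ∈ blk A B a, Aa a ≤ hgt q.1 ∧ hgt q.1 ≤ 2 * Aa a :=
        fun q hq => ⟨(hblk a q hq).1, (hblk a q hq).2.1⟩
      have hAaB : Aa a ≤ B := hJ2 a a.2
      have hAaU : Aa a ≤ T / 4 := hAaB.trans hBT
      have hAaA : A ≤ Aa a := by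
        have : (1 : ℝ) ≤ 2 ^ (a : ℕ) := one_le_pow₀ (by norm_num)
        show A ≤ 2 ^ (a : ℕ) * A
        nlinarith
      have hn := hnm (T / 4) (Aa a) (Kk k) (2 * Real.pi * k / (32 * (T / 4))) (blk A B a) (cf k) hU (hAa1 a)
        (hKk0 k) hblkA (hcf1 k a)
      have hu := hu3 (T / 4) (Aa a) (Kk k) (2 * Real.pi * k / (32 * (T / 4))) (blk A B a) (cf k) hU (hAa1 a)
        hAaU (hKk0 k) hblkA (hcf1 k a)
      have hY : 1 / Aa a + Aa a / (T / 4) ≤ 4 * X := by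
        have h1 : 1 / Aa a ≤ 1 / A := one_div_le_one_div_of_le hA0 hAaA
        have h2 : Aa a / (T / 4) ≤ B / (T / 4) := div_le_div_of_nonneg_right hAaB hU0.le
        have h3 : B / (T / 4) = 4 * (B / T) := by field_simp
        have h4 : 0 ≤ 1 / A := by positivity
        have h5 : 0 ≤ B / T := by positivity
        rw [hX]
        linarith
      have hY0 : 0 ≤ 1 / Aa a + Aa a / (T / 4) := by
        have := hAa1 a
        positivity
      have hq := u3_quarter hC3.le (hKk0 k) hU0.le hl0 hlL hY0 hX0 hY hu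
      have hfm := hform κ α (Function.update Z r (b (k, a))) r
        (fun j => by
          by_cases hj : j = r
          · subst hj
            rw [Function.update_self]
            exact (bk_cont _ _ _ _).measurable
          · rw [Function.update_of_ne hj]
            exact (hZc j hj).measurable)
        (fun j => by
          by_cases hj : j = r
          · subst hj
            rw [Function.update_self]
            exact ne_top_of_le_ne_top ENNReal.ofReal_ne_top hn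
          · rw [Function.update_of_ne hj]
            exact ne_top_of_le_ne_top ENNReal.ofReal_ne_top (hZn j hj))
      rw [Function.update_self] at hfm
      have hprod : ∏ j ∈ Finset.univ.erase r, nm (Function.update Z r (b (k, a)) j) ≤
          ENNReal.ofReal (G ^ (m + 1)) := by
        have h1 : ∏ j ∈ Finset.univ.erase r, nm (Function.update Z r (b (k, a)) j) ≤
            ∏ _j ∈ (Finset.univ.erase r : Finset (Fin (m + 2))), ENNReal.ofReal G := by
          refine Finset.prod_le_prod' fun j hj => ?_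
          have hj' := Finset.ne_of_mem_erase hj
          rw [Function.update_of_ne hj']
          exact hZn j hj'
        refine h1.trans (le_of_eq ?_)
        rw [Finset.prod_const, Finset.card_erase_of_mem (Finset.mem_univ r), Finset.card_univ,
          Fintype.card_fin, ENNReal.ofReal_pow hG]
        rfl
      have hint : ∫⁻ h in Dm ν κ α T, ‖LL ν κ α (Function.update Z r (b (k, a))) h‖ₑ ^ 2 ≤
          ENNReal.ofReal (pk k ^ 2 * D0) := by
        refine (setLIntegral_le_lintegral _ _).trans (hfm.trans ?_)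
        have h1 : ENNReal.ofReal C2 * U3 (b (k, a)) ^ (1 / 4 : ℝ) *
            ∏ j ∈ Finset.univ.erase r, nm (Function.update Z r (b (k, a)) j) ≤
            ENNReal.ofReal C2 * ENNReal.ofReal (C3 ^ (1 / 4 : ℝ) * Kk k ^ 2 * (T / 4) * L ^ 4 * (4 * X ^ (1 / 4 : ℝ))) *
              ENNReal.ofReal (G ^ (m + 1)) := by
          gcongr
        refine h1.trans (le_of_eq ?_)
        have hKk0' := hKk0 k
        rw [← ENNReal.ofReal_mul hC2.le, ← ENNReal.ofReal_mul (by positivity)]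
        congr 1
        show C2 * (C3 ^ (1 / 4 : ℝ) * (C1 * Λ * pk k * L) ^ 2 * (T / 4) * L ^ 4 * (4 * X ^ (1 / 4 : ℝ))) *
          G ^ (m + 1) = pk k ^ 2 * (C2 * (C3 ^ (1 / 4 : ℝ) * (C1 * Λ * L) ^ 2 * (T / 4) * L ^ 4 *
            (4 * X ^ (1 / 4 : ℝ))) * G ^ (m + 1))
        ring
      calc (ENNReal.ofReal (pk k))⁻¹ * ∫⁻ h in Dm ν κ α T, ‖LL ν κ α (Function.update Z r (b (k, a))) h‖ₑ ^ 2
          ≤ (ENNReal.ofReal (pk k))⁻¹ * ENNReal.ofReal (pk k ^ 2 * D0) := by gcongr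
        _ = ENNReal.ofReal (D0 * pk k) := by
            rw [← ENNReal.ofReal_inv_of_pos hpk0, ← ENNReal.ofReal_mul (by positivity)]
            congr 1
            field_simp
    have htot : ∑' i : ℤ × Fin J, (ENNReal.ofReal (pk i.1))⁻¹ *
        ∫⁻ h in Dm ν κ α T, ‖LL ν κ α (Function.update Z r (b i)) h‖ₑ ^ 2 ≤ ENNReal.ofReal (D0 * (J * C5)) := by
      refine (ENNReal.tsum_le_tsum hterm).trans ?_
      rw [ENNReal.tsum_eq_iSup_sum]
      refine iSup_le fun s => ?_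
      rw [← ENNReal.ofReal_sum_of_nonneg (fun i _ => mul_nonneg hD00 (pk_pos _).le), ← Finset.mul_sum]
      exact ENNReal.ofReal_le_ofReal (mul_le_mul_of_nonneg_left (hwP s) hD00)
    calc ENNReal.ofReal (J * C5) * ∑' i : ℤ × Fin J, (ENNReal.ofReal (pk i.1))⁻¹ *
        ∫⁻ h in Dm ν κ α T, ‖LL ν κ α (Function.update Z r (b i)) h‖ₑ ^ 2
        ≤ ENNReal.ofReal (J * C5) * ENNReal.ofReal (D0 * (J * C5)) := by gcongr
      _ = ENNReal.ofReal ((J * C5) * (D0 * (J * C5))) := by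
          rw [← ENNReal.ofReal_mul (by positivity)]
      _ ≤ _ := by
          apply ENNReal.ofReal_le_ofReal
          have hJ0 : (0 : ℝ) ≤ J := Nat.cast_nonneg _
          have h1 : (J : ℝ) ^ 2 ≤ (2 * L) ^ 2 := pow_le_pow_left₀ hJ0 hJ3 2
          calc (J * C5) * (D0 * (J * C5)) = (J : ℝ) ^ 2 * (C5 ^ 2 * D0) := by ring
            _ ≤ (2 * L) ^ 2 * (C5 ^ 2 * D0) := mul_le_mul_of_nonneg_right h1 (by positivity)
            _ = 4 * C5 ^ 2 * C2 * C3 ^ (1 / 4 : ℝ) * C1 ^ 2 * Λ ^ 2 * L ^ 8 * T * G ^ (m + 1) *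
                X ^ (1 / 4 : ℝ) := by rw [hD0]; ring

end Pool.Agent.P07318o
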