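import Pool.Agent.Lib.P07318o.NmBlk
import Pool.Agent.Lib.P07318o.FwWin

/-!
# Module NmBand: the `L²` norm of a band

PROOF.  `‖ct c f y‖ ≤ 1_{[U,16U]}(y) ‖f y‖`, so it suffices to bound `∫⁻_{[U,16U]} ‖bd A B y‖²`.  Take the window `c₀` of `exists_win` (`= 1` on `[U, 16U]`) and
`four_g` with `s = 1`: for `y ∈ [U, 16U]` `Om h y = e^{-(y/U)²} ∑_k ω_k(h) ek U k y`, hence (finite sum over `q`)
`bd A B y = ∑_k bk U (2πk/(32U)) (qs A B) (c_k) y`, `c_k q = hgt^(-1/2) ω_k(hgt q)`, `‖c_k q‖ ≤ C Λ₀ pk k · hgt^(-1/2) kl U hgt`.  By Cauchy-Schwarz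
with the weights `pk k` (`P := ∑' pk k`): `‖bd A B y‖² ≤ P ∑_k (pk k)⁻¹ ‖bk .. y‖²` (in `ENNReal`, `tsum`), integrate (`lintegral_tsum`) and use `nm_blk` with
`K = C Λ₀ pk k`: `≤ P ∑_k (pk k)⁻¹ C' (C Λ₀ pk k)² X = C'' P² X`.
-/

set_option autoImplicit false

namespace Pool.Agent.P07318o

open MeasureTheory Complex Pool.Agent.P07318s Pool.Agent.P07318f Pool.Agent.P07318h

namespace NmBandAux

lemma bk_cont (U η : ℝ) (s : Finset Q) (c : Q → ℂ) : Continuous (bk U η s c) := by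
  unfold bk
  refine Continuous.mul (by fun_prop) ?_
  exact continuous_finsetSum _ fun q _ => continuous_const.mul (LongPartAux.ex_cont q.1)

lemma pk_summable' : Summable Pool.Agent.P07318h.pk := by
  refine FourSepAux.summable_inv_sq.congr fun k => ?_
  unfold Pool.Agent.P07318h.pk
  rw [one_div]

end NmBandAux

open NmBandAux in
theorem nm_band : ∃ C : ℝ, 0 < C ∧ ∀ (U Λ A B : ℝ) (c : ℝ → ℝ), 1 ≤ U → Cut U Λ c → 1 ≤ A → A ≤ U → A ≤ B →
    nm (ct c (bd A B)) ≤ ENNReal.ofReal (C * U * (1 + Real.log U) * (1 + Real.log (U / A)) ^ 4) := by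
  obtain ⟨Cf, hCf, hf⟩ := four_g
  obtain ⟨Λ₀, hΛ₀, hwin⟩ := exists_win
  obtain ⟨Cb, hCb, hb⟩ := nm_blk
  obtain ⟨P, hP⟩ : ∃ P : ℝ, P = ∑' k, Pool.Agent.P07318h.pk k := ⟨_, rfl⟩
  have hpp : ∀ k, 0 < Pool.Agent.P07318h.pk k := Pool.Agent.P07318h.pk_pos
  have hP0 : 0 ≤ P := by rw [hP]; exact tsum_nonneg fun k => (hpp k).le
  have hPe : ∑' k, ENNReal.ofReal (Pool.Agent.P07318h.pk k) = ENNReal.ofReal P := by
    rw [hP, ENNReal.ofReal_tsum_of_nonneg (fun k => (hpp k).le) pk_summable']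
  refine ⟨P * (P * (Cb * (Cf * Λ₀) ^ 2)) + 1, by positivity, ?_⟩
  intro U Λ A B c hU hc hA hAU _
  have hU0 : 0 < U := by linarith
  have hA0 : 0 < A := by linarith
  obtain ⟨c₀, hc₀, hc1⟩ := hwin U hU
  obtain ⟨ω, hω1, hω2⟩ := hf U Λ₀ 1 c₀ hU hΛ₀ zero_le_one le_rfl hc₀
  obtain ⟨cc, hcc⟩ : ∃ cc : ℤ → Q → ℂ, cc = fun k q => (((hgt q.1) ^ (-(1 / 2) : ℝ) : ℝ) : ℂ) * ω k (hgt q.1) := ⟨_, rfl⟩
  obtain ⟨η, hη⟩ : ∃ η : ℤ → ℝ, η = fun k : ℤ => 2 * Real.pi * (k : ℝ) / (32 * U) := ⟨_, rfl⟩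
  have hl1 : 0 ≤ Real.log U := Real.log_nonneg hU
  have hl2 : 0 ≤ Real.log (U / A) := Real.log_nonneg ((one_le_div hA0).2 hAU)
  obtain ⟨X, hX⟩ : ∃ X : ℝ, X = U * (1 + Real.log U) * (1 + Real.log (U / A)) ^ 4 := ⟨_, rfl⟩
  have hX0 : 0 ≤ X := by rw [hX]; positivity
  have hsum : ∀ y, U ≤ y → y ≤ 16 * U → HasSum (fun k => bk U (η k) (qs A B) (cc k) y) (bd A B y) := by
    intro y hy1 hy2
    have h1 : ∀ q ∈ qs A B, HasSum (fun k : ℤ => ((Real.exp (-(y / U) ^ 2) : ℝ) : ℂ) *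
        (cexp (((η k * y : ℝ) : ℂ) * I)) * (cc k q * ex y q.1)) (tq q y) := by
      intro q _
      have h2 := (hω2 (hgt q.1) (one_le_hgt q.1) y (by linarith) (by linarith)).mul_left
        (((Real.exp (-(y / U) ^ 2) : ℝ) : ℂ) * ((((hgt q.1) ^ (-(1 / 2) : ℝ) : ℝ) : ℂ) * ex y q.1))
      rw [hc1 y hy1 hy2] at h2
      have e1 : ((Real.exp (-(y / U) ^ 2) : ℝ) : ℂ) * ((((hgt q.1) ^ (-(1 / 2) : ℝ) : ℝ) : ℂ) * ex y q.1) *
          ((1 * Om (hgt q.1) y * Real.exp (1 * (y / U) ^ 2) : ℝ) : ℂ) = tq q y := by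
        unfold tq
        have e2 : Real.exp (-(y / U) ^ 2) * Real.exp (1 * (y / U) ^ 2) = 1 := by
          rw [← Real.exp_add]
          have : -(y / U) ^ 2 + 1 * (y / U) ^ 2 = 0 := by ring
          rw [this, Real.exp_zero]
        have e3 : ((Real.exp (-(y / U) ^ 2) : ℝ) : ℂ) * ((Real.exp (1 * (y / U) ^ 2) : ℝ) : ℂ) = 1 := by
          rw [← Complex.ofReal_mul, e2, Complex.ofReal_one]
        calc ((Real.exp (-(y / U) ^ 2) : ℝ) : ℂ) * ((((hgt q.1) ^ (-(1 / 2) : ℝ) : ℝ) : ℂ) * ex y q.1) *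
              ((1 * Om (hgt q.1) y * Real.exp (1 * (y / U) ^ 2) : ℝ) : ℂ) =
              (((Real.exp (-(y / U) ^ 2) : ℝ) : ℂ) * ((Real.exp (1 * (y / U) ^ 2) : ℝ) : ℂ)) *
              ((((hgt q.1) ^ (-(1 / 2) : ℝ) * Om (hgt q.1) y : ℝ) : ℂ) * ex y q.1) := by
              push_cast
              ring
          _ = _ := by rw [e3, one_mul]
      rw [e1] at h2
      refine h2.congr_fun ?_
      intro k
      rw [hcc, hη]
      unfold Pool.Agent.P07318h.ek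
      simp only
      have e4 : 2 * Real.pi * (k : ℝ) * y / (32 * U) = 2 * Real.pi * (k : ℝ) / (32 * U) * y := by ring
      rw [e4]
      ring
    have h3 := hasSum_sum h1
    unfold bd
    refine h3.congr_fun ?_
    intro k
    unfold bk
    rw [Finset.mul_sum]
  have hpt : ∀ y, ‖ct c (bd A B) y‖ₑ ^ 2 ≤ ENNReal.ofReal P *
      ∑' k, (ENNReal.ofReal (Pool.Agent.P07318h.pk k))⁻¹ * ‖bk U (η k) (qs A B) (cc k) y‖ₑ ^ 2 := by
    intro y
    by_cases hy : y ∈ Set.Icc U (16 * U)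
    · have h1 : ‖ct c (bd A B) y‖ₑ ≤ ‖bd A B y‖ₑ := by
        unfold ct
        rw [← ofReal_norm, ← ofReal_norm]
        apply ENNReal.ofReal_le_ofReal
        rw [norm_mul, Complex.norm_real, Real.norm_eq_abs, abs_of_nonneg (hc.nonneg y)]
        calc c y * ‖bd A B y‖ ≤ 1 * ‖bd A B y‖ := mul_le_mul_of_nonneg_right (hc.le_one y) (norm_nonneg _)
          _ = _ := one_mul _
      have h2 : ‖bd A B y‖ₑ ≤ ∑' k, ‖bk U (η k) (qs A B) (cc k) y‖ₑ := by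
        rw [← (hsum y hy.1 hy.2).tsum_eq]
        exact enorm_tsum_le_tsum_enorm
      have h3 := LongPartAux.cs (fun k => ENNReal.ofReal (Pool.Agent.P07318h.pk k))
        (fun k => ‖bk U (η k) (qs A B) (cc k) y‖ₑ)
        (fun k => by rw [ne_eq, ENNReal.ofReal_eq_zero, not_le]; exact hpp k) (fun k => ENNReal.ofReal_ne_top)
      rw [hPe] at h3
      refine le_trans ?_ h3
      exact pow_le_pow_left₀ zero_le (h1.trans h2) 2
    · have h1 : ct c (bd A B) y = 0 := by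
        unfold ct
        rw [hc.supp y hy]
        simp
      rw [h1]
      simp
  have hbk : ∀ k, nm (bk U (η k) (qs A B) (cc k)) ≤
      ENNReal.ofReal (Pool.Agent.P07318h.pk k) * (ENNReal.ofReal (Pool.Agent.P07318h.pk k) *
        ENNReal.ofReal (Cb * (Cf * Λ₀) ^ 2 * X)) := by
    intro k
    have hk := hpp k
    have h1 := hb U A B (Cf * Λ₀ * Pool.Agent.P07318h.pk k) (η k) (cc k) hU hA hAU (by positivity) (by
      intro q _
      rw [hcc]
      simp only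
      rw [norm_mul, Complex.norm_real, Real.norm_eq_abs, abs_of_nonneg (Real.rpow_nonneg (hgt_pos q.1).le _)]
      have h2 := hω1 k (hgt q.1) (one_le_hgt q.1)
      calc (hgt q.1) ^ (-(1 / 2) : ℝ) * ‖ω k (hgt q.1)‖ ≤
            (hgt q.1) ^ (-(1 / 2) : ℝ) * (Cf * Λ₀ * Pool.Agent.P07318h.pk k * kl U (hgt q.1)) :=
            mul_le_mul_of_nonneg_left h2 (Real.rpow_nonneg (hgt_pos q.1).le _)
        _ = _ := by ring)
    refine h1.trans (le_of_eq ?_)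
    rw [← ENNReal.ofReal_mul hk.le, ← ENNReal.ofReal_mul hk.le, hX]
    congr 1
    ring
  have hfin : nm (ct c (bd A B)) ≤ ENNReal.ofReal P * (ENNReal.ofReal P * ENNReal.ofReal (Cb * (Cf * Λ₀) ^ 2 * X)) := by
    unfold nm
    refine (lintegral_mono hpt).trans ?_
    have hmeas : ∀ k : ℤ, Measurable (fun y => (ENNReal.ofReal (Pool.Agent.P07318h.pk k))⁻¹ *
        ‖bk U (η k) (qs A B) (cc k) y‖ₑ ^ 2) := by
      intro k
      exact ((bk_cont _ _ _ _).measurable.enorm.pow_const 2).const_mul _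
    rw [lintegral_const_mul _ (Measurable.tsum hmeas)]
    refine mul_le_mul_right ?_ _
    rw [lintegral_tsum (fun k => (hmeas k).aemeasurable)]
    have h2 : ∀ k : ℤ, ∫⁻ y, (ENNReal.ofReal (Pool.Agent.P07318h.pk k))⁻¹ * ‖bk U (η k) (qs A B) (cc k) y‖ₑ ^ 2 ≤
        ENNReal.ofReal (Pool.Agent.P07318h.pk k) * ENNReal.ofReal (Cb * (Cf * Λ₀) ^ 2 * X) := by
      intro k
      have hp0 : ENNReal.ofReal (Pool.Agent.P07318h.pk k) ≠ 0 := by
        rw [ne_eq, ENNReal.ofReal_eq_zero, not_le]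
        exact hpp k
      have hp1 : ENNReal.ofReal (Pool.Agent.P07318h.pk k) ≠ ⊤ := ENNReal.ofReal_ne_top
      rw [lintegral_const_mul _ ((bk_cont _ _ _ _).measurable.enorm.pow_const 2)]
      refine (mul_le_mul_right (hbk k) _).trans (le_of_eq ?_)
      rw [← mul_assoc, ENNReal.inv_mul_cancel hp0 hp1, one_mul]
    refine (ENNReal.tsum_le_tsum h2).trans (le_of_eq ?_)
    rw [ENNReal.tsum_mul_right, hPe]
  refine hfin.trans ?_
  rw [← ENNReal.ofReal_mul hP0, ← ENNReal.ofReal_mul hP0]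
  apply ENNReal.ofReal_le_ofReal
  have e : (P * (P * (Cb * (Cf * Λ₀) ^ 2)) + 1) * U * (1 + Real.log U) * (1 + Real.log (U / A)) ^ 4 =
      P * (P * (Cb * (Cf * Λ₀) ^ 2 * X)) + X := by
    rw [hX]; ring
  rw [e]
  linarith

end Pool.Agent.P07318o
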