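import Pool.Agent.Lib.P07318o.NmBk
import Pool.Agent.Lib.P07318o.FwDefs

/-!
# Module NmBlk: the `L²` norm of a Gaussian times a long trigonometric polynomial (sum of dyadic blocks)

PROOF.  `A_j = 2^j A`, `s_j = {q ∈ qs A B : A_j < hgt q ≤ A_{j+1}}`, `j < J` with `2^J A ≥ B`; `bk U η (qs A B) c = ∑_{j<J} bk U η s_j c`.
By `nm_bk` with `K_j = K kl(U, A_j)` (`klw_anti`, `hgt^(-1/2) ≤ A_j^(-1/2)`) `nm (bk U η s_j c) ≤ C K² v_j²`,
`v_j² = kl(U, A_j)² (U + A_j) (1 + log A_j)`, `v_j > 0`.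
* `A_j ≤ U`: `v_j² ≤ (1 + log (U/A))² 2U (1 + log U)`; the number of such `j` is `≤ 1 + log (U/A)/log 2 ≤ 2 (1 + log (U/A))`.
* `A_j > U`: `v_j² ≤ (U/A_j)⁴ 2A_j (1 + log A_j) ≤ 2U (1 + log U) (U/A_j)²` (as `1 + log A_j ≤ (1 + log U)(1 + log (A_j/U))` and `1 + log x ≤ x`), and
  `∑_{A_j > U} U/A_j ≤ 2` (geometric).
So `∑ v_j ≤ 4 (2U (1 + log U))^{1/2} (1 + log (U/A))²`.  Finally `‖∑ x_j‖² ≤ (∑ v_j) (∑ v_j⁻¹ ‖x_j‖²)` (Cauchy-Schwarz, `Finset.sum_div_..`/
`inner_mul_le_norm_mul_norm`), integrate: `nm ≤ (∑ v_j) ∑ v_j⁻¹ C K² v_j² = C K² (∑ v_j)²`.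
(`qs A B` is empty for `B ≤ A`.)
-/

set_option autoImplicit false

namespace Pool.Agent.P07318o

open MeasureTheory Complex Pool.Agent.P07318s Pool.Agent.P07318f Pool.Agent.P07318h

namespace NmBlkAux

theorem bk_cont (U η : ℝ) (s : Finset Q) (c : Q → ℂ) : Continuous (bk U η s c) := by
  unfold bk ex
  refine Continuous.mul ?_ ?_
  · fun_prop
  · refine continuous_finsetSum _ fun q _ => ?_
    fun_prop

/-- weighted Cauchy-Schwarz for finitely many functions -/
theorem nm_sum_le (J : ℕ) (x : ℕ → ℝ → ℂ) (hx : ∀ j, Continuous (x j)) (w : ℕ → ℝ)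
    (hw : ∀ j, 0 < w j) {D : ℝ} (hD : 0 ≤ D) (hn : ∀ j, nm (x j) ≤ ENNReal.ofReal (D * w j ^ 2)) :
    nm (fun y => ∑ j ∈ Finset.range J, x j y) ≤
      ENNReal.ofReal (D * (∑ j ∈ Finset.range J, w j) ^ 2) := by
  set V := ∑ j ∈ Finset.range J, w j with hV
  have hV0 : 0 ≤ V := Finset.sum_nonneg fun j _ => (hw j).le
  have h1 : ∀ y, ‖∑ j ∈ Finset.range J, x j y‖ₑ ^ 2 ≤
      ENNReal.ofReal V * ∑ j ∈ Finset.range J, ENNReal.ofReal (w j)⁻¹ * ‖x j y‖ₑ ^ 2 := by
    intro y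
    have e1 : ∀ z : ℂ, ‖z‖ₑ ^ 2 = ENNReal.ofReal (‖z‖ ^ 2) := fun z => by
      rw [ENNReal.ofReal_pow (norm_nonneg _), ofReal_norm]
    have e2 : ∀ j, ENNReal.ofReal (w j)⁻¹ * ‖x j y‖ₑ ^ 2 =
        ENNReal.ofReal ((w j)⁻¹ * ‖x j y‖ ^ 2) := fun j => by
      rw [e1, ENNReal.ofReal_mul (inv_nonneg.2 (hw j).le)]
    simp only [e2]
    rw [e1, ← ENNReal.ofReal_sum_of_nonneg (fun j _ => by
      have := (hw j).le
      positivity), ← ENNReal.ofReal_mul hV0]
    refine ENNReal.ofReal_le_ofReal ?_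
    have h2 : ‖∑ j ∈ Finset.range J, x j y‖ ^ 2 ≤ (∑ j ∈ Finset.range J, ‖x j y‖) ^ 2 :=
      pow_le_pow_left₀ (norm_nonneg _) (norm_sum_le _ _) 2
    refine h2.trans ?_
    refine Finset.sum_sq_le_sum_mul_sum_of_sq_le_mul _ (fun j _ => (hw j).le) (fun j _ => ?_)
      (fun j _ => ?_)
    · have := (hw j).le
      positivity
    · refine le_of_eq ?_
      rw [← mul_assoc, mul_inv_cancel₀ (hw j).ne', one_mul]
  have hm : ∀ j, Measurable fun y => ‖x j y‖ₑ ^ 2 := fun j =>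
    (hx j).measurable.enorm.pow_const 2
  calc nm (fun y => ∑ j ∈ Finset.range J, x j y)
      ≤ ∫⁻ y, ENNReal.ofReal V *
          ∑ j ∈ Finset.range J, ENNReal.ofReal (w j)⁻¹ * ‖x j y‖ₑ ^ 2 := lintegral_mono h1
    _ = ENNReal.ofReal V * ∑ j ∈ Finset.range J, ENNReal.ofReal (w j)⁻¹ * nm (x j) := by
        rw [lintegral_const_mul _ (Finset.measurable_fun_sum _ fun j _ =>
          (hm j).const_mul _), lintegral_finsetSum _ fun j _ => (hm j).const_mul _]
        congr 1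
        refine Finset.sum_congr rfl fun j _ => ?_
        rw [lintegral_const_mul _ (hm j)]
        rfl
    _ ≤ ENNReal.ofReal V * ∑ j ∈ Finset.range J, ENNReal.ofReal (D * w j) := by
        refine mul_le_mul' le_rfl (Finset.sum_le_sum fun j _ => ?_)
        refine (mul_le_mul' le_rfl (hn j)).trans (le_of_eq ?_)
        rw [← ENNReal.ofReal_mul (inv_nonneg.2 (hw j).le)]
        congr 1
        have := (hw j).ne'
        field_simp
    _ = ENNReal.ofReal (D * V ^ 2) := by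
        rw [← ENNReal.ofReal_sum_of_nonneg (fun j _ => mul_nonneg hD (hw j).le),
          ← ENNReal.ofReal_mul hV0, ← Finset.mul_sum, ← hV]
        congr 1
        ring

/-- the sum over the dyadic blocks -/
theorem sum_blocks (s : Finset Q) (f : Q → ℂ) {A : ℝ} (hs : ∀ q ∈ s, A < hgt q.1) (J : ℕ) :
    ∑ q ∈ s.filter (fun q => hgt q.1 ≤ 2 ^ J * A), f q =
      ∑ j ∈ Finset.range J, ∑ q ∈ s.filter
        (fun q => 2 ^ j * A < hgt q.1 ∧ hgt q.1 ≤ 2 ^ (j + 1) * A), f q := by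
  induction J with
  | zero =>
    rw [Finset.range_zero, Finset.sum_empty, Finset.sum_filter]
    refine Finset.sum_eq_zero fun q hq => ?_
    rw [if_neg]
    have := hs q hq
    rw [pow_zero, one_mul]
    exact not_le.2 this
  | succ J ih =>
    rw [Finset.sum_range_succ, ← ih, Finset.sum_filter, Finset.sum_filter, Finset.sum_filter,
      ← Finset.sum_add_distrib]
    refine Finset.sum_congr rfl fun q hq => ?_
    have hA : (0 : ℝ) ≤ 2 ^ J * A ∨ 2 ^ J * A < 0 := le_or_gt _ _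
    have h2 : (2 : ℝ) ^ (J + 1) * A = 2 * (2 ^ J * A) := by rw [pow_succ]; ring
    have hq0 : 0 < hgt q.1 := hgt_pos q.1
    by_cases h3 : hgt q.1 ≤ 2 ^ J * A
    · have h4 : hgt q.1 ≤ 2 ^ (J + 1) * A := by rw [h2]; linarith
      rw [if_pos h3, if_pos h4, if_neg (fun h => absurd h.1 (not_lt.2 h3)), add_zero]
    · rw [if_neg h3, zero_add]
      by_cases h4 : hgt q.1 ≤ 2 ^ (J + 1) * A
      · rw [if_pos h4, if_pos ⟨not_le.1 h3, h4⟩]
      · rw [if_neg h4, if_neg (fun h => h4 h.2)]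

/-- the estimate for the weights in the range `A_j ≤ U` -/
theorem wt_low {U A a : ℝ} (hU : 1 ≤ U) (hA : 1 ≤ A) (ha : A ≤ a) (haU : a ≤ U) :
    kl U a ^ 2 * ((U + a) * (1 + Real.log a)) ≤
      (1 + Real.log (U / A)) ^ 2 * (2 * U * (1 + Real.log U)) := by
  have hA0 : 0 < A := by linarith
  have ha0 : 0 < a := by linarith
  have h1 : kl U a ≤ 1 + Real.log (U / A) := by
    unfold kl
    rw [if_pos haU]
    have : Real.log (U / a) ≤ Real.log (U / A) :=
      Real.log_le_log (by positivity) (div_le_div_of_nonneg_left (by linarith) hA0 ha)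
    linarith
  have h2 : 0 ≤ kl U a := klw_nonneg ha0
  have h3 : 0 ≤ Real.log a := Real.log_nonneg (by linarith)
  have h4 : Real.log a ≤ Real.log U := Real.log_le_log ha0 haU
  refine mul_le_mul (pow_le_pow_left₀ h2 h1 2) (mul_le_mul (by linarith) (by linarith)
    (by linarith) (by linarith)) (by positivity) (by positivity)

/-- the estimate for the weights in the range `A_j > U` -/
theorem wt_high {U a : ℝ} (hU : 1 ≤ U) (ha : U < a) :
    kl U a ^ 2 * ((U + a) * (1 + Real.log a)) ≤ (U / a) ^ 2 * (2 * U * (1 + Real.log U)) := by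
  have hU0 : 0 < U := by linarith
  have ha0 : 0 < a := by linarith
  have hlU : 0 ≤ Real.log U := Real.log_nonneg hU
  set x := a / U with hx
  have hx1 : 1 < x := by rw [hx, one_lt_div hU0]; exact ha
  have hx0 : 0 < x := by linarith
  have hax : a = U * x := by rw [hx]; field_simp
  have hlx : Real.log x ≤ x - 1 := Real.log_le_sub_one_of_pos hx0
  have hlx0 : 0 ≤ Real.log x := Real.log_nonneg hx1.le
  have hla : Real.log a = Real.log U + Real.log x := by
    rw [hax, Real.log_mul hU0.ne' hx0.ne']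
  have h1 : 1 + Real.log a ≤ (1 + Real.log U) * x := by
    rw [hla]
    nlinarith
  have h2 : U + a ≤ 2 * U * x := by rw [hax]; nlinarith
  have h3 : kl U a = (U / a) ^ 2 := by
    unfold kl
    rw [if_neg (not_le.2 ha)]
  have h4 : U / a = x⁻¹ := by rw [hx, inv_div]
  rw [h3, h4]
  have h5 : (U + a) * (1 + Real.log a) ≤ 2 * U * x * ((1 + Real.log U) * x) :=
    mul_le_mul h2 h1 (by rw [hla]; linarith) (by positivity)
  calc ((x⁻¹) ^ 2) ^ 2 * ((U + a) * (1 + Real.log a))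
      ≤ ((x⁻¹) ^ 2) ^ 2 * (2 * U * x * ((1 + Real.log U) * x)) :=
        mul_le_mul_of_nonneg_left h5 (by positivity)
    _ = (x⁻¹) ^ 2 * (2 * U * (1 + Real.log U)) := by
        field_simp

end NmBlkAux

open NmBlkAux

theorem nm_blk : ∃ C : ℝ, 0 < C ∧ ∀ (U A B K η : ℝ) (c : Q → ℂ), 1 ≤ U → 1 ≤ A → A ≤ U → 0 ≤ K →
    (∀ q ∈ qs A B, ‖c q‖ ≤ K * (hgt q.1) ^ (-(1 / 2) : ℝ) * kl U (hgt q.1)) →
    nm (bk U η (qs A B) c) ≤ ENNReal.ofReal (C * K ^ 2 * U * (1 + Real.log U) * (1 + Real.log (U / A)) ^ 4) := by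
  classical
  obtain ⟨C₀, hC₀, H⟩ := nm_bk
  refine ⟨32 * C₀, by positivity, ?_⟩
  intro U A B K η c hU hA hAU hK hc
  have hU0 : 0 < U := by linarith
  have hA0 : 0 < A := by linarith
  have hlU : 0 ≤ Real.log U := Real.log_nonneg hU
  have hlUA : 0 ≤ Real.log (U / A) := Real.log_nonneg ((one_le_div hA0).2 hAU)
  set lam := 1 + Real.log (U / A) with hlam
  have hlam1 : 1 ≤ lam := by linarith
  set S := Real.sqrt (2 * U * (1 + Real.log U)) with hS
  have hS2 : S ^ 2 = 2 * U * (1 + Real.log U) := Real.sq_sqrt (by positivity)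
  have hS0 : 0 < S := Real.sqrt_pos.2 (by positivity)
  -- the first index beyond `U`
  have hex : ∃ n : ℕ, U < 2 ^ n * A := by
    obtain ⟨n, hn⟩ := pow_unbounded_of_one_lt (U / A) (one_lt_two : (1 : ℝ) < 2)
    exact ⟨n, (div_lt_iff₀ hA0).1 hn⟩
  set n := Nat.find hex with hn
  have hn1 : U < 2 ^ n * A := Nat.find_spec hex
  have hn2 : ∀ j < n, 2 ^ j * A ≤ U := fun j hj => not_lt.1 (Nat.find_min hex hj)
  have hnle : (n : ℝ) ≤ 2 * lam := by
    rcases Nat.eq_zero_or_pos n with h0 | hpos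
    · rw [h0]; push_cast; linarith
    · have h1 := hn2 (n - 1) (by omega)
      have h2 : (2 : ℝ) ^ (n - 1) ≤ U / A := (le_div_iff₀ hA0).2 h1
      have h3 := Real.log_le_log (by positivity) h2
      rw [Real.log_pow] at h3
      have h4 : ((n - 1 : ℕ) : ℝ) = (n : ℝ) - 1 := by
        rw [Nat.cast_sub hpos, Nat.cast_one]
      rw [h4] at h3
      have h5 : (1 : ℝ) / 2 < Real.log 2 := by linarith [Real.log_two_gt_d9]
      rcases le_or_gt ((n : ℝ) - 1) 0 with h6 | h6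
      · linarith
      · nlinarith
  obtain ⟨J', hJ'⟩ : ∃ J' : ℕ, B ≤ 2 ^ (n + J') * A := by
    obtain ⟨m, hm⟩ := pow_unbounded_of_one_lt (B / A) (one_lt_two : (1 : ℝ) < 2)
    refine ⟨m, ?_⟩
    have h1 := ((div_lt_iff₀ hA0).1 hm).le
    refine h1.trans (mul_le_mul_of_nonneg_right ?_ hA0.le)
    exact pow_le_pow_right₀ (by norm_num) (by omega)
  set J := n + J' with hJ
  set sj : ℕ → Finset Q := fun j => (qs A B).filter
    (fun q => 2 ^ j * A < hgt q.1 ∧ hgt q.1 ≤ 2 ^ (j + 1) * A) with hsj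
  set w : ℕ → ℝ := fun j => if j < n then S * lam else S * (1 / 2) ^ (j - n) with hw
  have hw0 : ∀ j, 0 < w j := by
    intro j
    simp only [hw]
    split_ifs <;> positivity
  have hdec : bk U η (qs A B) c = fun y => ∑ j ∈ Finset.range J, bk U η (sj j) c y := by
    funext y
    unfold bk
    rw [← Finset.mul_sum]
    congr 1
    have h1 := sum_blocks (qs A B) (fun q => c q * ex y q.1) (A := A)
      (fun q hq => (mem_qs.1 hq).1) J
    rw [← h1]
    rw [Finset.filter_true_of_mem]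
    intro q hq
    exact (mem_qs.1 hq).2.trans hJ'
  have hblock : ∀ j, nm (bk U η (sj j) c) ≤ ENNReal.ofReal (C₀ * K ^ 2 * w j ^ 2) := by
    intro j
    set a := 2 ^ j * A with ha
    have h2j : (1 : ℝ) ≤ 2 ^ j := one_le_pow₀ (by norm_num)
    have haA : A ≤ a := by rw [ha]; nlinarith
    have ha1 : 1 ≤ a := by linarith
    have ha0 : 0 < a := by linarith
    have hkl : 0 ≤ kl U a := klw_nonneg ha0
    have h1 := H U a (K * kl U a) η (sj j) c hU ha1 (mul_nonneg hK hkl) (by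
      intro q hq
      obtain ⟨_, h2, h3⟩ := Finset.mem_filter.1 hq
      refine ⟨h2.le, h3.trans (le_of_eq ?_)⟩
      rw [ha, pow_succ]; ring) (by
      intro q hq
      obtain ⟨h1, h2, h3⟩ := Finset.mem_filter.1 hq
      refine (hc q h1).trans ?_
      have h4 : (hgt q.1) ^ (-(1 / 2) : ℝ) ≤ a ^ (-(1 / 2) : ℝ) :=
        Real.rpow_le_rpow_of_nonpos ha0 h2.le (by norm_num)
      have h5 : kl U (hgt q.1) ≤ kl U a := klw_anti ha0 hU0 h2.le
      have h6 : 0 ≤ kl U (hgt q.1) := klw_nonneg (hgt_pos q.1)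
      have h7 : (0 : ℝ) ≤ (hgt q.1) ^ (-(1 / 2) : ℝ) := Real.rpow_nonneg (hgt_pos q.1).le _
      calc K * (hgt q.1) ^ (-(1 / 2) : ℝ) * kl U (hgt q.1)
          = K * ((hgt q.1) ^ (-(1 / 2) : ℝ) * kl U (hgt q.1)) := by ring
        _ ≤ K * (a ^ (-(1 / 2) : ℝ) * kl U a) :=
            mul_le_mul_of_nonneg_left (mul_le_mul h4 h5 h6 (Real.rpow_nonneg ha0.le _)) hK
        _ = K * kl U a * a ^ (-(1 / 2) : ℝ) := by ring)
    refine h1.trans (ENNReal.ofReal_le_ofReal ?_)
    have e1 : C₀ * (K * kl U a) ^ 2 * (U + a) * (1 + Real.log a) =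
        C₀ * K ^ 2 * (kl U a ^ 2 * ((U + a) * (1 + Real.log a))) := by ring
    rw [e1]
    refine mul_le_mul_of_nonneg_left ?_ (by positivity)
    by_cases hj : j < n
    · have h2 := wt_low hU hA haA (hn2 j hj)
      simp only [hw, if_pos hj]
      rw [mul_pow, hS2]
      linarith
    · push Not at hj
      have h3 : (2 : ℝ) ^ (j - n) * (2 ^ n * A) = a := by
        rw [ha, ← mul_assoc, ← pow_add, Nat.sub_add_cancel hj]
      have h4 : (2 : ℝ) ^ (j - n) * U < a := by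
        rw [← h3]
        exact mul_lt_mul_of_pos_left hn1 (by positivity)
      have h5 : U < a := by
        have : (1 : ℝ) ≤ 2 ^ (j - n) := one_le_pow₀ (by norm_num)
        nlinarith
      have h6 := wt_high hU h5
      have h7 : U / a ≤ (1 / 2) ^ (j - n) := by
        rw [div_le_iff₀ ha0, one_div, inv_pow, inv_mul_eq_div, le_div_iff₀ (by positivity)]
        linarith
      simp only [hw, if_neg (not_lt.2 hj)]
      rw [mul_pow, hS2]
      refine h6.trans ?_
      rw [mul_comm (2 * U * (1 + Real.log U))]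
      refine mul_le_mul_of_nonneg_right ?_ (by positivity)
      exact pow_le_pow_left₀ (by positivity) h7 2
  have hV : ∑ j ∈ Finset.range J, w j ≤ 4 * S * lam ^ 2 := by
    rw [hJ, Finset.sum_range_add]
    have h1 : ∑ j ∈ Finset.range n, w j ≤ 2 * lam * (S * lam) := by
      have h2 : ∀ j ∈ Finset.range n, w j = S * lam := by
        intro j hj
        simp only [hw, if_pos (Finset.mem_range.1 hj)]
      rw [Finset.sum_congr rfl h2, Finset.sum_const, Finset.card_range, nsmul_eq_mul]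
      exact mul_le_mul_of_nonneg_right hnle (by positivity)
    have h3 : ∑ j ∈ Finset.range J', w (n + j) ≤ 2 * S := by
      have h4 : ∀ j ∈ Finset.range J', w (n + j) = S * (1 / 2) ^ j := by
        intro j _
        simp only [hw, if_neg (show ¬ n + j < n by omega), Nat.add_sub_cancel_left]
      rw [Finset.sum_congr rfl h4, ← Finset.mul_sum]
      have := sum_geometric_two_le J'
      nlinarith
    have h5 : 1 ≤ lam ^ 2 := one_le_pow₀ hlam1
    nlinarith
  have hV0 : 0 ≤ ∑ j ∈ Finset.range J, w j := Finset.sum_nonneg fun j _ => (hw0 j).le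
  rw [hdec]
  refine (nm_sum_le J (fun j => bk U η (sj j) c) (fun j => bk_cont U η (sj j) c) w hw0
    (D := C₀ * K ^ 2) (by positivity) hblock).trans (ENNReal.ofReal_le_ofReal ?_)
  have h6 := pow_le_pow_left₀ hV0 hV 2
  calc C₀ * K ^ 2 * (∑ j ∈ Finset.range J, w j) ^ 2 ≤ C₀ * K ^ 2 * (4 * S * lam ^ 2) ^ 2 :=
        mul_le_mul_of_nonneg_left h6 (by positivity)
    _ = C₀ * K ^ 2 * (16 * S ^ 2 * lam ^ 4) := by ring
    _ = 32 * C₀ * K ^ 2 * U * (1 + Real.log U) * lam ^ 4 := by rw [hS2]; ring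

end Pool.Agent.P07318o
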